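import Pool.Agent.Work.MP_82fd4a_nt.P.Cert

/-! The interface between the sieve and the numerical certificate, with more admissible sets. -/

set_option autoImplicit false

namespace Pool.Agent.Work.MP_82fd4a_nt.P

/-- cells `D`, with cofactor in the cell `e`, that are admissible for the type I estimate; in the second
case a block of `D` is so long that no small part has to be added -/
def Adm2 (P : Par) (D : List ℕ) (e : ℕ) : Prop := ∃ p ∈ splits D,
  2 * (p.2.sum + min p.2.length (P.N - e - D.sum)) ≤ P.N ∧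
    (p.1.sum + min p.1.length (P.N - e - D.sum) ≤ P.Q ∨
      P.T ≤ P.G * p.2.sum ∧ 2 * (D.sum + (P.N - e - D.sum)) ≤ P.N + 2 * P.Q)

/-- what is required of the table -/
structure Cert2 (P : Par) (lam : List ℕ → ℕ → ℝ) : Prop where
  nil : ∀ e, lam [] e = 1
  bd : ∀ D e, |lam D e| ≤ 2 ^ 20
  adm : ∀ D e, D.Pairwise (· ≤ ·) → lam D e ≠ 0 → Adm2 P D e
  neg : ∀ B δ t, 0 < B → δ ≤ B → Hyp P B δ t → 2 ≤ t.length →
    ¬ GoodL (P.T * B : ℕ) (P.N * (P.G * B) : ℕ) (1 / 8192) t → W lam (P.G * B) t ≤ 0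
  loss : ∀ B δ κ μ Ψ, 0 < B → δ ≤ B → 1 ≤ κ → Mass P B κ μ → Dom P lam B δ Ψ →
    tot (P.N * (P.G * B)) μ Ψ 31 [] ≤ κ ^ 30 * (998 / 1000)

theorem Cert.two {P : Par} {lam : List ℕ → ℕ → ℝ} (h : Cert P lam) : Cert2 P lam :=
  ⟨h.nil, h.bd, fun D e h1 h2 => (h.adm D e h1 h2).imp fun _ h3 => ⟨h3.1, h3.2.2, Or.inl h3.2.1⟩,
    h.neg, h.loss⟩

end Pool.Agent.Work.MP_82fd4a_nt.P
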