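import Pool.Agent.Work.MP_82fd4a_nt.P.Chk

/-! The check of the support of the table, with more admissible sets. -/

set_option autoImplicit false

namespace Pool.Agent.Work.MP_82fd4a_nt.P

open BS Y

noncomputable section

/-- zero if an entry of the table is acceptable; `L` is the least size of a long block -/
def okv2 (N Q L v : ℕ) (l : List ℕ) : ℕ :=
  iz v 0 (fz (ln l) fun n => fz (tpl v n) fun ρ => iz ρ 0 (msk l (Nat.mod v 1048576) 0 0 fun q m =>
    il (Nat.mul 2 (Nat.add (Nat.sub (sm l) q) (mn (Nat.sub n m) ρ))) N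
      (il (Nat.add q (mn m ρ)) Q 0 (il L (Nat.sub (sm l) q)
        (il (Nat.mul 2 (Nat.add (sm l) ρ)) (Nat.add N (Nat.mul 2 Q)) 0 1) 1)) 1))

/-- zero if all the entries are acceptable -/
def chk2 (N Q L : ℕ) (s : Tr) : ℕ → List ℕ → ℕ :=
  Tr.rec (fun _ _ => 0) (fun v _ _ ihk ihr a pre => fl (snoc pre a) fun l =>
    Nat.add (Nat.add (okv2 N Q L v l) (ihk a l)) (fz (Nat.succ a) fun a' => ihr a' pre)) s

end

end Pool.Agent.Work.MP_82fd4a_nt.P
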