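import Pool.Agent.Work.MP_82fd4a_nt.P.KFin
import Pool.Agent.Work.MP_82fd4a_nt.P.Ck2
import Pool.Agent.Work.MP_82fd4a_nt.P.Cert2

/-! From the computations to the certificate, with more admissible sets. -/

set_option autoImplicit false
open Finset

namespace Pool.Agent.Work.MP_82fd4a_nt.P

open BS Y

theorem kAd2_c {N Q L v a : ℕ} {k r : Tr} {pre : List ℕ} (h : chk2 N Q L (Tr.c v k r) a pre = 0) :
    okv2 N Q L v (pre ++ [a]) = 0 ∧ chk2 N Q L k a (pre ++ [a]) = 0 ∧ chk2 N Q L r (a + 1) pre = 0 := by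
  have e : chk2 N Q L (Tr.c v k r) a pre = fl (snoc pre a) fun l =>
    okv2 N Q L v l + chk2 N Q L k a l + fz (a + 1) fun a' => chk2 N Q L r a' pre := rfl
  rw [e, fl_eq, fz_eq, snoc_eq] at h
  omega

theorem kAd2_skip {N Q L : ℕ} {s : Tr} {a : ℕ} {pre : List ℕ} (h : chk2 N Q L s a pre = 0) (n : ℕ) :
    chk2 N Q L (skip s n) (a + n) pre = 0 := by
  induction n generalizing s a with
  | zero => rwa [skip_zero]
  | succ n ih =>
    cases s with
    | e => rfl
    | c v k r => rw [skip_succ, show a + (n + 1) = a + 1 + n by omega]; exact ih (kAd2_c h).2.2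

theorem kAd2_look {N Q L : ℕ} {t : List ℕ} {x a : ℕ} {s : Tr} {pre : List ℕ}
    (h : chk2 N Q L s a pre = 0) (v : ℕ) (ha : a ≤ x) (ht : (x :: t).Pairwise (· ≤ ·)) :
    okv2 N Q L (look (x :: t) v s a) (pre ++ x :: t) = 0 := by
  induction t generalizing x a s pre v with
  | nil =>
    have h1 := kAd2_skip h (x - a)
    cases h2 : skip s (x - a) with
    | e => rw [look_e h2]; rfl
    | c w k r =>
      rw [h2, show a + (x - a) = x by omega] at h1
      rw [look_c h2]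
      exact (kAd2_c h1).1
  | cons y t ih =>
    have h1 := kAd2_skip h (x - a)
    cases h2 : skip s (x - a) with
    | e => rw [look_e h2]; rfl
    | c w k r =>
      rw [h2, show a + (x - a) = x by omega] at h1
      obtain ⟨h3, h4⟩ := List.pairwise_cons.1 ht
      have h5 := ih (kAd2_c h1).2.1 w (h3 y List.mem_cons_self) h4
      rw [look_c h2]
      simpa using h5

theorem kAd2_okv {N Q L v ρ : ℕ} {l : List ℕ} (h : okv2 N Q L v l = 0) (hv : v ≠ 0) (h0 : ρ ≠ 0)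
    (h1 : ρ ≤ tpl v l.length) :
    ∃ p ∈ splits l, 2 * (p.2.sum + min p.2.length ρ) ≤ N ∧ (p.1.sum + min p.1.length ρ ≤ Q ∨
      L ≤ p.2.sum ∧ 2 * (l.sum + ρ) ≤ N + 2 * Q) := by
  unfold okv2 at h
  rw [iz_eq, if_neg hv, fz_eq, fz_eq, ln_len, iz_eq, if_neg (by omega)] at h
  obtain ⟨p, hp, h2⟩ := kKAdm_msk l (Nat.mod v 1048576) 0 0 fun q m =>
    il (Nat.mul 2 (Nat.add (Nat.sub (sm l) q) (mn (Nat.sub l.length m) (tpl v l.length)))) N
      (il (Nat.add q (mn m (tpl v l.length))) Q 0 (il L (Nat.sub (sm l) q)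
        (il (Nat.mul 2 (Nat.add (sm l) (tpl v l.length))) (Nat.add N (Nat.mul 2 Q)) 0 1) 1)) 1
  rw [h2, il_eq, il_eq, il_eq, il_eq, mn_eq, mn_eq, sm_eq] at h
  have h3 := splits_sum hp
  have h4 := splits_length hp
  simp only [Nat.add_eq, Nat.mul_eq, Nat.sub_eq] at h
  split_ifs at h with h5 h6 h7 h8
  · exact ⟨p, hp, by omega, Or.inl (by omega)⟩
  · exact ⟨p, hp, by omega, Or.inr ⟨by omega, by omega⟩⟩

theorem lamT_adm2 {P : Par} {c0 L : ℕ} {tb : Tr} (hL : P.T ≤ P.G * L)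
    (h : chk2 P.N P.Q L tb c0 [] = 0) (D : List ℕ) (e : ℕ)
    (hD : D.Pairwise (· ≤ ·)) (h0 : lamT P.N c0 tb D e ≠ 0) : Adm2 P D e := by
  cases D with
  | nil => exact ⟨([], []), by simp [splits], by simp, Or.inl (by simp)⟩
  | cons x t =>
    unfold lamT at h0
    rw [if_neg (List.cons_ne_nil _ _)] at h0
    split_ifs at h0 with h1
    · exact absurd rfl h0
    · rw [not_or, not_or, not_or, not_not, not_lt] at h1
      obtain ⟨h1, h2, h3, h4⟩ := h1
      refine (kAd2_okv (kAd2_look h 0 (h4 x List.mem_cons_self) hD) h1 h2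
        (kKAdm_tpl h2 h3 fun h5 => h0 ?_)).imp fun p hp => ⟨hp.1, hp.2.1, hp.2.2.imp id fun h6 =>
          ⟨hL.trans (Nat.mul_le_mul_left _ h6.1), h6.2⟩⟩
      rw [h5]
      norm_num

theorem cert2_of {P : Par} {tb : Tr} {r L : ℕ} (hs : Sm P) (hL : P.T ≤ P.G * L)
    (hc : chk2 P.N P.Q L tb (P.z / P.G) [] = 0)
    (hr : 1000 * r ≤ 998 * 2 ^ 52) (h : ∀ B δ κ μ Ψ, Ctx P tb B δ κ μ Ψ →
      tot (P.N * (P.G * B)) μ Ψ 31 [] ≤ κ ^ 30 / 2 ^ 52 * r) :
    Cert2 P (lamT P.N (P.z / P.G) tb) where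
  nil := lamT_nil _ _ _
  bd := lamT_bd _ _ _
  adm := lamT_adm2 hL hc
  neg := by
    intro B δ t hB hδ H h2 hG
    by_contra hW
    obtain ⟨pre, a, rfl⟩ := (List.eq_nil_or_concat' t).resolve_left (by rintro rfl; simp at h2)
    have l1 := kTc_len hs hB H
    have l2 : 0 < P.z * B := Nat.mul_pos (by have := hs.G2; have := hs.Gz; omega) hB
    have l3 : (0 : ℝ) < ((P.N * P.G * B : ℕ) : ℝ)⁻¹ := by
      have := hs.G2
      have := hs.N2
      positivity
    generalize hε : ((P.N * P.G * B : ℕ) : ℝ)⁻¹ = ε at l3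
    have l4 := pow_pos l3 pre.length
    have k1 := h B δ 1 (fun _ => ε) (fun p => if p = pre then (r + 1) / ε ^ pre.length else 0)
      ⟨hs, hB, hδ, le_rfl, hε ▸ kFin_mass hs hB, fun p => by
        by_cases hp : p = pre
        · exact Or.inr ⟨a, by rintro rfl; simp [← hp] at h2, hp ▸ H,
            by rwa [hp, mul_assoc], Or.inl (hp ▸ not_le.1 hW)⟩
        · exact Or.inl (if_neg hp).le⟩
    have k2 := kFin_low (M := P.N * (P.G * B)) (f := 31) (pre := []) l3.le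
      (Ψ := fun p => if p = pre then (r + 1) / ε ^ pre.length else 0)
      (fun p => by split_ifs <;> positivity) pre (by simp at l1; omega) fun b hb => by
        have h3 := List.single_le_sum (fun _ _ => Nat.zero_le _) b hb
        have h4 := H.hi
        have h5 := H.big a (by simp)
        rw [List.sum_append, List.sum_singleton] at h4
        omega
    rw [List.nil_append, if_pos rfl, mul_div_cancel₀ _ l4.ne'] at k2
    have k3 : (0 : ℝ) ≤ r := Nat.cast_nonneg r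
    rw [one_pow] at k1
    linarith
  loss := by
    intro B δ κ μ Ψ hB hδ hκ hm hd
    have k1 := h B δ κ μ Ψ ⟨hs, hB, hδ, hκ, hm, fun p => (hd p).imp id fun ⟨a, h1, h2, h3, h4⟩ =>
      ⟨a, h1, h2, by rwa [mul_assoc], Or.inr h4⟩⟩
    have k2 := (Nat.cast_le (α := ℝ)).2 hr
    have k3 : 0 ≤ κ ^ 30 := by positivity
    push_cast at k2
    refine k1.trans ?_
    rw [div_mul_eq_mul_div, mul_div_assoc]
    exact mul_le_mul_of_nonneg_left (by linarith) k3

theorem cert2_of_run {P : Par} {tb tq tc : Tr} {Y0 s L : ℕ} {J : Jt} (hs : Sm P)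
    (hL : P.T ≤ P.G * L) (hc : chk2 P.N P.Q L tb (P.z / P.G) [] = 0) (hq : ckr Y0 tb tq = 0)
    (hT : TcOK P tb tc)
    (hJ : run3 P.G P.N (P.N * P.G) P.T (P.G / 32) P.z (P.z / P.G) Y0 tb tq tc J = 0)
    (h : 1000 * top P.G (P.N * P.G) P.z (P.z / P.G) J s ≤ 998 * 2 ^ 52) :
    Cert2 P (lamT P.N (P.z / P.G) tb) :=
  cert2_of hs hL hc h fun _ _ _ _ _ hx => top_spec3 hx hq hT hJ (by rw [BAD_eq]; omega)

end Pool.Agent.Work.MP_82fd4a_nt.P
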