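import Pool.Agent.Work.MP_82fd4a_nt.P.Cert

/-! The unfolding lemma of `tot`, generated once. -/

theorem Pool.Agent.Eqs.tot82 : type_of% @Pool.Agent.Work.MP_82fd4a_nt.P.tot.eq_def :=
  @Pool.Agent.Work.MP_82fd4a_nt.P.tot.eq_def
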