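import Pool.Agent.Work.MP_82fd4a_nt.P.KDefs

/-! The support of the table. -/

set_option autoImplicit false
open Finset

namespace Pool.Agent.Work.MP_82fd4a_nt.P

open BS Y

theorem lamT_nil (N c0 : ℕ) (tb : Tr) (e : ℕ) : lamT N c0 tb [] e = 1 := if_pos rfl

theorem lamT_bd (N c0 : ℕ) (tb : Tr) (D : List ℕ) (e : ℕ) : |lamT N c0 tb D e| ≤ 2 ^ 20 := by
  unfold lamT
  split_ifs
  · norm_num
  · norm_num
  · have h1 := Nat.mod_lt (look D 0 tb c0 / 2 ^ (20 * (N - e - D.sum))) (by norm_num : 0 < 2 ^ 20)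
    generalize look D 0 tb c0 / 2 ^ (20 * (N - e - D.sum)) % 2 ^ 20 = A at h1
    have h2 : (A : ℝ) < 2 ^ 20 := by exact_mod_cast h1
    have h3 : (0 : ℝ) ≤ A := Nat.cast_nonneg A
    rw [abs_le]
    constructor <;> linarith

theorem kKAdm_c {N Q v a : ℕ} {k r : Tr} {pre : List ℕ} (h : chk N Q (Tr.c v k r) a pre = 0) :
    okv N Q v (pre ++ [a]) = 0 ∧ chk N Q k a (pre ++ [a]) = 0 ∧ chk N Q r (a + 1) pre = 0 := by
  have e : chk N Q (Tr.c v k r) a pre = fl (snoc pre a) fun l =>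
    okv N Q v l + chk N Q k a l + fz (a + 1) fun a' => chk N Q r a' pre := rfl
  rw [e, fl_eq, fz_eq, snoc_eq] at h
  omega

theorem kKAdm_skip {N Q : ℕ} {s : Tr} {a : ℕ} {pre : List ℕ} (h : chk N Q s a pre = 0) (n : ℕ) :
    chk N Q (skip s n) (a + n) pre = 0 := by
  induction n generalizing s a with
  | zero => rwa [skip_zero]
  | succ n ih =>
    cases s with
    | e => rfl
    | c v k r => rw [skip_succ, show a + (n + 1) = a + 1 + n by omega]; exact ih (kKAdm_c h).2.2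

theorem kKAdm_look {N Q : ℕ} {t : List ℕ} {x a : ℕ} {s : Tr} {pre : List ℕ}
    (h : chk N Q s a pre = 0) (v : ℕ) (ha : a ≤ x) (ht : (x :: t).Pairwise (· ≤ ·)) :
    okv N Q (look (x :: t) v s a) (pre ++ x :: t) = 0 := by
  induction t generalizing x a s pre v with
  | nil =>
    have h1 := kKAdm_skip h (x - a)
    cases h2 : skip s (x - a) with
    | e => rw [look_e h2]; rfl
    | c w k r =>
      rw [h2, show a + (x - a) = x by omega] at h1
      rw [look_c h2]
      exact (kKAdm_c h1).1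
  | cons y t ih =>
    have h1 := kKAdm_skip h (x - a)
    cases h2 : skip s (x - a) with
    | e => rw [look_e h2]; rfl
    | c w k r =>
      rw [h2, show a + (x - a) = x by omega] at h1
      obtain ⟨h3, h4⟩ := List.pairwise_cons.1 ht
      have h5 := ih (kKAdm_c h1).2.1 w (h3 y List.mem_cons_self) h4
      rw [look_c h2]
      simpa using h5

theorem kKAdm_tpl {v n ρ : ℕ} (h0 : ρ ≠ 0) (h1 : ρ ≤ n)
    (h : v / 2 ^ (20 * ρ) % 2 ^ 20 ≠ 524288) : ρ ≤ tpl v n := by
  induction n with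
  | zero => omega
  | succ n ih =>
    have e : tpl v (n + 1) = Bool.rec (motive := fun _ => ℕ) (n + 1) (tpl v n)
      (Nat.beq ((v >>> (20 * (n + 1))) % 1048576) 524288) := rfl
    rw [e]
    cases h2 : Nat.beq ((v >>> (20 * (n + 1))) % 1048576) 524288 with
    | false => exact h1
    | true =>
      have h3 := Nat.eq_of_beq_eq_true h2
      rw [Nat.shiftRight_eq_div_pow] at h3
      refine ih (Nat.le_of_lt_succ (lt_of_le_of_ne h1 ?_))
      rintro rfl
      exact h h3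

theorem kKAdm_msk (l : List ℕ) (b q m : ℕ) (k : ℕ → ℕ → ℕ) :
    ∃ p ∈ splits l, msk l b q m k = k (q + p.1.sum) (m + p.1.length) := by
  induction l generalizing b q m with
  | nil => exact ⟨([], []), by simp [splits], rfl⟩
  | cons a t ih =>
    have e : msk (a :: t) b q m k =
      iz (b % 2) (msk t (b / 2) q m k) (msk t (b / 2) (q + a) (m + 1) k) := rfl
    rw [e, iz_eq]
    split_ifs
    · obtain ⟨p, hp, h⟩ := ih (b / 2) q m
      exact ⟨(p.1, a :: p.2), mem_splits_cons.2 (Or.inr ⟨p, hp, rfl⟩), h⟩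
    · obtain ⟨p, hp, h⟩ := ih (b / 2) (q + a) (m + 1)
      refine ⟨(a :: p.1, p.2), mem_splits_cons.2 (Or.inl ⟨p, hp, rfl⟩), ?_⟩
      rw [h, List.sum_cons, List.length_cons, add_assoc, add_assoc, add_comm 1]

theorem kKAdm_okv {N Q v ρ : ℕ} {l : List ℕ} (h : okv N Q v l = 0) (hv : v ≠ 0) (h0 : ρ ≠ 0)
    (h1 : ρ ≤ tpl v l.length) :
    ∃ p ∈ splits l, p.1.sum + min p.1.length ρ ≤ Q ∧ 2 * (p.2.sum + min p.2.length ρ) ≤ N := by
  unfold okv at h
  rw [iz_eq, if_neg hv, fz_eq, fz_eq, ln_len, iz_eq, if_neg (by omega)] at h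
  obtain ⟨p, hp, h2⟩ := kKAdm_msk l (Nat.mod v 1048576) 0 0 fun q m =>
    il (Nat.add q (mn m (tpl v l.length))) Q (il (Nat.mul 2 (Nat.add (Nat.sub (sm l) q)
      (mn (Nat.sub l.length m) (tpl v l.length)))) N 0 1) 1
  rw [h2, il_eq, il_eq, mn_eq, mn_eq, sm_eq] at h
  have h3 := splits_sum hp
  have h4 := splits_length hp
  simp only [Nat.add_eq, Nat.mul_eq, Nat.sub_eq] at h
  split_ifs at h with h5 h6
  exact ⟨p, hp, by omega, by omega⟩

theorem lamT_adm {P : Par} {c0 : ℕ} {tb : Tr} (h : chk P.N P.Q tb c0 [] = 0) (D : List ℕ) (e : ℕ)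
    (hD : D.Pairwise (· ≤ ·)) (h0 : lamT P.N c0 tb D e ≠ 0) : Adm P D e := by
  cases D with
  | nil => exact ⟨([], []), by simp [splits], by simp, by simp⟩
  | cons x t =>
    unfold lamT at h0
    rw [if_neg (List.cons_ne_nil _ _)] at h0
    split_ifs at h0 with h1
    · exact absurd rfl h0
    · rw [not_or, not_or, not_or, not_not, not_lt] at h1
      obtain ⟨h1, h2, h3, h4⟩ := h1
      refine kKAdm_okv (kKAdm_look h 0 (h4 x List.mem_cons_self) hD) h1 h2
        (kKAdm_tpl h2 h3 fun h5 => h0 ?_)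
      rw [h5]
      norm_num

end Pool.Agent.Work.MP_82fd4a_nt.P
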