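import Pool.Agent.Work.MP_82fd4a_nt.P.KMc
import Pool.Agent.Work.MP_82fd4a_nt.P.KAdm
import Pool.Agent.Work.MP_82fd4a_nt.P.CertEqs

/-! From the computations to the certificate. -/

set_option autoImplicit false
open Finset

namespace Pool.Agent.Work.MP_82fd4a_nt.P

open BS Y

theorem kFin_nonneg {M : ℕ} {μ : ℕ → ℝ} {Ψ : List ℕ → ℝ} (hμ : ∀ a, 0 ≤ μ a) (h : ∀ p, 0 ≤ Ψ p)
    (f : ℕ) (pre : List ℕ) : 0 ≤ tot M μ Ψ f pre := by
  induction f generalizing pre with
  | zero => exact le_rfl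
  | succ f ih => exact add_nonneg (h _) (sum_nonneg fun a _ => mul_nonneg (hμ a) (ih _))

theorem kFin_low {M : ℕ} {ε : ℝ} {Ψ : List ℕ → ℝ} (hε : 0 ≤ ε) (h : ∀ p, 0 ≤ Ψ p) (ext : List ℕ)
    {f : ℕ} {pre : List ℕ} (hf : ext.length < f) (hM : ∀ a ∈ ext, a < M) :
    ε ^ ext.length * Ψ (pre ++ ext) ≤ tot M (fun _ => ε) Ψ f pre := by
  induction ext generalizing f pre with
  | nil =>
    obtain ⟨f, rfl⟩ := Nat.exists_eq_add_one_of_ne_zero hf.ne'
    simpa [tot] using mul_nonneg hε (sum_nonneg fun a (_ : a ∈ range M) =>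
      kFin_nonneg (μ := fun _ => ε) (M := M) (fun _ => hε) h f (pre ++ [a])) |>.trans_eq
        (mul_sum _ _ _)
  | cons a l ih =>
    obtain ⟨f, rfl⟩ := Nat.exists_eq_add_one_of_ne_zero (Nat.zero_lt_of_lt hf).ne'
    have h1 := ih (f := f) (pre := pre ++ [a]) (by simpa using hf)
      fun b hb => hM b (List.mem_cons_of_mem _ hb)
    have h2 := single_le_sum (f := fun b => ε * tot M (fun _ => ε) Ψ f (pre ++ [b]))
      (fun b _ => mul_nonneg hε (kFin_nonneg (fun _ => hε) h f _))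
      (mem_range.2 (hM a List.mem_cons_self))
    rw [List.length_cons, pow_succ', mul_assoc, List.append_cons]
    exact ((mul_le_mul_of_nonneg_left h1 hε).trans h2).trans (le_add_of_nonneg_left (h _))

theorem kFin_mass {P : Par} {B : ℕ} (hs : Sm P) (hB : 0 < B) :
    Mass P B 1 fun _ => ((P.N * P.G * B : ℕ) : ℝ)⁻¹ := by
  refine ⟨fun _ => by positivity, fun lo hi h1 h2 h3 => ?_⟩
  have h4 : 0 < lo := by
    have := hs.G2
    have := hs.Gz
    omega
  have h5 : (0 : ℝ) < lo := by exact_mod_cast h4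
  have h6 : (lo : ℝ) < hi := by exact_mod_cast h2
  have h7 : (hi : ℝ) ≤ (P.N * P.G : ℕ) := by exact_mod_cast h3
  have h8 : (0 : ℝ) < B := by exact_mod_cast hB
  have h9 := Real.one_sub_inv_le_log_of_pos (div_pos (h5.trans h6) h5)
  rw [sum_const, Nat.card_Ico, nsmul_eq_mul, one_mul, ← Nat.sub_mul, Nat.cast_mul,
    Nat.cast_sub h2.le, Nat.cast_mul]
  refine le_trans ?_ h9
  have h10 := h5.trans h6
  have h11 := h10.trans_le h7
  rw [inv_div, one_sub_div h10.ne', mul_inv, mul_mul_mul_comm, mul_inv_cancel₀ h8.ne', mul_one,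
    div_eq_mul_inv]
  exact mul_le_mul_of_nonneg_left (inv_anti₀ h10 h7) (sub_nonneg.2 h6.le)

theorem cert_of {P : Par} {tb : Tr} {r : ℕ} (hs : Sm P) (hc : chk P.N P.Q tb (P.z / P.G) [] = 0)
    (hr : 1000 * r ≤ 998 * 2 ^ 52) (h : ∀ B δ κ μ Ψ, Ctx P tb B δ κ μ Ψ →
      tot (P.N * (P.G * B)) μ Ψ 31 [] ≤ κ ^ 30 / 2 ^ 52 * r) :
    Cert P (lamT P.N (P.z / P.G) tb) where
  nil := lamT_nil _ _ _
  bd := lamT_bd _ _ _
  adm := lamT_adm hc
  neg := by
    intro B δ t hB hδ H h2 hG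
    by_contra hW
    obtain ⟨pre, a, rfl⟩ := (List.eq_nil_or_concat' t).resolve_left (by rintro rfl; simp at h2)
    have l1 := kTc_len hs hB H
    have l2 : 0 < P.z * B := Nat.mul_pos (by have := hs.G2; have := hs.Gz; omega) hB
    have l3 : (0 : ℝ) < ((P.N * P.G * B : ℕ) : ℝ)⁻¹ := by
      have := hs.G2
      have := hs.N2
      positivity
    generalize hε : ((P.N * P.G * B : ℕ) : ℝ)⁻¹ = ε at l3
    have l4 := pow_pos l3 pre.length
    have k1 := h B δ 1 (fun _ => ε) (fun p => if p = pre then (r + 1) / ε ^ pre.length else 0)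
      ⟨hs, hB, hδ, le_rfl, hε ▸ kFin_mass hs hB, fun p => by
        by_cases hp : p = pre
        · exact Or.inr ⟨a, by rintro rfl; simp [← hp] at h2, hp ▸ H,
            by rwa [hp, mul_assoc], Or.inl (hp ▸ not_le.1 hW)⟩
        · exact Or.inl (if_neg hp).le⟩
    have k2 := kFin_low (M := P.N * (P.G * B)) (f := 31) (pre := []) l3.le
      (Ψ := fun p => if p = pre then (r + 1) / ε ^ pre.length else 0)
      (fun p => by split_ifs <;> positivity) pre (by simp at l1; omega) fun b hb => by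
        have h3 := List.single_le_sum (fun _ _ => Nat.zero_le _) b hb
        have h4 := H.hi
        have h5 := H.big a (by simp)
        rw [List.sum_append, List.sum_singleton] at h4
        omega
    rw [List.nil_append, if_pos rfl, mul_div_cancel₀ _ l4.ne'] at k2
    have k3 : (0 : ℝ) ≤ r := Nat.cast_nonneg r
    rw [one_pow] at k1
    linarith
  loss := by
    intro B δ κ μ Ψ hB hδ hκ hm hd
    have k1 := h B δ κ μ Ψ ⟨hs, hB, hδ, hκ, hm, fun p => (hd p).imp id fun ⟨a, h1, h2, h3, h4⟩ =>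
      ⟨a, h1, h2, by rwa [mul_assoc], Or.inr h4⟩⟩
    have k2 := (Nat.cast_le (α := ℝ)).2 hr
    have k3 : 0 ≤ κ ^ 30 := by positivity
    push_cast at k2
    refine k1.trans ?_
    rw [div_mul_eq_mul_div, mul_div_assoc]
    exact mul_le_mul_of_nonneg_left (by linarith) k3

theorem cert_of_run {P : Par} {tb tq tc : Tr} {Y0 s : ℕ} {J : Jt} (hs : Sm P)
    (hc : chk P.N P.Q tb (P.z / P.G) [] = 0) (hq : ckr Y0 tb tq = 0) (hT : TcOK P tb tc)
    (hJ : run3 P.G P.N (P.N * P.G) P.T (P.G / 32) P.z (P.z / P.G) Y0 tb tq tc J = 0)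
    (h : 1000 * top P.G (P.N * P.G) P.z (P.z / P.G) J s ≤ 998 * 2 ^ 52) :
    Cert P (lamT P.N (P.z / P.G) tb) :=
  cert_of hs hc h fun _ _ _ _ _ hx => top_spec3 hx hq hT hJ (by rw [BAD_eq]; omega)

end Pool.Agent.Work.MP_82fd4a_nt.P
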