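import Pool.Agent.Work.MP_82fd4a_nt.P.Lanes
import Mathlib.Data.Real.Basic
import Mathlib.Algebra.BigOperators.Field
import Mathlib.Algebra.Order.BigOperators.Ring.Finset
import Mathlib.Tactic.FieldSimp
import Mathlib.Tactic.Positivity

/-! A point of the cube whose sum of coordinates lies between two consecutive integers is a
convex combination of the corners on the two levels. -/

set_option autoImplicit false
open Finset

namespace Pool.Agent.Work.MP_82fd4a_nt.P

/-- a property that is stable under convex combinations -/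
def Cvx (C : (ℕ → ℝ) → Prop) : Prop := ∀ (x y : ℕ → ℝ) (s t : ℝ), 0 ≤ s → 0 ≤ t → s + t = 1 →
  C x → C y → C fun j => s * x j + t * y j

open Classical in
theorem hull_level {n r : ℕ} {C : (ℕ → ℝ) → Prop} (hC : Cvx C)
    (hc : ∀ v : ℕ → ℝ, (∀ j < n, v j = 0 ∨ v j = 1) → ∑ j ∈ range n, v j = r → C v) :
    ∀ (k : ℕ) (u : ℕ → ℝ), ((range n).filter fun j => u j ≠ 0 ∧ u j ≠ 1).card ≤ k →
      (∀ j < n, 0 ≤ u j ∧ u j ≤ 1) → ∑ j ∈ range n, u j = r → C u := by
  intro k
  induction k with
  | zero =>
    intro u hk _ hs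
    refine hc u (fun j hj => ?_) hs
    by_contra h
    rw [not_or] at h
    have : j ∈ (range n).filter fun j => u j ≠ 0 ∧ u j ≠ 1 := mem_filter.2 ⟨mem_range.2 hj, h⟩
    rw [card_eq_zero.1 (Nat.le_zero.1 hk)] at this
    simp at this
  | succ k ih =>
    intro u hk hu hs
    set F := (range n).filter fun j => u j ≠ 0 ∧ u j ≠ 1 with hF
    rcases Nat.lt_or_ge k F.card with hlt | hle
    swap
    · exact ih u hle hu hs
    obtain ⟨a, ha⟩ : F.Nonempty := card_pos.1 (by omega)
    obtain ⟨han, ha0, ha1⟩ := mem_filter.1 ha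
    have ua := hu a (mem_range.1 han)
    have ua0 : 0 < u a := lt_of_le_of_ne ua.1 ha0.symm
    have ua1 : u a < 1 := lt_of_le_of_ne ua.2 ha1
    obtain ⟨b, hb, hba⟩ : ∃ b ∈ F, b ≠ a := by
      by_contra hn
      push Not at hn
      have e : ∑ j ∈ (range n).erase a, u j =
          (((range n).erase a).filter fun j => u j = 1).card := by
        rw [card_filter]
        push_cast
        refine sum_congr rfl fun j hj => ?_
        obtain ⟨h1, h2⟩ := mem_erase.1 hj
        split_ifs with h3
        · exact h3
        · by_contra h4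
          exact h1 (hn j (mem_filter.2 ⟨h2, h4, h3⟩))
      rw [← add_sum_erase _ _ han, e] at hs
      set q := (((range n).erase a).filter fun j => u j = 1).card
      have h1 : (q : ℝ) < r := by linarith
      have h2 : (r : ℝ) < q + 1 := by linarith
      have h3 : q < r := by exact_mod_cast h1
      have h4 : r < q + 1 := by exact_mod_cast h2
      omega
    obtain ⟨hbn, hb0, hb1⟩ := mem_filter.1 hb
    have ub := hu b (mem_range.1 hbn)
    have ub0 : 0 < u b := lt_of_le_of_ne ub.1 hb0.symm
    have ub1 : u b < 1 := lt_of_le_of_ne ub.2 hb1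
    have key : ∀ d : ℝ, 0 ≤ u a + d → u a + d ≤ 1 → 0 ≤ u b - d → u b - d ≤ 1 →
        (u a + d = 0 ∨ u a + d = 1 ∨ u b - d = 0 ∨ u b - d = 1) →
        C fun j => u j + d * ((if j = a then 1 else 0) - if j = b then 1 else 0) := by
      intro d d1 d2 d3 d4 d5
      refine ih _ ?_ (fun j hj => ?_) ?_
      · refine Nat.lt_succ_iff.1 (lt_of_lt_of_le (card_lt_card ⟨fun j hj => ?_, fun h => ?_⟩) hk)
        · obtain ⟨h1, h2⟩ := mem_filter.1 hj
          by_cases hja : j = a
          · exact hja ▸ ha
          by_cases hjb : j = b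
          · exact hjb ▸ hb
          simp only [if_neg hja, if_neg hjb, sub_self, mul_zero, add_zero] at h2
          exact mem_filter.2 ⟨h1, h2⟩
        · have h1 := (mem_filter.1 (h ha)).2
          have h2 := (mem_filter.1 (h hb)).2
          simp only [if_true, if_neg hba, if_neg hba.symm, sub_zero, mul_one, zero_sub,
            mul_neg] at h1 h2
          rcases d5 with h3 | h3 | h3 | h3
          exacts [h1.1 h3, h1.2 h3, h2.1 (by linarith), h2.2 (by linarith)]
      · by_cases hja : j = a
        · subst hja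
          simp only [if_true, if_neg hba.symm]
          constructor <;> linarith
        by_cases hjb : j = b
        · subst hjb
          simp only [if_true, if_neg hja]
          constructor <;> linarith
        simpa only [if_neg hja, if_neg hjb, sub_self, mul_zero, add_zero] using hu j hj
      · rw [sum_add_distrib, ← mul_sum, sum_sub_distrib, sum_ite_eq', sum_ite_eq', if_pos han,
          if_pos hbn, hs]
        ring
    have hs0 : 0 < min (1 - u a) (u b) := lt_min (by linarith) ub0
    have ht0 : 0 < min (u a) (1 - u b) := lt_min ua0 (by linarith)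
    have s1 := min_le_left (1 - u a) (u b)
    have s2 := min_le_right (1 - u a) (u b)
    have t1 := min_le_left (u a) (1 - u b)
    have t2 := min_le_right (u a) (1 - u b)
    have c1 := key (min (1 - u a) (u b)) (by linarith) (by linarith) (by linarith) (by linarith)
      (by rcases min_choice (1 - u a) (u b) with h | h <;> rw [h] <;> simp)
    have c2 := key (-min (u a) (1 - u b)) (by linarith) (by linarith) (by linarith) (by linarith)
      (by rcases min_choice (u a) (1 - u b) with h | h <;> rw [h] <;> simp)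
    set s := min (1 - u a) (u b)
    set t := min (u a) (1 - u b)
    have := hC _ _ (t / (s + t)) (s / (s + t)) (by positivity) (by positivity)
      (by field_simp; ring) c1 c2
    convert this using 1
    funext j
    field_simp
    ring

/-- the corner with the index `i` -/
def corner (i j : ℕ) : ℝ := if i.testBit j then 1 else 0

theorem exists_bits (n : ℕ) (p : ℕ → Prop) : ∃ i < 2 ^ n, ∀ j < n, (i.testBit j = true ↔ p j) := by
  classical
  refine ⟨Nat.ofBits fun j : Fin n => decide (p j), Nat.ofBits_lt_two_pow _, fun j hj => ?_⟩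
  rw [Nat.testBit_ofBits_lt _ _ hj]
  simp

theorem pop_cast (n i : ℕ) : (pop n i : ℝ) = ∑ j ∈ range n, corner i j := by
  simp only [pop, csum, corner]
  push_cast
  rfl

theorem csum_cast (m e : ℕ → ℕ) (n i : ℕ) :
    (csum m e n i : ℝ) = ∑ j ∈ range n, (corner i j * m j + (1 - corner i j) * e j) := by
  simp only [csum, corner]
  push_cast
  exact sum_congr rfl fun j _ => by split_ifs <;> simp

/-- the slab between two consecutive levels -/
theorem hull_slab {n r : ℕ} {C : (ℕ → ℝ) → Prop} (hC : Cvx C)
    (hd : ∀ u v : ℕ → ℝ, (∀ j < n, u j = v j) → C u → C v)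
    (hc : ∀ i < 2 ^ n, pop n i = r ∨ pop n i = r + 1 → C (corner i))
    (u : ℕ → ℝ) (hu : ∀ j < n, 0 ≤ u j ∧ u j ≤ 1) (h1 : (r : ℝ) ≤ ∑ j ∈ range n, u j)
    (h2 : ∑ j ∈ range n, u j ≤ r + 1) : C u := by
  classical
  have e : ∀ j < n, Function.update u n (r + 1 - ∑ j ∈ range n, u j) j = u j := fun j hj =>
    Function.update_of_ne hj.ne _ _
  refine hd _ u e (hull_level (n := n + 1) (r := r + 1) hC (fun v hv hs => ?_) _ _ le_rfl
    (fun j hj => ?_) ?_)
  · obtain ⟨i, hi, hb⟩ := exists_bits n fun j => v j = 1
    have ev : ∀ j < n, corner i j = v j := fun j hj => by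
      unfold corner
      split_ifs with h
      · exact ((hb j hj).1 h).symm
      · rcases hv j (by omega) with h3 | h3
        · exact h3.symm
        · exact absurd ((hb j hj).2 h3) h
    refine hd _ v ev (hc i hi ?_)
    have e2 : (pop n i : ℝ) = ∑ j ∈ range n, v j := by
      rw [pop_cast]; exact sum_congr rfl fun j hj => ev j (mem_range.1 hj)
    rw [sum_range_succ, ← e2] at hs
    push_cast at hs
    rcases hv n (by omega) with h3 | h3 <;> rw [h3] at hs
    · right
      exact_mod_cast (by linarith : (pop n i : ℝ) = r + 1)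
    · left
      exact_mod_cast (by linarith : (pop n i : ℝ) = r)
  · rcases Nat.lt_succ_iff_lt_or_eq.1 hj with h | h
    · rw [e j h]; exact hu j h
    · rw [h, Function.update_self]
      constructor <;> linarith
  · rw [sum_range_succ, Function.update_self, sum_congr rfl fun j hj => e j (mem_range.1 hj)]
    push_cast
    ring

/-- a sum of truncated affine functions -/
noncomputable def tsum (k n : ℕ) (O : ℝ) (w A : ℕ → ℝ) (m e : ℕ → ℕ → ℝ) (u : ℕ → ℝ) : ℝ :=
  ∑ i ∈ range k, w i * min (A i + ∑ j ∈ range n, (u j * m i j + (1 - u j) * e i j)) O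

theorem tsum_cvx {k n : ℕ} {O c : ℝ} {w A : ℕ → ℝ} {m e : ℕ → ℕ → ℝ} (hw : ∀ i < k, 0 ≤ w i) :
    Cvx fun u => c ≤ tsum k n O w A m e u := by
  intro x y s t hs ht hst hx hy
  have h1 : s * tsum k n O w A m e x + t * tsum k n O w A m e y ≤
      tsum k n O w A m e fun j => s * x j + t * y j := by
    simp only [tsum, mul_sum, ← sum_add_distrib]
    refine sum_le_sum fun i hi => ?_
    have e1 : A i + ∑ j ∈ range n, ((s * x j + t * y j) * m i j + (1 - (s * x j + t * y j)) * e i j)
        = s * (A i + ∑ j ∈ range n, (x j * m i j + (1 - x j) * e i j)) +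
          t * (A i + ∑ j ∈ range n, (y j * m i j + (1 - y j) * e i j)) := by
      have ht' : t = 1 - s := by linarith
      rw [mul_add, mul_add, mul_sum, mul_sum, add_add_add_comm, ← sum_add_distrib, ht']
      congr 1
      · ring
      · exact sum_congr rfl fun j _ => by ring
    rw [e1]
    set X := A i + ∑ j ∈ range n, (x j * m i j + (1 - x j) * e i j)
    set Y := A i + ∑ j ∈ range n, (y j * m i j + (1 - y j) * e i j)
    have h2 : s * min X O + t * min Y O ≤ min (s * X + t * Y) O := by
      have a1 := mul_le_mul_of_nonneg_left (min_le_left X O) hs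
      have a2 := mul_le_mul_of_nonneg_left (min_le_left Y O) ht
      have a3 := mul_le_mul_of_nonneg_left (min_le_right X O) hs
      have a4 := mul_le_mul_of_nonneg_left (min_le_right Y O) ht
      have a5 : s * O + t * O = O := by rw [← add_mul, hst, one_mul]
      exact le_min (by linarith) (by linarith)
    have := mul_le_mul_of_nonneg_left h2 (hw i (mem_range.1 hi))
    linarith
  have a1 := mul_le_mul_of_nonneg_left hx hs
  have a2 := mul_le_mul_of_nonneg_left hy ht
  have a5 : s * c + t * c = c := by rw [← add_mul, hst, one_mul]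
  show c ≤ _
  linarith

/-- the corner test on a slab -/
theorem tsum_slab {k n r : ℕ} {O c : ℝ} {w A : ℕ → ℝ} {m e : ℕ → ℕ → ℝ} (hw : ∀ i < k, 0 ≤ w i)
    (hc : ∀ i < 2 ^ n, pop n i = r ∨ pop n i = r + 1 → c ≤ tsum k n O w A m e (corner i))
    (u : ℕ → ℝ) (hu : ∀ j < n, 0 ≤ u j ∧ u j ≤ 1) (h1 : (r : ℝ) ≤ ∑ j ∈ range n, u j)
    (h2 : ∑ j ∈ range n, u j ≤ r + 1) : c ≤ tsum k n O w A m e u := by
  refine hull_slab (C := fun u => c ≤ tsum k n O w A m e u) (tsum_cvx hw) (fun u v h hu => ?_)
    hc u hu h1 h2
  have : tsum k n O w A m e u = tsum k n O w A m e v :=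
    sum_congr rfl fun i _ => by rw [sum_congr rfl fun j hj => by rw [h j (mem_range.1 hj)]]
  exact this ▸ hu

end Pool.Agent.Work.MP_82fd4a_nt.P
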