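import Pool.Agent.Work.MP_82fd4a_nt.P.KDefs
import Pool.Agent.Work.MP_82fd4a_nt.P.Hull

/-! Vectors of digits: the meaning of the programs. -/

set_option autoImplicit false
open Finset

namespace Pool.Agent.Work.MP_82fd4a_nt.P

open BS Y

theorem ones_eq (n : ℕ) : ones n = pack 64 (2 ^ n) fun _ => 1 := by
  induction n with
  | zero => rfl
  | succ n ih =>
    have e : ones (n + 1) = ones n + ones n <<< (64 * 2 ^ n) := rfl
    rw [e, ih, pack_const_double]

theorem dv_eq (e d n : ℕ) :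
    dv e d n = pack 64 (2 ^ n) (csum (fun j => d / 2 ^ (4 * j) % 16) (fun _ => e) n) := by
  induction n with
  | zero => exact (pack_csum_zero _ _ _).symm
  | succ n ih =>
    have h : dv e d (n + 1) = dv e d n + e * ones n +
      (dv e d n + d >>> (4 * n) % 16 * ones n) <<< (64 * 2 ^ n) := rfl
    rw [h, ih, ones_eq, Nat.shiftRight_eq_div_pow]
    exact pack_csum 64 n (fun j => d / 2 ^ (4 * j) % 16) fun _ => e

theorem vmn_eq {n : ℕ} {f : ℕ → ℕ} (hf : ∀ i < 2 ^ n, f i < 2 ^ 63) :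
    vmn n (pack 64 (2 ^ n) f) = pack 64 (2 ^ n) fun i => min (f i) (2 ^ 30) := by
  have h1 : hig n = pack 64 (2 ^ n) fun _ => 2 ^ 63 := by
    have e : hig n = 9223372036854775808 * ones n := rfl
    rw [e, ones_eq, pack_smul]
    norm_num
  have h2 : bia n = (2 ^ 63 - 2 ^ 30) * pack 64 (2 ^ n) fun _ => 1 := by
    have e : bia n = 9223372035781033984 * ones n := rfl
    rw [e, ones_eq]
    norm_num
  unfold vmn
  rw [fz_eq, h1, h2]
  exact pack_min (V := 63) (c := 2 ^ 30) (by norm_num) (fun i hi => by have := hf i hi; omega)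
    rfl rfl rfl

theorem pm_eq (n r : ℕ) : pm n r = pack 64 (2 ^ n) fun i => if pop n i = r then 2 ^ 63 else 0 := by
  induction n generalizing r with
  | zero =>
    cases r with
    | zero => rw [pack_pop_zero]; rfl
    | succ r => rw [pack_pop_base]; rfl
  | succ n ih =>
    cases r with
    | zero =>
      have e : pm (n + 1) 0 = pm n 0 + 0 <<< (64 * 2 ^ n) := rfl
      rw [e, ih, pack_pop_zero, pack_pop_zero, Nat.zero_shiftLeft, add_zero]
    | succ r =>
      have e : pm (n + 1) (r + 1) = pm n (r + 1) + pm n r <<< (64 * 2 ^ n) := rfl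
      rw [e, ih, ih, pack_pop]

theorem rm_eq (n r : ℕ) : rm n r =
    pack 64 (2 ^ n) fun i => if pop n i = r ∨ pop n i = r + 1 then 2 ^ 63 else 0 := by
  have e : rm n r = pm n r + pm n (r + 1) := rfl
  rw [e, pm_eq, pm_eq, pack_add]
  exact pack_congr fun i _ => by split_ifs <;> omega

theorem rm_spec {n r : ℕ} {f : ℕ → ℕ} (hf : ∀ i < 2 ^ n, f i < 2 ^ 64)
    (h : Nat.land (pack 64 (2 ^ n) f) (rm n r) = rm n r) {i : ℕ} (hi : i < 2 ^ n)
    (hr : pop n i = r ∨ pop n i = r + 1) : 2 ^ 63 ≤ f i := by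
  rw [rm_eq] at h
  refine pack_pass' (V := 63) (c := 2 ^ 63) (S := fun i => pop n i = r ∨ pop n i = r + 1) le_rfl
    (fun i hi => by have := hf i hi; omega) ?_ i hi hr
  rw [Nat.sub_self, zero_mul, add_zero]
  exact h

theorem mkCe_cons (n : ℕ) (r : Rc) (t : List Rc) : mkCe n (r :: t) =
    Ce.cons r.w r.a r.c r.e (∑ j ∈ range n, r.m j * 2 ^ (64 * (n - 1 - j)))
      (r.e + ∑ j ∈ range n, max (r.m j) r.e) (pack 64 (2 ^ n) (csum r.m (fun _ => r.e) n))
      (mkCe n t) := rfl

end Pool.Agent.Work.MP_82fd4a_nt.P
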