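import Pool.Agent.Work.MP_82fd4a_nt.P.KDt
import Pool.Agent.Work.MP_82fd4a_nt.P.KLan

/-! The test at the corners. -/

set_option autoImplicit false
open Finset

namespace Pool.Agent.Work.MP_82fd4a_nt.P

open BS Y

/-- the least length of a monomial at the lowest level -/
def kKCor_L (n R : ℕ) (los : List ℕ) (r : Rc) : ℕ := ∑ j ∈ range n, r.m j * los.getD j 0 + r.e * R

/-- the value of the minorant at a corner -/
def kKCor_v (n R h : ℕ) (los : List ℕ) (i : ℕ) (r : Rc) : ℕ :=
  r.w * min (r.a * (kKCor_L n R los r + h * csum r.m (fun _ => r.e) n i) - r.c) (2 ^ 30)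

/-- the checks on a monomial -/
def kKCor_ok (M T n R h : ℕ) (los : List ℕ) (r : Rc) : Prop := T ≤ 2 * kKCor_L n R los r ∧
  kKCor_L n R los r + (h + 1) * (r.e + ∑ j ∈ range n, max (r.m j) r.e) ≤ M ∧
    r.c ≤ r.a * kKCor_L n R los r

theorem kKCor_crn {M T n h R : ℕ} {los : List ℕ} {k : ℕ → ℕ} (hn : n ≤ 30) (hl : los.length = n)
    (h1 : ∀ x ∈ los, x ≤ 32768) (hM : M ≤ 32768) {rs : List Rc} (hr : ∀ r ∈ rs, r.OK T) {A : ℕ}
    {f : ℕ → ℕ}
    (H : crn M T n (slt (pk los)) (64 * n) h R k (mkCe n rs) A (pack 64 (2 ^ n) f) < BAD) :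
    (∀ r ∈ rs, kKCor_ok M T n R h los r) ∧
      crn M T n (slt (pk los)) (64 * n) h R k (mkCe n rs) A (pack 64 (2 ^ n) f) =
        k (pack 64 (2 ^ n) fun i => f i + A + (rs.map (kKCor_v n R h los i)).sum) := by
  induction rs generalizing A f with
  | nil =>
    have e : crn M T n (slt (pk los)) (64 * n) h R k (mkCe n []) A (pack 64 (2 ^ n) f) =
      fz (pack 64 (2 ^ n) f + A * ones n) k := rfl
    rw [e, fz_eq, ones_eq, pack_smul, pack_add]
    simp
  | cons r t ih =>
    have e : ∀ (X sh w a c e y dg D : ℕ) (ce : Ce) (V : ℕ),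
        crn M T n X sh h R k (Ce.cons w a c e y dg D ce) A V = fz (dt X y sh + e * R) fun L =>
          il T (2 * L) (il (L + (h + 1) * dg) M (fz (a * L) fun u => il c u (il (c + 1073741824) u
            (crn M T n X sh h R k ce (A + w * 1073741824) V)
            (fz ((u - c) * ones n + a * h * D) fun Y =>
              crn M T n X sh h R k ce A (V + w * vmn n Y))) BAD) BAD) BAD :=
      fun _ _ _ _ _ _ _ _ _ _ _ => rfl
    have h0 := hr r List.mem_cons_self
    have e1 : ∑ j ∈ range n, r.m j * los.getD j 0 + r.e * R = kKCor_L n R los r := rfl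
    rw [mkCe_cons, e, dt_spec hn hl h1 h0.m, e1] at H ⊢
    simp only [fz_eq, il_eq] at H ⊢
    have ht : ∀ r ∈ t, r.OK T := fun r h => hr r (List.mem_cons_of_mem _ h)
    split_ifs at H ⊢ with c1 c2 c3 c4
    · obtain ⟨i1, i2⟩ := ih ht H
      refine ⟨List.forall_mem_cons.2 ⟨⟨c1, c2, c3⟩, i1⟩, i2.trans (congrArg k (pack_congr
        fun i _ => ?_))⟩
      rw [List.map_cons, List.sum_cons, kKCor_v, min_eq_right (by rw [mul_add]; omega)]
      omega
    · have hd : ∀ i, (r.a * kKCor_L n R los r - r.c) * 1 + r.a * h * csum r.m (fun _ => r.e) n i =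
          r.a * (kKCor_L n R los r + h * csum r.m (fun _ => r.e) n i) - r.c := fun i => by
        rw [mul_add, mul_assoc]; omega
      have hb : ∀ i < 2 ^ n, r.a * (kKCor_L n R los r + h * csum r.m (fun _ => r.e) n i) - r.c <
          2 ^ 63 := fun i _ => by
        have a1 := Nat.mul_le_mul_left h (csum_le r.m (fun _ => r.e) n i)
        have a2 : kKCor_L n R los r + h * csum r.m (fun _ => r.e) n i ≤ 32768 := by
          rw [add_mul, mul_add] at c2; omega
        have a3 := Nat.mul_le_mul h0.a.le a2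
        omega
      rw [ones_eq, pack_smul, pack_smul, pack_add, pack_congr fun i _ => hd i, vmn_eq hb, pack_smul,
        pack_add] at H ⊢
      obtain ⟨i1, i2⟩ := ih ht H
      refine ⟨List.forall_mem_cons.2 ⟨⟨c1, c2, c3⟩, i1⟩, i2.trans (congrArg k (pack_congr
        fun i _ => ?_))⟩
      rw [List.map_cons, List.sum_cons, kKCor_v]
      omega
    all_goals exact absurd H (lt_irrefl _)

theorem kKCor_cm {U SL h V n k s : ℕ} (hU : 0 < U) (H : (cm U SL h V n k).testBit s = true) :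
    ∃ r, Nat.land V (rm n r) = rm n r ∧ SL + r * h ≤ s * U ∧ (s + 1) * U ≤ SL + (r + 1) * h := by
  induction k with
  | zero => exact absurd H (by simp [cm])
  | succ r ih =>
    have e : cm U SL h V n (r + 1) = Bool.rec (cm U SL h V n r) (cm U SL h V n r |||
        fz ((SL + r * h + (U - 1)) / U) fun a => (2 ^ ((SL + (r + 1) * h) / U - a) - 1) <<< a)
        (Nat.beq (Nat.land V (rm n r)) (rm n r)) := rfl
    rw [e] at H
    cases hb : Nat.beq (Nat.land V (rm n r)) (rm n r) <;> rw [hb] at H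
    · exact ih H
    · simp only [fz_eq, Nat.testBit_or, Bool.or_eq_true, Nat.testBit_shiftLeft,
        Nat.testBit_two_pow_sub_one, Bool.and_eq_true, decide_eq_true_eq] at H
      rcases H with H | ⟨h1, h2⟩
      · exact ih H
      · refine ⟨r, Nat.eq_of_beq_eq_true hb, ?_, (Nat.le_div_iff_mul_le hU).1 (by omega)⟩
        have := (Nat.div_lt_iff_lt_mul hU).1 (Nat.lt_succ_of_le h1)
        rw [Nat.succ_mul] at this
        omega

theorem kKCor_sk {K s : ℕ} (hs : 32 ≤ s) : (sk K).testBit s = K.testBit s := by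
  have e : sk K = (K >>> 32) <<< 32 + K % 4294967291 := rfl
  have h : K % 4294967291 < 2 ^ 32 := (Nat.mod_lt _ (by norm_num)).trans (by norm_num)
  rw [e, Nat.shiftLeft_eq, mul_comm, Nat.testBit_two_pow_mul_add _ h, if_neg (by omega),
    Nat.testBit_shiftRight, Nat.add_sub_cancel' hs]

theorem kKCor_eqw {h B : ℕ} {los his pre : List ℕ} (hp : InB B los his pre)
    (H : eqw h los his = 0) : his.sum = los.sum + los.length * h ∧
      ∀ j < los.length, his.getD j 0 = los.getD j 0 + h := by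
  induction hp with
  | nil => simp
  | @cons lo hi x l t p _ _ _ ih =>
    have e : eqw h (lo :: l) (hi :: t) = Bool.rec 1 (eqw h l t) (Nat.beq (lo + h) hi) := rfl
    rw [e] at H
    cases hb : Nat.beq (lo + h) hi <;> rw [hb] at H
    · exact absurd H one_ne_zero
    · obtain rfl := Nat.eq_of_beq_eq_true hb
      obtain ⟨i1, i2⟩ := ih H
      refine ⟨by rw [List.sum_cons, List.sum_cons, List.length_cons, i1]; ring, ?_⟩
      rintro (_ | j) hj
      exacts [rfl, i2 j (by simpa using hj)]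

theorem kKCor_sum {α β : Type} [AddCommMonoid β] (f : α → β) (d : α) (l : List α) :
    (l.map f).sum = ∑ i ∈ range l.length, f (l.getD i d) := by
  induction l with
  | nil => rfl
  | cons a t ih =>
    rw [List.map_cons, List.sum_cons, ih, List.length_cons, sum_range_succ', add_comm]
    rfl

theorem kKCor_phi {T B : ℕ} {r : Rc} (hr : r.OK T) (hB : 0 < B) {l D : ℝ} (h0 : 0 ≤ D)
    (h : B * l ≤ D) : min (r.a * l - r.c) (2 ^ 30) ≤ 2 ^ 30 * phi (T * B : ℕ) D := by
  have b : (0 : ℝ) < B := by exact_mod_cast hB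
  unfold phi
  split_ifs with h1
  · rw [mul_one]; exact min_le_right _ _
  · push_cast at h1 ⊢
    have h2 : D / B < T := by rw [div_lt_iff₀ b]; exact not_le.1 h1
    have h3 := hr.tan (D / B) (by positivity) h2
    have h4 : l ≤ D / B := by rw [le_div_iff₀ b]; linarith
    have h5 : D / B / (2 * T - D / B) = D / (2 * (T * B) - D) := by
      rw [div_div, mul_sub, mul_div_cancel₀ _ b.ne']
      ring_nf
    have h6 := mul_le_mul_of_nonneg_left h4 (Nat.cast_nonneg r.a)
    rw [h5] at h3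
    refine (min_le_left _ _).trans ?_
    norm_num
    linarith

theorem kKCor_good {M T n h R B a q : ℕ} {los pre : List ℕ} {rs : List Rc} (hB : 0 < B)
    (hh : 0 < h) (hl : los.length = n) (hp : pre.length = n)
    (hb : ∀ j < n, los.getD j 0 * B ≤ pre.getD j 0 ∧ pre.getD j 0 ≤ (los.getD j 0 + h) * B)
    (hR : R + (los.sum + n * h) + 1 = M) (h1 : M * B ≤ pre.sum + a + B) (h2 : pre.sum + a ≤ M * B)
    (q1 : (los.sum + q * h) * B ≤ pre.sum) (q2 : pre.sum ≤ (los.sum + (q + 1) * h) * B)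
    (hk : rs.length ≤ 15) (hr : ∀ r ∈ rs, r.OK T) (ce : (rs.map fun r => r.w * r.e).sum ≤ 4096)
    (cm : ∀ j < n, (rs.map fun r => r.w * r.m j).sum ≤ 4096)
    (ok : ∀ r ∈ rs, kKCor_ok M T n R h los r)
    (hv : ∀ i < 2 ^ n, pop n i = q ∨ pop n i = q + 1 →
      8796629893120 ≤ (rs.map (kKCor_v n R h los i)).sum) :
    GoodL (T * B : ℕ) (M * B : ℕ) (1 / 8192) (pre ++ [a]) := by
  have b : (0 : ℝ) < B := by exact_mod_cast hB
  have b1 : (0 : ℝ) < h := by exact_mod_cast hh
  obtain ⟨d⟩ : Nonempty Rc := ⟨⟨0, 0, 0, 0, fun _ => 0⟩⟩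
  obtain ⟨ρ, hρ⟩ : ∃ ρ : ℕ → Rc, ρ = fun i => rs.getD i d := ⟨_, rfl⟩
  have mem : ∀ i < rs.length, ρ i ∈ rs := fun i hi => by
    rw [hρ]; simp only [List.getD_eq_getElem _ _ hi]; exact List.getElem_mem hi
  have sm : ∀ f : Rc → ℕ, (rs.map f).sum = ∑ i ∈ range rs.length, f (ρ i) := fun f => by
    rw [kKCor_sum f d, hρ]
  obtain ⟨u, hu⟩ : ∃ u : ℕ → ℝ, ∀ j, (pre.getD j 0 : ℝ) = B * (los.getD j 0 + h * u j) :=
    ⟨fun j => (pre.getD j 0 / B - los.getD j 0) / h, fun j => by field_simp; ring⟩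
  have u01 : ∀ j < n, 0 ≤ u j ∧ u j ≤ 1 := fun j hj => by
    have a1 : ((los.getD j 0 : ℕ) : ℝ) * B ≤ pre.getD j 0 := by exact_mod_cast (hb j hj).1
    have a2 : ((pre.getD j 0 : ℕ) : ℝ) ≤ (los.getD j 0 + h) * B := by exact_mod_cast (hb j hj).2
    rw [hu j] at a1 a2
    have bh := mul_pos b b1
    constructor
    · exact nonneg_of_mul_nonneg_right (by linarith) bh
    · exact le_of_mul_le_mul_left (by linarith) bh
  have s1 : ∀ l : List ℕ, l.length = n → (l.sum : ℝ) = ∑ j ∈ range n, (l.getD j 0 : ℝ) :=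
    fun l hl => by
      have := kKCor_sum id 0 l
      rw [List.map_id, hl] at this
      rw [this]
      push_cast
      rfl
  have s2 : (pre.sum : ℝ) = B * (los.sum + h * ∑ j ∈ range n, u j) := by
    rw [s1 pre hp, s1 los hl, mul_sum, ← sum_add_distrib, mul_sum]
    exact sum_congr rfl fun j _ => hu j
  have hR' : (R : ℝ) + (los.sum + n * h) + 1 = M := by exact_mod_cast hR
  have a1 : (B : ℝ) * (R + h * (n - ∑ j ∈ range n, u j)) ≤ a := by
    have : (M : ℝ) * B ≤ pre.sum + a + B := by exact_mod_cast h1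
    rw [s2, ← hR'] at this
    linarith
  have a2 : (a : ℝ) ≤ B * (R + h * (n - ∑ j ∈ range n, u j) + 1) := by
    have : (pre.sum : ℝ) + a ≤ M * B := by exact_mod_cast h2
    rw [s2, ← hR'] at this
    linarith
  obtain ⟨m, hm⟩ : ∃ m : ℕ → ℕ → ℕ, m = fun i j => if j < n then (ρ i).m j else (ρ i).e := ⟨_, rfl⟩
  obtain ⟨l, hl'⟩ : ∃ l : Rc → ℝ, l = fun r => (kKCor_L n R los r : ℝ) +
    h * ∑ j ∈ range n, (u j * r.m j + (1 - u j) * r.e) := ⟨_, rfl⟩
  have d1 : ∀ i, B * l (ρ i) ≤ dot (m i) (pre ++ [a]) ∧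
      (dot (m i) (pre ++ [a]) : ℝ) ≤ B * (l (ρ i) + (ρ i).e) := fun i => by
    have e1 : dot (m i) (pre ++ [a]) = ∑ j ∈ range n, (ρ i).m j * pre.getD j 0 + (ρ i).e * a := by
      rw [dot, List.length_append, hp, List.length_singleton, sum_range_succ, hm]
      simp only [lt_irrefl, if_false]
      rw [List.getD_append_right _ _ _ _ hp.le, hp, Nat.sub_self, List.getD_cons_zero]
      congr 1
      exact sum_congr rfl fun j hj => by
        rw [if_pos (mem_range.1 hj), List.getD_append _ _ _ _ (hp ▸ mem_range.1 hj)]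
    have e2 : B * l (ρ i) = ∑ j ∈ range n, ((ρ i).m j : ℝ) * pre.getD j 0 +
        (ρ i).e * (B * (R + h * (n - ∑ j ∈ range n, u j))) := by
      have e3 : (n : ℝ) - ∑ j ∈ range n, u j = ∑ j ∈ range n, (1 - u j) := by
        rw [sum_sub_distrib]; simp
      rw [hl', e3]
      simp only [kKCor_L, hu]
      push_cast
      simp only [mul_add, mul_sum, sum_add_distrib]
      have e4 : ∀ f g : ℕ → ℝ, (∀ j, f j = g j) → ∑ j ∈ range n, f j = ∑ j ∈ range n, g j :=
        fun f g h => sum_congr rfl fun j _ => h j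
      rw [e4 (fun j => B * (((ρ i).m j : ℝ) * los.getD j 0))
          (fun j => (ρ i).m j * (B * los.getD j 0)) fun j => by ring,
        e4 (fun j => (B : ℝ) * (h * (u j * (ρ i).m j))) (fun j => (ρ i).m j * (B * (h * u j)))
          fun j => by ring,
        e4 (fun j => (B : ℝ) * (h * ((1 - u j) * (ρ i).e)))
          (fun j => (ρ i).e * (B * (h * (1 - u j)))) fun j => by ring]
      ring
    have e0 : (0 : ℝ) ≤ (ρ i).e := Nat.cast_nonneg _
    rw [e1, mul_add, e2]
    push_cast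
    constructor <;> nlinarith [mul_le_mul_of_nonneg_left a1 e0, mul_le_mul_of_nonneg_left a2 e0]
  have l1 : ∀ r, (kKCor_L n R los r : ℝ) ≤ l r ∧
      l r ≤ kKCor_L n R los r + h * (∑ j ∈ range n, max (r.m j) r.e : ℕ) := fun r => by
    have c0 : ∀ x : ℕ, (0 : ℝ) ≤ x := Nat.cast_nonneg
    rw [hl', Nat.cast_sum]
    refine ⟨le_add_of_nonneg_right (mul_nonneg b1.le (sum_nonneg fun j hj => ?_)),
      add_le_add_right (mul_le_mul_of_nonneg_left (sum_le_sum fun j hj => ?_) b1.le) _⟩ <;>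
      obtain ⟨u0, u1⟩ := u01 j (mem_range.1 hj)
    · exact add_nonneg (mul_nonneg u0 (c0 _)) (mul_nonneg (by linarith) (c0 _))
    · have x1 : (r.m j : ℝ) ≤ (max (r.m j) r.e : ℕ) := by exact_mod_cast le_max_left _ _
      have x2 : (r.e : ℝ) ≤ (max (r.m j) r.e : ℕ) := by exact_mod_cast le_max_right _ _
      nlinarith
  refine ⟨rs.length, fun i => (ρ i).w / 4096, m, by omega, fun i _ => by positivity,
    fun i hi => ?_, fun i hi => ?_, fun j hj => ?_, ?_⟩
  · have x1 : (T : ℝ) ≤ 2 * kKCor_L n R los (ρ i) := by exact_mod_cast (ok _ (mem i hi)).1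
    have := (d1 i).1
    have := mul_le_mul_of_nonneg_left (l1 (ρ i)).1 b.le
    have := mul_le_mul_of_nonneg_left x1 b.le
    push_cast
    linarith
  · have x1 : (kKCor_L n R los (ρ i) : ℝ) + (h + 1) *
        ((ρ i).e + (∑ j ∈ range n, max ((ρ i).m j) (ρ i).e : ℕ)) ≤ M := by
      exact_mod_cast (ok _ (mem i hi)).2.1
    have x2 := (l1 (ρ i)).2
    have x3 : l (ρ i) + (ρ i).e ≤ M := by
      have y1 : (0 : ℝ) ≤ (∑ j ∈ range n, max ((ρ i).m j) (ρ i).e : ℕ) := Nat.cast_nonneg _
      have y2 : (0 : ℝ) ≤ h * (ρ i).e := by positivity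
      linarith
    have := (d1 i).2
    have := mul_le_mul_of_nonneg_left x3 b.le
    push_cast
    linarith
  · have x1 : ∑ i ∈ range rs.length, (ρ i).w * m i j ≤ 4096 := by
      rw [hm]
      by_cases h3 : j < n
      · simp only [if_pos h3]
        exact sm (fun r => r.w * r.m j) ▸ cm j h3
      · simp only [if_neg h3]
        exact sm (fun r => r.w * r.e) ▸ ce
    have x2 : ∑ i ∈ range rs.length, ((ρ i).w : ℝ) * m i j ≤ 4096 := by exact_mod_cast x1
    simp only [div_mul_eq_mul_div]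
    rw [← sum_div]
    linarith
  · have bh := mul_pos b b1
    have x1 := tsum_slab (k := rs.length) (n := n) (r := q) (O := 2 ^ 30) (c := 8796629893120)
      (w := fun i => (ρ i).w) (A := fun i => (ρ i).a * kKCor_L n R los (ρ i) - (ρ i).c)
      (m := fun i j => (ρ i).a * h * (ρ i).m j) (e := fun i _ => (ρ i).a * h * (ρ i).e)
      (fun i _ => Nat.cast_nonneg _) (fun c hc hq => ?_) u u01 ?_ ?_
    · have x2 : ∀ i ∈ range rs.length, ((ρ i).w : ℝ) * min ((ρ i).a * kKCor_L n R los (ρ i) -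
          (ρ i).c + ∑ j ∈ range n, (u j * ((ρ i).a * h * (ρ i).m j) +
            (1 - u j) * ((ρ i).a * h * (ρ i).e))) (2 ^ 30) ≤
          2 ^ 42 * ((ρ i).w / 4096 * phi (T * B : ℕ) (dot (m i) (pre ++ [a]))) := fun i hi => by
        have y1 := kKCor_phi (hr _ (mem i (mem_range.1 hi))) hB (Nat.cast_nonneg _) (d1 i).1
        have y2 : ((ρ i).a : ℝ) * l (ρ i) - (ρ i).c = (ρ i).a * kKCor_L n R los (ρ i) -
            (ρ i).c + ∑ j ∈ range n, (u j * ((ρ i).a * h * (ρ i).m j) +
              (1 - u j) * ((ρ i).a * h * (ρ i).e)) := by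
          rw [hl', mul_add, ← mul_assoc, mul_sum, add_sub_right_comm]
          exact congrArg _ (sum_congr rfl fun j _ => by ring)
        rw [← y2]
        exact (mul_le_mul_of_nonneg_left y1 (Nat.cast_nonneg (ρ i).w)).trans_eq (by ring)
      have x3 := x1.trans (sum_le_sum x2)
      rw [← mul_sum] at x3
      linarith
    · have y1 := hv c hc hq
      rw [sm] at y1
      have y2 : (8796629893120 : ℝ) ≤ ∑ i ∈ range rs.length, (kKCor_v n R h los c (ρ i) : ℝ) := by
        exact_mod_cast y1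
      refine y2.trans (le_of_eq (sum_congr rfl fun i hi => ?_))
      have y3 := (ok _ (mem i (mem_range.1 hi))).2.2
      rw [kKCor_v, Nat.cast_mul, Nat.cast_min, Nat.cast_sub (by rw [mul_add]; omega)]
      push_cast
      rw [csum_cast, mul_add, ← mul_assoc, mul_sum, add_sub_right_comm]
      congr 3
      · exact sum_congr rfl fun j _ => by ring
      · norm_num
    · have : ((los.sum : ℝ) + q * h) * B ≤ pre.sum := by exact_mod_cast q1
      rw [s2] at this
      exact le_of_mul_le_mul_left (by linarith) bh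
    · have : (pre.sum : ℝ) ≤ (los.sum + (q + 1) * h) * B := by exact_mod_cast q2
      rw [s2] at this
      exact le_of_mul_le_mul_left (by linarith) bh

theorem clr_spec {P : Par} {B δ n K : ℕ} {los his : List ℕ} {ce : Ce} {k : ℕ → ℕ} (hs : Sm P)
    (hB : 0 < B) (hδ : δ ≤ B) (hb : BoxOK P los his) (hl : los.length = n) (h0 : 0 < n)
    (hn : n ≤ 30) (hce : CeOK P.T n ce) (hK : MI P B δ los his K)
    (h : clr (P.G / 32) (P.N * P.G) P.T n los his ce K k < BAD) :
    ∃ K', MI P B δ los his K' ∧ clr (P.G / 32) (P.N * P.G) P.T n los his ce K k = k K' := by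
  obtain ⟨rs, rfl, hk, hr, c1, c2⟩ := hce
  have e : clr (P.G / 32) (P.N * P.G) P.T n los his (mkCe n rs) K k =
      fz (nth his 0 - nth los 0) fun h => iz (eqw h los his) (fz (sm his) fun SH =>
        il (P.N * P.G) SH BAD (fz (slt (pk los)) fun X => fz (64 * n) fun sh =>
          fz (P.N * P.G - 1 - SH) fun R => crn (P.N * P.G) P.T n X sh h R (fun V =>
            fz (sm los) fun SL => fz (sk (K ^^^ (K &&& cm (P.G / 32) SL h V n n))) k) (mkCe n rs)
            (9223363240224882688 - X % 16777216) 0)) BAD := rfl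
  rw [e, fz_eq] at h ⊢
  generalize nth his 0 - nth los 0 = w at h ⊢
  simp only [fz_eq, iz_eq, il_eq, sm_eq] at h ⊢
  split_ifs at h ⊢ with e1 e2
  · exact absurd h (lt_irrefl _)
  swap
  · exact absurd h (lt_irrefl _)
  have hlo : ∀ x ∈ los, x ≤ 32768 := by
    have hM := hs.M
    clear h hK hl e e1 e2
    induction hb with
    | nil => simp
    | cons _ _ _ _ _ ih => exact List.forall_mem_cons.2 ⟨by omega, ih⟩
  generalize hA : 9223363240224882688 - slt (pk los) % 16777216 = A at h ⊢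
  have hA' : A ≤ 9223363240224882688 := hA ▸ Nat.sub_le _ _
  rw [← pack_const_zero 64 (2 ^ n)] at h ⊢
  obtain ⟨ok, e3⟩ := kKCor_crn hn hl hlo hs.M hr h
  refine ⟨_, fun pre a hx => ?_, e3⟩
  obtain ⟨w1, w2⟩ := kKCor_eqw hx.box e1
  have len := hx.box.len
  have hU := hs.U0
  have big : 32 ≤ pre.sum / (P.G / 32 * B) := by
    rw [Nat.le_div_iff_mul_le (Nat.mul_pos hU hB), ← mul_assoc]
    obtain ⟨x, p, rfl⟩ := List.exists_cons_of_length_pos (by omega : 0 < pre.length)
    have a1 := hx.hyp.big x (by simp)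
    have a2 := Nat.mul_le_mul_right B ((Nat.mul_div_le P.G 32).trans hs.Gz)
    rw [List.sum_cons]
    omega
  rw [kKCor_sk big, Nat.testBit_xor, Nat.testBit_and, hK pre a hx]
  cases hc : (cm (P.G / 32) los.sum w _ n n).testBit (pre.sum / (P.G / 32 * B))
  · rfl
  exfalso
  obtain ⟨q, q0, q1, q2⟩ := kKCor_cm hU hc
  have g := fun j (hj : j < n) => hx.box.get (j := j) (by omega)
  have hw : 0 < w := by
    have := lt_of_mul_lt_mul_right ((g 0 h0).1.trans_lt (g 0 h0).2) B.zero_le
    rw [w2 0 (by omega)] at this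
    omega
  have t1 := hx.hyp.lo
  have t2 := hx.hyp.hi
  rw [List.sum_append, List.sum_singleton, ← mul_assoc] at t1 t2
  refine hx.bad (kKCor_good (q := q) (R := P.N * P.G - 1 - his.sum) hB hw hl (by omega)
    (fun j hj => ⟨(g j hj).1, w2 j (by omega) ▸ (g j hj).2.le⟩) (by rw [← hl, ← w1]; omega)
    (by omega) t2 ?_ ?_ hk hr c1 c2 ok fun i hi hq => ?_)
  · refine (Nat.mul_le_mul_right B q1).trans ?_
    rw [mul_assoc]
    exact Nat.div_mul_le_self _ _
  · refine le_trans ?_ (Nat.mul_le_mul_right B q2)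
    rw [mul_assoc]
    exact (Nat.lt_mul_of_div_lt (Nat.lt_succ_self _) (Nat.mul_pos hU hB)).le
  · have := rm_spec (fun i _ => ?_) q0 hi hq
    · omega
    · have := List.sum_le_card_nsmul (rs.map (kKCor_v n (P.N * P.G - 1 - his.sum) w los i))
        (8192 * 2 ^ 30) fun x hx => by
          obtain ⟨r, h, rfl⟩ := List.mem_map.1 hx
          exact Nat.mul_le_mul (hr r h).w.le (min_le_right _ _)
      rw [List.length_map, smul_eq_mul] at this
      omega

end Pool.Agent.Work.MP_82fd4a_nt.P
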