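import Pool.Agent.Work.MP_82fd4a_nt.P.KBs

/-! The cost of a box. -/

set_option autoImplicit false
open Finset

namespace Pool.Agent.Work.MP_82fd4a_nt.P

open BS Y

theorem kKLf_div (a b : ℕ) : Nat.div a b = a / b := rfl

theorem kKLf_mxl {n V i : ℕ} (h : i < n) : V / 2 ^ (32 * i) % 2 ^ 32 ≤ mxl n V := by
  induction n generalizing V i with
  | zero => omega
  | succ n ih =>
    have e : mxl (n + 1) V = fz (V % 4294967296) fun u => fz (mxl n (V >>> 32)) fun b => mx u b := rfl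
    rw [e, fz_eq, fz_eq, mx_eq]
    rcases i with _ | i
    · exact le_max_of_le_left (by norm_num)
    · refine le_max_of_le_right (le_trans (le_of_eq ?_) (ih (i := i) (by omega)))
      rw [Nat.shiftRight_eq_div_pow, Nat.div_div_eq_div_mul, ← pow_add, mul_add, mul_one, add_comm]

theorem kKLf_bs {P : Par} {B : ℕ} {κ : ℝ} {μ : ℕ → ℝ} (hz : 0 < P.z) (hκ : 0 ≤ κ)
    (hm : Mass P B κ μ) {l h : List ℕ} (hb : BoxOK P l h) {F : List ℕ → ℝ} {a b : ℕ} {K : ℝ}
    (hK : 0 ≤ K) (h0 : 0 < b) (hF : ∀ p, InB B l h p → F p ≤ K * (a / b)) :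
    bs B μ l h F ≤ κ ^ l.length * K * ms l h a b := by
  induction hb generalizing F a b K with
  | nil =>
    have e : ms [] [] a b = a / b + 1 := rfl
    rw [e, List.length_nil, pow_zero, one_mul, Nat.cast_succ, ← Nat.floor_div_eq_div (K := ℝ)]
    exact (hF [] .nil).trans (mul_le_mul_of_nonneg_left (Nat.lt_floor_add_one _).le hK)
  | @cons lo hi l h h1 h2 _ h4 _ ih =>
    have e : ms (lo :: l) (hi :: h) a b = ms l h (a * (hi * hi - lo * lo)) (b * (2 * (hi * lo))) := rfl
    have l0 : 0 < lo := hz.trans_le h1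
    have l1 : (0 : ℝ) < lo := by exact_mod_cast l0
    have l2 : (lo : ℝ) < hi := by exact_mod_cast h2
    have l3 := l1.trans l2
    have hu : (0 : ℝ) < hi * hi - lo * lo := by nlinarith
    have hl : Real.log (hi / lo) ≤ (hi * hi - lo * lo) / (2 * (hi * lo)) := by
      refine (Real.self_le_sinh_iff.2 (Real.log_nonneg ((one_le_div l1).2 l2.le))).trans_eq ?_
      rw [Real.sinh_log (by positivity)]
      field_simp
    rw [e, bs]
    generalize hX : ms l h (a * (hi * hi - lo * lo)) (b * (2 * (hi * lo))) = X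
    calc _ ≤ ∑ x ∈ Ico (lo * B) (hi * B), μ x *
          (κ ^ l.length * (K * ((2 * (hi * lo)) / (hi * hi - lo * lo))) * X) := by
          refine sum_le_sum fun x hx => mul_le_mul_of_nonneg_left (hX ▸ ih (by positivity)
            (by have := l0.trans h2; positivity) fun p hp =>
              (hF _ (.cons (mem_Ico.1 hx).1 (mem_Ico.1 hx).2 hp)).trans_eq ?_) (hm.1 x)
          push_cast [Nat.cast_sub (Nat.mul_self_le_mul_self h2.le)]
          generalize (hi : ℝ) * hi - lo * lo = u at hu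
          field_simp
      _ ≤ κ * ((hi * hi - lo * lo) / (2 * (hi * lo))) *
          (κ ^ l.length * (K * ((2 * (hi * lo)) / (hi * hi - lo * lo))) * X) := by
          rw [← sum_mul]
          exact mul_le_mul_of_nonneg_right ((hm.2 lo hi h1 h2 h4).trans
            (mul_le_mul_of_nonneg_left hl hκ)) (by positivity)
      _ = _ := by
          rw [List.length_cons, pow_succ]
          generalize (hi : ℝ) * hi - lo * lo = u at hu
          field_simp

theorem kKLf_pos {P : Par} (hs : Sm P) {c : ℕ} (hc : P.z / P.G ≤ c) (x y : ℕ) :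
    0 < max (max c x * P.G) y :=
  have hG : 0 < P.G := by have := hs.G2; omega
  lt_max_of_lt_left (Nat.mul_pos (lt_max_of_lt_left ((Nat.div_pos hs.Gz hG).trans_le hc)) hG)

/-- the bound at one point of the box -/
theorem kKLf_pt {P : Par} {tb : Tr} {B δ c sl sh CT j0 jl C A : ℕ} {κ : ℝ} {μ : ℕ → ℝ}
    {Ψ : List ℕ → ℝ} {los his p : List ℕ} (hx : Ctx P tb B δ κ μ Ψ) (hc : Low P B δ c los his)
    (hT : CTI P tb B δ los his CT j0) (hp : InB B los his p)
    (hr : ∀ a, Bad P B δ los his p a → sl * B ≤ p.sum ∧ p.sum < sh * B)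
    (hj : max c ((P.N * P.G - sh) / P.G) = jl)
    (hC : mxl ((P.N * P.G - sl - 1) / P.G + 1 - jl) (CT / 2 ^ (32 * (jl - j0 + 1))) = C)
    (hA : max (jl * P.G) (P.N * P.G - 1 - sh) = A) (h31 : C < 2 ^ 31) :
    Ψ p ≤ 1 / 2 ^ 52 * ((C * (P.N * P.G) * 1099511627776 : ℕ) / A) := by
  have hG : 0 < P.G := by have := hx.sm.G2; omega
  have hB := hx.B0
  have hA0 : 0 < A := hA ▸ hj ▸ kKLf_pos hx.sm hc.1 _ _
  by_cases h0 : Ψ p ≤ 0
  · exact h0.trans (by positivity)
  obtain ⟨a, hne, hy, hb, hW⟩ := (hx.dom p).resolve_left h0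
  obtain ⟨q, hq⟩ := single_split (l := p ++ [a]) (a := a) (by simp)
  have hw := hy.wall _ hq (by simp) fun e => hne (by simpa [show q = [] from e] using splits_length hq)
  have s1 := hy.lo
  have s2 := hy.hi
  have s3 := hr a ⟨hp, hy, hb⟩
  have s4 := hx.δB
  have s5 := Nat.div_add_mod a (P.G * B)
  have s6 := hc.2 p [a] hp hy a (by simp)
  obtain ⟨s7, hT⟩ := hT p a ⟨hp, hy, hb⟩
  simp only [List.sum_append, List.sum_singleton, ← mul_assoc] at s1 s2 hw
  generalize a / (P.G * B) = j at *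
  have t1 : jl ≤ j := hj ▸ max_le s6 (Nat.le_of_lt_succ (Nat.div_lt_of_lt_mul
    (Nat.lt_of_mul_lt_mul_right (a := B) (by rw [Nat.sub_mul, show P.G * j.succ * B =
      P.G * B * j + P.G * B by rw [Nat.succ_eq_add_one]; ring]; omega))))
  have t2 : j ≤ (P.N * P.G - sl - 1) / P.G := (Nat.le_div_iff_mul_le hG).2
    (Nat.le_sub_one_of_lt (Nat.lt_of_mul_lt_mul_right (a := B) (by
      rw [Nat.sub_mul, show j * P.G * B = P.G * B * j by ring]; omega)))
  have t3 : CT / 2 ^ (32 * (j - j0 + 1)) % 2 ^ 32 ≤ C := by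
    refine le_of_eq_of_le ?_ (hC ▸ kKLf_mxl (i := j - j0 - (jl - j0)) (by omega))
    rw [Nat.div_div_eq_div_mul, ← pow_add, ← mul_add,
      show jl - j0 + 1 + (j - j0 - (jl - j0)) = j - j0 + 1 by omega]
  have t4 : A * B ≤ a := by
    rw [← hA, ← Nat.mul_max_mul_right, Nat.sub_mul, Nat.sub_mul, show jl * P.G * B = P.G * B * jl by ring]
    have := Nat.mul_le_mul_left (P.G * B) t1
    omega
  obtain ⟨w1, w2⟩ := hT _ rfl (t3.trans_lt h31)
  replace hW := hW.resolve_left w1.not_gt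
  have m0 : (0 : ℝ) < mf ((p ++ [a]).map (· / (P.G * B))) := by exact_mod_cast mf_pos _
  have u1 : (A : ℝ) * B ≤ a := by exact_mod_cast t4
  have u2 : (0 : ℝ) < B := by exact_mod_cast hB
  have u3 : (0 : ℝ) < A := by exact_mod_cast hA0
  have u4 := w2.trans (mul_le_mul_of_nonneg_right (Nat.cast_le.2 t3) m0.le)
  rw [← mul_div_assoc, le_div_iff₀ u3]
  push_cast at hW ⊢
  refine le_of_mul_le_mul_right (le_of_mul_le_mul_right ?_ m0) u2
  have u5 := mul_le_mul_of_nonneg_right u4 (by positivity : (0 : ℝ) ≤ P.N * (P.G * B))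
  have u6 := mul_le_mul_of_nonneg_right (mul_le_mul_of_nonneg_left u1 (not_le.1 h0).le) m0.le
  linarith

theorem lf_spec {P : Par} {tb : Tr} {B δ c sl sh CT j0 : ℕ} {κ : ℝ} {μ : ℕ → ℝ} {Ψ : List ℕ → ℝ}
    {los his : List ℕ} (hx : Ctx P tb B δ κ μ Ψ) (hb : BoxOK P los his)
    (hc : Low P B δ c los his) (hr : Nar P B δ los his sl sh) (hT : CTI P tb B δ los his CT j0)
    (h : lf P.G (P.N * P.G) c los his sl sh CT j0 < BAD) :
    bs B μ los his Ψ ≤ κ ^ los.length / 2 ^ 52 * lf P.G (P.N * P.G) c los his sl sh CT j0 := by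
  have hG : 0 < P.G := by have := hx.sm.G2; omega
  have key := fun p hp => kKLf_pt hx hc hT hp (hr p) rfl rfl rfl
  simp only [lf, fz_eq, iz_eq, il_eq, mx_eq, Nat.sub_eq, Nat.mul_eq, kKLf_div,
    Nat.pred_eq_sub_one, Nat.succ_eq_add_one, Nat.shiftRight_eq, Nat.shiftRight_eq_div_pow] at h ⊢
  generalize mxl _ _ = C at h key ⊢
  split_ifs at h ⊢ with h1 h2
  · subst h1
    simpa using bs_nonpos hx.mass.1 hb.len fun p hp => by simpa using key p hp (by norm_num)
  · exact absurd h (lt_irrefl _)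
  · rw [div_eq_mul_one_div]
    exact kKLf_bs (hG.trans_le hx.sm.Gz) (zero_le_one.trans hx.κ1) hx.mass hb (by positivity)
      (kKLf_pos hx.sm hc.1 _ _) fun p hp => key p hp (by omega)

end Pool.Agent.Work.MP_82fd4a_nt.P
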