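import Pool.Agent.Work.MP_82fd4a_nt.P.KDefs

/-! The mask. -/

set_option autoImplicit false
open Finset

namespace Pool.Agent.Work.MP_82fd4a_nt.P

open BS Y

theorem kKNar_low {W i : ℕ} (h : W.testBit i = true) : (W ^^^ (W - 1)).log2 ≤ i := by
  have h1 : ¬ 2 ^ (i + 1) ∣ W := fun hd => by
    have h2 := Nat.testBit_mod_two_pow W (i + 1) i
    rw [Nat.mod_eq_zero_of_dvd hd, h] at h2
    simp at h2
  obtain ⟨V, rfl⟩ : ∃ V, W = V + 1 := Nat.exists_eq_succ_of_ne_zero fun h => h1 (h ▸ dvd_zero _)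
  have h2 : (V + 1 ^^^ (V + 1 - 1)) / 2 ^ (i + 1) = 0 := by
    rw [Nat.xor_div_two_pow, Nat.succ_div_of_not_dvd h1, Nat.add_sub_cancel, Nat.xor_self]
  by_cases h0 : V + 1 ^^^ (V + 1 - 1) = 0
  · simp only [h0, Nat.log2_zero, Nat.zero_le]
  · exact Nat.lt_succ_iff.1 ((Nat.log2_lt h0).2 (Nat.lt_of_div_eq_zero (by positivity) h2))

theorem kKNar_box {B : ℕ} {los his pre : List ℕ} (h0 : los ≠ []) (h : InB B los his pre) :
    los.sum * B ≤ pre.sum ∧ pre.sum < his.sum * B := by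
  have h1 := h.sum
  have h2 := h.len.1
  have h3 := List.length_pos_of_ne_nil h0
  omega

theorem nar_spec {P : Par} {B δ K : ℕ} {los his : List ℕ} (hs : Sm P) (hB : 0 < B)
    (h0 : los ≠ []) (hK : MI P B δ los his K) (k : ℕ → ℕ → ℕ) :
    (nar (P.G / 32) K los his k = 0 ∧ ∀ pre a, ¬ Bad P B δ los his pre a) ∨
      ∃ sl sh, Nar P B δ los his sl sh ∧ nar (P.G / 32) K los his k = k sl sh := by
  have hU := hs.U0
  unfold MI at hK
  generalize P.G / 32 = U at hU hK ⊢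
  obtain ⟨s0, e0⟩ : ∃ s0, s0 = los.sum / U := ⟨_, rfl⟩
  obtain ⟨Wb, eW⟩ : ∃ Wb, Wb = (K >>> s0) % 2 ^ ((his.sum - 1) / U + 1 - s0) := ⟨_, rfl⟩
  have e : nar U K los his k = if Wb = 0 then 0 else
      k (max los.sum ((s0 + (Wb ^^^ (Wb - 1)).log2) * U)) (min his.sum ((s0 + Wb.log2 + 1) * U)) := by
    rw [eW, e0]
    unfold nar nar1
    simp only [fz_eq, iz_eq, mx_eq, mn_eq, sm_eq]
    rfl
  have key : ∀ pre a, Bad P B δ los his pre a →
      s0 ≤ pre.sum / (U * B) ∧ Wb.testBit (pre.sum / (U * B) - s0) = true := fun pre a h => by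
    obtain ⟨h1, h2⟩ := kKNar_box h0 h.box
    have h3 : s0 ≤ pre.sum / (U * B) := by
      rw [e0, ← Nat.mul_div_mul_right los.sum U hB]
      exact Nat.div_le_div_right h1
    have h4 : pre.sum / (U * B) ≤ (his.sum - 1) / U := by
      rw [mul_comm, ← Nat.div_div_eq_div_mul]
      exact Nat.div_le_div_right (Nat.le_sub_one_of_lt ((Nat.div_lt_iff_lt_mul hB).2 h2))
    refine ⟨h3, ?_⟩
    rw [eW, Nat.testBit_mod_two_pow, Nat.testBit_shiftRight, Nat.add_sub_cancel' h3, hK pre a h,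
      Bool.and_true, decide_eq_true_eq]
    omega
  rw [e]
  split_ifs with hW
  · exact .inl ⟨rfl, fun pre a h => by simpa [hW] using (key pre a h).2⟩
  refine .inr ⟨_, _, fun pre a h => ?_, rfl⟩
  obtain ⟨h1, h2⟩ := kKNar_box h0 h.box
  obtain ⟨h3, h4⟩ := key pre a h
  have h5 := kKNar_low h4
  have h6 := (Nat.le_log2 hW).2 (Nat.ge_two_pow_of_testBit h4)
  rw [max_mul, min_mul, mul_assoc, mul_assoc]
  exact ⟨max_le h1 ((Nat.le_div_iff_mul_le (Nat.mul_pos hU hB)).1 (by omega)),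
    lt_min h2 ((Nat.div_lt_iff_lt_mul (Nat.mul_pos hU hB)).1 (by omega))⟩

theorem MI_CT0 {P : Par} {B δ : ℕ} (los his : List ℕ) (hs : Sm P) (hB : 0 < B) :
    MI P B δ los his CT0 := by
  intro pre a h
  have h1 := h.hyp.hi
  have h2 := Nat.mul_lt_mul_of_pos_right hs.U1 hB
  rw [List.sum_append, ← mul_assoc] at h1
  have e : ∀ n, Nat.pred (Nat.pow 2 n) = 2 ^ n - 1 := fun _ => rfl
  rw [CT0, e, Nat.testBit_two_pow_sub_one, decide_eq_true_eq,
    Nat.div_lt_iff_lt_mul (Nat.mul_pos hs.U0 hB), ← mul_assoc]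
  omega

theorem Nar_box {P : Par} {B δ : ℕ} {los his : List ℕ} (h0 : los ≠ []) :
    Nar P B δ los his los.sum his.sum := by
  exact fun _ _ h => kKNar_box h0 h.box

end Pool.Agent.Work.MP_82fd4a_nt.P
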