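import Mathlib.Data.Nat.Bitwise
import Mathlib.Algebra.BigOperators.Intervals
import Mathlib.Algebra.BigOperators.Ring.Finset
import Mathlib.Algebra.Order.BigOperators.Group.Finset
import Mathlib.Tactic.Ring
import Mathlib.Tactic.Linarith

/-! Vectors of natural numbers written as the digits of one natural number. -/

set_option autoImplicit false
open Finset

namespace Pool.Agent.Work.MP_82fd4a_nt.P

/-- the number with the digits `f 0, …, f (n - 1)` in base `2 ^ W` -/
def pack (W n : ℕ) (f : ℕ → ℕ) : ℕ := ∑ i ∈ range n, f i * 2 ^ (W * i)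

variable {W n : ℕ} {f g : ℕ → ℕ}

@[simp] theorem pack_zero (W : ℕ) (f : ℕ → ℕ) : pack W 0 f = 0 := by simp [pack]

theorem pack_one (W : ℕ) (f : ℕ → ℕ) : pack W 1 f = f 0 := by simp [pack]

theorem pack_congr (h : ∀ i < n, f i = g i) : pack W n f = pack W n g :=
  sum_congr rfl fun i hi => by rw [h i (mem_range.1 hi)]

theorem pack_succ (W n : ℕ) (f : ℕ → ℕ) :
    pack W (n + 1) f = 2 ^ W * pack W n (fun i => f (i + 1)) + f 0 := by
  rw [pack, sum_range_succ', pack, mul_sum]
  simp only [Nat.mul_zero, pow_zero, mul_one, add_left_inj]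
  exact sum_congr rfl fun i _ => by rw [Nat.mul_succ, pow_add]; ring

theorem pack_succ' (W n : ℕ) (f : ℕ → ℕ) :
    pack W (n + 1) f = pack W n f + f n * 2 ^ (W * n) := by
  rw [pack, sum_range_succ, pack]

theorem pack_const_zero (W n : ℕ) : pack W n (fun _ => 0) = 0 := by simp [pack]

theorem pack_add (W n : ℕ) (f g : ℕ → ℕ) :
    pack W n f + pack W n g = pack W n (fun i => f i + g i) := by
  simp only [pack, ← sum_add_distrib, add_mul]

theorem pack_smul (W n c : ℕ) (f : ℕ → ℕ) : c * pack W n f = pack W n (fun i => c * f i) := by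
  simp only [pack, mul_sum, mul_assoc]

theorem pack_sub (h : ∀ i < n, g i ≤ f i) :
    pack W n f - pack W n g = pack W n (fun i => f i - g i) := by
  have : pack W n f = pack W n (fun i => f i - g i) + pack W n g := by
    rw [pack_add]; exact pack_congr fun i hi => by have := h i hi; omega
  omega

theorem pack_append (W n m : ℕ) (f g : ℕ → ℕ) :
    pack W n f + pack W m g <<< (W * n) =
      pack W (n + m) (fun i => if i < n then f i else g (i - n)) := by
  induction m with
  | zero =>
    simp only [pack_zero, Nat.zero_shiftLeft, add_zero]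
    exact pack_congr fun i hi => by rw [if_pos hi]
  | succ m ih =>
    rw [← add_assoc, pack_succ', pack_succ', ← ih, if_neg (by omega), Nat.add_sub_cancel_left,
      Nat.shiftLeft_eq, Nat.shiftLeft_eq, Nat.mul_add, pow_add]
    ring

theorem pack_lt (h : ∀ i < n, f i < 2 ^ W) : pack W n f < 2 ^ (W * n) := by
  induction n with
  | zero => simp
  | succ n ih =>
    have h1 := ih fun i hi => h i (by omega)
    have h2 := h n (by omega)
    rw [pack_succ', Nat.mul_succ, pow_add]
    calc pack W n f + f n * 2 ^ (W * n) < (f n + 1) * 2 ^ (W * n) := by linarith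
      _ ≤ 2 ^ W * 2 ^ (W * n) := Nat.mul_le_mul_right _ h2
      _ = _ := mul_comm _ _

/-- drop the first digits -/
theorem pack_shiftRight (k : ℕ) (h : ∀ i < n, f i < 2 ^ W) :
    pack W n f >>> (W * k) = pack W (n - k) (fun i => f (i + k)) := by
  rcases Nat.lt_or_ge n k with hk | hk
  · rw [Nat.sub_eq_zero_of_le hk.le, pack_zero, Nat.shiftRight_eq_div_pow]
    exact Nat.div_eq_of_lt ((pack_lt h).trans_le
      (Nat.pow_le_pow_right (by norm_num) (Nat.mul_le_mul_left _ hk.le)))
  · obtain ⟨m, rfl⟩ := Nat.exists_eq_add_of_le hk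
    have e : pack W (k + m) f = pack W k f + pack W m (fun i => f (i + k)) <<< (W * k) := by
      rw [pack_append]
      exact pack_congr fun i _ => by
        split_ifs with h1
        · rfl
        · rw [Nat.sub_add_cancel (by omega)]
    rw [e, Nat.add_sub_cancel_left, Nat.shiftRight_eq_div_pow, Nat.shiftLeft_eq,
      Nat.add_mul_div_right _ _ (by positivity),
      Nat.div_eq_of_lt (pack_lt fun i hi => h i (by omega)), zero_add]

/-- keep the first digits -/
theorem pack_mod (k : ℕ) (hk : k ≤ n) (h : ∀ i < n, f i < 2 ^ W) :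
    pack W n f % 2 ^ (W * k) = pack W k f := by
  obtain ⟨m, rfl⟩ := Nat.exists_eq_add_of_le hk
  have e : pack W (k + m) f = pack W k f + pack W m (fun i => f (i + k)) <<< (W * k) := by
    rw [pack_append]
    exact pack_congr fun i _ => by
      split_ifs with h1
      · rfl
      · rw [Nat.sub_add_cancel (by omega)]
  rw [e, Nat.shiftLeft_eq, Nat.add_mul_mod_self_right,
    Nat.mod_eq_of_lt (pack_lt fun i hi => h i (by omega))]

/-- read a digit -/
theorem pack_lane {i : ℕ} (hi : i < n) (h : ∀ i < n, f i < 2 ^ W) :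
    pack W n f >>> (W * i) % 2 ^ W = f i := by
  rw [pack_shiftRight i h]
  have := pack_mod (W := W) (n := n - i) (f := fun j => f (j + i)) 1 (by omega)
    fun j hj => h _ (by omega)
  rw [mul_one] at this
  rw [this, pack_one, zero_add]

theorem pack_inj (hf : ∀ i < n, f i < 2 ^ W) (hg : ∀ i < n, g i < 2 ^ W)
    (h : pack W n f = pack W n g) : ∀ i < n, f i = g i := fun i hi => by
  rw [← pack_lane hi hf, h, pack_lane hi hg]

theorem land_step {a b : ℕ} (x y : ℕ) (ha : a < 2 ^ W) (hb : b < 2 ^ W) :
    (2 ^ W * x + a) &&& (2 ^ W * y + b) = 2 ^ W * (x &&& y) + (a &&& b) := by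
  have hab : a &&& b < 2 ^ W := lt_of_le_of_lt Nat.and_le_left ha
  refine Nat.eq_of_testBit_eq fun j => ?_
  rw [Nat.testBit_and, Nat.testBit_two_pow_mul_add _ ha, Nat.testBit_two_pow_mul_add _ hb,
    Nat.testBit_two_pow_mul_add _ hab]
  split_ifs <;> rw [Nat.testBit_and]

theorem pack_land (hf : ∀ i < n, f i < 2 ^ W) (hg : ∀ i < n, g i < 2 ^ W) :
    pack W n f &&& pack W n g = pack W n (fun i => f i &&& g i) := by
  induction n generalizing f g with
  | zero => simp
  | succ n ih =>
    rw [pack_succ, pack_succ, pack_succ, land_step _ _ (hf 0 (by omega)) (hg 0 (by omega)),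
      ih (fun i hi => hf _ (by omega)) fun i hi => hg _ (by omega)]

/-- a common power of two can be removed from all the digits -/
theorem pack_shiftRight_dvd (s : ℕ) (h : ∀ i < n, 2 ^ s ∣ f i) :
    pack W n f >>> s = pack W n (fun i => f i / 2 ^ s) := by
  have : pack W n f = 2 ^ s * pack W n (fun i => f i / 2 ^ s) := by
    rw [pack_smul]; exact pack_congr fun i hi => (Nat.mul_div_cancel' (h i hi)).symm
  rw [this, Nat.shiftRight_eq_div_pow, Nat.mul_div_cancel_left _ (by positivity)]

theorem land_top {z V : ℕ} (hz : z < 2 ^ (V + 1)) :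
    z &&& 2 ^ V = if 2 ^ V ≤ z then 2 ^ V else 0 := by
  rw [Nat.and_two_pow]
  split_ifs with h
  · rw [Nat.testBit_of_two_pow_le_and_two_pow_add_one_gt h hz]; simp
  · rw [Nat.testBit_lt_two_pow (by omega)]; simp

/-- the highest bits of all the digits -/
theorem pack_top {V : ℕ} (h : ∀ i < n, f i < 2 ^ (V + 1)) :
    pack (V + 1) n f &&& pack (V + 1) n (fun _ => 2 ^ V) =
      pack (V + 1) n (fun i => if 2 ^ V ≤ f i then 2 ^ V else 0) := by
  rw [pack_land h fun _ _ => Nat.pow_lt_pow_right (by norm_num) (by omega)]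
  exact pack_congr fun i hi => land_top (h i hi)

/-- comparison of all the digits with a constant -/
theorem pack_cmp {V c : ℕ} (hc : c ≤ 2 ^ V) (h : ∀ i < n, f i < 2 ^ V + c) :
    (pack (V + 1) n f + (2 ^ V - c) * pack (V + 1) n (fun _ => 1)) &&&
        pack (V + 1) n (fun _ => 2 ^ V) =
      pack (V + 1) n (fun i => if c ≤ f i then 2 ^ V else 0) := by
  rw [pack_smul, pack_add, pack_top fun i hi => by have := h i hi; rw [pow_succ]; omega]
  exact pack_congr fun i _ => if_congr (by omega) rfl rfl

/-- minimum of all the digits with a constant -/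
theorem pack_min {V c X Z H : ℕ} (hc : c ≤ 2 ^ V) (h : ∀ i < n, f i < 2 ^ V + c)
    (hX : X = pack (V + 1) n f) (hZ : Z = X + (2 ^ V - c) * pack (V + 1) n (fun _ => 1))
    (hH : H = Z &&& pack (V + 1) n (fun _ => 2 ^ V)) :
    X - (Z &&& (H - H >>> V)) = pack (V + 1) n (fun i => min (f i) c) := by
  have p : 0 < 2 ^ V := by positivity
  have e1 : H = pack (V + 1) n (fun i => if c ≤ f i then 2 ^ V else 0) := by
    rw [hH, hZ, hX, pack_cmp hc h]
  have e2 : H >>> V = pack (V + 1) n (fun i => if c ≤ f i then 1 else 0) := by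
    rw [e1, pack_shiftRight_dvd V fun i _ => by split_ifs <;> simp]
    exact pack_congr fun i _ => by split_ifs <;> simp
  have e3 : H - H >>> V = pack (V + 1) n (fun i => if c ≤ f i then 2 ^ V - 1 else 0) := by
    rw [e2, e1, pack_sub fun i _ => by split_ifs <;> omega]
    exact pack_congr fun i _ => by split_ifs <;> rfl
  have e4 : Z = pack (V + 1) n (fun i => f i + (2 ^ V - c)) := by
    rw [hZ, hX, pack_smul, pack_add]; simp only [mul_one]
  have e5 : Z &&& (H - H >>> V) = pack (V + 1) n (fun i => f i - c) := by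
    rw [e3, e4, pack_land (fun i hi => by have := h i hi; rw [pow_succ]; omega)
      fun i _ => by rw [pow_succ]; split_ifs <;> omega]
    refine pack_congr fun i hi => ?_
    have := h i hi
    split_ifs with h1
    · rw [Nat.and_two_pow_sub_one_eq_mod,
        show f i + (2 ^ V - c) = f i - c + 2 ^ V by omega, Nat.add_mod_right,
        Nat.mod_eq_of_lt (by omega)]
    · rw [Nat.and_zero]; omega
  rw [e5, hX, pack_sub fun i _ => by omega]
  exact pack_congr fun i _ => by omega

/-- all the digits that are selected by a mask are large -/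
theorem pack_pass {V c : ℕ} {S : ℕ → Prop} [DecidablePred S] (hc : c ≤ 2 ^ V)
    (h : ∀ i < n, f i < 2 ^ V + c)
    (hp : ((pack (V + 1) n f + (2 ^ V - c) * pack (V + 1) n (fun _ => 1)) &&&
        pack (V + 1) n (fun _ => 2 ^ V)) &&& pack (V + 1) n (fun i => if S i then 2 ^ V else 0) =
      pack (V + 1) n (fun i => if S i then 2 ^ V else 0)) : ∀ i < n, S i → c ≤ f i := by
  have p : 0 < 2 ^ V := by positivity
  have b : ∀ (q : Prop) [Decidable q], (if q then 2 ^ V else 0) < 2 ^ (V + 1) := fun q _ => by
    rw [pow_succ]; split_ifs <;> omega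
  rw [pack_cmp hc h, pack_land (fun i _ => b _) fun i _ => b _] at hp
  intro i hi hS
  have := pack_inj (fun i _ => lt_of_le_of_lt Nat.and_le_left (b _)) (fun i _ => b _) hp i hi
  by_contra hn
  simp only [if_neg hn, if_pos hS, Nat.zero_and] at this
  omega

/-- the same test without the highest bits: `Z &&& mask = mask` -/
theorem pack_pass' {V c : ℕ} {S : ℕ → Prop} [DecidablePred S] (hc : c ≤ 2 ^ V)
    (h : ∀ i < n, f i < 2 ^ V + c)
    (hp : (pack (V + 1) n f + (2 ^ V - c) * pack (V + 1) n (fun _ => 1)) &&&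
        pack (V + 1) n (fun i => if S i then 2 ^ V else 0) =
      pack (V + 1) n (fun i => if S i then 2 ^ V else 0)) : ∀ i < n, S i → c ≤ f i := by
  have p : 0 < 2 ^ V := by positivity
  have b : ∀ (q : Prop) [Decidable q], (if q then 2 ^ V else 0) < 2 ^ (V + 1) := fun q _ => by
    rw [pow_succ]; split_ifs <;> omega
  have hz : ∀ i < n, f i + (2 ^ V - c) * 1 < 2 ^ (V + 1) := fun i hi => by
    have := h i hi; rw [pow_succ]; omega
  rw [pack_smul, pack_add, pack_land hz fun i _ => b _] at hp
  intro i hi hS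
  have := pack_inj (fun i _ => lt_of_le_of_lt Nat.and_le_right (b _)) (fun i _ => b _) hp i hi
  simp only [if_pos hS] at this
  rw [land_top (hz i hi)] at this
  split_ifs at this <;> omega

/-- doubling of the number of digits: the new index bit is the highest one -/
theorem pack_double (W j : ℕ) (f g : ℕ → ℕ) :
    pack W (2 ^ j) f + pack W (2 ^ j) g <<< (W * 2 ^ j) =
      pack W (2 ^ (j + 1)) (fun i => if i.testBit j then g (i % 2 ^ j) else f (i % 2 ^ j)) := by
  rw [pack_append, pow_succ, mul_two]
  refine pack_congr fun i hi => ?_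
  split_ifs with h1 h2 h2
  · rw [Nat.testBit_lt_two_pow h1] at h2; simp at h2
  · rw [Nat.mod_eq_of_lt h1]
  · rw [Nat.mod_eq_sub_mod (by omega), Nat.mod_eq_of_lt (by omega)]
  · exact absurd (Nat.testBit_of_two_pow_le_and_two_pow_add_one_gt (by omega)
      (by rw [pow_succ]; omega)) h2

/-- the sum of `m l` over the bits of `i` that are set and of `e l` over the other ones -/
def csum (m e : ℕ → ℕ) (j i : ℕ) : ℕ := ∑ l ∈ range j, if i.testBit l then m l else e l

theorem csum_mod (m e : ℕ → ℕ) (j i : ℕ) : csum m e j (i % 2 ^ j) = csum m e j i :=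
  sum_congr rfl fun l hl => by rw [Nat.testBit_mod_two_pow, decide_eq_true (mem_range.1 hl)]; simp

theorem csum_succ (m e : ℕ → ℕ) (j i : ℕ) :
    csum m e (j + 1) i = csum m e j i + if i.testBit j then m j else e j := sum_range_succ _ _

theorem csum_le (m e : ℕ → ℕ) (j i : ℕ) : csum m e j i ≤ ∑ l ∈ range j, max (m l) (e l) :=
  sum_le_sum fun l _ => by split_ifs <;> omega

/-- the recursion for the values at the corners of a cube -/
theorem pack_csum (W j : ℕ) (m e : ℕ → ℕ) :
    (pack W (2 ^ j) (csum m e j) + e j * pack W (2 ^ j) (fun _ => 1)) +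
        (pack W (2 ^ j) (csum m e j) + m j * pack W (2 ^ j) (fun _ => 1)) <<< (W * 2 ^ j) =
      pack W (2 ^ (j + 1)) (csum m e (j + 1)) := by
  rw [pack_smul, pack_smul, pack_add, pack_add, pack_double]
  refine pack_congr fun i _ => ?_
  rw [csum_succ, csum_mod]
  split_ifs <;> simp

theorem pack_csum_zero (W : ℕ) (m e : ℕ → ℕ) : pack W (2 ^ 0) (csum m e 0) = 0 := by
  simp [pack, csum]

/-- the recursion for constant digits -/
theorem pack_const_double (W j c : ℕ) :
    pack W (2 ^ j) (fun _ => c) + pack W (2 ^ j) (fun _ => c) <<< (W * 2 ^ j) =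
      pack W (2 ^ (j + 1)) (fun _ => c) := by
  rw [pack_double]; simp

/-- the number of bits below `j` that are set -/
def pop (j i : ℕ) : ℕ := csum (fun _ => 1) (fun _ => 0) j i

/-- the recursion for the masks of the corners with a given number of ones -/
theorem pack_pop (W j c r : ℕ) :
    pack W (2 ^ j) (fun i => if pop j i = r + 1 then c else 0) +
        pack W (2 ^ j) (fun i => if pop j i = r then c else 0) <<< (W * 2 ^ j) =
      pack W (2 ^ (j + 1)) (fun i => if pop (j + 1) i = r + 1 then c else 0) := by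
  rw [pack_double]
  refine pack_congr fun i _ => ?_
  simp only [pop, csum_succ, csum_mod]
  by_cases h : i.testBit j <;> simp [h]

theorem pack_pop_zero (W j c : ℕ) :
    pack W (2 ^ j) (fun i => if pop j i = 0 then c else 0) = c := by
  induction j with
  | zero => simp [pack, pop, csum]
  | succ j ih =>
    have := pack_double W j (fun i => if pop j i = 0 then c else 0) (fun _ => 0)
    rw [pack_const_zero, Nat.zero_shiftLeft, add_zero, ih] at this
    refine Eq.trans (pack_congr fun i _ => ?_) this.symm
    simp only [pop, csum_succ, csum_mod]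
    by_cases h : i.testBit j <;> simp [h]

theorem pack_pop_base (W c r : ℕ) :
    pack W (2 ^ 0) (fun i => if pop 0 i = r + 1 then c else 0) = 0 := by
  simp [pack, pop, csum]

end Pool.Agent.Work.MP_82fd4a_nt.P
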