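import Pool.Agent.Work.MP_82fd4a_nt.P.Cv
import Pool.Agent.Work.MP_82fd4a_nt.P.KLf
import Pool.Agent.Work.MP_82fd4a_nt.P.KNar
import Pool.Agent.Work.MP_82fd4a_nt.P.Lanes

/-! The cost of a box as a convolution: the meaning of the program. -/

set_option autoImplicit false
open Finset

namespace Pool.Agent.Work.MP_82fd4a_nt.P

open BS Y

/-- the sum over the small boxes -/
def kCv_Q (h S : ℕ) : List ℕ → (ℕ → ℕ) → ℕ
  | [], F => F 0
  | a :: l, F => ∑ i ∈ range S, cw (a + i * h) h * kCv_Q h S l fun s => F (i + s)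

theorem kCv_rep (h S : ℕ) (l : List ℕ) : ∃ ω : ℕ → ℕ, ∀ F,
    kCv_Q h (S + 1) l F = ∑ s ∈ range (S * l.length + 1), ω s * F s := by
  induction l with
  | nil => exact ⟨fun _ => 1, fun F => by simp [kCv_Q]⟩
  | cons a l ih =>
    obtain ⟨ω, hω⟩ := ih
    refine ⟨fun t => ∑ i ∈ range (S + 1), ∑ s ∈ range (S * l.length + 1),
      if i + s = t then cw (a + i * h) h * ω s else 0, fun F => ?_⟩
    simp only [kCv_Q, hω, sum_mul, mul_sum]
    rw [sum_comm (s := range (S * (a :: l).length + 1))]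
    refine sum_congr rfl fun i hi => ?_
    rw [sum_comm]
    refine sum_congr rfl fun s hs => ?_
    rw [mem_range] at hi hs
    simp only [ite_mul, zero_mul, sum_ite_eq, mem_range, List.length_cons]
    rw [if_pos (by rw [mul_add]; omega), mul_assoc]

theorem kCv_wv (V h S a : ℕ) : wv V h S a = ∑ i ∈ range S, cw (a + i * h) h * 2 ^ (V * i) := by
  induction S generalizing a with
  | zero => rfl
  | succ S ih =>
    have e : wv V h (S + 1) a = cw a h + fz (a + h) (wv V h S) <<< V := rfl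
    rw [e, fz_eq, ih, sum_range_succ', Nat.shiftLeft_eq, sum_mul, add_comm]
    simp only [zero_mul, mul_zero, add_zero, pow_zero, mul_one, add_left_inj]
    exact sum_congr rfl fun i _ => by rw [mul_add, pow_add, add_mul, add_right_comm]; ring_nf

theorem kCv_hom (h S c : ℕ) (l : List ℕ) (F : ℕ → ℕ) :
    kCv_Q h S l (fun s => c * F s) = c * kCv_Q h S l F := by
  induction l generalizing F with
  | nil => rfl
  | cons a l ih =>
    simp only [kCv_Q, mul_sum]
    exact sum_congr rfl fun i _ => by rw [ih fun s => F (i + s), mul_left_comm]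

theorem kCv_wp (V h S : ℕ) (l : List ℕ) : wp V h S l = kCv_Q h S l fun s => 2 ^ (V * s) := by
  induction l with
  | nil => rfl
  | cons a l ih =>
    have e : wp V h S (a :: l) = wv V h S a * wp V h S l := rfl
    rw [e, ih, kCv_wv, sum_mul, kCv_Q]
    refine sum_congr rfl fun i _ => ?_
    simp only [mul_add, pow_add]
    rw [kCv_hom, mul_assoc]

theorem kCv_cw {a h : ℕ} (ha : 0 < a) : (h ≤ a → cw a h ≤ 2 ^ 20) ∧
    Real.log (((a + h : ℕ) : ℝ) / a) ≤ cw a h / 2 ^ 20 := by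
  have e : cw a h = (h * (2 * a + h) * 524288 + (a * (a + h) - 1)) / (a * (a + h)) := fz_eq _ _
  have d0 : 0 < a * (a + h) := by positivity
  refine ⟨fun hh => e ▸ Nat.le_of_lt_succ ((Nat.div_lt_iff_lt_mul d0).2 ?_), ?_⟩
  · have : h * (2 * a + h) ≤ 2 * (a * (a + h)) := by nlinarith
    omega
  · have l1 : (0 : ℝ) < a := by exact_mod_cast ha
    have l2 : (0 : ℝ) ≤ h := Nat.cast_nonneg _
    have e1 := Nat.div_add_mod' (h * (2 * a + h) * 524288 + (a * (a + h) - 1)) (a * (a + h))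
    have e2 := Nat.mod_lt (h * (2 * a + h) * 524288 + (a * (a + h) - 1)) d0
    have e3 : h * (2 * a + h) * 524288 ≤ cw a h * (a * (a + h)) := by rw [e]; omega
    have e4 : (h : ℝ) * (2 * a + h) * 524288 ≤ cw a h * (a * (a + h)) := by exact_mod_cast e3
    push_cast
    refine (Real.self_le_sinh_iff.2 (Real.log_nonneg ((one_le_div l1).2 (by linarith)))).trans ?_
    rw [Real.sinh_log (by positivity), show ((a + h) / a - ((a + h) / a : ℝ)⁻¹) / 2 =
      h * (2 * a + h) / (2 * (a * (a + h))) by field_simp; ring,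
      div_le_div_iff₀ (by positivity) (by positivity)]
    linarith

theorem kCv_one {h S : ℕ} {l : List ℕ} (hl : ∀ a ∈ l, 0 < a ∧ h ≤ a) :
    kCv_Q h S l (fun _ => 1) ≤ (S * 2 ^ 20) ^ l.length := by
  induction l with
  | nil => exact le_rfl
  | cons a l ih =>
    obtain ⟨⟨h1, h2⟩, h3⟩ := List.forall_mem_cons.1 hl
    rw [kCv_Q, ← sum_mul, List.length_cons, pow_succ']
    refine Nat.mul_le_mul ((sum_le_card_nsmul _ _ (2 ^ 20) fun i _ =>
      (kCv_cw (by omega)).1 (by omega)).trans ?_) (ih h3)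
    rw [card_range, smul_eq_mul]

theorem kCv_Ico (f : ℕ → ℝ) (a h B S : ℕ) : ∑ x ∈ Ico (a * B) ((a + S * h) * B), f x =
    ∑ i ∈ range S, ∑ x ∈ Ico ((a + i * h) * B) ((a + i * h + h) * B), f x := by
  induction S with
  | zero => simp
  | succ S ih =>
    rw [sum_range_succ, ← ih, sum_Ico_consecutive _ (Nat.mul_le_mul_right B (by omega))
      (Nat.mul_le_mul_right B (by omega)), add_mul S, one_mul, add_assoc]

theorem kCv_eqw (H lo hi : ℕ) (l t : List ℕ) (h : eqw H (lo :: l) (hi :: t) = 0) :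
    hi = lo + H ∧ eqw H l t = 0 := by
  have e : eqw H (lo :: l) (hi :: t) = Bool.rec 1 (eqw H l t) (Nat.beq (lo + H) hi) := rfl
  rw [e] at h
  cases hb : Nat.beq (lo + H) hi <;> rw [hb] at h
  exacts [absurd h one_ne_zero, ⟨(Nat.eq_of_beq_eq_true hb).symm, h⟩]

theorem kCv_bs {P : Par} {B h S : ℕ} {κ K : ℝ} {μ : ℕ → ℝ} (hz : 0 < P.z) (hκ : 0 ≤ κ)
    (hK : 0 ≤ K) (hm : Mass P B κ μ) {l t : List ℕ} (hb : BoxOK P l t)
    (he : eqw ((S + 1) * h) l t = 0) {Ψ : List ℕ → ℝ} {F : ℕ → ℕ}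
    (hF : ∀ p, InB B l t p → ∀ s ≤ S * l.length, (l.sum + s * h) * B ≤ p.sum →
      p.sum + p.length ≤ (l.sum + s * h + l.length * h) * B → Ψ p ≤ K * F s) :
    bs B μ l t Ψ ≤ (κ / 2 ^ 20) ^ l.length * K * kCv_Q h (S + 1) l F := by
  induction hb generalizing Ψ F with
  | nil => simpa [bs, kCv_Q] using hF [] .nil 0 (by simp) (by simp) (by simp)
  | @cons lo hi l t h1 h2 _ h4 _ ih =>
    obtain ⟨rfl, e2⟩ := kCv_eqw _ _ _ _ _ he
    have h0 : 0 < h := Nat.pos_of_mul_pos_left (a := S + 1) (by omega)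
    rw [bs, kCv_Ico, kCv_Q, Nat.cast_sum, mul_sum]
    refine sum_le_sum fun i hi => ?_
    have hi' := Nat.mul_le_mul_right h (mem_range.1 hi)
    rw [Nat.succ_mul] at hi'
    generalize hX : (κ / 2 ^ 20) ^ l.length * K *
      (kCv_Q h (S + 1) l fun s => F (i + s) : ℕ) = X
    have X0 : 0 ≤ X := hX ▸ by positivity
    calc _ ≤ ∑ x ∈ Ico ((lo + i * h) * B) ((lo + i * h + h) * B), μ x * X := by
          refine sum_le_sum fun x hx => mul_le_mul_of_nonneg_left (hX ▸ ih e2
            fun p hp s hs q1 q2 => ?_) (hm.1 x)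
          obtain ⟨x1, x2⟩ := mem_Ico.1 hx
          have := mem_range.1 hi
          refine hF _ (.cons (le_trans (Nat.mul_le_mul_right B (by omega)) x1)
            (x2.trans_le (Nat.mul_le_mul_right B (by omega))) hp) (i + s)
            (by rw [List.length_cons, mul_add]; omega) ?_ ?_ <;>
            simp only [List.sum_cons, List.length_cons, add_mul, one_mul] at x1 x2 q1 q2 ⊢ <;>
            omega
      _ ≤ κ * (cw (lo + i * h) h / 2 ^ 20) * X := by
          rw [← sum_mul]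
          exact mul_le_mul_of_nonneg_right ((hm.2 _ _ (by omega) (by omega) (by omega)).trans
            (mul_le_mul_of_nonneg_left (kCv_cw (by omega)).2 hκ)) X0
      _ = _ := by
          rw [← hX, List.length_cons, pow_succ, Nat.cast_mul]
          ring

/-- the density on the class that begins at `x` -/
noncomputable def kCv_F (U G M c K CT j0 d x : ℕ) : ℕ :=
  cvf U G M c CT j0 x d (K >>> (x / U) % wn U x d)

theorem kCv_cvs {U G M c K CT j0 h d V t n x A : ℕ} {ω : ℕ → ℕ} (hω : ∀ s < n, ω s < 2 ^ V)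
    (H : cvs U G M c K CT j0 h d V (2 ^ V) t n (pack V n ω) x A < BAD) :
    (∀ s < n, kCv_F U G M c K CT j0 d (x + s * h) < BAD) ∧
      cvs U G M c K CT j0 h d V (2 ^ V) t n (pack V n ω) x A =
        (A + ∑ s ∈ range n, ω s * kCv_F U G M c K CT j0 d (x + s * h)) >>> t + 1 := by
  induction n generalizing x A ω with
  | zero => exact ⟨fun s hs => absurd hs s.not_lt_zero, rfl⟩
  | succ n ih =>
    have e : ∀ Q, cvs U G M c K CT j0 h d V (2 ^ V) t (n + 1) Q x A =
        fz (K >>> (x / U) % wn U x d) fun Wb => fz (x + h) fun x' => fz (Q >>> V) fun Q' =>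
          iz Wb (cvs U G M c K CT j0 h d V (2 ^ V) t n Q' x' A)
            (fz (cvf U G M c CT j0 x d Wb) fun F => il BAD F BAD
              (cvs U G M c K CT j0 h d V (2 ^ V) t n Q' x' (A + Q % 2 ^ V * F))) := fun _ => rfl
    have e1 := pack_shiftRight 1 hω
    have e2 := pack_mod 1 (by omega) hω
    rw [mul_one] at e1 e2
    rw [Nat.add_sub_cancel] at e1
    rw [pack_one] at e2
    have e3 : ∀ s, x + h + s * h = x + (s + 1) * h := fun s => by ring
    have hω' : ∀ s < n, ω (s + 1) < 2 ^ V := fun s hs => hω _ (by omega)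
    rw [e] at H ⊢
    simp only [fz_eq, iz_eq, il_eq, e1, e2] at H ⊢
    rw [sum_range_succ', zero_mul, add_zero x]
    split_ifs at H ⊢ with h1 h2
    · have f0 : kCv_F U G M c K CT j0 d x = 0 := by
        rw [kCv_F, h1, cvf, fz_eq, fz_eq]
        rfl
      obtain ⟨i1, i2⟩ := ih hω' H
      simp only [e3] at i1 i2
      refine ⟨?_, by rw [i2, f0, mul_zero, add_zero]⟩
      rintro (_ | s) hs
      · rw [zero_mul, add_zero, f0, BAD_eq]
        positivity
      · exact i1 s (by omega)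
    · exact absurd H (lt_irrefl _)
    · obtain ⟨i1, i2⟩ := ih hω' H
      simp only [e3] at i1 i2
      refine ⟨?_, by rw [i2, add_right_comm, add_assoc]; rfl⟩
      rintro (_ | s) hs
      · rw [zero_mul, add_zero]
        exact not_le.1 h2
      · exact i1 s (by omega)

theorem kCv_cls {P : Par} {tb : Tr} {B δ c K CT j0 d x : ℕ} {κ : ℝ} {μ : ℕ → ℝ}
    {Ψ : List ℕ → ℝ} {los his p : List ℕ} (hx : Ctx P tb B δ κ μ Ψ) (hc : Low P B δ c los his)
    (hT : CTI P tb B δ los his CT j0) (hK : MI P B δ los his K) (hp : InB B los his p)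
    (h1 : x * B ≤ p.sum) (h2 : p.sum < (x + d) * B)
    (H : kCv_F (P.G / 32) P.G (P.N * P.G) c K CT j0 d x < BAD) :
    Ψ p ≤ 1 / 2 ^ 52 * kCv_F (P.G / 32) P.G (P.N * P.G) c K CT j0 d x := by
  have hU := hx.sm.U0
  have hB := hx.B0
  by_cases h0 : Ψ p ≤ 0
  · exact h0.trans (by positivity)
  obtain ⟨a, -, hy, hb, -⟩ := (hx.dom p).resolve_left h0
  have hk := hK p a ⟨hp, hy, hb⟩
  generalize P.G / 32 = U at hU hk H ⊢
  obtain ⟨Wb, eW⟩ : ∃ Wb, Wb = (K >>> (x / U)) % 2 ^ ((x + d - 1) / U + 1 - x / U) := ⟨_, rfl⟩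
  have e : kCv_F U P.G (P.N * P.G) c K CT j0 d x = if Wb = 0 then 0 else
      lf P.G (P.N * P.G) c [] [] (max x ((x / U + (Wb ^^^ (Wb - 1)).log2) * U))
        (min (x + d) ((x / U + Wb.log2 + 1) * U)) CT j0 := by
    rw [eW]
    unfold kCv_F cvf nar1
    simp only [fz_eq, iz_eq, mx_eq, mn_eq]
    rfl
  have h3 : x / U ≤ p.sum / (U * B) := by
    rw [← Nat.mul_div_mul_right x U hB]
    exact Nat.div_le_div_right h1
  have h4 : p.sum / (U * B) ≤ (x + d - 1) / U := by
    rw [mul_comm, ← Nat.div_div_eq_div_mul]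
    exact Nat.div_le_div_right (Nat.le_sub_one_of_lt ((Nat.div_lt_iff_lt_mul hB).2 h2))
  have h5 : Wb.testBit (p.sum / (U * B) - x / U) = true := by
    rw [eW, Nat.testBit_mod_two_pow, Nat.testBit_shiftRight, Nat.add_sub_cancel' h3, hk,
      Bool.and_true, decide_eq_true_eq]
    omega
  have hW : Wb ≠ 0 := fun h => by simp [h] at h5
  have h6 := kKNar_low h5
  have h7 := (Nat.le_log2 hW).2 (Nat.ge_two_pow_of_testBit h5)
  rw [e, if_neg hW] at H ⊢
  generalize hsl : max x _ = sl at H ⊢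
  generalize hsh : min (x + d) _ = sh at H ⊢
  have key := kKLf_pt (sl := sl) (sh := sh) hx hc hT hp (fun _ _ => by
    rw [← hsl, ← hsh, max_mul, min_mul, mul_assoc, mul_assoc]
    exact ⟨max_le h1 ((Nat.le_div_iff_mul_le (Nat.mul_pos hU hB)).1 (by omega)),
      lt_min h2 ((Nat.div_lt_iff_lt_mul (Nat.mul_pos hU hB)).1 (by omega))⟩) rfl rfl rfl
  simp only [lf, fz_eq, iz_eq, il_eq, mx_eq, Nat.sub_eq, Nat.mul_eq, kKLf_div,
    Nat.pred_eq_sub_one, Nat.succ_eq_add_one, Nat.shiftRight_eq, Nat.shiftRight_eq_div_pow] at H ⊢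
  generalize mxl _ _ = C at H key ⊢
  split_ifs at H ⊢ with c1 c2
  · subst c1
    simpa using key (by norm_num)
  · exact absurd H (lt_irrefl _)
  · have e : ∀ a b : ℕ, (a : ℝ) / b ≤ ms [] [] a b := fun a b => by
      rw [show ms [] [] a b = a / b + 1 from rfl, Nat.cast_succ, ← Nat.floor_div_eq_div (K := ℝ)]
      exact (Nat.lt_floor_add_one _).le
    exact (key (by omega)).trans (mul_le_mul_of_nonneg_left (e _ _) (by positivity))

theorem cvl_spec {P : Par} {tb : Tr} {B δ c n K CT j0 g : ℕ} {κ : ℝ} {μ : ℕ → ℝ}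
    {Ψ : List ℕ → ℝ} {los his : List ℕ} (hx : Ctx P tb B δ κ μ Ψ) (hb : BoxOK P los his)
    (hl : los.length = n) (h0 : 0 < n) (hc : Low P B δ c los his)
    (hT : CTI P tb B δ los his CT j0) (hK : MI P B δ los his K) (hg : g ≤ 3)
    (H : cvl (P.G / 32) P.G (P.N * P.G) c n los his K CT j0 g < BAD) :
    bs B μ los his Ψ ≤ κ ^ n / 2 ^ 52 * cvl (P.G / 32) P.G (P.N * P.G) c n los his K CT j0 g := by
  have e : ∀ U G M, cvl U G M c n los his K CT j0 g = fz ((nth his 0 - nth los 0) >>> g) fun h =>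
      fz (2 ^ g) fun S => fz (S * h) fun H => iz (eqw H los his) (fz (24 * n) fun V =>
        fz (wp V h S los) fun Q => fz (sm los) fun SL => fz (n * h) fun d => fz (2 ^ V) fun b =>
          cvs U G M c K CT j0 h d V b (20 * n) ((S - 1) * n + 1) Q SL 0) BAD := fun _ _ _ => rfl
  rw [e, fz_eq] at H ⊢
  generalize (nth his 0 - nth los 0) >>> g = h at H ⊢
  obtain ⟨S, hS⟩ : ∃ S, 2 ^ g = S + 1 := Nat.exists_eq_succ_of_ne_zero (by positivity)
  have hS8 : S + 1 ≤ 8 := hS ▸ Nat.pow_le_pow_right (by norm_num) hg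
  simp only [fz_eq, iz_eq, sm_eq, hS, Nat.add_sub_cancel] at H ⊢
  split_ifs at H ⊢ with he
  swap
  · exact absurd H (lt_irrefl _)
  have hG : 0 < P.G := by have := hx.sm.G2; omega
  have hz := hG.trans_le hx.sm.Gz
  have hκ := zero_le_one.trans hx.κ1
  have ha : ∀ a ∈ los, 0 < a ∧ h ≤ a := by
    have hGz := hx.sm.Gz
    clear H hK hT hc hl e
    induction hb with
    | nil => simp
    | @cons lo hi l t h1 _ h3 _ _ ih =>
      obtain ⟨rfl, e2⟩ := kCv_eqw _ _ _ _ _ he
      refine List.forall_mem_cons.2 ⟨⟨by omega, ?_⟩, ih e2⟩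
      have := Nat.div_mul_le_self lo P.G
      rw [add_mul, add_mul, one_mul, one_mul] at h3
      omega
  obtain ⟨ω, hω⟩ := kCv_rep h S los
  rw [hl] at hω
  have hw : wp (24 * n) h (S + 1) los = pack (24 * n) (S * n + 1) ω := by rw [kCv_wp, hω]; rfl
  have hω' : ∀ s < S * n + 1, ω s < 2 ^ (24 * n) := fun s hs => by
    have a1 := kCv_one (S := S + 1) ha
    rw [hω, hl] at a1
    have a2 := single_le_sum (f := fun s => ω s * 1) (fun _ _ => Nat.zero_le _) (mem_range.2 hs)
    have a3 : ((S + 1) * 2 ^ 20) ^ n < (2 ^ 24) ^ n := Nat.pow_lt_pow_left (by omega) h0.ne'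
    rw [pow_mul]
    omega
  rw [hw] at H ⊢
  obtain ⟨i1, i2⟩ := kCv_cvs hω' H
  rw [i2, zero_add, ← hω]
  refine (kCv_bs (K := 1 / 2 ^ 52) (F := fun s => kCv_F (P.G / 32) P.G (P.N * P.G) c K CT j0 (n * h)
    (los.sum + s * h)) hz hκ (by positivity) hx.mass hb he fun p hp s hs q1 q2 =>
      kCv_cls hx hc hT hK hp q1 ?_ (i1 s (by rw [hl] at hs; omega))).trans ?_
  · have := hp.len.1
    rw [hl] at q2
    omega
  · generalize kCv_Q _ _ _ _ = X
    have a1 : (X : ℝ) / 2 ^ (20 * n) ≤ (X >>> (20 * n) + 1 : ℕ) := by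
      rw [Nat.shiftRight_eq_div_pow, Nat.cast_succ, ← Nat.floor_div_eq_div (K := ℝ)]
      push_cast
      exact (Nat.lt_floor_add_one _).le
    refine le_of_eq_of_le ?_ (mul_le_mul_of_nonneg_left a1 (by positivity))
    rw [hl, div_pow, pow_mul]
    ring

end Pool.Agent.Work.MP_82fd4a_nt.P
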