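import Pool.Agent.Work.MP_82fd4a_nt.P.KEq

/-! Evaluation of the table on a box. -/

set_option autoImplicit false
open Finset

namespace Pool.Agent.Work.MP_82fd4a_nt.P

open BS Y

/-- a list of parts in a list of cells and intervals, with the sums of the ends -/
inductive kKEv_In (B F : ℕ) : L3 → List ℕ → ℕ → ℕ → Prop
  | nil : kKEv_In B F L3.nil [] 0 0
  | cons {c lo hi x sl sh : ℕ} {l : L3} {t : List ℕ} : x / F = c → lo * B ≤ x → x ≤ hi * B →
      kKEv_In B F l t sl sh → kKEv_In B F (L3.cons c lo hi l) (x :: t) (lo + sl) (hi + sh)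

theorem kKEv_sum {B F sl sh : ℕ} {l : L3} {t : List ℕ} (h : kKEv_In B F l t sl sh) :
    sl * B ≤ t.sum ∧ t.sum ≤ sh * B := by
  induction h with
  | nil => simp
  | cons _ h1 h2 _ ih =>
    simp only [List.sum_cons, add_mul]
    omega

/-- a number that codes a lower and an upper bound -/
def kKEv_R (r n : ℕ) (y : ℝ) : Prop := ∃ A Bm k : ℕ, r = A + Bm * 2 ^ 64 + k * 2 ^ 128 ∧
  A ≤ n ∧ Bm ≤ n ∧ (Bm : ℝ) - k * 524288 ≤ y ∧ y ≤ (A : ℝ) - k * 524288

theorem kKEv_R.add {r r' n n' : ℕ} {y y' : ℝ} (h : kKEv_R r n y) (h' : kKEv_R r' n' y') :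
    kKEv_R (r + r') (n + n') (y + y') := by
  obtain ⟨A, B, k, h1, h2, h3, h4, h5⟩ := h
  obtain ⟨A', B', k', h1', h2', h3', h4', h5'⟩ := h'
  refine ⟨A + A', B + B', k + k', by rw [h1, h1']; ring, by omega, by omega, ?_, ?_⟩ <;>
    push_cast <;> linarith

theorem kKEv_pv_e (G N M SL SH : ℕ) (l : L3) (a S lo hi : ℕ) :
    pv G N M SL SH l Tr.e a S lo hi = 0 := by cases l <;> rfl

theorem kKEv_look_e (t : List ℕ) (a : ℕ) : look t 0 Tr.e a = 0 := by cases t <;> rfl

theorem kKEv_pv_cons (G N M SL SH x xl xh : ℕ) (l : L3) (s : Tr) (a S lo hi : ℕ) :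
    ∃ w k, (∀ t v, look (x :: t) v s a = look t w k x) ∧
      pv G N M SL SH (L3.cons x xl xh l) s a S lo hi =
        hit G N M SL SH w (S + x) (lo + xl) (hi + xh) +
          pv G N M SL SH l k x (S + x) (lo + xl) (hi + xh) +
          pv G N M SL SH l (skip s (x - a)) x S lo hi := by
  have e : pv G N M SL SH (L3.cons x xl xh l) s a S lo hi =
      Tr.rec (motive := fun _ => ℕ) 0 (fun v k r _ _ => fz (S + x) fun S' => fz (lo + xl) fun lo' =>
        fz (hi + xh) fun hi' => hit G N M SL SH v S' lo' hi' + pv G N M SL SH l k x S' lo' hi' +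
          pv G N M SL SH l (Tr.c v k r) x S lo hi) (skip s (x - a)) := rfl
  cases h : skip s (x - a) with
  | e =>
    refine ⟨0, Tr.e, fun t v => by rw [look_e h, kKEv_look_e], ?_⟩
    rw [e, h, kKEv_pv_e, kKEv_pv_e]
    rfl
  | c w k r =>
    refine ⟨w, k, fun t v => look_c h t v, ?_⟩
    rw [e, h]
    simp only [fz_eq]

theorem kKEv_look_skip {x a : ℕ} (h : a ≤ x) (s : Tr) {D : List ℕ} (h0 : D ≠ [])
    (hD : ∀ y ∈ D, x ≤ y) (v : ℕ) : look D v (skip s (x - a)) x = look D v s a := by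
  cases D with
  | nil => exact absurd rfl h0
  | cons y t =>
    have := hD y List.mem_cons_self
    show Tr.rec (motive := fun _ => ℕ) 0 (fun v k _ _ _ => look t v k y)
      (skip (skip s (x - a)) (y - x)) =
      Tr.rec (motive := fun _ => ℕ) 0 (fun v k _ _ _ => look t v k y) (skip s (y - a))
    rw [skip_add, show x - a + (y - x) = y - a by omega]

theorem kKEv_pv {G N M SL SH B F sl sh : ℕ} {l : L3} {t : List ℕ} (h : kKEv_In B F l t sl sh) :
    ∀ (s : Tr) (a S lo hi v u1 u2 : ℕ) (φ : List ℕ × List ℕ → ℝ),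
    (t.map (· / F)).Pairwise (· ≤ ·) → (∀ y ∈ t, a ≤ y / F) →
    lo * B ≤ u1 → u1 ≤ hi * B → SL * B ≤ lo * B + u2 + sl * B → u2 + hi * B + sh * B ≤ SH * B →
    (∀ p ∈ splits t, p.1 ≠ [] → ∀ lo' hi', lo' * B ≤ u1 + p.1.sum → u1 + p.1.sum ≤ hi' * B →
      SL * B ≤ lo' * B + (u2 + p.2.sum) → u2 + p.2.sum + hi' * B ≤ SH * B →
      kKEv_R (hit G N M SL SH (look (p.1.map (· / F)) v s a) (S + (p.1.map (· / F)).sum) lo' hi')
        (2 ^ 20) (φ p)) →
    kKEv_R (pv G N M SL SH l s a S lo hi) (2 ^ 20 * (2 ^ t.length - 1))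
      (((splits t).map φ).sum - φ ([], t)) := by
  induction h with
  | nil =>
    intro s a S lo hi v u1 u2 φ _ _ _ _ _ _ _
    exact ⟨0, 0, 0, rfl, by simp, by simp, by simp [splits], by simp [splits]⟩
  | @cons c xl xh x sl sh l t hc h1 h2 hl ih =>
    intro s a S lo hi v u1 u2 φ hs ha i1 i2 i3 i4 hh
    obtain ⟨w, k, e1, e2⟩ := kKEv_pv_cons G N M SL SH c xl xh l s a S lo hi
    rw [List.map_cons, List.pairwise_cons, hc] at hs
    have hac : a ≤ c := hc ▸ ha x List.mem_cons_self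
    have hct : ∀ y ∈ t, c ≤ y / F := fun y hy => hs.1 _ (List.mem_map.2 ⟨y, hy, rfl⟩)
    obtain ⟨s1, s2⟩ := kKEv_sum hl
    simp only [add_mul] at i3 i4
    have r0 := hh ([x], t) (mem_splits_cons.2 (Or.inl ⟨_, nil_mem_splits t, rfl⟩)) (by simp)
      (lo + xl) (hi + xh) (by simp only [add_mul, List.sum_singleton]; omega)
      (by simp only [add_mul, List.sum_singleton]; omega) (by simp only [add_mul]; omega)
      (by simp only [add_mul]; omega)
    have r1 := ih k c (S + c) (lo + xl) (hi + xh) w (u1 + x) u2 (fun p => φ (x :: p.1, p.2)) hs.2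
      hct (by rw [add_mul]; omega) (by rw [add_mul]; omega) (by rw [add_mul]; omega)
      (by rw [add_mul]; omega) fun p hp _ lo' hi' j1 j2 j3 j4 => by
        have := hh (x :: p.1, p.2) (mem_splits_cons.2 (Or.inl ⟨p, hp, rfl⟩)) (by simp) lo' hi'
          (by simp only [List.sum_cons]; omega) (by simp only [List.sum_cons]; omega) j3 j4
        simp only [List.map_cons, List.sum_cons, hc, e1, ← add_assoc] at this
        exact this
    have r2 := ih (skip s (c - a)) c S lo hi v u1 (u2 + x) (fun p => φ (p.1, x :: p.2)) hs.2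
      hct i1 i2 (by omega) (by omega) fun p hp h0 lo' hi' j1 j2 j3 j4 => by
        have := hh (p.1, x :: p.2) (mem_splits_cons.2 (Or.inr ⟨p, hp, rfl⟩)) h0 lo' hi' j1 j2
          (by simp only [List.sum_cons]; omega) (by simp only [List.sum_cons]; omega)
        rw [kKEv_look_skip hac s (by simpa using h0) fun y hy => by
          obtain ⟨z, hz, rfl⟩ := List.mem_map.1 hy
          exact hct z ((splits_sublist hp).1.subset hz)]
        exact this
    simp only [List.map_cons, List.map_nil, List.sum_singleton, hc, e1] at r0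
    have r3 := (r0.add r1).add r2
    have e3 : look [] w k c = w := rfl
    rw [e3, ← e2] at r3
    convert r3 using 1
    · have : 0 < 2 ^ t.length := by positivity
      rw [List.length_cons, pow_succ 2 t.length]
      omega
    · simp only [splits, List.map_append, List.map_map, List.sum_append, Function.comp_def]
      ring

theorem kKEv_mk3 {B F j al ah a : ℕ} {los his pre : List ℕ} (h : InB B los his pre)
    (hj : a / F = j) (h1 : al * B ≤ a) (h2 : a ≤ ah * B) :
    kKEv_In B F (mk3 (L3.cons j al ah L3.nil) (pre.map (· / F)) los his) (pre ++ [a])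
      (los.sum + al) (his.sum + ah) := by
  induction h with
  | nil =>
    have := kKEv_In.cons hj h1 h2 kKEv_In.nil
    simp only [List.sum_nil, zero_add]
    exact this
  | cons h3 h4 _ ih =>
    simp only [List.sum_cons, add_assoc]
    exact kKEv_In.cons rfl h3 h4.le ih

theorem kKEv_ev1_eq (G N M c0 : ℕ) (tb : Tr) (cs los his : List ℕ) (SL SH sl sh j : ℕ) :
    ∃ r, r = pv G N M (SL + max (j * G) (M - 1 - sh)) (SH + min ((j + 1) * G) (M - sl))
      (mk3 (L3.cons j (max (j * G) (M - 1 - sh)) (min ((j + 1) * G) (M - sl)) L3.nil) cs los his)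
        tb c0 0 0 0 ∧
      ev1 G N M c0 tb cs los his SL SH sl sh j = if 4096 + r % 2 ^ 64 ≤ r / 2 ^ 128 * 524288 then
        min ((r / 2 ^ 128 * 524288 - (4096 + r / 2 ^ 64 % 2 ^ 64) + (mf (cs ++ [j]) - 1)) /
          mf (cs ++ [j])) (2 ^ 31) else 2 ^ 31 := by
  refine ⟨_, rfl, ?_⟩
  unfold ev1
  simp only [fz_eq, il_eq, mx_eq, mn_eq, mfn_eq, snoc_eq, Nat.shiftRight_eq,
    Nat.shiftRight_eq_div_pow]
  rfl

theorem kKEv_ev1_le (G N M c0 : ℕ) (tb : Tr) (cs los his : List ℕ) (SL SH sl sh j : ℕ) :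
    ev1 G N M c0 tb cs los his SL SH sl sh j ≤ 2 ^ 31 := by
  obtain ⟨r, -, e⟩ := kKEv_ev1_eq G N M c0 tb cs los his SL SH sl sh j
  rw [e]
  split_ifs
  · exact min_le_right _ _
  · exact le_rfl

theorem kKEv_ev1 {P : Par} (tb : Tr) {B δ a sl sh : ℕ} {los his pre : List ℕ} (hs : Sm P) (hB : 0 < B)
    (hδ : δ ≤ B) (h0 : los ≠ []) (hn : los.length ≤ 30) (hp : InB B los his pre)
    (ht : Hyp P B δ (pre ++ [a])) (s1 : sl * B ≤ pre.sum) (s2 : pre.sum < sh * B) {C : ℕ}
    (hC : C = ev1 P.G P.N (P.N * P.G) (P.z / P.G) tb (pre.map (· / (P.G * B))) los his los.sum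
      his.sum sl sh (a / (P.G * B))) (hlt : C < 2 ^ 31) :
    W (lamT P.N (P.z / P.G) tb) (P.G * B) (pre ++ [a]) ≤ 0 ∧
      -W (lamT P.N (P.z / P.G) tb) (P.G * B) (pre ++ [a]) * 4096 ≤
        C * mf ((pre ++ [a]).map (· / (P.G * B))) := by
  obtain ⟨r, er, e⟩ := kKEv_ev1_eq P.G P.N (P.N * P.G) (P.z / P.G) tb (pre.map (· / (P.G * B)))
    los his los.sum his.sum sl sh (a / (P.G * B))
  have hF : 0 < P.G * B := Nat.mul_pos (by have := hs.G2; omega) hB
  have t1 := ht.lo
  have t2 := ht.hi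
  rw [List.sum_append, List.sum_singleton, ← mul_assoc] at t1 t2
  have a1 : max (a / (P.G * B) * P.G) (P.N * P.G - 1 - sh) * B ≤ a := by
    rcases max_choice (a / (P.G * B) * P.G) (P.N * P.G - 1 - sh) with h | h <;> rw [h]
    · rw [mul_assoc]; exact Nat.div_mul_le_self _ _
    · rw [Nat.sub_mul, Nat.sub_mul]; omega
  have a2 : a ≤ min ((a / (P.G * B) + 1) * P.G) (P.N * P.G - sl) * B := by
    rcases min_choice ((a / (P.G * B) + 1) * P.G) (P.N * P.G - sl) with h | h <;> rw [h]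
    · rw [mul_assoc, mul_comm]; exact (Nat.lt_mul_div_succ _ hF).le
    · rw [Nat.sub_mul]; omega
  have hl : pre.length = los.length := hp.len.1.symm
  have hl0 : 0 < los.length := List.length_pos_iff.2 h0
  have hz : ∀ y ∈ pre ++ [a], P.z / P.G ≤ y / (P.G * B) := fun y hy => by
    rw [← Nat.mul_div_mul_right P.z P.G hB]
    exact Nat.div_le_div_right (ht.big y hy)
  have key := kKEv_pv (G := P.G) (N := P.N) (M := P.N * P.G)
    (SL := los.sum + max (a / (P.G * B) * P.G) (P.N * P.G - 1 - sh))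
    (SH := his.sum + min ((a / (P.G * B) + 1) * P.G) (P.N * P.G - sl))
    (kKEv_mk3 (F := P.G * B) hp rfl a1 a2) tb (P.z / P.G) 0 0 0 0 0 0
    (fun p => 4096 * lamT P.N (P.z / P.G) tb (p.1.map (· / (P.G * B))) (p.2.sum / (P.G * B)))
    ht.sorted hz (by simp) (by simp) (by simp) (by simp) fun p hp h0 lo' hi' j1 j2 j3 j4 => by
      rw [zero_add] at j1 j2 j3 j4
      obtain ⟨A, Bm, k, h1, -, h2, h3, h4, h5⟩ := hit_spec tb hs hB hδ ht
        (by rw [List.length_append, List.length_singleton]; omega) hp h0 j1 j2 j3 j4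
      exact ⟨A, Bm, k, by rw [zero_add]; exact h1, h2, h3, h4, h5⟩
  rw [← er] at key
  obtain ⟨A, Bm, k, h1, h2, h3, h4, h5⟩ := key
  have hb : 2 ^ (pre ++ [a]).length ≤ 2 ^ 31 := Nat.pow_le_pow_right (by norm_num)
    (by rw [List.length_append, List.length_singleton]; omega)
  have d1 : r % 2 ^ 64 = A := by omega
  have d2 : r / 2 ^ 128 = k := by omega
  have d3 : r / 2 ^ 64 % 2 ^ 64 = Bm := by omega
  have eW : ((splits (pre ++ [a])).map fun p => 4096 * lamT P.N (P.z / P.G) tb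
      (p.1.map (· / (P.G * B))) (p.2.sum / (P.G * B))).sum =
      4096 * W (lamT P.N (P.z / P.G) tb) (P.G * B) (pre ++ [a]) := by
    rw [W, List.sum_map_mul_left]
  have e0 : ∀ x, lamT P.N (P.z / P.G) tb (([] : List ℕ).map (· / (P.G * B))) x = 1 := fun x => by
    simp [lamT]
  simp only [eW, e0] at h4 h5
  rw [← hC, d1, d2, d3] at e
  have em : (pre ++ [a]).map (· / (P.G * B)) = pre.map (· / (P.G * B)) ++ [a / (P.G * B)] := by
    simp
  rw [em]
  have f0 := Y.mf_pos (pre.map (· / (P.G * B)) ++ [a / (P.G * B)])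
  generalize mf (pre.map (· / (P.G * B)) ++ [a / (P.G * B)]) = f at e f0 ⊢
  generalize W (lamT P.N (P.z / P.G) tb) (P.G * B) (pre ++ [a]) = w at h4 h5 ⊢
  split_ifs at e with hc
  · have hc' : (4096 : ℝ) + A ≤ k * 524288 := by exact_mod_cast hc
    refine ⟨by linarith, ?_⟩
    have e4 := kKEq_ceil f0 e hlt
    have e5 : (k : ℝ) * 524288 ≤ C * f + (4096 + Bm) := by exact_mod_cast e4
    linarith
  · omega

theorem evl_spec {P : Par} (tb : Tr) {B δ c sl sh : ℕ} {los his : List ℕ} (hs : Sm P) (hB : 0 < B)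
    (hδ : δ ≤ B) (hb : BoxOK P los his) (h0 : los ≠ []) (hn : los.length ≤ 30)
    (hc : Low P B δ c los his) (hr : Nar P B δ los his sl sh) (k : ℕ → ℕ → ℕ) :
    ∃ CT j, CTI P tb B δ los his CT j ∧
      evl P.G P.N (P.N * P.G) (P.z / P.G) tb c los his sl sh k = k CT j := by
  obtain ⟨jl, hjl⟩ : ∃ jl, jl = max c ((P.N * P.G - sh) / P.G) := ⟨_, rfl⟩
  obtain ⟨n, hn'⟩ : ∃ n, n = (P.N * P.G - sl - 1) / P.G + 1 - jl := ⟨_, rfl⟩
  obtain ⟨f, hf⟩ : ∃ f, f = ev1 P.G P.N (P.N * P.G) (P.z / P.G) tb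
    (los.map (· / P.G)) los his los.sum his.sum sl sh := ⟨_, rfl⟩
  refine ⟨evs f n jl <<< 32 + evs f n jl % 4294967291, jl, fun pre a H => ?_, ?_⟩
  · have hl : pre ≠ [] := fun h => h0 (List.length_eq_zero_iff.1 (by rw [H.box.len.1, h]; rfl))
    obtain ⟨j1, j2⟩ := kKEq_rng hs hl hc hr H
    obtain ⟨s1, s2⟩ := hr pre a H
    rw [← hjl] at j1
    refine ⟨j1, fun C' h1 h2 => kKEv_ev1 tb hs hB hδ h0 hn H.box H.hyp s1 s2 ?_ h2⟩
    rw [h1, kKEq_lane (fun j => by rw [hf]; exact kKEv_ev1_le _ _ _ _ _ _ _ _ _ _ _ _ _) (by omega),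
      hb.cells H.box, Nat.add_sub_cancel' j1, hf]
  · have e : evl P.G P.N (P.N * P.G) (P.z / P.G) tb c los his sl sh k =
        fz (sm los) fun SL => fz (sm his) fun SH => fl (cls P.G los) fun cs =>
        fz (mx c ((P.N * P.G - sh) / P.G)) fun jl =>
        fz (evs (ev1 P.G P.N (P.N * P.G) (P.z / P.G) tb cs los his SL SH sl sh)
          ((P.N * P.G - sl - 1) / P.G + 1 - jl) jl) fun C =>
        fz (C <<< 32 + C % 4294967291) fun CT => k CT jl := rfl
    rw [e, hf, hn', hjl]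
    simp only [fz_eq, fl_eq, mx_eq, sm_eq, cls_eq]

theorem kKEv_ones (W n : ℕ) : pack W n (fun _ => 2 ^ W - 1) = 2 ^ (W * n) - 1 := by
  induction n with
  | zero => simp
  | succ n ih =>
    have h1 : 0 < 2 ^ (W * n) := by positivity
    have h2 := Nat.mul_le_mul_right (2 ^ (W * n)) (show 1 ≤ 2 ^ W from Nat.one_le_two_pow)
    rw [pack_succ', ih, Nat.mul_succ, pow_add, Nat.sub_mul, mul_comm (2 ^ (W * n))]
    omega

theorem CT0_spec {P : Par} (tb : Tr) {B δ : ℕ} (los his : List ℕ) (hs : Sm P) (hB : 0 < B) :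
    CTI P tb B δ los his CT0 0 := by
  intro pre a H
  have ht := H.hyp
  refine ⟨Nat.zero_le _, fun C h1 h2 => ?_⟩
  exfalso
  have hF : 0 < P.G * B := Nat.mul_pos (by have := hs.G2; omega) hB
  have t2 := ht.hi
  rw [List.sum_append, List.sum_singleton] at t2
  have h3 : a / (P.G * B) ≤ P.N := Nat.div_le_of_le_mul (by rw [mul_comm]; omega)
  have h4 := hs.N1
  have e : ∀ n m, m = 32 * n → Nat.pred (Nat.pow 2 m) = pack 32 n fun _ => 2 ^ 32 - 1 :=
    fun n m h => by rw [kKEv_ones, h]; rfl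
  have e1 : CT0 = pack 32 128 fun _ => 2 ^ 32 - 1 := by
    unfold CT0
    exact e 128 4096 (by norm_num)
  rw [e1, ← Nat.shiftRight_eq_div_pow, pack_lane (by omega) fun _ _ => by norm_num] at h1
  omega

end Pool.Agent.Work.MP_82fd4a_nt.P
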