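import Pool.Agent.Work.MP_82fd4a_nt.P.KDt
import Pool.Agent.Work.MP_82fd4a_nt.P.KLan

/-! Reading a packing. -/

set_option autoImplicit false
open Finset

namespace Pool.Agent.Work.MP_82fd4a_nt.P

open BS Y

theorem kKRd_dig (s j : ℕ) : s / 16 / 16 ^ j = s / 16 ^ (j + 1) := by
  rw [Nat.div_div_eq_div_mul, pow_succ']

theorem kKRd_h (φ : ℕ → ℕ) (F : ℕ → ℕ → ℕ → ℕ) (h0 : ∀ s y, F 0 s y = y)
    (h1 : ∀ n s y, F (n + 1) s y = F n (s >>> 4) (y <<< 64 + φ (s % 16))) (n s y : ℕ) :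
    F n s y = y * 2 ^ (64 * n) + ∑ j ∈ range n, φ (s / 16 ^ j % 16) * 2 ^ (64 * (n - 1 - j)) := by
  induction n generalizing s y with
  | zero => simp [h0]
  | succ n ih =>
    rw [h1, ih, sum_range_succ', Nat.shiftRight_eq_div_pow, Nat.shiftLeft_eq]
    simp only [show 2 ^ 4 = 16 from rfl, kKRd_dig, pow_zero, Nat.div_one, Nat.add_sub_cancel,
      Nat.sub_zero, Nat.sub_sub, add_comm 1]
    rw [mul_add 64, pow_add]
    ring

theorem kKRd_p (j : ℕ) : 16 ^ j = 2 ^ (4 * j) := (pow_mul 2 4 j).symm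

theorem kKRd_hp (n s : ℕ) :
    hp n s 0 = ∑ j ∈ range n, s / 16 ^ j % 16 * 2 ^ (64 * (n - 1 - j)) :=
  (kKRd_h id hp (fun _ _ => rfl) (fun n s y => fz_eq (s >>> 4) fun s' =>
    hp n s' (y <<< 64 + s % 16)) n s 0).trans (by simp)

theorem kKRd_dgs (e d n : ℕ) : dgs e d n = e + ∑ j ∈ range n, max (d / 2 ^ (4 * j) % 16) e := by
  induction n with
  | zero => rfl
  | succ n ih =>
    have h : dgs e d (n + 1) = dgs e d n + mx (d >>> (4 * n) % 16) e := rfl
    rw [h, ih, mx_eq, Nat.shiftRight_eq_div_pow, sum_range_succ, add_assoc]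

theorem kKRd_fw (n s : ℕ) : fw n s = ∑ j ∈ range n, s / 16 ^ j % 16 * 2 ^ (64 * j) := by
  induction n generalizing s with
  | zero => rfl
  | succ n ih =>
    have e : fw (n + 1) s = s % 16 + fz (s >>> 4) (fw n) <<< 64 := rfl
    rw [e, fz_eq, ih, sum_range_succ', Nat.shiftRight_eq_div_pow, Nat.shiftLeft_eq, sum_mul]
    simp only [show 2 ^ 4 = 16 from rfl, kKRd_dig, pow_zero, Nat.div_one, mul_zero, mul_one,
      mul_assoc, ← pow_add, mul_add]
    exact add_comm _ _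

theorem kKRd_mv (n q : ℕ) : fw (n + 1) (q >>> 25) <<< 64 = q >>> 25 % 16 * 2 ^ 64 +
    ∑ j ∈ range n, q >>> 29 / 16 ^ j % 16 * 2 ^ (64 * (j + 2)) := by
  have e : q >>> 29 = q >>> 25 / 16 := by
    rw [Nat.shiftRight_add q 25 4, Nat.shiftRight_eq_div_pow _ 4]
  rw [kKRd_fw, sum_range_succ', Nat.shiftLeft_eq, add_mul, sum_mul, add_comm, e]
  simp only [kKRd_dig, pow_zero, Nat.div_one, mul_zero, mul_one, mul_assoc, ← pow_add]
  rfl

theorem kKRd_tan (T L0 den : ℕ) (hd : den = (2 * T - L0) * (2 * T - L0)) (L : ℝ) (h0 : 0 ≤ L)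
    (h1 : L < T) : (2147483648 * T / den % 1099511627776 : ℕ) * L -
      ((1073741824 * (L0 * L0) + den.pred) / den : ℕ) ≤ 1073741824 * (L / (2 * T - L)) := by
  have h2 : 0 < 2 * (T : ℝ) - L := by linarith
  rcases Nat.eq_zero_or_pos den with h | h
  · rw [h, Nat.div_zero, Nat.div_zero, Nat.zero_mod, Nat.cast_zero, zero_mul, sub_zero]
    positivity
  have h3 : L0 ≤ 2 * T := by
    by_contra hc
    rw [Nat.sub_eq_zero_of_le (not_le.1 hc).le] at hd
    omega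
  have h4 : (den : ℝ) = (2 * T - L0) * (2 * T - L0) := by
    rw [hd]
    push_cast [Nat.cast_sub h3]
    rfl
  have h5 : (0 : ℝ) < den := by exact_mod_cast h
  have ha : ((2147483648 * T / den % 1099511627776 : ℕ) : ℝ) * den ≤ 2147483648 * T := by
    exact_mod_cast (Nat.mul_le_mul_right _ (Nat.mod_le _ _)).trans (Nat.div_mul_le_self _ _)
  have hc : (1073741824 * (L0 * L0) : ℝ) ≤
      ((1073741824 * (L0 * L0) + den.pred) / den : ℕ) * den := by
    have e1 := Nat.div_add_mod' (1073741824 * (L0 * L0) + den.pred) den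
    have e2 := Nat.mod_lt (1073741824 * (L0 * L0) + den.pred) h
    have e3 := Nat.succ_pred_eq_of_pos h
    have e4 : 1073741824 * (L0 * L0) ≤ (1073741824 * (L0 * L0) + den.pred) / den * den := by omega
    exact_mod_cast e4
  generalize ((2147483648 * T / den % 1099511627776 : ℕ) : ℝ) = a at ha
  generalize (((1073741824 * (L0 * L0) + den.pred) / den : ℕ) : ℝ) = c at hc
  refine le_of_mul_le_mul_right ?_ h5
  have h6 : 2 * T * L - L0 * L0 ≤ L / (2 * T - L) * den := by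
    rw [div_mul_eq_mul_div, le_div_iff₀ h2, h4]
    nlinarith [mul_nonneg (h0.trans h1.le) (sq_nonneg (L - L0))]
  nlinarith [mul_le_mul_of_nonneg_right ha h0]

theorem kKRd_prs (T n rw g0 cnt s : ℕ) (k : Ce → ℕ → ℕ) :
    ∃ rs : List Rc, rs.length = cnt ∧ (∀ r ∈ rs, r.OK T) ∧ prs T n rw g0 cnt s k = k (mkCe n rs)
      (g0 + (rs.map fun r =>
        r.w * (r.e * 2 ^ 64 + ∑ j ∈ range n, r.m j * 2 ^ (64 * (j + 2)))).sum) := by
  induction cnt generalizing s k with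
  | zero => exact ⟨[], rfl, by simp, rfl⟩
  | succ cnt ih =>
    have e : prs T n rw g0 (cnt + 1) s k =
        fz (Nat.mod s (Nat.pow 2 rw)) fun q => fz (q % 8192) fun w =>
        fz (8 * (q >>> 13 % 4096)) fun L0 => fz ((2 * T - L0) * (2 * T - L0)) fun den =>
        fz (2147483648 * T / den % 1099511627776) fun a =>
        fz ((1073741824 * (L0 * L0) + den.pred) / den) fun c =>
        fz (q >>> 25 % 16) fun e => fz (q >>> 29) fun d =>
        fz (hp n d 0) fun y => fz (dgs e d n) fun dg => fz (dv e d n) fun D =>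
        fz (s >>> rw) fun s' => prs T n rw g0 cnt s' fun r g =>
          k (Ce.cons w a c e y dg D r) (g + w * fw (n + 1) (q >>> 25) <<< 64) := rfl
    rw [e, fz_eq]
    generalize Nat.mod s (Nat.pow 2 rw) = q
    simp only [fz_eq, kKRd_hp, kKRd_dgs, dv_eq, kKRd_mv, kKRd_p]
    obtain ⟨rs, h1, h2, h3⟩ := ih (s >>> rw) _
    rw [h3]
    refine ⟨⟨q % 8192, _, _, q >>> 25 % 16, fun j => q >>> 29 / 2 ^ (4 * j) % 16⟩ :: rs,
      congrArg Nat.succ h1, List.forall_mem_cons.2 ⟨⟨Nat.mod_lt _ (by norm_num),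
        Nat.mod_lt _ (by norm_num), Nat.mod_lt _ (by norm_num), fun j => Nat.mod_lt _ (by norm_num),
        kKRd_tan T (8 * (q >>> 13 % 4096)) _ rfl⟩, h2⟩, ?_⟩
    rw [List.map_cons, List.sum_cons, ← add_assoc, add_right_comm g0]
    rfl

theorem kKRd_cok {g n : ℕ} (h : cok g n = 0) :
    ∀ i < n, g / 2 ^ (64 * (i + 1)) % 2 ^ 64 ≤ 4096 := by
  induction n with
  | zero => exact fun i hi => absurd hi i.not_lt_zero
  | succ n ih =>
    have e : cok g (n + 1) = il (g >>> (64 * (n + 1)) % 2 ^ 64) 4096 (cok g n) 1 := rfl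
    rw [e, il_eq, Nat.shiftRight_eq_div_pow] at h
    split_ifs at h with h1
    intro i hi
    rcases Nat.lt_succ_iff_lt_or_eq.1 hi with h2 | rfl
    exacts [ih h i h2, h1]

theorem rdc_spec {T n s : ℕ} {k : Ce → ℕ → ℕ} (h : rdc T n s k < BAD) :
    ∃ ce s', CeOK T n ce ∧ rdc T n s k = k ce s' := by
  unfold rdc at h ⊢
  simp only [fz_eq, iz_eq] at h ⊢
  obtain ⟨rs, h1, h2, h3⟩ := kKRd_prs T n (Nat.add 29 (Nat.mul 4 n)) (Nat.mod s 4294967296)
    (Nat.mod s 16) (Nat.shiftRight s 4) _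
  rw [h3] at h ⊢
  have hl : rs.length ≤ 15 := h1 ▸ Nat.le_of_lt_succ (Nat.mod_lt s (by norm_num))
  obtain ⟨h4, h5⟩ := lanes_spec (n := n) (g0 := Nat.mod s 4294967296) (fun r => r.w)
    ((Nat.mod_lt s (by norm_num)).trans (by norm_num)) h2
    (fun r hr => (h2 r hr).w.trans (by norm_num)) hl
  split_ifs at h ⊢ with hc
  · refine ⟨_, _, ⟨rs, rfl, hl, h2, h4 ▸ kKRd_cok hc 0 n.succ_pos, fun j hj => ?_⟩, rfl⟩
    have h6 := kKRd_cok hc (j + 1) (Nat.succ_lt_succ hj)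
    rwa [show 64 * (j + 1 + 1) = 128 + 64 * j by ring, h5 j hj] at h6
  · exact absurd h (lt_irrefl _)

end Pool.Agent.Work.MP_82fd4a_nt.P
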