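import Pool.Agent.Work.MP_82fd4a_nt.P.KDefs

/-! Scalar products as digits of a product. -/

set_option autoImplicit false
open Finset

namespace Pool.Agent.Work.MP_82fd4a_nt.P

open BS Y

theorem kKDt_dig {b : ℕ} {k n : ℕ} {a : ℕ → ℕ} (ha : ∀ i, a i < b) (hk : k < n) :
    (∑ i ∈ range n, a i * b ^ i) / b ^ k % b = a k := by
  have hb : 0 < b := (Nat.zero_le _).trans_lt (ha 0)
  induction k generalizing a n with
  | zero =>
    obtain ⟨n, rfl⟩ := Nat.exists_eq_add_one_of_ne_zero hk.ne'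
    simp only [sum_range_succ', pow_succ, ← mul_assoc, ← sum_mul, pow_zero, mul_one, Nat.div_one,
      Nat.mul_add_mod_self_right, Nat.mod_eq_of_lt (ha 0)]
  | succ k ih =>
    obtain ⟨n, rfl⟩ := Nat.exists_eq_add_one_of_ne_zero (Nat.ne_zero_of_lt hk)
    rw [pow_succ' b k, ← Nat.div_div_eq_div_mul, ← ih (fun i => ha (i + 1)) (by omega : k < n)]
    simp only [sum_range_succ', pow_succ, ← mul_assoc, ← sum_mul, pow_zero, mul_one]
    rw [add_comm, Nat.add_mul_div_right _ _ hb, Nat.div_eq_of_lt (ha 0), zero_add]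

theorem kKDt_pk (l : List ℕ) : pk l = ∑ i ∈ range l.length, l.getD i 0 * (2 ^ 64) ^ i := by
  induction l with
  | nil => rfl
  | cons h t ih =>
    have e : pk (h :: t) = h + pk t <<< 64 := rfl
    simp only [e, ih, Nat.shiftLeft_eq, List.length_cons, sum_range_succ', List.getD_cons_succ,
      List.getD_cons_zero, pow_succ (2 ^ 64), ← mul_assoc, ← sum_mul, pow_zero, mul_one]
    exact add_comm _ _

theorem dt_spec {n : ℕ} {l : List ℕ} {y : ℕ → ℕ} (hn : n ≤ 30) (hl : l.length = n)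
    (h1 : ∀ x ∈ l, x ≤ 32768) (hy : ∀ j, y j < 16) :
    dt (slt (pk l)) (∑ j ∈ range n, y j * 2 ^ (64 * (n - 1 - j))) (64 * n) =
      ∑ j ∈ range n, y j * l.getD j 0 := by
  obtain ⟨x, x0, x1⟩ : ∃ x : ℕ → ℕ, x 0 = pk l % 16777213 ∧ ∀ i, x (i + 1) = l.getD i 0 :=
    ⟨fun i => Nat.rec (pk l % 16777213) (fun i _ => l.getD i 0) i, rfl, fun _ => rfl⟩
  have xb : ∀ i, x i ≤ 16777213 := by
    rintro (_ | i)
    · omega
    · rw [x1, List.getD_eq_getElem?_getD]
      rcases h : l[i]? with _ | v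
      · exact Nat.zero_le _
      · exact (h1 v (List.mem_of_getElem? h)).trans (by norm_num)
  have e : slt (pk l) = ∑ i ∈ range (n + 1), x i * (2 ^ 64) ^ i := by
    have e : slt (pk l) = pk l <<< 64 + pk l % 16777213 := rfl
    rw [e, ← x0, kKDt_pk, hl]
    simp only [Nat.shiftLeft_eq, sum_range_succ', x1, pow_succ (2 ^ 64), ← mul_assoc, ← sum_mul,
      pow_zero, mul_one]
  have e' : ∀ X Y s, dt X Y s = X * Y / 2 ^ s % 2 ^ 64 := fun X Y s => by
    rw [← Nat.shiftRight_eq_div_pow]; rfl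
  rw [e', e, sum_mul_sum, ← sum_product', ← sum_fiberwise_of_maps_to (t := range (2 * n + 1))
    (g := fun p : ℕ × ℕ => p.1 + (n - 1 - p.2)) fun p hp => by
      simp only [mem_product, mem_range] at hp ⊢
      omega, pow_mul,
    sum_congr rfl (g := fun m => (∑ p ∈ range (n + 1) ×ˢ range n with p.1 + (n - 1 - p.2) = m,
      x p.1 * y p.2) * (2 ^ 64) ^ m) fun m _ => by
        rw [sum_mul]
        refine sum_congr rfl fun p hp => ?_
        rw [← (mem_filter.1 hp).2, pow_add, pow_mul]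
        ring,
    kKDt_dig (fun m => ?_) (by omega), sum_filter, sum_product_right]
  · refine sum_congr rfl fun j hj => ?_
    rw [mem_range] at hj
    rw [sum_eq_single_of_mem (j + 1) (mem_range.2 (by omega)) fun i _ h => if_neg (by omega),
      if_pos (by omega), x1, mul_comm]
  · refine (sum_le_card_nsmul _ _ (16777213 * 16) fun p _ =>
      Nat.mul_le_mul (xb _) (hy _).le).trans_lt ?_
    have := card_filter_le (range (n + 1) ×ˢ range n) fun p => p.1 + (n - 1 - p.2) = m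
    rw [card_product, card_range, card_range] at this
    have := this.trans (Nat.mul_le_mul (Nat.succ_le_succ hn) hn)
    rw [smul_eq_mul]
    omega

/-- digits of a sum of digit vectors -/
theorem lanes_spec {n g0 : ℕ} {rs : List Rc} {T : ℕ} (σ : Rc → ℕ) (hg : g0 < 2 ^ 64)
    (hr : ∀ r ∈ rs, r.OK T) (hσ : ∀ r ∈ rs, σ r < 2 ^ 30) (hl : rs.length ≤ 15) :
    (g0 + (rs.map fun r => σ r * (r.e * 2 ^ 64 + ∑ j ∈ range n, r.m j * 2 ^ (64 * (j + 2)))).sum) /
        2 ^ 64 % 2 ^ 64 = (rs.map fun r => σ r * r.e).sum ∧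
    ∀ i < n, (g0 + (rs.map fun r =>
        σ r * (r.e * 2 ^ 64 + ∑ j ∈ range n, r.m j * 2 ^ (64 * (j + 2)))).sum) /
        2 ^ (128 + 64 * i) % 2 ^ 64 = (rs.map fun r => σ r * r.m i).sum := by
  obtain ⟨a, a0, a1, a2⟩ : ∃ a : ℕ → ℕ, a 0 = g0 ∧ a 1 = (rs.map fun r => σ r * r.e).sum ∧
      ∀ i, a (i + 2) = (rs.map fun r => σ r * r.m i).sum :=
    ⟨fun i => match i with
      | 0 => g0
      | 1 => (rs.map fun r => σ r * r.e).sum
      | i + 2 => (rs.map fun r => σ r * r.m i).sum, rfl, rfl, fun _ => rfl⟩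
  have bd : ∀ f : Rc → ℕ, (∀ r ∈ rs, f r < 16) → (rs.map fun r => σ r * f r).sum < 2 ^ 64 :=
    fun f hf => by
      refine (List.sum_le_card_nsmul _ (2 ^ 30 * 16) fun x hx => ?_).trans_lt ?_
      · obtain ⟨r, h, rfl⟩ := List.mem_map.1 hx
        exact Nat.mul_le_mul (hσ r h).le (hf r h).le
      · rw [List.length_map, smul_eq_mul]
        omega
  have ha : ∀ i, a i < 2 ^ 64 := by
    rintro (_ | _ | i)
    exacts [a0 ▸ hg, a1 ▸ bd _ fun r h => (hr r h).e, a2 i ▸ bd _ fun r h => (hr r h).m i]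
  have e : g0 + (rs.map fun r =>
      σ r * (r.e * 2 ^ 64 + ∑ j ∈ range n, r.m j * 2 ^ (64 * (j + 2)))).sum =
      ∑ i ∈ range (n + 2), a i * (2 ^ 64) ^ i := by
    simp only [sum_range_succ', zero_add, a0, a1, add_assoc, one_add_one_eq_two, a2, pow_mul,
      pow_zero, pow_one, mul_one]
    generalize 2 ^ 64 = b
    clear a1 a2 bd hr hσ hl
    induction rs with
    | nil => simp
    | cons r t ih =>
      simp only [List.map_cons, List.sum_cons, add_mul, mul_add, sum_add_distrib, mul_sum,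
        mul_assoc] at ih ⊢
      omega
  rw [e]
  refine ⟨?_, fun i hi => ?_⟩
  · rw [← a1, ← kKDt_dig ha (by omega : 1 < n + 2), pow_one]
  · rw [← a2, ← kKDt_dig ha (by omega : i + 2 < n + 2), ← pow_mul 2 64 (i + 2), mul_add, add_comm 128]

end Pool.Agent.Work.MP_82fd4a_nt.P
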