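import Pool.Agent.Work.MP_82fd4a_nt.P.KDefs

/-! The range of one entry of the table. -/

set_option autoImplicit false
open Finset

namespace Pool.Agent.Work.MP_82fd4a_nt.P

open BS Y

theorem rl_spec (n V a b : ℕ) (ha : a ≤ 2 ^ 20) : ∃ A Bm, rl n V a b = A + Bm * 2 ^ 64 + 2 ^ 128 ∧
    a ≤ A ∧ A ≤ 2 ^ 20 ∧ Bm ≤ b ∧
      ∀ i < n, Bm ≤ V / 2 ^ (20 * i) % 2 ^ 20 ∧ V / 2 ^ (20 * i) % 2 ^ 20 ≤ A := by
  induction n generalizing V a b with
  | zero =>
    refine ⟨a, b, ?_, le_rfl, ha, le_rfl, fun i hi => absurd hi (Nat.not_lt_zero i)⟩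
    change a + b <<< 64 + 340282366920938463463374607431768211456 = _
    rw [Nat.shiftLeft_eq]
    norm_num
  | succ n ih =>
    have e : rl (n + 1) V a b = fz (V % 1048576) fun u => fz (mx u a) fun a' =>
      fz (mn u b) fun b' => rl n (V >>> 20) a' b' := rfl
    simp only [fz_eq, mx_eq, mn_eq, Nat.shiftRight_eq_div_pow] at e
    obtain ⟨A, Bm, h1, h2, h3, h4, h5⟩ := ih (V / 2 ^ 20) (max (V % 1048576) a)
      (min (V % 1048576) b) (by omega)
    refine ⟨A, Bm, e.trans h1, by omega, h3, by omega, fun i hi => ?_⟩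
    cases i with
    | zero => omega
    | succ i =>
      have := h5 i (by omega)
      rwa [Nat.div_div_eq_div_mul, ← pow_add, show 20 + 20 * i = 20 * (i + 1) by ring] at this

theorem kKHit_sum {F : ℕ} (hF : 0 < F) (l : List ℕ) : (l.map (· / F)).sum * F ≤ l.sum ∧
    l.sum + l.length ≤ ((l.map (· / F)).sum + l.length) * F := by
  induction l with
  | nil => simp
  | cons a l ih =>
    have h1 := Nat.div_add_mod' a F
    have h2 := Nat.mod_lt a hF
    simp only [List.map_cons, List.sum_cons, List.length_cons, add_mul, one_mul] at ih ⊢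
    omega

theorem kKHit_key {P : Par} {B δ SL SH lo hi : ℕ} {t : List ℕ} {p : List ℕ × List ℕ}
    (hs : Sm P) (hB : 0 < B) (hδ : δ ≤ B) (ht : Hyp P B δ t) (h2 : 2 ≤ t.length)
    (hp : p ∈ splits t) (h0 : p.1 ≠ []) (h3 : lo * B ≤ p.1.sum) (h4 : p.1.sum ≤ hi * B)
    (h5 : SL * B ≤ lo * B + p.2.sum) (h6 : p.2.sum + hi * B ≤ SH * B) {e S : ℕ}
    (he : e = p.2.sum / (P.G * B)) (hS : S = (p.1.map (· / (P.G * B))).sum) :
    (e ≤ (SH - hi - 1) / P.G ∧ e ≤ (P.N * P.G - lo - 1) / P.G) ∧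
      ((SL - lo) / P.G ≤ e ∧ (P.N * P.G - hi) / P.G ≤ e) ∧ e + S < P.N ∧
        P.N ≤ e + S + p.1.length := by
  have G2 := hs.G2
  have G0 : 0 < P.G := by omega
  have F0 : 0 < P.G * B := by positivity
  have s1 := splits_sum hp
  have l1 := splits_length hp
  have t1 := ht.lo
  have t2 := ht.hi
  have c : ∀ x y : ℕ, x * (P.G * B) < y * (P.G * B) → x < y := fun x y =>
    Nat.lt_of_mul_lt_mul_right
  have c' : ∀ x y : ℕ, x * B < y * B → x < y := fun x y => Nat.lt_of_mul_lt_mul_right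
  by_cases h7 : p.2 = []
  · rw [h7, List.sum_nil] at he h5 s1
    rw [Nat.zero_div] at he
    subst he
    obtain ⟨a, l, hl⟩ := List.exists_cons_of_ne_nil h0
    obtain ⟨q, hq⟩ := single_split ((splits_sublist hp).1.subset (hl ▸ List.mem_cons_self))
    have w := ht.wall _ hq (by simp) fun h => by
      have := splits_length hq
      rw [h] at this
      simp at this
      omega
    have k := kKHit_sum F0 l
    have d := Nat.div_add_mod' a (P.G * B)
    rw [hl] at hS s1 h4 ⊢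
    simp only [List.sum_cons, List.map_cons, List.sum_nil, add_zero, List.length_cons] at *
    have a1 := c' SL (lo + 1) (by rw [add_mul]; omega)
    have a2 := c' (P.N * P.G) (hi + 2) (by rw [add_mul, mul_assoc]; omega)
    have a3 := c S P.N (by rw [hS, add_mul]; omega)
    have a4 := c P.N (S + (l.length + 1)) (by
      rw [hS]
      simp only [add_mul] at *
      omega)
    refine ⟨⟨Nat.zero_le _, Nat.zero_le _⟩, ⟨?_, ?_⟩, by omega, by omega⟩ <;>
      exact (Nat.div_eq_of_lt (by omega)).le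
  · have w := ht.wall _ hp h0 h7
    have k := kKHit_sum F0 p.1
    have l0 := List.length_pos_iff.2 h0
    have d := Nat.div_add_mod' p.1.sum (P.G * B)
    have d1 := Nat.div_add_mod' p.2.sum (P.G * B)
    have d2 := Nat.mod_lt p.2.sum F0
    rw [← he] at d1
    rw [← hS] at k
    generalize p.1.sum / (P.G * B) = q at *
    have a1 := c (q + e) P.N (by rw [add_mul]; omega)
    have a2 := c P.N (q + e + 2) (by simp only [add_mul]; omega)
    obtain a3 : P.N = q + e + 1 := by omega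
    have a4 : P.N * (P.G * B) = q * (P.G * B) + e * (P.G * B) + P.G * B := by
      rw [a3]
      ring
    have a5 := c S (q + 1) (by rw [add_mul]; omega)
    have a6 := c q (S + p.1.length) (by omega)
    have b1 := c' (e * P.G + hi) SH (by rw [add_mul, mul_assoc]; omega)
    have b2 := c' (e * P.G + lo) (P.N * P.G) (by rw [add_mul, mul_assoc, mul_assoc]; omega)
    have b3 := c' SL (e * P.G + P.G + lo) (by simp only [add_mul, mul_assoc]; omega)
    have b4 := c' (P.N * P.G) (e * P.G + P.G + hi) (by simp only [add_mul, mul_assoc]; omega)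
    refine ⟨⟨(Nat.le_div_iff_mul_le G0).2 (by omega), (Nat.le_div_iff_mul_le G0).2 (by omega)⟩,
      ⟨?_, ?_⟩, by omega, by omega⟩ <;>
      exact Nat.le_of_lt_succ ((Nat.div_lt_iff_lt_mul G0).2 (by rw [Nat.succ_mul]; omega))

theorem hit_spec {P : Par} (tb : Tr) {B δ SL SH lo hi : ℕ} {t : List ℕ} {p : List ℕ × List ℕ}
    (hs : Sm P) (hB : 0 < B) (hδ : δ ≤ B) (ht : Hyp P B δ t) (h2 : 2 ≤ t.length)
    (hp : p ∈ splits t) (h0 : p.1 ≠ []) (h3 : lo * B ≤ p.1.sum) (h4 : p.1.sum ≤ hi * B)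
    (h5 : SL * B ≤ lo * B + p.2.sum) (h6 : p.2.sum + hi * B ≤ SH * B) :
    ∃ A Bm k : ℕ, hit P.G P.N (P.N * P.G) SL SH (look (p.1.map (· / (P.G * B))) 0 tb (P.z / P.G))
        (p.1.map (· / (P.G * B))).sum lo hi = A + Bm * 2 ^ 64 + k * 2 ^ 128 ∧
      k ≤ 1 ∧ A ≤ 2 ^ 20 ∧ Bm ≤ 2 ^ 20 ∧
      (Bm : ℝ) - k * 524288 ≤
        4096 * lamT P.N (P.z / P.G) tb (p.1.map (· / (P.G * B))) (p.2.sum / (P.G * B)) ∧
      4096 * lamT P.N (P.z / P.G) tb (p.1.map (· / (P.G * B))) (p.2.sum / (P.G * B)) ≤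
        (A : ℝ) - k * 524288 := by
  obtain ⟨⟨k1, k2⟩, ⟨k3, k4⟩, k5, k6⟩ := kKHit_key hs hB hδ ht h2 hp h0 h3 h4 h5 h6 rfl rfl
  have hc : ∀ a ∈ p.1.map (· / (P.G * B)), P.z / P.G ≤ a := by
    intro a ha
    obtain ⟨b, hb, rfl⟩ := List.mem_map.1 ha
    rw [← Nat.mul_div_mul_right _ _ hB]
    exact Nat.div_le_div_right (ht.big b ((splits_sublist hp).1.subset hb))
  unfold lamT
  rw [if_neg (by simpa using h0), List.length_map]
  generalize look (p.1.map (· / (P.G * B))) 0 tb (P.z / P.G) = v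
  generalize (p.1.map (· / (P.G * B))).sum = S at *
  generalize p.2.sum / (P.G * B) = e at *
  have u : hit P.G P.N (P.N * P.G) SL SH v S lo hi = iz v 0
    (fz (mn ((SH - hi - 1) / P.G) ((P.N * P.G - lo - 1) / P.G)) fun eh =>
      rl (eh + 1 - mx ((SL - lo) / P.G) ((P.N * P.G - hi) / P.G))
        (v >>> (20 * (P.N - S - eh))) 0 1048576) := rfl
  rw [u, iz_eq, fz_eq, mn_eq, mx_eq, Nat.shiftRight_eq_div_pow]
  by_cases hv : v = 0
  · rw [if_pos hv, if_pos (Or.inl hv)]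
    exact ⟨0, 0, 0, rfl, by simp⟩
  rw [if_neg hv, if_neg (by push Not; exact ⟨hv, by omega, by omega, hc⟩)]
  have k7 := le_min k1 k2
  have k8 := max_le k3 k4
  generalize min ((SH - hi - 1) / P.G) ((P.N * P.G - lo - 1) / P.G) = eh at *
  generalize max ((SL - lo) / P.G) ((P.N * P.G - hi) / P.G) = el at *
  obtain ⟨A, Bm, r1, -, r2, r3, r4⟩ := rl_spec (eh + 1 - el) (v / 2 ^ (20 * (P.N - S - eh))) 0
    1048576 (Nat.zero_le _)
  have r5 := r4 (P.N - e - S - (P.N - S - eh)) (by omega)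
  rw [Nat.div_div_eq_div_mul, ← pow_add, ← mul_add, Nat.add_sub_cancel' (by omega)] at r5
  have r6 := (Nat.cast_le (α := ℝ)).2 r5.1
  have r7 := (Nat.cast_le (α := ℝ)).2 r5.2
  refine ⟨A, Bm, 1, by rw [r1, one_mul], le_rfl, r2, r3, ?_, ?_⟩ <;>
    rw [Nat.cast_one] <;> linarith

end Pool.Agent.Work.MP_82fd4a_nt.P
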