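import Pool.Agent.Work.MP_82fd4a_nt.P.KTa
import Pool.Agent.Work.MP_82fd4a_nt.P.KHit
import Pool.Agent.Work.MP_82fd4a_nt.P.KDt

/-! The table of the costs. -/

set_option autoImplicit false
open Finset

namespace Pool.Agent.Work.MP_82fd4a_nt.P

open BS Y

/-- the costs of the lists of length `K` with key between `a` and `b` are right -/
def TcK (P : Par) (tb tc : Tr) (K a b : ℕ) : Prop := ∀ B δ pre x, 0 < B → δ ≤ B →
  Hyp P B δ (pre ++ [x]) → pre.length = K → a ≤ kf 562949953421312 (pre.map (· / (P.G * B))) →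
  kf 562949953421312 (pre.map (· / (P.G * B))) < b →
  look (pre.map (· / (P.G * B))) 0 tc (P.z / P.G) ≠ 0 →
  ∀ C, C = look (pre.map (· / (P.G * B))) 0 tc (P.z / P.G) /
      2 ^ (32 * (x / (P.G * B) - (P.N - (pre.map (· / (P.G * B))).sum - K) + 1)) % 2 ^ 32 →
    C < 2 ^ 31 → W (lamT P.N (P.z / P.G) tb) (P.G * B) (pre ++ [x]) ≤ 0 ∧
      -W (lamT P.N (P.z / P.G) tb) (P.G * B) (pre ++ [x]) * 4096 ≤
        C * mf ((pre ++ [x]).map (· / (P.G * B)))

/-- all the costs are right -/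
def TcOK (P : Par) (tb tc : Tr) : Prop := ∀ K, 0 < K → TcK P tb tc K 0 72057594037927936

theorem TcK.trans {P : Par} {tb tc : Tr} {K a b c : ℕ} (h : TcK P tb tc K a b)
    (h' : TcK P tb tc K b c) : TcK P tb tc K a c := fun B δ pre x h1 h2 h3 h4 h5 h6 =>
  (lt_or_ge _ b).elim (h B δ pre x h1 h2 h3 h4 h5) fun h7 => h' B δ pre x h1 h2 h3 h4 h7 h6

theorem TcOK.of {P : Par} {tb tc : Tr} {n : ℕ} (h : dpt tc n = 0)
    (h' : ∀ K, 0 < K → K ≤ n → TcK P tb tc K 0 72057594037927936) : TcOK P tb tc :=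
  fun K hK => (le_or_gt K n).elim (h' K hK) fun h1 _ _ _ _ _ _ _ h2 _ _ h3 =>
    absurd (dpt_spec h (by rwa [List.length_map, h2])) h3

theorem kTc_nil (l : List ℕ) (c : ℝ) :
    ((splits l).map fun p => if p.1 = [] then c else 0).sum = c := by
  induction l with
  | nil => simp [splits]
  | cons x t ih =>
    simp only [splits, List.map_append, List.map_map, List.sum_append, Function.comp_def, ih]
    simp

theorem kTc_low {P : Par} {B δ : ℕ} {t : List ℕ} (hB : 0 < B) (ht : Hyp P B δ t) :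
    ∀ a ∈ t.map (· / (P.G * B)), P.z / P.G ≤ a := by
  intro a ha
  obtain ⟨b, hb, rfl⟩ := List.mem_map.1 ha
  rw [← Nat.mul_div_mul_right _ _ hB]
  exact Nat.div_le_div_right (ht.big b hb)

theorem kTc_len {P : Par} {B δ : ℕ} {t : List ℕ} (hs : Sm P) (hB : 0 < B) (ht : Hyp P B δ t) :
    t.length ≤ 31 := by
  have h1 : t.length • (P.z * B) ≤ t.sum := List.card_nsmul_le_sum _ _ ht.big
  have h2 := ht.hi
  have h3 := Nat.mul_lt_mul_of_pos_right hs.z hB
  rw [smul_eq_mul] at h1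
  rw [mul_assoc, mul_assoc] at h3
  exact Nat.le_of_lt_succ (Nat.lt_of_mul_lt_mul_right (h1.trans_lt (h2.trans_lt h3)))

theorem kTc_rho {P : Par} {B δ : ℕ} {t : List ℕ} {p : List ℕ × List ℕ} (hs : Sm P) (hB : 0 < B)
    (hδ : δ ≤ B) (ht : Hyp P B δ t) (h2 : 2 ≤ t.length) (hp : p ∈ splits t) (h0 : p.1 ≠ []) :
    p.2.sum / (P.G * B) + (p.1.map (· / (P.G * B))).sum < P.N ∧
      P.N ≤ p.2.sum / (P.G * B) + (p.1.map (· / (P.G * B))).sum + p.1.length :=
  (kKHit_key (SL := 0) (SH := p.2.sum + p.1.sum) (lo := 0)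
    (hi := p.1.sum) hs hB hδ ht h2 hp h0 (by simp) (Nat.le_mul_of_pos_right _ hB) (by simp)
    (by rw [add_mul]; exact Nat.add_le_add_right (Nat.le_mul_of_pos_right _ hB) _) rfl rfl).2.2

theorem kTc_last {P : Par} {B δ x : ℕ} {pre : List ℕ} (hs : Sm P) (hB : 0 < B) (hδ : δ ≤ B)
    (ht : Hyp P B δ (pre ++ [x])) (h0 : pre ≠ []) :
    x / (P.G * B) + (pre.map (· / (P.G * B))).sum < P.N ∧
      P.N ≤ x / (P.G * B) + (pre.map (· / (P.G * B))).sum + pre.length := by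
  have hp : (pre, [x]) ∈ splits (pre ++ [x]) := by
    clear ht h0
    induction pre with
    | nil => exact nil_mem_splits _
    | cons a l ih => exact List.mem_append_left _ (List.mem_map.2 ⟨_, ih, rfl⟩)
  have := List.length_pos_iff.2 h0
  simpa using kTc_rho hs hB hδ ht (by simp; omega) hp h0

theorem geo_eq (h n : ℕ) : geo h n = ∑ i ∈ range n, (2 ^ h) ^ i := by
  induction n with
  | zero => rfl
  | succ n ih =>
    simp only [sum_range_succ', pow_succ, ← sum_mul, pow_zero]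
    rw [← ih, ← Nat.shiftLeft_eq]
    rfl

/-- one block of the ranges -/
noncomputable def bl (K v n i : ℕ) : ℕ := if v = 0 then 0 else
  if v / 2 ^ 20 = v / 2 ^ 20 % 2 ^ 20 * geo 20 n then
    v / 2 ^ 20 % 2 ^ 20 + v / 2 ^ 20 % 2 ^ 20 * 2 ^ 64 + 2 ^ 128
  else blk (max 1 (K + 1 - n)) v n i

theorem enr_eq (K v n : ℕ) : enr K v n = ∑ i ∈ range K, bl K v n i * (2 ^ 192) ^ i := by
  have e : enr K v n = iz v 0 (fz n fun n => fz (v >>> 20 % 2 ^ 20) fun u =>
    Bool.rec (motive := fun _ => ℕ) (fz (mx 1 (K + 1 - n)) fun q => Nat.rec (motive := fun _ => ℕ)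
      0 (fun i ih => ih + blk q v n i <<< (192 * i)) K)
    ((u * 18446744073709551617 + 340282366920938463463374607431768211456) * geo 192 K)
      (Nat.beq (v >>> 20) (u * geo 20 n))) := rfl
  unfold bl
  rw [e, iz_eq, fz_eq, fz_eq, fz_eq, mx_eq, Nat.shiftRight_eq_div_pow]
  split_ifs with hv h1
  · simp
  · rw [show Nat.beq _ _ = true from Nat.beq_eq ▸ h1, ← mul_sum, ← geo_eq]
    exact congrArg (· * geo 192 K) (by omega)
  rw [show Nat.beq _ _ = false from Bool.eq_false_iff.2 fun h => h1 (Nat.eq_of_beq_eq_true h)]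
  generalize max 1 (K + 1 - n) = q
  clear e
  induction K with
  | zero => rfl
  | succ K ih =>
    rw [sum_range_succ, ← ih, ← pow_mul, ← Nat.shiftLeft_eq]

theorem bl_spec (K v n i : ℕ) : ∃ A Bm k : ℕ, bl K v n i = A + Bm * 2 ^ 64 + k * 2 ^ 128 ∧ k ≤ 1 ∧
    A ≤ 2 ^ 20 ∧ Bm ≤ 2 ^ 20 ∧ (v = 0 → A = 0 ∧ Bm = 0 ∧ k = 0) ∧ (v ≠ 0 → k = 1 ∧
      ∀ ρ, 1 ≤ ρ → ρ ≤ n → ρ ≤ i + 1 → i + 1 < ρ + max 1 (K + 1 - n) →
        Bm ≤ v / 2 ^ (20 * ρ) % 2 ^ 20 ∧ v / 2 ^ (20 * ρ) % 2 ^ 20 ≤ A) := by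
  unfold bl
  split_ifs with hv h0
  · exact ⟨0, 0, 0, rfl, by simp [hv]⟩
  · have h5 : v / 2 ^ 20 % 2 ^ 20 < 2 ^ 20 := Nat.mod_lt _ (by norm_num)
    refine ⟨_, _, 1, by rw [one_mul], le_rfl, h5.le, h5.le, fun h => absurd h hv, fun _ =>
      ⟨rfl, fun ρ h1 h2 _ _ => ?_⟩⟩
    have := kKDt_dig (a := fun _ => v / 2 ^ 20 % 2 ^ 20) (fun _ => h5) (show ρ - 1 < n by omega)
    rw [← mul_sum, ← geo_eq, ← h0, Nat.div_div_eq_div_mul, ← pow_succ',
      Nat.sub_add_cancel h1, ← pow_mul] at this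
    exact ⟨this.ge, this.le⟩
  generalize max 1 (K + 1 - n) = q
  have e : blk q v n i = fz (i + 1 - q + 1) fun lo =>
    rl (mn (i + 1) n + 1 - lo) (v >>> (20 * lo)) 0 1048576 := rfl
  rw [e, fz_eq, mn_eq, Nat.shiftRight_eq_div_pow]
  obtain ⟨A, Bm, r1, -, r2, r3, r4⟩ := rl_spec (min (i + 1) n + 1 - (i + 1 - q + 1))
    (v / 2 ^ (20 * (i + 1 - q + 1))) 0 1048576 (Nat.zero_le _)
  refine ⟨A, Bm, 1, by rw [r1, one_mul], le_rfl, r2, r3, fun h => absurd h hv, fun _ =>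
    ⟨rfl, fun ρ h1 h2 h3 h4 => ?_⟩⟩
  have := r4 (ρ - (i + 1 - q + 1)) (by omega)
  rwa [Nat.div_div_eq_div_mul, ← pow_add, ← mul_add, Nat.add_sub_cancel' (by omega)] at this

theorem kTc_term {P : Par} (tb : Tr) {B δ K i : ℕ} {t : List ℕ} {p : List ℕ × List ℕ}
    (hs : Sm P) (hB : 0 < B) (hδ : δ ≤ B) (ht : Hyp P B δ t) (h2 : 0 < K) (hK : t.length = K + 1)
    (hi : (t.map (· / (P.G * B))).sum + i + 1 = P.N) (hp : p ∈ splits t) :
    ∃ A Bm k : ℕ, bl K (look (p.1.map (· / (P.G * B))) 0 tb (P.z / P.G)) p.1.length i =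
        A + Bm * 2 ^ 64 + k * 2 ^ 128 ∧ k ≤ 1 ∧ A ≤ 2 ^ 20 ∧ Bm ≤ 2 ^ 20 ∧
      (Bm : ℝ) - k * 524288 + (if p.1 = [] then 4096 else 0) ≤
        4096 * lamT P.N (P.z / P.G) tb (p.1.map (· / (P.G * B))) (p.2.sum / (P.G * B)) ∧
      4096 * lamT P.N (P.z / P.G) tb (p.1.map (· / (P.G * B))) (p.2.sum / (P.G * B)) ≤
        (A : ℝ) - k * 524288 + (if p.1 = [] then 4096 else 0) := by
  by_cases h0 : p.1 = []
  · refine ⟨0, 0, 0, by rw [h0]; rfl, ?_⟩
    simp [h0, lamT]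
  obtain ⟨k5, k6⟩ := kTc_rho hs hB hδ ht (by omega) hp h0
  have hc : ∀ a ∈ p.1.map (· / (P.G * B)), P.z / P.G ≤ a := fun a ha =>
    kTc_low hB ht a (((splits_sublist hp).1.map _).subset ha)
  have F0 : 0 < P.G * B := Nat.mul_pos (by have := hs.G2; omega) hB
  obtain ⟨k1, k2⟩ := kKHit_sum F0 p.2
  have k3 := ((splits_perm hp).map (· / (P.G * B))).sum_eq
  have k4 := splits_length hp
  rw [List.map_append, List.sum_append] at k3
  have k7 := (Nat.le_div_iff_mul_le F0).2 k1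
  have k8 : p.2.sum / (P.G * B) < (p.2.map (· / (P.G * B))).sum + max 1 p.2.length := by
    rcases Nat.eq_zero_or_pos p.2.length with h | h
    · rw [List.length_eq_zero_iff.1 h]
      simp
    · rw [max_eq_right h]
      exact (Nat.div_lt_iff_lt_mul F0).2 (by omega)
  unfold lamT
  rw [if_neg h0, if_neg (by simpa using h0), List.length_map]
  generalize look (p.1.map (· / (P.G * B))) 0 tb (P.z / P.G) = v
  generalize (p.1.map (· / (P.G * B))).sum = S at *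
  generalize p.2.sum / (P.G * B) = e at *
  obtain ⟨A, Bm, k, r1, r0, r2, r3, r4, r5⟩ := bl_spec K v p.1.length i
  refine ⟨A, Bm, k, r1, r0, r2, r3, ?_⟩
  by_cases hv : v = 0
  · obtain ⟨rfl, rfl, rfl⟩ := r4 hv
    rw [if_pos (Or.inl hv)]
    simp
  rw [if_neg (by push Not; exact ⟨hv, by omega, by omega, hc⟩)]
  obtain ⟨rfl, r6⟩ := r5 hv
  have r7 := r6 (P.N - e - S) (by omega) (by omega) (by omega) (by omega)
  have r8 := (Nat.cast_le (α := ℝ)).2 r7.1
  have r9 := (Nat.cast_le (α := ℝ)).2 r7.2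
  rw [Nat.cast_one]
  constructor <;> linarith

theorem kTc_tot {α : Type} (L : List α) {g : α → ℕ} {w ε : α → ℝ}
    (h : ∀ p ∈ L, ∃ A Bm k : ℕ, g p = A + Bm * 2 ^ 64 + k * 2 ^ 128 ∧ k ≤ 1 ∧ A ≤ 2 ^ 20 ∧
      Bm ≤ 2 ^ 20 ∧ (Bm : ℝ) - k * 524288 + ε p ≤ 4096 * w p ∧
      4096 * w p ≤ (A : ℝ) - k * 524288 + ε p) :
    ∃ A Bm k : ℕ, (L.map g).sum = A + Bm * 2 ^ 64 + k * 2 ^ 128 ∧ k ≤ L.length ∧
      A ≤ L.length * 2 ^ 20 ∧ Bm ≤ L.length * 2 ^ 20 ∧
      (Bm : ℝ) - k * 524288 + (L.map ε).sum ≤ 4096 * (L.map w).sum ∧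
      4096 * (L.map w).sum ≤ (A : ℝ) - k * 524288 + (L.map ε).sum := by
  induction L with
  | nil => exact ⟨0, 0, 0, by simp⟩
  | cons p L ih =>
    obtain ⟨A, Bm, k, h1, h0, h2, h3, h4, h5⟩ := h p List.mem_cons_self
    obtain ⟨A', Bm', k', k1, k0, k2, k3, k4, k5⟩ := ih fun q hq => h q (List.mem_cons_of_mem _ hq)
    simp only [List.map_cons, List.sum_cons, List.length_cons, add_mul, one_mul]
    refine ⟨A + A', Bm + Bm', k + k', by rw [h1, k1]; ring, by omega, by omega, by omega, ?_, ?_⟩ <;>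
      push_cast <;> linarith

theorem kTc_dig {α : Type} (L : List α) (hL : L.length ≤ 2 ^ 31) (K : ℕ) (v n : α → ℕ) {i : ℕ}
    (hi : i < K) : (L.map fun p => enr K (v p) (n p)).sum / 2 ^ (192 * i) % 2 ^ 192 =
      (L.map fun p => bl K (v p) (n p) i).sum := by
  have h1 : (L.map fun p => enr K (v p) (n p)).sum =
      ∑ i ∈ range K, (L.map fun p => bl K (v p) (n p) i).sum * (2 ^ 192) ^ i := by
    clear hL
    induction L with
    | nil => simp
    | cons p L ih =>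
      simp only [List.map_cons, List.sum_cons, add_mul, sum_add_distrib, ih]
      rw [enr_eq]
  rw [h1, pow_mul]
  refine kKDt_dig (fun j => ?_) hi
  have := List.sum_le_card_nsmul (L.map fun p => bl K (v p) (n p) j) (2 ^ 129) fun x hx => by
    obtain ⟨p, -, rfl⟩ := List.mem_map.1 hx
    obtain ⟨A, Bm, k, h1, h2, h3, h4, -⟩ := bl_spec K (v p) (n p) j
    omega
  rw [List.length_map, smul_eq_mul] at this
  omega

theorem cjob_spec {P : Par} {tb tc : Tr} {K a b : ℕ} (hs : Sm P) (hK : 0 < K)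
    (h : cjob P.N (P.z / P.G) K tb tc a b = 0) : TcK P tb tc K a b := by
  intro B δ pre x hB hδ H hl ha hb hV C hC hlt
  have p0 : pre ≠ [] := by
    rintro rfl
    simp at hl
    omega
  obtain ⟨r1, r2⟩ := kTc_last hs hB hδ H p0
  have h1 := H.sorted
  have h2 := kTc_low hB H
  have h3 := kTc_len hs hB H
  have h4 := hs.N1
  have h5 := mf_mm (p := []) (d := P.z / P.G) (by simp) h1 h2
  have h6 := ph_eq h1 0 (evk K tb 1) h2
  have h7 : ((pre ++ [x]).map (· / (P.G * B))).sum +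
      (P.N - (pre.map (· / (P.G * B))).sum - x / (P.G * B) - 1) + 1 = P.N := by
    simp only [List.map_append, List.sum_append, List.map_singleton, List.sum_singleton]
    omega
  have k0 := ckc_spec (j := x / (P.G * B)) (Q := pre.map (· / (P.G * B))) h (by omega)
    (by rwa [List.length_map]) hK (by simpa using h1)
    (fun y hy => h2 y (by rw [List.map_append]; exact List.mem_append_left _ hy)) (by omega)
    (by omega) (by rwa [zero_add]) (by rwa [zero_add]) hV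
  rw [← hC, ← List.map_singleton (f := (· / (P.G * B))), ← List.map_append, ← h6, splits_map,
    List.map_map] at k0
  have k9 : ∀ D, look D 0 (evk K tb 1) (P.z / P.G) = enr K (look D 0 tb (P.z / P.G)) D.length :=
    fun D => (look_evk K D 0 0 _ tb).trans (by rw [zero_add])
  simp only [Function.comp_def, k9, List.length_map] at k0
  have k6 : (splits (pre ++ [x])).length ≤ 2 ^ 31 := by
    rw [length_splits]
    exact Nat.pow_le_pow_right (by norm_num) (by omega)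
  have k7 := kTc_dig (splits (pre ++ [x])) k6 K
    (fun p => look (p.1.map (· / (P.G * B))) 0 tb (P.z / P.G)) (fun p => p.1.length)
    (i := P.N - (pre.map (· / (P.G * B))).sum - x / (P.G * B) - 1) (by omega)
  obtain ⟨A, Bm, u, k1, k8, k2, k3, k4, k5⟩ := kTc_tot (splits (pre ++ [x])) fun p hp =>
    kTc_term tb hs hB hδ H hK (by simp [hl]) h7 hp
  rw [kTc_nil] at k4 k5
  rw [k1] at k7
  obtain ⟨t1, t2⟩ := k0 hlt
  rw [List.nil_append] at h5
  rw [show 1 * mm 1 (P.z / P.G) ((pre ++ [x]).map (· / (P.G * B))) =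
    mf ((pre ++ [x]).map (· / (P.G * B))) from h5.symm] at t2
  generalize mf ((pre ++ [x]).map (· / (P.G * B))) = f at *
  generalize _ / 2 ^ (192 * (P.N - (pre.map (· / (P.G * B))).sum - x / (P.G * B) - 1)) = y at *
  rw [show y / 2 ^ 128 % 2 ^ 64 = u by omega] at t1 t2
  rw [show y % 2 ^ 64 = A by omega] at t1
  rw [show y / 2 ^ 64 % 2 ^ 64 = Bm by omega] at t2
  have t3 := (Nat.cast_le (α := ℝ)).2 t1
  have t4 := (Nat.cast_le (α := ℝ)).2 t2
  push_cast at t3 t4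
  unfold W
  constructor <;> linarith

set_option exponentiation.threshold 5000 in
theorem kTc_CT0 {i : ℕ} (hi : i ≤ 127) : CT0 / 2 ^ (32 * i) % 2 ^ 32 = 2 ^ 32 - 1 := by
  obtain ⟨n, hn, e⟩ : ∃ n, n = 4096 ∧ CT0 = 2 ^ n - 1 := ⟨_, rfl, by
    unfold CT0
    rw [Nat.pred_eq_sub_one, Nat.pow_eq]⟩
  refine Nat.eq_of_testBit_eq fun j => ?_
  rw [e, Nat.testBit_mod_two_pow, Nat.testBit_div_two_pow, Nat.testBit_two_pow_sub_one,
    Nat.testBit_two_pow_sub_one]
  by_cases h : j < 32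
  · simp [h, show j + 32 * i < n by omega]
  · simp [h]

theorem ldc_spec {P : Par} {tb tc : Tr} {B δ : ℕ} {los his : List ℕ} (hs : Sm P) (hB : 0 < B)
    (hδ : δ ≤ B) (hT : TcOK P tb tc) (hb : BoxOK P los his) (h0 : los ≠ []) (k : ℕ → ℕ → ℕ) :
    ∃ CT j, CTI P tb B δ los his CT j ∧ ldc P.G P.N (P.z / P.G) tc los k = k CT j := by
  have h4 := hs.N1
  have key : ∀ pre a, Bad P B δ los his pre a → pre ≠ [] := fun pre a H h =>
    h0 (List.length_eq_zero_iff.1 (by rw [H.box.len.1, h]; rfl))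
  simp only [ldc, fl_eq, fz_eq, iz_eq, cls_eq, sm_eq, ln_len, Nat.sub_eq, List.length_map]
  split_ifs with hV
  · refine ⟨_, _, fun pre a H => ⟨Nat.zero_le _, fun C hC hlt => ?_⟩, rfl⟩
    have := kTc_last hs hB hδ H.hyp (key pre a H)
    rw [kTc_CT0 (by omega)] at hC
    omega
  · refine ⟨_, _, fun pre a H => ?_, rfl⟩
    obtain ⟨r1, r2⟩ := kTc_last hs hB hδ H.hyp (key pre a H)
    have l1 := H.box.len.1
    rw [← hb.cells H.box] at hV ⊢
    have l2 : (pre.map (· / (P.G * B))).sum < 128 := ((Nat.le_add_left _ _).trans_lt r1).trans_le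
      (h4.trans (by norm_num))
    refine ⟨by rw [l1, Nat.sub_sub, Nat.sub_le_iff_le_add, ← add_assoc]; exact r2, hT _ (List.length_pos_iff.2 h0) B δ pre a hB hδ H.hyp l1.symm
      (Nat.zero_le _) ?_ hV⟩
    have := kf_le 562949953421312 (l := pre.map (· / (P.G * B))) fun z hz =>
      (List.single_le_sum (fun _ _ => Nat.zero_le _) z hz).trans_lt l2
    exact this.trans_lt (by norm_num)

end Pool.Agent.Work.MP_82fd4a_nt.P
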