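import Pool.Agent.Work.MP_82fd4a_nt.P.Mc
import Pool.Agent.Work.MP_82fd4a_nt.P.KCv
import Pool.Agent.Work.MP_82fd4a_nt.P.KEv
import Pool.Agent.Work.MP_82fd4a_nt.P.KCor
import Pool.Agent.Work.MP_82fd4a_nt.P.KNar
import Pool.Agent.Work.MP_82fd4a_nt.P.KRd
import Pool.Agent.Work.MP_82fd4a_nt.P.KLf
import Pool.Agent.Work.MP_82fd4a_nt.P.KTc

/-! The meaning of the machine. -/

set_option autoImplicit false
open Finset

namespace Pool.Agent.Work.MP_82fd4a_nt.P

open BS Y

theorem evp_eq (G M c0 Y0 : ℕ) (tq : Tr) (c : ℕ) (los : List ℕ) (sl sh : ℕ) (k : ℕ → ℕ → ℕ) :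
    evp G M c0 Y0 tq c los sl sh k = evq G M c0 Y0 tq c los sl sh k := by
  simp only [evp, evq, pf_eq, Nat.add_eq]

theorem kMc_nce {T n : ℕ} {l : List Ce} (h : ∀ ce ∈ l, CeOK T n ce) (i : ℕ) :
    CeOK T n (nce l i) := by
  induction l generalizing i with
  | nil => exact CeOK.nil T n
  | cons a l ih =>
    cases i with
    | zero => exact h a List.mem_cons_self
    | succ i => exact ih (fun ce hc => h ce (List.mem_cons_of_mem _ hc)) i

theorem kMc_void {P : Par} {tb : Tr} {B δ : ℕ} {κ : ℝ} {μ : ℕ → ℝ} {Ψ : List ℕ → ℝ}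
    {los his : List ℕ} (hx : Ctx P tb B δ κ μ Ψ) (hb : BoxOK P los his)
    (h : ∀ pre a, ¬ Bad P B δ los his pre a) : bs B μ los his Ψ ≤ 0 :=
  bs_nonpos hx.mass.1 hb.len fun p hp => (hx.dom p).elim id fun ⟨a, _, h2, h3, _⟩ =>
    absurd ⟨hp, h2, h3⟩ (h p a)

theorem kMc_low {P : Par} {B δ c : ℕ} {los his l h : List ℕ} (H : Low P B δ c los his)
    (s : ∀ p, InB B l h p → InB B los his p) : Low P B δ c l h :=
  ⟨H.1, fun pre ext hp => H.2 pre ext (s pre hp)⟩

theorem kMc_bad {P : Par} {B δ a : ℕ} {los his l h pre : List ℕ} (H : Bad P B δ l h pre a)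
    (s : ∀ p, InB B l h p → InB B los his p) : Bad P B δ los his pre a :=
  ⟨s pre H.box, H.hyp, H.bad⟩

theorem cl3_spec {P : Par} {tb tq tc : Tr} {Y0 B δ n c : ℕ} {κ : ℝ} {μ : ℕ → ℝ} {Ψ : List ℕ → ℝ}
    (hx : Ctx P tb B δ κ μ Ψ) (hq : ckr Y0 tb tq = 0) (hT : TcOK P tb tc) (h0 : 0 < n)
    (hn : n ≤ 30) (f : ℕ) : ∀ {los his : List ℕ} {CT j0 K s : ℕ} {CL : List Ce},
    BoxOK P los his → los.length = n → Low P B δ c los his → CTI P tb B δ los his CT j0 →
    MI P B δ los his K → (∀ ce ∈ CL, CeOK P.T n ce) →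
    cl3 P.G P.N (P.N * P.G) P.T (P.G / 32) (P.z / P.G) Y0 tb tq tc n c f los his CT j0 CL K s <
      BAD → bs B μ los his Ψ ≤ κ ^ n / 2 ^ 52 *
    cl3 P.G P.N (P.N * P.G) P.T (P.G / 32) (P.z / P.G) Y0 tb tq tc n c f los his CT j0 CL K s := by
  induction f with
  | zero => exact fun _ _ _ _ _ _ h => absurd h (lt_irrefl _)
  | succ f ih =>
    intro los his CT j0 K s CL hb hl hc hC hK hL h
    have hs := hx.sm
    have hB := hx.B0
    have hδ := hx.δB
    have l0 : los ≠ [] := by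
      rintro rfl
      simp at hl
      omega
    generalize hF : cl3 P.G P.N (P.N * P.G) P.T (P.G / 32) (P.z / P.G) Y0 tb tq tc n c f = F at ih
    have e : cl3 P.G P.N (P.N * P.G) P.T (P.G / 32) (P.z / P.G) Y0 tb tq tc n c (f + 1) los his CT
        j0 CL K s = fz (s % 4) fun o => iz o (fz (s >>> 2 % 4) fun o' => iz o'
        (fz (sm los) fun SL => fz (sm his) fun SH =>
          evp P.G (P.N * P.G) (P.z / P.G) Y0 tq c los SL SH fun CT' j' =>
            lf P.G (P.N * P.G) c los his SL SH CT' j')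
        (fz (s >>> 4) fun s' => il o' 1
          (rdc P.T n s' fun ce a => F los his CT j0 (ce :: CL) K a)
          (il o' 2 (nar (P.G / 32) K los his fun sl sh =>
              evl P.G P.N (P.N * P.G) (P.z / P.G) tb c los his sl sh fun CT' j' =>
                F los his CT' j' CL K s')
            (ldc P.G P.N (P.z / P.G) tc los fun CT' j' => F los his CT' j' CL K s'))))
      (il o 1 (fz (s >>> 2 % 4) fun g =>
          iz g (nar (P.G / 32) K los his fun sl sh => lf P.G (P.N * P.G) c los his sl sh CT j0)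
            (cvl (P.G / 32) P.G (P.N * P.G) c n los his K CT j0 g))
        (il o 2 (spl n los his (s >>> 2) fun l h a => F l h CT j0 CL K a)
          (clr (P.G / 32) (P.N * P.G) P.T n los his (nce CL (s >>> 2 % 32)) K fun K' =>
            fz (s >>> 7) fun s' => F los his CT j0 CL K' s'))) := by
      rw [← hF]
      rfl
    rw [e] at h ⊢
    clear e hF
    simp only [fz_eq, iz_eq, il_eq, sm_eq, evp_eq] at h ⊢
    split_ifs at h ⊢ with h1 h2 h3 h4 h5 h6 h7
    · obtain ⟨CT', j', k1, k2⟩ := evq_spec hs hB hδ hq hb l0 (by omega) hc (Nar_box l0)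
        fun CT' j' => lf P.G (P.N * P.G) c los his los.sum his.sum CT' j'
      rw [k2] at h ⊢
      exact hl ▸ lf_spec hx hb hc (Nar_box l0) k1 h
    · obtain ⟨ce, a, k1, k2⟩ := rdc_spec h
      rw [k2] at h ⊢
      exact ih hb hl hc hC hK (List.forall_mem_cons.2 ⟨k1, hL⟩) h
    · rcases nar_spec hs hB l0 hK fun sl sh => evl P.G P.N (P.N * P.G) (P.z / P.G) tb c los his sl
        sh fun CT' j' => F los his CT' j' CL K (s >>> 4) with ⟨k1, k2⟩ | ⟨sl, sh, k1, k2⟩
      · rw [k1, Nat.cast_zero, mul_zero]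
        exact kMc_void hx hb k2
      · obtain ⟨CT', j', k3, k4⟩ := evl_spec tb hs hB hδ hb l0 (by omega) hc k1
          fun CT' j' => F los his CT' j' CL K (s >>> 4)
        rw [k2, k4] at h ⊢
        exact ih hb hl hc k3 hK hL h
    · obtain ⟨CT', j', k3, k4⟩ := ldc_spec hs hB hδ hT hb l0
        fun CT' j' => F los his CT' j' CL K (s >>> 4)
      rw [k4] at h ⊢
      exact ih hb hl hc k3 hK hL h
    · rcases nar_spec hs hB l0 hK fun sl sh => lf P.G (P.N * P.G) c los his sl sh CT j0 with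
        ⟨k1, k2⟩ | ⟨sl, sh, k1, k2⟩
      · rw [k1, Nat.cast_zero, mul_zero]
        exact kMc_void hx hb k2
      · rw [k2] at h ⊢
        exact hl ▸ lf_spec hx hb hc k1 hC h
    · exact cvl_spec hx hb hl h0 hc hC hK (by omega) h
    · obtain ⟨his', los', a, b, k1, k2, k3, k4, k5, k6, k7⟩ := spl_spec B μ hb hl h
      rw [k1] at h ⊢
      rw [k7, Nat.cast_add, mul_add]
      exact add_le_add
        (ih k2 hl (kMc_low hc k5) (fun p a H => hC p a (kMc_bad H k5))
          (fun p a H => hK p a (kMc_bad H k5)) hL (by omega))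
        (ih k3 k4 (kMc_low hc k6) (fun p a H => hC p a (kMc_bad H k6))
          (fun p a H => hK p a (kMc_bad H k6)) hL (by omega))
    · obtain ⟨K', k1, k2⟩ := clr_spec hs hB hδ hb hl h0 hn (kMc_nce hL _) hK h
      rw [k2] at h ⊢
      exact ih hb hl hc hC k1 hL h

theorem kMc_zero {B M : ℕ} {μ : ℕ → ℝ} {Ψ : List ℕ → ℝ} {los his : List ℕ} {κ : ℝ} (hκ : 1 ≤ κ)
    (hμ : ∀ a, 0 ≤ μ a) (hl : los.length = his.length) (r : ℕ) :
    bs B μ los his (tot M μ Ψ 0) ≤ κ ^ 30 / 2 ^ 52 * r :=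
  (bs_nonpos hμ hl fun _ _ => le_rfl).trans (by positivity)

theorem kMc_cl {P : Par} {tb tq tc : Tr} {Y0 B δ n c s : ℕ} {κ : ℝ} {μ : ℕ → ℝ} {Ψ : List ℕ → ℝ}
    {los his : List ℕ} (hx : Ctx P tb B δ κ μ Ψ) (hq : ckr Y0 tb tq = 0) (hT : TcOK P tb tc)
    (h0 : 0 < n) (hn : n ≤ 30) (hb : BoxOK P los his) (hl : los.length = n)
    (hc : Low P B δ c los his) {r : ℕ} (hr : r = cl3 P.G P.N (P.N * P.G) P.T (P.G / 32) (P.z / P.G)
      Y0 tb tq tc n c 250 los his CT0 0 [] CT0 s) (h : r < BAD) :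
    bs B μ los his Ψ ≤ κ ^ 30 / 2 ^ 52 * r := by
  have := cl3_spec hx hq hT h0 hn 250 hb hl hc (CT0_spec tb los his hx.sm hx.B0)
    (MI_CT0 los his hx.sm hx.B0) (CL := []) (by simp) (hr ▸ h)
  rw [← hr] at this
  have h1 := pow_le_pow_right₀ hx.κ1 hn
  exact this.trans (by gcongr)

theorem op3_spec {P : Par} {tb tq tc : Tr} {Y0 B δ : ℕ} {κ : ℝ} {μ : ℕ → ℝ} {Ψ : List ℕ → ℝ}
    (hx : Ctx P tb B δ κ μ Ψ) (hq : ckr Y0 tb tq = 0) (hT : TcOK P tb tc) (f : ℕ) :
    ∀ {n c s g : ℕ} {los his : List ℕ}, 0 < n → n + g ≤ 31 → BoxOK P los his → los.length = n →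
    Low P B δ c los his →
    op3 P.G P.N (P.N * P.G) P.T (P.G / 32) P.z (P.z / P.G) Y0 tb tq tc f n c los his s < BAD →
    bs B μ los his (tot (P.N * (P.G * B)) μ Ψ g) ≤ κ ^ 30 / 2 ^ 52 *
    op3 P.G P.N (P.N * P.G) P.T (P.G / 32) P.z (P.z / P.G) Y0 tb tq tc f n c los his s := by
  induction f with
  | zero => exact fun _ _ _ _ _ h => absurd h (lt_irrefl _)
  | succ f ih =>
    intro n c s g los his h0 hg hb hl hc h
    cases g with
    | zero => exact kMc_zero hx.κ1 hx.mass.1 hb.len _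
    | succ g =>
      obtain ⟨a, b, e⟩ : ∃ a b, op3 P.G P.N (P.N * P.G) P.T (P.G / 32) P.z (P.z / P.G) Y0 tb tq tc
          (f + 1) n c los his s = cl3 P.G P.N (P.N * P.G) P.T (P.G / 32) (P.z / P.G) Y0 tb tq tc n
          c 250 los his CT0 0 [] CT0 a + fz (n + 1) fun n' => xp P.G (P.N * P.G) P.z c los his b
            fun d l h u => op3 P.G P.N (P.N * P.G) P.T (P.G / 32) P.z (P.z / P.G) Y0 tb tq tc f n' d
              l h u := tk_eq s _
      rw [e, fz_eq] at h ⊢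
      rw [Nat.cast_add, mul_add]
      refine (xp_spec hx hb hc (fun d l h u k1 k2 k3 k4 => ?_) (by omega)).trans
        (add_le_add_left (kMc_cl hx hq hT h0 (by omega) hb hl hc rfl (by omega)) _)
      exact ih (by omega) (by omega) k1 (by omega) k2 k4

/-- what a job bounds -/
noncomputable def tgt (M : ℕ) (μ : ℕ → ℝ) (Ψ : List ℕ → ℝ) (o g : ℕ) : List ℕ → ℝ :=
  if o = 0 then Ψ else tot M μ Ψ g

theorem kMc_eql {l m : List ℕ} (h : eql l m = 0) : l = m := by
  induction l generalizing m with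
  | nil =>
    cases m with
    | nil => rfl
    | cons b m => exact absurd h Nat.one_ne_zero
  | cons a l ih =>
    cases m with
    | nil => exact absurd h Nat.one_ne_zero
    | cons b m =>
      have e : eql (a :: l) (b :: m) = Bool.rec 1 (eql l m) (Nat.beq a b) := rfl
      rw [e] at h
      cases hb : Nat.beq a b with
      | false => rw [hb] at h; exact absurd h Nat.one_ne_zero
      | true =>
        rw [hb] at h
        rw [Nat.eq_of_beq_eq_true hb, ih h]

theorem run3_node {G N M T U z c0 Y0 : ℕ} {tb tq tc : Tr} {a b : Jt}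
    (ha : run3 G N M T U z c0 Y0 tb tq tc a = 0) (hb : run3 G N M T U z c0 Y0 tb tq tc b = 0) :
    run3 G N M T U z c0 Y0 tb tq tc (Jt.node a b) = 0 :=
  Nat.add_eq_zero_iff.2 ⟨ha, hb⟩

theorem orc_spec3 {G N M T U z c0 Y0 o c : ℕ} {tb tq tc : Tr} {los his : List ℕ} {J : Jt}
    (hJ : run3 G N M T U z c0 Y0 tb tq tc J = 0) {i : ℕ} (h : orc o c los his J i < BAD) :
    ∃ s, job3 G N M T U z c0 Y0 tb tq tc o c los his s ≤ orc o c los his J i := by
  induction J generalizing i with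
  | leaf o' c' l h' r s =>
    have e : orc o c los his (Jt.leaf o' c' l h' r s) i =
      iz (eql (o :: c :: los) (o' :: c' :: l) + eql his h') r BAD := rfl
    have e' : run3 G N M T U z c0 Y0 tb tq tc (Jt.leaf o' c' l h' r s) =
      il (job3 G N M T U z c0 Y0 tb tq tc o' c' l h' s) r 0 1 := rfl
    rw [e, iz_eq] at h ⊢
    rw [e', il_eq] at hJ
    split_ifs at h hJ ⊢ with h1 h2
    · obtain ⟨k1, k2⟩ := Nat.add_eq_zero_iff.1 h1
      obtain ⟨rfl, k3⟩ := List.cons.inj (kMc_eql k1)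
      obtain ⟨rfl, rfl⟩ := List.cons.inj k3
      obtain rfl := kMc_eql k2
      exact ⟨s, h2⟩
    · exact absurd h (lt_irrefl _)
  | node a b iha ihb =>
    have e : orc o c los his (Jt.node a b) i = fz (i / 2) fun i' =>
      iz (i % 2) (orc o c los his a i') (orc o c los his b i') := rfl
    obtain ⟨ha, hb⟩ := Nat.add_eq_zero_iff.1 hJ
    rw [e, fz_eq, iz_eq] at h ⊢
    split_ifs at h ⊢
    exacts [iha ha h, ihb hb h]

theorem cv_spec3 {P : Par} {tb tq tc : Tr} {Y0 B δ : ℕ} {κ : ℝ} {μ : ℕ → ℝ} {Ψ : List ℕ → ℝ}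
    {J : Jt} (hx : Ctx P tb B δ κ μ Ψ) (hq : ckr Y0 tb tq = 0) (hT : TcOK P tb tc)
    (hJ : run3 P.G P.N (P.N * P.G) P.T (P.G / 32) P.z (P.z / P.G) Y0 tb tq tc J = 0) (f : ℕ) :
    ∀ {o n c s g : ℕ} {los his : List ℕ}, 0 < n → n + g ≤ 31 → (o = 0 → n ≤ 30) →
    BoxOK P los his → los.length = n → Low P B δ c los his →
    cv P.G (P.N * P.G) P.z J f o n c los his s < BAD →
    bs B μ los his (tgt (P.N * (P.G * B)) μ Ψ o g) ≤ κ ^ 30 / 2 ^ 52 *
      cv P.G (P.N * P.G) P.z J f o n c los his s := by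
  induction f with
  | zero => exact fun _ _ _ _ _ _ h => absurd h (lt_irrefl _)
  | succ f ih =>
    intro o n c s g los his h0 hg ho hb hl hc h
    generalize hF : cv P.G (P.N * P.G) P.z J f = F at ih
    have e : cv P.G (P.N * P.G) P.z J (f + 1) o n c los his s = fz (s % 4) fun u =>
      iz u (orc o c los his J (s >>> 2)) (il u 2
        (spl n los his (s >>> 2) fun l h a => F o n c l h a)
        (iz o BAD (tk (s >>> 2) fun a b => F 0 n c los his a + fz (n + 1) fun n' =>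
          xp P.G (P.N * P.G) P.z c los his b fun d l h u => F 1 n' d l h u))) := by
      rw [← hF]
      rfl
    rw [e] at h ⊢
    clear e hF
    simp only [fz_eq, iz_eq, il_eq] at h ⊢
    split_ifs at h ⊢ with h1 h2 h3
    · obtain ⟨s', k1⟩ := orc_spec3 hJ h
      have k2 := (Nat.cast_le (α := ℝ)).2 k1
      have k3 := k1.trans_lt h
      have k4 := hx.κ1
      refine le_trans ?_ (mul_le_mul_of_nonneg_left k2 (by positivity))
      simp only [job3, fz_eq, iz_eq, ln_len, hl, tgt] at k3 ⊢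
      split_ifs at k3 ⊢ with h4
      · exact kMc_cl hx hq hT h0 (ho h4) hb hl hc rfl k3
      · exact op3_spec hx hq hT 40 h0 hg hb hl hc k3
    · obtain ⟨his', los', a, b, k1, k2, k3, k4, k5, k6, k7⟩ := spl_spec B μ hb hl h
      rw [k1] at h ⊢
      rw [k7, Nat.cast_add, mul_add]
      exact add_le_add (ih h0 hg ho k2 hl (kMc_low hc k5) (by omega))
        (ih h0 hg ho k3 k4 (kMc_low hc k6) (by omega))
    · exact absurd h (lt_irrefl _)
    · rw [tgt, if_neg h3]
      cases g with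
      | zero => exact kMc_zero hx.κ1 hx.mass.1 hb.len _
      | succ g =>
        obtain ⟨a, b, e⟩ := tk_eq (s >>> 2) fun a b => F 0 n c los his a +
          xp P.G (P.N * P.G) P.z c los his b fun d l h u => F 1 (n + 1) d l h u
        rw [e] at h ⊢
        rw [Nat.cast_add, mul_add]
        refine (xp_spec hx hb hc (fun d l h u k1 k2 k3 k4 => ?_) (by omega)).trans
          (add_le_add_left (ih (o := 0) (g := 0) h0 (by omega) (by omega) hb hl hc (by omega)) _)
        exact ih (o := 1) (by omega) (by omega) (by omega) k1 (by omega) k2 k4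

theorem top_spec3 {P : Par} {tb tq tc : Tr} {Y0 B δ s : ℕ} {κ : ℝ} {μ : ℕ → ℝ} {Ψ : List ℕ → ℝ}
    {J : Jt} (hx : Ctx P tb B δ κ μ Ψ) (hq : ckr Y0 tb tq = 0) (hT : TcOK P tb tc)
    (hJ : run3 P.G P.N (P.N * P.G) P.T (P.G / 32) P.z (P.z / P.G) Y0 tb tq tc J = 0)
    (h : top P.G (P.N * P.G) P.z (P.z / P.G) J s < BAD) :
    tot (P.N * (P.G * B)) μ Ψ 31 [] ≤ κ ^ 30 / 2 ^ 52 * top P.G (P.N * P.G) P.z (P.z / P.G) J s := by
  have h1 := xp_spec (f := 30) (K := κ ^ 30 / 2 ^ 52) hx BoxOK.nil (c := P.z / P.G)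
    ⟨le_rfl, fun pre ext _ H y hy => kTc_low hx.B0 H _
      (List.mem_map_of_mem (List.mem_append_right _ hy))⟩
    (fun d l h u k1 k2 k3 k4 => cv_spec3 hx hq hT hJ 250 (o := 1) (n := 1) (g := 30) one_pos le_rfl
      (by omega) k1 k3 k2 k4) h
  have h2 : Ψ [] ≤ 0 := (hx.dom []).elim id fun ⟨_, h, _⟩ => absurd rfl h
  exact h1.trans (add_le_of_nonpos_left h2)

end Pool.Agent.Work.MP_82fd4a_nt.P
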