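import Pool.Agent.Work.MP_82fd4a_nt.P.Au
import Pool.Agent.Work.MP_82fd4a_nt.P.KMc

/-! The faster evaluation bounds the slower one. -/

set_option autoImplicit false
open Finset

namespace Pool.Agent.Work.MP_82fd4a_nt.P

open BS Y

theorem kAu_E1 (k : ℕ) : E1 k = pack 156 k fun _ => 1 := by
  have h : 2 ^ (156 * k) = 91343852333181432387730302044767688728495783935 *
      pack 156 k (fun _ => 1) + 1 := by
    induction k with
    | zero => simp
    | succ k ih =>
      rw [pack_succ', Nat.mul_succ, pow_add, mul_add, add_right_comm, ← ih]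
      norm_num
      ring
  have e : E1 k = 2 ^ (156 * k) / 91343852333181432387730302044767688728495783935 := rfl
  rw [e, h]
  omega

theorem kAu_cE (c k : ℕ) : c * E1 k = pack 156 k fun _ => c := by
  rw [kAu_E1, pack_smul]
  simp

theorem kAu_dig (x k : ℕ) : x % 2 ^ (156 * k) = pack 156 k fun i => x >>> (156 * i) % 2 ^ 156 := by
  induction k with
  | zero => simp [Nat.mod_one]
  | succ k ih =>
    rw [pack_succ', ← ih, Nat.mul_succ, pow_add, Nat.mod_mul, Nat.shiftRight_eq_div_pow,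
      mul_comm (2 ^ (156 * k))]

theorem kAu_top {r i : ℕ} (hi : i < 128)
    (h : Nat.land r (Nat.mul 91343841444145690917699471216780250911913017344 (E1 128)) = 0) :
    r >>> (156 * i) % 2 ^ 156 < 2 ^ 133 := by
  rw [Nat.mul_eq, Nat.land_eq] at h
  have h1 : (r >>> (156 * i) % 2 ^ 156) &&& 91343841444145690917699471216780250911913017344 = 0 := by
    have h2 := congrArg (fun x => x >>> (156 * i) % 2 ^ 156) h
    simp only [Nat.shiftRight_and_distrib, Nat.and_mod_two_pow] at h2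
    rw [kAu_cE, pack_lane hi fun _ _ => by norm_num] at h2
    simpa using h2
  have h3 : r >>> (156 * i) % 2 ^ 156 < 2 ^ 156 := Nat.mod_lt _ (by positivity)
  generalize r >>> (156 * i) % 2 ^ 156 = x at *
  refine Nat.lt_pow_two_of_testBit x fun j hj => ?_
  by_cases h4 : j < 156
  · have h5 := congrArg (fun y => Nat.testBit y j) h1
    rw [show 91343841444145690917699471216780250911913017344 = (2 ^ 23 - 1) <<< 133 by norm_num
      [Nat.shiftLeft_eq]] at h5
    simp only [Nat.testBit_and, Nat.testBit_shiftLeft, Nat.testBit_two_pow_sub_one, Nat.zero_testBit,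
      ge_iff_le, hj, decide_true, show j - 133 < 23 by omega, Bool.and_true] at h5
    exact h5
  · exact Nat.testBit_lt_two_pow (h3.trans_le (Nat.pow_le_pow_right (by norm_num) (by omega)))

theorem kAu_mxf (n V X : ℕ) :
    X ≤ mxf n V X ∧ ∀ i < n, V >>> (156 * i) % 2 ^ 156 ≤ mxf n V X := by
  induction n generalizing V X with
  | zero => exact ⟨le_rfl, fun i hi => absurd hi (Nat.not_lt_zero i)⟩
  | succ n ih =>
    have e : mxf (n + 1) V X = mxf n (V >>> 156) (X + (V % 2 ^ 156 - X)) := rfl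
    have e' : mxf (n + 1) V X = mxf n (V >>> 156) (max X (V % 2 ^ 156)) := by
      rw [e]
      congr 1
      omega
    obtain ⟨h1, h2⟩ := ih (V >>> 156) (max X (V % 2 ^ 156))
    rw [e']
    refine ⟨(le_max_left _ _).trans h1, fun i hi => ?_⟩
    rcases i with _ | i
    · exact (le_max_right _ _).trans h1
    · rw [Nat.mul_succ, add_comm, Nat.shiftRight_add]
      exact h2 i (by omega)

theorem kAu_mxl {n V c : ℕ} (h : ∀ i < n, V >>> (32 * i) % 2 ^ 32 ≤ c) : mxl n V ≤ c := by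
  induction n generalizing V with
  | zero => exact Nat.zero_le c
  | succ n ih =>
    have e : mxl (n + 1) V = fz (V % 2 ^ 32) fun u => fz (mxl n (V >>> 32)) fun b => mx u b := rfl
    rw [e, fz_eq, fz_eq, mx_eq]
    refine max_le (h 0 (by omega)) (ih fun i hi => ?_)
    rw [← Nat.shiftRight_add, add_comm, ← Nat.mul_succ]
    exact h (i + 1) (by omega)

theorem kAu_lf4 {N jl a b u C : ℕ} (h : lf4 N jl a b u C < BAD) : u = 0 ∧ ∀ C' ≤ C,
    iz C' 0 (il 2147483648 C' BAD (C' * a * (N * 1099511627776) / (b * jl) + 1)) ≤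
      lf4 N jl a b u C := by
  have e : lf4 N jl a b u C = (C - (C - 1)) * (C * a * (N * 1099511627776) / (b * jl) + 1) +
    (u + C >>> 31) <<< 120 := rfl
  rw [e, BAD_eq, Nat.shiftLeft_eq, Nat.shiftRight_eq_div_pow] at h
  rw [e]
  refine ⟨by omega, fun C' hC => ?_⟩
  rw [iz_eq, il_eq]
  split_ifs with h1 h2
  · exact Nat.zero_le _
  · omega
  · rw [show C - (C - 1) = 1 by omega, one_mul]
    refine le_add_right (Nat.succ_le_succ ?_)
    gcongr

theorem kAu_ceil (x f m : ℕ) (hf : 0 < f) (hm : 0 < m) :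
    (x + (f * m - 1)) / (f * m) = ((x + (m - 1)) / m + (f - 1)) / f := by
  obtain ⟨f, rfl⟩ := Nat.exists_eq_add_one_of_ne_zero hf.ne'
  obtain ⟨m, rfl⟩ := Nat.exists_eq_add_one_of_ne_zero hm.ne'
  rw [← Nat.add_mul_div_right _ _ hm, Nat.div_div_eq_div_mul, mul_comm (m + 1)]
  congr 1
  simp only [Nat.add_sub_cancel, add_mul, mul_add]
  omega

/-- the lanes -/
theorem kAu_lf0 {N jl k a b f m u C : ℕ} {t : ℕ → ℕ} (hf : 0 < f)
    (ht : u = 0 → ∀ i < k + 1, t i < 2 ^ 134) {W : ℕ} (hW : W = pack 156 (k + 1) t)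
    (hC : ∀ c, (∀ i < k + 1, 4096 + t i % 2 ^ 52 ≤ t i / 2 ^ 104 * 524288 ∧
      (t i / 2 ^ 104 * 524288 - (4096 + t i / 2 ^ 52 % 2 ^ 52) +
        (f * (if i = 0 then m + 1 else 1) - 1)) / (f * if i = 0 then m + 1 else 1) ≤ c) → C ≤ c)
    (h : lf0 N jl k a b f m u W < BAD) :
    iz C 0 (il 2147483648 C BAD (C * a * (N * 1099511627776) / (b * jl) + 1)) ≤
      lf0 N jl k a b f m u W := by
  obtain ⟨P, hP⟩ : ∃ P, P = W &&& 20282409603651670423947251286015 * E1 (k + 1) := ⟨_, rfl⟩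
  obtain ⟨A, hA⟩ : ∃ A, A = W &&& 4503599627370495 * E1 (k + 1) := ⟨_, rfl⟩
  obtain ⟨O, hO⟩ : ∃ O, O = (W - P) >>> 85 + 1152921504606842880 * E1 (k + 1) := ⟨_, rfl⟩
  obtain ⟨Y, hY⟩ : ∃ Y, Y = O - (P - A) >>> 52 := ⟨_, rfl⟩
  obtain ⟨X, hX⟩ : ∃ X, X = mxf k (Y >>> 156) (1152921504606846976 +
    (Y % 2 ^ 156 - 1152921504606846976 + m) / (m + 1)) := ⟨_, rfl⟩
  have e : lf0 N jl k a b f m u W = lf4 N jl a b (u + (((O - A) &&& 1152921504606846976 * E1 (k + 1))
      ^^^ 1152921504606846976 * E1 (k + 1))) ((X - 1152921504606846976 + (f - 1)) / f) := by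
    rw [hX, hY, hO, hA, hP]
    rfl
  rw [e] at h ⊢
  obtain ⟨h0, h⟩ := kAu_lf4 h
  obtain ⟨h1, h2⟩ := Nat.add_eq_zero_iff.1 h0
  replace ht := ht h1
  have ht' : ∀ i < k + 1, t i < 2 ^ 156 := fun i hi => (ht i hi).trans (by norm_num)
  have p1 : P = pack 156 (k + 1) fun i => t i % 2 ^ 104 := by
    rw [hP, hW, kAu_cE, pack_land ht' fun _ _ => by norm_num]
    exact pack_congr fun i _ => Nat.and_two_pow_sub_one_eq_mod (t i) 104
  have p2 : A = pack 156 (k + 1) fun i => t i % 2 ^ 52 := by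
    rw [hA, hW, kAu_cE, pack_land ht' fun _ _ => by norm_num]
    exact pack_congr fun i _ => Nat.and_two_pow_sub_one_eq_mod (t i) 52
  have p3 : O = pack 156 (k + 1) fun i => t i / 2 ^ 104 * 524288 + 1152921504606842880 := by
    rw [hO, hW, p1, pack_sub fun i _ => Nat.mod_le _ _, pack_shiftRight_dvd 85 fun i _ => by omega,
      kAu_cE, pack_add]
    exact pack_congr fun i _ => by omega
  have p4 : (P - A) >>> 52 = pack 156 (k + 1) fun i => t i / 2 ^ 52 % 2 ^ 52 := by
    rw [p1, p2, pack_sub fun i _ => by omega, pack_shiftRight_dvd 52 fun i _ => by omega]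
    exact pack_congr fun i _ => by omega
  rw [p4, p3, pack_sub fun i _ => by omega] at hY
  rw [p3, p2, pack_sub fun i _ => by omega, Nat.xor_eq_zero_iff, kAu_cE,
    pack_land (fun i hi => by have := ht i hi; omega) fun _ _ => by norm_num] at h2
  have p5 := pack_inj (fun i _ => Nat.and_le_right.trans_lt (by norm_num))
    (fun _ _ => by norm_num) h2
  have p6 : ∀ i < k + 1, Y >>> (156 * i) % 2 ^ 156 =
      t i / 2 ^ 104 * 524288 + 1152921504606842880 - t i / 2 ^ 52 % 2 ^ 52 := fun i hi => by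
    rw [hY, pack_lane hi fun i hi => by have := ht i hi; omega]
  obtain ⟨q1, q2⟩ := kAu_mxf k (Y >>> 156) (1152921504606846976 +
    (Y % 2 ^ 156 - 1152921504606846976 + m) / (m + 1))
  rw [← hX] at q1 q2
  refine h _ (hC _ fun i hi => ⟨?_, ?_⟩)
  · have h3 := p5 i hi
    have h4 := ht i hi
    rw [show (1152921504606846976 : ℕ) = 2 ^ 60 by norm_num, land_top (by omega)] at h3
    split_ifs at h3 with h5
    omega
  · rcases i with _ | i
    · have h3 := p6 0 hi
      rw [mul_zero, Nat.shiftRight_zero] at h3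
      rw [if_pos rfl, kAu_ceil _ _ _ hf (Nat.succ_pos m)]
      refine Nat.div_le_div_right (Nat.add_le_add_right ?_ _)
      rw [h3] at q1
      have h4 : t 0 / 2 ^ 104 * 524288 - (4096 + t 0 / 2 ^ 52 % 2 ^ 52) =
        t 0 / 2 ^ 104 * 524288 + 1152921504606842880 - t 0 / 2 ^ 52 % 2 ^ 52 -
          1152921504606846976 := by omega
      rw [h4, Nat.succ_sub_one]
      exact Nat.le_sub_of_add_le' q1
    · have h3 := p6 (i + 1) hi
      have h4 := q2 i (by omega)
      rw [← Nat.shiftRight_add, show 156 + 156 * i = 156 * (i + 1) by ring, h3] at h4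
      rw [if_neg (Nat.succ_ne_zero i), mul_one]
      refine Nat.div_le_div_right (Nat.add_le_add_right ?_ _)
      have key : ∀ x y : ℕ, x + 1152921504606842880 - y ≤ X →
        x - (4096 + y) ≤ X - 1152921504606846976 := fun x y => by omega
      exact key _ _ h4

theorem kAu_ms {G : ℕ} (hG : 0 < G) (cs : List ℕ) (A B : ℕ) :
    ms (cs.map (· * G)) (cs.map fun d => (d + 1) * G) A B = A * pa cs / (B * pb cs) + 1 := by
  induction cs generalizing A B with
  | nil =>
    rw [show pa [] = 1 from rfl, show pb [] = 1 from rfl, mul_one, mul_one]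
    rfl
  | cons d t ih =>
    have e : ms ((d :: t).map (· * G)) ((d :: t).map fun d => (d + 1) * G) A B =
      ms (t.map (· * G)) (t.map fun d => (d + 1) * G)
        (A * ((d + 1) * G * ((d + 1) * G) - d * G * (d * G))) (B * (2 * ((d + 1) * G * (d * G)))) :=
      rfl
    have e1 : pa (d :: t) = pa t * (2 * d + 1) := rfl
    have e2 : pb (d :: t) = pb t * (2 * (d * (d + 1))) := rfl
    rw [e, ih, e1, e2, show (d + 1) * G * ((d + 1) * G) = d * G * (d * G) + (2 * d + 1) * (G * G) by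
      ring, Nat.add_sub_cancel_left,
      ← Nat.mul_div_mul_right (A * (pa t * _)) _ (Nat.mul_pos hG hG)]
    congr 2 <;> ring

theorem kAu_mf (cs : List ℕ) (j : ℕ) : mf (cs ++ [j]) = mf cs * (cs.count j + 1) := by
  induction cs with
  | nil => simp [mf]
  | cons a t ih =>
    rw [List.cons_append, mf, ih, mf, List.count_append, List.count_cons, List.count_cons]
    by_cases h : a = j
    · subst h
      simp
      ring
    · have h' : ¬ j = a := fun e => h e.symm
      simp [h, h']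
      ring

theorem kAu_sum (G : ℕ) (cs : List ℕ) : (cs.map (· * G)).sum = cs.sum * G ∧
    (cs.map fun d => (d + 1) * G).sum = (cs.sum + cs.length) * G := by
  induction cs with
  | nil => simp
  | cons d t ih =>
    simp only [List.map_cons, List.sum_cons, List.length_cons, ih.1, ih.2]
    constructor <;> ring

/-- the value of a box without instruction -/
noncomputable def Fv (G M c0 Y0 : ℕ) (tq : Tr) (c : ℕ) (los his : List ℕ) : ℕ :=
  evp G M c0 Y0 tq c los (sm los) (sm his) fun CT' j' => lf G M c los his (sm los) (sm his) CT' j'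

theorem kAu_lfd {G N c0 Y0 c : ℕ} {tq : Tr} {cs : List ℕ} (hG : 0 < G) (h0 : 0 < c0)
    (hN : N ≤ 120) (hc : c0 ≤ c) (hl : ∀ x ∈ cs, x ≤ c) {r : ℕ} (hr : r = pf cs tq c0 Y0)
    (h : lfd N c0 c (N - cs.sum) cs.length (pa cs) (pb cs) (mf cs) (cs.count c) r < BAD) :
    Fv G (N * G) c0 Y0 tq c (cs.map (· * G)) (cs.map fun d => (d + 1) * G) ≤
      lfd N c0 c (N - cs.sum) cs.length (pa cs) (pb cs) (mf cs) (cs.count c) r := by
  obtain ⟨R, hR⟩ : ∃ R, R = N - cs.sum := ⟨_, rfl⟩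
  obtain ⟨jl, hj⟩ : ∃ jl, jl = c + (R - cs.length - c) := ⟨_, rfl⟩
  have e0 : lfd N c0 c (N - cs.sum) cs.length (pa cs) (pb cs) (mf cs) (cs.count c) r =
    lfe N c0 c R jl (pa cs) (pb cs) (mf cs) (cs.count c) r := by rw [hj, hR]; rfl
  rw [e0] at h ⊢
  have s1 : N * G - (cs.sum + cs.length) * G = (R - cs.length) * G := by
    rw [← Nat.sub_mul, hR, Nat.sub_sub]
  have s2 : max c ((N * G - (cs.sum + cs.length) * G) / G) = jl := by
    rw [s1, Nat.mul_div_cancel _ hG]
    omega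
  have s3 : (N * G - cs.sum * G - 1) / G + 1 - jl = R - jl := by
    rw [← Nat.sub_mul, ← hR]
    rcases R with _ | R
    · simp
      omega
    · rw [show (R + 1) * G - 1 = G - 1 + G * R by rw [add_mul, mul_comm R]; omega,
        Nat.add_mul_div_left _ _ hG, Nat.div_eq_of_lt (by omega), zero_add]
  have s4 : max (jl * G) (N * G - 1 - (cs.sum + cs.length) * G) = jl * G := by
    have : (R - cs.length) * G ≤ jl * G := Nat.mul_le_mul_right _ (by omega)
    omega
  have s5 : (cs.map (· * G)).map (· / G) = cs := by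
    rw [List.map_map]
    simp [Function.comp_def, Nat.mul_div_cancel _ hG]
  obtain ⟨C, hC⟩ : ∃ C, C = mxl (R - jl) (evs (eq1 c0 r cs) (R - jl) jl) := ⟨_, rfl⟩
  have e1 : Fv G (N * G) c0 Y0 tq c (cs.map (· * G)) (cs.map fun d => (d + 1) * G) =
      iz C 0 (il 2147483648 C BAD (C * pa cs * (N * 1099511627776) / (pb cs * jl) + 1)) := by
    have e : ∀ l h : List ℕ, Fv G (N * G) c0 Y0 tq c l h = fl (cls G l) fun cs =>
      fz (mx c ((N * G - sm h) / G)) fun jl => fz (pf cs tq c0 Y0) fun r =>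
      fz (evs (eq1 c0 r cs) ((N * G - sm l - 1) / G + 1 - jl) jl) fun C =>
      fz (C <<< 32 + C % 4294967291) fun CT => fz (mx c ((N * G - sm h) / G)) fun j =>
      fz (mxl ((N * G - sm l - 1) / G + 1 - j) (CT >>> (32 * (j - jl + 1)))) fun C =>
      iz C 0 (il 2147483648 C BAD (ms l h (C * (N * G) * 1099511627776)
        (mx (j * G) (N * G - 1 - sm h)))) := fun _ _ => rfl
    rw [e]
    simp only [fl_eq, fz_eq, mx_eq, sm_eq, cls_eq, (kAu_sum G cs).1, (kAu_sum G cs).2, s5, s2, s3,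
      s4, kAu_ms hG, ← hr, Nat.sub_self]
    have s6 : ∀ x : ℕ, (x <<< 32 + x % 4294967291) >>> (32 * (0 + 1)) = x := fun x => by
      rw [Nat.shiftLeft_eq, Nat.shiftRight_eq_div_pow]
      omega
    rw [s6, ← hC, ← Nat.mul_div_mul_right (C * pa cs * _) _ hG]
    congr 4 <;> ring
  rw [e1]
  have e2 : ∀ k, R - jl = k → lfe N c0 c R jl (pa cs) (pb cs) (mf cs) (cs.count c) r =
      Nat.rec (motive := fun _ => ℕ) 0 (fun k _ => lf0 N jl k (pa cs) (pb cs) (mf cs)
        (cs.count c * (1 - (jl - c)))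
        (Nat.land r (Nat.mul 91343841444145690917699471216780250911913017344 (E1 128)))
        (r >>> (156 * (jl - c0 + 1)) % 2 ^ (156 * (k + 1)) + r % 2 ^ 156 * E1 (k + 1))) k :=
    fun k hk => by rw [← hk]; rfl
  obtain ⟨k, hk⟩ : ∃ k, R - jl = k := ⟨_, rfl⟩
  rw [e2 k hk] at h ⊢
  rw [hk] at hC
  rcases k with _ | k
  · rw [hC]
    exact le_rfl
  refine kAu_lf0 (mf_pos cs) (t := fun i => r % 2 ^ 156 + r >>> (156 * (jl + i - c0 + 1)) % 2 ^ 156)
    (fun hu i hi => ?_) ?_ (fun x hx => ?_) h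
  · have h1 := kAu_top (i := 0) (by norm_num) hu
    have h2 := kAu_top (i := jl + i - c0 + 1) (by omega) hu
    rw [mul_zero, Nat.shiftRight_zero] at h1
    exact (add_lt_add h1 h2).trans_le (by norm_num)
  · rw [kAu_dig, kAu_cE, add_comm, pack_add]
    refine pack_congr fun i _ => ?_
    rw [← Nat.shiftRight_add, ← mul_add, show jl - c0 + 1 + i = jl + i - c0 + 1 by omega]
  · rw [hC]
    refine kAu_mxl fun i hi => ?_
    rw [kKEq_evs, pack_lane hi fun j _ => by
      rw [kKEq_eq1 _ _ _ _ rfl]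
      split_ifs
      exacts [(min_le_right _ _).trans_lt (by norm_num), by norm_num], kKEq_eq1 _ _ _ _ rfl]
    obtain ⟨h1, h2⟩ := hx i hi
    rw [if_pos h1, kAu_mf]
    refine (min_le_left _ _).trans (h2.trans_eq' ?_)
    have h3 : cs.count (jl + i) + 1 = if i = 0 then cs.count c * (1 - (jl - c)) + 1 else 1 := by
      by_cases h4 : jl + i = c
      · rw [if_pos (by omega), h4, show 1 - (jl - c) = 1 by omega, mul_one]
      · rw [List.count_eq_zero_of_not_mem fun h5 => by have := hl _ h5; omega]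
        split_ifs with h5
        · rw [show 1 - (jl - c) = 0 by omega, mul_zero]
        · rfl
    rw [h3]

/-- the stream after reading a list -/
noncomputable def pS : List ℕ → Tr → ℕ → Tr
  | [], s, _ => s
  | x :: t, s, a => pS t (mrg (skip s (x - a)) (kdT (skip s (x - a)))) x

theorem kAu_pfe (l : List ℕ) (a o : ℕ) : pf l Tr.e a o = o := by cases l <;> rfl

theorem kAu_pf (x : ℕ) (t : List ℕ) (s : Tr) (a o : ℕ) : pf (x :: t) s a o =
    pf t (mrg (skip s (x - a)) (kdT (skip s (x - a)))) x (o + hdT (skip s (x - a))) := by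
  have e : pf (x :: t) s a o = Tr.rec (motive := fun _ => ℕ) o (fun v k r _ _ =>
    fz (o + v) fun o' => pf t (mrg (Tr.c v k r) k) x o') (skip s (x - a)) := rfl
  rw [e]
  cases skip s (x - a) with
  | e => exact (kAu_pfe t x o).symm
  | c v k r => exact fz_eq _ _

theorem kAu_pg (l : List ℕ) (s : Tr) (a o : ℕ) (k : ℕ → ℕ → Tr → ℕ) :
    pg l s a o k = k (pf l s a o) (l.getLastD a) (pS l s a) := by
  induction l generalizing s a o with
  | nil => rfl
  | cons x t ih =>
    have e : pg (x :: t) s a o k = un (skip s (x - a)) fun v u _ =>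
      pg t (mrg (skip s (x - a)) u) x (o + v) k := rfl
    rw [e, un_eq, ih, kAu_pf, pS, List.getLastD_cons]

theorem kAu_snoc (l : List ℕ) (d : ℕ) (s : Tr) (a o : ℕ) :
    pf (l ++ [d]) s a o = pf l s a o + hdT (skip (pS l s a) (d - l.getLastD a)) ∧
    pS (l ++ [d]) s a = mrg (skip (pS l s a) (d - l.getLastD a))
      (kdT (skip (pS l s a) (d - l.getLastD a))) := by
  induction l generalizing s a o with
  | nil => exact ⟨kAu_pf d [] s a o, rfl⟩
  | cons x t ih =>
    rw [List.cons_append, kAu_pf, kAu_pf, pS, pS, List.getLastD_cons]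
    exact ih _ _ _

theorem kAu_pab (l : List ℕ) (d : ℕ) : pa (l ++ [d]) = pa l * (2 * d + 1) ∧
    pb (l ++ [d]) = pb l * (2 * (d * (d + 1))) := by
  induction l with
  | nil => exact ⟨rfl, rfl⟩
  | cons x t ih =>
    have e1 : ∀ u, pa (x :: u) = pa u * (2 * x + 1) := fun _ => rfl
    have e2 : ∀ u, pb (x :: u) = pb u * (2 * (x * (x + 1))) := fun _ => rfl
    rw [List.cons_append, e1, e1, e2, e2, ih.1, ih.2]
    constructor <;> ring

theorem kAu_lpa {k : ℕ → ℕ → ℕ} {k' : ℕ → ℕ → ℕ → Tr → ℕ} {n c m : ℕ} {s : Tr}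
    (H : ∀ i < n, ∀ x, x = k' (c + i) (if i = 0 then m else 0) (hdT (skip s i))
      (mrg (skip s i) (kdT (skip s i))) → x < BAD → k (c + i) 0 ≤ x)
    (h : lpa k' n c m s < BAD) : lp k n c 0 ≤ lpa k' n c m s := by
  induction n generalizing c m s with
  | zero => exact le_rfl
  | succ n ih =>
    have e : lpa k' (n + 1) c m s = un s fun v u r =>
      k' c m v (mrg s u) + lpa k' n (c + 1) 0 r := rfl
    have e' : lp k (n + 1) c 0 = k c 0 + lp k n (c + 1) 0 := rfl
    rw [e, un_eq] at h ⊢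
    rw [e']
    refine add_le_add (H 0 (by omega) _ (by rw [skip_zero]; rfl) (by omega))
      (ih (fun i hi x hx => ?_) (by omega))
    rw [add_assoc, add_comm 1 i] at hx ⊢
    exact H (i + 1) (by omega) x (by rw [hx, skip_tl, ite_self, if_neg (Nat.succ_ne_zero i)])

theorem kAu_lp {k k' : ℕ → ℕ → ℕ} (H : ∀ d u, k' d u < BAD → k d u ≤ k' d u) {n c s : ℕ}
    (h : lp k' n c s < BAD) : lp k n c s ≤ lp k' n c s := by
  induction n generalizing c s with
  | zero => exact le_rfl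
  | succ n ih =>
    obtain ⟨a, b, e⟩ : ∃ a b, ∀ k : ℕ → ℕ → ℕ, lp k (n + 1) c s = k c a + lp k n (c + 1) b :=
      ⟨_, _, fun k => by
        have e : lp k (n + 1) c s = tk s fun a b => k c a + fz (c + 1) fun c' => lp k n c' b := rfl
        rw [e]
        unfold tk
        simp only [fz_eq]
        rfl⟩
    rw [e] at h
    rw [e, e]
    exact add_le_add (H _ _ (by omega)) (ih (by omega))

theorem kAu_kid {G N c0 Y0 c n : ℕ} {tq : Tr} {cs : List ℕ} (hG : 0 < G)
    (hc : c0 ≤ c) (hl : ∀ x ∈ cs, x ≤ c) {k : ℕ → ℕ → List ℕ → List ℕ → ℕ → ℕ}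
    {k' : ℕ → ℕ → ℕ → ℕ → ℕ → ℕ → ℕ → ℕ → Tr → ℕ}
    (H : ∀ d (l : List ℕ), c0 ≤ d → (∀ x ∈ l, x ≤ d) → ∀ y, y = k' d (N - l.sum) l.length (pa l)
      (pb l) (mf l) (l.count d) (pf l tq c0 Y0) (skip (pS l tq c0) (d - l.getLastD c0)) → y < BAD →
      k n d (l.map (· * G)) (l.map fun d => (d + 1) * G) 0 ≤ y) {y : ℕ}
    (hy : y = kid k' c (N - cs.sum) cs.length (pa cs) (pb cs) (mf cs) (cs.count c) (pf cs tq c0 Y0)
      (skip (pS cs tq c0) (c - cs.getLastD c0))) (h : y < BAD) :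
    xp G (N * G) (c0 * G) c (cs.map (· * G)) (cs.map fun d => (d + 1) * G) 0 (k n) ≤ y := by
  have e : ∀ l h, xp G (N * G) (c0 * G) c l h 0 (k n) = lp (fun d u =>
    fl (snoc l (mx (d * G) (c0 * G))) fun l => fl (snoc h ((d + 1) * G)) fun h => k n d l h u)
    ((N * G - sm l) / (2 * G) + 1 - c) c 0 := fun _ _ => rfl
  have h1 : cs.getLastD c0 ≤ c := by
    rcases List.mem_cons.1 (List.getLastD_mem_cons (l := cs) (a := c0)) with h | h
    exacts [h.trans_le hc, hl _ h]
  rw [e, sm_eq, (kAu_sum G cs).1, ← Nat.sub_mul, Nat.mul_div_mul_right _ _ hG]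
  subst hy
  refine kAu_lpa (fun i _ x hx hb => ?_) h
  simp only [fl_eq, snoc_eq, mx_eq]
  have h2 := H (c + i) (cs ++ [c + i]) (by omega) (fun z hz => by
    rcases List.mem_append.1 hz with h | h
    · exact (hl z h).trans (Nat.le_add_right _ _)
    · exact (List.mem_singleton.1 h).le) x ?_ hb
  · rwa [List.map_append, List.map_append, List.map_singleton, List.map_singleton,
      ← max_eq_left (Nat.mul_le_mul_right G (by omega : c0 ≤ c + i))] at h2
  have h3 : cs.count (c + i) = if i = 0 then cs.count c else 0 := by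
    split_ifs with h4
    · rw [h4, add_zero]
    · exact List.count_eq_zero_of_not_mem fun h5 => by have := hl _ h5; omega
  rw [hx, skip_add, show c - cs.getLastD c0 + i = c + i - cs.getLastD c0 by omega, ← h3,
    (kAu_snoc cs (c + i) tq c0 Y0).1, (kAu_snoc cs (c + i) tq c0 Y0).2, (kAu_pab cs _).1,
    (kAu_pab cs _).2, kAu_mf, List.getLastD_concat, Nat.sub_self, skip_zero, List.sum_append,
    List.sum_singleton, ← Nat.sub_sub, List.length_append, List.length_singleton,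
    List.count_append, List.count_singleton_self]
  rfl

theorem kAu_aub {G N c0 Y0 : ℕ} {tq : Tr} (hG : 0 < G) (h0 : 0 < c0) (hN : N ≤ 120)
    {w : ℕ → ℕ → List ℕ → List ℕ → ℕ → ℕ}
    (hw : ∀ n c l h, w n c l h 0 = Fv G (N * G) c0 Y0 tq c l h) (f : ℕ) :
    ∀ n d (l : List ℕ), c0 ≤ d → (∀ x ∈ l, x ≤ d) → ∀ y, y = aub N c0 f d (N - l.sum) l.length (pa l)
      (pb l) (mf l) (l.count d) (pf l tq c0 Y0) (skip (pS l tq c0) (d - l.getLastD c0)) → y < BAD →
      opg G (N * G) (c0 * G) w f n d (l.map (· * G)) (l.map fun d => (d + 1) * G) 0 ≤ y := by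
  induction f with
  | zero => exact fun _ _ _ _ _ y hy h => absurd (hy.symm.trans_lt h) (lt_irrefl BAD)
  | succ f ih =>
    intro n d l hc hl y hy h
    have e : ∀ c R n a b g m r s, aub N c0 (f + 1) c R n a b g m r s =
      lfd N c0 c R n a b g m r + kid (aub N c0 f) c R n a b g m r s := fun _ _ _ _ _ _ _ _ _ => rfl
    have e' : ∀ l h, opg G (N * G) (c0 * G) w (f + 1) n d l h 0 = w n d l h 0 +
      xp G (N * G) (c0 * G) d l h 0 (opg G (N * G) (c0 * G) w f (n + 1)) := fun _ _ => rfl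
    rw [e] at hy
    rw [e', hw, hy]
    exact add_le_add (kAu_lfd hG h0 hN hc hl rfl (by omega))
      (kAu_kid hG hc hl (ih (n + 1)) rfl (by omega))

theorem kAu_bx {G c : ℕ} {l h : List ℕ} (H : bx G c l h = 0) :
    l = (l.map (· / G)).map (· * G) ∧ h = ((l.map (· / G)).map fun d => (d + 1) * G) ∧
      ∀ x ∈ l.map (· / G), x ≤ c := by
  induction l generalizing h with
  | nil =>
    cases h with
    | nil => simp
    | cons _ _ => exact absurd H Nat.one_ne_zero
  | cons lo t ih =>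
    cases h with
    | nil => exact absurd H Nat.one_ne_zero
    | cons hi u =>
      have e : bx G c (lo :: t) (hi :: u) =
        iz (lo % G + (lo / G - c) + ((lo + G) ^^^ hi)) (bx G c t u) 1 := rfl
      rw [e, iz_eq] at H
      split_ifs at H with h1
      obtain ⟨h2, h3⟩ := Nat.add_eq_zero_iff.1 h1
      obtain ⟨h4, h5, h6⟩ := ih H
      have h7 := Nat.div_add_mod' lo G
      rw [Nat.xor_eq_zero_iff] at h3
      simp only [List.map_cons, List.forall_mem_cons]
      refine ⟨?_, ?_, by omega, h6⟩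
      · rw [← h4, show lo / G * G = lo by omega]
      · rw [← h5, add_mul, show lo / G * G + 1 * G = hi by omega]

theorem kAu_ent {G N c0 Y0 c : ℕ} {tq : Tr} {l h : List ℕ}
    {k : ℕ → ℕ → ℕ → ℕ → ℕ → ℕ → ℕ → Tr → ℕ} (H : ent G N c0 Y0 tq c l h k < BAD) :
    ∃ cs : List ℕ, l = cs.map (· * G) ∧ h = (cs.map fun d => (d + 1) * G) ∧ (∀ x ∈ cs, x ≤ c) ∧
      c0 ≤ c ∧ ent G N c0 Y0 tq c l h k = k (N - cs.sum) cs.length (pa cs) (pb cs) (mf cs)
        (cs.count c) (pf cs tq c0 Y0) (skip (pS cs tq c0) (c - cs.getLastD c0)) := by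
  have e : ent G N c0 Y0 tq c l h k = iz (bx G c l h + (c0 - c)) (fl (cls G l) fun cs =>
    pg cs tq c0 Y0 fun r a s => k (N - sm cs) (ln cs) (pa cs) (pb cs) (mfn cs) (cnt c cs - 1) r
      (skip s (c - a))) BAD := rfl
  rw [e, iz_eq] at H ⊢
  split_ifs at H ⊢ with h1
  · obtain ⟨h2, h3, h4⟩ := kAu_bx (G := G) (c := c) (l := l) (h := h) (by omega)
    refine ⟨_, h2, h3, h4, by omega, ?_⟩
    rw [fl_eq, kAu_pg, sm_eq, ln_len, mfn_eq, cnt_eq, cls_eq, Nat.add_sub_cancel]
  · exact absurd H (lt_irrefl _)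

theorem op4_spec {G N c0 Y0 : ℕ} {tq : Tr} (hG : 0 < G) (h0 : 0 < c0) (hN : N ≤ 120)
    {w w' : ℕ → ℕ → List ℕ → List ℕ → ℕ → ℕ}
    (hw : ∀ n c l h, w n c l h 0 = Fv G (N * G) c0 Y0 tq c l h)
    (hw' : ∀ n c l h s, w' n c l h s < BAD → w n c l h s ≤ w' n c l h s) (f : ℕ) :
    ∀ n c l h s, op4 G N (N * G) (c0 * G) c0 Y0 tq w' f n c l h s < BAD →
      opg G (N * G) (c0 * G) w f n c l h s ≤ op4 G N (N * G) (c0 * G) c0 Y0 tq w' f n c l h s := by
  induction f with
  | zero => exact fun _ _ _ _ _ h => absurd h (lt_irrefl BAD)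
  | succ f ih =>
    intro n c l h s H
    have e : op4 G N (N * G) (c0 * G) c0 Y0 tq w' (f + 1) n c l h s =
      iz s (ent G N c0 Y0 tq c l h (aub N c0 (f + 1) c)) (tk s fun a b => w' n c l h a + iz b
        (il c ((N * G - sm l) / (2 * G)) (ent G N c0 Y0 tq c l h (kid (aub N c0 f) c)) 0)
        (fz (n + 1) fun n' => xp G (N * G) (c0 * G) c l h b fun d l h u =>
          op4 G N (N * G) (c0 * G) c0 Y0 tq w' f n' d l h u)) := rfl
    have e' : opg G (N * G) (c0 * G) w (f + 1) n c l h s = tk s fun a b => w n c l h a +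
      fz (n + 1) fun n' => xp G (N * G) (c0 * G) c l h b fun d l h u =>
        opg G (N * G) (c0 * G) w f n' d l h u := rfl
    rw [e, iz_eq] at H ⊢
    split_ifs at H ⊢ with hs
    · obtain ⟨cs, rfl, rfl, h1, h2, h3⟩ := kAu_ent H
      rw [hs]
      exact kAu_aub hG h0 hN hw (f + 1) n c cs h2 h1 _ h3 H
    obtain ⟨a, b, e1⟩ : ∃ a b, ∀ k, tk s k = k a b := ⟨_, _, fun k => by
      unfold tk
      simp only [fz_eq]
      rfl⟩
    rw [e1] at H
    rw [e', e1, e1]
    refine add_le_add (hw' _ _ _ _ _ (by omega)) ?_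
    replace H := (Nat.le_add_left _ _).trans_lt H
    rw [iz_eq, il_eq, fz_eq] at H
    rw [iz_eq, il_eq, fz_eq, fz_eq]
    split_ifs at H ⊢ with hb hc
    · obtain ⟨cs, rfl, rfl, h1, h2, h3⟩ := kAu_ent H
      rw [hb]
      exact kAu_kid (k := opg G (N * G) (c0 * G) w f) hG h2 h1 (kAu_aub hG h0 hN hw f (n + 1)) h3 H
    · have e2 : ∀ k, xp G (N * G) (c0 * G) c l h b k = lp (fun d u =>
        fl (snoc l (mx (d * G) (c0 * G))) fun l => fl (snoc h ((d + 1) * G)) fun h => k d l h u)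
        ((N * G - sm l) / (2 * G) + 1 - c) c b := fun _ => rfl
      rw [e2, show (N * G - sm l) / (2 * G) + 1 - c = 0 by omega]
      exact le_rfl
    · unfold xp at H ⊢
      refine kAu_lp (fun d u hk => ?_) H
      simp only [fl_eq] at hk ⊢
      exact ih _ _ _ _ _ hk

theorem op3_opg (G N M T U z c0 Y0 : ℕ) (tb tq tc : Tr) (f : ℕ) :
    op3 G N M T U z c0 Y0 tb tq tc f =
      opg G M z (fun n c l h s => cl3 G N M T U c0 Y0 tb tq tc n c 250 l h CT0 0 [] CT0 s) f := rfl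

theorem cl3_zero (G N M T U c0 Y0 : ℕ) (tb tq tc : Tr) (n c : ℕ) (l h : List ℕ) :
    cl3 G N M T U c0 Y0 tb tq tc n c 250 l h CT0 0 [] CT0 0 = Fv G M c0 Y0 tq c l h := by
  have e : cl3 G N M T U c0 Y0 tb tq tc n c (249 + 1) l h CT0 0 [] CT0 0 = fz (sm l) fun SL =>
    fz (sm h) fun SH => evp G M c0 Y0 tq c l SL SH fun CT' j' => lf G M c l h SL SH CT' j' := rfl
  rw [e, fz_eq, fz_eq, Fv]

/-- any faster treatment of the single boxes may be used -/
theorem run3_of_rung {G N T U c0 Y0 : ℕ} {tb tq tc : Tr} (hG : 0 < G) (h0 : 0 < c0) (hN : N ≤ 120)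
    {w : ℕ → ℕ → List ℕ → List ℕ → ℕ → ℕ} (hw : ∀ n c l h s, w n c l h s < BAD →
      cl3 G N (N * G) T U c0 Y0 tb tq tc n c 250 l h CT0 0 [] CT0 s ≤ w n c l h s) {J : Jt}
    (h : rung G N (N * G) (c0 * G) c0 Y0 tq w J = 0) :
    run3 G N (N * G) T U (c0 * G) c0 Y0 tb tq tc J = 0 := by
  induction J with
  | node a b iha ihb =>
    obtain ⟨h1, h2⟩ := Nat.add_eq_zero_iff.1 h
    exact run3_node (iha h1) (ihb h2)
  | leaf o c l u r s =>
    have e : rung G N (N * G) (c0 * G) c0 Y0 tq w (Jt.leaf o c l u r s) = il BAD r 1 (il (fz (ln l)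
      fun n => iz o (w n c l u s) (op4 G N (N * G) (c0 * G) c0 Y0 tq w 40 n c l u s)) r 0 1) := rfl
    have e' : run3 G N (N * G) T U (c0 * G) c0 Y0 tb tq tc (Jt.leaf o c l u r s) = il (fz (ln l)
      fun n => iz o (cl3 G N (N * G) T U c0 Y0 tb tq tc n c 250 l u CT0 0 [] CT0 s)
        (op3 G N (N * G) T U (c0 * G) c0 Y0 tb tq tc 40 n c l u s)) r 0 1 := rfl
    rw [e, il_eq, il_eq, fz_eq, iz_eq] at h
    rw [e', il_eq, fz_eq, iz_eq, if_pos]
    by_cases h1 : BAD ≤ r
    · rw [if_pos h1] at h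
      exact absurd h Nat.one_ne_zero
    rw [if_neg h1] at h
    replace h := (ite_eq_left_iff.1 h).mt Nat.one_ne_zero
    rw [not_not] at h
    split_ifs at h ⊢
    · exact (hw _ _ _ _ _ (by omega)).trans h
    · exact (op4_spec hG h0 hN (cl3_zero G N _ T U c0 Y0 tb tq tc) hw 40 _ _ _ _ _
        (by omega)).trans h

theorem run3_of_run4 {G N T U c0 Y0 : ℕ} {tb tq tc : Tr} (hG : 0 < G) (h0 : 0 < c0) (hN : N ≤ 120)
    {J : Jt} (h : run4 G N (N * G) T U (c0 * G) c0 Y0 tb tq tc J = 0) :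
    run3 G N (N * G) T U (c0 * G) c0 Y0 tb tq tc J = 0 :=
  run3_of_rung hG h0 hN (fun _ _ _ _ _ _ => le_rfl) h

theorem rung_node {G N M z c0 Y0 : ℕ} {tq : Tr} {w : ℕ → ℕ → List ℕ → List ℕ → ℕ → ℕ} {a b : Jt}
    (ha : rung G N M z c0 Y0 tq w a = 0) (hb : rung G N M z c0 Y0 tq w b = 0) :
    rung G N M z c0 Y0 tq w (Jt.node a b) = 0 :=
  Nat.add_eq_zero_iff.2 ⟨ha, hb⟩

theorem run4_node {G N M T U z c0 Y0 : ℕ} {tb tq tc : Tr} {a b : Jt}
    (ha : run4 G N M T U z c0 Y0 tb tq tc a = 0) (hb : run4 G N M T U z c0 Y0 tb tq tc b = 0) :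
    run4 G N M T U z c0 Y0 tb tq tc (Jt.node a b) = 0 :=
  rung_node ha hb

end Pool.Agent.Work.MP_82fd4a_nt.P
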