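import Pool.Agent.Work.MP_82fd4a_nt.P.Fm
import Pool.Agent.Work.MP_82fd4a_nt.P.KLan

/-! The faster machine: reading a packing. -/

set_option autoImplicit false
open Finset

namespace Pool.Agent.Work.MP_82fd4a_nt.P.F

open BS Y

variable {n x : ℕ}

theorem kKFd_onw (w k : ℕ) : onw w k = pack w k fun _ => 1 := by
  induction k with
  | zero => rfl
  | succ k ih =>
    have e : onw w (k + 1) = onw w k <<< w + 1 := rfl
    rw [e, ih, pack_succ, Nat.shiftLeft_eq, mul_comm]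

theorem kKFd_onn (k : ℕ) : onn k = pack 64 k fun _ => 1 := kKFd_onw 64 k

theorem kKFd_const (W k c : ℕ) : c * pack W k (fun _ => 1) = pack W k fun _ => c := by
  rw [pack_smul]
  exact pack_congr fun _ _ => mul_one c

theorem kKFd_land {W k : ℕ} {g : ℕ → ℕ} (hg : ∀ i < k, g i < 2 ^ W) (Z : ℕ) :
    Z &&& pack W k g = pack W k fun i => (Z >>> (W * i) % 2 ^ W) &&& g i := by
  induction k generalizing Z g with
  | zero => simp
  | succ k ih =>
    have hZ : Z = 2 ^ W * (Z / 2 ^ W) + Z % 2 ^ W := (Nat.div_add_mod Z (2 ^ W)).symm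
    rw [pack_succ, pack_succ]
    conv_lhs => rw [hZ]
    rw [land_step _ _ (Nat.mod_lt _ (Nat.two_pow_pos W)) (hg 0 (by omega)),
      ih fun i hi => hg (i + 1) (by omega)]
    simp only [Nat.mul_zero, Nat.shiftRight_zero]
    rw [pack_congr (g := fun i => (Z >>> (W * (i + 1)) % 2 ^ W) &&& g (i + 1)) fun i _ => by
      rw [← Nat.shiftRight_eq_div_pow, ← Nat.shiftRight_add, Nat.mul_succ, add_comm]]

theorem kKFd_low {W s t : ℕ} (h : s + t ≤ W) (P : ℕ) :
    (P % 2 ^ W) >>> s % 2 ^ t = P >>> s % 2 ^ t := by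
  refine Nat.eq_of_testBit_eq fun i => ?_
  simp only [Nat.testBit_mod_two_pow, Nat.testBit_shiftRight]
  by_cases hi : i < t
  · rw [decide_eq_true (show s + i < W by omega), Bool.true_and]
  · rw [decide_eq_false hi, Bool.false_and, Bool.false_and]

theorem kKFd_cut (s t P : ℕ) : (P % 2 ^ (s + t)) >>> s = P >>> s % 2 ^ t := by
  refine Nat.eq_of_testBit_eq fun i => ?_
  simp only [Nat.testBit_mod_two_pow, Nat.testBit_shiftRight, Nat.add_lt_add_iff_left]

theorem kKFd_fifteen (a : ℕ) : a % 2 ^ 64 &&& 15 = a % 16 := by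
  have h : a % 2 ^ 64 &&& 2 ^ 4 - 1 = a % 2 ^ 64 % 2 ^ 4 := Nat.and_two_pow_sub_one_eq_mod _ _
  have h2 : a % 2 ^ 64 % 2 ^ 4 = a % 2 ^ 4 :=
    Nat.mod_mod_of_dvd _ (Nat.pow_dvd_pow 2 (by norm_num))
  exact h.trans h2

theorem kKFd_copy {W k i s : ℕ} (hi : i < k) (hx : x < 2 ^ W) (hs : s + 4 ≤ W) :
    (pack W k fun _ => x) >>> (W * i + s) % 16 = x >>> s % 16 := by
  have h := kKFd_low hs ((pack W k fun _ => x) >>> (W * i))
  rw [pack_lane hi fun _ _ => hx, ← Nat.shiftRight_add] at h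
  exact h.symm

theorem kKFd_hp (k s y : ℕ) :
    hp k s y = y * 2 ^ (64 * k) + pack 64 k fun i => s >>> (4 * (k - 1 - i)) % 16 := by
  induction k generalizing s y with
  | zero => simp [hp]
  | succ k ih =>
    have e : hp (k + 1) s y = fz (s >>> 4) fun s' => hp k s' (y <<< 64 + s % 16) := rfl
    rw [e, fz_eq, ih, pack_succ', Nat.shiftLeft_eq]
    rw [pack_congr (g := fun i => s >>> (4 * (k + 1 - 1 - i)) % 16) fun i hi => by
      rw [← Nat.shiftRight_add, show 4 + 4 * (k - 1 - i) = 4 * (k + 1 - 1 - i) by omega]]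
    rw [show 4 * (k + 1 - 1 - k) = 0 by omega, Nat.shiftRight_zero]
    ring

theorem kKFd_fw (k s : ℕ) : fw k s = pack 64 k fun i => s >>> (4 * i) % 16 := by
  induction k generalizing s with
  | zero => rfl
  | succ k ih =>
    have e : fw (k + 1) s = s % 16 + fz (s >>> 4) (fw k) <<< 64 := rfl
    rw [e, fz_eq, ih, pack_succ, Nat.shiftLeft_eq]
    rw [pack_congr (g := fun i => s >>> (4 * (i + 1)) % 16) fun i _ => by
      rw [← Nat.shiftRight_add, show 4 + 4 * i = 4 * (i + 1) by omega]]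
    rw [Nat.mul_zero, Nat.shiftRight_zero]
    ring

theorem kKFd_lt (hn : n ≤ 14) (hx : x < 2 ^ (4 + 4 * n)) {W : ℕ} (hW : 60 ≤ W) : x < 2 ^ W :=
  hx.trans_le (Nat.pow_le_pow_right (by norm_num) (by omega))

theorem kKFd_mod (k : ℕ) (f : ℕ → ℕ) :
    pack 64 k f ≡ ∑ i ∈ range k, f i [MOD 18446744073709551615] := by
  induction k with
  | zero => rfl
  | succ k ih =>
    have h1 : 2 ^ 64 ≡ 1 [MOD 18446744073709551615] := by norm_num [Nat.ModEq]
    have h2 := (h1.pow k).mul_left (f k)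
    rw [← pow_mul, one_pow, mul_one] at h2
    rw [pack_succ', sum_range_succ]
    exact ih.add h2

theorem kKFd_lane : ∀ m < 16, ∀ e < 16, 2 ^ 4 ∣ (m + (16 - e) &&& 16) ∧
    15 * ((m + (16 - e) &&& 16) / 2 ^ 4) < 16 ∧
    (m + (16 - e) &&& 15 * ((m + (16 - e) &&& 16) / 2 ^ 4)) = m - e := by
  decide

theorem kKFd_dgs (e d k : ℕ) :
    dgs e d k = e * (k + 1) + ∑ j ∈ range k, (d >>> (4 * j) % 16 - e) := by
  induction k with
  | zero => simp [dgs]
  | succ k ih =>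
    have h : dgs e d (k + 1) = dgs e d k + mx (d >>> (4 * k) % 16) e := rfl
    rw [h, ih, mx_eq, sum_range_succ, mul_add e (k + 1) 1]
    omega

theorem kKFd_dig (j l : ℕ) : 2 ^ (4 * j) / 2 ^ (4 * l) % 16 = if l = j then 1 else 0 := by
  rcases lt_trichotomy l j with h | h | h
  · rw [if_neg h.ne, Nat.pow_div (by omega) (by norm_num),
      show 4 * j - 4 * l = 4 + (4 * j - 4 * l - 4) by omega, pow_add]
    exact Nat.mul_mod_right _ _
  · rw [if_pos h, h, Nat.div_self (Nat.two_pow_pos _)]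
  · rw [if_neg h.ne', Nat.div_eq_of_lt (Nat.pow_lt_pow_right (by norm_num) (by omega))]

theorem kKFd_bj {j : ℕ} (hj : j < n) :
    bj n j = pack 64 (2 ^ n) fun i => if i.testBit j then 1 else 0 := by
  have e : bj n j = dv 0 (2 ^ (4 * j)) n := rfl
  rw [e, dv_eq]
  refine pack_congr fun i _ => ?_
  unfold csum
  rw [sum_eq_single j]
  · simp only [kKFd_dig, if_true]
  · intro l _ hl
    simp only [kKFd_dig, if_neg hl, ite_self]
  · intro h
    exact absurd (mem_range.2 hj) h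

theorem kKFd_dv2 (n x k : ℕ) (hk : k ≤ n) : dv2 n x k = pack 64 (2 ^ n) fun i =>
    (∑ l ∈ range n, if i.testBit l then 0 else x % 16) +
      ∑ l ∈ range k, if i.testBit l then x >>> (4 * (l + 1)) % 16 else 0 := by
  induction k with
  | zero =>
    have e : dv2 n x 0 = x % 16 * dv 1 0 n := rfl
    rw [e, dv_eq, pack_smul]
    refine pack_congr fun i _ => ?_
    unfold csum
    rw [mul_sum, sum_range_zero, add_zero]
    exact sum_congr rfl fun l _ => by split_ifs <;> simp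
  | succ k ih =>
    have e : dv2 n x (k + 1) = dv2 n x k + x >>> (4 * (k + 1)) % 16 * bj n k := rfl
    rw [e, ih (by omega), kKFd_bj (by omega), pack_smul, pack_add]
    refine pack_congr fun i _ => ?_
    rw [sum_range_succ, add_assoc]
    split_ifs <;> simp

theorem kKFd_cok (g k : ℕ) :
    cok g k = 0 ↔ ∀ i < k, g >>> (64 * (i + 1)) % 2 ^ 64 ≤ 4096 := by
  induction k with
  | zero => simp [cok]
  | succ k ih =>
    have e : cok g (k + 1) = il (g >>> (64 * (k + 1)) % 2 ^ 64) 4096 (cok g k) 1 := rfl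
    rw [e, il_eq, Nat.forall_lt_succ_right, ← ih]
    split_ifs with h
    · exact ⟨fun h' => ⟨h', h⟩, fun h' => h'.1⟩
    · exact ⟨fun h' => h'.elim, fun h' => absurd h'.2 h⟩

theorem kKFd_top {a : ℕ} (ha : a < 2 ^ 64) : a &&& 2 ^ 63 = 0 ↔ a < 2 ^ 63 := by
  rw [land_top (V := 63) ha]
  split_ifs with h
  · exact ⟨fun h' => absurd h' (by norm_num), fun h' => absurd h (by omega)⟩
  · exact ⟨fun _ => by omega, fun _ => rfl⟩

theorem kKFd_cmp (k g : ℕ) : (g &&& pack 64 k (fun _ => 2 ^ 63) = 0 ∧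
    (g + pack 64 k fun _ => 9223372036854771711) &&& pack 64 k (fun _ => 2 ^ 63) = 0) ↔
    ∀ i < k, g >>> (64 * i) % 2 ^ 64 ≤ 4096 := by
  induction k generalizing g with
  | zero => simp
  | succ k ih =>
    obtain ⟨h, a, ha, rfl⟩ : ∃ h a, a < 2 ^ 64 ∧ g = 2 ^ 64 * h + a :=
      ⟨g / 2 ^ 64, g % 2 ^ 64, Nat.mod_lt _ (Nat.two_pow_pos _), (Nat.div_add_mod _ _).symm⟩
    have h0 : (2 ^ 64 * h + a) >>> (64 * 0) % 2 ^ 64 = a := by
      rw [Nat.mul_zero, Nat.shiftRight_zero, Nat.mul_add_mod, Nat.mod_eq_of_lt ha]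
    have h1 : ∀ i, (2 ^ 64 * h + a) >>> (64 * (i + 1)) = h >>> (64 * i) := fun i => by
      rw [Nat.mul_succ, add_comm (64 * i), Nat.shiftRight_add, Nat.shiftRight_eq_div_pow _ 64,
        Nat.mul_add_div (Nat.two_pow_pos _), Nat.div_eq_of_lt ha, add_zero]
    rw [Nat.forall_lt_succ_left, h0]
    simp only [h1]
    rw [← ih h, pack_succ, pack_succ, land_step _ _ ha (by norm_num)]
    by_cases hs : a < 2 ^ 63
    · have hb : a + 9223372036854771711 < 2 ^ 64 := by omega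
      rw [show 2 ^ 64 * h + a + (2 ^ 64 * pack 64 k (fun _ => 9223372036854771711) +
          9223372036854771711) = 2 ^ 64 * (h + pack 64 k fun _ => 9223372036854771711) +
          (a + 9223372036854771711) by ring, land_step _ _ hb (by norm_num)]
      have t1 := kKFd_top ha
      have t2 := kKFd_top hb
      omega
    · have t1 := kKFd_top ha
      omega

theorem hpe_eq (hn : n ≤ 14) (hx : x < 2 ^ (4 + 4 * n)) : hpe n x = hp n (x >>> 4) 0 := by
  have e : hpe n x = (x * onw 68 n) >>> (4 * n) &&& 15 * onn n := rfl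
  rw [e, kKFd_onw, kKFd_onn, kKFd_const, kKFd_const, kKFd_land fun _ _ => by norm_num, kKFd_hp,
    zero_mul, zero_add]
  refine pack_congr fun i hi => ?_
  rw [kKFd_fifteen, ← Nat.shiftRight_add, ← Nat.shiftRight_add,
    show 4 * n + 64 * i = 68 * i + (4 + 4 * (n - 1 - i)) by omega]
  exact kKFd_copy hi (kKFd_lt hn hx (by norm_num)) (by omega)

theorem mve_eq (hn : n ≤ 14) (hx : x < 2 ^ (4 + 4 * n)) : mve n x = fw (n + 1) x <<< 64 := by
  have e : mve n x = (x * onw 60 (n + 1) &&& 15 * onn (n + 1)) <<< 64 := rfl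
  rw [e, kKFd_onw, kKFd_onn, kKFd_const, kKFd_const, kKFd_land fun _ _ => by norm_num, kKFd_fw]
  rw [pack_congr (g := fun i => x >>> (4 * i) % 16) fun i hi => by
    rw [kKFd_fifteen, show 64 * i = 60 * i + 4 * i by omega]
    exact kKFd_copy hi (kKFd_lt hn hx le_rfl) (by omega)]

theorem dge_eq (hn : n ≤ 14) (hx : x < 2 ^ (4 + 4 * n)) :
    dge n x (hpe n x) = dgs (x % 16) (x >>> 4) n := by
  obtain ⟨m, hm⟩ : ∃ m : ℕ → ℕ, m = fun i => x >>> 4 >>> (4 * (n - 1 - i)) % 16 := ⟨_, rfl⟩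
  have hm16 : ∀ i, m i < 16 := fun i => by rw [hm]; exact Nat.mod_lt _ (by norm_num)
  have he : x % 16 < 16 := Nat.mod_lt _ (by norm_num)
  have hy : hpe n x = pack 64 n m := by rw [hpe_eq hn hx, kKFd_hp, zero_mul, zero_add, hm]
  have e : ∀ y, dge n x y = x % 16 * (n + 1) + ((y + (16 - x % 16) * onn n) &&&
      ((y + (16 - x % 16) * onn n) &&& 16 * onn n) >>> 4 * 15) % 18446744073709551615 :=
    fun _ => rfl
  have hlt : ∀ i < n, m i + (16 - x % 16) < 2 ^ 64 := fun i _ => by have := hm16 i; omega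
  have h1 : ∑ i ∈ range n, (m i - x % 16) ≤ ∑ _i ∈ range n, 16 :=
    sum_le_sum fun i _ => by have := hm16 i; omega
  rw [sum_const, card_range, smul_eq_mul] at h1
  have h2 : ∑ i ∈ range n, (m i - x % 16) < 18446744073709551615 := by omega
  rw [e, hy, kKFd_onn, kKFd_const, kKFd_const, pack_add,
    pack_land hlt fun _ _ => by norm_num,
    pack_shiftRight_dvd 4 fun i _ => (kKFd_lane _ (hm16 i) _ he).1, mul_comm _ 15, pack_smul,
    pack_land hlt fun i _ => ((kKFd_lane _ (hm16 i) _ he).2.1).trans (by norm_num),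
    pack_congr (g := fun i => m i - x % 16) fun i _ => (kKFd_lane _ (hm16 i) _ he).2.2,
    kKFd_mod, kKFd_dgs, Nat.mod_eq_of_lt h2, hm,
    ← sum_range_reflect (fun j => x >>> 4 >>> (4 * j) % 16 - x % 16) n]

theorem dve_eq (n x : ℕ) : dve n x = dv (x % 16) (x >>> 4) n := by
  have e : dve n x = dv2 n x n := rfl
  rw [e, kKFd_dv2 n x n le_rfl, dv_eq]
  refine pack_congr fun i _ => ?_
  unfold csum
  rw [← sum_add_distrib]
  refine sum_congr rfl fun l _ => ?_
  split_ifs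
  · beta_reduce
    rw [zero_add, ← Nat.shiftRight_eq_div_pow, ← Nat.shiftRight_add,
      show 4 + 4 * l = 4 * (l + 1) by omega]
  · rfl

theorem co5_eq (n g : ℕ) : co5 n g = 0 ↔ cok g (n + 1) = 0 := by
  have e : co5 n g = (g ||| (g + (9223372036854771711 * onn (n + 1)) <<< 64)) &&&
      onn (n + 1) <<< 127 := rfl
  have h1 : onn (n + 1) <<< 127 = 2 ^ 64 * pack 64 (n + 1) (fun _ => 2 ^ 63) + 0 := by
    rw [← kKFd_const, kKFd_onn, Nat.shiftLeft_eq]
    ring
  have hg : g = 2 ^ 64 * (g >>> 64) + g % 2 ^ 64 := by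
    rw [Nat.shiftRight_eq_div_pow, Nat.div_add_mod]
  have ha : g % 2 ^ 64 < 2 ^ 64 := Nat.mod_lt _ (Nat.two_pow_pos _)
  have h2 : g + (9223372036854771711 * onn (n + 1)) <<< 64 = 2 ^ 64 * (g >>> 64 +
      pack 64 (n + 1) fun _ => 9223372036854771711) + g % 2 ^ 64 := by
    rw [kKFd_onn, kKFd_const, Nat.shiftLeft_eq, mul_add, add_right_comm, ← hg, mul_comm]
  have h3 : g &&& 2 ^ 64 * pack 64 (n + 1) (fun _ => 2 ^ 63) + 0 =
      2 ^ 64 * (g >>> 64 &&& pack 64 (n + 1) fun _ => 2 ^ 63) + (g % 2 ^ 64 &&& 0) := by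
    rw [← land_step _ _ ha (Nat.two_pow_pos _), ← hg]
  rw [e, Nat.and_or_distrib_right, Nat.or_eq_zero_iff, h1, h2, h3,
    land_step _ _ ha (Nat.two_pow_pos _), Nat.and_zero, add_zero, add_zero, kKFd_cok]
  simp only [mul_eq_zero, (Nat.two_pow_pos 64).ne', false_or]
  rw [kKFd_cmp]
  refine forall_congr' fun i => ?_
  rw [← Nat.shiftRight_add, Nat.mul_succ, add_comm 64]

theorem kKFd_pr (hn : n ≤ 14) (T g0 cnt s : ℕ) (k : Ce → ℕ → ℕ) :
    pr1 T n (29 + 4 * n) (2 ^ (4 + 4 * n)) g0 cnt s k = prs T n (29 + 4 * n) g0 cnt s k := by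
  induction cnt generalizing s k with
  | zero => rfl
  | succ cnt ih =>
    have e1 : pr1 T n (29 + 4 * n) (2 ^ (4 + 4 * n)) g0 (cnt + 1) s k =
        fz (s >>> 25 % 2 ^ (4 + 4 * n)) fun x =>
          pr1 T n (29 + 4 * n) (2 ^ (4 + 4 * n)) g0 cnt (s >>> (29 + 4 * n)) fun r g =>
            k (Ce.cons (s % 2 ^ 13) (2147483648 * T / ((2 * T - 8 * (s >>> 13 % 2 ^ 12)) *
              (2 * T - 8 * (s >>> 13 % 2 ^ 12))) % 1099511627776)
              ((1073741824 * (8 * (s >>> 13 % 2 ^ 12) * (8 * (s >>> 13 % 2 ^ 12))) +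
                ((2 * T - 8 * (s >>> 13 % 2 ^ 12)) * (2 * T - 8 * (s >>> 13 % 2 ^ 12)) - 1)) /
                ((2 * T - 8 * (s >>> 13 % 2 ^ 12)) * (2 * T - 8 * (s >>> 13 % 2 ^ 12))))
              (x % 16) (hpe n x) (dge n x (hpe n x)) (dve n x) r) (g + s % 2 ^ 13 * mve n x) :=
      rfl
    have e2 : prs T n (29 + 4 * n) g0 (cnt + 1) s k =
        fz (s % 2 ^ (29 + 4 * n)) fun q => fz (q % 2 ^ 13) fun w =>
        fz (8 * (q >>> 13 % 2 ^ 12)) fun L0 => fz ((2 * T - L0) * (2 * T - L0)) fun den =>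
        fz (2147483648 * T / den % 1099511627776) fun a =>
        fz ((1073741824 * (L0 * L0) + (den - 1)) / den) fun c =>
        fz (q >>> 25 % 16) fun e => fz (q >>> (25 + 4)) fun d =>
        fz (hp n d 0) fun y => fz (dgs e d n) fun dg => fz (dv e d n) fun D =>
        fz (s >>> (29 + 4 * n)) fun s' => prs T n (29 + 4 * n) g0 cnt s' fun r g =>
          k (Ce.cons w a c e y dg D r) (g + w * fw (n + 1) (q >>> 25) <<< 64) := rfl
    have hx : s >>> 25 % 2 ^ (4 + 4 * n) < 2 ^ (4 + 4 * n) := Nat.mod_lt _ (Nat.two_pow_pos _)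
    have q1 : s % 2 ^ (29 + 4 * n) % 2 ^ 13 = s % 2 ^ 13 :=
      Nat.mod_mod_of_dvd _ (Nat.pow_dvd_pow 2 (by omega))
    have q2 : (s % 2 ^ (29 + 4 * n)) >>> 13 % 2 ^ 12 = s >>> 13 % 2 ^ 12 :=
      kKFd_low (by omega) s
    have q3 : (s % 2 ^ (29 + 4 * n)) >>> 25 = s >>> 25 % 2 ^ (4 + 4 * n) := by
      rw [show 29 + 4 * n = 25 + (4 + 4 * n) by omega, kKFd_cut]
    rw [e1, e2]
    simp only [fz_eq]
    rw [ih, Nat.shiftRight_add _ 25 4, q1, q2, q3, dge_eq hn hx, hpe_eq hn hx, mve_eq hn hx,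
      dve_eq]

theorem rd5_eq (hn : n ≤ 14) (T s : ℕ) (k : Ce → ℕ → ℕ) : rd5 T n s k = rdc T n s k := by
  have e1 : rd5 T n s k = pr1 T n (29 + 4 * n) (2 ^ (4 + 4 * n)) (s % 4294967296) (s % 16)
      (s >>> 4) fun ce g => iz (co5 n g) (k ce (s >>> (4 + s % 16 * (29 + 4 * n)))) BAD := rfl
  have e2 : rdc T n s k = fz (s % 16) fun cnt => fz (29 + 4 * n) fun rw =>
      prs T n rw (s % 4294967296) cnt (s >>> 4) fun ce g => fz g fun g =>
        iz (cok g (n + 1)) (fz (s >>> (4 + cnt * rw)) (k ce)) BAD := rfl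
  rw [e1, e2, kKFd_pr hn]
  simp only [fz_eq, iz_eq, co5_eq]

end Pool.Agent.Work.MP_82fd4a_nt.P.F
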