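import Pool.Agent.Work.MP_82fd4a_nt.P.KFb

/-! The faster machine: evaluation of the table. -/

set_option autoImplicit false
open Finset

namespace Pool.Agent.Work.MP_82fd4a_nt.P.F

open BS Y

theorem kKFe_rl0 (V a b : ℕ) :
    rl 0 V a b = a + b * 18446744073709551616 + 340282366920938463463374607431768211456 := by
  have e : rl 0 V a b = a + b <<< 64 + 340282366920938463463374607431768211456 := rfl
  rw [e, Nat.shiftLeft_eq]

theorem kKFe_rls (n V a b : ℕ) :
    rl (n + 1) V a b = rl n (V / 1048576) (max (V % 1048576) a) (min (V % 1048576) b) := by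
  have e : rl (n + 1) V a b = fz (V % 1048576) fun u => fz (mx u a) fun a' =>
      fz (mn u b) fun b' => rl n (V >>> 20) a' b' := rfl
  rw [e, fz_eq, fz_eq, fz_eq, mx_eq, mn_eq, Nat.shiftRight_eq_div_pow]

theorem kKFe_rl2 (n W : ℕ) : rl2 n W = W % 1048576 + (W / 1048576 - W % 1048576) +
    (W % 1048576 + (1 - n) * 1048576 - (W % 1048576 + (1 - n) * 1048576 -
      (W / 1048576 + (2 - n) * 1048576))) * 18446744073709551616 +
      340282366920938463463374607431768211456 := by
  have e : rl2 n W = W % 1048576 + (W >>> 20 - W % 1048576) +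
    (W % 1048576 + (1 - n) * 1048576 - (W % 1048576 + (1 - n) * 1048576 -
      (W >>> 20 + (2 - n) * 1048576))) <<< 64 +
      340282366920938463463374607431768211456 := rfl
  rw [e, Nat.shiftLeft_eq, Nat.shiftRight_eq_div_pow]

theorem rl5_eq (n V : ℕ) : rl5 n V = rl n V 0 1048576 := by
  have e : rl5 n V = @Bool.rec (fun _ => ℕ) (rl n V 0 1048576) (rl2 n (V % 2 ^ (20 * n)))
      (Nat.ble n 2) := rfl
  rw [e]
  cases h : Nat.ble n 2 with
  | false => rfl
  | true =>
    have h2 := Nat.le_of_ble_eq_true h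
    show rl2 n (V % 2 ^ (20 * n)) = _
    rw [kKFe_rl2]
    obtain rfl | rfl | rfl : n = 0 ∨ n = 1 ∨ n = 2 := by omega
    · rw [kKFe_rl0, show 2 ^ (20 * 0) = 1 from rfl, Nat.mod_one]
    · rw [kKFe_rls, kKFe_rl0, show 2 ^ (20 * 1) = 1048576 from rfl]
      have h1 : V % 1048576 % 1048576 = V % 1048576 := by omega
      have h3 : V % 1048576 / 1048576 = 0 := by omega
      have h4 : V % 1048576 < 1048576 := by omega
      rw [h1, h3]
      generalize V % 1048576 = u at h4
      omega
    · rw [kKFe_rls, kKFe_rls, kKFe_rl0, show 2 ^ (20 * 2) = 1099511627776 from rfl]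
      have h1 : V % 1099511627776 % 1048576 = V % 1048576 := by omega
      have h3 : V % 1099511627776 / 1048576 = V / 1048576 % 1048576 := by omega
      have h4 : V % 1048576 < 1048576 := by omega
      rw [h1, h3]
      generalize V % 1048576 = u at h4
      generalize V / 1048576 % 1048576 = w
      omega

theorem kKFe_mn (a b : ℕ) : mn a b = a - (a - b) := by
  rw [mn_eq]
  omega

theorem kKFe_mx (a b : ℕ) : mx a b = a + (b - a) := by
  rw [mx_eq]
  omega

theorem kKFe_ht (G N M SL SH v S lo hi : ℕ) :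
    ht1 G N M SL SH v S lo hi = hit G N M SL SH v S lo hi := by
  have e1 : ht1 G N M SL SH v S lo hi = iz v 0 (ht2 G N M SL v S lo hi
      ((SH - hi - 1) / G - ((SH - hi - 1) / G - (M - lo - 1) / G))) := rfl
  have e2 : hit G N M SL SH v S lo hi = iz v 0 (fz (mn ((SH - hi - 1) / G) ((M - lo - 1) / G))
      fun eh => rl (eh + 1 - mx ((SL - lo) / G) ((M - hi) / G)) (v >>> (20 * (N - S - eh))) 0
        1048576) := rfl
  have e3 : ∀ eh, ht2 G N M SL v S lo hi eh =
      rl5 (eh + 1 - ((SL - lo) / G + ((M - hi) / G - (SL - lo) / G)))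
        (v >>> (20 * (N - S - eh))) := fun _ => rfl
  rw [e1, e2, e3, fz_eq, kKFe_mn, kKFe_mx, rl5_eq]

theorem pv5_eq (G N M SL SH : ℕ) (l : L3) (s : Tr) (a S lo hi : ℕ) :
    pv5 G N M SL SH l s a S lo hi = pv G N M SL SH l s a S lo hi := by
  induction l generalizing s a S lo hi with
  | nil => rfl
  | cons x xl xh l ih =>
    have e1 : pv5 G N M SL SH (L3.cons x xl xh l) s a S lo hi =
        @Tr.rec (fun _ => ℕ) 0 (fun v k r _ _ => ht1 G N M SL SH v (S + x) (lo + xl) (hi + xh) +
          pv5 G N M SL SH l k x (S + x) (lo + xl) (hi + xh) +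
          pv5 G N M SL SH l (Tr.c v k r) x S lo hi) (skip s (x - a)) := rfl
    have e2 : pv G N M SL SH (L3.cons x xl xh l) s a S lo hi =
        @Tr.rec (fun _ => ℕ) 0 (fun v k r _ _ => fz (S + x) fun S' => fz (lo + xl) fun lo' =>
          fz (hi + xh) fun hi' => hit G N M SL SH v S' lo' hi' +
          pv G N M SL SH l k x S' lo' hi' +
          pv G N M SL SH l (Tr.c v k r) x S lo hi) (skip s (x - a)) := rfl
    rw [e1, e2]
    simp only [fz_eq, kKFe_ht, ih]

theorem kKFe_ev (G N M c0 : ℕ) (tb : Tr) (cs los his : List ℕ) (SL SH sl sh j : ℕ) :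
    ev5 G N M c0 tb cs los his SL SH sl sh j = ev1 G N M c0 tb cs los his SL SH sl sh j := by
  have e1 : ev5 G N M c0 tb cs los his SL SH sl sh j = ev2 G N M c0 tb cs los his SL SH j
      (j * G + (M - 1 - sh - j * G)) ((j + 1) * G - ((j + 1) * G - (M - sl))) := rfl
  have e2 : ∀ al ah, ev2 G N M c0 tb cs los his SL SH j al ah = ev3 (mfn (snoc cs j))
      (pv5 G N M (SL + al) (SH + ah) (mk3 (L3.cons j al ah L3.nil) cs los his) tb c0 0 0 0) :=
    fun _ _ => rfl
  have e3 : ∀ f r, ev3 f r = il (4096 + r % 18446744073709551616) (r >>> 128 * 524288)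
      ((r >>> 128 * 524288 - (4096 + r >>> 64 % 18446744073709551616) + (f - 1)) / f -
        ((r >>> 128 * 524288 - (4096 + r >>> 64 % 18446744073709551616) + (f - 1)) / f -
          2147483648)) 2147483648 := fun _ _ => rfl
  have e4 : ev1 G N M c0 tb cs los his SL SH sl sh j =
      fz (mx (j * G) (M - 1 - sh)) fun al => fz (mn ((j + 1) * G) (M - sl)) fun ah =>
      fz (SL + al) fun SL' => fz (SH + ah) fun SH' =>
      fz (pv G N M SL' SH' (mk3 (L3.cons j al ah L3.nil) cs los his) tb c0 0 0 0) fun r =>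
      fz (r >>> 128 * 524288) fun o => il (4096 + r % 18446744073709551616) o
        (fz (mfn (snoc cs j)) fun f =>
          mn ((o - (4096 + r >>> 64 % 18446744073709551616) + (f - 1)) / f) 2147483648)
        2147483648 := rfl
  rw [e1, e2, e3, e4, pv5_eq]
  simp only [fz_eq, kKFe_mn, kKFe_mx]

theorem el5_eq {n : ℕ} {los his : List ℕ} (h : Bx n los his) (hn : n ≤ 14) (G N M c0 : ℕ) (tb : Tr)
    (c : ℕ) (k : ℕ → ℕ → ℕ) (sl sh : ℕ) :
    el5 G N M c0 tb c n (pk los) (pk his) k sl sh = evl G N M c0 tb c los his sl sh k := by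
  have e1 : ∀ X Y, el5 G N M c0 tb c n X Y k sl sh = fl (cls G (upk n X)) fun cs =>
      fz (c + ((M - sh) / G - c)) fun jl =>
      fz (evs (ev5 G N M c0 tb cs (upk n X) (upk n Y) (X % 18446744073709551615)
        (Y % 18446744073709551615) sl sh) ((M - sl - 1) / G + 1 - jl) jl) fun C =>
        k (C <<< 32 + C % 4294967291) jl := fun _ _ => rfl
  have e2 : evl G N M c0 tb c los his sl sh k = fz (sm los) fun SL => fz (sm his) fun SH =>
      fl (cls G los) fun cs => fz (mx c ((M - sh) / G)) fun jl =>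
      fz (evs (ev1 G N M c0 tb cs los his SL SH sl sh) ((M - sl - 1) / G + 1 - jl) jl) fun C =>
      fz (C <<< 32 + C % 4294967291) fun CT => k CT jl := rfl
  have e3 : ∀ cs SL SH, ev5 G N M c0 tb cs los his SL SH sl sh =
      ev1 G N M c0 tb cs los his SL SH sl sh := fun cs SL SH =>
    funext fun j => kKFe_ev G N M c0 tb cs los his SL SH sl sh j
  rw [e1, e2, h.upk.1, h.upk.2, (h.sum hn).1, (h.sum hn).2]
  simp only [fz_eq, fl_eq, kKFe_mx, sm_eq, e3]

end Pool.Agent.Work.MP_82fd4a_nt.P.F
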