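import Pool.Agent.Work.MP_82fd4a_nt.P.KFc
import Pool.Agent.Work.MP_82fd4a_nt.P.KFd
import Pool.Agent.Work.MP_82fd4a_nt.P.KFe
import Pool.Agent.Work.MP_82fd4a_nt.P.KAu

/-! The faster machine computes the same numbers. -/

set_option autoImplicit false

namespace Pool.Agent.Work.MP_82fd4a_nt.P.F

open BS Y

theorem br_beq (a b u v : ℕ) :
    @Bool.rec (fun _ => ℕ) a b (Nat.beq u v) = if u = v then b else a := by
  cases h : Nat.beq u v with
  | false => rw [if_neg (Nat.ne_of_beq_eq_false h)]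
  | true => rw [if_pos (Nat.eq_of_beq_eq_true h)]

theorem br_ble (a b u v : ℕ) :
    @Bool.rec (fun _ => ℕ) a b (Nat.ble u v) = if u ≤ v then b else a := il_eq u v b a

theorem cl5_eq (G N M T U c0 Y0 : ℕ) (tb tq tc : Tr) {n : ℕ} (c : ℕ) (hn : n ≤ 14) (f : ℕ) :
    ∀ (los his : List ℕ) (CT j0 : ℕ) (CL : List Ce) (K s : ℕ), Bx n los his →
      cl5 G N M T U c0 Y0 tb tq tc n c f (pk los) (pk his) CT j0 CL K s =
        cl3 G N M T U c0 Y0 tb tq tc n c f los his CT j0 CL K s := by
  induction f with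
  | zero => exact fun _ _ _ _ _ _ _ _ => rfl
  | succ f ih =>
    intro los his CT j0 CL K s hb
    have e : cl5 G N M T U c0 Y0 tb tq tc n c (f + 1) (pk los) (pk his) CT j0 CL K s =
      @Bool.rec (fun _ => ℕ) (@Bool.rec (fun _ => ℕ) (br1 G M U n c (pk los) (pk his) CT j0 K s)
        (br0 G N M T U c0 Y0 tb tq tc n c (cl5 G N M T U c0 Y0 tb tq tc n c f) (pk los) (pk his)
          CT j0 CL K s) (Nat.beq (s % 4) 0))
        (br2 M T U n (cl5 G N M T U c0 Y0 tb tq tc n c f) (pk los) (pk his) CT j0 CL K s)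
        (Nat.ble 2 (s % 4)) := rfl
    have e' : cl3 G N M T U c0 Y0 tb tq tc n c (f + 1) los his CT j0 CL K s =
      fz (s % 4) fun o => iz o (fz (s >>> 2 % 4) fun o' => iz o'
        (fz (sm los) fun SL => fz (sm his) fun SH =>
          evp G M c0 Y0 tq c los SL SH fun CT' j' => lf G M c los his SL SH CT' j')
        (fz (s >>> 4) fun s' => il o' 1
          (rdc T n s' fun ce a => cl3 G N M T U c0 Y0 tb tq tc n c f los his CT j0 (ce :: CL) K a)
          (il o' 2 (nar U K los his fun sl sh => evl G N M c0 tb c los his sl sh fun CT' j' =>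
              cl3 G N M T U c0 Y0 tb tq tc n c f los his CT' j' CL K s')
            (ldc G N c0 tc los fun CT' j' =>
              cl3 G N M T U c0 Y0 tb tq tc n c f los his CT' j' CL K s'))))
      (il o 1 (fz (s >>> 2 % 4) fun g =>
          iz g (nar U K los his fun sl sh => lf G M c los his sl sh CT j0)
            (cvl U G M c n los his K CT j0 g))
        (il o 2 (spl n los his (s >>> 2) fun l h a =>
            cl3 G N M T U c0 Y0 tb tq tc n c f l h CT j0 CL K a)
          (clr U M T n los his (nce CL (s >>> 2 % 32)) K fun K' => fz (s >>> 7) fun s' =>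
            cl3 G N M T U c0 Y0 tb tq tc n c f los his CT j0 CL K' s'))) := rfl
    have h4 : s >>> 2 = s / 4 := Nat.shiftRight_eq_div_pow s 2
    obtain ⟨h1, h2⟩ := hb.sum hn
    rw [e, e', br_ble, br_beq]
    simp only [fz_eq, iz_eq, il_eq, sm_eq]
    by_cases a1 : s % 4 = 0
    · rw [if_neg (by omega), if_pos a1, if_pos a1]
      have e0 : br0 G N M T U c0 Y0 tb tq tc n c (cl5 G N M T U c0 Y0 tb tq tc n c f) (pk los)
          (pk his) CT j0 CL K s = @Bool.rec (fun _ => ℕ) (@Bool.rec (fun _ => ℕ)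
          (ldc G N c0 tc (upk n (pk los)) fun CT' j' =>
            cl5 G N M T U c0 Y0 tb tq tc n c f (pk los) (pk his) CT' j' CL K (s >>> 4))
          (nr1 U K (pk los % 18446744073709551615) (pk his % 18446744073709551615)
            (el5 G N M c0 tb c n (pk los) (pk his) fun CT' j' =>
              cl5 G N M T U c0 Y0 tb tq tc n c f (pk los) (pk his) CT' j' CL K (s >>> 4)))
          (Nat.beq (s % 16) 8)) (@Bool.rec (fun _ => ℕ)
          (evp G M c0 Y0 tq c (upk n (pk los)) (pk los % 18446744073709551615)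
            (pk his % 18446744073709551615) fun CT' j' => lk1 G M c CT' j'
              (lf3 M n (pk los) (pk his)) (pk los % 18446744073709551615)
              (pk his % 18446744073709551615))
          (rd5 T n (s >>> 4) fun ce a =>
            cl5 G N M T U c0 Y0 tb tq tc n c f (pk los) (pk his) CT j0 (ce :: CL) K a)
          (Nat.beq (s % 16) 4)) (Nat.ble (s % 16) 4) := rfl
      rw [e0, br_ble, br_beq, br_beq, h1, h2, hb.upk.1, nr1_eq, rd5_eq hn]
      simp only [ih _ _ _ _ _ _ _ hb, lk1_eq hb.msx, funext₂ (el5_eq hb hn G N M c0 tb c _)]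
      split_ifs <;> first | rfl | omega
    by_cases a2 : s % 4 = 1
    · rw [if_neg (by omega), if_neg a1, if_neg a1, if_pos a2.le]
      have e1 : br1 G M U n c (pk los) (pk his) CT j0 K s = @Bool.rec (fun _ => ℕ)
        (cv5 U G M c n (pk los) (pk his) K CT j0 (s >>> 2 % 4))
        (lf5 U G M n c (pk los) (pk his) CT j0 K) (Nat.beq (s % 16) 1) := rfl
      rw [e1, br_beq, lf5_eq hb hn, cv5_eq hb hn _ _ _ _ _ _ _ (by omega)]
      split_ifs <;> first | rfl | omega
    rw [if_pos (by omega), if_neg a1, if_neg (by omega)]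
    have e2 : br2 M T U n (cl5 G N M T U c0 Y0 tb tq tc n c f) (pk los) (pk his) CT j0 CL K s =
      @Bool.rec (fun _ => ℕ) (cl6 U M T n (pk los) (pk his) (nce CL (s >>> 2 % 32)) K fun K' =>
          cl5 G N M T U c0 Y0 tb tq tc n c f (pk los) (pk his) CT j0 CL K' (s >>> 7))
        (sp2 (fun X' Y' a => cl5 G N M T U c0 Y0 tb tq tc n c f X' Y' CT j0 CL K a) (pk los)
          (pk his) s (64 * (s >>> 2 % 32)) (s >>> 7 % 32)) (Nat.beq (s % 2) 0) := rfl
    rw [e2, br_beq, cl6_eq hb hn, hb.spl fun l u a h => ih l u CT j0 CL K a h]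
    simp only [ih _ _ _ _ _ _ _ hb]
    split_ifs <;> first | rfl | omega

theorem clq_eq (G N M T U c0 Y0 : ℕ) (tb tq tc : Tr) (n c : ℕ) (los his : List ℕ) (s : ℕ) :
    clq G N M T U c0 Y0 tb tq tc n c los his s =
      cl3 G N M T U c0 Y0 tb tq tc n c 250 los his CT0 0 [] CT0 s := by
  have e : clq G N M T U c0 Y0 tb tq tc n c los his s = iz (bok los his n + (n - 14))
    (cl5 G N M T U c0 Y0 tb tq tc n c 250 (pk los) (pk his) CT0 0 [] CT0 s)
    (cl3 G N M T U c0 Y0 tb tq tc n c 250 los his CT0 0 [] CT0 s) := rfl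
  rw [e, iz_eq]
  split_ifs with h
  · exact cl5_eq _ _ _ _ _ _ _ _ _ _ _ (by omega) _ _ _ _ _ _ _ _ (bok_spec (by omega))
  · rfl

theorem run5_eq (G N M T U z c0 Y0 : ℕ) (tb tq tc : Tr) (J : Jt) :
    run5 G N M T U z c0 Y0 tb tq tc J = run4 G N M T U z c0 Y0 tb tq tc J := by
  unfold run5 run4
  congr 1
  funext n c l h s
  exact clq_eq ..

theorem run5_node {G N M T U z c0 Y0 : ℕ} {tb tq tc : Tr} {a b : Jt}
    (ha : run5 G N M T U z c0 Y0 tb tq tc a = 0) (hb : run5 G N M T U z c0 Y0 tb tq tc b = 0) :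
    run5 G N M T U z c0 Y0 tb tq tc (Jt.node a b) = 0 :=
  rung_node ha hb

theorem run3_of_run5 {G N T U c0 Y0 : ℕ} {tb tq tc : Tr} (hG : 0 < G) (h0 : 0 < c0) (hN : N ≤ 120)
    {J : Jt} (h : run5 G N (N * G) T U (c0 * G) c0 Y0 tb tq tc J = 0) :
    run3 G N (N * G) T U (c0 * G) c0 Y0 tb tq tc J = 0 :=
  run3_of_run4 hG h0 hN (run5_eq .. ▸ h)

end Pool.Agent.Work.MP_82fd4a_nt.P.F
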