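import Pool.Agent.Work.MP_82fd4a_nt.P.Gm
import Pool.Agent.Work.MP_82fd4a_nt.P.KFm
import Pool.Agent.Work.MP_82fd4a_nt.P.KFin

/-! The meaning of the machine with the instruction for grids. -/

set_option autoImplicit false
open Finset

namespace Pool.Agent.Work.MP_82fd4a_nt.P.G

open BS Y F

/-- the meaning of the instruction for grids -/
def GlSpec : Prop := ∀ (P : Par) (tb : Tr) (B δ c n K CT j0 z : ℕ) (κ : ℝ) (μ : ℕ → ℝ)
  (Ψ : List ℕ → ℝ) (los his : List ℕ) (CL : List Ce), Ctx P tb B δ κ μ Ψ → BoxOK P los his →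
  los.length = n → 0 < n → n ≤ 14 → Low P B δ c los his → CTI P tb B δ los his CT j0 →
  MI P B δ los his K → (∀ ce ∈ CL, CeOK P.T n ce) →
  gl (P.G / 32) P.G (P.N * P.G) P.T c n (pk los) (pk his) CT j0 CL K z < BAD →
  bs B μ los his Ψ ≤ κ ^ n / 2 ^ 52 *
    gl (P.G / 32) P.G (P.N * P.G) P.T c n (pk los) (pk his) CT j0 CL K z

/-- one instruction -/
noncomputable def st3 (G N M T U c0 Y0 : ℕ) (tb tq tc : Tr) (n c : ℕ)
    (F : List ℕ → List ℕ → ℕ → ℕ → List Ce → ℕ → ℕ → ℕ) (los his : List ℕ) (CT j0 : ℕ)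
    (CL : List Ce) (K s : ℕ) : ℕ :=
  if s % 4 = 0 then if s >>> 2 % 4 = 0 then
      evp G M c0 Y0 tq c los los.sum his.sum fun CT' j' => lf G M c los his los.sum his.sum CT' j'
    else if s >>> 2 % 4 ≤ 1 then rdc T n (s >>> 4) fun ce a => F los his CT j0 (ce :: CL) K a
    else if s >>> 2 % 4 ≤ 2 then nar U K los his fun sl sh =>
      evl G N M c0 tb c los his sl sh fun CT' j' => F los his CT' j' CL K (s >>> 4)
    else ldc G N c0 tc los fun CT' j' => F los his CT' j' CL K (s >>> 4)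
  else if s % 4 ≤ 1 then if s >>> 2 % 4 = 0 then
      nar U K los his fun sl sh => lf G M c los his sl sh CT j0
    else cvl U G M c n los his K CT j0 (s >>> 2 % 4)
  else if s % 4 ≤ 2 then spl n los his (s >>> 2) fun l h a => F l h CT j0 CL K a
  else clr U M T n los his (nce CL (s >>> 2 % 32)) K fun K' => F los his CT j0 CL K' (s >>> 7)

/-- what a treatment of the boxes with `n` sides has to achieve -/
def Snd (P : Par) (tb : Tr) (B δ n c : ℕ) (κ : ℝ) (μ : ℕ → ℝ) (Ψ : List ℕ → ℝ)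
    (F : List ℕ → List ℕ → ℕ → ℕ → List Ce → ℕ → ℕ → ℕ) : Prop :=
  ∀ (los his : List ℕ) (CT j0 : ℕ) (CL : List Ce) (K s : ℕ),
    BoxOK P los his → los.length = n → Low P B δ c los his → CTI P tb B δ los his CT j0 →
    MI P B δ los his K → (∀ ce ∈ CL, CeOK P.T n ce) → F los his CT j0 CL K s < BAD →
    bs B μ los his Ψ ≤ κ ^ n / 2 ^ 52 * F los his CT j0 CL K s

theorem st3_spec {P : Par} {tb tq tc : Tr} {Y0 B δ n c : ℕ} {κ : ℝ} {μ : ℕ → ℝ} {Ψ : List ℕ → ℝ}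
    (hx : Ctx P tb B δ κ μ Ψ) (hq : ckr Y0 tb tq = 0) (hT : TcOK P tb tc) (h0 : 0 < n)
    (hn : n ≤ 30) {F : List ℕ → List ℕ → ℕ → ℕ → List Ce → ℕ → ℕ → ℕ}
    (ih : Snd P tb B δ n c κ μ Ψ F) : Snd P tb B δ n c κ μ Ψ
      (st3 P.G P.N (P.N * P.G) P.T (P.G / 32) (P.z / P.G) Y0 tb tq tc n c F) := by
  intro los his CT j0 CL K s hb hl hc hC hK hL h
  have hs := hx.sm
  have hB := hx.B0
  have hδ := hx.δB
  have l0 : los ≠ [] := by
    rintro rfl
    simp at hl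
    omega
  simp only [st3, evp_eq] at h ⊢
  split_ifs at h ⊢ with h1 h2 h3 h4 h5 h6 h7
  · obtain ⟨CT', j', k1, k2⟩ := evq_spec hs hB hδ hq hb l0 (by omega) hc (Nar_box l0)
      fun CT' j' => lf P.G (P.N * P.G) c los his los.sum his.sum CT' j'
    rw [k2] at h ⊢
    exact hl ▸ lf_spec hx hb hc (Nar_box l0) k1 h
  · obtain ⟨ce, a, k1, k2⟩ := rdc_spec h
    rw [k2] at h ⊢
    exact ih _ _ _ _ _ _ _ hb hl hc hC hK (List.forall_mem_cons.2 ⟨k1, hL⟩) h
  · rcases nar_spec hs hB l0 hK fun sl sh => evl P.G P.N (P.N * P.G) (P.z / P.G) tb c los his sl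
      sh fun CT' j' => F los his CT' j' CL K (s >>> 4) with ⟨k1, k2⟩ | ⟨sl, sh, k1, k2⟩
    · rw [k1, Nat.cast_zero, mul_zero]
      exact kMc_void hx hb k2
    · obtain ⟨CT', j', k3, k4⟩ := evl_spec tb hs hB hδ hb l0 (by omega) hc k1
        fun CT' j' => F los his CT' j' CL K (s >>> 4)
      rw [k2, k4] at h ⊢
      exact ih _ _ _ _ _ _ _ hb hl hc k3 hK hL h
  · obtain ⟨CT', j', k3, k4⟩ := ldc_spec hs hB hδ hT hb l0
      fun CT' j' => F los his CT' j' CL K (s >>> 4)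
    rw [k4] at h ⊢
    exact ih _ _ _ _ _ _ _ hb hl hc k3 hK hL h
  · rcases nar_spec hs hB l0 hK fun sl sh => lf P.G (P.N * P.G) c los his sl sh CT j0 with
      ⟨k1, k2⟩ | ⟨sl, sh, k1, k2⟩
    · rw [k1, Nat.cast_zero, mul_zero]
      exact kMc_void hx hb k2
    · rw [k2] at h ⊢
      exact hl ▸ lf_spec hx hb hc k1 hC h
  · exact cvl_spec hx hb hl h0 hc hC hK (by omega) h
  · obtain ⟨his', los', a, b, k1, k2, k3, k4, k5, k6, k7⟩ := spl_spec B μ hb hl h
    rw [k1] at h ⊢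
    rw [k7, Nat.cast_add, mul_add]
    exact add_le_add
      (ih _ _ _ _ _ _ _ k2 hl (kMc_low hc k5) (fun p a H => hC p a (kMc_bad H k5))
        (fun p a H => hK p a (kMc_bad H k5)) hL (by omega))
      (ih _ _ _ _ _ _ _ k3 k4 (kMc_low hc k6) (fun p a H => hC p a (kMc_bad H k6))
        (fun p a H => hK p a (kMc_bad H k6)) hL (by omega))
  · obtain ⟨K', k1, k2⟩ := clr_spec hs hB hδ hb hl h0 hn (kMc_nce hL _) hK h
    rw [k2] at h ⊢
    exact ih _ _ _ _ _ _ _ hb hl hc hC k1 hL h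

theorem br0_eq (G N M T U c0 Y0 : ℕ) (tb tq tc : Tr) {n : ℕ} (c : ℕ) (hn : n ≤ 14)
    (F : ℕ → ℕ → ℕ → ℕ → List Ce → ℕ → ℕ → ℕ) {los his : List ℕ} (hb : Bx n los his) (CT j0 : ℕ)
    (CL : List Ce) (K : ℕ) {s : ℕ} (a1 : s % 4 = 0) :
    br0 G N M T U c0 Y0 tb tq tc n c F (pk los) (pk his) CT j0 CL K s =
      st3 G N M T U c0 Y0 tb tq tc n c (fun l h => F (pk l) (pk h)) los his CT j0 CL K s := by
  have h4 : s >>> 2 = s / 4 := Nat.shiftRight_eq_div_pow s 2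
  obtain ⟨h1, h2⟩ := hb.sum hn
  have e0 : br0 G N M T U c0 Y0 tb tq tc n c F (pk los) (pk his) CT j0 CL K s =
      @Bool.rec (fun _ => ℕ) (@Bool.rec (fun _ => ℕ)
      (ldc G N c0 tc (upk n (pk los)) fun CT' j' => F (pk los) (pk his) CT' j' CL K (s >>> 4))
      (nr1 U K (pk los % 18446744073709551615) (pk his % 18446744073709551615)
        (el5 G N M c0 tb c n (pk los) (pk his) fun CT' j' =>
          F (pk los) (pk his) CT' j' CL K (s >>> 4)))
      (Nat.beq (s % 16) 8)) (@Bool.rec (fun _ => ℕ)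
      (evp G M c0 Y0 tq c (upk n (pk los)) (pk los % 18446744073709551615)
        (pk his % 18446744073709551615) fun CT' j' => lk1 G M c CT' j'
          (P.F.lf3 M n (pk los) (pk his)) (pk los % 18446744073709551615)
          (pk his % 18446744073709551615))
      (rd5 T n (s >>> 4) fun ce a => F (pk los) (pk his) CT j0 (ce :: CL) K a)
      (Nat.beq (s % 16) 4)) (Nat.ble (s % 16) 4) := rfl
  rw [st3, if_pos a1, e0, br_ble, br_beq, br_beq, h1, h2, hb.upk.1, nr1_eq, rd5_eq hn]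
  simp only [lk1_eq hb.msx, funext₂ (el5_eq hb hn G N M c0 tb c _)]
  split_ifs <;> first | rfl | omega

theorem br1_eq (G N M T U c0 Y0 : ℕ) (tb tq tc : Tr) {n : ℕ} (c : ℕ) (hn : n ≤ 14)
    (F : List ℕ → List ℕ → ℕ → ℕ → List Ce → ℕ → ℕ → ℕ) {los his : List ℕ} (hb : Bx n los his)
    (CT j0 : ℕ) (CL : List Ce) (K : ℕ) {s : ℕ} (a2 : s % 4 = 1) :
    br1 G M U n c (pk los) (pk his) CT j0 K s =
      st3 G N M T U c0 Y0 tb tq tc n c F los his CT j0 CL K s := by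
  have h4 : s >>> 2 = s / 4 := Nat.shiftRight_eq_div_pow s 2
  have e1 : br1 G M U n c (pk los) (pk his) CT j0 K s = @Bool.rec (fun _ => ℕ)
    (cv5 U G M c n (pk los) (pk his) K CT j0 (s >>> 2 % 4))
    (lf5 U G M n c (pk los) (pk his) CT j0 K) (Nat.beq (s % 16) 1) := rfl
  rw [st3, if_neg (by omega), if_pos a2.le, e1, br_beq, lf5_eq hb hn,
    cv5_eq hb hn _ _ _ _ _ _ _ (by omega)]
  split_ifs <;> first | rfl | omega

theorem br2_eq (G N M T U c0 Y0 : ℕ) (tb tq tc : Tr) {n : ℕ} (c : ℕ) (hn : n ≤ 14)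
    (F : ℕ → ℕ → ℕ → ℕ → List Ce → ℕ → ℕ → ℕ) {los his : List ℕ} (hb : Bx n los his) (CT j0 : ℕ)
    (CL : List Ce) (K : ℕ) {s : ℕ} (a3 : 2 ≤ s % 4) :
    br2 M T U n F (pk los) (pk his) CT j0 CL K s =
      st3 G N M T U c0 Y0 tb tq tc n c (fun l h => F (pk l) (pk h)) los his CT j0 CL K s := by
  have e2 : br2 M T U n F (pk los) (pk his) CT j0 CL K s =
    @Bool.rec (fun _ => ℕ) (cl6 U M T n (pk los) (pk his) (nce CL (s >>> 2 % 32)) K fun K' =>
        F (pk los) (pk his) CT j0 CL K' (s >>> 7))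
      (sp2 (fun X' Y' a => F X' Y' CT j0 CL K a) (pk los)
        (pk his) s (64 * (s >>> 2 % 32)) (s >>> 7 % 32)) (Nat.beq (s % 2) 0) := rfl
  rw [st3, if_neg (by omega), if_neg (by omega), e2, br_beq, cl6_eq hb hn,
    hb.spl (k' := fun l u a => F (pk l) (pk u) CT j0 CL K a) fun l u a h => rfl]
  split_ifs <;> first | rfl | omega

theorem cl8_step (G N M T U c0 Y0 : ℕ) (tb tq tc : Tr) {n : ℕ} (c : ℕ) (hn : n ≤ 14) (f : ℕ)
    {los his : List ℕ} (hb : Bx n los his) (CT j0 : ℕ) (CL : List Ce) (K s : ℕ) :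
    cl8 G N M T U c0 Y0 tb tq tc n c (f + 1) (pk los) (pk his) CT j0 CL K s =
      if s % 16 = 13 then gl U G M T c n (pk los) (pk his) CT j0 CL K (s >>> 4) else
      st3 G N M T U c0 Y0 tb tq tc n c
        (fun l h => cl8 G N M T U c0 Y0 tb tq tc n c f (pk l) (pk h)) los his CT j0 CL K s := by
  have e : cl8 G N M T U c0 Y0 tb tq tc n c (f + 1) (pk los) (pk his) CT j0 CL K s =
    @Bool.rec (fun _ => ℕ) (@Bool.rec (fun _ => ℕ) (brg G M T U n c (pk los) (pk his) CT j0 CL K s)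
      (br0 G N M T U c0 Y0 tb tq tc n c (cl8 G N M T U c0 Y0 tb tq tc n c f) (pk los) (pk his)
        CT j0 CL K s) (Nat.beq (s % 4) 0))
      (br2 M T U n (cl8 G N M T U c0 Y0 tb tq tc n c f) (pk los) (pk his) CT j0 CL K s)
      (Nat.ble 2 (s % 4)) := rfl
  have e1 : brg G M T U n c (pk los) (pk his) CT j0 CL K s = @Bool.rec (fun _ => ℕ)
    (br1 G M U n c (pk los) (pk his) CT j0 K s)
    (gl U G M T c n (pk los) (pk his) CT j0 CL K (s >>> 4)) (Nat.ble 13 (s % 16)) := rfl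
  rw [e, br_ble, br_beq, e1, br_ble]
  by_cases a1 : s % 4 = 0
  · rw [if_neg (by omega), if_pos a1, if_neg (by omega), br0_eq _ _ _ _ _ _ _ _ _ _ _ hn _ hb _ _ _ _ a1]
  by_cases a2 : s % 4 = 1
  · rw [if_neg (by omega), if_neg a1]
    by_cases a3 : s % 16 = 13
    · rw [if_pos a3.ge, if_pos a3]
    · rw [if_neg (by omega), if_neg a3]
      exact br1_eq _ _ _ _ _ _ _ _ _ _ _ hn _ hb _ _ _ _ a2
  rw [if_pos (by omega), if_neg (by omega)]
  exact br2_eq _ _ _ _ _ _ _ _ _ _ _ hn _ hb _ _ _ _ (by omega)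

theorem kGm_bx {P : Par} (hs : Sm P) {l h : List ℕ} (H : BoxOK P l h) : Bx l.length l h := by
  induction H with
  | nil => exact Bx.nil
  | cons _ h2 _ h4 _ ih => exact Bx.cons h2 (h4.trans hs.M) ih

theorem cl8_spec (hg : GlSpec) {P : Par} {tb tq tc : Tr} {Y0 B δ n c : ℕ} {κ : ℝ} {μ : ℕ → ℝ}
    {Ψ : List ℕ → ℝ} (hx : Ctx P tb B δ κ μ Ψ) (hq : ckr Y0 tb tq = 0) (hT : TcOK P tb tc)
    (h0 : 0 < n) (hn : n ≤ 14) (f : ℕ) : Snd P tb B δ n c κ μ Ψ fun l h =>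
      cl8 P.G P.N (P.N * P.G) P.T (P.G / 32) (P.z / P.G) Y0 tb tq tc n c f (pk l) (pk h) := by
  induction f with
  | zero => exact fun _ _ _ _ _ _ _ _ _ _ _ _ _ h => absurd h (lt_irrefl _)
  | succ f ih =>
    intro los his CT j0 CL K s hb hl hc hC hK hL h
    simp only [cl8_step _ _ _ _ _ _ _ _ _ _ _ hn f (hl ▸ kGm_bx hx.sm hb)] at h ⊢
    split_ifs at h ⊢
    · exact hg _ _ _ _ _ _ _ _ _ _ _ _ _ _ _ _ hx hb hl h0 hn hc hC hK hL h
    · exact st3_spec hx hq hT h0 (by omega) ih _ _ _ _ _ _ _ hb hl hc hC hK hL h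

/-- what a treatment of the single boxes has to achieve -/
def WOK (P : Par) (B δ : ℕ) (κ : ℝ) (μ : ℕ → ℝ) (Ψ : List ℕ → ℝ)
    (w : ℕ → ℕ → List ℕ → List ℕ → ℕ → ℕ) : Prop := ∀ n c los his s, 0 < n → n ≤ 30 →
  BoxOK P los his → los.length = n → Low P B δ c los his → w n c los his s < BAD →
  bs B μ los his Ψ ≤ κ ^ 30 / 2 ^ 52 * w n c los his s

theorem cq8_eq (G N M T U c0 Y0 : ℕ) (tb tq tc : Tr) (n c : ℕ) (los his : List ℕ) (s : ℕ) :
    cq8 G N M T U c0 Y0 tb tq tc n c los his s = if bok los his n + (n - 14) = 0 then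
      cl8 G N M T U c0 Y0 tb tq tc n c 250 (pk los) (pk his) CT0 0 [] CT0 s else
      cl3 G N M T U c0 Y0 tb tq tc n c 250 los his CT0 0 [] CT0 s := iz_eq ..

theorem cq8_zero (G N M T U c0 Y0 : ℕ) (tb tq tc : Tr) (n c : ℕ) (l h : List ℕ) :
    cq8 G N M T U c0 Y0 tb tq tc n c l h 0 = Fv G M c0 Y0 tq c l h := by
  rw [cq8_eq]
  split_ifs with h1
  · rw [cl8_step _ _ _ _ _ _ _ _ _ _ _ (by omega) 249 (bok_spec (by omega)), if_neg (by norm_num),
      st3, if_pos rfl, if_pos (by norm_num), Fv, sm_eq, sm_eq]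
  · exact cl3_zero ..

theorem cq8_spec (hg : GlSpec) {P : Par} {tb tq tc : Tr} {Y0 B δ : ℕ} {κ : ℝ} {μ : ℕ → ℝ}
    {Ψ : List ℕ → ℝ} (hx : Ctx P tb B δ κ μ Ψ) (hq : ckr Y0 tb tq = 0) (hT : TcOK P tb tc) :
    WOK P B δ κ μ Ψ (cq8 P.G P.N (P.N * P.G) P.T (P.G / 32) (P.z / P.G) Y0 tb tq tc) := by
  intro n c los his s h0 hn hb hl hc h
  rw [cq8_eq] at h ⊢
  split_ifs at h ⊢ with h1
  · have := cl8_spec hg hx hq hT h0 (by omega) 250 _ _ _ _ [] _ s hb hl hc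
      (CT0_spec tb los his hx.sm hx.B0) (MI_CT0 los his hx.sm hx.B0) (by simp) h
    have h1 := pow_le_pow_right₀ hx.κ1 hn
    exact this.trans (by gcongr)
  · exact kMc_cl hx hq hT h0 hn hb hl hc rfl h

variable {P : Par} {tb tq : Tr} {Y0 B δ : ℕ} {κ : ℝ} {μ : ℕ → ℝ} {Ψ : List ℕ → ℝ}
  {w : ℕ → ℕ → List ℕ → List ℕ → ℕ → ℕ}

theorem opg_spec (hx : Ctx P tb B δ κ μ Ψ) (hw : WOK P B δ κ μ Ψ w) (f : ℕ) :
    ∀ {n c s g : ℕ} {los his : List ℕ}, 0 < n → n + g ≤ 31 → BoxOK P los his → los.length = n →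
    Low P B δ c los his → opg P.G (P.N * P.G) P.z w f n c los his s < BAD →
    bs B μ los his (tot (P.N * (P.G * B)) μ Ψ g) ≤ κ ^ 30 / 2 ^ 52 *
      opg P.G (P.N * P.G) P.z w f n c los his s := by
  induction f with
  | zero => exact fun _ _ _ _ _ h => absurd h (lt_irrefl _)
  | succ f ih =>
    intro n c s g los his h0 hg hb hl hc h
    cases g with
    | zero => exact kMc_zero hx.κ1 hx.mass.1 hb.len _
    | succ g =>
      obtain ⟨a, b, e⟩ : ∃ a b, opg P.G (P.N * P.G) P.z w (f + 1) n c los his s =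
          w n c los his a + fz (n + 1) fun n' => xp P.G (P.N * P.G) P.z c los his b
            fun d l h u => opg P.G (P.N * P.G) P.z w f n' d l h u := tk_eq s _
      rw [e, fz_eq] at h ⊢
      rw [Nat.cast_add, mul_add]
      refine (xp_spec hx hb hc (fun d l h u k1 k2 k3 k4 => ?_) (by omega)).trans
        (add_le_add_left (hw _ _ _ _ _ h0 (by omega) hb hl hc (by omega)) _)
      exact ih (by omega) (by omega) k1 (by omega) k2 k4

theorem orc_specg {G N M z c0 o c : ℕ} {los his : List ℕ} {J : Jt}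
    (hJ : rung G N M z c0 Y0 tq w J = 0) {i : ℕ} (h : orc o c los his J i < BAD) :
    ∃ s, (if o = 0 then w los.length c los his s else
      op4 G N M z c0 Y0 tq w 40 los.length c los his s) ≤ orc o c los his J i := by
  induction J generalizing i with
  | leaf o' c' l h' r s =>
    have e : orc o c los his (Jt.leaf o' c' l h' r s) i =
      iz (eql (o :: c :: los) (o' :: c' :: l) + eql his h') r BAD := rfl
    have e' : rung G N M z c0 Y0 tq w (Jt.leaf o' c' l h' r s) = il BAD r 1 (il (fz (ln l)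
      fun n => iz o' (w n c' l h' s) (op4 G N M z c0 Y0 tq w 40 n c' l h' s)) r 0 1) := rfl
    rw [e, iz_eq] at h ⊢
    rw [e', il_eq, il_eq, fz_eq, iz_eq, ln_len] at hJ
    by_cases h1 : eql (o :: c :: los) (o' :: c' :: l) + eql his h' = 0
    · rw [if_pos h1] at h ⊢
      obtain ⟨k1, k2⟩ := Nat.add_eq_zero_iff.1 h1
      obtain ⟨rfl, k3⟩ := List.cons.inj (kMc_eql k1)
      obtain ⟨rfl, rfl⟩ := List.cons.inj k3
      obtain rfl := kMc_eql k2
      rw [if_neg h.not_ge] at hJ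
      exact ⟨s, not_not.1 ((ite_eq_left_iff.1 hJ).mt Nat.one_ne_zero)⟩
    · rw [if_neg h1] at h
      exact absurd h (lt_irrefl _)
  | node a b iha ihb =>
    have e : orc o c los his (Jt.node a b) i = fz (i / 2) fun i' =>
      iz (i % 2) (orc o c los his a i') (orc o c los his b i') := rfl
    obtain ⟨ha, hb⟩ := Nat.add_eq_zero_iff.1 hJ
    rw [e, fz_eq, iz_eq] at h ⊢
    by_cases h1 : i % 2 = 0
    · rw [if_pos h1] at h ⊢
      exact iha ha h
    · rw [if_neg h1] at h ⊢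
      exact ihb hb h

theorem cv_specg {J : Jt} (hx : Ctx P tb B δ κ μ Ψ) (hz : P.z = P.z / P.G * P.G)
    (hw : WOK P B δ κ μ Ψ w)
    (hw0 : ∀ n c l h, w n c l h 0 = Fv P.G (P.N * P.G) (P.z / P.G) Y0 tq c l h)
    (hJ : rung P.G P.N (P.N * P.G) P.z (P.z / P.G) Y0 tq w J = 0) (f : ℕ) :
    ∀ {o n c s g : ℕ} {los his : List ℕ}, 0 < n → n + g ≤ 31 → (o = 0 → n ≤ 30) →
    BoxOK P los his → los.length = n → Low P B δ c los his →
    cv P.G (P.N * P.G) P.z J f o n c los his s < BAD →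
    bs B μ los his (tgt (P.N * (P.G * B)) μ Ψ o g) ≤ κ ^ 30 / 2 ^ 52 *
      cv P.G (P.N * P.G) P.z J f o n c los his s := by
  induction f with
  | zero => exact fun _ _ _ _ _ _ h => absurd h (lt_irrefl _)
  | succ f ih =>
    intro o n c s g los his h0 hg ho hb hl hc h
    generalize hF : cv P.G (P.N * P.G) P.z J f = F at ih
    have e : cv P.G (P.N * P.G) P.z J (f + 1) o n c los his s = fz (s % 4) fun u =>
      iz u (orc o c los his J (s >>> 2)) (il u 2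
        (spl n los his (s >>> 2) fun l h a => F o n c l h a)
        (iz o BAD (tk (s >>> 2) fun a b => F 0 n c los his a + fz (n + 1) fun n' =>
          xp P.G (P.N * P.G) P.z c los his b fun d l h u => F 1 n' d l h u))) := by
      rw [← hF]
      rfl
    rw [e] at h ⊢
    clear e hF
    simp only [fz_eq, iz_eq, il_eq] at h ⊢
    split_ifs at h ⊢ with h1 h2 h3
    · obtain ⟨s', k1⟩ := orc_specg hJ h
      have k3 := k1.trans_lt h
      have k4 := hx.κ1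
      have k5 : (0 : ℝ) ≤ κ ^ 30 / 2 ^ 52 := by positivity
      rw [hl] at k1 k3
      rw [tgt]
      split_ifs at k1 k3 ⊢ with h4
      · exact (hw _ _ _ _ _ h0 (ho h4) hb hl hc k3).trans
          (mul_le_mul_of_nonneg_left (Nat.cast_le.2 k1) k5)
      · have hG : 0 < P.G := by have := hx.sm.G2; omega
        have k6 := op4_spec hG (Nat.div_pos hx.sm.Gz hG) hx.sm.N1 hw0 (fun _ _ _ _ _ _ => le_rfl)
          40 n c los his s' (hz ▸ k3)
        rw [← hz] at k6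
        exact (opg_spec hx hw 40 h0 hg hb hl hc (k6.trans_lt k3)).trans
          (mul_le_mul_of_nonneg_left (Nat.cast_le.2 (k6.trans k1)) k5)
    · obtain ⟨his', los', a, b, k1, k2, k3, k4, k5, k6, k7⟩ := spl_spec B μ hb hl h
      rw [k1] at h ⊢
      rw [k7, Nat.cast_add, mul_add]
      exact add_le_add (ih h0 hg ho k2 hl (kMc_low hc k5) (by omega))
        (ih h0 hg ho k3 k4 (kMc_low hc k6) (by omega))
    · exact absurd h (lt_irrefl _)
    · rw [tgt, if_neg h3]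
      cases g with
      | zero => exact kMc_zero hx.κ1 hx.mass.1 hb.len _
      | succ g =>
        obtain ⟨a, b, e⟩ := tk_eq (s >>> 2) fun a b => F 0 n c los his a +
          xp P.G (P.N * P.G) P.z c los his b fun d l h u => F 1 (n + 1) d l h u
        rw [e] at h ⊢
        rw [Nat.cast_add, mul_add]
        refine (xp_spec hx hb hc (fun d l h u k1 k2 k3 k4 => ?_) (by omega)).trans
          (add_le_add_left (ih (o := 0) (g := 0) h0 (by omega) (by omega) hb hl hc (by omega)) _)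
        exact ih (o := 1) (by omega) (by omega) (by omega) k1 (by omega) k2 k4

theorem top_specg {J : Jt} {s : ℕ} (hx : Ctx P tb B δ κ μ Ψ) (hz : P.z = P.z / P.G * P.G)
    (hw : WOK P B δ κ μ Ψ w)
    (hw0 : ∀ n c l h, w n c l h 0 = Fv P.G (P.N * P.G) (P.z / P.G) Y0 tq c l h)
    (hJ : rung P.G P.N (P.N * P.G) P.z (P.z / P.G) Y0 tq w J = 0)
    (h : top P.G (P.N * P.G) P.z (P.z / P.G) J s < BAD) :
    tot (P.N * (P.G * B)) μ Ψ 31 [] ≤ κ ^ 30 / 2 ^ 52 * top P.G (P.N * P.G) P.z (P.z / P.G) J s := by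
  have h1 := xp_spec (f := 30) (K := κ ^ 30 / 2 ^ 52) hx BoxOK.nil (c := P.z / P.G)
    ⟨le_rfl, fun pre ext _ H y hy => kTc_low hx.B0 H _
      (List.mem_map_of_mem (List.mem_append_right _ hy))⟩
    (fun d l h u k1 k2 k3 k4 => cv_specg hx hz hw hw0 hJ 250 (o := 1) (n := 1) (g := 30) one_pos
      le_rfl (by omega) k1 k3 k2 k4) h
  have h2 : Ψ [] ≤ 0 := (hx.dom []).elim id fun ⟨_, h, _⟩ => absurd rfl h
  exact h1.trans (add_le_of_nonpos_left h2)

theorem top_spec8 (hg : GlSpec) {tc : Tr} {J : Jt} {s : ℕ} (hx : Ctx P tb B δ κ μ Ψ)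
    (hz : P.z = P.z / P.G * P.G) (hq : ckr Y0 tb tq = 0) (hT : TcOK P tb tc)
    (hJ : run8 P.G P.N (P.N * P.G) P.T (P.G / 32) P.z (P.z / P.G) Y0 tb tq tc J = 0)
    (h : top P.G (P.N * P.G) P.z (P.z / P.G) J s < BAD) :
    tot (P.N * (P.G * B)) μ Ψ 31 [] ≤ κ ^ 30 / 2 ^ 52 * top P.G (P.N * P.G) P.z (P.z / P.G) J s :=
  top_specg hx hz (cq8_spec hg hx hq hT) (cq8_zero _ _ _ _ _ _ _ _ _ _) hJ h

theorem cert_of_run8 (hg : GlSpec) {tc : Tr} {J : Jt} {s : ℕ} (hs : Sm P)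
    (hz : P.z = P.z / P.G * P.G) (hc : chk P.N P.Q tb (P.z / P.G) [] = 0) (hq : ckr Y0 tb tq = 0)
    (hT : TcOK P tb tc)
    (hJ : run8 P.G P.N (P.N * P.G) P.T (P.G / 32) P.z (P.z / P.G) Y0 tb tq tc J = 0)
    (h : 1000 * top P.G (P.N * P.G) P.z (P.z / P.G) J s ≤ 998 * 2 ^ 52) :
    Cert P (lamT P.N (P.z / P.G) tb) :=
  cert_of hs hc h fun _ _ _ _ _ hx => top_spec8 hg hx hz hq hT hJ (by rw [BAD_eq]; omega)

theorem run8_node {G N M T U z c0 : ℕ} {tc : Tr} {a b : Jt}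
    (ha : run8 G N M T U z c0 Y0 tb tq tc a = 0) (hb : run8 G N M T U z c0 Y0 tb tq tc b = 0) :
    run8 G N M T U z c0 Y0 tb tq tc (Jt.node a b) = 0 :=
  rung_node ha hb

end Pool.Agent.Work.MP_82fd4a_nt.P.G
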