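import Pool.Agent.Work.MP_82fd4a_nt.P.Pr
import Pool.Agent.Work.MP_82fd4a_nt.P.KGm

/-! The meaning of the machine that can discard a box together with all its extensions. -/

set_option autoImplicit false
open Finset

namespace Pool.Agent.Work.MP_82fd4a_nt.P.G

open BS Y F

theorem kPr_full (l : List ℕ) : (l, []) ∈ splits l := by
  induction l with
  | nil => simp [splits]
  | cons a l ih => exact List.mem_append_left _ (List.mem_map.2 ⟨_, ih, rfl⟩)

theorem kPr_snoc {l : List ℕ} {a : ℕ} {p : List ℕ × List ℕ} (hp : p ∈ splits (l ++ [a])) :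
    ∃ q ∈ splits l, p = (q.1 ++ [a], q.2) ∨ p = (q.1, q.2 ++ [a]) := by
  induction l generalizing p with
  | nil => exact ⟨([], []), by simp [splits], by simpa [splits] using hp⟩
  | cons x l ih =>
    rcases List.mem_append.1 hp with h | h <;> obtain ⟨r, hr, rfl⟩ := List.mem_map.1 h <;>
      obtain ⟨q, hq, e⟩ := ih hr
    · exact ⟨(x :: q.1, q.2), List.mem_append_left _ (List.mem_map.2 ⟨_, hq, rfl⟩),
        e.imp (by rintro rfl; rfl) (by rintro rfl; rfl)⟩
    · exact ⟨(q.1, x :: q.2), List.mem_append_right _ (List.mem_map.2 ⟨_, hq, rfl⟩),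
        e.imp (by rintro rfl; rfl) (by rintro rfl; rfl)⟩

theorem kPr_hyp {P : Par} {B δ : ℕ} {pre u : List ℕ} (hu : u ≠ []) (H : Hyp P B δ (pre ++ u)) :
    Hyp P B δ (pre ++ [u.sum]) := by
  obtain ⟨a, ha⟩ := List.exists_mem_of_ne_nil u hu
  have h1 : a ≤ u.sum := List.single_le_sum (fun _ _ => Nat.zero_le _) a ha
  have h2 := H.sorted
  rw [List.map_append, List.pairwise_append] at h2
  refine ⟨?_, fun b hb => ?_, by simpa using H.lo, by simpa using H.hi, fun p hp k1 k2 => ?_⟩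
  · rw [List.map_append, List.pairwise_append]
    refine ⟨h2.1, by simp, fun x hx y hy => ?_⟩
    rw [List.map_singleton, List.mem_singleton] at hy
    exact hy ▸ (h2.2.2 x hx _ (List.mem_map_of_mem ha)).trans (Nat.div_le_div_right h1)
  · rcases List.mem_append.1 hb with h | h
    · exact H.big b (List.mem_append_left _ h)
    · exact List.mem_singleton.1 h ▸ (H.big a (List.mem_append_right _ ha)).trans h1
  · obtain ⟨q, hq, rfl | rfl⟩ := kPr_snoc hp
    · simpa using H.wall _ (splits_append hq (kPr_full u)) (by simp [hu]) (by simpa using k2)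
    · simpa using H.wall _ (splits_append hq (nil_mem_splits u)) (by simpa using k1) (by simp [hu])

theorem kPr_sum (u : List ℕ) : ∑ j ∈ range u.length, u.getD j 0 = u.sum := by
  induction u with
  | nil => rfl
  | cons a u ih => simp only [List.length_cons, sum_range_succ', List.getD_cons_succ, ih,
      List.getD_cons_zero, List.sum_cons, add_comm]

theorem kPr_dot (m : ℕ → ℕ) (pre u : List ℕ) :
    dot (fun j => m (min j pre.length)) (pre ++ u) = dot m (pre ++ [u.sum]) := by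
  have e : ∀ (v : List ℕ) (f : ℕ → ℕ), dot f (pre ++ v) = ∑ j ∈ range pre.length,
      f j * pre.getD j 0 + ∑ j ∈ range v.length, f (pre.length + j) * v.getD j 0 := fun v f => by
    rw [dot, List.length_append, sum_range_add]
    congr 1
    · exact sum_congr rfl fun j hj => by rw [List.getD_append _ _ _ _ (mem_range.1 hj)]
    · exact sum_congr rfl fun j _ => by
        rw [List.getD_append_right _ _ _ _ (Nat.le_add_right _ _), Nat.add_sub_cancel_left]
  rw [e, e]
  congr 1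
  · exact sum_congr rfl fun j hj => by rw [min_eq_left (mem_range.1 hj).le]
  · simp only [min_eq_right (Nat.le_add_right _ _), ← mul_sum, kPr_sum]
    simp

theorem kPr_good {T U δ : ℝ} {pre u : List ℕ} (h : GoodL T U δ (pre ++ [u.sum])) :
    GoodL T U δ (pre ++ u) := by
  obtain ⟨n, w, m, h⟩ := h
  refine ⟨n, w, fun i j => m i (min j pre.length), h.n16, h.w0, ?_, ?_, fun j _ => h.cap _ ?_, ?_⟩
  · simpa only [kPr_dot] using h.lo
  · simpa only [kPr_dot] using h.hi
  · simp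
  · simpa only [kPr_dot] using h.val

theorem kPr_look (D : List ℕ) (hD : D ≠ []) (a : ℕ) : look D 0 Tr.e a = 0 := by
  cases D with
  | nil => exact absurd rfl hD
  | cons _ _ => rfl

theorem kPr_W (N c0 F : ℕ) (t : List ℕ) : W (lamT N c0 Tr.e) F t = 1 := by
  rw [W, ← kTc_nil t 1]
  refine congrArg List.sum (List.map_congr_left fun p _ => ?_)
  by_cases h : p.1 = []
  · rw [if_pos h, h]
    exact lamT_nil _ _ _ _
  · have h1 : p.1.map (· / F) ≠ [] := by simpa using h
    rw [if_neg h, lamT, if_neg h1, if_pos (Or.inl (kPr_look _ h1 _))]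

theorem kPr_tc (P : Par) : TcOK P Tr.e Tr.e := fun K hK _ _ pre _ _ _ _ h _ _ h1 =>
  absurd (kPr_look _ (by rintro h2; rw [List.map_eq_nil_iff] at h2; simp [h2] at h; omega) _) h1

variable {P : Par} {tb tq : Tr} {Y0 B δ : ℕ} {κ : ℝ} {μ : ℕ → ℝ} {Ψ : List ℕ → ℝ}
  {w w0 : ℕ → ℕ → List ℕ → List ℕ → ℕ → ℕ}

theorem kPr_ctx (hx : Ctx P tb B δ κ μ Ψ) (g : ℕ) : Ctx P Tr.e B δ κ μ fun pre =>
    if pre = [] then 0 else tot (P.N * (P.G * B)) μ Ψ g pre := by
  refine ⟨hx.sm, hx.B0, hx.δB, hx.κ1, hx.mass, fun pre => ?_⟩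
  by_cases h0 : pre = []
  · exact Or.inl (if_pos h0).le
  by_cases h1 : ∀ ext, Ψ (pre ++ ext) ≤ 0
  · exact Or.inl ((if_neg h0).trans_le (tot_nonpos hx.mass.1 g h1))
  obtain ⟨ext, h2⟩ := not_forall.1 h1
  obtain ⟨a, -, h3, h4, -⟩ := (hx.dom _).resolve_left h2
  rw [List.append_assoc] at h3 h4
  exact Or.inr ⟨_, h0, kPr_hyp (by simp) h3, fun h => h4 (kPr_good h),
    Or.inl (by rw [kPr_W]; exact one_pos)⟩

/-- what is required of the treatment of a box with all its extensions -/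
def POK (P : Par) (B δ : ℕ) (κ : ℝ) (μ : ℕ → ℝ) (Ψ : List ℕ → ℝ)
    (w0 : ℕ → ℕ → List ℕ → List ℕ → ℕ → ℕ) : Prop := ∀ g, WOK P B δ κ μ
  (fun pre => if pre = [] then 0 else tot (P.N * (P.G * B)) μ Ψ g pre) w0

theorem op5_spec (hx : Ctx P tb B δ κ μ Ψ) (hz : P.z = P.z / P.G * P.G)
    (hw : WOK P B δ κ μ Ψ w) (hp : POK P B δ κ μ Ψ w0)
    (hw0 : ∀ n c l h, w n c l h 0 = Fv P.G (P.N * P.G) (P.z / P.G) Y0 tq c l h) (f : ℕ) :
    ∀ {n c s g : ℕ} {los his : List ℕ}, 0 < n → n + g ≤ 31 → BoxOK P los his → los.length = n →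
    Low P B δ c los his →
    op5 P.G P.N (P.N * P.G) P.z (P.z / P.G) Y0 tq w w0 f n c los his s < BAD →
    bs B μ los his (tot (P.N * (P.G * B)) μ Ψ g) ≤ κ ^ 30 / 2 ^ 52 *
      op5 P.G P.N (P.N * P.G) P.z (P.z / P.G) Y0 tq w w0 f n c los his s := by
  induction f with
  | zero => exact fun _ _ _ _ _ h => absurd h (lt_irrefl _)
  | succ f ih =>
    intro n c s g los his h0 hg hb hl hc h
    cases g with
    | zero => exact kMc_zero hx.κ1 hx.mass.1 hb.len _
    | succ g =>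
    have k4 := hx.κ1
    have hG : 0 < P.G := by have := hx.sm.G2; omega
    have k0 : ∀ r, op4 P.G P.N (P.N * P.G) P.z (P.z / P.G) Y0 tq w (f + 1) n c los his s = r →
        r < BAD → bs B μ los his (tot (P.N * (P.G * B)) μ Ψ (g + 1)) ≤ κ ^ 30 / 2 ^ 52 * r := by
      rintro _ rfl k3
      have k6 := op4_spec hG (Nat.div_pos hx.sm.Gz hG) hx.sm.N1 hw0 (fun _ _ _ _ _ _ => le_rfl)
        (f + 1) n c los his s (hz ▸ k3)
      rw [← hz] at k6
      exact (opg_spec hx hw _ h0 hg hb hl hc (k6.trans_lt k3)).trans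
        (mul_le_mul_of_nonneg_left (Nat.cast_le.2 k6) (by positivity))
    generalize P.z / P.G = c0 at *
    have e4 : op4 P.G P.N (P.N * P.G) P.z c0 Y0 tq w (f + 1) n c los his s =
      iz s (ent P.G P.N c0 Y0 tq c los his (aub P.N c0 (f + 1) c)) (tk s fun a b =>
        w n c los his a + iz b (il c ((P.N * P.G - sm los) / (2 * P.G))
          (ent P.G P.N c0 Y0 tq c los his (kid (aub P.N c0 f) c)) 0)
        (fz (n + 1) fun n' => xp P.G (P.N * P.G) P.z c los his b fun d l h u =>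
          op4 P.G P.N (P.N * P.G) P.z c0 Y0 tq w f n' d l h u)) := rfl
    have e5 : op5 P.G P.N (P.N * P.G) P.z c0 Y0 tq w w0 (f + 1) n c los his s =
      iz s (ent P.G P.N c0 Y0 tq c los his (aub P.N c0 (f + 1) c)) (tk s fun a b =>
        iz (a % 16 + (1 - a)) (w0 n c los his (a >>> 4)) (w n c los his a +
        iz b (il c ((P.N * P.G - sm los) / (2 * P.G))
          (ent P.G P.N c0 Y0 tq c los his (kid (aub P.N c0 f) c)) 0)
        (fz (n + 1) fun n' => xp P.G (P.N * P.G) P.z c los his b fun d l h u =>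
          op5 P.G P.N (P.N * P.G) P.z c0 Y0 tq w w0 f n' d l h u))) := rfl
    obtain ⟨a, b, e1⟩ : ∃ a b, ∀ k, tk s k = k a b := ⟨_, _, fun k => by
      unfold tk
      simp only [fz_eq]
      rfl⟩
    rw [e4, e1, iz_eq, iz_eq] at k0
    rw [e5, e1, iz_eq, iz_eq, iz_eq] at h ⊢
    by_cases h1 : s = 0
    · rw [if_pos h1] at h k0 ⊢
      exact k0 _ rfl h
    rw [if_neg h1] at h k0 ⊢
    by_cases h2 : a % 16 + (1 - a) = 0
    · rw [if_pos h2] at h ⊢
      refine le_trans (bs_mono hx.mass.1 hb.len fun p hp => (if_neg ?_).ge)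
        (hp (g + 1) _ _ _ _ _ h0 (by omega) hb hl hc h)
      rintro rfl
      have := hp.len.1
      rw [List.length_nil] at this
      omega
    rw [if_neg h2] at h ⊢
    by_cases h3 : b = 0
    · rw [if_pos h3] at h k0 ⊢
      exact k0 _ rfl h
    rw [if_neg h3, fz_eq] at h ⊢
    rw [Nat.cast_add, mul_add]
    refine (xp_spec hx hb hc (fun d l h u k1 k2 k3 k4 => ?_) (by omega)).trans
      (add_le_add_left (hw _ _ _ _ _ h0 (by omega) hb hl hc (by omega)) _)
    exact ih (by omega) (by omega) k1 (by omega) k2 k4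

theorem orc_specp {G N M z c0 o c : ℕ} {los his : List ℕ} {J : Jt}
    (hJ : runp G N M z c0 Y0 tq w w0 J = 0) {i : ℕ} (h : orc o c los his J i < BAD) :
    ∃ s, (if o = 0 then w los.length c los his s else
      op5 G N M z c0 Y0 tq w w0 40 los.length c los his s) ≤ orc o c los his J i := by
  induction J generalizing i with
  | leaf o' c' l h' r s =>
    have e : orc o c los his (Jt.leaf o' c' l h' r s) i =
      iz (eql (o :: c :: los) (o' :: c' :: l) + eql his h') r BAD := rfl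
    have e' : runp G N M z c0 Y0 tq w w0 (Jt.leaf o' c' l h' r s) = il BAD r 1 (il (fz (ln l)
      fun n => iz o' (w n c' l h' s) (op5 G N M z c0 Y0 tq w w0 40 n c' l h' s)) r 0 1) := rfl
    rw [e, iz_eq] at h ⊢
    rw [e', il_eq, il_eq, fz_eq, iz_eq, ln_len] at hJ
    by_cases h1 : eql (o :: c :: los) (o' :: c' :: l) + eql his h' = 0
    · rw [if_pos h1] at h ⊢
      obtain ⟨k1, k2⟩ := Nat.add_eq_zero_iff.1 h1
      obtain ⟨rfl, k3⟩ := List.cons.inj (kMc_eql k1)
      obtain ⟨rfl, rfl⟩ := List.cons.inj k3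
      obtain rfl := kMc_eql k2
      rw [if_neg h.not_ge] at hJ
      exact ⟨s, not_not.1 ((ite_eq_left_iff.1 hJ).mt Nat.one_ne_zero)⟩
    · rw [if_neg h1] at h
      exact absurd h (lt_irrefl _)
  | node a b iha ihb =>
    have e : orc o c los his (Jt.node a b) i = fz (i / 2) fun i' =>
      iz (i % 2) (orc o c los his a i') (orc o c los his b i') := rfl
    obtain ⟨ha, hb⟩ := Nat.add_eq_zero_iff.1 hJ
    rw [e, fz_eq, iz_eq] at h ⊢
    by_cases h1 : i % 2 = 0
    · rw [if_pos h1] at h ⊢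
      exact iha ha h
    · rw [if_neg h1] at h ⊢
      exact ihb hb h

/-- the bounds recorded in the jobs are right -/
def JOK (P : Par) (B δ : ℕ) (κ : ℝ) (μ : ℕ → ℝ) (Ψ : List ℕ → ℝ) (J : Jt) : Prop :=
  ∀ o c g los his i, 0 < los.length → los.length + g ≤ 31 → (o = 0 → los.length ≤ 30) →
    BoxOK P los his → Low P B δ c los his → orc o c los his J i < BAD →
    bs B μ los his (tgt (P.N * (P.G * B)) μ Ψ o g) ≤ κ ^ 30 / 2 ^ 52 * orc o c los his J i

theorem cv_specj {J : Jt} (hx : Ctx P tb B δ κ μ Ψ) (hJ : JOK P B δ κ μ Ψ J) (f : ℕ) :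
    ∀ {o n c s g : ℕ} {los his : List ℕ}, 0 < n → n + g ≤ 31 → (o = 0 → n ≤ 30) →
    BoxOK P los his → los.length = n → Low P B δ c los his →
    cv P.G (P.N * P.G) P.z J f o n c los his s < BAD →
    bs B μ los his (tgt (P.N * (P.G * B)) μ Ψ o g) ≤ κ ^ 30 / 2 ^ 52 *
      cv P.G (P.N * P.G) P.z J f o n c los his s := by
  induction f with
  | zero => exact fun _ _ _ _ _ _ h => absurd h (lt_irrefl _)
  | succ f ih =>
    intro o n c s g los his h0 hg ho hb hl hc h
    generalize hF : cv P.G (P.N * P.G) P.z J f = F at ih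
    have e : cv P.G (P.N * P.G) P.z J (f + 1) o n c los his s = fz (s % 4) fun u =>
      iz u (orc o c los his J (s >>> 2)) (il u 2
        (spl n los his (s >>> 2) fun l h a => F o n c l h a)
        (iz o BAD (tk (s >>> 2) fun a b => F 0 n c los his a + fz (n + 1) fun n' =>
          xp P.G (P.N * P.G) P.z c los his b fun d l h u => F 1 n' d l h u))) := by
      rw [← hF]
      rfl
    rw [e] at h ⊢
    clear e hF
    simp only [fz_eq, iz_eq, il_eq] at h ⊢
    split_ifs at h ⊢ with h1 h2 h3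
    · subst hl
      exact hJ _ _ _ _ _ _ h0 hg ho hb hc h
    · obtain ⟨his', los', a, b, k1, k2, k3, k4, k5, k6, k7⟩ := spl_spec B μ hb hl h
      rw [k1] at h ⊢
      rw [k7, Nat.cast_add, mul_add]
      exact add_le_add (ih h0 hg ho k2 hl (kMc_low hc k5) (by omega))
        (ih h0 hg ho k3 k4 (kMc_low hc k6) (by omega))
    · exact absurd h (lt_irrefl _)
    · rw [tgt, if_neg h3]
      cases g with
      | zero => exact kMc_zero hx.κ1 hx.mass.1 hb.len _
      | succ g =>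
        obtain ⟨a, b, e⟩ := tk_eq (s >>> 2) fun a b => F 0 n c los his a +
          xp P.G (P.N * P.G) P.z c los his b fun d l h u => F 1 (n + 1) d l h u
        rw [e] at h ⊢
        rw [Nat.cast_add, mul_add]
        refine (xp_spec hx hb hc (fun d l h u k1 k2 k3 k4 => ?_) (by omega)).trans
          (add_le_add_left (ih (o := 0) (g := 0) h0 (by omega) (by omega) hb hl hc (by omega)) _)
        exact ih (o := 1) (by omega) (by omega) (by omega) k1 (by omega) k2 k4

theorem top_specj {J : Jt} {s : ℕ} (hx : Ctx P tb B δ κ μ Ψ) (hJ : JOK P B δ κ μ Ψ J)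
    (h : top P.G (P.N * P.G) P.z (P.z / P.G) J s < BAD) :
    tot (P.N * (P.G * B)) μ Ψ 31 [] ≤ κ ^ 30 / 2 ^ 52 * top P.G (P.N * P.G) P.z (P.z / P.G) J s := by
  have h1 := xp_spec (f := 30) (K := κ ^ 30 / 2 ^ 52) hx BoxOK.nil (c := P.z / P.G)
    ⟨le_rfl, fun pre ext _ H y hy => kTc_low hx.B0 H _
      (List.mem_map_of_mem (List.mem_append_right _ hy))⟩
    (fun d l h u k1 k2 k3 k4 => cv_specj hx hJ 250 (o := 1) (n := 1) (g := 30) one_pos
      le_rfl (by omega) k1 k3 k2 k4) h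
  have h2 : Ψ [] ≤ 0 := (hx.dom []).elim id fun ⟨_, h, _⟩ => absurd rfl h
  exact h1.trans (add_le_of_nonpos_left h2)

theorem jok_of_runp {J : Jt} (hx : Ctx P tb B δ κ μ Ψ) (hz : P.z = P.z / P.G * P.G)
    (hw : WOK P B δ κ μ Ψ w) (hp : POK P B δ κ μ Ψ w0)
    (hw0 : ∀ n c l h, w n c l h 0 = Fv P.G (P.N * P.G) (P.z / P.G) Y0 tq c l h)
    (hJ : runp P.G P.N (P.N * P.G) P.z (P.z / P.G) Y0 tq w w0 J = 0) : JOK P B δ κ μ Ψ J := by
  intro o c g los his i h0 hg ho hb hc h
  obtain ⟨s', k1⟩ := orc_specp hJ h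
  have k3 := k1.trans_lt h
  have k4 := hx.κ1
  have k5 : (0 : ℝ) ≤ κ ^ 30 / 2 ^ 52 := by positivity
  rw [tgt]
  split_ifs at k1 k3 ⊢ with h4
  · exact (hw _ _ _ _ _ h0 (ho h4) hb rfl hc k3).trans
      (mul_le_mul_of_nonneg_left (Nat.cast_le.2 k1) k5)
  · exact (op5_spec hx hz hw hp hw0 40 h0 hg hb rfl hc k3).trans
      (mul_le_mul_of_nonneg_left (Nat.cast_le.2 k1) k5)

theorem top_spec9 (hg : GlSpec) {tc : Tr} {J : Jt} {s : ℕ} (hx : Ctx P tb B δ κ μ Ψ)
    (hz : P.z = P.z / P.G * P.G) (hq : ckr Y0 tb tq = 0) (hT : TcOK P tb tc)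
    (hJ : run9 P.G P.N (P.N * P.G) P.T (P.G / 32) P.z (P.z / P.G) Y0 tb tq tc J = 0)
    (h : top P.G (P.N * P.G) P.z (P.z / P.G) J s < BAD) :
    tot (P.N * (P.G * B)) μ Ψ 31 [] ≤ κ ^ 30 / 2 ^ 52 * top P.G (P.N * P.G) P.z (P.z / P.G) J s :=
  top_specj hx (jok_of_runp hx hz (cq8_spec hg hx hq hT)
    (fun g => cq8_spec hg (kPr_ctx hx g) rfl (kPr_tc P)) (cq8_zero _ _ _ _ _ _ _ _ _ _) hJ) h

theorem cert_of_run9 (hg : GlSpec) {tc : Tr} {J : Jt} {s : ℕ} (hs : Sm P)
    (hz : P.z = P.z / P.G * P.G) (hc : chk P.N P.Q tb (P.z / P.G) [] = 0) (hq : ckr Y0 tb tq = 0)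
    (hT : TcOK P tb tc)
    (hJ : run9 P.G P.N (P.N * P.G) P.T (P.G / 32) P.z (P.z / P.G) Y0 tb tq tc J = 0)
    (h : 1000 * top P.G (P.N * P.G) P.z (P.z / P.G) J s ≤ 998 * 2 ^ 52) :
    Cert P (lamT P.N (P.z / P.G) tb) :=
  cert_of hs hc h fun _ _ _ _ _ hx => top_spec9 hg hx hz hq hT hJ (by rw [BAD_eq]; omega)

theorem run9_node {G N M T U z c0 : ℕ} {tc : Tr} {a b : Jt}
    (ha : run9 G N M T U z c0 Y0 tb tq tc a = 0) (hb : run9 G N M T U z c0 Y0 tb tq tc b = 0) :
    run9 G N M T U z c0 Y0 tb tq tc (Jt.node a b) = 0 :=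
  Nat.add_eq_zero_iff.2 ⟨ha, hb⟩

end Pool.Agent.Work.MP_82fd4a_nt.P.G
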