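import Pool.Agent.Work.MP_82fd4a_nt.P.Mc

/-! A faster way of evaluating the boxes that carry no instruction. -/

set_option autoImplicit false

namespace Pool.Agent.Work.MP_82fd4a_nt.P

open BS Y

noncomputable section

/-- the digit one at `k` places, in base `2 ^ 156` -/
def E1 (k : ℕ) : ℕ :=
  Nat.div (Nat.pow 2 (Nat.mul 156 k)) 91343852333181432387730302044767688728495783935

/-- the largest of `n` digits and of the last argument -/
def mxf (n : ℕ) : ℕ → ℕ → ℕ :=
  Nat.rec (fun _ X => X) (fun _ ih V X => ih (Nat.shiftRight V 156)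
    (Nat.add X (Nat.sub (Nat.mod V 91343852333181432387730302044767688728495783936) X))) n

/-- the cost times the mass -/
def lf4 (N jl a b u C : ℕ) : ℕ :=
  Nat.add (Nat.mul (Nat.sub C (Nat.pred C)) (Nat.succ
      (Nat.div (Nat.mul (Nat.mul C a) (Nat.mul N 1099511627776)) (Nat.mul b jl))))
    (Nat.shiftLeft (Nat.add u (Nat.shiftRight C 31)) 120)

/-- the largest cost -/
def lf3 (N jl k a b f m u Y : ℕ) : ℕ :=
  lf4 N jl a b u (Nat.div (Nat.add (Nat.sub (mxf k (Nat.shiftRight Y 156)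
    (Nat.add 1152921504606846976 (Nat.div (Nat.add (Nat.sub
      (Nat.mod Y 91343852333181432387730302044767688728495783936) 1152921504606846976) m)
      (Nat.succ m)))) 1152921504606846976) (Nat.pred f)) f)

/-- the test of the sign -/
def lf2 (N jl k a b f m u A P O : ℕ) : ℕ :=
  lf3 N jl k a b f m (Nat.add u (Nat.xor
      (Nat.land (Nat.sub O A) (Nat.mul 1152921504606846976 (E1 (Nat.succ k))))
      (Nat.mul 1152921504606846976 (E1 (Nat.succ k)))))
    (Nat.sub O (Nat.shiftRight (Nat.sub P A) 52))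

/-- the fields of the envelopes -/
def lf1 (N jl k a b f m u W P : ℕ) : ℕ :=
  lf2 N jl k a b f m u (Nat.land W (Nat.mul 4503599627370495 (E1 (Nat.succ k)))) P
    (Nat.add (Nat.shiftRight (Nat.sub W P) 85) (Nat.mul 1152921504606842880 (E1 (Nat.succ k))))

/-- the two lower fields of the envelopes -/
def lf0 (N jl k a b f m u W : ℕ) : ℕ :=
  lf1 N jl k a b f m u W (Nat.land W (Nat.mul 20282409603651670423947251286015 (E1 (Nat.succ k))))

/-- the envelopes for the cells from `jl` on -/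
def lfe (N c0 c R jl a b f m r : ℕ) : ℕ :=
  Nat.rec 0 (fun k _ => lf0 N jl k a b f (Nat.mul m (Nat.sub 1 (Nat.sub jl c)))
    (Nat.land r (Nat.mul 91343841444145690917699471216780250911913017344 (E1 128)))
    (Nat.add (Nat.mod (Nat.shiftRight r (Nat.mul 156 (Nat.succ (Nat.sub jl c0))))
        (Nat.pow 2 (Nat.mul 156 (Nat.succ k))))
      (Nat.mul (Nat.mod r 91343852333181432387730302044767688728495783936) (E1 (Nat.succ k)))))
    (Nat.sub R jl)

/-- the cost of a box from the envelopes -/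
def lfd (N c0 c R n a b f m r : ℕ) : ℕ :=
  lfe N c0 c R (Nat.add c (Nat.sub (Nat.sub R n) c)) a b f m r

/-- loop over the next cell -/
def lpa (k : ℕ → ℕ → ℕ → Tr → ℕ) (n : ℕ) : ℕ → ℕ → Tr → ℕ :=
  Nat.rec (fun _ _ _ => 0) (fun _ ih d m s => un s fun v u r =>
    Nat.add (k d m v (mrg s u)) (ih (Nat.succ d) 0 r)) n

/-- the boxes with one more entry -/
def kid (ih : ℕ → ℕ → ℕ → ℕ → ℕ → ℕ → ℕ → ℕ → Tr → ℕ) (c R n a b f m r : ℕ) (s : Tr) : ℕ :=
  lpa (fun d m' v s' => ih d (Nat.sub R d) (Nat.succ n) (Nat.mul a (Nat.succ (Nat.mul 2 d)))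
      (Nat.mul b (Nat.mul 2 (Nat.mul d (Nat.succ d)))) (Nat.mul f (Nat.succ m')) (Nat.succ m')
      (Nat.add r v) s')
    (Nat.sub (Nat.succ (Nat.div R 2)) c) c m s

/-- boxes with any number of further parts -/
def aub (N c0 fu : ℕ) : ℕ → ℕ → ℕ → ℕ → ℕ → ℕ → ℕ → ℕ → Tr → ℕ :=
  Nat.rec (fun _ _ _ _ _ _ _ _ _ => BAD) (fun _ ih c R n a b f m r s =>
    Nat.add (lfd N c0 c R n a b f m r) (kid ih c R n a b f m r s)) fu

/-- `pf` with a continuation that also gets the stream -/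
def pg (l : List ℕ) : Tr → ℕ → ℕ → (ℕ → ℕ → Tr → ℕ) → ℕ :=
  List.rec (fun s a o k => k o a s) (fun x _ ih s a o k =>
    un (skip s (Nat.sub x a)) fun v u _ => ih (mrg (skip s (Nat.sub x a)) u) x (Nat.add o v) k) l

/-- numerator of the mass -/
def pa (l : List ℕ) : ℕ := List.rec 1 (fun d _ ih => Nat.mul ih (Nat.succ (Nat.mul 2 d))) l

/-- denominator of the mass -/
def pb (l : List ℕ) : ℕ :=
  List.rec 1 (fun d _ ih => Nat.mul ih (Nat.mul 2 (Nat.mul d (Nat.succ d)))) l

/-- zero if the sides of the box are cells that are at most `c` -/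
def bx (G c : ℕ) (los : List ℕ) : List ℕ → ℕ :=
  List.rec (fun his => List.rec 0 (fun _ _ _ => 1) his) (fun lo _ ih his =>
    List.rec 1 (fun hi his' _ => iz (Nat.add (Nat.add (Nat.mod lo G) (Nat.sub (Nat.div lo G) c))
      (Nat.xor (Nat.add lo G) hi)) (ih his') 1) his) los

/-- the data attached to a box -/
def ent (G N c0 Y0 : ℕ) (tq : Tr) (c : ℕ) (los his : List ℕ)
    (k : ℕ → ℕ → ℕ → ℕ → ℕ → ℕ → ℕ → Tr → ℕ) : ℕ :=
  iz (Nat.add (bx G c los his) (Nat.sub c0 c)) (fl (cls G los) fun cs => pg cs tq c0 Y0 fun r a s =>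
    k (Nat.sub N (sm cs)) (ln cs) (pa cs) (pb cs) (mfn cs) (Nat.pred (cnt c cs)) r
      (skip s (Nat.sub c a))) BAD

/-- boxes with any number of further parts, for any treatment of a single box -/
def opg (G M z : ℕ) (w : ℕ → ℕ → List ℕ → List ℕ → ℕ → ℕ) (f : ℕ) :
    ℕ → ℕ → List ℕ → List ℕ → ℕ → ℕ :=
  Nat.rec (fun _ _ _ _ _ => BAD) (fun _ ih n c los his s => tk s fun a b =>
    Nat.add (w n c los his a)
      (fz (Nat.succ n) fun n' => xp G M z c los his b fun d l h u => ih n' d l h u)) f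

/-- the same with the short cut -/
def op4 (G N M z c0 Y0 : ℕ) (tq : Tr) (w : ℕ → ℕ → List ℕ → List ℕ → ℕ → ℕ) (f : ℕ) :
    ℕ → ℕ → List ℕ → List ℕ → ℕ → ℕ :=
  Nat.rec (fun _ _ _ _ _ => BAD) (fun g ih n c los his s =>
    iz s (ent G N c0 Y0 tq c los his (aub N c0 (Nat.succ g) c)) (tk s fun a b =>
      Nat.add (w n c los his a) (iz b
        (il c (Nat.div (Nat.sub M (sm los)) (Nat.mul 2 G))
          (ent G N c0 Y0 tq c los his (kid (aub N c0 g) c)) 0)
        (fz (Nat.succ n) fun n' => xp G M z c los his b fun d l h u => ih n' d l h u)))) f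

/-- zero if all the jobs respect their bounds -/
def rung (G N M z c0 Y0 : ℕ) (tq : Tr) (w : ℕ → ℕ → List ℕ → List ℕ → ℕ → ℕ) (J : Jt) : ℕ :=
  Jt.rec (fun o c l h r s => il BAD r 1 (il (fz (ln l) fun n => iz o (w n c l h s)
      (op4 G N M z c0 Y0 tq w 40 n c l h s)) r 0 1))
    (fun _ _ a b => Nat.add a b) J

/-- zero if all the jobs respect their bounds -/
def run4 (G N M T U z c0 Y0 : ℕ) (tb tq tc : Tr) (J : Jt) : ℕ :=
  rung G N M z c0 Y0 tq
    (fun n c l h s => cl3 G N M T U c0 Y0 tb tq tc n c 250 l h CT0 0 [] CT0 s) J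

end

end Pool.Agent.Work.MP_82fd4a_nt.P
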