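import Pool.Agent.Work.MP_82fd4a_nt.Rule

/-! Primes in short intervals: the interface between the sieve and the numerical certificate.

Scales.  A fine unit is `b` (in logarithms), a grid unit is `B` fine units, a cell is `G` grid
units, that is `F = G * B` fine units, and `N * F * b = log (2 x)`.  The type of a number is the
multiset of the rounded logarithms (fine units) of its prime factors. -/

set_option autoImplicit false
open Finset

namespace Pool.Agent.Work.MP_82fd4a_nt.P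

/-- the numerical parameters -/
structure Par where
  /-- number of cells -/
  N : ℕ
  /-- grid units in a cell -/
  G : ℕ
  /-- least size of a large part, in grid units -/
  z : ℕ
  /-- bound for the short variable of the type I sums, in cells -/
  Q : ℕ
  /-- logarithm of the length of the range of integration, in grid units -/
  T : ℕ

/-- what the analysis needs to know about the parameters -/
structure Par.OK (P : Par) : Prop where
  G0 : 0 < P.G
  N0 : 50 ≤ P.N
  even : 2 ∣ P.N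
  T1 : 480 * (P.N * P.G) ≤ 1000 * P.T
  T2 : 10000 * P.T ≤ 4802 * (P.N * P.G)
  z1 : P.N * P.G ≤ 30 * P.z
  z2 : 100000 * P.z ≤ 4056 * (P.N * P.G)
  Q1 : 10000 * (2 * (P.Q * P.G) + P.T) ≤ 9999 * (P.N * P.G)

/-- twice the exponent of the large values estimate -/
noncomputable def phi (T L : ℝ) : ℝ := if T ≤ L then 1 else L / (2 * T - L)

/-- length of a monomial -/
def dot (m : ℕ → ℕ) (t : List ℕ) : ℕ := ∑ j ∈ range t.length, m j * t.getD j 0

/-- a fractional packing of monomials -/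
structure PackL (T U δ : ℝ) (t : List ℕ) (n : ℕ) (w : ℕ → ℝ) (m : ℕ → ℕ → ℕ) : Prop where
  n16 : n ≤ 16
  w0 : ∀ i < n, 0 ≤ w i
  lo : ∀ i < n, T ≤ 2 * dot (m i) t
  hi : ∀ i < n, (dot (m i) t : ℝ) ≤ U
  cap : ∀ j < t.length, ∑ i ∈ range n, w i * m i j ≤ 1
  val : 2 + δ ≤ ∑ i ∈ range n, w i * phi T (dot (m i) t)

/-- the lists of lengths for which the multilinear estimate holds -/
def GoodL (T U δ : ℝ) (t : List ℕ) : Prop := ∃ n w m, PackL T U δ t n w m

/-- the types for which the multilinear estimate holds -/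
def GoodM (T U δ : ℝ) (τ : Multiset ℕ) : Prop := ∃ t : List ℕ, (t : Multiset ℕ) = τ ∧ GoodL T U δ t

/-- cells `D`, with cofactor in the cell `e`, that are admissible for the type I estimate -/
def Adm (P : Par) (D : List ℕ) (e : ℕ) : Prop := ∃ p ∈ splits D,
  p.1.sum + min p.1.length (P.N - e - D.sum) ≤ P.Q ∧
    2 * (p.2.sum + min p.2.length (P.N - e - D.sum)) ≤ P.N

/-- the value of the sieve on a list of large parts -/
noncomputable def W (lam : List ℕ → ℕ → ℝ) (F : ℕ) (t : List ℕ) : ℝ :=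
  ((splits t).map fun p => lam (p.1.map (· / F)) (p.2.sum / F)).sum

/-- the value of the sieve on a type -/
noncomputable def WM (lam : List ℕ → ℕ → ℝ) (F : ℕ) (τ : Multiset ℕ) : ℝ :=
  (τ.powerset.map fun s => lam ((s.map (· / F)).sort (· ≤ ·)) ((τ - s).sum / F)).sum

/-- lists of large parts with sorted cells, right total, and no subsum near a wall -/
structure Hyp (P : Par) (B δ : ℕ) (t : List ℕ) : Prop where
  sorted : (t.map (· / (P.G * B))).Pairwise (· ≤ ·)
  big : ∀ a ∈ t, P.z * B ≤ a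
  lo : P.N * (P.G * B) ≤ t.sum + δ
  hi : t.sum ≤ P.N * (P.G * B)
  wall : ∀ p ∈ splits t, p.1 ≠ [] → p.2 ≠ [] →
    0 < p.1.sum % (P.G * B) ∧ p.1.sum % (P.G * B) + δ < P.G * B

/-- sum over all the extensions of a list by at most `f - 1` entries below `M` -/
noncomputable def tot (M : ℕ) (μ : ℕ → ℝ) (Ψ : List ℕ → ℝ) : ℕ → List ℕ → ℝ
  | 0, _ => 0
  | f + 1, pre => Ψ pre + ∑ a ∈ range M, μ a * tot M μ Ψ f (pre ++ [a])

/-- `Ψ pre` is at most the normalised loss of one of the bad completions of `pre` -/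
def Dom (P : Par) (lam : List ℕ → ℕ → ℝ) (B δ : ℕ) (Ψ : List ℕ → ℝ) : Prop := ∀ pre,
  Ψ pre ≤ 0 ∨ ∃ a : ℕ, pre ≠ [] ∧ Hyp P B δ (pre ++ [a]) ∧
    ¬ GoodL (P.T * B : ℕ) (P.N * (P.G * B) : ℕ) (1 / 8192) (pre ++ [a]) ∧
    Ψ pre * a * mf ((pre ++ [a]).map (· / (P.G * B))) ≤
      -W lam (P.G * B) (pre ++ [a]) * (P.N * (P.G * B) : ℕ)

/-- the masses of the grid intervals -/
def Mass (P : Par) (B : ℕ) (κ : ℝ) (μ : ℕ → ℝ) : Prop := (∀ a, 0 ≤ μ a) ∧ ∀ lo hi : ℕ,
  P.z ≤ lo → lo < hi → hi ≤ P.N * P.G →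
    ∑ a ∈ Ico (lo * B) (hi * B), μ a ≤ κ * Real.log (hi / lo)

/-- what is required of the table -/
structure Cert (P : Par) (lam : List ℕ → ℕ → ℝ) : Prop where
  nil : ∀ e, lam [] e = 1
  bd : ∀ D e, |lam D e| ≤ 2 ^ 20
  adm : ∀ D e, D.Pairwise (· ≤ ·) → lam D e ≠ 0 → Adm P D e
  neg : ∀ B δ t, 0 < B → δ ≤ B → Hyp P B δ t → 2 ≤ t.length →
    ¬ GoodL (P.T * B : ℕ) (P.N * (P.G * B) : ℕ) (1 / 8192) t → W lam (P.G * B) t ≤ 0
  loss : ∀ B δ κ μ Ψ, 0 < B → δ ≤ B → 1 ≤ κ → Mass P B κ μ → Dom P lam B δ Ψ →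
    tot (P.N * (P.G * B)) μ Ψ 31 [] ≤ κ ^ 30 * (998 / 1000)

theorem GoodL.mono {T U δ δ' : ℝ} {t : List ℕ} (h : GoodL T U δ t) (hδ : δ' ≤ δ) :
    GoodL T U δ' t := by
  obtain ⟨n, w, m, h⟩ := h
  exact ⟨n, w, m, h.n16, h.w0, h.lo, h.hi, h.cap, by linarith [h.val]⟩

theorem powerset_eq (l : List ℕ) : (l : Multiset ℕ).powerset =
    (((splits l).map fun p => (p.1 : Multiset ℕ) : List (Multiset ℕ)) : Multiset (Multiset ℕ)) := by
  induction l with
  | nil => simp [splits]
  | cons a t ih =>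
    rw [← Multiset.cons_coe, Multiset.powerset_cons, ih, splits, List.map_append,
      ← Multiset.coe_add, add_comm, Multiset.map_coe, List.map_map, List.map_map, List.map_map]
    rfl

theorem WM_eq (lam : List ℕ → ℕ → ℝ) (F : ℕ) {t : List ℕ}
    (h : (t.map (· / F)).Pairwise (· ≤ ·)) : WM lam F t = W lam F t := by
  rw [WM, powerset_eq, Multiset.map_coe, Multiset.sum_coe, List.map_map, W]
  refine congrArg List.sum (List.map_congr_left fun p hp => ?_)
  have h1 : (t : Multiset ℕ) - p.1 = p.2 := by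
    rw [← Multiset.coe_eq_coe.2 (splits_perm hp), ← Multiset.coe_add, add_tsub_cancel_left]
  have h2 : (p.1.map (· / F)).Pairwise (· ≤ ·) := h.sublist ((splits_sublist hp).1.map _)
  simp only [Function.comp_apply, h1, Multiset.map_coe, Multiset.sum_coe, Multiset.coe_sort,
    List.mergeSort_eq_self _ h2]

end Pool.Agent.Work.MP_82fd4a_nt.P
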