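import Pool.Agent.Work.MP_82fd4a_nt.Y.NumP

/-! The programs that check the certificate. -/

set_option autoImplicit false

namespace Pool.Agent.Work.MP_82fd4a_nt.P

open BS Y

/-- a packing: weight, slope and constant of the tangent, last exponent, exponents, degree,
values at the corners -/
inductive Ce
  | nil : Ce
  | cons : ℕ → ℕ → ℕ → ℕ → ℕ → ℕ → ℕ → Ce → Ce

/-- a list of cells with the ends of the intervals -/
inductive L3
  | nil : L3
  | cons : ℕ → ℕ → ℕ → L3 → L3

/-- a tree of jobs: mode, least next cell, the two ends of the box, bound, instructions -/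
inductive Jt
  | leaf : ℕ → ℕ → List ℕ → List ℕ → ℕ → ℕ → Jt
  | node : Jt → Jt → Jt

noncomputable section

/-- failure -/
def BAD : ℕ := 1329227995784915872903807060280344576

/-- the larger number -/
def mx (a b : ℕ) : ℕ := il a b b a

/-- sum of a list -/
def sm (l : List ℕ) : ℕ := List.rec 0 (fun h _ ih => Nat.add h ih) l

/-- length of a list -/
def ln (l : List ℕ) : ℕ := List.rec 0 (fun _ _ ih => Nat.succ ih) l

/-- entry of a list -/
def nth (l : List ℕ) : ℕ → ℕ :=
  List.rec (fun _ => 0) (fun h _ ih i => Nat.rec h (fun j _ => ih j) i) l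

/-- change an entry of a list -/
def st (v : ℕ) (l : List ℕ) : ℕ → List ℕ :=
  List.rec (fun _ => []) (fun h t ih i => Nat.rec (v :: t) (fun j _ => h :: ih j) i) l

/-- digits in base `2 ^ 64` -/
def pk (l : List ℕ) : ℕ := List.rec 0 (fun h _ ih => Nat.add h (Nat.shiftLeft ih 64)) l

/-- append a digit that spreads the hash values -/
def slt (X : ℕ) : ℕ := Nat.add (Nat.shiftLeft X 64) (Nat.mod X 16777213)

/-- a digit of a product -/
def dt (X Y sh : ℕ) : ℕ := Nat.mod (Nat.shiftRight (Nat.mul X Y) sh) 18446744073709551616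

/-- the digit one at `2 ^ n` places -/
def ones (n : ℕ) : ℕ :=
  Nat.rec 1 (fun j ih => Nat.add ih (Nat.shiftLeft ih (Nat.mul 64 (Nat.pow 2 j)))) n

/-- the digit `2 ^ 63` at the places below `2 ^ n` with a given number of binary ones -/
def pm (n : ℕ) : ℕ → ℕ :=
  Nat.rec (fun r => iz r 9223372036854775808 0) (fun j ih r => Nat.add (ih r)
    (Nat.shiftLeft (Nat.rec 0 (fun r' _ => ih r') r) (Nat.mul 64 (Nat.pow 2 j)))) n

/-- the corners of a slab -/
def rm (n r : ℕ) : ℕ := Nat.add (pm n r) (pm n (Nat.succ r))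

/-- the digit `2 ^ 63` everywhere -/
def hig (n : ℕ) : ℕ := Nat.mul 9223372036854775808 (ones n)

/-- the digit `2 ^ 63 - 2 ^ 30` everywhere -/
def bia (n : ℕ) : ℕ := Nat.mul 9223372035781033984 (ones n)

/-- digitwise minimum with `2 ^ 30` -/
def vmn (n X : ℕ) : ℕ := fz (Nat.add X (bia n)) fun Z => Nat.sub X (Nat.land Z
  (Nat.sub (Nat.land Z (hig n)) (Nat.shiftRight (Nat.land Z (hig n)) 63)))

/-- the values of the concave minorant at the corners -/
def crn (M T n X sh h R : ℕ) (k : ℕ → ℕ) (ce : Ce) : ℕ → ℕ → ℕ :=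
  Ce.rec (fun A V => fz (Nat.add V (Nat.mul A (ones n))) k)
    (fun w a c e y dg D _ ih A V => fz (Nat.add (dt X y sh) (Nat.mul e R)) fun L =>
      il T (Nat.mul 2 L) (il (Nat.add L (Nat.mul (Nat.succ h) dg)) M
        (fz (Nat.mul a L) fun u => il c u (il (Nat.add c 1073741824) u
          (ih (Nat.add A (Nat.mul w 1073741824)) V)
          (fz (Nat.add (Nat.mul (Nat.sub u c) (ones n)) (Nat.mul (Nat.mul a h) D)) fun Y =>
            ih A (Nat.add V (Nat.mul w (vmn n Y))))) BAD) BAD) BAD) ce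

/-- the slabs that can be cleared -/
def cm (U SL h V n k : ℕ) : ℕ :=
  Nat.rec 0 (fun r ih => Bool.rec ih (Nat.lor ih
    (fz (Nat.div (Nat.add (Nat.add SL (Nat.mul r h)) (Nat.pred U)) U) fun a => Nat.shiftLeft
      (Nat.pred (Nat.pow 2 (Nat.sub (Nat.div (Nat.add SL (Nat.mul (Nat.succ r) h)) U) a))) a))
    (Nat.beq (Nat.land V (rm n r)) (rm n r))) k

/-- zero if all the sides have length `h` -/
def eqw (h : ℕ) (los : List ℕ) : List ℕ → ℕ :=
  List.rec (fun _ => 0) (fun lo _ ih his => List.rec 1 (fun hi his' _ =>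
    Bool.rec 1 (ih his') (Nat.beq (Nat.add lo h) hi)) his) los

/-- change the last 32 bits so as to spread the hash values -/
def sk (K : ℕ) : ℕ := Nat.add (Nat.shiftLeft (Nat.shiftRight K 32) 32) (Nat.mod K 4294967291)

/-- clear the slabs on which a packing is good; the continuation gets the new mask -/
def clr (U M T n : ℕ) (los his : List ℕ) (ce : Ce) (K : ℕ) (k : ℕ → ℕ) : ℕ :=
  fz (Nat.sub (nth his 0) (nth los 0)) fun h => iz (eqw h los his)
    (fz (sm his) fun SH => il M SH BAD (fz (slt (pk los)) fun X => fz (Nat.mul 64 n) fun sh =>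
      fz (Nat.sub (Nat.pred M) SH) fun R => crn M T n X sh h R
        (fun V => fz (sm los) fun SL => fz (sk (Nat.xor K (Nat.land K (cm U SL h V n n)))) k)
        ce (Nat.sub 9223363240224882688 (Nat.mod X 16777216)) 0)) BAD

/-- entry of a list of packings -/
def nce (l : List Ce) : ℕ → Ce :=
  List.rec (fun _ => Ce.nil) (fun h _ ih i => Nat.rec h (fun j _ => ih j) i) l

/-- the range given by the lowest and the highest bit -/
def nar1 (U SL SH s0 Wb : ℕ) (k : ℕ → ℕ → ℕ) : ℕ :=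
  iz Wb 0 (fz (Nat.mul (Nat.add s0 (Nat.log2 (Nat.xor Wb (Nat.pred Wb)))) U) fun x =>
    fz (mx SL x) fun sl => fz (Nat.mul (Nat.succ (Nat.add s0 (Nat.log2 Wb))) U) fun y =>
      fz (mn SH y) fun sh => k sl sh)

/-- narrow the range of the sum of the known parts -/
def nar (U K : ℕ) (los his : List ℕ) (k : ℕ → ℕ → ℕ) : ℕ :=
  fz (sm los) fun SL => fz (sm his) fun SH => fz (Nat.div SL U) fun s0 =>
  nar1 U SL SH s0 (Nat.mod (Nat.shiftRight K s0)
    (Nat.pow 2 (Nat.sub (Nat.succ (Nat.div (Nat.pred SH) U)) s0))) k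

/-- the exponents, first digit highest -/
def hp (n : ℕ) : ℕ → ℕ → ℕ :=
  Nat.rec (fun _ y => y) (fun _ ih s y => fz (Nat.shiftRight s 4) fun s' =>
    ih s' (Nat.add (Nat.shiftLeft y 64) (Nat.mod s 16))) n

/-- the degree -/
def dgs (e d n : ℕ) : ℕ :=
  Nat.rec e (fun j ih => Nat.add ih (mx (Nat.mod (Nat.shiftRight d (Nat.mul 4 j)) 16) e)) n

/-- the increments at the corners -/
def dv (e d n : ℕ) : ℕ :=
  Nat.rec 0 (fun j ih => Nat.add (Nat.add ih (Nat.mul e (ones j))) (Nat.shiftLeft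
    (Nat.add ih (Nat.mul (Nat.mod (Nat.shiftRight d (Nat.mul 4 j)) 16) (ones j)))
    (Nat.mul 64 (Nat.pow 2 j)))) n

/-- the exponents, first digit lowest -/
def fw (n : ℕ) : ℕ → ℕ :=
  Nat.rec (fun _ => 0) (fun _ ih s =>
    Nat.add (Nat.mod s 16) (Nat.shiftLeft (fz (Nat.shiftRight s 4) ih) 64)) n

/-- zero if the digits `1, …, n` are at most `4096` -/
def cok (g n : ℕ) : ℕ :=
  Nat.rec 0 (fun i ih =>
    il (Nat.mod (Nat.shiftRight g (Nat.mul 64 (Nat.succ i))) 18446744073709551616) 4096 ih 1) n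

/-- read the monomials -/
def prs (T n rw g0 cnt : ℕ) : ℕ → (Ce → ℕ → ℕ) → ℕ :=
  Nat.rec (fun _ k => k Ce.nil g0) (fun _ ih s k =>
    fz (Nat.mod s (Nat.pow 2 rw)) fun q => fz (Nat.mod q 8192) fun w =>
    fz (Nat.mul 8 (Nat.mod (Nat.shiftRight q 13) 4096)) fun L0 =>
    fz (Nat.mul (Nat.sub (Nat.mul 2 T) L0) (Nat.sub (Nat.mul 2 T) L0)) fun den =>
    fz (Nat.mod (Nat.div (Nat.mul 2147483648 T) den) 1099511627776) fun a =>
    fz (Nat.div (Nat.add (Nat.mul 1073741824 (Nat.mul L0 L0)) (Nat.pred den)) den) fun c =>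
    fz (Nat.mod (Nat.shiftRight q 25) 16) fun e => fz (Nat.shiftRight q 29) fun d =>
    fz (hp n d 0) fun y => fz (dgs e d n) fun dg => fz (dv e d n) fun D =>
    fz (Nat.shiftRight s rw) fun s' => ih s' fun r g => k (Ce.cons w a c e y dg D r) (Nat.add g
      (Nat.mul w (Nat.shiftLeft (fw (Nat.succ n) (Nat.shiftRight q 25)) 64)))) cnt

/-- read a packing; the continuation gets the packing and the remaining instructions -/
def rdc (T n s : ℕ) (k : Ce → ℕ → ℕ) : ℕ :=
  fz (Nat.mod s 16) fun cnt => fz (Nat.add 29 (Nat.mul 4 n)) fun rw =>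
    prs T n rw (Nat.mod s 4294967296) cnt (Nat.shiftRight s 4) fun ce g => fz g fun g =>
      iz (cok g (Nat.succ n)) (fz (Nat.shiftRight s (Nat.add 4 (Nat.mul cnt rw))) (k ce)) BAD

/-- largest and smallest of `n` entries -/
def rl (n : ℕ) : ℕ → ℕ → ℕ → ℕ :=
  Nat.rec (fun _ a b => Nat.add (Nat.add a (Nat.shiftLeft b 64))
      340282366920938463463374607431768211456)
    (fun _ ih V a b => fz (Nat.mod V 1048576) fun u => fz (mx u a) fun a' => fz (mn u b) fun b' =>
      ih (Nat.shiftRight V 20) a' b') n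

/-- the range of an entry of the table on a box -/
def hit (G N M SL SH v S lo hi : ℕ) : ℕ :=
  iz v 0 (fz (mn (Nat.div (Nat.pred (Nat.sub SH hi)) G) (Nat.div (Nat.pred (Nat.sub M lo)) G))
    fun eh => rl (Nat.sub (Nat.succ eh) (mx (Nat.div (Nat.sub SL lo) G) (Nat.div (Nat.sub M hi) G)))
      (Nat.shiftRight v (Nat.mul 20 (Nat.sub (Nat.sub N S) eh))) 0 1048576)

/-- the sum of the ranges over the nonempty sublists -/
def pv (G N M SL SH : ℕ) (l : L3) : Tr → ℕ → ℕ → ℕ → ℕ → ℕ :=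
  L3.rec (fun _ _ _ _ _ => 0) (fun x xl xh _ ih s a S lo hi =>
    Tr.rec 0 (fun v k r _ _ => fz (Nat.add S x) fun S' => fz (Nat.add lo xl) fun lo' =>
      fz (Nat.add hi xh) fun hi' =>
        Nat.add (Nat.add (hit G N M SL SH v S' lo' hi') (ih k x S' lo' hi'))
          (ih (Tr.c v k r) x S lo hi)) (skip s (Nat.sub x a))) l

/-- put three lists together -/
def mk3 (t : L3) (cs : List ℕ) : List ℕ → List ℕ → L3 :=
  List.rec (fun _ _ => t) (fun c _ ih los his => List.rec t (fun lo los' _ =>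
    List.rec t (fun hi his' _ => L3.cons c lo hi (ih los' his')) his) los) cs

/-- the cells -/
def cls (G : ℕ) (l : List ℕ) : List ℕ := List.rec [] (fun h _ ih => Nat.div h G :: ih) l

/-- the cost when the last part lies in the cell `j` -/
def ev1 (G N M c0 : ℕ) (tb : Tr) (cs los his : List ℕ) (SL SH sl sh j : ℕ) : ℕ :=
  fz (mx (Nat.mul j G) (Nat.sub (Nat.pred M) sh)) fun al =>
  fz (mn (Nat.mul (Nat.succ j) G) (Nat.sub M sl)) fun ah =>
  fz (Nat.add SL al) fun SL' => fz (Nat.add SH ah) fun SH' =>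
  fz (pv G N M SL' SH' (mk3 (L3.cons j al ah L3.nil) cs los his) tb c0 0 0 0) fun r =>
  fz (Nat.mul (Nat.shiftRight r 128) 524288) fun o =>
    il (Nat.add 4096 (Nat.mod r 18446744073709551616)) o
      (fz (mfn (snoc cs j)) fun f => mn (Nat.div (Nat.add (Nat.sub o (Nat.add 4096
        (Nat.mod (Nat.shiftRight r 64) 18446744073709551616))) (Nat.pred f)) f) 2147483648)
      2147483648

/-- the costs for `n` consecutive cells -/
def evs (f : ℕ → ℕ) (n : ℕ) : ℕ → ℕ :=
  Nat.rec (fun _ => 0) (fun _ ih j =>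
    Nat.add (f j) (Nat.shiftLeft (fz (Nat.succ j) ih) 32)) n

/-- evaluate the table on a box; the continuation gets the costs and the first cell -/
def evl (G N M c0 : ℕ) (tb : Tr) (c : ℕ) (los his : List ℕ) (sl sh : ℕ) (k : ℕ → ℕ → ℕ) : ℕ :=
  fz (sm los) fun SL => fz (sm his) fun SH => fl (cls G los) fun cs =>
  fz (mx c (Nat.div (Nat.sub M sh) G)) fun jl =>
  fz (evs (ev1 G N M c0 tb cs los his SL SH sl sh)
    (Nat.sub (Nat.succ (Nat.div (Nat.pred (Nat.sub M sl)) G)) jl) jl) fun C =>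
  fz (Nat.add (Nat.shiftLeft C 32) (Nat.mod C 4294967291)) fun CT => k CT jl

/-- the cost from the envelopes when the last part lies in the cell `j` -/
def eq1 (c0 r : ℕ) (cs : List ℕ) (j : ℕ) : ℕ :=
  fz (Nat.add (Nat.mod r (Nat.pow 2 156)) (Nat.mod
    (Nat.shiftRight r (Nat.mul 156 (Nat.succ (Nat.sub j c0)))) (Nat.pow 2 156))) fun t =>
  fz (Nat.mul (Nat.shiftRight t 104) 524288) fun o =>
    il (Nat.add 4096 (Nat.mod t 4503599627370496)) o
      (fz (mfn (snoc cs j)) fun f => mn (Nat.div (Nat.add (Nat.sub o (Nat.add 4096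
        (Nat.mod (Nat.shiftRight t 52) 4503599627370496))) (Nat.pred f)) f) 2147483648)
      2147483648

/-- evaluate the envelopes on a box; the continuation gets the costs and the first cell -/
def evq (G M c0 Y0 : ℕ) (tq : Tr) (c : ℕ) (los : List ℕ) (sl sh : ℕ) (k : ℕ → ℕ → ℕ) : ℕ :=
  fl (cls G los) fun cs => fz (mx c (Nat.div (Nat.sub M sh) G)) fun jl =>
  fz (Nat.add Y0 (ph cs tq c0)) fun r =>
  fz (evs (eq1 c0 r cs) (Nat.sub (Nat.succ (Nat.div (Nat.pred (Nat.sub M sl)) G)) jl) jl) fun C =>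
  fz (Nat.add (Nat.shiftLeft C 32) (Nat.mod C 4294967291)) fun CT => k CT jl

/-- the largest of `n` costs -/
def mxl (n : ℕ) : ℕ → ℕ :=
  Nat.rec (fun _ => 0) (fun _ ih V => fz (Nat.mod V 4294967296) fun u =>
    fz (ih (Nat.shiftRight V 32)) fun b => mx u b) n

/-- the mass of a box -/
def ms (los : List ℕ) : List ℕ → ℕ → ℕ → ℕ :=
  List.rec (fun _ a b => Nat.succ (Nat.div a b)) (fun lo _ ih his a b =>
    List.rec BAD (fun hi his' _ => ih his'
      (Nat.mul a (Nat.sub (Nat.mul hi hi) (Nat.mul lo lo)))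
      (Nat.mul b (Nat.mul 2 (Nat.mul hi lo)))) his) los

/-- the cost of a box -/
def lf (G M c : ℕ) (los his : List ℕ) (sl sh CT j0 : ℕ) : ℕ :=
  fz (mx c (Nat.div (Nat.sub M sh) G)) fun jl =>
  fz (mxl (Nat.sub (Nat.succ (Nat.div (Nat.pred (Nat.sub M sl)) G)) jl)
    (Nat.shiftRight CT (Nat.mul 32 (Nat.succ (Nat.sub jl j0))))) fun C =>
  iz C 0 (il 2147483648 C BAD (ms los his (Nat.mul (Nat.mul C M) 1099511627776)
    (mx (Nat.mul jl G) (Nat.sub (Nat.pred M) sh))))

/-- cut off a block of instructions -/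
def tk (s : ℕ) (k : ℕ → ℕ → ℕ) : ℕ :=
  fz (Nat.mod s 32) fun nb => fz (Nat.mod (Nat.shiftRight s 5) (Nat.pow 2 nb)) fun len =>
  fz (Nat.shiftRight s (Nat.add 5 nb)) fun s' =>
  fz (Nat.mod s' (Nat.pow 2 len)) fun a => fz (Nat.shiftRight s' len) fun b => k a b

/-- split a box in two -/
def spl (n : ℕ) (los his : List ℕ) (s : ℕ) (k : List ℕ → List ℕ → ℕ → ℕ) : ℕ :=
  fz (Nat.mod s 32) fun i => il n i BAD (fz (nth los i) fun lo =>
    fz (Nat.div (Nat.add lo (nth his i)) 2) fun m => il m lo BAD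
      (tk (Nat.shiftRight s 5) fun a b =>
        Nat.add (fl (st m his i) fun his' => k los his' a) (fl (st m los i) fun los' => k los' his b)))

/-- boxes with one more part -/
def cl (G N M T U c0 Y0 : ℕ) (tb tq : Tr) (n c f : ℕ) :
    List ℕ → List ℕ → ℕ → ℕ → List Ce → ℕ → ℕ → ℕ :=
  Nat.rec (fun _ _ _ _ _ _ _ => BAD) (fun _ ih los his CT j0 CL K s => fz (Nat.mod s 4) fun o =>
    iz o (fz (Nat.mod (Nat.shiftRight s 2) 4) fun o' => iz o'
        (fz (sm los) fun SL => fz (sm his) fun SH =>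
          evq G M c0 Y0 tq c los SL SH fun CT' j' => lf G M c los his SL SH CT' j')
        (fz (Nat.shiftRight s 4) fun s' => il o' 1
          (rdc T n s' fun ce a => ih los his CT j0 (ce :: CL) K a)
          (nar U K los his fun sl sh => evl G N M c0 tb c los his sl sh fun CT' j' =>
            ih los his CT' j' CL K s')))
      (il o 1 (nar U K los his fun sl sh => lf G M c los his sl sh CT j0) (il o 2
        (spl n los his (Nat.shiftRight s 2) fun l h a => ih l h CT j0 CL K a)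
        (clr U M T n los his (nce CL (Nat.mod (Nat.shiftRight s 2) 32)) K fun K' =>
          fz (Nat.shiftRight s 7) fun s' => ih los his CT j0 CL K' s')))) f

/-- nothing is known -/
def CT0 : ℕ := Nat.pred (Nat.pow 2 4096)

/-- loop over the next cell -/
def lp (k : ℕ → ℕ → ℕ) (n : ℕ) : ℕ → ℕ → ℕ :=
  Nat.rec (fun _ _ => 0) (fun _ ih c s => tk s fun a b =>
    Nat.add (k c a) (fz (Nat.succ c) fun c' => ih c' b)) n

/-- the boxes with one more entry -/
def xp (G M z c : ℕ) (los his : List ℕ) (s : ℕ) (k : ℕ → List ℕ → List ℕ → ℕ → ℕ) : ℕ :=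
  lp (fun d u => fl (snoc los (mx (Nat.mul d G) z)) fun l =>
      fl (snoc his (Nat.mul (Nat.succ d) G)) fun h => k d l h u)
    (Nat.sub (Nat.succ (Nat.div (Nat.sub M (sm los)) (Nat.mul 2 G))) c) c s

/-- boxes with any number of further parts -/
def op (G N M T U z c0 Y0 : ℕ) (tb tq : Tr) (f : ℕ) : ℕ → ℕ → List ℕ → List ℕ → ℕ → ℕ :=
  Nat.rec (fun _ _ _ _ _ => BAD) (fun _ ih n c los his s => tk s fun a b =>
    Nat.add (cl G N M T U c0 Y0 tb tq n c 250 los his CT0 0 [] CT0 a)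
      (fz (Nat.succ n) fun n' => xp G M z c los his b fun d l h u => ih n' d l h u)) f

/-- one job -/
def job (G N M T U z c0 Y0 : ℕ) (tb tq : Tr) (o c : ℕ) (l h : List ℕ) (s : ℕ) : ℕ :=
  fz (ln l) fun n => iz o (cl G N M T U c0 Y0 tb tq n c 250 l h CT0 0 [] CT0 s)
    (op G N M T U z c0 Y0 tb tq 40 n c l h s)

/-- zero if all the jobs respect their bounds -/
def run (G N M T U z c0 Y0 : ℕ) (tb tq : Tr) (J : Jt) : ℕ :=
  Jt.rec (fun o c l h r s => il (job G N M T U z c0 Y0 tb tq o c l h s) r 0 1)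
    (fun _ _ a b => Nat.add a b) J

/-- zero if two lists are equal -/
def eql (l : List ℕ) : List ℕ → ℕ :=
  List.rec (fun m => List.rec 0 (fun _ _ _ => 1) m) (fun a _ ih m =>
    List.rec 1 (fun b m' _ => Bool.rec 1 (ih m') (Nat.beq a b)) m) l

/-- the bound of the job that is found by following the bits of the last argument -/
def orc (o c : ℕ) (los his : List ℕ) (J : Jt) : ℕ → ℕ :=
  Jt.rec (fun o' c' l h r _ _ => iz (Nat.add (eql (o :: c :: los) (o' :: c' :: l)) (eql his h)) r BAD)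
    (fun _ _ a b i => fz (Nat.div i 2) fun i' => iz (Nat.mod i 2) (a i') (b i')) J

/-- cover a box with jobs -/
def cv (G M z : ℕ) (J : Jt) (f : ℕ) : ℕ → ℕ → ℕ → List ℕ → List ℕ → ℕ → ℕ :=
  Nat.rec (fun _ _ _ _ _ _ => BAD) (fun _ ih o n c los his s => fz (Nat.mod s 4) fun u =>
    iz u (orc o c los his J (Nat.shiftRight s 2)) (il u 2
      (spl n los his (Nat.shiftRight s 2) fun l h a => ih o n c l h a)
      (iz o BAD (tk (Nat.shiftRight s 2) fun a b => Nat.add (ih 0 n c los his a)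
        (fz (Nat.succ n) fun n' => xp G M z c los his b fun d l h u => ih 1 n' d l h u))))) f

/-- the total cost -/
def top (G M z c0 : ℕ) (J : Jt) (s : ℕ) : ℕ :=
  xp G M z c0 [] [] s fun d l h u => cv G M z J 250 1 1 d l h u

/-- sum and number of the entries chosen by the bits of `b` -/
def msk (l : List ℕ) : ℕ → ℕ → ℕ → (ℕ → ℕ → ℕ) → ℕ :=
  List.rec (fun _ q m k => k q m) (fun h _ ih b q m k =>
    iz (Nat.mod b 2) (ih (Nat.div b 2) q m k) (ih (Nat.div b 2) (Nat.add q h) (Nat.succ m) k)) l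

/-- the largest index `i ≤ n` with a nonzero entry -/
def tpl (v n : ℕ) : ℕ := Nat.rec 0 (fun i ih =>
  Bool.rec (Nat.succ i) ih
    (Nat.beq (Nat.mod (Nat.shiftRight v (Nat.mul 20 (Nat.succ i))) 1048576) 524288)) n

/-- zero if an entry of the table is acceptable -/
def okv (N Q v : ℕ) (l : List ℕ) : ℕ :=
  iz v 0 (fz (ln l) fun n => fz (tpl v n) fun ρ => iz ρ 0 (msk l (Nat.mod v 1048576) 0 0 fun q m =>
    il (Nat.add q (mn m ρ)) Q (il (Nat.mul 2 (Nat.add (Nat.sub (sm l) q) (mn (Nat.sub n m) ρ))) N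
      0 1) 1))

/-- zero if all the entries are acceptable -/
def chk (N Q : ℕ) (s : Tr) : ℕ → List ℕ → ℕ :=
  Tr.rec (fun _ _ => 0) (fun v _ _ ihk ihr a pre => fl (snoc pre a) fun l =>
    Nat.add (Nat.add (okv N Q v l) (ihk a l)) (fz (Nat.succ a) fun a' => ihr a' pre)) s

/-- the envelope of an entry for a list of length `n`: largest value, smallest value, one -/
def env (v n : ℕ) : ℕ := iz v 0 (fz (rl n (Nat.shiftRight v 20) 0 1048576) fun r =>
  Nat.add (Nat.add (Nat.mod r 18446744073709551616) (Nat.shiftLeft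
    (Nat.mod (Nat.shiftRight r 64) 18446744073709551616) 52)) (Nat.pow 2 104))

/-- the envelopes of the entries of a stream -/
def chv (n : ℕ) (s : Tr) : ℕ :=
  Tr.rec 0 (fun v _ _ _ ih => Nat.add (env v n) (Nat.shiftLeft ih 156)) s

/-- zero if the second table contains the envelopes of the first; `a` is the key minus the
least key, plus one -/
def ckq (s : Tr) : Tr → ℕ → ℕ → ℕ :=
  Tr.rec (fun q _ _ => Tr.rec 0 (fun _ _ _ _ _ => 1) q) (fun v k _ ihk ihr q a n =>
    Tr.rec 1 (fun y k' r' _ _ => fz (Nat.succ n) fun n' => Bool.rec 1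
      (Nat.add (ihk k' a n') (fz (Nat.succ a) fun a' => ihr r' a' n))
      (Nat.beq y (Nat.add (env v n) (Nat.shiftLeft (chv n' k) (Nat.mul 156 a))))) q) s

/-- zero if the envelopes are right -/
def ckr (Y0 : ℕ) (tb tq : Tr) : ℕ :=
  Bool.rec 1 (ckq tb tq 1 1) (Nat.beq Y0 (Nat.shiftLeft (chv 1 tb) 156))

end

end Pool.Agent.Work.MP_82fd4a_nt.P
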