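import Pool.Agent.Work.MP_82fd4a_nt.P.Chk

/-! The cost of a box as a convolution over a grid of smaller boxes. -/

set_option autoImplicit false

namespace Pool.Agent.Work.MP_82fd4a_nt.P

open BS Y

noncomputable section

/-- the mass of the interval of length `h` that begins at `a` -/
def cw (a h : ℕ) : ℕ := fz (Nat.mul a (Nat.add a h)) fun d =>
  Nat.div (Nat.add (Nat.mul (Nat.mul h (Nat.add (Nat.mul 2 a) h)) 524288) (Nat.pred d)) d

/-- the masses of `S` consecutive intervals as digits -/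
def wv (V h S : ℕ) : ℕ → ℕ :=
  Nat.rec (fun _ => 0) (fun _ ih a =>
    Nat.add (cw a h) (Nat.shiftLeft (fz (Nat.add a h) ih) V)) S

/-- the masses of the classes as digits -/
def wp (V h S : ℕ) (l : List ℕ) : ℕ := List.rec 1 (fun a _ ih => Nat.mul (wv V h S a) ih) l

/-- the size of a window -/
def wn (U x d : ℕ) : ℕ :=
  Nat.pow 2 (Nat.sub (Nat.succ (Nat.div (Nat.pred (Nat.add x d)) U)) (Nat.div x U))

/-- the density of the cost on a class -/
def cvf (U G M c CT j0 x d Wb : ℕ) : ℕ := fz (Nat.add x d) fun y => fz (Nat.div x U) fun s0 =>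
  nar1 U x y s0 Wb fun sl sh => lf G M c [] [] sl sh CT j0

/-- the sum over the classes -/
def cvs (U G M c K CT j0 h d V b t n : ℕ) : ℕ → ℕ → ℕ → ℕ :=
  Nat.rec (fun _ _ A => Nat.succ (Nat.shiftRight A t)) (fun _ ih Q x A =>
    fz (Nat.mod (Nat.shiftRight K (Nat.div x U)) (wn U x d)) fun Wb =>
    fz (Nat.add x h) fun x' => fz (Nat.shiftRight Q V) fun Q' => iz Wb (ih Q' x' A)
      (fz (cvf U G M c CT j0 x d Wb) fun F =>
        il BAD F BAD (ih Q' x' (Nat.add A (Nat.mul (Nat.mod Q b) F))))) n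

/-- the cost of a box whose sides are cut in `2 ^ g` pieces -/
def cvl (U G M c n : ℕ) (los his : List ℕ) (K CT j0 g : ℕ) : ℕ :=
  fz (Nat.shiftRight (Nat.sub (nth his 0) (nth los 0)) g) fun h => fz (Nat.pow 2 g) fun S =>
  fz (Nat.mul S h) fun H => iz (eqw H los his)
    (fz (Nat.mul 24 n) fun V => fz (wp V h S los) fun Q => fz (sm los) fun SL =>
      fz (Nat.mul n h) fun d => fz (Nat.pow 2 V) fun b =>
        cvs U G M c K CT j0 h d V b (Nat.mul 20 n) (Nat.succ (Nat.mul (Nat.pred S) n)) Q SL 0) BAD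

end

end Pool.Agent.Work.MP_82fd4a_nt.P
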