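import Pool.Agent.Work.MP_82fd4a_nt.P.Chk

/-! A program that expands compressed instructions. -/

set_option autoImplicit false

namespace Pool.Agent.Work.MP_82fd4a_nt.P.C

open BS Y

noncomputable section

/-- an entry of a binary tree -/
def gt (t : Tr) : ℕ → ℕ :=
  Tr.rec (fun _ => nat_lit 0) (fun v _ _ l r i => @Bool.rec (fun _ => ℕ)
    (@Bool.rec (fun _ => ℕ) (r (Nat.shiftRight i (nat_lit 1))) (l (Nat.shiftRight i (nat_lit 1)))
      (Nat.beq (Nat.mod i (nat_lit 2)) (nat_lit 0))) v (Nat.ble i (nat_lit 1))) t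

/-- `k` ones -/
def fu (k : ℕ) : ℕ := Nat.sub (Nat.pow (nat_lit 2) k) (nat_lit 1)

/-- the digit one at `k` places, in base `2 ^ b` -/
def rp (b k : ℕ) : ℕ := Nat.div (fu (Nat.mul b k)) (fu b)

/-- number of digits -/
def hn (h : ℕ) : ℕ := Nat.succ (Nat.mod h (nat_lit 16))

/-- width of a digit -/
def hw (h : ℕ) : ℕ := Nat.mod (Nat.shiftRight h (nat_lit 4)) (nat_lit 8)

/-- width of the tangent -/
def hf (h : ℕ) : ℕ := Nat.shiftRight h (nat_lit 7)

/-- position of the digits -/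
def hp (h : ℕ) : ℕ := Nat.add (nat_lit 13) (hf h)

/-- width of a short record -/
def ha (h : ℕ) : ℕ := Nat.add (hp h) (Nat.mul (hw h) (hn h))

/-- width of a long record -/
def hb (h : ℕ) : ℕ := Nat.add (nat_lit 25) (Nat.mul (nat_lit 4) (hn h))

/-- one for each record -/
def ho (h : ℕ) : ℕ := rp (hb h) (nat_lit 16)

/-- mask for moving records -/
def ma (h k : ℕ) : ℕ := Nat.mul (fu (Nat.mul k (ha h)))
  (rp (Nat.mul (Nat.mul (nat_lit 2) k) (hb h)) (Nat.div (nat_lit 8) k))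

/-- shift for moving records -/
def sa (h k : ℕ) : ℕ := Nat.mul k (Nat.sub (hb h) (ha h))

/-- mask for moving digits -/
def md (h k : ℕ) : ℕ := Nat.mul (ho h) (Nat.mod (Nat.mul (fu (Nat.mul k (hw h)))
  (rp (Nat.mul (nat_lit 8) k) (Nat.div (nat_lit 8) k)))
  (Nat.pow (nat_lit 2) (Nat.mul (nat_lit 4) (hn h))))

/-- shift for moving digits -/
def sd (h k : ℕ) : ℕ := Nat.mul k (Nat.sub (nat_lit 4) (hw h))

/-- mask of the weights -/
def mw (h : ℕ) : ℕ := Nat.mul (nat_lit 8191) (ho h)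

/-- mask of the tangents -/
def mf (h : ℕ) : ℕ := Nat.mul (fu (hf h)) (ho h)

/-- mask of the digits -/
def me (h : ℕ) : ℕ := Nat.mul (fu (Nat.mul (hw h) (hn h))) (ho h)

/-- the largest tangent -/
def mt (A h : ℕ) : ℕ := Nat.mul A (ho h)

/-- one if the tangents are coarse -/
def ht (h : ℕ) : ℕ := Nat.div (Nat.sub (nat_lit 9) (hf h)) (nat_lit 5)

/-- correction of the coarse tangents -/
def hd (A h : ℕ) : ℕ := Nat.mul (ht h) (Nat.sub (nat_lit 16) (Nat.mod A (nat_lit 16)))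

/-- step of the tangents -/
def hm (h : ℕ) : ℕ := Nat.succ (Nat.mul (nat_lit 15) (ht h))

/-- move the bits outside the mask -/
def mv (x y s : ℕ) : ℕ := Nat.add y (Nat.shiftLeft (Nat.sub x y) s)

/-- move records -/
def pa (h k x : ℕ) : ℕ := mv x (Nat.land x (ma h k)) (sa h k)

/-- move digits -/
def pd (h k x : ℕ) : ℕ := mv x (Nat.land x (md h k)) (sd h k)

/-- the tangents -/
def tg (A h F : ℕ) : ℕ := Nat.sub (Nat.add (mt A h) (Nat.mul (hd A h)
  (Nat.land (Nat.shiftRight (Nat.add F (mf h)) (hf h)) (ho h)))) (Nat.mul (hm h) F)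

/-- the long records -/
def lr (A h x : ℕ) : ℕ := Nat.add (Nat.add (Nat.land x (mw h))
    (Nat.shiftLeft (tg A h (Nat.land (Nat.shiftRight x (nat_lit 13)) (mf h))) (nat_lit 13)))
  (Nat.shiftLeft (pd h (nat_lit 1) (pd h (nat_lit 2) (pd h (nat_lit 4) (pd h (nat_lit 8)
    (Nat.land (Nat.shiftRight x (hp h)) (me h)))))) (nat_lit 25))

/-- one packing; the continuation gets the bits and their number -/
def c2 (A v j c : ℕ) (k : ℕ → ℕ → ℕ) (h : ℕ) : ℕ :=
  k (Nat.add (Nat.add (nat_lit 4) (Nat.mul (nat_lit 16) c)) (Nat.shiftLeft (Nat.mod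
    (lr A h (pa h (nat_lit 1) (pa h (nat_lit 2) (pa h (nat_lit 4) (pa h (nat_lit 8)
      (Nat.mod (Nat.shiftRight v (Nat.add (nat_lit 16) (Nat.mul j (Nat.mul c (ha h)))))
        (Nat.pow (nat_lit 2) (Nat.mul c (ha h)))))))))
    (Nat.pow (nat_lit 2) (Nat.mul c (hb h)))) (nat_lit 8)))
    (Nat.add (nat_lit 8) (Nat.mul c (hb h)))

/-- one packing of a block -/
def c1 (A j : ℕ) (k : ℕ → ℕ → ℕ) (v : ℕ) : ℕ :=
  fz (Nat.mod v (nat_lit 2048))
    (c2 A v j (Nat.mod (Nat.shiftRight v (nat_lit 11)) (nat_lit 16)) k)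

/-- one segment -/
def s3 (A R : ℕ) (t : Tr) (i : ℕ → ℕ) (x len s : ℕ) : ℕ :=
  fz (Nat.shiftRight (Nat.mod s (Nat.pow (nat_lit 2) R)) (nat_lit 3)) fun u =>
    c1 A (Nat.mod s (nat_lit 8)) (fun y l => Nat.add x (Nat.shiftLeft
      (Nat.add y (Nat.shiftLeft (i (Nat.shiftRight s R)) l)) len)) (gt t u)

/-- one segment -/
def s2 (A R : ℕ) (t : Tr) (i : ℕ → ℕ) (s len : ℕ) : ℕ :=
  s3 A R t i (Nat.mod s (Nat.pow (nat_lit 2) len)) len (Nat.shiftRight s len)

/-- one segment -/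
def s1 (A R : ℕ) (t : Tr) (i : ℕ → ℕ) (s nb : ℕ) : ℕ :=
  s2 A R t i (Nat.shiftRight s nb) (Nat.mod s (Nat.pow (nat_lit 2) nb))

/-- all the segments -/
def go (A R : ℕ) (t : Tr) (k : ℕ) : ℕ → ℕ :=
  Nat.rec (fun s => s) (fun _ i s =>
    s1 A R t i (Nat.shiftRight s (nat_lit 4)) (Nat.mod s (nat_lit 16))) k

/-- expand a piece -/
def dec (A R : ℕ) (t : Tr) (x : ℕ) : ℕ :=
  go A R t (Nat.mod x (nat_lit 256)) (Nat.shiftRight x (nat_lit 8))

/-- put two pieces of a long number together -/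
def ch (a b : ℕ) : ℕ := Nat.add a (Nat.shiftLeft b (nat_lit 4096))

/-- put two pieces of a long number together -/
def jn (a l b : ℕ) : ℕ := Nat.add a (Nat.shiftLeft b l)

/-- the ends of the cells given by the bytes of the last argument -/
def cs (G u n : ℕ) : ℕ → List ℕ :=
  Nat.rec (fun _ => []) (fun _ ih x => Nat.mul (Nat.add (Nat.mod x (nat_lit 256)) u) G ::
    ih (Nat.shiftRight x (nat_lit 8))) n

/-- a job on a box made of cells -/
def jc (G x r s : ℕ) : Jt :=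
  Jt.leaf (Nat.mod x (nat_lit 256)) (Nat.mod (Nat.shiftRight x (nat_lit 16)) (nat_lit 256))
    (cs G (nat_lit 0) (Nat.mod (Nat.shiftRight x (nat_lit 8)) (nat_lit 256))
      (Nat.shiftRight x (nat_lit 24)))
    (cs G (nat_lit 1) (Nat.mod (Nat.shiftRight x (nat_lit 8)) (nat_lit 256))
      (Nat.shiftRight x (nat_lit 24))) r s

/-- the cost of `k` consecutive boxes with one more entry -/
def xq (G M z : ℕ) (J : Jt) (f n : ℕ) (los his : List ℕ) (k c s : ℕ) : ℕ :=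
  lp (fun d u => fl (snoc los (mx (Nat.mul d G) z)) fun l =>
      fl (snoc his (Nat.mul (Nat.succ d) G)) fun h => cv G M z J f 1 n d l h u) k c s

end

end Pool.Agent.Work.MP_82fd4a_nt.P.C
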