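import Pool.Agent.Work.MP_82fd4a_nt.P.Dc

/-! Programs that expand compressed entries of the tables. -/

set_option autoImplicit false

namespace Pool.Agent.Work.MP_82fd4a_nt.P.C

open BS Y

noncomputable section

/-- an entry with 1 equal weights -/
def t1 (x : ℕ) : ℕ := Nat.add (Nat.mod x (nat_lit 512))
  (Nat.mul (Nat.shiftRight x (nat_lit 9)) (nat_lit 0x100000))

/-- an entry with 2 equal weights -/
def t2 (x : ℕ) : ℕ := Nat.add (Nat.mod x (nat_lit 512))
  (Nat.mul (Nat.shiftRight x (nat_lit 9)) (nat_lit 0x10000100000))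

/-- an entry with 3 equal weights -/
def t3 (x : ℕ) : ℕ := Nat.add (Nat.mod x (nat_lit 512))
  (Nat.mul (Nat.shiftRight x (nat_lit 9)) (nat_lit 0x1000010000100000))

/-- an entry with 4 equal weights -/
def t4 (x : ℕ) : ℕ := Nat.add (Nat.mod x (nat_lit 512))
  (Nat.mul (Nat.shiftRight x (nat_lit 9)) (nat_lit 0x100001000010000100000))

/-- an entry with 5 equal weights -/
def t5 (x : ℕ) : ℕ := Nat.add (Nat.mod x (nat_lit 512))
  (Nat.mul (Nat.shiftRight x (nat_lit 9)) (nat_lit 0x10000100001000010000100000))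

/-- an entry with 6 equal weights -/
def t6 (x : ℕ) : ℕ := Nat.add (Nat.mod x (nat_lit 512))
  (Nat.mul (Nat.shiftRight x (nat_lit 9)) (nat_lit 0x1000010000100001000010000100000))

/-- an entry with 7 equal weights -/
def t7 (x : ℕ) : ℕ := Nat.add (Nat.mod x (nat_lit 512))
  (Nat.mul (Nat.shiftRight x (nat_lit 9)) (nat_lit 0x100001000010000100001000010000100000))

/-- an entry with 8 equal weights -/
def t8 (x : ℕ) : ℕ := Nat.add (Nat.mod x (nat_lit 512))
  (Nat.mul (Nat.shiftRight x (nat_lit 9)) (nat_lit 0x10000100001000010000100001000010000100000))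

/-- an entry with 9 equal weights -/
def t9 (x : ℕ) : ℕ := Nat.add (Nat.mod x (nat_lit 512))
  (Nat.mul (Nat.shiftRight x (nat_lit 9)) (nat_lit 0x1000010000100001000010000100001000010000100000))

/-- an envelope with equal ends -/
def ue (x : ℕ) : ℕ := Nat.add (Nat.mul x (nat_lit 0x10000000000001)) (nat_lit 0x100000000000000000000000000)

/-- an envelope -/
def uf (x : ℕ) : ℕ := Nat.add (Nat.land (Nat.mul x (nat_lit 0x100000001)) (nat_lit 0xfffff00000000fffff))
  (nat_lit 0x100000000000000000000000000)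

/-- one for each envelope -/
def uo : ℕ := rp (nat_lit 156) (nat_lit 64)

/-- mask of the ends -/
def um : ℕ := Nat.mul (nat_lit 0xfffff00000000fffff) uo

/-- a mask -/
def um0 : ℕ := Nat.mul (fu (nat_lit 40)) (rp (nat_lit 156) (nat_lit 64))

/-- a multiplier -/
def ua0 : ℕ := Nat.succ (Nat.pow (nat_lit 2) (nat_lit 116))

/-- a mask -/
def um1 : ℕ := Nat.mul (fu (nat_lit 80)) (rp (nat_lit 312) (nat_lit 32))

/-- a multiplier -/
def ua1 : ℕ := Nat.succ (Nat.pow (nat_lit 2) (nat_lit 232))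

/-- a mask -/
def um2 : ℕ := Nat.mul (fu (nat_lit 160)) (rp (nat_lit 624) (nat_lit 16))

/-- a multiplier -/
def ua2 : ℕ := Nat.succ (Nat.pow (nat_lit 2) (nat_lit 464))

/-- a mask -/
def um3 : ℕ := Nat.mul (fu (nat_lit 320)) (rp (nat_lit 1248) (nat_lit 8))

/-- a multiplier -/
def ua3 : ℕ := Nat.succ (Nat.pow (nat_lit 2) (nat_lit 928))

/-- a mask -/
def um4 : ℕ := Nat.mul (fu (nat_lit 640)) (rp (nat_lit 2496) (nat_lit 4))

/-- a multiplier -/
def ua4 : ℕ := Nat.succ (Nat.pow (nat_lit 2) (nat_lit 1856))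

/-- a mask -/
def um5 : ℕ := Nat.mul (fu (nat_lit 1280)) (rp (nat_lit 4992) (nat_lit 2))

/-- a multiplier -/
def ua5 : ℕ := Nat.succ (Nat.pow (nat_lit 2) (nat_lit 3712))

/-- the envelope of an entry and those of its children -/
def ug (a y : ℕ) : ℕ := Nat.add (Nat.mod y (nat_lit 0x1000000000000000000000000000000000000000))
  (Nat.shiftLeft (Nat.shiftRight y (nat_lit 156)) (Nat.mul (nat_lit 156) a))

/-- mark the envelopes that are present -/
def uh (a y : ℕ) : ℕ := ug a (Nat.add (Nat.land (Nat.mul y (nat_lit 0x100000001)) um)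
  (Nat.shiftLeft (Nat.land (Nat.lor (Nat.shiftRight y (nat_lit 18)) (Nat.shiftRight y (nat_lit 19)))
    uo) (nat_lit 104)))

/-- spread 2 envelopes -/
def us0 (a y : ℕ) : ℕ := uh a (Nat.land (Nat.mul y ua0) um0)

/-- spread 4 envelopes -/
def us1 (a y : ℕ) : ℕ := us0 a (Nat.land (Nat.mul y ua1) um1)

/-- spread 8 envelopes -/
def us2 (a y : ℕ) : ℕ := us1 a (Nat.land (Nat.mul y ua2) um2)

/-- spread 16 envelopes -/
def us3 (a y : ℕ) : ℕ := us2 a (Nat.land (Nat.mul y ua3) um3)

/-- spread 32 envelopes -/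
def us4 (a y : ℕ) : ℕ := us3 a (Nat.land (Nat.mul y ua4) um4)

/-- spread 64 envelopes -/
def us5 (a y : ℕ) : ℕ := us4 a (Nat.land (Nat.mul y ua5) um5)

/-- at most 2 envelopes -/
def g0 (x : ℕ) : ℕ := us0 (Nat.mod x (nat_lit 64)) (Nat.shiftRight x (nat_lit 6))

/-- at most 4 envelopes -/
def g1 (x : ℕ) : ℕ := us1 (Nat.mod x (nat_lit 64)) (Nat.shiftRight x (nat_lit 6))

/-- at most 8 envelopes -/
def g2 (x : ℕ) : ℕ := us2 (Nat.mod x (nat_lit 64)) (Nat.shiftRight x (nat_lit 6))

/-- at most 16 envelopes -/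
def g3 (x : ℕ) : ℕ := us3 (Nat.mod x (nat_lit 64)) (Nat.shiftRight x (nat_lit 6))

/-- at most 32 envelopes -/
def g4 (x : ℕ) : ℕ := us4 (Nat.mod x (nat_lit 64)) (Nat.shiftRight x (nat_lit 6))

/-- at most 64 envelopes -/
def g5 (x : ℕ) : ℕ := us5 (Nat.mod x (nat_lit 64)) (Nat.shiftRight x (nat_lit 6))

/-- nine bytes, spread -/
def cw (x : ℕ) : ℕ := Nat.land (Nat.mul (Nat.land (Nat.mul (Nat.shiftRight x (nat_lit 5))
  (nat_lit 0x1000000000000000001000000000000000001))
  (nat_lit 0xffffff000000000000000000ffffff000000000000000000ffffff))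
  (nat_lit 0x1000001000001))
  (nat_lit 0xff000000ff000000ff000000ff000000ff000000ff000000ff000000ff000000ff)

/-- costs -/
def cx (x : ℕ) : ℕ := Nat.add (Nat.shiftLeft (cw x) (Nat.add (nat_lit 31) (Nat.mod x (nat_lit 32))))
  (Nat.mod x (nat_lit 4294967291))

/-- costs, some of them infinite -/
def cy (x : ℕ) : ℕ := Nat.add (cx x) (Nat.shiftLeft (Nat.land (Nat.add (cw x)
  (nat_lit 0x10000000100000001000000010000000100000001000000010000000100000001))
  (nat_lit 0x1000000010000000100000001000000010000000100000001000000010000000100)) (nat_lit 55))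

/-- the ends of the cells given by the digits of the last argument -/
def ct (G u n : ℕ) : ℕ → List ℕ :=
  Nat.rec (fun _ => []) (fun _ ih x => Nat.mul (Nat.add (Nat.mod x (nat_lit 64)) u) G ::
    ih (Nat.shiftRight x (nat_lit 6))) n

/-- a job on a box made of cells -/
def jd (G x n s : ℕ) : Jt :=
  Jt.leaf (Nat.mod x (nat_lit 2))
    (Nat.mod (Nat.shiftRight x (Nat.add (nat_lit 22) (Nat.mul (nat_lit 6) n))) (nat_lit 64))
    (ct G (nat_lit 0) n (Nat.shiftRight x (nat_lit 28)))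
    (ct G (nat_lit 1) n (Nat.shiftRight x (nat_lit 28)))
    (Nat.shiftLeft (Nat.mod (Nat.shiftRight x (nat_lit 12)) (nat_lit 65536))
      (Nat.mod (Nat.shiftRight x (nat_lit 6)) (nat_lit 64))) s

/-- the number of cells -/
def jm (x : ℕ) : ℕ := Nat.mod (Nat.shiftRight x (nat_lit 1)) (nat_lit 32)

/-- the instructions -/
def js (x : ℕ) : ℕ := Nat.shiftRight x (Nat.add (nat_lit 28) (Nat.mul (nat_lit 6) (jm x)))

end

end Pool.Agent.Work.MP_82fd4a_nt.P.C
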