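import Pool.Agent.Work.MP_82fd4a_nt.Y.Recip
import Pool.Agent.Lib.MR.Basic
import Pool.Agent.Lib.MR.Vdc

/-! The sum of `n ^ (i t)`: first and second derivative tests.

Plan. `nit n t = ce (t * log n)`; by conjugation (`conj_nit`) assume `0 ≤ t`. For `t ≤ 1` the trivial
bound `N ≤ 2 N / (1 + t)`. For `1 ≤ t` prove a block bound for `∑ m ∈ range n, ce (t * log (V + 1 + m))`,
`n ≤ V`, `1 ≤ V`: at most `C * (V / t + √t * (1 + log V))`:
(a) `t ≤ π V`: `kusmin` with `lam = t / (5 V)` (`1/(y+1) ≤ log (y+1) - log y ≤ 1/y`; the differences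
decrease), bound `40 V / t`;
(b) `V ^ 2 ≤ t`: trivial, `n ≤ V ≤ √t`;
(c) `π V < t < V ^ 2`: `weyl_sum` (Y/Recip; copy `yRecip_shift`, `yRecip_large` with `log` in place of
`c / s`) with `H = ⌈V ^ 2 / t⌉` (if `n < H` the trivial bound `n < H ≤ 1 + V ^ 2 / t` is not enough:
extend `weyl_sum` by zero or use `N = V` and `z m = 0` for `m ≥ n`, or note `V ^ 2 / t ≤ V / π`, and
`n ≤ H` gives `n ^ 2 ≤ 4 V ^ 4 / t ^ 2`; simplest is to prove the block bound only for full blocks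
`n = V` plus induction on `N ↦ N / 2` with `V = N / 2`, `n = N - N / 2 ≤ V + 1`).
The shifted phase `g y = t * (log y - log (y + h))` has first difference of size `h t / V ^ 2`
(between `h t / (25 V ^ 2)` and `h t / V ^ 2 ≤ π`), decreasing. This gives
`‖S‖ ^ 2 ≤ C (t + V (1 + log V)) ≤ C t (1 + log V)`.
Then strong induction on `N` (split `Icc 1 N` at `N / 2`), invariant
`C * (2 N / t + √t * (1 + log N) * (1 + Nat.log 2 N))`. -/

set_option autoImplicit false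
open Finset Pool.Agent.Lib.MR

namespace Pool.Agent.Work.MP_82fd4a_nt.P

lemma ExpLog_fd (s : ℝ) (k : ℕ) {x : ℝ} (hx : 0 < x) : ∃ ξ : ℝ, x ≤ ξ ∧ ξ ≤ x + (k + 1 : ℕ) ∧
    fd (k + 1) (LF s 0) x = s * (-1) ^ k * k.factorial / ξ ^ (k + 1) := by
  obtain ⟨ξ, a, b, c⟩ := fd_mvt _ (LF_deriv s) (k + 1) 0 x hx
  exact ⟨ξ, a, b, by rw [c, zero_add]; rfl⟩

lemma ExpLog_conj (s : Finset ℕ) (g : ℕ → ℝ) (t : ℝ) :
    ‖∑ k ∈ s, ce (-t * g k)‖ = ‖∑ k ∈ s, ce (t * g k)‖ := by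
  rw [← Complex.norm_conj, map_sum]
  simp only [conj_ce, neg_mul, neg_neg]

lemma ExpLog_small {V n : ℕ} (hV : 1 ≤ V) (hn : n ≤ V) {t : ℝ} (ht : 0 < t) (h : t ≤ V) :
    ‖∑ m ∈ range n, ce (t * Real.log ((V : ℝ) + 1 + m))‖ ≤ 32 * (V / t) := by
  have hV' : (1 : ℝ) ≤ V := by exact_mod_cast hV
  refine (Y.yRecip_kus (LF t 0) ((V : ℝ) + 1) n (lam := t / (4 * V)) (by positivity)
    fun m hm => ?_).trans (le_of_eq (by field_simp; ring))
  have hm' : (m : ℝ) ≤ V := by exact_mod_cast hm.trans hn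
  have hm0 : (0 : ℝ) ≤ m := Nat.cast_nonneg _
  have hx : (0 : ℝ) < V + 1 + m := by positivity
  obtain ⟨ξ, a1, a2, a3⟩ := ExpLog_fd t 0 hx
  obtain ⟨ζ, b1, -, b3⟩ := ExpLog_fd t 1 hx
  have hζ : 0 < ζ := hx.trans_le b1
  norm_num at a2 a3 b3
  rw [a3, b3]
  refine ⟨div_le_div_of_nonneg_left ht.le (by linarith) (by linarith), ?_, ?_⟩
  · rw [div_le_iff₀ (by linarith)]
    nlinarith [Real.pi_gt_three]
  · rw [neg_div, neg_nonpos]
    positivity

lemma ExpLog_shift {V n h : ℕ} (hV : 1 ≤ V) (hn : n ≤ V) {t : ℝ} (ht : 0 < t) (h1 : 1 ≤ h)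
    (h2 : h ≤ n) (h3 : (h : ℝ) * (t / V ^ 2) ≤ Real.pi) :
    ‖∑ m ∈ range (n - h), ce (-t * Real.log ((V : ℝ) + 1 + (m + h : ℕ))) *
      (starRingEnd ℂ) (ce (-t * Real.log ((V : ℝ) + 1 + m)))‖ ≤ 8 / (h * (t / (5 * V) ^ 2)) := by
  have hV' : (1 : ℝ) ≤ V := by exact_mod_cast hV
  have hh : (0 : ℝ) < h := by exact_mod_cast h1
  have e : ∑ m ∈ range (n - h), ce (-t * Real.log ((V : ℝ) + 1 + (m + h : ℕ))) *
      (starRingEnd ℂ) (ce (-t * Real.log ((V : ℝ) + 1 + m))) =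
      ∑ m ∈ range (n - h), ce ((fun y => LF (-t) 0 (y + h) - LF (-t) 0 y) ((V : ℝ) + 1 + m)) := by
    refine sum_congr rfl fun m _ => ?_
    rw [conj_ce, ← ce_add]; push_cast; rw [← add_assoc]; rfl
  rw [e]
  refine Y.yRecip_kus (fun y => LF (-t) 0 (y + h) - LF (-t) 0 y) ((V : ℝ) + 1) (n - h)
    (lam := h * (t / (5 * V) ^ 2)) (by positivity) fun m hm => ?_
  have hm0 : (0 : ℝ) ≤ m := Nat.cast_nonneg _
  have b3 : ∀ i ∈ range h, t / (5 * V) ^ 2 ≤ fd 2 (LF (-t) 0) ((V : ℝ) + 1 + m + i) ∧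
      fd 2 (LF (-t) 0) ((V : ℝ) + 1 + m + i) ≤ t / V ^ 2 ∧
      fd 3 (LF (-t) 0) ((V : ℝ) + 1 + m + i) ≤ 0 := by
    intro i hi
    rw [mem_range] at hi
    have hi0 : (0 : ℝ) ≤ i := Nat.cast_nonneg _
    have hmi : (m : ℝ) + i ≤ V := by exact_mod_cast (by omega : m + i ≤ V)
    have hx : (0 : ℝ) < V + 1 + m + i := by positivity
    obtain ⟨ξ, a1, a2, a3⟩ := ExpLog_fd (-t) 1 hx
    obtain ⟨ζ, b1, -, b3⟩ := ExpLog_fd (-t) 2 hx
    have hζ : 0 < ζ := hx.trans_le b1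
    have hξ : 0 < ξ := hx.trans_le a1
    norm_num at a2 a3 b3
    rw [a3, b3]
    refine ⟨div_le_div_of_nonneg_left ht.le (by positivity)
      (pow_le_pow_left₀ hξ.le (by linarith) _), div_le_div_of_nonneg_left ht.le (by positivity)
      (pow_le_pow_left₀ (by positivity) (by linarith) _), ?_⟩
    rw [neg_div, neg_nonpos]
    positivity
  rw [fd_tel, fd_tel]
  refine ⟨le_trans ?_ (card_nsmul_le_sum _ _ _ fun i hi => (b3 i hi).1),
    (sum_le_card_nsmul _ _ _ fun i hi => (b3 i hi).2.1).trans ?_,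
    sum_nonpos fun i hi => (b3 i hi).2.2⟩
  · rw [card_range, nsmul_eq_mul]
  · rw [card_range, nsmul_eq_mul]
    exact h3

lemma ExpLog_large {V n : ℕ} (hn1 : 1 ≤ n) (hn : n ≤ V) {t : ℝ} (h : (V : ℝ) ≤ t) :
    ‖∑ m ∈ range n, ce (t * Real.log ((V : ℝ) + 1 + m))‖ ≤ 32 * (√t * (1 + Real.log V)) := by
  have hV : 1 ≤ V := hn1.trans hn
  have hV' : (1 : ℝ) ≤ V := by exact_mod_cast hV
  have hn' : (1 : ℝ) ≤ n := by exact_mod_cast hn1
  have hnV : (n : ℝ) ≤ V := by exact_mod_cast hn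
  have ht : 0 < t := by linarith
  have hL : 0 ≤ Real.log V := Real.log_nonneg hV'
  have hVt : V / t ≤ 1 := (div_le_one ht).2 h
  have hH1 : 1 ≤ ⌈n * (V / t)⌉₊ := Nat.ceil_pos.2 (by positivity)
  have hH2 : ⌈n * (V / t)⌉₊ ≤ n := Nat.ceil_le.2 (mul_le_of_le_one_right (by positivity) hVt)
  have hH3 := Nat.le_ceil (n * (V / t))
  have w := Y.weyl_sum (fun m => ce (-t * Real.log ((V : ℝ) + 1 + m))) (fun m => (norm_ce _).le)
    (B := fun h => 8 / (h * (t / (5 * V) ^ 2))) hH1 hH2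
    (fun h => by positivity) fun k k1 k2 => ExpLog_shift hV hn ht k1 (k2.le.trans hH2) (by
      have b1 : (k : ℝ) ≤ V * (V / t) := (Nat.lt_ceil.1 k2).le.trans (by gcongr)
      calc (k : ℝ) * (t / V ^ 2) ≤ V * (V / t) * (t / V ^ 2) := by gcongr
        _ = 1 := by field_simp
        _ ≤ _ := by linarith [Real.pi_gt_three])
  generalize ⌈n * (V / t)⌉₊ = H at hH1 hH2 hH3 w
  have e : ∑ h ∈ Ico 1 H, 8 / ((h : ℝ) * (t / (5 * V) ^ 2)) =
      200 * V * (V / t) * ∑ h ∈ Ico 1 H, ((h : ℝ))⁻¹ := by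
    rw [mul_sum]
    refine sum_congr rfl fun k hk => ?_
    have : (0 : ℝ) < k := by exact_mod_cast (mem_Ico.1 hk).1
    field_simp
    ring
  rw [e, ExpLog_conj] at w
  have b1 := Y.yRecip_harm (hH2.trans hn)
  have b2 : (n : ℝ) * V ≤ t * H := by
    rwa [← mul_div_assoc, div_le_iff₀' ht] at hH3
  have b3 : (n : ℝ) * (V / t) * (V * ∑ h ∈ Ico 1 H, ((h : ℝ))⁻¹) ≤ H * (t * (1 + Real.log V)) := by
    gcongr
  have b4 : (n : ℝ) * n ≤ n * V := by gcongr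
  have hH : (0 : ℝ) < H := by exact_mod_cast hH1
  have b5 : 0 ≤ t * H * Real.log V := by positivity
  have b6 : 0 ≤ t * H * Real.log V ^ 2 := by positivity
  have b7 : 0 ≤ t * H := by positivity
  refine (pow_le_pow_iff_left₀ (norm_nonneg _) (by positivity) two_ne_zero).1
    (le_of_mul_le_mul_right (w.trans ?_) hH)
  rw [mul_pow, mul_pow, Real.sq_sqrt ht.le]
  nlinarith

lemma ExpLog_main {t : ℝ} (ht : 1 ≤ t) (N : ℕ) : ‖∑ n ∈ Icc 1 N, ce (t * Real.log n)‖ ≤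
    32 * (3 * (N / t) + 4 * (√t * (1 + Real.log N) ^ 2)) := by
  have ht0 : 0 < t := by linarith
  have hs : 1 ≤ √t := Real.one_le_sqrt.2 ht
  induction N using Nat.strong_induction_on with
  | _ N ih =>
  rcases Nat.lt_or_ge N 2 with hN | hN
  · have : 0 ≤ t⁻¹ := by positivity
    interval_cases N
    · simp
    · simp [norm_ce]
      linarith
  obtain ⟨V, hV⟩ : ∃ V, V = (N + 1) / 2 := ⟨_, rfl⟩
  have e : ∑ n ∈ Icc 1 N, ce (t * Real.log n) = ∑ n ∈ Icc 1 V, ce (t * Real.log n) +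
      ∑ m ∈ range (N - V), ce (t * Real.log ((V : ℝ) + 1 + m)) := by
    rw [← Finset.Ico_add_one_right_eq_Icc, ← Finset.Ico_add_one_right_eq_Icc,
      ← sum_Ico_consecutive _ (by omega : 1 ≤ V + 1) (by omega : V + 1 ≤ N + 1),
      sum_Ico_eq_sum_range _ (V + 1), show N + 1 - (V + 1) = N - V by omega]
    push_cast
    rfl
  have hV' : (1 : ℝ) ≤ V := by exact_mod_cast (by omega : 1 ≤ V)
  have h4 : (4 : ℝ) * V ≤ 3 * N := by exact_mod_cast (by omega : 4 * V ≤ 3 * N)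
  have hL : 0 ≤ Real.log V := Real.log_nonneg hV'
  have hN0 : (0 : ℝ) < N := by linarith
  have a1 : 0 ≤ V / t := by positivity
  have a2 : 0 ≤ √t * (1 + Real.log V) := by positivity
  have a3 : ‖∑ m ∈ range (N - V), ce (t * Real.log ((V : ℝ) + 1 + m))‖ ≤
      32 * (V / t + √t * (1 + Real.log V)) := by
    rcases le_total t V with h | h
    · linarith [ExpLog_small (n := N - V) (by omega) (by omega) ht0 h]
    · linarith [ExpLog_large (n := N - V) (by omega) (by omega) h]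
  have a4 : 4 * (V / t) ≤ 3 * (N / t) := by
    rw [← mul_div_assoc, ← mul_div_assoc]
    gcongr
  have a5 : Real.log V + 1 / 4 ≤ Real.log N := by
    have l1 := Real.log_le_sub_one_of_pos (show (0 : ℝ) < V / N by positivity)
    have l2 : (V : ℝ) / N ≤ 3 / 4 := by rw [div_le_iff₀ hN0]; linarith
    rw [Real.log_div (by positivity) hN0.ne'] at l1
    linarith
  have a6 : √t * (1 + Real.log V + 4 * (1 + Real.log V) ^ 2) ≤ √t * (4 * (1 + Real.log N) ^ 2) :=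
    mul_le_mul_of_nonneg_left (by nlinarith) (by positivity)
  rw [e]
  refine (norm_add_le _ _).trans ?_
  linarith [ih V (by omega)]

theorem exp_log : ∃ C : ℝ, 1 ≤ C ∧ ∀ (N : ℕ) (t : ℝ),
    ‖∑ n ∈ Icc 1 N, nit n t‖ ≤ C * (N / (1 + |t|) + √|t| * (1 + Real.log N) ^ 2) := by
  refine ⟨192, by norm_num, fun N t => ?_⟩
  have e : ‖∑ n ∈ Icc 1 N, nit n t‖ = ‖∑ n ∈ Icc 1 N, ce (|t| * Real.log n)‖ := by
    rcases le_total 0 t with h | h
    · rw [abs_of_nonneg h]; rfl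
    · rw [abs_of_nonpos h, ExpLog_conj]; rfl
  rw [e]
  have h0 := abs_nonneg t
  generalize |t| = u at h0
  have a1 : 0 ≤ √u * (1 + Real.log N) ^ 2 := by positivity
  have a2 : 0 ≤ N / (1 + u) := by positivity
  rcases le_total 1 u with h | h
  · have a3 : N / u ≤ 2 * (N / (1 + u)) := by
      rw [← mul_div_assoc, div_le_div_iff₀ (by linarith) (by linarith)]
      nlinarith [(Nat.cast_nonneg N : (0 : ℝ) ≤ N)]
    linarith [ExpLog_main h N]
  · have a3 : (N : ℝ) ≤ 2 * (N / (1 + u)) := by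
      rw [← mul_div_assoc, le_div_iff₀ (by linarith)]
      nlinarith [(Nat.cast_nonneg N : (0 : ℝ) ≤ N)]
    have a4 : ‖∑ n ∈ Icc 1 N, ce (u * Real.log n)‖ ≤ N :=
      (norm_sum_le _ _).trans (le_of_eq (by simp [norm_ce]))
    linarith

end Pool.Agent.Work.MP_82fd4a_nt.P
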