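import Pool.Agent.Work.MP_82fd4a_nt.P.Tc

/-! The program that checks the lists with many parts. -/

set_option autoImplicit false

namespace Pool.Agent.Work.MP_82fd4a_nt.P

open BS Y

noncomputable section

/-- the range of an entry of length `n` -/
def en1 (v n : ℕ) : ℕ := iz v 0 (fz n fun n =>
  fz (Nat.mod (Nat.shiftRight v 20) 1048576) fun u => Bool.rec
    (rl n (Nat.shiftRight v 20) 0 1048576)
    (Nat.add (Nat.mul u 18446744073709551617) 340282366920938463463374607431768211456)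
    (Nat.beq (Nat.shiftRight v 20) (Nat.mul u (geo 20 n))))

/-- the table of the ranges -/
def evu (s : Tr) : ℕ → Tr :=
  Tr.rec (fun _ => Tr.e) (fun v _ _ ihk ihr n => Tr.c (en1 v n) (ihk (Nat.succ n)) (ihr n)) s

/-- the cost when the cell of the last part is known -/
def rw1 (w u q : ℕ) : ℕ :=
  fz u fun u => fz (Nat.mul (Nat.shiftRight u 128) 524288) fun o =>
    il (Nat.add (Nat.mod u 18446744073709551616) 4096) o (Nat.succ (Nat.div (Nat.mul
      (Nat.sub o (Nat.add (Nat.mod (Nat.shiftRight u 64) 18446744073709551616) 4096)) w) q)) BAD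

/-- the largest cost over `n` consecutive cells -/
def rws (w o n : ℕ) : ℕ → ℕ → Tr → ℕ :=
  Nat.rec (fun _ _ _ => 0) (fun _ ih j m s => un s fun v _ r =>
    fz (rw1 w (Nat.add o v) (Nat.mul j m)) fun x =>
      fz (fz (Nat.succ j) fun j' => ih j' 1 r) fun y => mx x y) n

/-- loop over the next cell -/
def kds (k : ℕ → ℕ → ℕ → Tr → ℕ) (n : ℕ) : ℕ → ℕ → Tr → ℕ :=
  Nat.rec (fun _ _ _ => 0) (fun _ ih d m s => un s fun v t r =>
    Nat.add (k d m v (mrg s t)) (fz (Nat.succ d) fun d' => ih d' 1 r)) n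

/-- the new weight -/
def nw (w d m : ℕ) : ℕ := Nat.succ (Nat.div (Nat.mul w (Nat.succ (Nat.mul 2 d)))
  (Nat.mul (Nat.mul (Nat.mul 2 d) (Nat.succ d)) m))

/-- the cost of all the lists that begin with given cells -/
def gof (n0 a b f : ℕ) : ℕ → ℕ → ℕ → ℕ → ℕ → ℕ → ℕ → ℕ → Tr → ℕ :=
  Nat.rec (fun _ _ _ _ _ _ _ _ _ => 0) (fun _ ih n c m R w o y u s =>
    il b y 0 (il a (Nat.add y (Nat.pred u)) (Nat.add
      (il n0 n (fz (mx c (Nat.sub R n)) fun j =>
        rws w o (Nat.sub R j) j (il j c m 1) (skip s (Nat.sub j c))) 0)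
      (fz (Nat.succ n) fun n' => fz (Nat.div u 128) fun u' =>
        kds (fun d m v t => fz (Nat.succ m) fun m' => fz (Nat.sub R d) fun R' =>
            fz (nw w d m) fun w' => fz (Nat.add o v) fun o' =>
            fz (Nat.add y (Nat.mul d u')) fun y' => ih n' d m' R' w' o' y' u' t)
          (Nat.sub (Nat.succ (Nat.div (Nat.pred R) (mx 2 (Nat.sub (Nat.succ n0) n)))) c) c m s))
      0)) f

/-- zero if the cost of the lists whose key lies between `a` and `b` is at most `r` -/
def fjob (N c0 n0 : ℕ) (tb : Tr) (a b r : ℕ) : ℕ :=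
  il r 4503599627370496 (il (Nat.mul N (gof n0 a b 31 0 c0 1 N 1180591620717411303424
    0 0 72057594037927936 (evu tb 1))) (Nat.mul r 1073741824) 0 1) 1

end

end Pool.Agent.Work.MP_82fd4a_nt.P
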