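import Pool.Agent.Work.MP_82fd4a_nt.P.Au

/-! A faster form of the machine that reads the certificate. -/

set_option autoImplicit false

namespace Pool.Agent.Work.MP_82fd4a_nt.P.F

open BS Y

noncomputable section

/-- the digit one at `n` places -/
def onn (n : ℕ) : ℕ :=
  Nat.rec (nat_lit 0) (fun _ ih => (Nat.succ (Nat.shiftLeft ih (nat_lit 64)))) n

/-- the list of the first digits -/
def upk (n : ℕ) : ℕ → List ℕ :=
  Nat.rec (fun _ => []) (fun _ ih X => (Nat.mod X (nat_lit 18446744073709551616)) :: ih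
    (Nat.shiftRight X (nat_lit 64))) n

/-- zero if the lists have length `n` and small entries in the right order -/
def bok (los : List ℕ) : List ℕ → ℕ → ℕ :=
  List.rec (fun his n => List.rec n (fun _ _ _ => (nat_lit 1)) his) (fun lo _ ih his n =>
    List.rec (nat_lit 1) (fun hi his' _ => (Nat.add (Nat.add (Nat.add (Nat.sub (Nat.succ lo) hi)
    (Nat.sub hi (nat_lit 32768))) (Nat.sub (nat_lit 1) n)) (ih his' (Nat.sub n (nat_lit 1)))))
    his) los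

/-- a table of discrete logarithms -/
def lgT : ℕ :=
  nat_lit
    0x8586f28749f39888534a5ff40799b689ee54584b006029f50d08c09a34b77c8accef5c55bd59744c41007761172aa5f6ab0e4f093dc1239bc53544b8917d668bd7cd00f0965db45627be7a5a7275a34d21426400b278a1629f181a2be9a61cf7ffac2d0f8250eb0ac93ea8c2d4241e9cfcc6f936e14500b93992ae7edd672f8ce4d811ce6b0084f14897525e06b5ed5700280cbf337bcb5bbc73407616a4aa4e3c22c4439065d60095b3267971a22063b1a09e19e81bfe2c81eac8a7d31dfbf8e00038addc2ee3106a83475105ec000b32cabb3f15a93bc38fd59425701fb09de7fd80c7d2fadf37dbe26946040031ba143a8e936fafe67fd1deda680330138d6ee5d0d902126dcf016c000000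

/-- check a guess for the logarithm -/
def lg3 (x t : ℕ) : ℕ :=
  @Bool.rec (fun _ => ℕ) (Nat.log2 x) t (Nat.beq (Nat.shiftRight x t) (nat_lit 1))

/-- the logarithm of a number whose binary digits are ones -/
def lg2 (x y : ℕ) : ℕ :=
  lg3 x (Nat.mod (Nat.shiftRight lgT (Nat.mul (nat_lit 8) (Nat.mod (Nat.succ y) (nat_lit 269))))
    (nat_lit 256))

/-- spread the highest bit -/
def lgb (x y : ℕ) : ℕ :=
  lg2 x (Nat.lor (Nat.lor y (Nat.shiftRight y (nat_lit 64))) (Nat.shiftRight (Nat.lor y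
    (Nat.shiftRight y (nat_lit 64))) (nat_lit 128)))

/-- spread the highest bit -/
def lga (x y : ℕ) : ℕ :=
  lgb x (Nat.lor (Nat.lor (Nat.lor y (Nat.shiftRight y (nat_lit 8))) (Nat.shiftRight (Nat.lor y
    (Nat.shiftRight y (nat_lit 8))) (nat_lit 16))) (Nat.shiftRight (Nat.lor (Nat.lor y
    (Nat.shiftRight y (nat_lit 8))) (Nat.shiftRight (Nat.lor y (Nat.shiftRight y (nat_lit 8)))
    (nat_lit 16))) (nat_lit 32)))

/-- the logarithm -/
def lg1 (x : ℕ) : ℕ :=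
  lga x (Nat.lor (Nat.lor (Nat.lor x (Nat.shiftRight x (nat_lit 1))) (Nat.shiftRight (Nat.lor x
    (Nat.shiftRight x (nat_lit 1))) (nat_lit 2))) (Nat.shiftRight (Nat.lor (Nat.lor x
    (Nat.shiftRight x (nat_lit 1))) (Nat.shiftRight (Nat.lor x (Nat.shiftRight x (nat_lit 1)))
    (nat_lit 2))) (nat_lit 4)))

/-- the lowest bit -/
def lw2 (y : ℕ) : ℕ :=
  lg2 y y

/-- the lowest bit -/
def lw1 (x : ℕ) : ℕ :=
  @Bool.rec (fun _ => ℕ) (lw2 (Nat.xor x (Nat.sub x (nat_lit 1)))) (nat_lit 0) (Nat.beq (Nat.mod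
    x (nat_lit 2)) (nat_lit 1))

/-- the logarithm, with a first guess -/
def lgw (x t : ℕ) : ℕ :=
  @Bool.rec (fun _ => ℕ) (lg1 x) t (Nat.beq (Nat.shiftRight x t) (nat_lit 1))

/-- the range given by the lowest and the highest bit -/
def nr2 (U SL SH s0 t Wb : ℕ) (k : ℕ → ℕ → ℕ) : ℕ :=
  @Bool.rec (fun _ => ℕ) (k (Nat.add SL (Nat.sub (Nat.mul (Nat.add s0 (lw1 Wb)) U) SL)) (Nat.sub
    SH (Nat.sub SH (Nat.mul (Nat.succ (Nat.add s0 (lgw Wb t))) U)))) (nat_lit 0) (Nat.beq Wb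
    (nat_lit 0))

/-- narrow the range of the sum of the known parts -/
def nr1 (U K SL SH : ℕ) (k : ℕ → ℕ → ℕ) : ℕ :=
  nr2 U SL SH (Nat.div SL U) (Nat.sub (Nat.div (Nat.sub SH (nat_lit 1)) U) (Nat.div SL U))
    (Nat.mod (Nat.shiftRight K (Nat.div SL U)) (Nat.pow (nat_lit 2) (Nat.sub (Nat.succ (Nat.div
    (Nat.sub SH (nat_lit 1)) U)) (Nat.div SL U)))) k

/-- the larger of two digits -/
def mx2 (W : ℕ) : ℕ :=
  Nat.add (Nat.mod W (nat_lit 4294967296)) (Nat.sub (Nat.shiftRight W (nat_lit 32)) (Nat.mod W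
    (nat_lit 4294967296)))

/-- the largest of `n` costs -/
def mx3 (n : ℕ) : ℕ → ℕ → ℕ :=
  Nat.rec (fun _ a => a) (fun _ ih V a => ih (Nat.shiftRight V (nat_lit 32)) (Nat.add a (Nat.sub
    (Nat.mod V (nat_lit 4294967296)) a))) n

/-- the largest of `n` costs -/
def mx5 (n V : ℕ) : ℕ :=
  @Bool.rec (fun _ => ℕ) (mx3 n V (nat_lit 0)) (mx2 (Nat.mod V (Nat.pow (nat_lit 2) (Nat.mul
    (nat_lit 32) n)))) (Nat.ble n (nat_lit 2))

/-- the largest cost and the denominator -/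
def lk2 (G M sl sh CT j0 jl : ℕ) (k : ℕ → ℕ → ℕ) : ℕ :=
  k (mx5 (Nat.sub (Nat.succ (Nat.div (Nat.sub (Nat.sub M sl) (nat_lit 1)) G)) jl) (Nat.shiftRight
    CT (Nat.mul (nat_lit 32) (Nat.succ (Nat.sub jl j0))))) (Nat.add (Nat.mul jl G) (Nat.sub
    (Nat.sub (Nat.sub M (nat_lit 1)) sh) (Nat.mul jl G)))

/-- the largest cost and the denominator -/
def lk1 (G M c CT j0 : ℕ) (k : ℕ → ℕ → ℕ) (sl sh : ℕ) : ℕ :=
  lk2 G M sl sh CT j0 (Nat.add c (Nat.sub (Nat.div (Nat.sub M sh) G) c)) k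

/-- the mass of a box -/
def msx (n : ℕ) : ℕ → ℕ → ℕ → ℕ → ℕ :=
  Nat.rec (fun _ _ a b => (Nat.succ (Nat.div a b))) (fun _ ih X Y a b => ih (Nat.shiftRight X
    (nat_lit 64)) (Nat.shiftRight Y (nat_lit 64)) (Nat.mul a (Nat.sub (Nat.mul (Nat.mod Y
    (nat_lit 18446744073709551616)) (Nat.mod Y (nat_lit 18446744073709551616))) (Nat.mul (Nat.mod
    X (nat_lit 18446744073709551616)) (Nat.mod X (nat_lit 18446744073709551616))))) (Nat.mul b
    (Nat.mul (nat_lit 2) (Nat.mul (Nat.mod Y (nat_lit 18446744073709551616)) (Nat.mod X (nat_lit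
    18446744073709551616)))))) n

/-- the cost of a box -/
def lf3 (M n X Y C den : ℕ) : ℕ :=
  @Bool.rec (fun _ => ℕ) (@Bool.rec (fun _ => ℕ) (msx n X Y (Nat.mul (Nat.mul C M) (nat_lit
    1099511627776)) den) BAD (Nat.ble (nat_lit 2147483648) C)) (nat_lit 0) (Nat.beq C (nat_lit
    0))

/-- a leaf -/
def lf5 (U G M n c X Y CT j0 K : ℕ) : ℕ :=
  nr1 U K (Nat.mod X (nat_lit 18446744073709551615)) (Nat.mod Y (nat_lit 18446744073709551615))
    (lk1 G M c CT j0 (lf3 M n X Y))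

/-- add the cost of a class -/
def cf4 (k : ℕ → ℕ) (q A C F : ℕ) : ℕ :=
  @Bool.rec (fun _ => ℕ) BAD (k (Nat.add A (Nat.mul q F))) (Nat.beq (Nat.add (Nat.shiftRight C
    (nat_lit 31)) (Nat.shiftRight F (nat_lit 120))) (nat_lit 0))

/-- add the cost of a class -/
def cf3 (M : ℕ) (k : ℕ → ℕ) (q A C den : ℕ) : ℕ :=
  cf4 k q A C (Nat.mul (Nat.succ (Nat.div (Nat.mul (Nat.mul C M) (nat_lit 1099511627776)) den))
    (Nat.sub (nat_lit 1) (Nat.sub (nat_lit 1) C)))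

/-- one class -/
def cs1 (U G M c CT j0 : ℕ) (k : ℕ → ℕ) (q A x y s0 t Wb : ℕ) : ℕ :=
  @Bool.rec (fun _ => ℕ) (lk1 G M c CT j0 (cf3 M k q A) (Nat.add x (Nat.sub (Nat.mul (Nat.add s0
    (lw1 Wb)) U) x)) (Nat.sub y (Nat.sub y (Nat.mul (Nat.succ (Nat.add s0 (lgw Wb t))) U)))) (k
    A) (Nat.beq Wb (nat_lit 0))

/-- the sum over the classes -/
def cs5 (U G M c K CT j0 h d V b t n : ℕ) : ℕ → ℕ → ℕ → ℕ :=
  Nat.rec (fun _ _ A => (Nat.succ (Nat.shiftRight A t))) (fun _ ih Q x A => cs1 U G M c CT j0 (ih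
    (Nat.shiftRight Q V) (Nat.add x h)) (Nat.mod Q b) A x (Nat.add x d) (Nat.div x U) (Nat.sub
    (Nat.div (Nat.sub (Nat.add x d) (nat_lit 1)) U) (Nat.div x U)) (Nat.mod (Nat.shiftRight K
    (Nat.div x U)) (Nat.pow (nat_lit 2) (Nat.sub (Nat.succ (Nat.div (Nat.sub (Nat.add x d)
    (nat_lit 1)) U)) (Nat.div x U))))) n

/-- the masses of the classes as digits -/
def wpx (V h S n : ℕ) : ℕ → ℕ :=
  Nat.rec (fun _ => (nat_lit 1)) (fun _ ih X => (Nat.mul (fz (Nat.mod X (nat_lit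
    18446744073709551616)) (wv V h S)) (ih (Nat.shiftRight X (nat_lit 64))))) n

/-- the convolution -/
def cv6 (U G M c n X Y K CT j0 S V h : ℕ) : ℕ :=
  @Bool.rec (fun _ => ℕ) BAD (cs5 U G M c K CT j0 h (Nat.mul n h) V (Nat.pow (nat_lit 2) V)
    (Nat.mul (nat_lit 20) n) (Nat.succ (Nat.mul (Nat.sub S (nat_lit 1)) n)) (wpx V h S n X)
    (Nat.mod X (nat_lit 18446744073709551615)) (nat_lit 0)) (Nat.beq Y (Nat.add X (Nat.mul
    (Nat.mul S h) (onn n))))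

/-- the cost of a box whose sides are cut in `2 ^ g` pieces -/
def cv5 (U G M c n X Y K CT j0 g : ℕ) : ℕ :=
  fz (Nat.pow (nat_lit 2) g) fun S => fz (Nat.shiftRight (Nat.sub (Nat.mod Y (nat_lit
    18446744073709551616)) (Nat.mod X (nat_lit 18446744073709551616))) g) (cv6 U G M c n X Y K CT
    j0 S (Nat.mul (nat_lit 24) n))

/-- digitwise minimum -/
def vm2 (n Y Z : ℕ) : ℕ :=
  Nat.sub Y (Nat.land Z (Nat.sub (Nat.land Z (hig n)) (Nat.shiftRight (Nat.land Z (hig n))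
    (nat_lit 63))))

/-- digitwise minimum -/
def vm1 (n Y : ℕ) : ℕ :=
  vm2 n Y (Nat.add Y (bia n))

/-- one monomial -/
def cr2 (M T n h : ℕ) (k : ℕ → ℕ → ℕ → ℕ) (w a c dg D A V b L u : ℕ) : ℕ :=
  @Bool.rec (fun _ => ℕ) (k A (Nat.add V (Nat.mul w (vm1 n (Nat.add (Nat.mul (Nat.sub u c) (ones
    n)) (Nat.mul (Nat.mul a h) D))))) (Nat.add (Nat.add (Nat.add b (Nat.sub T (Nat.mul (nat_lit
    2) L))) (Nat.sub (Nat.add L (Nat.mul (Nat.succ h) dg)) M)) (Nat.sub c u))) (k (Nat.add A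
    (Nat.mul w (nat_lit 1073741824))) V (Nat.add (Nat.add (Nat.add b (Nat.sub T (Nat.mul (nat_lit
    2) L))) (Nat.sub (Nat.add L (Nat.mul (Nat.succ h) dg)) M)) (Nat.sub c u))) (Nat.ble (Nat.add
    c (nat_lit 1073741824)) u)

/-- the values of the concave minorant at the corners -/
def cr1 (M T n X sh h R : ℕ) (k : ℕ → ℕ) (ce : Ce) : ℕ → ℕ → ℕ → ℕ :=
  Ce.rec (fun A V b => (@Bool.rec (fun _ => ℕ) BAD (k (Nat.add V (Nat.mul A (ones n)))) (Nat.beq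
    b (nat_lit 0)))) (fun w a c e y dg D _ ih A V b => cr2 M T n h ih w a c dg D A V b (Nat.add
    (Nat.mod (Nat.shiftRight (Nat.mul X y) sh) (nat_lit 18446744073709551616)) (Nat.mul e R))
    (Nat.mul a (Nat.add (Nat.mod (Nat.shiftRight (Nat.mul X y) sh) (nat_lit
    18446744073709551616)) (Nat.mul e R)))) ce

/-- the slabs that can be cleared -/
def cm5 (U SL h V n k : ℕ) : ℕ :=
  Nat.rec (nat_lit 0) (fun r ih => (@Bool.rec (fun _ => ℕ) ih (Nat.lor ih (Nat.shiftLeft (Nat.sub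
    (Nat.pow (nat_lit 2) (Nat.sub (Nat.div (Nat.add SL (Nat.mul (Nat.succ r) h)) U) (Nat.div
    (Nat.add (Nat.add SL (Nat.mul r h)) (Nat.sub U (nat_lit 1))) U))) (nat_lit 1)) (Nat.div
    (Nat.add (Nat.add SL (Nat.mul r h)) (Nat.sub U (nat_lit 1))) U))) (Nat.beq (Nat.land V (rm n
    r)) (rm n r)))) k

/-- the new mask -/
def kk2 (k : ℕ → ℕ) (K : ℕ) : ℕ :=
  k (Nat.add (Nat.shiftLeft (Nat.shiftRight K (nat_lit 32)) (nat_lit 32)) (Nat.mod K (nat_lit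
    4294967291)))

/-- the new mask -/
def kk1 (U n SL h K : ℕ) (k : ℕ → ℕ) (V : ℕ) : ℕ :=
  kk2 k (Nat.xor K (Nat.land K (cm5 U SL h V n n)))

/-- clear the slabs on which a packing is good -/
def cl7 (U M T n X Y : ℕ) (ce : Ce) (K : ℕ) (k : ℕ → ℕ) (h SH : ℕ) : ℕ :=
  cr1 M T n (Nat.add (Nat.shiftLeft X (nat_lit 64)) (Nat.mod X (nat_lit 16777213))) (Nat.mul
    (nat_lit 64) n) h (Nat.sub (Nat.sub M (nat_lit 1)) SH) (kk1 U n (Nat.mod X (nat_lit
    18446744073709551615)) h K k) ce (Nat.sub (nat_lit 9223363240224882688) (Nat.mod X (nat_lit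
    16777213))) (nat_lit 0) (Nat.add (Nat.xor Y (Nat.add X (Nat.mul h (onn n)))) (Nat.sub
    (Nat.succ SH) M))

/-- clear the slabs on which a packing is good -/
def cl6 (U M T n X Y : ℕ) (ce : Ce) (K : ℕ) (k : ℕ → ℕ) : ℕ :=
  cl7 U M T n X Y ce K k (Nat.sub (Nat.mod Y (nat_lit 18446744073709551616)) (Nat.mod X (nat_lit
    18446744073709551616))) (Nat.mod Y (nat_lit 18446744073709551615))

/-- the digit one at `n` places, in base `2 ^ w` -/
def onw (w n : ℕ) : ℕ :=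
  Nat.rec (nat_lit 0) (fun _ ih => (Nat.succ (Nat.shiftLeft ih w))) n

/-- multiplier that spreads the digits -/
def sp60 (n : ℕ) : ℕ :=
  onw (nat_lit 60) (Nat.succ n)

/-- mask for the digits -/
def mk1 (n : ℕ) : ℕ :=
  Nat.mul (nat_lit 15) (onn (Nat.succ n))

/-- multiplier that spreads the digits in the reverse order -/
def sp68 (n : ℕ) : ℕ :=
  onw (nat_lit 68) n

/-- mask for the digits -/
def mk0 (n : ℕ) : ℕ :=
  Nat.mul (nat_lit 15) (onn n)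

/-- exponents -/
def hpe (n x : ℕ) : ℕ :=
  Nat.land (Nat.shiftRight (Nat.mul x (sp68 n)) (Nat.mul (nat_lit 4) n)) (mk0 n)

/-- all the exponents -/
def mve (n x : ℕ) : ℕ :=
  Nat.shiftLeft (Nat.land (Nat.mul x (sp60 n)) (mk1 n)) (nat_lit 64)

/-- the digit `16` at `n` places -/
def on16 (n : ℕ) : ℕ :=
  Nat.mul (nat_lit 16) (onn n)

/-- degree -/
def dg2 (n e Z : ℕ) : ℕ :=
  Nat.add (Nat.mul e (Nat.succ n)) (Nat.mod (Nat.land Z (Nat.mul (Nat.shiftRight (Nat.land Z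
    (on16 n)) (nat_lit 4)) (nat_lit 15))) (nat_lit 18446744073709551615))

/-- degree -/
def dge (n x y : ℕ) : ℕ :=
  dg2 n (Nat.mod x (nat_lit 16)) (Nat.add y (Nat.mul (Nat.sub (nat_lit 16) (Nat.mod x (nat_lit
    16))) (onn n)))

/-- the corners at which a coordinate is one -/
def bj (n j : ℕ) : ℕ :=
  dv (nat_lit 0) (Nat.pow (nat_lit 2) (Nat.mul (nat_lit 4) j)) n

/-- the number of zero coordinates -/
def cz (n : ℕ) : ℕ :=
  dv (nat_lit 1) (nat_lit 0) n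

/-- increments at the corners -/
def dv2 (n x k : ℕ) : ℕ :=
  Nat.rec (Nat.mul (Nat.mod x (nat_lit 16)) (cz n)) (fun j ih => (Nat.add ih (Nat.mul (Nat.mod
    (Nat.shiftRight x (Nat.mul (nat_lit 4) (Nat.succ j))) (nat_lit 16)) (bj n j)))) k

/-- increments at the corners -/
def dve (n x : ℕ) : ℕ :=
  dv2 n x n

/-- one monomial -/
def pr2 (T n : ℕ) (i : (Ce → ℕ → ℕ) → ℕ) (k : Ce → ℕ → ℕ) (w L0 den x : ℕ) : ℕ :=
  i fun r g => k (Ce.cons w (Nat.mod (Nat.div (Nat.mul (nat_lit 2147483648) T) den) (nat_lit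
    1099511627776)) (Nat.div (Nat.add (Nat.mul (nat_lit 1073741824) (Nat.mul L0 L0)) (Nat.sub den
    (nat_lit 1))) den) (Nat.mod x (nat_lit 16)) (hpe n x) (dge n x (hpe n x)) (dve n x) r)
    (Nat.add g (Nat.mul w (mve n x)))

/-- read the monomials -/
def pr1 (T n rw b g0 cnt : ℕ) : ℕ → (Ce → ℕ → ℕ) → ℕ :=
  Nat.rec (fun _ k => k Ce.nil g0) (fun _ ih s k => fz (Nat.mod (Nat.shiftRight s (nat_lit 25))
    b) (pr2 T n (ih (Nat.shiftRight s rw)) k (Nat.mod s (nat_lit 8192)) (Nat.mul (nat_lit 8)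
    (Nat.mod (Nat.shiftRight s (nat_lit 13)) (nat_lit 4096))) (Nat.mul (Nat.sub (Nat.mul (nat_lit
    2) T) (Nat.mul (nat_lit 8) (Nat.mod (Nat.shiftRight s (nat_lit 13)) (nat_lit 4096))))
    (Nat.sub (Nat.mul (nat_lit 2) T) (Nat.mul (nat_lit 8) (Nat.mod (Nat.shiftRight s (nat_lit
    13)) (nat_lit 4096))))))) cnt

/-- the highest bits of the digits `1, …, n + 1` -/
def hi1 (n : ℕ) : ℕ :=
  Nat.shiftLeft (onn (Nat.succ n)) (nat_lit 127)

/-- a bias for the digits `1, …, n + 1` -/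
def bi1 (n : ℕ) : ℕ :=
  Nat.shiftLeft (Nat.mul (nat_lit 9223372036854771711) (onn (Nat.succ n))) (nat_lit 64)

/-- zero if the digits `1, …, n + 1` are at most `4096` -/
def co5 (n g : ℕ) : ℕ :=
  Nat.land (Nat.lor g (Nat.add g (bi1 n))) (hi1 n)

/-- read a packing -/
def rd5 (T n s : ℕ) (k : Ce → ℕ → ℕ) : ℕ :=
  pr1 T n (Nat.add (nat_lit 29) (Nat.mul (nat_lit 4) n)) (Nat.pow (nat_lit 2) (Nat.add (nat_lit
    4) (Nat.mul (nat_lit 4) n))) (Nat.mod s (nat_lit 4294967296)) (Nat.mod s (nat_lit 16))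
    (Nat.shiftRight s (nat_lit 4)) fun ce g => (@Bool.rec (fun _ => ℕ) BAD (k ce (Nat.shiftRight
    s (Nat.add (nat_lit 4) (Nat.mul (Nat.mod s (nat_lit 16)) (Nat.add (nat_lit 29) (Nat.mul
    (nat_lit 4) n)))))) (Nat.beq (co5 n g) (nat_lit 0)))

/-- split a box in two -/
def sp3 (k : ℕ → ℕ → ℕ → ℕ) (X Y u lo hi m s len : ℕ) : ℕ :=
  @Bool.rec (fun _ => ℕ) (Nat.add (k X (Nat.sub Y (Nat.shiftLeft (Nat.sub hi m) u)) (Nat.mod s
    (Nat.pow (nat_lit 2) len))) (k (Nat.add X (Nat.shiftLeft (Nat.sub m lo) u)) Y (Nat.shiftRight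
    s len))) BAD (Nat.ble m lo)

/-- split a box in two -/
def sp2 (k : ℕ → ℕ → ℕ → ℕ) (X Y s u nb : ℕ) : ℕ :=
  sp3 k X Y u (Nat.mod (Nat.shiftRight X u) (nat_lit 18446744073709551616)) (Nat.mod
    (Nat.shiftRight Y u) (nat_lit 18446744073709551616)) (Nat.div (Nat.add (Nat.mod
    (Nat.shiftRight X u) (nat_lit 18446744073709551616)) (Nat.mod (Nat.shiftRight Y u) (nat_lit
    18446744073709551616))) (nat_lit 2)) (Nat.shiftRight s (Nat.add (nat_lit 12) nb)) (Nat.mod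
    (Nat.shiftRight s (nat_lit 12)) (Nat.pow (nat_lit 2) nb))

/-- largest and smallest of at most two entries -/
def rl2 (n W : ℕ) : ℕ :=
  Nat.add (Nat.add (Nat.add (Nat.mod W (nat_lit 1048576)) (Nat.sub (Nat.shiftRight W (nat_lit
    20)) (Nat.mod W (nat_lit 1048576)))) (Nat.shiftLeft (Nat.sub (Nat.add (Nat.mod W (nat_lit
    1048576)) (Nat.mul (Nat.sub (nat_lit 1) n) (nat_lit 1048576))) (Nat.sub (Nat.add (Nat.mod W
    (nat_lit 1048576)) (Nat.mul (Nat.sub (nat_lit 1) n) (nat_lit 1048576))) (Nat.add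
    (Nat.shiftRight W (nat_lit 20)) (Nat.mul (Nat.sub (nat_lit 2) n) (nat_lit 1048576)))))
    (nat_lit 64))) (nat_lit 340282366920938463463374607431768211456)

/-- largest and smallest of `n` entries -/
def rl5 (n V : ℕ) : ℕ :=
  @Bool.rec (fun _ => ℕ) (rl n V 0 1048576) (rl2 n (Nat.mod V (Nat.pow (nat_lit 2) (Nat.mul
    (nat_lit 20) n)))) (Nat.ble n (nat_lit 2))

/-- the range of an entry of the table on a box -/
def ht2 (G N M SL v S lo hi eh : ℕ) : ℕ :=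
  rl5 (Nat.sub (Nat.succ eh) (Nat.add (Nat.div (Nat.sub SL lo) G) (Nat.sub (Nat.div (Nat.sub M
    hi) G) (Nat.div (Nat.sub SL lo) G)))) (Nat.shiftRight v (Nat.mul (nat_lit 20) (Nat.sub
    (Nat.sub N S) eh)))

/-- the range of an entry of the table on a box -/
def ht1 (G N M SL SH v S lo hi : ℕ) : ℕ :=
  @Bool.rec (fun _ => ℕ) (ht2 G N M SL v S lo hi (Nat.sub (Nat.div (Nat.sub (Nat.sub SH hi)
    (nat_lit 1)) G) (Nat.sub (Nat.div (Nat.sub (Nat.sub SH hi) (nat_lit 1)) G) (Nat.div (Nat.sub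
    (Nat.sub M lo) (nat_lit 1)) G)))) (nat_lit 0) (Nat.beq v (nat_lit 0))

/-- the sum of the ranges over the nonempty sublists -/
def pv5 (G N M SL SH : ℕ) (l : L3) : Tr → ℕ → ℕ → ℕ → ℕ → ℕ :=
  L3.rec (fun _ _ _ _ _ => (nat_lit 0)) (fun x xl xh _ ih s a S lo hi => Tr.rec (nat_lit 0) (fun
    v k r _ _ => (Nat.add (Nat.add (ht1 G N M SL SH v (Nat.add S x) (Nat.add lo xl) (Nat.add hi
    xh)) (ih k x (Nat.add S x) (Nat.add lo xl) (Nat.add hi xh))) (ih (Tr.c v k r) x S lo hi)))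
    (skip s (Nat.sub x a))) l

/-- the cost from the sums of the ranges -/
def ev4 (r o f : ℕ) : ℕ :=
  @Bool.rec (fun _ => ℕ) (nat_lit 2147483648) (Nat.sub (Nat.div (Nat.add (Nat.sub o (Nat.add
    (nat_lit 4096) (Nat.mod (Nat.shiftRight r (nat_lit 64)) (nat_lit 18446744073709551616))))
    (Nat.sub f (nat_lit 1))) f) (Nat.sub (Nat.div (Nat.add (Nat.sub o (Nat.add (nat_lit 4096)
    (Nat.mod (Nat.shiftRight r (nat_lit 64)) (nat_lit 18446744073709551616)))) (Nat.sub f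
    (nat_lit 1))) f) (nat_lit 2147483648))) (Nat.ble (Nat.add (nat_lit 4096) (Nat.mod r (nat_lit
    18446744073709551616))) o)

/-- the cost from the sums of the ranges -/
def ev3 (f r : ℕ) : ℕ :=
  ev4 r (Nat.mul (Nat.shiftRight r (nat_lit 128)) (nat_lit 524288)) f

/-- the cost when the last part lies in the cell `j` -/
def ev2 (G N M c0 : ℕ) (tb : Tr) (cs los his : List ℕ) (SL SH j al ah : ℕ) : ℕ :=
  ev3 (mfn (snoc cs j)) (pv5 G N M (Nat.add SL al) (Nat.add SH ah) (mk3 (L3.cons j al ah L3.nil)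
    cs los his) tb c0 (nat_lit 0) (nat_lit 0) (nat_lit 0))

/-- the cost when the last part lies in the cell `j` -/
def ev5 (G N M c0 : ℕ) (tb : Tr) (cs los his : List ℕ) (SL SH sl sh j : ℕ) : ℕ :=
  ev2 G N M c0 tb cs los his SL SH j (Nat.add (Nat.mul j G) (Nat.sub (Nat.sub (Nat.sub M (nat_lit
    1)) sh) (Nat.mul j G))) (Nat.sub (Nat.mul (Nat.succ j) G) (Nat.sub (Nat.mul (Nat.succ j) G)
    (Nat.sub M sl)))

/-- evaluate the table on a box -/
def el5 (G N M c0 : ℕ) (tb : Tr) (c n X Y : ℕ) (k : ℕ → ℕ → ℕ) (sl sh : ℕ) : ℕ :=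
  fl (cls G (upk n X)) fun cs => fz (Nat.add c (Nat.sub (Nat.div (Nat.sub M sh) G) c)) fun jl =>
    fz (evs (ev5 G N M c0 tb cs (upk n X) (upk n Y) (Nat.mod X (nat_lit 18446744073709551615))
    (Nat.mod Y (nat_lit 18446744073709551615)) sl sh) (Nat.sub (Nat.succ (Nat.div (Nat.sub
    (Nat.sub M sl) (nat_lit 1)) G)) jl) jl) fun C => k (Nat.add (Nat.shiftLeft C (nat_lit 32))
    (Nat.mod C (nat_lit 4294967291))) jl

/-- the rare instructions -/
def br0 (G N M T U c0 Y0 : ℕ) (tb tq tc : Tr) (n c : ℕ) (ih : ℕ → ℕ → ℕ → ℕ → List Ce → ℕ → ℕ →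
    ℕ) (X Y CT j0 : ℕ) (CL : List Ce) (K s : ℕ) : ℕ :=
  @Bool.rec (fun _ => ℕ) (@Bool.rec (fun _ => ℕ) (ldc G N c0 tc (upk n X) fun CT' j' => ih X Y
    CT' j' CL K (Nat.shiftRight s (nat_lit 4))) (nr1 U K (Nat.mod X (nat_lit
    18446744073709551615)) (Nat.mod Y (nat_lit 18446744073709551615)) (el5 G N M c0 tb c n X Y
    fun CT' j' => ih X Y CT' j' CL K (Nat.shiftRight s (nat_lit 4)))) (Nat.beq (Nat.mod s
    (nat_lit 16)) (nat_lit 8))) (@Bool.rec (fun _ => ℕ) (evp G M c0 Y0 tq c (upk n X) (Nat.mod X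
    (nat_lit 18446744073709551615)) (Nat.mod Y (nat_lit 18446744073709551615)) fun CT' j' => lk1
    G M c CT' j' (lf3 M n X Y) (Nat.mod X (nat_lit 18446744073709551615)) (Nat.mod Y (nat_lit
    18446744073709551615))) (rd5 T n (Nat.shiftRight s (nat_lit 4)) fun ce a => ih X Y CT j0 (ce
    :: CL) K a) (Nat.beq (Nat.mod s (nat_lit 16)) (nat_lit 4))) (Nat.ble (Nat.mod s (nat_lit 16))
    (nat_lit 4))

/-- the leaves -/
def br1 (G M U n c X Y CT j0 K s : ℕ) : ℕ :=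
  @Bool.rec (fun _ => ℕ) (cv5 U G M c n X Y K CT j0 (Nat.mod (Nat.shiftRight s (nat_lit 2))
    (nat_lit 4))) (lf5 U G M n c X Y CT j0 K) (Nat.beq (Nat.mod s (nat_lit 16)) (nat_lit 1))

/-- split or clear -/
def br2 (M T U n : ℕ) (ih : ℕ → ℕ → ℕ → ℕ → List Ce → ℕ → ℕ → ℕ) (X Y CT j0 : ℕ) (CL : List Ce)
    (K s : ℕ) : ℕ :=
  @Bool.rec (fun _ => ℕ) (cl6 U M T n X Y (nce CL (Nat.mod (Nat.shiftRight s (nat_lit 2))
    (nat_lit 32))) K fun K' => ih X Y CT j0 CL K' (Nat.shiftRight s (nat_lit 7))) (sp2 (fun X' Y'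
    a => ih X' Y' CT j0 CL K a) X Y s (Nat.mul (nat_lit 64) (Nat.mod (Nat.shiftRight s (nat_lit
    2)) (nat_lit 32))) (Nat.mod (Nat.shiftRight s (nat_lit 7)) (nat_lit 32))) (Nat.beq (Nat.mod s
    (nat_lit 2)) (nat_lit 0))

/-- boxes with one more part -/
def cl5 (G N M T U c0 Y0 : ℕ) (tb tq tc : Tr) (n c f : ℕ) : ℕ → ℕ → ℕ → ℕ → List Ce → ℕ → ℕ → ℕ
    :=
  Nat.rec (fun _ _ _ _ _ _ _ => BAD) (fun _ ih X Y CT j0 CL K s => (@Bool.rec (fun _ => ℕ)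
    (@Bool.rec (fun _ => ℕ) (br1 G M U n c X Y CT j0 K s) (br0 G N M T U c0 Y0 tb tq tc n c ih X
    Y CT j0 CL K s) (Nat.beq (Nat.mod s (nat_lit 4)) (nat_lit 0))) (br2 M T U n ih X Y CT j0 CL K
    s) (Nat.ble (nat_lit 2) (Nat.mod s (nat_lit 4))))) f

/-- boxes with one more part -/
def clq (G N M T U c0 Y0 : ℕ) (tb tq tc : Tr) (n c : ℕ) (los his : List ℕ) (s : ℕ) : ℕ :=
  iz (Nat.add (bok los his n) (Nat.sub n (nat_lit 14))) (cl5 G N M T U c0 Y0 tb tq tc n c 250 (pk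
    los) (pk his) CT0 0 [] CT0 s) (cl3 G N M T U c0 Y0 tb tq tc n c 250 los his CT0 0 [] CT0 s)

/-- zero if all the jobs respect their bounds -/
def run5 (G N M T U z c0 Y0 : ℕ) (tb tq tc : Tr) (J : Jt) : ℕ :=
  rung G N M z c0 Y0 tq (clq G N M T U c0 Y0 tb tq tc) J

end

end Pool.Agent.Work.MP_82fd4a_nt.P.F
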