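import Pool.Agent.Work.MP_82fd4a_nt.Kernel

/-! The total mass of the weight.

Plan. `gk x T n = (n / x) ^ T` for `x / 2 < n ≤ x` and `(x / n) ^ T` for `x < n ≤ 2 x`. Compare the two
monotone sums with integrals (`MonotoneOn.sum_le_integral`, `MonotoneOn.integral_le_sum`,
`AntitoneOn.…`, `integral_rpow`), error at most 1 or 2 each, or telescope with Bernoulli's
inequality. Main terms `x (1 - 2 ^ (-T-1)) / (T + 1)` and `x (1 - 2 ^ (1-T)) / (T - 1)`;
`T / (T + 1) + T / (T - 1) = 2 + 2 / (T ^ 2 - 1)`, `2 ^ (-T) ≤ 1 / (2 T)`... (`T ≤ 2 ^ T` is enough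
with the constant 20). -/

set_option autoImplicit false
open Finset

namespace Pool.Agent.Work.MP_82fd4a_nt.P

theorem GamA_sh (f : ℕ → ℝ) {a b : ℕ} (h : a ≤ b) :
    ∑ n ∈ Ioc a b, f n = ∑ n ∈ Ico a b, f (n + 1) ∧
      ∑ n ∈ Ioc a b, f n + f a = ∑ n ∈ Ico a b, f n + f b := by
  induction b, h using Nat.le_induction with
  | base => simp
  | succ b h ih =>
    rw [sum_Ioc_succ_top h, sum_Ico_succ_top h, sum_Ico_succ_top h]
    exact ⟨by rw [ih.1], by linarith [ih.2]⟩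

theorem GamA_left {x : ℕ} (hx : 2 ≤ x) {T : ℝ} (hT : 2 ≤ T) : ∃ a e : ℝ, 0 ≤ a ∧ a * T ≤ 1 ∧
    0 ≤ e ∧ e ≤ 1 ∧ ∑ n ∈ Ioc (x / 2) x, gk x T n = x * ((1 - a) / (T + 1)) + e := by
  have x0 : (0 : ℝ) < x := by exact_mod_cast (by omega : 0 < x)
  have hm : x / 2 ≤ x := Nat.div_le_self _ _
  have mo : MonotoneOn (fun u : ℝ => (u / x) ^ T) (Set.Icc ((x / 2 : ℕ) : ℝ) x) :=
    fun u hu v _ h => Real.rpow_le_rpow (div_nonneg ((Nat.cast_nonneg _).trans hu.1) x0.le)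
      (div_le_div_of_nonneg_right h x0.le) (by linarith)
  have h1 := mo.integral_le_sum_Ico hm
  have h2 := mo.sum_le_integral_Ico hm
  obtain ⟨k1, k2⟩ := GamA_sh (fun n => ((n : ℝ) / x) ^ T) hm
  rw [intervalIntegral.integral_comp_div (fun u : ℝ => u ^ T) x0.ne',
    integral_rpow (Or.inl (by linarith)), div_self x0.ne', Real.one_rpow, smul_eq_mul] at h1 h2
  rw [div_self x0.ne', Real.one_rpow] at k2
  have m0 : (0 : ℝ) ≤ ((x / 2 : ℕ) : ℝ) / x := by positivity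
  have e : ∑ n ∈ Ioc (x / 2) x, gk x T n = ∑ n ∈ Ioc (x / 2) x, ((n : ℝ) / x) ^ T :=
    sum_congr rfl fun n hn => kf_left (by have := (mem_Ioc.1 hn).1; omega) (mem_Ioc.1 hn).2
  refine ⟨_, _, Real.rpow_nonneg m0 (T + 1), ?_, ?_, ?_, (add_sub_cancel _ _).symm⟩
  · have b1 : ((x / 2 : ℕ) : ℝ) / x ≤ 2⁻¹ := by
      rw [div_le_iff₀ x0]
      linarith [(Nat.cast_div_le : ((x / 2 : ℕ) : ℝ) ≤ x / (2 : ℕ)), show ((2 : ℕ) : ℝ) = 2 from rfl,
        show (x : ℝ) / (2 : ℕ) = 2⁻¹ * x by push_cast; ring]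
    have b2 := Real.rpow_le_rpow m0 b1 (by linarith : 0 ≤ T + 1)
    have b3 := one_add_mul_self_le_rpow_one_add (by norm_num : (-1 : ℝ) ≤ 1) (by linarith : 1 ≤ T + 1)
    rw [one_add_one_eq_two] at b3
    rw [Real.inv_rpow zero_le_two] at b2
    refine (mul_le_mul_of_nonneg_right b2 (by linarith)).trans ?_
    rw [inv_mul_le_iff₀ (by positivity)]
    linarith
  · rw [e, k1]
    linarith
  · rw [e]
    linarith [Real.rpow_nonneg m0 T]

theorem GamA_right {x : ℕ} (hx : 2 ≤ x) {T : ℝ} (hT : 2 ≤ T) : ∃ b e : ℝ, 0 ≤ b ∧ b * T ≤ 1 ∧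
    0 ≤ e ∧ e ≤ 1 ∧ ∑ n ∈ Ioc x (2 * x), gk x T n = x * ((1 - b) / (T - 1)) - e := by
  have x0 : (0 : ℝ) < x := by exact_mod_cast (by omega : 0 < x)
  have hm : x ≤ 2 * x := by omega
  have mo : AntitoneOn (fun u : ℝ => (u / x) ^ (-T)) (Set.Icc (x : ℝ) (2 * x : ℕ)) :=
    fun u hu v _ h => Real.rpow_le_rpow_of_nonpos (div_pos (x0.trans_le hu.1) x0)
      (div_le_div_of_nonneg_right h x0.le) (by linarith)
  have h1 := mo.integral_le_sum_Ico hm
  have h2 := mo.sum_le_integral_Ico hm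
  obtain ⟨k1, k2⟩ := GamA_sh (fun n => ((n : ℝ) / x) ^ (-T)) hm
  have e2 : ((2 * x : ℕ) : ℝ) / x = 2 := by
    push_cast
    field_simp
  have e3 : ((2 : ℝ) ^ (-T + 1) - 1) / (-T + 1) = (1 - 2 ^ (-T + 1)) / (T - 1) := by
    rw [← neg_div_neg_eq, neg_sub, neg_add, neg_neg, ← sub_eq_add_neg]
  rw [intervalIntegral.integral_comp_div (fun u : ℝ => u ^ (-T)) x0.ne', div_self x0.ne', e2,
    integral_rpow (Or.inr ⟨by linarith, by norm_num⟩), Real.one_rpow, smul_eq_mul, e3] at h1 h2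
  rw [div_self x0.ne', Real.one_rpow, e2] at k2
  have e : ∑ n ∈ Ioc x (2 * x), gk x T n = ∑ n ∈ Ioc x (2 * x), ((n : ℝ) / x) ^ (-T) :=
    sum_congr rfl fun n hn => by
      obtain ⟨n1, n2⟩ := mem_Ioc.1 hn
      have n0 : (0 : ℝ) < n := by exact_mod_cast (by omega : 0 < n)
      rw [kf_right (by omega) n1.le n2, Real.rpow_def_of_pos (div_pos n0 x0),
        Real.log_div n0.ne' x0.ne', mul_neg, mul_comm]
  refine ⟨_, _, Real.rpow_nonneg zero_le_two (-T + 1), ?_, ?_, ?_, (sub_sub_cancel _ _).symm⟩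
  · have b3 := one_add_mul_self_le_rpow_one_add (by norm_num : (-1 : ℝ) ≤ 1) (by linarith : 1 ≤ T - 1)
    rw [one_add_one_eq_two] at b3
    rw [show -T + 1 = -(T - 1) by ring, Real.rpow_neg zero_le_two, inv_mul_le_iff₀ (by positivity)]
    linarith
  · rw [e, k1]
    linarith
  · rw [e]
    linarith [Real.rpow_nonneg zero_le_two (-T)]

theorem Gam_asymp {x : ℕ} (hx : 2 ≤ x) {T : ℝ} (hT : 2 ≤ T) :
    |T * Gam x T - 2 * x| ≤ 20 * (x / T + T) := by
  obtain ⟨a, e, a0, a1, e0, e1, h1⟩ := GamA_left hx hT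
  obtain ⟨b, f, b0, b1, f0, f1, h2⟩ := GamA_right hx hT
  have z : ∑ n ∈ Ioc 0 (x / 2), gk x T n = 0 := sum_eq_zero fun n hn =>
    if_neg fun k => by have := (mem_Ioc.1 hn).2; omega
  have T0 : 0 < T := by linarith
  have x0 : (0 : ℝ) ≤ x / T := by positivity
  have c1 : |T * (T * ((1 - a) / (T + 1)) - 1)| ≤ 2 := by
    have : T * (T * ((1 - a) / (T + 1)) - 1) = -(T * (1 + a * T) / (T + 1)) := by
      field_simp
      ring
    rw [this, abs_neg, abs_of_nonneg (by positivity), div_le_iff₀ (by linarith)]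
    nlinarith
  have c2 : |T * (T * ((1 - b) / (T - 1)) - 1)| ≤ 2 := by
    have T1 : 0 < T - 1 := by linarith
    have : T * (T * ((1 - b) / (T - 1)) - 1) = T * (1 - b * T) / (T - 1) := by
      field_simp
      ring
    rw [this, abs_of_nonneg (div_nonneg (mul_nonneg T0.le (by linarith)) T1.le), div_le_iff₀ T1]
    nlinarith [mul_nonneg b0 T0.le]
  have key : T * Gam x T - 2 * x = x / T * (T * (T * ((1 - a) / (T + 1)) - 1)) +
      x / T * (T * (T * ((1 - b) / (T - 1)) - 1)) + T * (e - f) := by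
    rw [Gam, show Icc 1 (2 * x) = Ioc 0 (2 * x) from rfl,
      ← sum_Ioc_consecutive _ (Nat.zero_le x) (by omega : x ≤ 2 * x),
      ← sum_Ioc_consecutive _ (Nat.zero_le (x / 2)) (Nat.div_le_self x 2), z, h1, h2,
      ← mul_assoc, ← mul_assoc, div_mul_cancel₀ _ T0.ne']
    ring
  rw [abs_le] at c1 c2
  rw [key, abs_le]
  constructor <;> nlinarith [mul_le_mul_of_nonneg_left c1.1 x0, mul_le_mul_of_nonneg_left c1.2 x0,
    mul_le_mul_of_nonneg_left c2.1 x0, mul_le_mul_of_nonneg_left c2.2 x0]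

end Pool.Agent.Work.MP_82fd4a_nt.P
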