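import Pool.Agent.Work.MP_82fd4a_nt.P.Chk

/-! All the boxes of a grid at once. -/

set_option autoImplicit false

namespace Pool.Agent.Work.MP_82fd4a_nt.P.G

open BS Y

noncomputable section

/-- the number of bits of a grid of dimension `k` -/
def pb (S k : ℕ) : ℕ :=
  Nat.mul (nat_lit 64) (Nat.pow (Nat.succ S) k)

/-- blocks of `p` bits -/
def blk (p : ℕ) (f : ℕ → ℕ) (m : ℕ) : ℕ :=
  Nat.rec (nat_lit 0) (fun i ih => (Nat.add ih (Nat.shiftLeft (f i) (Nat.mul p i)))) m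

/-- the digit one everywhere -/
def onv (S k : ℕ) : ℕ :=
  Nat.div (Nat.pow (nat_lit 2) (pb S k)) (nat_lit 18446744073709551615)

/-- a function of the sum of the coordinates -/
def dsv (S h : ℕ) (f : ℕ → ℕ) (n : ℕ) : ℕ → ℕ :=
  Nat.rec f (fun k ih x => (blk (pb S k) (fun i => (fz (Nat.add x (Nat.mul i h)) ih)) (Nat.succ
    S))) n

/-- the least corners of the small boxes -/
def cmv (S n : ℕ) : ℕ :=
  Nat.rec (nat_lit 1) (fun k ih => (blk (pb S k) (fun _ => ih) S)) n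

/-- the bits of the slabs -/
def vmv (S n : ℕ) : ℕ :=
  Nat.mul (Nat.sub (Nat.pow (nat_lit 2) n) (nat_lit 1)) (cmv S n)

/-- the coordinate `d` -/
def vdg (S d k : ℕ) : ℕ :=
  Nat.rec (blk (pb S d) (fun i => (Nat.mul i (onv S d))) (Nat.succ S)) (fun j ih => (blk (pb S
    (Nat.succ (Nat.add d j))) (fun _ => ih) (Nat.succ S))) k

/-- the distance to the last corner -/
def wv0 (S n : ℕ) : ℕ :=
  dsv S (nat_lit 1) (fun t => (Nat.sub (Nat.mul S n) t)) n (nat_lit 0)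

/-- two to the power of the distance to the last corner -/
def pwv (S n : ℕ) : ℕ :=
  dsv S (nat_lit 1) (fun t => (Nat.pow (nat_lit 2) (Nat.sub (Nat.mul S n) t))) n (nat_lit 0)

/-- the points on the level `t` -/
def ind (S n t : ℕ) : ℕ :=
  Nat.land (Nat.shiftRight (pwv S n) (Nat.sub (Nat.mul S n) t)) (onv S n)

/-- a function of the sum of the coordinates, level by level -/
def dsf (S h : ℕ) (f : ℕ → ℕ) (n x m : ℕ) : ℕ :=
  Nat.rec (nat_lit 0) (fun t ih => Nat.add ih (Nat.mul (fz (Nat.add x (Nat.mul t h)) f)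
    (ind S n t))) m

/-- the increments of the length of a monomial -/
def dg1 (S n e y k : ℕ) : ℕ :=
  Nat.rec (Nat.mul e (wv0 S n)) (fun d ih => (Nat.add ih (Nat.mul (Nat.mod (Nat.shiftRight y
    (Nat.mul (nat_lit 64) d)) (nat_lit 18446744073709551616)) (vdg S d (Nat.sub n (Nat.succ
    d)))))) k

/-- the increments of the length of a monomial -/
def dgr (S n e y : ℕ) : ℕ :=
  dg1 S n e y n

/-- the excess over `2 ^ 63` -/
def vk (O Z : ℕ) : ℕ :=
  Nat.land Z (Nat.mul (Nat.land (Nat.shiftRight Z (nat_lit 63)) O) (nat_lit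
    9223372036854775807))

/-- the data attached to a monomial -/
def pr1 (M T S n h H e y dg : ℕ) (t : Ce) (a c : ℕ) : Ce :=
  Ce.cons (Nat.mul a (Nat.add (Nat.shiftLeft y (nat_lit 64)) e)) (Nat.add (Nat.add (Nat.div
    (Nat.add (Nat.mul a T) (nat_lit 1)) (nat_lit 2)) (Nat.sub (nat_lit 1) a)) (Nat.shiftLeft
    (Nat.add (Nat.shiftRight a (nat_lit 40)) (Nat.shiftRight c (nat_lit 50))) (nat_lit 64)))
    (Nat.mul a (Nat.sub M (Nat.mul H dg))) c (Nat.add (nat_lit 9223372036854775808) c) (Nat.mul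
    (Nat.mul a h) (dgr S n e y)) (nat_lit 0) t

/-- the data attached to a packing -/
def prp (M T S n h H : ℕ) (ce : Ce) : Ce :=
  Ce.rec Ce.nil (fun w a c e y dg _ _ ih => (pr1 M T S n h H e y dg ih (Nat.mul w a) (Nat.mul w
    (Nat.add c (nat_lit 1073741824))))) ce

/-- the sum of the weights -/
def wsm (ce : Ce) : ℕ :=
  Ce.rec (nat_lit 0) (fun w _ _ _ _ _ _ _ ih => (Nat.add w ih)) ce

/-- the threshold -/
def bsv (S n : ℕ) (ce : Ce) : ℕ :=
  Nat.mul (Nat.sub (nat_lit 9223380833484668927) (Nat.shiftLeft (wsm ce) (nat_lit 30))) (onv S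
    n)

/-- one monomial -/
def gc2 (O : ℕ) (k : ℕ → ℕ → ℕ) (lo hi c d D V b u : ℕ) : ℕ :=
  @Bool.rec (fun _ => ℕ) (k (Nat.add V (vk O (Nat.sub (Nat.mul (Nat.sub d u) O) D))) (Nat.add
    (Nat.add b (Nat.sub lo u)) (Nat.sub u hi))) (k V (Nat.add (Nat.add b (Nat.sub lo u))
    (Nat.sub u hi))) (Nat.ble c u)

/-- the defects at the points of the grid -/
def gc1 (O X p : ℕ) (k : ℕ → ℕ → ℕ) (ce : Ce) : ℕ → ℕ → ℕ :=
  Ce.rec k (fun y lo hi c d D _ _ ih V b => (gc2 O ih lo hi c d D V b (Nat.mod (Nat.shiftRight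
    (Nat.mul X y) p) (nat_lit 18446744073709551616)))) ce

/-- join a number with a shifted copy -/
def orr (Z p : ℕ) : ℕ :=
  Nat.lor Z (Nat.shiftRight Z p)

/-- the shift that goes to the next level -/
def pb1 (S k : ℕ) : ℕ :=
  Nat.sub (pb S k) (nat_lit 1)

/-- the failures at the corners, by level -/
def dpv (S F k : ℕ) : ℕ :=
  Nat.rec F (fun d ih => (orr ih (pb1 S d))) k

/-- the slabs on which the test fails -/
def sbv (S n O V : ℕ) : ℕ :=
  orr (dpv S (Nat.land (Nat.shiftRight V (nat_lit 63)) O) n) (nat_lit 1)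

/-- try the packings that are chosen by the instructions -/
def glw (M T S n O X p h H : ℕ) (k : ℕ → ℕ → ℕ) (l : List Ce) (f : ℕ) : ℕ → ℕ → ℕ → ℕ :=
  Nat.rec (fun _ Z b => (k Z b)) (fun _ ih m Z b => (fz (Nat.mod m (nat_lit 64)) (fun i => (gc1
    O X p (fun V bb => (ih (Nat.shiftRight m (nat_lit 6)) (Nat.land Z (sbv S n O V)) bb)) (prp M
    T S n h H (nce l i)) (bsv S n (nce l i)) b)))) f

/-- the levels on which the mask is not empty -/
def kbt (U h m W : ℕ) : ℕ :=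
  blk (nat_lit 1) (fun t => (Nat.sub (nat_lit 1) (Nat.sub (nat_lit 1) (Nat.mod (Nat.shiftRight W
    (Nat.div (Nat.mul t h) U)) (Nat.pow (nat_lit 2) (Nat.sub (Nat.succ (Nat.div (Nat.sub
    (Nat.add (Nat.mul t h) h) (nat_lit 1)) U)) (Nat.div (Nat.mul t h) U))))))) m

/-- the density of the cost on a level -/
def lv2 (M C A : ℕ) : ℕ :=
  mn (nat_lit 134217728) (Nat.add (Nat.div (Nat.add (Nat.mul (Nat.mul C M) (nat_lit 16))
    (Nat.sub A (nat_lit 1))) A) (Nat.shiftLeft (Nat.shiftRight C (nat_lit 31)) (nat_lit 27)))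

/-- the density of the cost on a level -/
def lv1 (G M CT j0 x y jl : ℕ) : ℕ :=
  lv2 M (mxl (Nat.sub (Nat.succ (Nat.div (Nat.sub (Nat.sub M x) (nat_lit 1)) G)) jl)
    (Nat.shiftRight CT (Nat.mul (nat_lit 32) (Nat.succ (Nat.sub jl j0))))) (mx (Nat.mul jl G)
    (Nat.sub (Nat.sub M (nat_lit 1)) y))

/-- the density of the cost on a level -/
def lev (G M c CT j0 h x : ℕ) : ℕ :=
  lv1 G M CT j0 x (Nat.add x h) (mx c (Nat.div (Nat.sub M (Nat.add x h)) G))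

/-- the larger number -/
def mxz (a b : ℕ) : ℕ :=
  Nat.add a (Nat.sub b a)

/-- the densities on two consecutive levels -/
def lw2 (f : ℕ → ℕ) (h x : ℕ) : ℕ :=
  Nat.add (f x) (Nat.shiftLeft (mxz (Nat.mod (f x) (nat_lit 134217728)) (Nat.mod (fz (Nat.sub x
    h) f) (nat_lit 134217728))) (nat_lit 32))

/-- a quotient, rounded up -/
def cdv (a b : ℕ) : ℕ :=
  Nat.div (Nat.add a (Nat.sub b (nat_lit 1))) b

/-- the density of the mass at a point -/
def tau (a d h u i : ℕ) : ℕ :=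
  mxz (cdv (Nat.mul (nat_lit 65536) (Nat.add a h)) (Nat.add a (Nat.mul i u))) (cdv (Nat.mul
    (nat_lit 65536) (Nat.add d h)) (Nat.add d (Nat.mul i u)))

/-- the sums of consecutive digits -/
def rh2 (V s W : ℕ) : ℕ :=
  Nat.add (Nat.mod W (Nat.pow (nat_lit 2) (Nat.mul V s))) (Nat.shiftRight W V)

/-- the masses of the small intervals -/
def rhv (V s D h u a : ℕ) : ℕ :=
  rh2 V s (blk V (tau (Nat.mul (nat_lit 2) a) (Nat.mul (nat_lit 2) (Nat.add a D)) h (Nat.mul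
    (nat_lit 2) u)) (Nat.succ s))

/-- the masses of the sides of the small boxes -/
def wts (S h k a : ℕ) : ℕ :=
  blk (pb S k) (fun i => (cdv (Nat.mul (nat_lit 8192) (Nat.add (Nat.mul (nat_lit 2) a) h))
    (Nat.add (Nat.add (Nat.mul (nat_lit 2) a) h) (Nat.mul (Nat.sub S (Nat.succ i)) (Nat.mul
    (nat_lit 2) h))))) S

/-- a mask -/
def msv (S t k : ℕ) : ℕ :=
  Nat.mul (Nat.sub (Nat.pow (nat_lit 2) (Nat.sub (nat_lit 64) t)) (nat_lit 1)) (onv S k)

/-- a shift -/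
def shv (S t k : ℕ) : ℕ :=
  Nat.add (Nat.mul (pb S k) (Nat.sub S (nat_lit 1))) t

/-- the data attached to the coordinates -/
def qpr (S t h : ℕ) (f : ℕ → ℕ) (k : ℕ → (ℕ → ℕ) → ℕ → ℕ) (n : ℕ) : ℕ → ℕ → (ℕ → ℕ) → ℕ → ℕ :=
  Nat.rec (fun _ Q W d => (k Q W d)) (fun j ih X Q W d => (fz (Nat.mod X (nat_lit
    18446744073709551616)) (fun a => (ih (Nat.shiftRight X (nat_lit 64)) (Nat.mul (f a) Q) (fun
    V => (Nat.add (Nat.land (Nat.shiftRight (Nat.mul (W V) (wts S h j a)) (shv S t j)) (msv S t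
    j)) (onv S j))) (Nat.mul d (Nat.add (Nat.mul (nat_lit 2) a) h)))))) n

/-- one level of slabs -/
def ac2 (k : ℕ → ℕ → ℕ → ℕ → ℕ → ℕ) (F m B A u t A1 B1 m1 : ℕ) : ℕ :=
  k m1 B1 (Nat.add (Nat.add A (Nat.mul A1 (Nat.land F m1))) (Nat.mul B (Nat.land (Nat.shiftRight
    F (nat_lit 32)) (Nat.lor m m1)))) (Nat.lor u (Nat.land F m1)) (Nat.add (Nat.add t A1) B1)

/-- the costs of the small boxes -/
def ac1 (S O s v : ℕ) (k : ℕ → ℕ → ℕ → ℕ) (n : ℕ) : ℕ → ℕ → ℕ → ℕ → ℕ → ℕ → ℕ → ℕ → ℕ → ℕ → ℕ :=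
  Nat.rec (fun _ _ _ _ _ _ _ A u t => (k A u t)) (fun _ ih Z F p Q R m B A
    u t => (ac2 (ih (Nat.shiftRight Z (nat_lit 1)) (Nat.shiftRight F p) (Nat.mul p S)
    (Nat.shiftRight Q s) (Nat.shiftRight R s)) F m B A u t (Nat.succ (Nat.mod Q v)) (Nat.succ
    (Nat.mod R v)) (Nat.mul (Nat.land Z O) (nat_lit 4294967295)))) n

/-- the digit one at `m` places -/
def onw (V m : ℕ) : ℕ :=
  Nat.div (Nat.pow (nat_lit 2) (Nat.mul V m)) (Nat.sub (Nat.pow (nat_lit 2) V) (nat_lit 1))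

/-- the cost of the slabs that remain -/
def gl6 (S n O g s u V t F b Z Q : ℕ) (W : ℕ → ℕ) (d : ℕ) : ℕ :=
  ac1 (Nat.succ S) O (Nat.mul V s) (Nat.pow (nat_lit 2) (Nat.sub V t)) (fun A x tt => (Nat.add
    (Nat.succ (Nat.div (Nat.shiftLeft (Nat.mul (W A) (Nat.pow u n)) (Nat.add (Nat.add t (nat_lit
    36)) (Nat.mul (Nat.add g (nat_lit 13)) n))) (Nat.shiftLeft d (Nat.mul (nat_lit 29) n))))
    (Nat.shiftLeft (Nat.add (Nat.add b (Nat.land x (Nat.shiftLeft O (nat_lit 27)))) (Nat.sub tt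
    (nat_lit 1048576))) (nat_lit 120)))) n Z F (nat_lit 64) (Nat.shiftRight (Nat.mul Q (onw V
    (Nat.sub (Nat.succ s) n))) (Nat.add (Nat.mul V (Nat.sub s n)) t)) (Nat.shiftRight (Nat.mul Q
    (onw V (Nat.sub n (nat_lit 1)))) (Nat.add (Nat.mul V (Nat.sub s (nat_lit 1))) t)) (nat_lit
    0) (nat_lit 0) (nat_lit 0) (nat_lit 0) (nat_lit 0)

/-- the cost of the slabs that remain -/
def gl5 (S n O X g s h u V t F b Z : ℕ) : ℕ :=
  qpr S (Nat.add g (nat_lit 13)) h (rhv V s (Nat.sub (Nat.mul S h) h) h u) (gl6 S n O g s u V t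
    F b Z) n X (nat_lit 1) (fun A => A) (nat_lit 1)

/-- the cost of the slabs that remain -/
def gl4 (G M c S n O X CT j0 g e s h u SL Z b : ℕ) : ℕ :=
  @Bool.rec (fun _ => ℕ) (gl5 S n O X g s h u (Nat.succ (Nat.mul n (Nat.add (nat_lit 18) e)))
    (Nat.sub (Nat.mul n (Nat.add (nat_lit 17) e)) (nat_lit 19)) (dsf S h (lw2 (lev G M c CT j0
    h) h) n SL (Nat.succ (Nat.mul S n))) b Z) (Nat.shiftLeft b (nat_lit 120)) (Nat.beq Z (nat_lit 0))

/-- the slabs that the mask leaves -/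
def gz0 (U S n h SL K : ℕ) : ℕ :=
  Nat.land (Nat.shiftRight (Nat.mul (fz (Nat.mod (Nat.shiftRight K (Nat.div SL U)) (Nat.pow
    (nat_lit 2) (Nat.succ (Nat.div (Nat.mul (Nat.mul S n) h) U)))) (kbt U h (Nat.mul S n))) (pwv
    S n)) (Nat.mul S n)) (vmv S n)

/-- the cost of a grid of boxes -/
def gl3 (U G M T c n X Y CT j0 : ℕ) (CL : List Ce) (K m g e S s u h H O SL : ℕ) : ℕ :=
  glw M T S n O (Nat.add X (Nat.shiftLeft (Nat.sub (Nat.sub M (nat_lit 1)) (Nat.add SL (Nat.mul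
    n H))) (Nat.mul (nat_lit 64) n))) (Nat.mul (nat_lit 64) n) h (Nat.succ H) (gl4 G M c S n O X
    CT j0 g e s h u SL) CL (Nat.mod m (nat_lit 16)) (Nat.shiftRight m (nat_lit 4)) (gz0 U S n h
    SL K) (Nat.add (Nat.add (Nat.add (Nat.add (Nat.xor Y (Nat.add X (Nat.mul H (onw (nat_lit 64)
    n)))) (Nat.sub (Nat.succ (Nat.add SL (Nat.mul n H))) M)) (Nat.sub n (Nat.succ s))) (Nat.sub
    (Nat.mul S n) (nat_lit 32))) (Nat.mod SL U))

/-- the cost of a grid of boxes -/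
def gl2 (U G M T c n X Y CT j0 : ℕ) (CL : List Ce) (K m g e S s u : ℕ) : ℕ :=
  fz (Nat.mod X (nat_lit 18446744073709551615)) (gl3 U G M T c n X Y CT j0 CL K m g e S s u
    (Nat.mul s u) (Nat.mul S (Nat.mul s u)) (onv S n))

/-- the cost of a grid of boxes -/
def gl1 (U G M T c n X Y CT j0 : ℕ) (CL : List Ce) (K m g e : ℕ) : ℕ :=
  fz (Nat.shiftRight (Nat.sub (Nat.mod Y (nat_lit 18446744073709551616)) (Nat.mod X (nat_lit
    18446744073709551616))) (Nat.add g e)) (gl2 U G M T c n X Y CT j0 CL K m g e (Nat.pow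
    (nat_lit 2) g) (Nat.pow (nat_lit 2) e))

/-- the cost of a grid of boxes -/
def gl (U G M T c n X Y CT j0 : ℕ) (CL : List Ce) (K z : ℕ) : ℕ :=
  fz (Nat.mod z (nat_lit 32)) (fun r => (gl1 U G M T c n X Y CT j0 CL K (Nat.shiftRight z
    (nat_lit 5)) (Nat.mod r (nat_lit 4)) (Nat.shiftRight r (nat_lit 2))))

end

end Pool.Agent.Work.MP_82fd4a_nt.P.G
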