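import Pool.Agent.Work.MP_82fd4a_nt.P.Fm
import Pool.Agent.Work.MP_82fd4a_nt.P.Gr

/-! The machine with the instruction that treats a grid of boxes. -/

set_option autoImplicit false

namespace Pool.Agent.Work.MP_82fd4a_nt.P.G

open BS Y F

noncomputable section

/-- the leaves -/
def brg (G M T U n c X Y CT j0 : ℕ) (CL : List Ce) (K s : ℕ) : ℕ :=
  @Bool.rec (fun _ => ℕ) (br1 G M U n c X Y CT j0 K s) (gl U G M T c n X Y CT j0 CL K
    (Nat.shiftRight s (nat_lit 4))) (Nat.ble (nat_lit 13) (Nat.mod s (nat_lit 16)))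

/-- boxes with one more part -/
def cl8 (G N M T U c0 Y0 : ℕ) (tb tq tc : Tr) (n c f : ℕ) : ℕ → ℕ → ℕ → ℕ → List Ce → ℕ → ℕ → ℕ :=
  Nat.rec (fun _ _ _ _ _ _ _ => BAD) (fun _ ih X Y CT j0 CL K s =>
    (@Bool.rec (fun _ => ℕ) (@Bool.rec (fun _ => ℕ) (brg G M T U n c X Y CT j0 CL K s) (br0 G N
    M T U c0 Y0 tb tq tc n c ih X Y CT j0 CL K s) (Nat.beq (Nat.mod s (nat_lit 4)) (nat_lit 0)))
    (br2 M T U n ih X Y CT j0 CL K s) (Nat.ble (nat_lit 2) (Nat.mod s (nat_lit 4))))) f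

/-- boxes with one more part -/
def cq8 (G N M T U c0 Y0 : ℕ) (tb tq tc : Tr) (n c : ℕ) (los his : List ℕ) (s : ℕ) : ℕ :=
  iz (Nat.add (bok los his n) (Nat.sub n (nat_lit 14))) (cl8 G N M T U c0 Y0 tb tq tc n c 250 (pk
    los) (pk his) CT0 0 [] CT0 s) (cl3 G N M T U c0 Y0 tb tq tc n c 250 los his CT0 0 [] CT0 s)

/-- zero if all the jobs respect their bounds -/
def run8 (G N M T U z c0 Y0 : ℕ) (tb tq tc : Tr) (J : Jt) : ℕ :=
  rung G N M z c0 Y0 tq (cq8 G N M T U c0 Y0 tb tq tc) J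

end

end Pool.Agent.Work.MP_82fd4a_nt.P.G
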