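import Mathlib

/-! Packings by monomials: the points of type II. -/

set_option autoImplicit false
open Finset

namespace Pool.Agent.Work.MP_82fd4a_nt.P

/-- `κ` is an admissible large value exponent for a polynomial of length `x ^ L` on an interval
of length `x ^ τ` -/
def Kap (τ L κ : ℝ) : Prop := κ ≤ 1 / 2 ∧ (κ ≤ 0 ∨ (τ ≤ 2 * L ∧ κ * (4 * τ - 2 * L) ≤ L))

/-- the exponents `a` admit a packing by at most `M` monomials of degree at most `M` with total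
large value exponent at least `1 + δ` -/
def Pack (τ δ : ℝ) (M : ℕ) {n : ℕ} (a : Fin n → ℝ) : Prop :=
  ∃ (r : ℕ) (m : Fin r → Fin n → ℕ) (w κ : Fin r → ℝ), r ≤ M ∧
    (∀ i, 0 ≤ w i ∧ ∑ j, m i j ≤ M ∧ Kap τ (∑ j, (m i j : ℝ) * a j) (κ i)) ∧
    (∀ j, ∑ i, w i * (m i j : ℝ) ≤ 1) ∧ 1 + δ ≤ ∑ i, w i * κ i

lemma Kap.mono {τ L κ κ' : ℝ} (h : Kap τ L κ) (hτ : 0 ≤ τ) (h' : κ' ≤ κ) : Kap τ L κ' := by
  refine ⟨h'.trans h.1, ?_⟩
  rcases le_or_gt κ' 0 with h0 | h0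
  · exact Or.inl h0
  rcases h.2 with h1 | ⟨h1, h2⟩
  · exact Or.inl (h'.trans h1)
  refine Or.inr ⟨h1, ?_⟩
  rcases le_total 0 (4 * τ - 2 * L) with h3 | h3
  · exact (mul_le_mul_of_nonneg_right h' h3).trans h2
  · nlinarith

/-- the tangent line at `L = τ` -/
lemma kap_clean {τ : ℝ} (hτ : 0 < τ) (L : ℝ) : Kap τ L (min τ (2 * L - τ) / (2 * τ)) := by
  refine ⟨?_, ?_⟩
  · rw [div_le_iff₀ (by positivity)]
    linarith [min_le_left τ (2 * L - τ)]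
  rcases le_or_gt τ (2 * L) with h | h
  · refine Or.inr ⟨h, ?_⟩
    rw [div_mul_eq_mul_div, div_le_iff₀ (by positivity)]
    rcases le_total τ (2 * L - τ) with h1 | h1
    · rw [min_eq_left h1]; nlinarith
    · rw [min_eq_right h1]; nlinarith [sq_nonneg (L - τ)]
  · refine Or.inl (div_nonpos_of_nonpos_of_nonneg ?_ (by positivity))
    linarith [min_le_right τ (2 * L - τ)]

/-- the tangent line at `L = c * τ`, on the range `τ ≤ 2 * L` -/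
lemma kap_tangent {τ L c : ℝ} (hτ : 0 < τ) (hc0 : 0 ≤ c) (hc : c ≤ 1) (hL : τ ≤ 2 * L) :
    Kap τ L (min (1 / 2) ((2 * L - c ^ 2 * τ) / (2 * (2 - c) ^ 2 * τ))) := by
  refine ⟨min_le_left _ _, Or.inr ⟨hL, ?_⟩⟩
  have h0 : 0 < 2 - c := by linarith
  have hc2 : c ^ 2 ≤ 1 := by nlinarith
  rcases le_total L τ with h | h
  · refine (mul_le_mul_of_nonneg_right (min_le_right _ _) (by linarith)).trans ?_
    rw [div_mul_eq_mul_div, div_le_iff₀ (by positivity)]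
    nlinarith [mul_nonneg hτ.le (sq_nonneg (L - c * τ)), sq_nonneg (L - c * τ)]
  · rcases le_total 0 (4 * τ - 2 * L) with h3 | h3
    · have := mul_le_mul_of_nonneg_right (min_le_left (1 / 2 : ℝ)
        ((2 * L - c ^ 2 * τ) / (2 * (2 - c) ^ 2 * τ))) h3
      linarith
    · have h5 : 0 ≤ (2 * L - c ^ 2 * τ) / (2 * (2 - c) ^ 2 * τ) :=
        div_nonneg (by nlinarith) (by positivity)
      have h6 : 0 ≤ min (1 / 2) ((2 * L - c ^ 2 * τ) / (2 * (2 - c) ^ 2 * τ)) :=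
        le_min (by norm_num) h5
      nlinarith

lemma Pack.mono {τ δ δ' : ℝ} {M M' n : ℕ} {a : Fin n → ℝ} (h : Pack τ δ M a) (hδ : δ' ≤ δ)
    (hM : M ≤ M') : Pack τ δ' M' a := by
  obtain ⟨r, m, w, κ, h1, h2, h3, h4⟩ := h
  exact ⟨r, m, w, κ, h1.trans hM, fun i => ⟨(h2 i).1, (h2 i).2.1.trans hM, (h2 i).2.2⟩, h3,
    by linarith⟩

/-- the linear test -/
lemma pack_of_clean {τ δ : ℝ} (hτ : 0 < τ) {M n r : ℕ} {a : Fin n → ℝ} (m : Fin r → Fin n → ℕ)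
    (w : Fin r → ℝ) (hr : r ≤ M) (hw : ∀ i, 0 ≤ w i) (hm : ∀ i, ∑ j, m i j ≤ M)
    (h1 : ∀ j, ∑ i, w i * (m i j : ℝ) ≤ 1)
    (h2 : 2 * τ * (1 + δ) ≤ ∑ i, w i * min τ (2 * ∑ j, (m i j : ℝ) * a j - τ)) :
    Pack τ δ M a := by
  refine ⟨r, m, w, fun i => min τ (2 * ∑ j, (m i j : ℝ) * a j - τ) / (2 * τ), hr,
    fun i => ⟨hw i, hm i, kap_clean hτ _⟩, h1, ?_⟩
  simp only [← mul_div_assoc]
  rw [← sum_div, le_div_iff₀ (by positivity)]
  linarith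

end Pool.Agent.Work.MP_82fd4a_nt.P
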