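import Pool.Agent.Work.MP_82fd4a_nt.P.KDefs

/-! Sums over boxes. -/

set_option autoImplicit false
open Finset

namespace Pool.Agent.Work.MP_82fd4a_nt.P

open BS Y

theorem kKBs_cons (B : ℕ) (μ : ℕ → ℝ) (lo hi : ℕ) (l h : List ℕ) (F : List ℕ → ℝ) :
    bs B μ (lo :: l) (hi :: h) F =
      ∑ a ∈ Ico (lo * B) (hi * B), μ a * bs B μ l h fun p => F (a :: p) := rfl

theorem kKBs_sum {ι : Type} (B : ℕ) (μ : ℕ → ℝ) (S : Finset ι) (los his : List ℕ)
    (F : ι → List ℕ → ℝ) : bs B μ los his (fun p => ∑ i ∈ S, F i p) =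
      ∑ i ∈ S, bs B μ los his (F i) := by
  induction los generalizing his F with
  | nil => cases his <;> rfl
  | cons lo l ih =>
    cases his with
    | nil => rfl
    | cons hi h =>
      simp only [kKBs_cons, ih, mul_sum]
      exact sum_comm

theorem kKBs_add (B : ℕ) (μ : ℕ → ℝ) (los his : List ℕ) (F F' : List ℕ → ℝ) :
    bs B μ los his (fun p => F p + F' p) = bs B μ los his F + bs B μ los his F' := by
  induction los generalizing his F F' with
  | nil => cases his <;> rfl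
  | cons lo l ih =>
    cases his with
    | nil => rfl
    | cons hi h => simp only [kKBs_cons, ih, mul_add, sum_add_distrib]

theorem kKBs_snoc (B : ℕ) (μ : ℕ → ℝ) (lo hi : ℕ) {los his : List ℕ} (F : List ℕ → ℝ)
    (hl : los.length = his.length) : bs B μ (los ++ [lo]) (his ++ [hi]) F =
      bs B μ los his fun p => ∑ a ∈ Ico (lo * B) (hi * B), μ a * F (p ++ [a]) := by
  induction los generalizing his F with
  | nil =>
    cases his with
    | nil => rfl
    | cons => simp at hl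
  | cons lo' l ih =>
    cases his with
    | nil => simp at hl
    | cons hi' h =>
      simp only [List.cons_append, kKBs_cons, ih _ (Nat.succ.inj hl)]

theorem bs_mono {B : ℕ} {μ : ℕ → ℝ} {los his : List ℕ} {F F' : List ℕ → ℝ} (hμ : ∀ a, 0 ≤ μ a)
    (hl : los.length = his.length) (h : ∀ p, InB B los his p → F p ≤ F' p) :
    bs B μ los his F ≤ bs B μ los his F' := by
  induction los generalizing his F F' with
  | nil =>
    cases his with
    | nil => exact h [] InB.nil
    | cons => simp at hl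
  | cons lo l ih =>
    cases his with
    | nil => simp at hl
    | cons hi t =>
      exact sum_le_sum fun a ha => mul_le_mul_of_nonneg_left (ih (Nat.succ.inj hl) fun p hp =>
        h _ (InB.cons (mem_Ico.1 ha).1 (mem_Ico.1 ha).2 hp)) (hμ a)

theorem bs_nonpos {B : ℕ} {μ : ℕ → ℝ} {los his : List ℕ} {F : List ℕ → ℝ} (hμ : ∀ a, 0 ≤ μ a)
    (hl : los.length = his.length) (h : ∀ p, InB B los his p → F p ≤ 0) : bs B μ los his F ≤ 0 := by
  have h0 := kKBs_sum B μ (∅ : Finset ℕ) los his fun _ _ => 0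
  exact (bs_mono (F' := fun _ => 0) hμ hl h).trans h0.le

theorem tot_nonpos {M : ℕ} {μ : ℕ → ℝ} {Ψ : List ℕ → ℝ} (hμ : ∀ a, 0 ≤ μ a) (f : ℕ) {pre : List ℕ}
    (h : ∀ ext, Ψ (pre ++ ext) ≤ 0) : tot M μ Ψ f pre ≤ 0 := by
  induction f generalizing pre with
  | zero => exact le_rfl
  | succ f ih =>
    refine add_nonpos (by simpa using h []) (sum_nonpos fun a _ =>
      mul_nonpos_of_nonneg_of_nonpos (hμ a) (ih fun ext => ?_))
    rw [List.append_assoc]
    exact h _

theorem kKBs_split {P : Par} {los his : List ℕ} (B : ℕ) (μ : ℕ → ℝ) (hb : BoxOK P los his)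
    {i m : ℕ} (hi : i < los.length) (h1 : nth los i < m) (h2 : m < nth his i) :
    BoxOK P los (st m his i) ∧ BoxOK P (st m los i) his ∧ (st m los i).length = los.length ∧
      (∀ p, InB B los (st m his i) p → InB B los his p) ∧
      (∀ p, InB B (st m los i) his p → InB B los his p) ∧
      ∀ F, bs B μ los his F = bs B μ los (st m his i) F + bs B μ (st m los i) his F := by
  induction hb generalizing i with
  | nil => simp at hi
  | @cons lo hi' l h g1 g2 g3 g4 g5 ih =>
    cases i with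
    | zero =>
      change lo < m at h1
      change m < hi' at h2
      refine ⟨BoxOK.cons g1 h1 (h2.le.trans g3) (h2.le.trans g4) g5,
        BoxOK.cons (g1.trans h1.le) h2 (g3.trans (Nat.mul_le_mul_right _
          (Nat.succ_le_succ (Nat.div_le_div_right h1.le)))) g4 g5, rfl, fun p hp => ?_,
        fun p hp => ?_, fun F => (sum_Ico_consecutive _ (Nat.mul_le_mul_right _ h1.le)
          (Nat.mul_le_mul_right _ h2.le)).symm⟩
      · cases hp with
        | cons a1 a2 a3 => exact InB.cons a1 (a2.trans_le (Nat.mul_le_mul_right _ h2.le)) a3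
      · cases hp with
        | cons a1 a2 a3 => exact InB.cons ((Nat.mul_le_mul_right _ h1.le).trans a1) a2 a3
    | succ i =>
      obtain ⟨q1, q2, q3, q4, q5, q6⟩ := ih (Nat.lt_of_succ_lt_succ hi) h1 h2
      refine ⟨BoxOK.cons g1 g2 g3 g4 q1, BoxOK.cons g1 g2 g3 g4 q2, congrArg Nat.succ q3,
        fun p hp => ?_, fun p hp => ?_, fun F => ?_⟩
      · cases hp with
        | cons a1 a2 a3 => exact InB.cons a1 a2 (q4 _ a3)
      · cases hp with
        | cons a1 a2 a3 => exact InB.cons a1 a2 (q5 _ a3)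
      · refine Eq.trans (sum_congr rfl fun a _ => ?_) sum_add_distrib
        rw [q6, mul_add]
        rfl

theorem spl_spec {P : Par} {n s : ℕ} {los his : List ℕ} {k : List ℕ → List ℕ → ℕ → ℕ} (B : ℕ)
    (μ : ℕ → ℝ) (hb : BoxOK P los his) (hn : los.length = n) (h : spl n los his s k < BAD) :
    ∃ his' los' a b, spl n los his s k = k los his' a + k los' his b ∧ BoxOK P los his' ∧
      BoxOK P los' his ∧ los'.length = n ∧ (∀ p, InB B los his' p → InB B los his p) ∧
      (∀ p, InB B los' his p → InB B los his p) ∧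
      ∀ F, bs B μ los his F = bs B μ los his' F + bs B μ los' his F := by
  unfold spl at h ⊢
  simp only [fz_eq, il_eq, fl_eq] at h ⊢
  split_ifs at h ⊢ with h1 h2
  · exact absurd h (lt_irrefl _)
  · exact absurd h (lt_irrefl _)
  obtain ⟨a, b, e⟩ := tk_eq (Nat.shiftRight s 5) _
  have h3 : nth los (s % 32) < (nth los (s % 32) + nth his (s % 32)) / 2 := not_le.1 h2
  obtain ⟨q1, q2, q3, q⟩ := kKBs_split B μ hb (hn ▸ not_le.1 h1) h3 (by omega)
  exact ⟨_, _, a, b, e, q1, q2, q3.trans hn, q⟩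

theorem kKBs_lp (k : ℕ → ℕ → ℕ) (n c s : ℕ) :
    ∃ u : ℕ → ℕ, lp k n c s = ∑ i ∈ range n, k (c + i) (u i) := by
  induction n generalizing c s with
  | zero => exact ⟨id, rfl⟩
  | succ n ih =>
    have e : lp k (n + 1) c s = tk s fun a b =>
      Nat.add (k c a) (fz (Nat.succ c) fun c' => lp k n c' b) := rfl
    obtain ⟨a, b, e'⟩ := tk_eq s fun a b => Nat.add (k c a) (fz (Nat.succ c) fun c' => lp k n c' b)
    obtain ⟨u, hu⟩ := ih (c + 1) b
    refine ⟨fun i => Nat.casesOn i a u, ?_⟩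
    rw [e, e', fz_eq, sum_range_succ', hu, Nat.add_eq, add_comm]
    exact congrArg (· + _) (sum_congr rfl fun i _ => by rw [add_right_comm]; rfl)

theorem kKBs_box {P : Par} {los his : List ℕ} {lo hi : ℕ} (hb : BoxOK P los his)
    (h : BoxOK P [lo] [hi]) : BoxOK P (los ++ [lo]) (his ++ [hi]) := by
  induction hb with
  | nil => exact h
  | cons g1 g2 g3 g4 _ ih => exact BoxOK.cons g1 g2 g3 g4 ih

theorem kKBs_mem {B : ℕ} {l h p : List ℕ} (H : InB B l h p) : ∀ lo ∈ l, ∃ a ∈ p, lo * B ≤ a := by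
  induction H with
  | nil => simp
  | cons h1 _ _ ih =>
    intro x hx
    rcases List.mem_cons.1 hx with rfl | hx
    · exact ⟨_, List.mem_cons_self, h1⟩
    · obtain ⟨a, ha, h2⟩ := ih x hx
      exact ⟨a, List.mem_cons_of_mem _ ha, h2⟩

theorem kKBs_ord {P : Par} {B δ a y : ℕ} {p q : List ℕ} (H : Hyp P B δ (p ++ q)) (ha : a ∈ p)
    (hy : y ∈ q) : a / (P.G * B) ≤ y / (P.G * B) := by
  have h := H.sorted
  rw [List.map_append, List.pairwise_append] at h
  exact h.2.2 _ (List.mem_map_of_mem ha) _ (List.mem_map_of_mem hy)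

theorem kKBs_cell {G B z d a : ℕ} (h : a ∈ Ico (max (d * G) z * B) ((d + 1) * G * B)) :
    a / (G * B) = d :=
  Nat.div_eq_of_lt_le ((mul_assoc _ _ _).ge.trans ((Nat.mul_le_mul_right _ (le_max_left _ _)).trans
    (mem_Ico.1 h).1)) ((mem_Ico.1 h).2.trans_eq (mul_assoc _ _ _))

theorem xp_spec {P : Par} {tb : Tr} {B δ c s f : ℕ} {κ K : ℝ} {μ : ℕ → ℝ} {Ψ : List ℕ → ℝ}
    {los his : List ℕ} {k : ℕ → List ℕ → List ℕ → ℕ → ℕ} (hx : Ctx P tb B δ κ μ Ψ)
    (hb : BoxOK P los his) (hc : Low P B δ c los his)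
    (hk : ∀ d l h u, BoxOK P l h → Low P B δ d l h → l.length = los.length + 1 → k d l h u < BAD →
      bs B μ l h (tot (P.N * (P.G * B)) μ Ψ f) ≤ K * k d l h u)
    (h : xp P.G (P.N * P.G) P.z c los his s k < BAD) :
    bs B μ los his (tot (P.N * (P.G * B)) μ Ψ (f + 1)) ≤
      bs B μ los his Ψ + K * xp P.G (P.N * P.G) P.z c los his s k := by
  have hG : 0 < P.G := lt_of_lt_of_le two_pos hx.sm.G2
  have hF : 0 < P.G * B := Nat.mul_pos hG hx.B0
  have hμ := hx.mass.1
  obtain ⟨u, hu⟩ : ∃ u : ℕ → ℕ, xp P.G (P.N * P.G) P.z c los his s k =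
      ∑ i ∈ range ((P.N * P.G - los.sum) / (2 * P.G) + 1 - c),
        k (c + i) (los ++ [max ((c + i) * P.G) P.z]) (his ++ [(c + i + 1) * P.G]) (u i) := by
    unfold xp
    simp only [fl_eq, snoc_eq, mx_eq, sm_eq]
    exact kKBs_lp _ _ _ _
  rw [hu] at h ⊢
  have hN : ∀ i ∈ range ((P.N * P.G - los.sum) / (2 * P.G) + 1 - c), c + i + 1 ≤ P.N := by
    intro i hi
    have h1 : (P.N * P.G - los.sum) / (2 * P.G) ≤ P.N / 2 :=
      (Nat.div_le_div_right (Nat.sub_le _ _)).trans_eq (Nat.mul_div_mul_right _ _ hG)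
    have := hx.sm.N2
    have := mem_range.1 hi
    omega
  refine (kKBs_add B μ los his Ψ fun p => ∑ a ∈ range (P.N * (P.G * B)),
    μ a * tot (P.N * (P.G * B)) μ Ψ f (p ++ [a])).le.trans (add_le_add le_rfl ?_)
  refine (bs_mono (F' := fun p => ∑ i ∈ range ((P.N * P.G - los.sum) / (2 * P.G) + 1 - c),
    ∑ a ∈ Ico (max ((c + i) * P.G) P.z * B) ((c + i + 1) * P.G * B),
      μ a * tot (P.N * (P.G * B)) μ Ψ f (p ++ [a])) hμ hb.len fun p hp => ?_).trans ?_
  · rw [← sum_biUnion fun i _ j _ hij => disjoint_left.2 fun a h1 h2 =>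
      hij (Nat.add_left_cancel ((kKBs_cell h1).symm.trans (kKBs_cell h2)))]
    refine sum_le_sum_of_subset_of_nonpos' (biUnion_subset.2 fun i hi a ha => mem_range.2
      ((mem_Ico.1 ha).2.trans_le ?_)) fun a _ ha =>
        mul_nonpos_of_nonneg_of_nonpos (hμ a) (tot_nonpos hμ f fun ext => ?_)
    · rw [mul_assoc]
      exact Nat.mul_le_mul_right _ (hN i hi)
    refine (hx.dom _).resolve_right fun ⟨y, _, H, _⟩ => ha ?_
    have h1 := kKBs_ord H (a := a) (by simp) (List.mem_singleton_self y)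
    have h2 := H.big a (by simp)
    have h3 := H.hi
    have h4 : c ≤ a / (P.G * B) := hc.2 p ([a] ++ ext ++ [y]) hp
      (by simpa only [List.append_assoc] using H) a (by simp)
    have h5 := hp.sum.1
    have h6 := Nat.div_mul_le_self a (P.G * B)
    have h7 := (Nat.mul_le_mul_right (P.G * B) h1).trans (Nat.div_mul_le_self y (P.G * B))
    have h8 := Nat.lt_div_mul_add (a := a) hF
    simp only [List.sum_append, List.sum_singleton] at h3
    obtain ⟨i, hi⟩ := Nat.exists_eq_add_of_le h4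
    rw [hi] at h6 h7 h8
    have h9 : los.sum + (c + i) * (2 * P.G) ≤ P.N * P.G :=
      Nat.le_of_mul_le_mul_right (by linarith [Nat.zero_le ext.sum]) hx.B0
    have h10 := (Nat.le_div_iff_mul_le (Nat.mul_pos two_pos hG)).2 (Nat.le_sub_of_add_le' h9)
    refine mem_biUnion.2 ⟨i, mem_range.2 (by omega), mem_Ico.2 ⟨?_, by linarith⟩⟩
    rw [max_mul, mul_assoc]
    exact max_le h6 h2
  rw [kKBs_sum, Nat.cast_sum, mul_sum]
  refine sum_le_sum fun i hi => (kKBs_snoc B μ _ _ _ hb.len).ge.trans (hk _ _ _ _ (kKBs_box hb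
    (BoxOK.cons (le_max_right _ _) (max_lt ?_ ?_) ?_ (Nat.mul_le_mul_right _ (hN i hi)) BoxOK.nil))
    ⟨hc.1.trans (Nat.le_add_right _ _), fun pre ext h1 H y hy => ?_⟩ (by simp)
    ((single_le_sum (fun _ _ => Nat.zero_le _) hi).trans_lt h))
  · exact Nat.mul_lt_mul_of_pos_right (Nat.lt_succ_self _) hG
  · exact (Nat.div_lt_iff_lt_mul hG).1 (Nat.lt_succ_of_le (hc.1.trans (Nat.le_add_right _ _)))
  · exact Nat.mul_le_mul_right _ (Nat.succ_le_succ ((Nat.le_div_iff_mul_le hG).2 (le_max_left _ _)))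
  · obtain ⟨a, ha, h2⟩ := kKBs_mem h1 (max ((c + i) * P.G) P.z) (by simp)
    refine le_trans ((Nat.le_div_iff_mul_le hF).2 ?_) (kKBs_ord H ha hy)
    exact (mul_assoc _ _ _).ge.trans ((Nat.mul_le_mul_right _ (le_max_left _ _)).trans h2)

end Pool.Agent.Work.MP_82fd4a_nt.P
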