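import Pool.Agent.Work.MP_82fd4a_nt.P.KDefs
import Pool.Agent.Work.MP_82fd4a_nt.P.Dc

/-! Cutting the cover in pieces. -/

set_option autoImplicit false

namespace Pool.Agent.Work.MP_82fd4a_nt.P.C

open BS Y

theorem tk_two {s a b : ℕ} (ha : Nat.beq (tk s fun a _ => a) a = true)
    (hb : Nat.beq (tk s fun _ b => b) b = true) (k : ℕ → ℕ → ℕ) : tk s k = k a b := by
  rw [← Nat.eq_of_beq_eq_true ha, ← Nat.eq_of_beq_eq_true hb]
  unfold tk
  simp only [fz_eq]

theorem xq_succ {G M z f n k k' c c' s a b v w r : ℕ} {J : Jt} {los his l h : List ℕ}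
    (hk : Nat.succ k = k') (hc : Nat.succ c = c') (ha : Nat.beq (tk s fun a _ => a) a = true)
    (hb : Nat.beq (tk s fun _ b => b) b = true) (hl : snoc los (mx (Nat.mul c G) z) = l)
    (hh : snoc his (Nat.mul (Nat.succ c) G) = h) (h1 : Nat.ble (cv G M z J f 1 n c l h a) v = true)
    (h2 : Nat.ble (xq G M z J f n los his k c' b) w = true) (h3 : Nat.ble (Nat.add v w) r = true) :
    Nat.ble (xq G M z J f n los his k' c s) r = true := by
  subst hk hc hl hh
  have e : xq G M z J f n los his (Nat.succ k) c s = tk s fun a b => Nat.add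
      (fl (snoc los (mx (Nat.mul c G) z)) fun l => fl (snoc his (Nat.mul (Nat.succ c) G)) fun h =>
        cv G M z J f 1 n c l h a) (fz (Nat.succ c) fun c' => xq G M z J f n los his k c' b) := rfl
  rw [e, tk_two ha hb, fl_eq, fl_eq, fz_eq]
  exact Nat.ble_eq_true_of_le ((Nat.add_le_add (Nat.le_of_ble_eq_true h1)
    (Nat.le_of_ble_eq_true h2)).trans (Nat.le_of_ble_eq_true h3))

theorem cv_exp {G M z f f' n n' k c s a b v w r : ℕ} {J : Jt} {los his : List ℕ}
    (hf : Nat.succ f = f') (hn : Nat.succ n = n') (h0 : Nat.mod s 4 = 3)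
    (ha : Nat.beq (tk (Nat.shiftRight s 2) fun a _ => a) a = true)
    (hb : Nat.beq (tk (Nat.shiftRight s 2) fun _ b => b) b = true)
    (hk : Nat.sub (Nat.succ (Nat.div (Nat.sub M (sm los)) (Nat.mul 2 G))) c = k)
    (h1 : Nat.ble (cv G M z J f 0 n c los his a) v = true)
    (h2 : Nat.ble (xq G M z J f n' los his k c b) w = true) (h3 : Nat.ble (Nat.add v w) r = true) :
    Nat.ble (cv G M z J f' 1 n c los his s) r = true := by
  subst hf hn hk
  have e : cv G M z J (Nat.succ f) 1 n c los his s = fz (Nat.mod s 4) fun u =>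
      iz u (orc 1 c los his J (Nat.shiftRight s 2)) (il u 2
        (spl n los his (Nat.shiftRight s 2) fun l h a => cv G M z J f 1 n c l h a)
        (iz 1 BAD (tk (Nat.shiftRight s 2) fun a b => Nat.add (cv G M z J f 0 n c los his a)
          (fz (Nat.succ n) fun n' => xq G M z J f n' los his
            (Nat.sub (Nat.succ (Nat.div (Nat.sub M (sm los)) (Nat.mul 2 G))) c) c b)))) := rfl
  rw [e, fz_eq, h0, iz_eq, if_neg (by norm_num), il_eq, if_neg (by norm_num), iz_eq,
    if_neg (by norm_num), tk_two ha hb, fz_eq]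
  exact Nat.ble_eq_true_of_le ((Nat.add_le_add (Nat.le_of_ble_eq_true h1)
    (Nat.le_of_ble_eq_true h2)).trans (Nat.le_of_ble_eq_true h3))

theorem top_le {G M z c0 k s r : ℕ} {J : Jt}
    (hk : Nat.sub (Nat.succ (Nat.div (Nat.sub M (sm [])) (Nat.mul 2 G))) c0 = k)
    (h1 : Nat.ble (xq G M z J 250 1 [] [] k c0 s) r = true)
    (h2 : Nat.ble (Nat.mul 1000 r) (Nat.mul 998 (Nat.pow 2 52)) = true) :
    Nat.ble (Nat.mul 1000 (top G M z c0 J s)) (Nat.mul 998 (Nat.pow 2 52)) = true := by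
  subst hk
  exact Nat.ble_eq_true_of_le ((Nat.mul_le_mul_left 1000 (Nat.le_of_ble_eq_true h1)).trans
    (Nat.le_of_ble_eq_true h2))

end Pool.Agent.Work.MP_82fd4a_nt.P.C
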