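import Pool.Agent.Work.MP_82fd4a_nt.P.Cert
import Pool.Agent.Work.MP_82fd4a_nt.P.Chk
import Pool.Agent.Work.MP_82fd4a_nt.Y.NumB

/-! The notions in which the meaning of the checking programs is expressed. -/

set_option autoImplicit false
open Finset

namespace Pool.Agent.Work.MP_82fd4a_nt.P

open BS Y

/-- the weights given by the table -/
noncomputable def lamT (N c0 : ℕ) (tb : Tr) (D : List ℕ) (e : ℕ) : ℝ :=
  if D = [] then 1 else if look D 0 tb c0 = 0 ∨ N - e - D.sum = 0 ∨ D.length < N - e - D.sum ∨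
    ¬ (∀ a ∈ D, c0 ≤ a) then 0 else
    (((look D 0 tb c0 / 2 ^ (20 * (N - e - D.sum)) % 2 ^ 20 : ℕ) : ℝ) - 524288) / 4096

/-- membership in a box -/
inductive InB (B : ℕ) : List ℕ → List ℕ → List ℕ → Prop
  | nil : InB B [] [] []
  | cons {lo hi x : ℕ} {l h p : List ℕ} : lo * B ≤ x → x < hi * B → InB B l h p →
      InB B (lo :: l) (hi :: h) (x :: p)

/-- the sides of the box are nonempty and lie in single cells -/
inductive BoxOK (P : Par) : List ℕ → List ℕ → Prop
  | nil : BoxOK P [] []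
  | cons {lo hi : ℕ} {l h : List ℕ} : P.z ≤ lo → lo < hi → hi ≤ (lo / P.G + 1) * P.G →
      hi ≤ P.N * P.G → BoxOK P l h → BoxOK P (lo :: l) (hi :: h)

/-- sum over a box -/
noncomputable def bs (B : ℕ) (μ : ℕ → ℝ) : List ℕ → List ℕ → (List ℕ → ℝ) → ℝ
  | lo :: l, hi :: h, F => ∑ a ∈ Ico (lo * B) (hi * B), μ a * bs B μ l h fun p => F (a :: p)
  | _, _, F => F []

/-- what the programs need to know about the parameters -/
structure Sm (P : Par) : Prop where
  G2 : 2 ≤ P.G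
  Gz : P.G ≤ P.z
  N2 : 2 ≤ P.N
  N1 : P.N ≤ 120
  M : P.N * P.G ≤ 32768
  U0 : 0 < P.G / 32
  U1 : P.N * P.G < 4096 * (P.G / 32)
  z : P.N * P.G < 32 * P.z

/-- like `Dom`, but nothing is known when the sieve has the wrong sign -/
def Dom2 (P : Par) (lam : List ℕ → ℕ → ℝ) (B δ : ℕ) (Ψ : List ℕ → ℝ) : Prop := ∀ pre,
  Ψ pre ≤ 0 ∨ ∃ a : ℕ, pre ≠ [] ∧ Hyp P B δ (pre ++ [a]) ∧
    ¬ GoodL (P.T * B : ℕ) (P.N * P.G * B : ℕ) (1 / 8192) (pre ++ [a]) ∧
    (0 < W lam (P.G * B) (pre ++ [a]) ∨ Ψ pre * a * mf ((pre ++ [a]).map (· / (P.G * B))) ≤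
      -W lam (P.G * B) (pre ++ [a]) * (P.N * (P.G * B) : ℕ))

/-- the standing hypotheses -/
structure Ctx (P : Par) (tb : Tr) (B δ : ℕ) (κ : ℝ) (μ : ℕ → ℝ) (Ψ : List ℕ → ℝ) : Prop where
  sm : Sm P
  B0 : 0 < B
  δB : δ ≤ B
  κ1 : 1 ≤ κ
  mass : Mass P B κ μ
  dom : Dom2 P (lamT P.N (P.z / P.G) tb) B δ Ψ

/-- all the further parts lie in the cell `c` or later -/
def Low (P : Par) (B δ c : ℕ) (los his : List ℕ) : Prop := P.z / P.G ≤ c ∧
  ∀ pre ext, InB B los his pre → Hyp P B δ (pre ++ ext) → ∀ y ∈ ext, c ≤ y / (P.G * B)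

/-- the points of the box for which the multilinear estimate is not available -/
structure Bad (P : Par) (B δ : ℕ) (los his pre : List ℕ) (a : ℕ) : Prop where
  box : InB B los his pre
  hyp : Hyp P B δ (pre ++ [a])
  bad : ¬ GoodL (P.T * B : ℕ) (P.N * P.G * B : ℕ) (1 / 8192) (pre ++ [a])

/-- the meaning of the costs -/
def CTI (P : Par) (tb : Tr) (B δ : ℕ) (los his : List ℕ) (CT j0 : ℕ) : Prop := ∀ pre a,
  Bad P B δ los his pre a → j0 ≤ a / (P.G * B) ∧
    ∀ C, C = CT / 2 ^ (32 * (a / (P.G * B) - j0 + 1)) % 2 ^ 32 → C < 2 ^ 31 →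
      W (lamT P.N (P.z / P.G) tb) (P.G * B) (pre ++ [a]) ≤ 0 ∧
      -W (lamT P.N (P.z / P.G) tb) (P.G * B) (pre ++ [a]) * 4096 ≤
        C * mf ((pre ++ [a]).map (· / (P.G * B)))

/-- the meaning of the mask -/
def MI (P : Par) (B δ : ℕ) (los his : List ℕ) (K : ℕ) : Prop := ∀ pre a,
  Bad P B δ los his pre a → K.testBit (pre.sum / (P.G / 32 * B)) = true

/-- the range of the sum of the known parts -/
def Nar (P : Par) (B δ : ℕ) (los his : List ℕ) (sl sh : ℕ) : Prop := ∀ pre a,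
  Bad P B δ los his pre a → sl * B ≤ pre.sum ∧ pre.sum < sh * B

/-- a monomial: weight, tangent, exponents -/
structure Rc where
  w : ℕ
  a : ℕ
  c : ℕ
  e : ℕ
  m : ℕ → ℕ

/-- what is known about a monomial -/
structure Rc.OK (T : ℕ) (r : Rc) : Prop where
  w : r.w < 8192
  a : r.a < 2 ^ 40
  e : r.e < 16
  m : ∀ j, r.m j < 16
  tan : ∀ L : ℝ, 0 ≤ L → L < T → r.a * L - r.c ≤ 1073741824 * (L / (2 * T - L))

/-- the packing given by a list of monomials -/
def mkCe (n : ℕ) : List Rc → Ce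
  | [] => Ce.nil
  | r :: t => Ce.cons r.w r.a r.c r.e (∑ j ∈ range n, r.m j * 2 ^ (64 * (n - 1 - j)))
      (r.e + ∑ j ∈ range n, max (r.m j) r.e)
      (∑ i ∈ range (2 ^ n), (∑ j ∈ range n, if i.testBit j then r.m j else r.e) * 2 ^ (64 * i))
      (mkCe n t)

/-- the packings that respect the capacities -/
def CeOK (T n : ℕ) (ce : Ce) : Prop := ∃ rs : List Rc, ce = mkCe n rs ∧ rs.length ≤ 15 ∧
  (∀ r ∈ rs, r.OK T) ∧ (rs.map fun r => r.w * r.e).sum ≤ 4096 ∧
    ∀ j < n, (rs.map fun r => r.w * r.m j).sum ≤ 4096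

theorem CeOK.nil (T n : ℕ) : CeOK T n Ce.nil := ⟨[], rfl, by simp, by simp, by simp, by simp⟩

theorem mx_eq (a b : ℕ) : mx a b = max a b := by
  unfold mx
  rw [il_eq]
  split_ifs <;> omega

theorem sm_eq (l : List ℕ) : sm l = l.sum := by
  induction l with
  | nil => rfl
  | cons h t ih => exact congrArg (h + ·) ih

theorem ln_len (l : List ℕ) : ln l = l.length := by
  induction l with
  | nil => rfl
  | cons h t ih => exact congrArg Nat.succ ih

theorem cls_eq (G : ℕ) (l : List ℕ) : cls G l = l.map (· / G) := by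
  induction l with
  | nil => rfl
  | cons h t ih => exact congrArg (h / G :: ·) ih

theorem BAD_eq : BAD = 2 ^ 120 := by norm_num [BAD]

theorem tk_eq (s : ℕ) (k : ℕ → ℕ → ℕ) : ∃ a b, tk s k = k a b := by
  unfold tk
  simp only [fz_eq]
  exact ⟨_, _, rfl⟩

theorem InB.len {B : ℕ} {l h p : List ℕ} (H : InB B l h p) :
    l.length = p.length ∧ h.length = p.length := by
  induction H with
  | nil => exact ⟨rfl, rfl⟩
  | cons _ _ _ ih => simp [ih.1, ih.2]

theorem InB.get {B : ℕ} {l h p : List ℕ} (H : InB B l h p) {j : ℕ} (hj : j < p.length) :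
    l.getD j 0 * B ≤ p.getD j 0 ∧ p.getD j 0 < h.getD j 0 * B := by
  induction H generalizing j with
  | nil => simp at hj
  | cons h1 h2 _ ih =>
    cases j with
    | zero => exact ⟨h1, h2⟩
    | succ j => exact ih (by simpa using hj)

theorem InB.sum {B : ℕ} {l h p : List ℕ} (H : InB B l h p) :
    l.sum * B ≤ p.sum ∧ p.sum + p.length ≤ h.sum * B := by
  induction H with
  | nil => simp
  | cons h1 h2 _ ih =>
    simp only [List.sum_cons, List.length_cons, add_mul]
    omega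

theorem BoxOK.len {P : Par} {l h : List ℕ} (H : BoxOK P l h) : l.length = h.length := by
  induction H with
  | nil => rfl
  | cons _ _ _ _ _ ih => simp [ih]

theorem BoxOK.le {P : Par} {l h : List ℕ} (H : BoxOK P l h) : ∀ x ∈ h, x ≤ P.N * P.G := by
  induction H with
  | nil => simp
  | cons _ _ _ h4 _ ih =>
    intro x hx
    rcases List.mem_cons.1 hx with rfl | hx
    exacts [h4, ih x hx]

theorem BoxOK.cells {P : Par} {B : ℕ} {l h p : List ℕ} (H : BoxOK P l h)
    (hp : InB B l h p) : p.map (· / (P.G * B)) = l.map (· / P.G) := by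
  induction hp with
  | nil => rfl
  | @cons lo hi x l h p h1 h2 _ ih =>
    cases H with
    | cons _ _ h5 _ h7 =>
      rw [List.map_cons, List.map_cons, ih h7]
      congr 1
      refine Nat.div_eq_of_lt_le ?_ ?_
      · calc lo / P.G * (P.G * B) = lo / P.G * P.G * B := by ring
          _ ≤ lo * B := Nat.mul_le_mul_right _ (Nat.div_mul_le_self _ _)
          _ ≤ x := h1
      · calc x < hi * B := h2
          _ ≤ (lo / P.G + 1) * P.G * B := Nat.mul_le_mul_right _ h5
          _ = (lo / P.G + 1) * (P.G * B) := by ring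

end Pool.Agent.Work.MP_82fd4a_nt.P
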