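import Pool.Agent.Work.MP_82fd4a_nt.P.KHit
import Pool.Agent.Work.MP_82fd4a_nt.P.Lanes

/-! Evaluation of the envelopes on a box. -/

set_option autoImplicit false
open Finset

namespace Pool.Agent.Work.MP_82fd4a_nt.P

open BS Y

/-- `d` gives the digits of `y` -/
def kKEq_Dg (y : ℕ) (d : ℕ → ℕ) : Prop := ∃ n0, ∀ n, n0 ≤ n → y = pack 156 n d

theorem kKEq_zero : kKEq_Dg 0 fun _ => 0 := ⟨0, fun n _ => (pack_const_zero _ n).symm⟩

theorem kKEq_add {y y' : ℕ} {d d' : ℕ → ℕ} (h : kKEq_Dg y d) (h' : kKEq_Dg y' d') :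
    kKEq_Dg (y + y') fun i => d i + d' i := by
  obtain ⟨n, h⟩ := h
  obtain ⟨n', h'⟩ := h'
  exact ⟨max n n', fun m hm => by rw [h m (by omega), h' m (by omega), pack_add]⟩

theorem kKEq_read {y : ℕ} {d : ℕ → ℕ} (h : kKEq_Dg y d) (hd : ∀ i, d i < 2 ^ 156) (i : ℕ) :
    y >>> (156 * i) % 2 ^ 156 = d i := by
  obtain ⟨n, h⟩ := h
  rw [h (max n (i + 1)) (le_max_left _ _)]
  exact pack_lane (by omega) fun i _ => hd i

theorem kKEq_shift {y a : ℕ} {d : ℕ → ℕ} (e : ℕ) (h : kKEq_Dg y d) (ha : 1 ≤ a) :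
    kKEq_Dg (e + y <<< (156 * a))
      fun i => if i < a then (if i = 0 then e else 0) else d (i - a) := by
  obtain ⟨n, h⟩ := h
  refine ⟨a + n, fun m hm => ?_⟩
  obtain ⟨m, rfl⟩ : ∃ m', m = a + m' := ⟨m - a, by omega⟩
  obtain ⟨a, rfl⟩ : ∃ a', a = a' + 1 := ⟨a - 1, by omega⟩
  rw [← pack_append, ← h m (by omega), pack_succ]
  simp [pack_const_zero]

/-- the value at the head of a stream -/
noncomputable def kKEq_hd (s : Tr) : ℕ := Tr.rec 0 (fun v _ _ _ _ => v) s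

theorem kKEq_env0 (n : ℕ) : env 0 n = 0 := rfl

theorem kKEq_chv (n : ℕ) (s : Tr) : kKEq_Dg (chv n s) fun i => env (kKEq_hd (skip s i)) n := by
  induction s with
  | e => exact kKEq_zero
  | c v k r _ ih =>
    obtain ⟨m, h⟩ := ih
    refine ⟨m + 1, fun j hj => ?_⟩
    obtain ⟨j, rfl⟩ : ∃ j', j = j' + 1 := ⟨j - 1, by omega⟩
    have e : chv n (Tr.c v k r) = env v n + chv n r <<< 156 := rfl
    rw [e, pack_succ, h j (by omega), Nat.shiftLeft_eq, add_comm, mul_comm]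
    rfl

theorem kKEq_env (v n : ℕ) : ∃ A Bm k : ℕ, env v n = A + Bm * 2 ^ 52 + k * 2 ^ 104 ∧ k ≤ 1 ∧
    A ≤ 2 ^ 20 ∧ Bm ≤ 2 ^ 20 ∧ (v = 0 → A = 0 ∧ Bm = 0 ∧ k = 0) ∧ (v ≠ 0 → k = 1 ∧
      ∀ i < n, Bm ≤ v / 2 ^ (20 * (i + 1)) % 2 ^ 20 ∧ v / 2 ^ (20 * (i + 1)) % 2 ^ 20 ≤ A) := by
  by_cases hv : v = 0
  · exact ⟨0, 0, 0, by rw [hv]; rfl, by simp [hv]⟩
  have u : env v n = iz v 0 (fz (rl n (v >>> 20) 0 1048576) fun r =>
    r % 18446744073709551616 + (r >>> 64 % 18446744073709551616) <<< 52 + 2 ^ 104) := rfl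
  obtain ⟨A, Bm, r1, -, r2, r3, r4⟩ := rl_spec n (v >>> 20) 0 1048576 (Nat.zero_le _)
  rw [u, iz_eq, if_neg hv, fz_eq, r1, Nat.shiftLeft_eq, Nat.shiftRight_eq_div_pow]
  refine ⟨A, Bm, 1, by omega, le_rfl, r2, r3, fun h => absurd h hv, fun _ => ⟨rfl, fun i hi => ?_⟩⟩
  have := r4 i hi
  rwa [Nat.shiftRight_eq_div_pow, Nat.div_div_eq_div_mul, ← pow_add,
    show 20 + 20 * i = 20 * (i + 1) by ring] at this

theorem kKEq_env_le (v n : ℕ) : env v n ≤ 2 ^ 105 := by
  obtain ⟨A, Bm, k, h1, h2, h3, h4, -⟩ := kKEq_env v n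
  omega

theorem kKEq_e {q : Tr} {a n : ℕ} (h : ckq Tr.e q a n = 0) : q = Tr.e := by
  cases q with
  | e => rfl
  | c y k r => exact absurd h Nat.one_ne_zero

theorem kKEq_c {v a n : ℕ} {k r q : Tr} (h : ckq (Tr.c v k r) q a n = 0) : ∃ y k' r',
    q = Tr.c y k' r' ∧ y = env v n + chv (n + 1) k <<< (156 * a) ∧ ckq k k' a (n + 1) = 0 ∧
      ckq r r' (a + 1) n = 0 := by
  cases q with
  | e => exact absurd h Nat.one_ne_zero
  | c y k' r' =>
    have e : ckq (Tr.c v k r) (Tr.c y k' r') a n = fz (n + 1) fun n' =>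
      Bool.rec (motive := fun _ => ℕ) 1 (ckq k k' a n' + fz (a + 1) fun a' => ckq r r' a' n)
        (Nat.beq y (env v n + chv n' k <<< (156 * a))) := rfl
    rw [e, fz_eq, fz_eq] at h
    cases hb : Nat.beq y (env v n + chv (n + 1) k <<< (156 * a)) with
    | false => rw [hb] at h; exact absurd h Nat.one_ne_zero
    | true =>
      rw [hb] at h
      have h' : ckq k k' a (n + 1) + ckq r r' (a + 1) n = 0 := h
      exact ⟨y, k', r', rfl, Nat.eq_of_beq_eq_true hb, by omega, by omega⟩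

theorem kKEq_skip {s q : Tr} {a n : ℕ} (h : ckq s q a n = 0) (m : ℕ) :
    ckq (skip s m) (skip q m) (a + m) n = 0 := by
  induction m generalizing s q a with
  | zero => rwa [skip_zero, skip_zero]
  | succ m ih =>
    cases s with
    | e => rw [kKEq_e h]; rfl
    | c v k r =>
      obtain ⟨y, k', r', rfl, -, -, h1⟩ := kKEq_c h
      rw [skip_succ, skip_succ, show a + (m + 1) = a + 1 + m by omega]
      exact ih h1

theorem kKEq_look {D : List ℕ} {j J : ℕ} {v y x a n : ℕ} {s q : Tr}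
    (hD : (D ++ [j]).Pairwise (· ≤ ·)) (hx : ∀ z ∈ D ++ [j], x ≤ z) (ha : 1 ≤ a)
    (hJ : J + x = j + a) (hy : y = env v n + chv (n + 1) s <<< (156 * a))
    (h : ckq s q a (n + 1) = 0) : ∃ d, kKEq_Dg (look D y q x) d ∧ (∀ i, d i ≤ 2 ^ 105) ∧
      d 0 = env (look D v s x) (n + D.length) ∧
      d J = env (look (D ++ [j]) v s x) (n + (D.length + 1)) := by
  induction D generalizing v y x a n s q with
  | nil =>
    have h1 := hx j (by simp)
    refine ⟨_, hy ▸ kKEq_shift (env v n) (kKEq_chv (n + 1) s) ha, fun i => ?_, ?_, ?_⟩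
    · split_ifs
      exacts [kKEq_env_le _ _, Nat.zero_le _, kKEq_env_le _ _]
    · rw [if_pos (by omega), if_pos rfl]
      rfl
    · rw [if_neg (by omega), show J - a = j - x by omega]
      rfl
  | cons z t ih =>
    have h1 := hx z (by simp)
    have h2 := kKEq_skip h (z - x)
    rw [List.cons_append, List.pairwise_cons] at hD
    have h3 := hD.1 j (by simp)
    cases hs : skip s (z - x) with
    | e =>
      rw [hs] at h2
      rw [List.cons_append, look_e hs, look_e hs, look_e (kKEq_e h2)]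
      exact ⟨_, kKEq_zero, fun _ => Nat.zero_le _, rfl, rfl⟩
    | c w k r =>
      rw [hs] at h2
      obtain ⟨y', k', r', h4, h5, h6, -⟩ := kKEq_c h2
      rw [List.cons_append, look_c hs, look_c hs, look_c h4, List.length_cons,
        show n + (t.length + 1) = n + 1 + t.length by omega,
        show n + (t.length + 1 + 1) = n + 1 + (t.length + 1) by omega]
      exact ih hD.2 hD.1 (by omega) (by omega) h5 h6

theorem kKEq_sum {α : Type} (L : List α) {g e0 e1 : α → ℕ} {J : ℕ}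
    (h : ∀ p ∈ L, ∃ d, kKEq_Dg (g p) d ∧ (∀ i, d i ≤ 2 ^ 105) ∧ d 0 = e0 p ∧ d J = e1 p) :
    ∃ d, kKEq_Dg (L.map g).sum d ∧ (∀ i, d i ≤ L.length * 2 ^ 105) ∧ d 0 = (L.map e0).sum ∧
      d J = (L.map e1).sum := by
  induction L with
  | nil => exact ⟨_, kKEq_zero, fun _ => Nat.zero_le _, rfl, rfl⟩
  | cons p L ih =>
    obtain ⟨d, h1, h2, h3, h4⟩ := h p List.mem_cons_self
    obtain ⟨d', k1, k2, k3, k4⟩ := ih fun q hq => h q (List.mem_cons_of_mem _ hq)
    refine ⟨_, kKEq_add h1 k1, fun i => ?_, ?_, ?_⟩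
    · have := h2 i
      have := k2 i
      rw [List.length_cons, add_mul]
      omega
    · rw [h3, k3, List.map_cons, List.sum_cons]
    · rw [h4, k4, List.map_cons, List.sum_cons]

theorem kKEq_snoc (l : List ℕ) (a : ℕ) (g : List ℕ × List ℕ → ℕ) :
    ((splits (l ++ [a])).map g).sum = ((splits l).map fun p => g (p.1, p.2 ++ [a])).sum +
      ((splits l).map fun p => g (p.1 ++ [a], p.2)).sum := by
  induction l generalizing g with
  | nil => simp [splits, add_comm]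
  | cons x t ih =>
    simp only [List.cons_append, splits, List.map_append, List.map_map, List.sum_append,
      Function.comp_def, ih]
    ring

theorem kKEq_nil (l : List ℕ) (c : ℝ) :
    ((splits l).map fun p => if p.1 = [] then c else 0).sum = c := by
  induction l with
  | nil => simp [splits]
  | cons x t ih =>
    simp only [splits, List.map_append, List.map_map, List.sum_append, Function.comp_def, ih]
    simp

theorem kKEq_tot {α : Type} (L : List α) {g : α → ℕ} {w ε : α → ℝ}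
    (h : ∀ p ∈ L, ∃ A Bm k : ℕ, g p = A + Bm * 2 ^ 52 + k * 2 ^ 104 ∧ A ≤ 2 ^ 20 ∧ Bm ≤ 2 ^ 20 ∧
      (Bm : ℝ) - k * 524288 + ε p ≤ 4096 * w p ∧ 4096 * w p ≤ (A : ℝ) - k * 524288 + ε p) :
    ∃ A Bm k : ℕ, (L.map g).sum = A + Bm * 2 ^ 52 + k * 2 ^ 104 ∧ A ≤ L.length * 2 ^ 20 ∧
      Bm ≤ L.length * 2 ^ 20 ∧
      (Bm : ℝ) - k * 524288 + (L.map ε).sum ≤ 4096 * (L.map w).sum ∧
      4096 * (L.map w).sum ≤ (A : ℝ) - k * 524288 + (L.map ε).sum := by
  induction L with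
  | nil => exact ⟨0, 0, 0, by simp⟩
  | cons p L ih =>
    obtain ⟨A, Bm, k, h1, h2, h3, h4, h5⟩ := h p List.mem_cons_self
    obtain ⟨A', Bm', k', k1, k2, k3, k4, k5⟩ := ih fun q hq => h q (List.mem_cons_of_mem _ hq)
    simp only [List.map_cons, List.sum_cons, List.length_cons, add_mul, one_mul]
    refine ⟨A + A', Bm + Bm', k + k', by rw [h1, k1]; ring, by omega, by omega, ?_, ?_⟩ <;>
      push_cast <;> linarith

theorem kKEq_low {P : Par} {B δ : ℕ} {t : List ℕ} (hB : 0 < B) (ht : Hyp P B δ t) :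
    ∀ a ∈ t.map (· / (P.G * B)), P.z / P.G ≤ a := by
  intro a ha
  obtain ⟨b, hb, rfl⟩ := List.mem_map.1 ha
  rw [← Nat.mul_div_mul_right _ _ hB]
  exact Nat.div_le_div_right (ht.big b hb)

theorem kKEq_term {P : Par} (tb : Tr) {B δ : ℕ} {t : List ℕ} {p : List ℕ × List ℕ}
    (hs : Sm P) (hB : 0 < B) (hδ : δ ≤ B) (ht : Hyp P B δ t) (h2 : 2 ≤ t.length)
    (hp : p ∈ splits t) :
    ∃ A Bm k : ℕ, env (look (p.1.map (· / (P.G * B))) 0 tb (P.z / P.G)) p.1.length =
        A + Bm * 2 ^ 52 + k * 2 ^ 104 ∧ A ≤ 2 ^ 20 ∧ Bm ≤ 2 ^ 20 ∧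
      (Bm : ℝ) - k * 524288 + (if p.1 = [] then 4096 else 0) ≤
        4096 * lamT P.N (P.z / P.G) tb (p.1.map (· / (P.G * B))) (p.2.sum / (P.G * B)) ∧
      4096 * lamT P.N (P.z / P.G) tb (p.1.map (· / (P.G * B))) (p.2.sum / (P.G * B)) ≤
        (A : ℝ) - k * 524288 + (if p.1 = [] then 4096 else 0) := by
  by_cases h0 : p.1 = []
  · refine ⟨0, 0, 0, by rw [h0]; rfl, ?_⟩
    simp [h0, lamT]
  obtain ⟨-, -, k5, k6⟩ := kKHit_key (SL := 0) (SH := p.2.sum + p.1.sum) (lo := 0)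
    (hi := p.1.sum) hs hB hδ ht h2 hp h0 (by simp) (Nat.le_mul_of_pos_right _ hB) (by simp)
    (by rw [add_mul]; exact Nat.add_le_add_right (Nat.le_mul_of_pos_right _ hB) _) rfl rfl
  have hc : ∀ a ∈ p.1.map (· / (P.G * B)), P.z / P.G ≤ a := fun a ha =>
    kKEq_low hB ht a (((splits_sublist hp).1.map _).subset ha)
  unfold lamT
  rw [if_neg h0, if_neg (by simpa using h0), List.length_map]
  generalize look (p.1.map (· / (P.G * B))) 0 tb (P.z / P.G) = v
  generalize (p.1.map (· / (P.G * B))).sum = S at *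
  generalize p.2.sum / (P.G * B) = e at *
  obtain ⟨A, Bm, k, r1, -, r2, r3, r4, r5⟩ := kKEq_env v p.1.length
  refine ⟨A, Bm, k, r1, r2, r3, ?_⟩
  by_cases hv : v = 0
  · obtain ⟨rfl, rfl, rfl⟩ := r4 hv
    rw [if_pos (Or.inl hv)]
    simp
  rw [if_neg (by push Not; exact ⟨hv, by omega, by omega, hc⟩)]
  obtain ⟨rfl, r6⟩ := r5 hv
  have r7 := r6 (P.N - e - S - 1) (by omega)
  rw [Nat.sub_add_cancel (by omega)] at r7
  have r8 := (Nat.cast_le (α := ℝ)).2 r7.1
  have r9 := (Nat.cast_le (α := ℝ)).2 r7.2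
  rw [Nat.cast_one]
  constructor <;> linarith

theorem kKEq_evs (f : ℕ → ℕ) (n j : ℕ) : evs f n j = pack 32 n fun i => f (j + i) := by
  induction n generalizing j with
  | zero => exact (pack_zero _ _).symm
  | succ n ih =>
    have e : evs f (n + 1) j = f j + fz (j + 1) (evs f n) <<< 32 := rfl
    have e' : pack 32 n (fun i => f (j + 1 + i)) = pack 32 n fun i => f (j + (i + 1)) :=
      pack_congr fun i _ => by rw [add_assoc, add_comm 1 i]
    rw [e, fz_eq, ih, pack_succ, Nat.shiftLeft_eq, add_comm, mul_comm, e', add_zero]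

theorem kKEq_lane {f : ℕ → ℕ} (hf : ∀ j, f j ≤ 2 ^ 31) {n j i : ℕ} (hi : i < n) :
    (evs f n j <<< 32 + evs f n j % 4294967291) / 2 ^ (32 * (i + 1)) % 2 ^ 32 = f (j + i) := by
  have h1 := pack_lane (W := 32) (f := fun i => f (j + i)) hi fun i _ =>
    (hf _).trans_lt (by norm_num)
  rw [← kKEq_evs, Nat.shiftRight_eq_div_pow] at h1
  rw [← h1, show 32 * (i + 1) = 32 + 32 * i by ring, pow_add, ← Nat.div_div_eq_div_mul,
    Nat.shiftLeft_eq]
  congr 2
  omega

theorem kKEq_eq1 (c0 r : ℕ) (cs : List ℕ) (j : ℕ) {t : ℕ}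
    (ht : t = r % 2 ^ 156 + r >>> (156 * (j - c0 + 1)) % 2 ^ 156) :
    eq1 c0 r cs j = if 4096 + t % 2 ^ 52 ≤ t / 2 ^ 104 * 524288 then
      min ((t / 2 ^ 104 * 524288 - (4096 + t / 2 ^ 52 % 2 ^ 52) + (mf (cs ++ [j]) - 1)) /
        mf (cs ++ [j])) (2 ^ 31) else 2 ^ 31 := by
  have e : eq1 c0 r cs j = fz (r % 2 ^ 156 + r >>> (156 * (j - c0 + 1)) % 2 ^ 156) fun t =>
    fz (t >>> 104 * 524288) fun o => il (4096 + t % 2 ^ 52) o (fz (mfn (snoc cs j)) fun f =>
      mn ((o - (4096 + t >>> 52 % 2 ^ 52) + (f - 1)) / f) (2 ^ 31)) (2 ^ 31) := rfl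
  rw [e, ← ht]
  simp only [fz_eq, il_eq, mn_eq, snoc_eq, mfn_eq, Nat.shiftRight_eq_div_pow]

theorem kKEq_rng {P : Par} {B δ c sl sh a : ℕ} {los his pre : List ℕ} (hs : Sm P)
    (h0 : pre ≠ []) (hc : Low P B δ c los his) (hr : Nar P B δ los his sl sh)
    (H : Bad P B δ los his pre a) : max c ((P.N * P.G - sh) / P.G) ≤ a / (P.G * B) ∧
      a / (P.G * B) ≤ (P.N * P.G - sl - 1) / P.G := by
  have G2 := hs.G2
  have G0 : 0 < P.G := by omega
  have h1 := hc.2 pre [a] H.box H.hyp a (by simp)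
  obtain ⟨h2, h3⟩ := hr pre a H
  have t1 := H.hyp.lo
  have t2 := H.hyp.hi
  obtain ⟨q, hq⟩ := single_split (l := pre ++ [a]) (a := a) (by simp)
  have w := H.hyp.wall _ hq (by simp) fun h => by
    have h4 := splits_length hq
    have h5 := List.length_pos_iff.2 h0
    rw [h, List.length_append] at h4
    simp only [List.length_singleton, List.length_nil] at h4
    omega
  have d := Nat.div_add_mod' a (P.G * B)
  simp only [List.sum_append, List.sum_singleton] at t1 t2 w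
  generalize a / (P.G * B) = e at *
  have c' : ∀ x y : ℕ, x * B < y * B → x < y := fun x y => Nat.lt_of_mul_lt_mul_right
  have b1 := c' (P.N * P.G) (e * P.G + P.G + sh) (by simp only [add_mul, mul_assoc]; omega)
  have b2 := c' (e * P.G + sl) (P.N * P.G) (by simp only [add_mul, mul_assoc]; omega)
  exact ⟨max_le h1
    (Nat.le_of_lt_succ ((Nat.div_lt_iff_lt_mul G0).2 (by rw [Nat.succ_mul]; omega))),
    (Nat.le_div_iff_mul_le G0).2 (by omega)⟩

theorem kKEq_val {P : Par} {tb tq : Tr} {Y0 B δ a : ℕ} {pre : List ℕ} (hB : 0 < B)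
    (hq : ckr Y0 tb tq = 0) (hn : pre.length ≤ 30) (H : Hyp P B δ (pre ++ [a])) {r : ℕ}
    (hr : r = Y0 + ph (pre.map (· / (P.G * B))) tq (P.z / P.G)) :
    r % 2 ^ 156 + r >>> (156 * (a / (P.G * B) - P.z / P.G + 1)) % 2 ^ 156 =
      ((splits (pre ++ [a])).map fun p =>
        env (look (p.1.map (· / (P.G * B))) 0 tb (P.z / P.G)) p.1.length).sum := by
  have h1 := H.sorted
  have h2 := kKEq_low hB H
  rw [List.map_append, List.map_singleton] at h1 h2
  have h3 := h2 _ (List.mem_append_right _ List.mem_cons_self)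
  have hq' : Y0 = env 0 0 + chv (0 + 1) tb <<< (156 * 1) ∧ ckq tb tq 1 (0 + 1) = 0 := by
    unfold ckr at hq
    cases hb : Nat.beq Y0 (Nat.shiftLeft (chv 1 tb) 156) with
    | false => rw [hb] at hq; exact absurd hq Nat.one_ne_zero
    | true =>
      rw [hb] at hq
      exact ⟨(Nat.eq_of_beq_eq_true hb).trans (zero_add _).symm, hq⟩
  rw [← ph_eq (List.pairwise_append.1 h1).1 Y0 tq fun y hy => h2 y (List.mem_append_left _ hy),
    splits_map, List.map_map] at hr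
  obtain ⟨d, k1, k2, k3, k4⟩ := kKEq_sum (splits pre) (J := a / (P.G * B) - P.z / P.G + 1)
    (g := fun p => look (p.1.map (· / (P.G * B))) Y0 tq (P.z / P.G))
    (e0 := fun p => env (look (p.1.map (· / (P.G * B))) 0 tb (P.z / P.G)) p.1.length)
    (e1 := fun p => env (look ((p.1 ++ [a]).map (· / (P.G * B))) 0 tb (P.z / P.G))
      (p.1 ++ [a]).length) fun p hp => by
    have s1 : (p.1.map (· / (P.G * B)) ++ [a / (P.G * B)]).Sublist
        (pre.map (· / (P.G * B)) ++ [a / (P.G * B)]) :=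
      ((splits_sublist hp).1.map _).append (List.Sublist.refl _)
    have := kKEq_look (J := a / (P.G * B) - P.z / P.G + 1) (h1.sublist s1)
      (fun z hz => h2 z (s1.subset hz)) le_rfl (by omega) hq'.1 hq'.2
    simpa only [List.length_map, zero_add, List.map_append, List.map_singleton,
      List.length_append, List.length_singleton] using this
  have k5 : ∀ i, d i < 2 ^ 156 := fun i => by
    have := k2 i
    rw [length_splits, ← pow_add] at this
    exact this.trans_lt (Nat.pow_lt_pow_right (by norm_num) (by omega))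
  have k6 := kKEq_read k1 k5 0
  have k7 := kKEq_read k1 k5 (a / (P.G * B) - P.z / P.G + 1)
  rw [mul_zero, Nat.shiftRight_zero] at k6
  rw [kKEq_snoc, ← k3, ← k4, ← k6, ← k7, hr]
  rfl

theorem kKEq_ceil {o x f C m : ℕ} (hf : 0 < f) (h : C = min ((o - x + (f - 1)) / f) m)
    (hm : C < m) : o ≤ C * f + x := by
  have h2 := Nat.lt_div_mul_add (a := o - x + (f - 1)) hf
  rw [min_eq_left (by omega)] at h
  rw [← h] at h2
  omega

theorem evq_spec {P : Par} {tb tq : Tr} {Y0 B δ c sl sh : ℕ} {los his : List ℕ} (hs : Sm P)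
    (hB : 0 < B) (hδ : δ ≤ B) (hq : ckr Y0 tb tq = 0) (hb : BoxOK P los his) (h0 : los ≠ [])
    (hn : los.length ≤ 30) (hc : Low P B δ c los his) (hr : Nar P B δ los his sl sh)
    (k : ℕ → ℕ → ℕ) : ∃ CT j, CTI P tb B δ los his CT j ∧
      evq P.G (P.N * P.G) (P.z / P.G) Y0 tq c los sl sh k = k CT j := by
  have e : evq P.G (P.N * P.G) (P.z / P.G) Y0 tq c los sl sh k = fl (cls P.G los) fun cs =>
    fz (mx c ((P.N * P.G - sh) / P.G)) fun jl => fz (Y0 + ph cs tq (P.z / P.G)) fun r =>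
      fz (evs (eq1 (P.z / P.G) r cs) ((P.N * P.G - sl - 1) / P.G + 1 - jl) jl) fun C =>
        fz (C <<< 32 + C % 4294967291) fun CT => k CT jl := rfl
  simp only [fl_eq, fz_eq, mx_eq, cls_eq] at e
  refine ⟨_, _, fun pre a H => ?_, e⟩
  have l1 := H.box.len.1
  have p0 : pre ≠ [] := fun h => h0 (List.length_eq_zero_iff.1 (by rw [l1, h]; rfl))
  have l0 := List.length_pos_iff.2 p0
  obtain ⟨r1, r2⟩ := kKEq_rng hs p0 hc hr H
  refine ⟨r1, fun C hC hlt => ?_⟩
  rw [kKEq_lane (fun j => by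
      rw [kKEq_eq1 _ _ _ j rfl]
      split_ifs
      exacts [min_le_right _ _, le_rfl]) (by omega), Nat.add_sub_cancel' r1,
    ← hb.cells H.box, kKEq_eq1 _ _ _ _ (kKEq_val hB hq (by omega) H.hyp rfl).symm] at hC
  obtain ⟨A, Bm, u, k1, k2, k3, k4, k5⟩ := kKEq_tot (splits (pre ++ [a])) fun p hp =>
    kKEq_term tb hs hB hδ H.hyp (by simp; omega) hp
  have k6 : (splits (pre ++ [a])).length * 2 ^ 20 ≤ 2 ^ 51 := by
    rw [length_splits, ← pow_add]
    exact Nat.pow_le_pow_right (by norm_num) (by simp; omega)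
  rw [kKEq_nil] at k4 k5
  rw [k1, show (A + Bm * 2 ^ 52 + u * 2 ^ 104) % 2 ^ 52 = A by omega,
    show (A + Bm * 2 ^ 52 + u * 2 ^ 104) / 2 ^ 104 = u by omega,
    show (A + Bm * 2 ^ 52 + u * 2 ^ 104) / 2 ^ 52 % 2 ^ 52 = Bm by omega] at hC
  rw [List.map_append, List.map_singleton]
  have f0 := mf_pos (pre.map (· / (P.G * B)) ++ [a / (P.G * B)])
  generalize mf (pre.map (· / (P.G * B)) ++ [a / (P.G * B)]) = f at *
  split_ifs at hC with h1
  · have h3 := kKEq_ceil f0 hC hlt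
    have h4 := (Nat.cast_le (α := ℝ)).2 h1
    have h5 := (Nat.cast_le (α := ℝ)).2 h3
    push_cast at h4 h5
    unfold W
    constructor <;> linarith
  · omega

end Pool.Agent.Work.MP_82fd4a_nt.P
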