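import Pool.Agent.Work.MP_82fd4a_nt.P.Fm
import Pool.Agent.Work.MP_82fd4a_nt.P.KLan

/-! The faster machine: leaves. -/

set_option autoImplicit false
open Finset

namespace Pool.Agent.Work.MP_82fd4a_nt.P.F

open BS Y

theorem kKFa_beq (a b u v : ℕ) :
    @Bool.rec (fun _ => ℕ) a b (Nat.beq u v) = if u = v then b else a := by
  cases h : Nat.beq u v
  · rw [if_neg (Nat.ne_of_beq_eq_false h)]
  · rw [if_pos (Nat.eq_of_beq_eq_true h)]

theorem kKFa_ble (a b u v : ℕ) :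
    @Bool.rec (fun _ => ℕ) a b (Nat.ble u v) = if u ≤ v then b else a := il_eq u v b a

theorem kKFa_sh {x t : ℕ} (h : Nat.shiftRight x t = 1) : t = Nat.log2 x := by
  have h1 : x / 2 ^ t = 1 := (Nat.shiftRight_eq_div_pow x t).symm.trans h
  have h2 := Nat.div_add_mod x (2 ^ t)
  have h3 := Nat.mod_lt x (Nat.two_pow_pos t)
  rw [h1] at h2
  rw [Nat.log2_eq_log_two]
  exact (Nat.log_eq_of_pow_le_of_lt_pow (by omega) (by rw [pow_succ]; omega)).symm

theorem kKFa_lg3 (x t : ℕ) : lg3 x t = Nat.log2 x := by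
  refine (kKFa_beq (Nat.log2 x) t (Nat.shiftRight x t) 1).trans ?_
  split_ifs with h
  · exact kKFa_sh h
  · rfl

theorem kKFa_lg2 (x y : ℕ) : lg2 x y = Nat.log2 x := kKFa_lg3 x _

theorem kKFa_lg1 (x : ℕ) : lg1 x = Nat.log2 x := by
  unfold lg1 lga lgb
  exact kKFa_lg2 x _

theorem lgw_eq (x t : ℕ) : lgw x t = Nat.log2 x := by
  refine (kKFa_beq (lg1 x) t (Nat.shiftRight x t) 1).trans ?_
  split_ifs with h
  · exact kKFa_sh h
  · exact kKFa_lg1 x

theorem lw1_eq (x : ℕ) : lw1 x = Nat.log2 (Nat.xor x (Nat.pred x)) := by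
  refine (kKFa_beq (lw2 (x ^^^ (x - 1))) 0 (x % 2) 1).trans ?_
  split_ifs with h
  · have h1 : (x ^^^ (x - 1)) / 2 = 0 := by
      rw [Nat.xor_div_two, show (x - 1) / 2 = x / 2 by omega, Nat.xor_self]
    have h2 : (x ^^^ (x - 1)) % 2 = (x + (x - 1)) % 2 := Nat.xor_mod_two_eq
    have h3 : Nat.xor x (Nat.pred x) = 1 := by
      change x ^^^ (x - 1) = 1
      omega
    rw [h3]
    rfl
  · exact kKFa_lg2 _ _

theorem kKFa_max (a b : ℕ) : Nat.add a (Nat.sub b a) = mx a b := by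
  rw [mx_eq]
  change a + (b - a) = _
  omega

theorem kKFa_min (a b : ℕ) : Nat.sub a (Nat.sub a b) = mn a b := by
  rw [mn_eq]
  change a - (a - b) = _
  omega

theorem kKFa_nar1 (U SL SH s0 Wb : ℕ) (k : ℕ → ℕ → ℕ) : nar1 U SL SH s0 Wb k =
    if Wb = 0 then 0 else k (mx SL (Nat.mul (Nat.add s0 (Nat.log2 (Nat.xor Wb (Nat.pred Wb)))) U))
      (mn SH (Nat.mul (Nat.succ (Nat.add s0 (Nat.log2 Wb))) U)) := by
  unfold nar1
  simp only [fz_eq, iz_eq]

theorem kKFa_nr2 (U SL SH s0 t Wb : ℕ) (k : ℕ → ℕ → ℕ) :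
    nr2 U SL SH s0 t Wb k = nar1 U SL SH s0 Wb k := by
  unfold nr2
  rw [kKFa_beq, kKFa_nar1, lw1_eq, lgw_eq, kKFa_max, kKFa_min]

theorem nr1_eq (U K : ℕ) (los his : List ℕ) (k : ℕ → ℕ → ℕ) :
    nr1 U K los.sum his.sum k = nar U K los his k := by
  unfold nr1 nar
  rw [kKFa_nr2]
  simp only [fz_eq, sm_eq]
  rfl

theorem kKFa_mxl (n V : ℕ) : mxl (n + 1) V = max (V % 4294967296) (mxl n (V / 4294967296)) := by
  have e : mxl (n + 1) V = fz (V % 4294967296) fun u =>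
    fz (mxl n (V >>> 32)) fun b => mx u b := rfl
  rw [e, fz_eq, fz_eq, mx_eq, Nat.shiftRight_eq_div_pow]

theorem kKFa_mx3 (n : ℕ) : ∀ V a, mx3 n V a = max a (mxl n V) := by
  induction n with
  | zero => exact fun V a => (Nat.max_zero a).symm
  | succ n ih =>
    intro V a
    have e : mx3 (n + 1) V a = mx3 n (V >>> 32) (a + (V % 4294967296 - a)) := rfl
    rw [e, ih, kKFa_mxl, Nat.shiftRight_eq_div_pow]
    generalize mxl n (V / 4294967296) = u
    omega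

theorem kKFa_mx2 (W : ℕ) : mx2 W = max (W % 4294967296) (W / 4294967296) := by
  have e : mx2 W = W % 4294967296 + (W >>> 32 - W % 4294967296) := rfl
  rw [e, Nat.shiftRight_eq_div_pow]
  omega

theorem mx5_eq (n V : ℕ) : mx5 n V = mxl n V := by
  refine (kKFa_ble (mx3 n V 0) (mx2 (V % 2 ^ (32 * n))) n 2).trans ?_
  split_ifs with h
  · have e : ∀ W, mxl 0 W = 0 := fun _ => rfl
    rw [kKFa_mx2]
    interval_cases n
    · rw [e]
      omega
    · rw [kKFa_mxl 0, e]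
      omega
    · rw [kKFa_mxl 1, kKFa_mxl 0, e]
      omega
  · rw [kKFa_mx3, Nat.zero_max]

/-- the largest cost -/
noncomputable def kKFa_C (G M c CT j0 sl sh : ℕ) : ℕ :=
  mxl (Nat.sub (Nat.succ (Nat.div (Nat.pred (Nat.sub M sl)) G)) (mx c (Nat.div (Nat.sub M sh) G)))
    (Nat.shiftRight CT (Nat.mul 32 (Nat.succ (Nat.sub (mx c (Nat.div (Nat.sub M sh) G)) j0))))

/-- the denominator -/
noncomputable def kKFa_D (G M c sh : ℕ) : ℕ :=
  mx (Nat.mul (mx c (Nat.div (Nat.sub M sh) G)) G) (Nat.sub (Nat.pred M) sh)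

theorem kKFa_lk1 (G M c CT j0 : ℕ) (k : ℕ → ℕ → ℕ) (sl sh : ℕ) :
    lk1 G M c CT j0 k sl sh = k (kKFa_C G M c CT j0 sl sh) (kKFa_D G M c sh) := by
  unfold lk1 lk2
  rw [kKFa_max, kKFa_max, mx5_eq]
  rfl

theorem kKFa_lf (G M c : ℕ) (los his : List ℕ) (sl sh CT j0 : ℕ) :
    lf G M c los his sl sh CT j0 = if kKFa_C G M c CT j0 sl sh = 0 then 0 else
      if 2147483648 ≤ kKFa_C G M c CT j0 sl sh then BAD else
        ms los his (kKFa_C G M c CT j0 sl sh * M * 1099511627776) (kKFa_D G M c sh) := by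
  unfold lf
  rw [fz_eq, fz_eq, iz_eq, il_eq]
  rfl

theorem lk1_eq {n X Y : ℕ} {los his : List ℕ} (h : ∀ a b, msx n X Y a b = ms los his a b)
    (G M c CT j0 sl sh : ℕ) :
    lk1 G M c CT j0 (lf3 M n X Y) sl sh = lf G M c los his sl sh CT j0 := by
  rw [kKFa_lk1, kKFa_lf]
  unfold lf3
  rw [kKFa_beq, kKFa_ble, h]
  rfl

theorem kKFa_cf3 (M : ℕ) (k : ℕ → ℕ) (q A C den F : ℕ) (hF : F = if C = 0 then 0 else
    if 2147483648 ≤ C then BAD else C * M * 1099511627776 / den + 1) :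
    cf3 M k q A C den = if BAD ≤ F then BAD else k (A + q * F) := by
  have e : cf3 M k q A C den =
    cf4 k q A C ((C * M * 1099511627776 / den + 1) * (1 - (1 - C))) := rfl
  have e2 : ∀ F', cf4 k q A C F' =
      if C / 2147483648 + F' / BAD = 0 then k (A + q * F') else BAD := fun F' => by
    refine (kKFa_beq BAD (k (A + q * F')) (C >>> 31 + F' >>> 120) 0).trans ?_
    rw [Nat.shiftRight_eq_div_pow, Nat.shiftRight_eq_div_pow, ← BAD_eq]
  have hB : 0 < BAD := by rw [BAD_eq]; exact Nat.two_pow_pos _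
  rw [e, e2]
  generalize C * M * 1099511627776 / den + 1 = u at hF ⊢
  by_cases h0 : C = 0
  · rw [if_pos h0] at hF
    subst h0 hF
    rw [if_neg (Nat.not_le.2 hB), show 1 - (1 - 0) = 0 from rfl, mul_zero, Nat.zero_div,
      Nat.zero_div, if_pos rfl]
  rw [if_neg h0] at hF
  rw [show 1 - (1 - C) = 1 by omega, mul_one]
  by_cases h1 : 2147483648 ≤ C
  · rw [if_pos h1] at hF
    rw [if_pos hF.ge, if_neg (by generalize u / BAD = w; omega)]
  rw [if_neg h1] at hF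
  subst hF
  rw [Nat.div_eq_of_lt (Nat.not_le.1 h1), zero_add]
  by_cases h2 : BAD ≤ F
  · rw [if_pos h2, if_neg (Nat.div_pos h2 hB).ne']
  · rw [if_neg h2, if_pos (Nat.div_eq_of_lt (Nat.not_le.1 h2))]

theorem kKFa_cs1 (U G M c CT j0 : ℕ) (k : ℕ → ℕ) (q A x y s0 t Wb : ℕ) :
    cs1 U G M c CT j0 k q A x y s0 t Wb = iz Wb (k A)
      (fz (nar1 U x y s0 Wb fun sl sh => lf G M c [] [] sl sh CT j0) fun F =>
        il BAD F BAD (k (Nat.add A (Nat.mul q F)))) := by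
  unfold cs1
  rw [kKFa_beq, iz_eq, fz_eq, il_eq, kKFa_nar1, lw1_eq, lgw_eq, kKFa_max, kKFa_min, kKFa_lk1]
  by_cases h : Wb = 0
  · exact (if_pos h).trans (if_pos h).symm
  · refine (if_neg h).trans (Eq.trans ?_ (if_neg h).symm)
    rw [if_neg h]
    exact kKFa_cf3 _ _ _ _ _ _ _ (kKFa_lf _ _ _ _ _ _ _ _ _)

theorem cs5_eq (U G M c K CT j0 h d V b t n Q x A : ℕ) :
    cs5 U G M c K CT j0 h d V b t n Q x A = cvs U G M c K CT j0 h d V b t n Q x A := by
  induction n generalizing Q x A with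
  | zero => rfl
  | succ n ih =>
    have e1 : cs5 U G M c K CT j0 h d V b t (n + 1) Q x A = cs1 U G M c CT j0
      (cs5 U G M c K CT j0 h d V b t n (Nat.shiftRight Q V) (Nat.add x h)) (Nat.mod Q b) A x
      (Nat.add x d) (Nat.div x U) (Nat.sub (Nat.div (Nat.sub (Nat.add x d) 1) U) (Nat.div x U))
      (Nat.mod (Nat.shiftRight K (Nat.div x U)) (wn U x d)) := rfl
    have e2 : cvs U G M c K CT j0 h d V b t (n + 1) Q x A =
      fz (Nat.mod (Nat.shiftRight K (Nat.div x U)) (wn U x d)) fun Wb =>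
      fz (Nat.add x h) fun x' => fz (Nat.shiftRight Q V) fun Q' =>
        iz Wb (cvs U G M c K CT j0 h d V b t n Q' x' A)
        (fz (cvf U G M c CT j0 x d Wb) fun F => il BAD F BAD
          (cvs U G M c K CT j0 h d V b t n Q' x' (Nat.add A (Nat.mul (Nat.mod Q b) F)))) := rfl
    rw [e1, e2, kKFa_cs1]
    unfold cvf
    simp only [fz_eq, ih]

end Pool.Agent.Work.MP_82fd4a_nt.P.F
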