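import Pool.Agent.Work.MP_82fd4a_nt.P.Fast
import Pool.Agent.Work.MP_82fd4a_nt.P.KTc
import Pool.Agent.Work.MP_82fd4a_nt.P.KBs

/-! The lists with many parts. -/

set_option autoImplicit false
open Finset

namespace Pool.Agent.Work.MP_82fd4a_nt.P

open BS Y

theorem en1_eq (v n : ℕ) : en1 v n = bl (2 * n) v n (n - 1) := by
  have e : en1 v n = iz v 0 (fz n fun n => fz (v >>> 20 % 2 ^ 20) fun u =>
    Bool.rec (motive := fun _ => ℕ) (rl n (v >>> 20) 0 1048576)
    (u * 18446744073709551617 + 340282366920938463463374607431768211456)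
      (Nat.beq (v >>> 20) (u * geo 20 n))) := rfl
  unfold bl
  rw [e, iz_eq, fz_eq, fz_eq, Nat.shiftRight_eq_div_pow]
  split_ifs with hv h1
  · rfl
  · rw [show Nat.beq _ _ = true from Nat.beq_eq ▸ h1]
    change _ * _ + _ = _
    omega
  rw [show Nat.beq _ _ = false from Bool.eq_false_iff.2 fun h => h1 (Nat.eq_of_beq_eq_true h)]
  have e' : ∀ q i, blk q v n i = fz (i + 1 - q + 1) fun lo =>
    rl (mn (i + 1) n + 1 - lo) (v >>> (20 * lo)) 0 1048576 := fun _ _ => rfl
  rw [e', fz_eq, mn_eq, show n - 1 + 1 - max 1 (2 * n + 1 - n) + 1 = 1 by omega,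
    show min (n - 1 + 1) n + 1 - 1 = n by omega, Nat.shiftRight_eq_div_pow]

theorem look_evu (D : List ℕ) (v n a : ℕ) (s : Tr) :
    look D (en1 v n) (evu s (n + 1)) a = en1 (look D v s a) (n + D.length) := by
  have sk : ∀ (i : ℕ) (s : Tr) (n : ℕ), skip (evu s n) i = evu (skip s i) n := by
    intro i
    induction i with
    | zero => simp only [skip_zero, implies_true]
    | succ i ih =>
      intro s n
      cases s with
      | e => rfl
      | c v k r => exact ih r n
  induction D generalizing v n a s with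
  | nil => rfl
  | cons x D ih =>
    cases h : skip s (x - a) with
    | e =>
      rw [look_e h, look_e (by rw [sk, h]; rfl)]
      rfl
    | c w k r =>
      rw [look_c h, look_c (w := en1 w (n + 1)) (k := evu k (n + 1 + 1)) (r := evu r (n + 1))
        (by rw [sk, h]; rfl), ih, List.length_cons, add_assoc, add_comm 1]

theorem kFast_term {P : Par} (tb : Tr) {B δ : ℕ} {t : List ℕ} {p : List ℕ × List ℕ}
    (hs : Sm P) (hB : 0 < B) (hδ : δ ≤ B) (ht : Hyp P B δ t) (h2 : 2 ≤ t.length)
    (hp : p ∈ splits t) :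
    ∃ A Bm k : ℕ, en1 (look (p.1.map (· / (P.G * B))) 0 tb (P.z / P.G)) p.1.length =
        A + Bm * 2 ^ 64 + k * 2 ^ 128 ∧ k ≤ 1 ∧ A ≤ 2 ^ 20 ∧ Bm ≤ 2 ^ 20 ∧
      (Bm : ℝ) - k * 524288 + (if p.1 = [] then 4096 else 0) ≤
        4096 * lamT P.N (P.z / P.G) tb (p.1.map (· / (P.G * B))) (p.2.sum / (P.G * B)) ∧
      4096 * lamT P.N (P.z / P.G) tb (p.1.map (· / (P.G * B))) (p.2.sum / (P.G * B)) ≤
        (A : ℝ) - k * 524288 + (if p.1 = [] then 4096 else 0) := by
  by_cases h0 : p.1 = []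
  · refine ⟨0, 0, 0, by rw [h0]; rfl, ?_⟩
    simp [h0, lamT]
  obtain ⟨k5, k6⟩ := kTc_rho hs hB hδ ht h2 hp h0
  have hc : ∀ a ∈ p.1.map (· / (P.G * B)), P.z / P.G ≤ a := fun a ha =>
    kTc_low hB ht a (((splits_sublist hp).1.map _).subset ha)
  unfold lamT
  rw [if_neg h0, if_neg (by simpa using h0), List.length_map, en1_eq]
  generalize look (p.1.map (· / (P.G * B))) 0 tb (P.z / P.G) = v
  generalize (p.1.map (· / (P.G * B))).sum = S at *
  generalize p.2.sum / (P.G * B) = e at *
  obtain ⟨A, Bm, k, r1, r0, r2, r3, r4, r5⟩ :=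
    bl_spec (2 * p.1.length) v p.1.length (p.1.length - 1)
  refine ⟨A, Bm, k, r1, r0, r2, r3, ?_⟩
  by_cases hv : v = 0
  · obtain ⟨rfl, rfl, rfl⟩ := r4 hv
    rw [if_pos (Or.inl hv)]
    simp
  rw [if_neg (by push Not; exact ⟨hv, by omega, by omega, hc⟩)]
  obtain ⟨rfl, r6⟩ := r5 hv
  have r7 := r6 (P.N - e - S) (by omega) (by omega) (by omega) (by omega)
  have r8 := (Nat.cast_le (α := ℝ)).2 r7.1
  have r9 := (Nat.cast_le (α := ℝ)).2 r7.2
  rw [Nat.cast_one]
  constructor <;> linarith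

theorem rw1_spec {P : Par} {tb : Tr} {B δ w q : ℕ} {t : List ℕ} (hs : Sm P) (hB : 0 < B)
    (hδ : δ ≤ B) (H : Hyp P B δ t) (h2 : 2 ≤ t.length) (hq : 0 < q) {r : ℕ}
    (hr : r = rw1 w (ph (t.map (· / (P.G * B))) (evu tb 1) (P.z / P.G)) q) (h : r < BAD) :
    W (lamT P.N (P.z / P.G) tb) (P.G * B) t ≤ 0 ∧
      -W (lamT P.N (P.z / P.G) tb) (P.G * B) t * 4096 * w ≤ q * r := by
  have h6 := ph_eq H.sorted 0 (evu tb 1) (kTc_low hB H)
  have k9 : ∀ D, look D 0 (evu tb 1) (P.z / P.G) = en1 (look D 0 tb (P.z / P.G)) D.length :=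
    fun D => (look_evu D 0 0 _ tb).trans (by rw [zero_add])
  rw [zero_add, splits_map, List.map_map] at h6
  simp only [Function.comp_def, k9, List.length_map] at h6
  have k6 : (splits t).length ≤ 2 ^ 31 := by
    have := kTc_len hs hB H
    rw [length_splits]
    exact Nat.pow_le_pow_right (by norm_num) (by omega)
  obtain ⟨A, Bm, u, k1, k8, k2, k3, k4, k5⟩ := kTc_tot (splits t) fun p hp =>
    kFast_term tb hs hB hδ H h2 hp
  rw [kTc_nil] at k4 k5
  rw [← h6, k1] at hr
  have e : ∀ x, rw1 w x q = fz x fun x => fz (x >>> 128 * 524288) fun o =>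
    il (x % 18446744073709551616 + 4096) o
      ((o - (x >>> 64 % 18446744073709551616 + 4096)) * w / q + 1) BAD := fun _ => rfl
  rw [e, fz_eq, fz_eq, il_eq, Nat.shiftRight_eq_div_pow, Nat.shiftRight_eq_div_pow,
    show (A + Bm * 2 ^ 64 + u * 2 ^ 128) / 2 ^ 128 = u by omega,
    show (A + Bm * 2 ^ 64 + u * 2 ^ 128) % 18446744073709551616 = A by omega,
    show (A + Bm * 2 ^ 64 + u * 2 ^ 128) / 2 ^ 64 % 18446744073709551616 = Bm by omega] at hr
  split_ifs at hr with h1
  · have t1 := (Nat.cast_le (α := ℝ)).2 h1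
    have t2 := (Nat.cast_le (α := ℝ)).2
      (Nat.lt_mul_div_succ ((u * 524288 - (Bm + 4096)) * w) hq).le
    have t3 := (Nat.cast_le (α := ℝ)).2 (le_tsub_add (b := u * 524288) (a := Bm + 4096))
    rw [← hr] at t2
    push_cast at t1 t2 t3
    unfold W
    exact ⟨by linarith, le_trans (mul_le_mul_of_nonneg_right (by linarith) (Nat.cast_nonneg w)) t2⟩
  · omega

theorem rws_spec (w o : ℕ) {n i : ℕ} (j m : ℕ) (s : Tr) (hi : i < n) :
    rw1 w (o + hdT (skip s i)) ((j + i) * if i = 0 then m else 1) ≤ rws w o n j m s := by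
  induction n generalizing j m s i with
  | zero => omega
  | succ n ih =>
    have e : rws w o (n + 1) j m s = un s fun v _ r => fz (rw1 w (o + v) (j * m)) fun x =>
      fz (fz (j + 1) fun j' => rws w o n j' 1 r) fun y => mx x y := rfl
    rw [e, un_eq, fz_eq, fz_eq, fz_eq, mx_eq]
    cases i with
    | zero => simp [skip_zero]
    | succ i =>
      have := ih (j + 1) 1 (tlT s) (i := i) (by omega)
      rw [ite_self, add_assoc, add_comm 1] at this
      rw [skip_tl, if_neg (by omega)]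
      exact this.trans (le_max_right _ _)

theorem kds_eq (k : ℕ → ℕ → ℕ → Tr → ℕ) (n d m : ℕ) (s : Tr) : kds k n d m s =
    ∑ i ∈ range n, k (d + i) (if i = 0 then m else 1) (hdT (skip s i))
      (mrg (skip s i) (kdT (skip s i))) := by
  induction n generalizing d m s with
  | zero => rfl
  | succ n ih =>
    have e : kds k (n + 1) d m s = un s fun v t r => k d m v (mrg s t) +
      fz (d + 1) fun d' => kds k n d' 1 r := rfl
    rw [e, un_eq, fz_eq, ih, sum_range_succ', add_comm]
    simp only [skip_tl, skip_zero, ite_self, add_assoc, add_comm 1, Nat.add_one_ne_zero, if_false,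
      if_true, add_zero]

theorem kFast_cell {P : Par} {B d w g m : ℕ} {κ β : ℝ} {μ T : ℕ → ℝ} (hs : Sm P)
    (hz : P.G ∣ P.z) (hm : Mass P B κ μ) (hκ : 1 ≤ κ) (h1 : P.z / P.G ≤ d) (h2 : d < P.N)
    (hg : 0 < g) (h0 : 0 < m) (hβ : 0 ≤ β)
    (h : ∀ a ∈ Ico (d * (P.G * B)) ((d + 1) * (P.G * B)), (nw w d m * (g * m) : ℕ) * T a ≤ β) :
    (w * g : ℕ) * ∑ a ∈ Ico (d * (P.G * B)) ((d + 1) * (P.G * B)), μ a * T a ≤ κ * β := by
  have G0 : 0 < P.G := by have := hs.G2; omega
  have d0 : 0 < d := (Nat.div_pos hs.Gz G0).trans_le h1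
  have d1 : (0 : ℝ) < d := by exact_mod_cast d0
  have G1 : (0 : ℝ) < P.G := by exact_mod_cast G0
  have k1 := hm.2 (d * P.G) ((d + 1) * P.G)
    ((Nat.div_mul_cancel hz).ge.trans (Nat.mul_le_mul_right _ h1))
    (Nat.mul_lt_mul_of_pos_right (Nat.lt_succ_self d) G0) (Nat.mul_le_mul_right _ h2)
  rw [mul_assoc, mul_assoc, Nat.cast_mul, Nat.cast_mul, mul_div_mul_right _ _ G1.ne',
    Nat.cast_succ] at k1
  have k2 : Real.log ((d + 1) / d) ≤ (2 * d + 1) / (2 * d * (d + 1)) := by
    refine (Real.self_le_sinh_iff.2 (Real.log_nonneg ((one_le_div d1).2 (by linarith)))).trans_eq ?_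
    rw [Real.sinh_log (by positivity)]
    field_simp
    ring
  have k3 := (Nat.cast_le (α := ℝ)).2 (Nat.lt_mul_div_succ (w * (2 * d + 1))
    (show 0 < 2 * d * (d + 1) * m by positivity)).le
  have e : w * (2 * d + 1) / (2 * d * (d + 1) * m) + 1 = nw w d m := rfl
  have k4 : (0 : ℝ) < (nw w d m * (g * m) : ℕ) := by
    rw [← e]
    positivity
  rw [e] at k3
  have k5 : ∑ a ∈ Ico (d * (P.G * B)) ((d + 1) * (P.G * B)), μ a * T a ≤
      κ * ((2 * d + 1) / (2 * d * (d + 1))) * (β / (nw w d m * (g * m) : ℕ)) := by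
    refine (sum_le_sum fun a ha => mul_le_mul_of_nonneg_left
      ((le_div_iff₀' k4).2 (h a ha)) (hm.1 a)).trans ?_
    rw [← sum_mul]
    exact mul_le_mul_of_nonneg_right (k1.trans (mul_le_mul_of_nonneg_left k2 (by linarith)))
      (by positivity)
  refine (mul_le_mul_of_nonneg_left k5 (Nat.cast_nonneg _)).trans ?_
  have k6 : ((w * g : ℕ) : ℝ) * ((2 * d + 1) / (2 * d * (d + 1))) ≤ (nw w d m * (g * m) : ℕ) := by
    rw [← mul_div_assoc, div_le_iff₀ (by positivity)]
    have := mul_le_mul_of_nonneg_left k3 (Nat.cast_nonneg g)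
    push_cast at this ⊢
    linarith
  calc _ = κ * β * (((w * g : ℕ) : ℝ) * ((2 * d + 1) / (2 * d * (d + 1))) /
        (nw w d m * (g * m) : ℕ)) := by ring
    _ ≤ κ * β * 1 := mul_le_mul_of_nonneg_left ((div_le_one k4).2 k6) (by positivity)
    _ = _ := mul_one _

theorem kFast_sum {M F c n : ℕ} {g : ℕ → ℝ} (h : n = 0 ∨ (c + n) * F ≤ M)
    (h0 : ∀ a, a < c * F ∨ (c + n) * F ≤ a → g a ≤ 0) :
    ∑ a ∈ range M, g a ≤ ∑ i ∈ range n, ∑ a ∈ Ico ((c + i) * F) ((c + i + 1) * F), g a := by
  have e : ∑ i ∈ range n, ∑ a ∈ Ico ((c + i) * F) ((c + i + 1) * F), g a =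
      ∑ a ∈ Ico (c * F) ((c + n) * F), g a := by
    clear h h0
    induction n with
    | zero => simp
    | succ n ih =>
      rw [sum_range_succ, ih, sum_Ico_consecutive _ (Nat.mul_le_mul_right _ (by omega))
        (Nat.mul_le_mul_right _ (by omega)), add_assoc]
  have s : Ico (c * F) ((c + n) * F) ⊆ range M := fun a ha => by
    rw [mem_Ico] at ha
    rcases h with rfl | h
    · rw [add_zero] at ha
      omega
    · exact mem_range.2 (by omega)
  rw [e, ← sum_sdiff s]
  refine add_le_of_nonpos_left (sum_nonpos fun a ha => h0 a ?_)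
  have := (mem_sdiff.1 ha).2
  rw [mem_Ico] at this
  omega

theorem mf_snoc {p : List ℕ} {c d : ℕ} (hp : ∀ x ∈ p, x ≤ c) (h : c ≤ d) :
    mf (p ++ [d]) = mf p * if d - c = 0 then p.count c + 1 else 1 := by
  rw [mf_mm hp (List.pairwise_singleton _ d) (by simpa using h)]
  simp only [mm]
  split_ifs <;> first | omega | simp

theorem gof_spec {P : Par} {tb : Tr} {B δ n0 a b : ℕ} {κ : ℝ} {μ : ℕ → ℝ} {Ψ : List ℕ → ℝ}
    (hx : Ctx P tb B δ κ μ Ψ) (hz : P.G ∣ P.z) (hΨ : ∀ p, p.length < n0 ∨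
      kf 562949953421312 (p.map (· / (P.G * B))) < a ∨
      b ≤ kf 562949953421312 (p.map (· / (P.G * B))) → Ψ p ≤ 0) (f : ℕ) :
    ∀ {n c m R w o y u : ℕ} {s : Tr} {pre : List ℕ}, pre.length = n →
    R + (pre.map (· / (P.G * B))).sum = P.N → P.z / P.G ≤ c →
    (∀ x ∈ pre.map (· / (P.G * B)), x ≤ c) → m = (pre.map (· / (P.G * B))).count c + 1 →
    (∀ ext, Hyp P B δ (pre ++ ext) → ∀ x ∈ ext, c ≤ x / (P.G * B)) →
    (∀ D, (∀ x ∈ D, c ≤ x) →
      o + ph D s c = ph (pre.map (· / (P.G * B)) ++ D) (evu tb 1) (P.z / P.G)) →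
    (∀ D, kf 562949953421312 (pre.map (· / (P.G * B)) ++ D) = y + kf (u / 128) D) → 0 < w →
    gof n0 a b f n c m R w o y u s < BAD →
    (w * mf (pre.map (· / (P.G * B))) : ℕ) * (tot (P.N * (P.G * B)) μ Ψ f pre * κ) ≤
      κ ^ f * (P.N / 4096) * gof n0 a b f n c m R w o y u s := by
  have hs := hx.sm
  have hB := hx.B0
  have hδ := hx.δB
  have hκ := hx.κ1
  have G0 : 0 < P.G := by have := hs.G2; omega
  have F0 : 0 < P.G * B := Nat.mul_pos G0 hB
  have c0 : 0 < P.z / P.G := Nat.div_pos hs.Gz G0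
  have N1 := hs.N1
  induction f with
  | zero => intros; simp [tot, gof]
  | succ f ih =>
    intro n c m R w o y u s pre h1 h2 h3 h4 h5 h6 h7 h8 h9 h
    have void : (∀ ext x, pre ++ ext ≠ [] → Hyp P B δ (pre ++ ext ++ [x]) → Ψ (pre ++ ext) ≤ 0) →
        (w * mf (pre.map (· / (P.G * B))) : ℕ) * (tot (P.N * (P.G * B)) μ Ψ (f + 1) pre * κ) ≤
          κ ^ (f + 1) * (P.N / 4096) * (0 : ℕ) := fun H => by
      rw [Nat.cast_zero, mul_zero]
      exact mul_nonpos_of_nonneg_of_nonpos (Nat.cast_nonneg _) (mul_nonpos_of_nonpos_of_nonneg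
        (tot_nonpos hx.mass.1 _ fun ext => (hx.dom _).elim id fun ⟨x, k1, k2, _⟩ => H ext x k1 k2)
        (by linarith))
    generalize hF : gof n0 a b f = F at ih
    have e : gof n0 a b (f + 1) n c m R w o y u s = il b y 0 (il a (y + (u - 1))
      (il n0 n (fz (mx c (R - n)) fun j => rws w o (R - j) j (il j c m 1) (skip s (j - c))) 0 +
      fz (n + 1) fun n' => fz (u / 128) fun u' =>
        kds (fun d m v t => fz (m + 1) fun m' => fz (R - d) fun R' =>
            fz (nw w d m) fun w' => fz (o + v) fun o' =>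
            fz (y + d * u') fun y' => F n' d m' R' w' o' y' u' t)
          ((R - 1) / mx 2 (n0 + 1 - n) + 1 - c) c m s) 0) := by
      rw [← hF]
      rfl
    rw [e] at h ⊢
    clear e hF
    rw [il_eq, il_eq] at h ⊢
    split_ifs at h ⊢ with t1 t2
    · exact void fun ext x _ _ => hΨ _ (Or.inr (Or.inr (by rw [List.map_append, h8]; omega)))
    swap
    · refine void fun ext x k1 k2 => hΨ _ (Or.inr (Or.inl ?_))
      have k3 := (kTc_last hs hB hδ k2 k1).1
      have k4 := kf_le (u / 128) (l := ext.map (· / (P.G * B))) fun z hz =>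
        (List.single_le_sum (fun _ _ => Nat.zero_le _) z hz).trans_lt (by
          rw [List.map_append, List.sum_append] at k3
          generalize x / (P.G * B) = j at k3
          omega)
      rw [List.map_append, h8]
      omega
    clear void
    simp only [fz_eq, mx_eq, kds_eq] at h ⊢
    generalize hA : il n0 n (rws w o (R - max c (R - n)) (max c (R - n)) (il (max c (R - n)) c m 1)
      (skip s (max c (R - n) - c))) 0 = A at h ⊢
    generalize hq : max 2 (n0 + 1 - n) = q at h ⊢
    have f0 := mf_pos (pre.map (· / (P.G * B)))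
    have r1 : (w * mf (pre.map (· / (P.G * B))) : ℕ) * Ψ pre ≤ P.N / 4096 * A := by
      rcases le_or_gt (Ψ pre) 0 with k0 | k0
      · exact (mul_nonpos_of_nonneg_of_nonpos (Nat.cast_nonneg _) k0).trans (by positivity)
      obtain ⟨x, k1, k2, -, k3⟩ := (hx.dom pre).resolve_left k0.not_ge
      obtain ⟨k4, k5⟩ := kTc_last hs hB hδ k2 k1
      have k6 := h6 [x] k2 x List.mem_cons_self
      have k7 : n0 ≤ n := not_lt.1 fun h' => k0.not_ge (hΨ _ (Or.inl (h1 ▸ h')))
      have k8 := Nat.div_mul_le_self x (P.G * B)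
      have k9 := h7 [x / (P.G * B)] (by simpa using k6)
      have k10 := mf_snoc h4 k6
      have k11 := List.length_pos_iff.2 k1
      rw [← h5] at k10
      rw [List.map_append, List.map_singleton, k10] at k3
      rw [← List.map_singleton (f := (· / (P.G * B))), ← List.map_append, List.map_singleton,
        ph_one] at k9
      rw [il_eq, if_pos k7] at hA
      generalize x / (P.G * B) = j at *
      have k12 := rws_spec w o (n := R - max c (R - n)) (i := j - max c (R - n)) (max c (R - n))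
        (il (max c (R - n)) c m 1) (skip s (max c (R - n) - c)) (by omega)
      rw [hA, skip_add, show max c (R - n) - c + (j - max c (R - n)) = j - c by omega, k9,
        show max c (R - n) + (j - max c (R - n)) = j by omega,
        show (if j - max c (R - n) = 0 then il (max c (R - n)) c m 1 else 1) =
          if j - c = 0 then m else 1 by rw [il_eq]; split_ifs <;> omega] at k12
      have k13 : 0 < if j - c = 0 then m else 1 := by split_ifs <;> omega
      generalize (if j - c = 0 then m else 1) = g at *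
      obtain ⟨k14, k15⟩ := rw1_spec hs hB hδ k2 (by simp; omega)
        (Nat.mul_pos (show 0 < j by omega) k13) rfl (k12.trans_lt (by omega))
      have k16 := k3.resolve_left k14.not_gt
      have k17 := (Nat.cast_le (α := ℝ)).2 k12
      have k18 := (Nat.cast_le (α := ℝ)).2 k8
      have k19 : (0 : ℝ) < (j * g : ℕ) := Nat.cast_pos.2 (Nat.mul_pos (by omega) k13)
      have k20 : (0 : ℝ) < (P.G * B : ℕ) := Nat.cast_pos.2 F0
      generalize rw1 _ _ _ = r at *
      generalize -W _ _ _ = X at *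
      generalize mf _ = g' at *
      generalize P.G * B = F at *
      have k21 : Ψ pre * (j * g : ℕ) * g' ≤ X * P.N := by
        refine le_of_mul_le_mul_right ?_ k20
        have := mul_le_mul_of_nonneg_left k18 (show 0 ≤ Ψ pre * (g' * g : ℕ) by positivity)
        push_cast at this k16 ⊢
        linarith
      refine le_of_mul_le_mul_left ?_ k19
      have k22 := mul_le_mul_of_nonneg_left k21 (Nat.cast_nonneg w)
      have k23 := mul_le_mul_of_nonneg_left (k15.trans (mul_le_mul_of_nonneg_left k17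
        (by exact_mod_cast k19.le))) (show (0 : ℝ) ≤ P.N / 4096 by positivity)
      push_cast at k22 k23 ⊢
      linarith
    have r2 := kFast_sum (M := P.N * (P.G * B)) (F := P.G * B) (c := c) (n := (R - 1) / q + 1 - c)
      (g := fun x => μ x * (tot (P.N * (P.G * B)) μ Ψ f (pre ++ [x]) * κ))
      ((Nat.eq_zero_or_pos _).imp_right fun h' => Nat.mul_le_mul_right _ (by
        have : (R - 1) / q ≤ (R - 1) / 2 := Nat.div_le_div_left (by omega) two_pos
        have := hs.N2
        omega))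
      fun x hx' => mul_nonpos_of_nonneg_of_nonpos (hx.mass.1 x) (mul_nonpos_of_nonpos_of_nonneg
        (tot_nonpos hx.mass.1 _ fun ext => not_lt.1 fun k0 => by
          obtain ⟨z, k1, k2, -⟩ := (hx.dom _).resolve_left k0.not_ge
          have k3 := (kTc_last hs hB hδ k2 k1).1
          have k4 : n0 ≤ (pre ++ [x] ++ ext).length := not_lt.1 fun h' => k0.not_ge (hΨ _ (Or.inl h'))
          have k5 := k2.sorted
          rw [List.append_assoc, List.append_assoc] at k2
          have k6 := h6 _ k2 x (by simp)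
          rw [List.append_assoc, List.append_assoc, List.map_append, List.singleton_append,
            List.map_cons] at k5
          have k7 := List.card_nsmul_le_sum _ _
            (List.pairwise_cons.1 (List.pairwise_append.1 k5).2.1).1
          have k8 := (Nat.le_div_iff_mul_le F0).1 k6
          have k9 := (Nat.le_div_iff_mul_le F0).2 (hx'.resolve_left k8.not_gt)
          simp only [List.map_append, List.sum_append, List.map_singleton, List.sum_singleton,
            List.length_append, List.length_map, List.length_singleton, smul_eq_mul] at k3 k4 k7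
          generalize x / (P.G * B) = d at *
          generalize z / (P.G * B) = j at *
          have k10 : d * q ≤ d * (ext.length + 1 + 1) := Nat.mul_le_mul_left _ (by omega)
          have k11 := (Nat.le_div_iff_mul_le (show 0 < q by omega)).2
            (show d * q ≤ R - 1 by rw [mul_comm] at k7; rw [mul_add, mul_one] at k10; omega)
          omega) (by linarith))
    have r3 : ∀ i ∈ range ((R - 1) / q + 1 - c), (w * mf (pre.map (· / (P.G * B))) : ℕ) *
        ∑ x ∈ Ico ((c + i) * (P.G * B)) ((c + i + 1) * (P.G * B)),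
          μ x * (tot (P.N * (P.G * B)) μ Ψ f (pre ++ [x]) * κ) ≤ κ * (κ ^ f * (P.N / 4096) *
        F (n + 1) (c + i) ((if i = 0 then m else 1) + 1) (R - (c + i))
          (nw w (c + i) (if i = 0 then m else 1)) (o + hdT (skip s i)) (y + (c + i) * (u / 128))
          (u / 128) (mrg (skip s i) (kdT (skip s i)))) := fun i hi => by
      have k1 : (R - 1) / q ≤ (R - 1) / 2 := Nat.div_le_div_left (by omega) two_pos
      have k2 := mem_range.1 hi
      have k3 := single_le_sum (f := fun i => F (n + 1) (c + i) ((if i = 0 then m else 1) + 1)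
        (R - (c + i)) (nw w (c + i) (if i = 0 then m else 1)) (o + hdT (skip s i))
        (y + (c + i) * (u / 128)) (u / 128) (mrg (skip s i) (kdT (skip s i))))
        (fun _ _ => Nat.zero_le _) hi
      refine kFast_cell hs hz hx.mass hκ (m := if i = 0 then m else 1) (by omega) (by omega) f0
        (by split_ifs <;> omega) (by positivity) fun x hx' => ?_
      have k4 : x / (P.G * B) = c + i := Nat.div_eq_of_lt_le (mem_Ico.1 hx').1 (mem_Ico.1 hx').2
      have k5 : (pre ++ [x]).map (· / (P.G * B)) = pre.map (· / (P.G * B)) ++ [c + i] := by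
        rw [List.map_append, List.map_singleton, k4]
      have k6 := mf_snoc h4 (Nat.le_add_right c i)
      rw [Nat.add_sub_cancel_left, ← h5] at k6
      rw [← k6, ← k5]
      refine ih (pre := pre ++ [x]) (by simp [h1]) (by rw [k5]; simp; omega) (by omega) ?_ ?_
        (fun ext H z hz => k4 ▸ kKBs_ord H (by simp) hz) (fun D hD => ?_) (fun D => ?_)
        (Nat.succ_pos _) (by omega)
      · rw [k5]
        intro z hz
        rcases List.mem_append.1 hz with hz | hz
        · exact (h4 z hz).trans (Nat.le_add_right _ _)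
        · exact (List.mem_singleton.1 hz).le
      · rw [k5, List.count_append, List.count_singleton_self]
        split_ifs with h'
        · rw [h', add_zero, h5]
        · rw [List.count_eq_zero.2 fun h'' => by have := h4 _ h''; omega]
      · have k7 : ∀ z ∈ (c + i) :: D, c + i ≤ z := List.forall_mem_cons.2 ⟨le_rfl, hD⟩
        rw [k5, List.append_assoc, List.singleton_append,
          ← h7 _ fun z hz => (Nat.le_add_right c i).trans (k7 z hz),
          ph_skip (Nat.le_add_right c i) s k7, Nat.add_sub_cancel_left, ph_hd, add_assoc]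
      · rw [k5, List.append_assoc, List.singleton_append, h8, kf, add_assoc]
    have r4 := sum_le_sum r3
    rw [← mul_sum, ← mul_sum, ← mul_sum] at r4
    have r5 := mul_le_mul_of_nonneg_left r2 (Nat.cast_nonneg (w * mf (pre.map (· / (P.G * B)))))
    have r6 : κ ≤ κ ^ (f + 1) := le_self_pow₀ hκ (Nat.succ_ne_zero f)
    have r7 := mul_le_mul_of_nonneg_right r1 (show 0 ≤ κ by linarith)
    have r8 := mul_le_mul_of_nonneg_left r6 (show (0 : ℝ) ≤ P.N / 4096 * A by positivity)
    have r9 : ∑ x ∈ range (P.N * (P.G * B)), μ x * (tot (P.N * (P.G * B)) μ Ψ f (pre ++ [x]) * κ) =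
        (∑ x ∈ range (P.N * (P.G * B)), μ x * tot (P.N * (P.G * B)) μ Ψ f (pre ++ [x])) * κ := by
      rw [sum_mul]
      exact sum_congr rfl fun _ _ => (mul_assoc _ _ _).symm
    have r10 := r5.trans r4
    rw [r9] at r10
    rw [pow_succ] at r8
    rw [tot, Nat.cast_add, Nat.cast_sum, pow_succ]
    linarith

/-- a bound for the lists with at least `n0` known parts and key between `a` and `b` -/
def Fs (P : Par) (tb : Tr) (n0 a b r : ℕ) : Prop := ∀ B δ κ μ Ψ, Ctx P tb B δ κ μ Ψ →
  (∀ p, p.length < n0 ∨ kf 562949953421312 (p.map (· / (P.G * B))) < a ∨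
    b ≤ kf 562949953421312 (p.map (· / (P.G * B))) → Ψ p ≤ 0) →
  tot (P.N * (P.G * B)) μ Ψ 31 [] ≤ κ ^ 30 / 2 ^ 52 * r

theorem fjob_spec {P : Par} {tb : Tr} {n0 a b r : ℕ} (hz : P.G ∣ P.z)
    (h : fjob P.N (P.z / P.G) n0 tb a b r = 0) : Fs P tb n0 a b r := by
  intro B δ κ μ Ψ hx hΨ
  simp only [fjob, il_eq, Nat.mul_eq] at h
  split_ifs at h with h1 h2
  have h3 := hx.sm.N2
  have h4 := hx.κ1
  have h5 := gof_spec hx hz hΨ 31 (pre := []) (n := 0) (m := 1) (R := P.N)
    (w := 1180591620717411303424) (o := 0) (y := 0) (u := 72057594037927936) (s := evu tb 1) rfl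
    rfl le_rfl (by simp) rfl (fun ext H x hx' => kTc_low hx.B0 H _ (List.mem_map_of_mem hx'))
    (fun D _ => zero_add _) (fun D => (zero_add _).symm) (by norm_num)
    (by rw [BAD_eq]; exact ((Nat.le_mul_of_pos_left _ (by omega)).trans h2).trans_lt (by omega))
  have h6 := mul_le_mul_of_nonneg_left ((Nat.cast_le (α := ℝ)).2 h2)
    (show 0 ≤ κ ^ 30 * κ by positivity)
  rw [List.map_nil, mf, pow_succ κ 30] at h5
  refine le_of_mul_le_mul_right ?_ (show 0 < κ by linarith)
  push_cast at h5 h6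
  linarith

theorem tot_split (M : ℕ) (μ : ℕ → ℝ) (Ψ : List ℕ → ℝ) (φ : List ℕ → Prop) [DecidablePred φ]
    (f : ℕ) (pre : List ℕ) : tot M μ Ψ f pre = tot M μ (fun p => if φ p then Ψ p else 0) f pre +
      tot M μ (fun p => if φ p then 0 else Ψ p) f pre := by
  induction f generalizing pre with
  | zero => simp [tot]
  | succ f ih =>
    simp only [tot, ih, mul_add, sum_add_distrib]
    split_ifs <;> ring

theorem Ctx.cut {P : Par} {tb : Tr} {B δ : ℕ} {κ : ℝ} {μ : ℕ → ℝ} {Ψ Ψ' : List ℕ → ℝ}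
    (hx : Ctx P tb B δ κ μ Ψ) (h : ∀ p, Ψ' p = Ψ p ∨ Ψ' p = 0) : Ctx P tb B δ κ μ Ψ' :=
  ⟨hx.sm, hx.B0, hx.δB, hx.κ1, hx.mass, fun p => (h p).elim (fun e => e ▸ hx.dom p)
    fun e => Or.inl e.le⟩

theorem Fs.trans {P : Par} {tb : Tr} {n0 a b c r r' : ℕ} (h : Fs P tb n0 a b r)
    (h' : Fs P tb n0 b c r') : Fs P tb n0 a c (r + r') := by
  intro B δ κ μ Ψ hx hΨ
  rw [tot_split _ _ _ fun p => kf 562949953421312 (p.map (· / (P.G * B))) < b, Nat.cast_add,
    mul_add]
  refine add_le_add (h B δ κ μ _ (hx.cut fun p => ?_) fun p hp => ?_)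
    (h' B δ κ μ _ (hx.cut fun p => ?_) fun p hp => ?_)
  · split_ifs <;> simp
  · split_ifs
    · exact hΨ p (by omega)
    · rfl
  · split_ifs <;> simp
  · split_ifs
    · rfl
    · exact hΨ p (by omega)

theorem Fs.join {P : Par} {tb : Tr} {n0 r r' B δ : ℕ} {κ : ℝ} {μ : ℕ → ℝ} {Ψ : List ℕ → ℝ}
    (h : Fs P tb n0 0 72057594037927936 r) (hx : Ctx P tb B δ κ μ Ψ)
    (h' : ∀ Ψ', Ctx P tb B δ κ μ Ψ' → (∀ p, n0 ≤ p.length → Ψ' p ≤ 0) →
      tot (P.N * (P.G * B)) μ Ψ' 31 [] ≤ κ ^ 30 / 2 ^ 52 * r') :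
    tot (P.N * (P.G * B)) μ Ψ 31 [] ≤ κ ^ 30 / 2 ^ 52 * (r' + r : ℕ) := by
  rw [tot_split _ _ _ fun p => p.length < n0, Nat.cast_add, mul_add]
  refine add_le_add (h' _ (hx.cut fun p => ?_) fun p hp => (if_neg hp.not_gt).le)
    (h B δ κ μ _ (hx.cut fun p => ?_) fun p hp => ?_)
  · split_ifs <;> simp
  · split_ifs <;> simp
  · split_ifs with h1
    · rfl
    refine (hx.dom p).elim id fun ⟨x, k1, k2, _⟩ => ?_
    have k3 := (kTc_last hx.sm hx.B0 hx.δB k2 k1).1
    have k4 := kf_le 562949953421312 (l := p.map (· / (P.G * B))) fun z hz =>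
      (List.single_le_sum (fun _ _ => Nat.zero_le _) z hz).trans_lt
        (((Nat.le_add_left _ _).trans_lt k3).trans_le (hx.sm.N1.trans (by norm_num)))
    omega

end Pool.Agent.Work.MP_82fd4a_nt.P
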