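import Pool.Agent.Work.MP_82fd4a_nt.P.Fm
import Pool.Agent.Work.MP_82fd4a_nt.P.KLan
import Pool.Agent.Work.MP_82fd4a_nt.P.KDt

/-! The faster machine: boxes as digits. -/

set_option autoImplicit false
open Finset

namespace Pool.Agent.Work.MP_82fd4a_nt.P.F

open BS Y

/-- boxes with small sides -/
inductive Bx : ℕ → List ℕ → List ℕ → Prop
  | nil : Bx 0 [] []
  | cons {n lo hi : ℕ} {l h : List ℕ} : lo < hi → hi ≤ 32768 → Bx n l h →
      Bx (n + 1) (lo :: l) (hi :: h)

variable {n : ℕ} {los his : List ℕ}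

theorem kKFb_pk (a : ℕ) (l : List ℕ) : pk (a :: l) = a + pk l * 18446744073709551616 := by
  have e : pk (a :: l) = a + pk l <<< 64 := rfl
  rw [e, Nat.shiftLeft_eq]

theorem kKFb_mod {a : ℕ} (l : List ℕ) (ha : a ≤ 32768) :
    pk (a :: l) % 18446744073709551616 = a := by
  rw [kKFb_pk]
  omega

theorem kKFb_shr {a : ℕ} (l : List ℕ) (ha : a ≤ 32768) : pk (a :: l) >>> 64 = pk l := by
  rw [kKFb_pk, Nat.shiftRight_eq_div_pow]
  omega

theorem kKFb_onn (n : ℕ) : onn (n + 1) = onn n * 18446744073709551616 + 1 := by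
  have e : onn (n + 1) = onn n <<< 64 + 1 := rfl
  rw [e, Nat.shiftLeft_eq]

theorem kKFb_sum (l : List ℕ) :
    pk l % 18446744073709551615 = l.sum % 18446744073709551615 := by
  induction l with
  | nil => rfl
  | cons a l ih =>
    rw [kKFb_pk, List.sum_cons]
    omega

theorem kKFb_le (h : Bx n los his) : los.sum ≤ 32768 * n ∧ his.sum ≤ 32768 * n := by
  induction h with
  | nil => exact ⟨le_rfl, le_rfl⟩
  | cons h1 h2 _ ih =>
    rw [List.sum_cons, List.sum_cons]
    omega

theorem kKFb_upk (h : Bx n los his) : upk n (pk los) = los ∧ upk n (pk his) = his := by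
  induction h with
  | nil => exact ⟨rfl, rfl⟩
  | @cons n lo hi l u h1 h2 _ ih =>
    have e : ∀ X, upk (n + 1) X = (X % 18446744073709551616) :: upk n (X >>> 64) := fun _ => rfl
    have h3 : lo ≤ 32768 := by omega
    rw [e, e, kKFb_mod l h3, kKFb_shr l h3, kKFb_mod u h2, kKFb_shr u h2, ih.1, ih.2]
    exact ⟨rfl, rfl⟩

theorem kKFb_msx (h : Bx n los his) (a b : ℕ) :
    msx n (pk los) (pk his) a b = ms los his a b := by
  induction h generalizing a b with
  | nil => rfl
  | @cons n lo hi l u h1 h2 _ ih =>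
    have e : ∀ X Y, msx (n + 1) X Y a b = msx n (X >>> 64) (Y >>> 64)
        (a * (Y % 18446744073709551616 * (Y % 18446744073709551616) -
          X % 18446744073709551616 * (X % 18446744073709551616)))
        (b * (2 * (Y % 18446744073709551616 * (X % 18446744073709551616)))) := fun _ _ => rfl
    have h3 : lo ≤ 32768 := by omega
    rw [e, kKFb_mod l h3, kKFb_shr l h3, kKFb_mod u h2, kKFb_shr u h2, ih]
    rfl

theorem kKFb_wpx (h : Bx n los his) (V u S : ℕ) : wpx V u S n (pk los) = wp V u S los := by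
  induction h with
  | nil => rfl
  | @cons n lo hi l w h1 h2 _ ih =>
    have e : ∀ X, wpx V u S (n + 1) X = fz (X % 18446744073709551616) (wv V u S) *
        wpx V u S n (X >>> 64) := fun _ => rfl
    have h3 : lo ≤ 32768 := by omega
    rw [e, kKFb_mod l h3, kKFb_shr l h3, ih, fz_eq]
    rfl

theorem kKFb_eqw (h : Bx n los his) {H : ℕ} (hH : H ≤ 2 ^ 20) :
    pk his = pk los + H * onn n ↔ eqw H los his = 0 := by
  induction h with
  | nil => exact ⟨fun _ => rfl, fun _ => rfl⟩
  | @cons n lo hi l u h1 h2 _ ih =>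
    have e : eqw H (lo :: l) (hi :: u) =
        @Bool.rec (fun _ => ℕ) 1 (eqw H l u) (Nat.beq (lo + H) hi) := rfl
    have e2 : H * onn (n + 1) = H * onn n * 18446744073709551616 + H := by
      rw [kKFb_onn]
      ring
    rw [e, e2, kKFb_pk, kKFb_pk]
    generalize H * onn n = t at ih
    cases hb : Nat.beq (lo + H) hi with
    | false =>
      have h4 := Nat.ne_of_beq_eq_false hb
      refine ⟨fun h5 => ?_, fun h5 => absurd h5 one_ne_zero⟩
      omega
    | true =>
      have h4 := Nat.eq_of_beq_eq_true hb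
      refine Iff.trans ⟨fun h5 => ?_, fun h5 => ?_⟩ ih
      · omega
      · omega

theorem kKFb_lane (h : Bx n los his) (i : ℕ) :
    pk los >>> (64 * i) % 18446744073709551616 = nth los i ∧
      pk his >>> (64 * i) % 18446744073709551616 = nth his i := by
  induction h generalizing i with
  | nil =>
    have e : pk [] = 0 := rfl
    rw [e, Nat.zero_shiftRight]
    exact ⟨rfl, rfl⟩
  | @cons n lo hi l u h1 h2 _ ih =>
    have h3 : lo ≤ 32768 := by omega
    cases i with
    | zero =>
      rw [Nat.mul_zero, Nat.shiftRight_zero, Nat.shiftRight_zero, kKFb_mod l h3, kKFb_mod u h2]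
      exact ⟨rfl, rfl⟩
    | succ i =>
      have e : 64 * (i + 1) = 64 + 64 * i := by ring
      have e3 : nth (hi :: u) (i + 1) = nth u i := rfl
      have e4 : nth (lo :: l) (i + 1) = nth l i := rfl
      rw [e, Nat.shiftRight_add, Nat.shiftRight_add, kKFb_shr l h3, kKFb_shr u h2, e3, e4]
      exact ih i

theorem kKFb_out (h : Bx n los his) {i : ℕ} (hi : n ≤ i) : nth los i = 0 ∧ nth his i = 0 := by
  induction h generalizing i with
  | nil => exact ⟨rfl, rfl⟩
  | @cons n lo hi' l u h1 h2 _ ih =>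
    cases i with
    | zero => omega
    | succ i => exact ih (i := i) (by omega)

theorem kKFb_st (h : Bx n los his) {i m : ℕ} (h1 : nth los i < m) (h2 : m < nth his i) :
    Bx n los (st m his i) ∧ Bx n (st m los i) his ∧
      pk (st m his i) + (nth his i - m) <<< (64 * i) = pk his ∧
      pk (st m los i) = pk los + (m - nth los i) <<< (64 * i) := by
  induction h generalizing i with
  | nil => exact absurd h2 (Nat.not_lt_zero m)
  | @cons n lo hi l u g1 g2 g3 ih =>
    cases i with
    | zero =>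
      have h1' : lo < m := h1
      have h2' : m < hi := h2
      have e1 : st m (hi :: u) 0 = m :: u := rfl
      have e2 : st m (lo :: l) 0 = m :: l := rfl
      have e3 : nth (hi :: u) 0 = hi := rfl
      have e4 : nth (lo :: l) 0 = lo := rfl
      rw [e1, e2, e3, e4, kKFb_pk, kKFb_pk, kKFb_pk, kKFb_pk, Nat.mul_zero, Nat.shiftLeft_zero,
        Nat.shiftLeft_zero]
      exact ⟨Bx.cons h1' (by omega) g3, Bx.cons h2' g2 g3, by omega, by omega⟩
    | succ i =>
      obtain ⟨a1, a2, a3, a4⟩ := ih (i := i) h1 h2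
      have e1 : st m (hi :: u) (i + 1) = hi :: st m u i := rfl
      have e2 : st m (lo :: l) (i + 1) = lo :: st m l i := rfl
      have e3 : nth (hi :: u) (i + 1) = nth u i := rfl
      have e4 : nth (lo :: l) (i + 1) = nth l i := rfl
      have e5 : ∀ x : ℕ, x <<< (64 * (i + 1)) = x <<< (64 * i) * 18446744073709551616 := fun x => by
        have e : 64 * (i + 1) = 64 * i + 64 := by ring
        rw [e, Nat.shiftLeft_add, Nat.shiftLeft_eq _ 64]
      rw [e1, e2, e3, e4, e5, e5, kKFb_pk, kKFb_pk, kKFb_pk, kKFb_pk]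
      exact ⟨Bx.cons g1 g2 a1, Bx.cons g1 g2 a2, by omega, by omega⟩

theorem kKFb_spl (h : Bx n los his) {k : ℕ → ℕ → ℕ → ℕ} {k' : List ℕ → List ℕ → ℕ → ℕ}
    (hk : ∀ l u a, Bx n l u → k (pk l) (pk u) a = k' l u a) (s : ℕ) :
    sp2 k (pk los) (pk his) s (64 * (s >>> 2 % 32)) (s >>> 7 % 32) =
      spl n los his (s >>> 2) k' := by
  have e1 : ∀ X Y u nb, sp2 k X Y s u nb = sp3 k X Y u (X >>> u % 18446744073709551616)
      (Y >>> u % 18446744073709551616)
      ((X >>> u % 18446744073709551616 + Y >>> u % 18446744073709551616) / 2) (s >>> (12 + nb))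
      (s >>> 12 % 2 ^ nb) := fun _ _ _ _ => rfl
  have e2 : ∀ X Y u lo hi m t len, sp3 k X Y u lo hi m t len =
      @Bool.rec (fun _ => ℕ) (k X (Y - (hi - m) <<< u) (t % 2 ^ len) +
        k (X + (m - lo) <<< u) Y (t >>> len)) BAD (Nat.ble m lo) := fun _ _ _ _ _ _ _ _ => rfl
  have e3 : ∀ t, spl n los his t k' = fz (t % 32) fun i => il n i BAD (fz (nth los i) fun lo =>
      fz ((lo + nth his i) / 2) fun m => il m lo BAD (tk (t >>> 5) fun a b =>
        (fl (st m his i) fun his' => k' los his' a) +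
          fl (st m los i) fun los' => k' los' his b)) := fun _ => rfl
  have e4 : ∀ (t : ℕ) (q : ℕ → ℕ → ℕ), tk t q = fz (t % 32) fun nb =>
      fz (t >>> 5 % 2 ^ nb) fun len => fz (t >>> (5 + nb)) fun s' =>
      fz (s' % 2 ^ len) fun a => fz (s' >>> len) fun b => q a b := fun _ _ => rfl
  have e5 : s >>> 2 >>> 5 = s >>> 7 := (Nat.shiftRight_add s 2 5).symm
  have e6 : s >>> 7 >>> 5 = s >>> 12 := (Nat.shiftRight_add s 7 5).symm
  have e7 : ∀ nb, s >>> 7 >>> (5 + nb) = s >>> (12 + nb) := fun nb => by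
    rw [← Nat.shiftRight_add, ← Nat.add_assoc]
  rw [e1, e2, e3, (kKFb_lane h _).1, (kKFb_lane h _).2, e5]
  simp only [fz_eq, il_eq, fl_eq, e4]
  rw [e6, e7]
  generalize s >>> 2 % 32 = i
  generalize s >>> 7 % 32 = nb
  generalize s >>> (12 + nb) = t
  generalize s >>> 12 % 2 ^ nb = len
  cases hb : Nat.ble ((nth los i + nth his i) / 2) (nth los i) with
  | true =>
    rw [if_pos (Nat.le_of_ble_eq_true hb), ite_self]
  | false =>
    have h1 : ¬ (nth los i + nth his i) / 2 ≤ nth los i :=
      Nat.not_le_of_not_ble_eq_true (by rw [hb]; exact Bool.false_ne_true)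
    have h2 : ¬ n ≤ i := fun h3 => by
      have := kKFb_out h h3
      omega
    obtain ⟨a1, a2, a3, a4⟩ := kKFb_st (i := i) (m := (nth los i + nth his i) / 2) h
      (by omega) (by omega)
    rw [if_neg h2, if_neg h1, ← hk _ _ _ a1, ← hk _ _ _ a2, a4, Nat.eq_sub_of_add_eq a3]

theorem bok_spec (h : bok los his n = 0) : Bx n los his := by
  induction los generalizing his n with
  | nil =>
    cases his with
    | nil =>
      have e : n = 0 := h
      rw [e]
      exact Bx.nil
    | cons hi u => exact absurd h one_ne_zero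
  | cons lo l ih =>
    cases his with
    | nil => exact absurd h one_ne_zero
    | cons hi u =>
      have e : bok (lo :: l) (hi :: u) n =
          lo + 1 - hi + (hi - 32768) + (1 - n) + bok l u (n - 1) := rfl
      rw [e] at h
      obtain ⟨m, rfl⟩ : ∃ m, n = m + 1 := ⟨n - 1, by omega⟩
      rw [Nat.add_sub_cancel] at h
      exact Bx.cons (by omega) (by omega) (ih (by omega))

theorem Bx.sum (h : Bx n los his) (hn : n ≤ 14) :
    pk los % 18446744073709551615 = los.sum ∧ pk his % 18446744073709551615 = his.sum := by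
  have h1 := kKFb_le h
  rw [kKFb_sum, kKFb_sum]
  omega

theorem Bx.upk (h : Bx n los his) : upk n (pk los) = los ∧ upk n (pk his) = his :=
  kKFb_upk h

theorem Bx.head (h : Bx n los his) : pk los % 18446744073709551616 = nth los 0 ∧
    pk his % 18446744073709551616 = nth his 0 ∧ nth his 0 ≤ 32768 := by
  cases h with
  | nil => exact ⟨rfl, rfl, Nat.zero_le _⟩
  | cons h1 h2 _ => exact ⟨kKFb_mod _ (by omega), kKFb_mod _ h2, h2⟩

theorem Bx.msx (h : Bx n los his) (a b : ℕ) : msx n (pk los) (pk his) a b = ms los his a b :=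
  kKFb_msx h a b

theorem Bx.wpx (h : Bx n los his) (V u S : ℕ) : wpx V u S n (pk los) = wp V u S los :=
  kKFb_wpx h V u S

theorem Bx.eqw (h : Bx n los his) {H : ℕ} (hH : H ≤ 2 ^ 20) :
    pk his = pk los + H * onn n ↔ eqw H los his = 0 :=
  kKFb_eqw h hH

theorem Bx.spl (h : Bx n los his) {k : ℕ → ℕ → ℕ → ℕ} {k' : List ℕ → List ℕ → ℕ → ℕ}
    (hk : ∀ l u a, Bx n l u → k (pk l) (pk u) a = k' l u a) (s : ℕ) :
    sp2 k (pk los) (pk his) s (64 * (s >>> 2 % 32)) (s >>> 7 % 32) = spl n los his (s >>> 2) k' :=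
  kKFb_spl h hk s

end Pool.Agent.Work.MP_82fd4a_nt.P.F
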