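import Pool.Agent.Work.MP_82fd4a_nt.P.KFa
import Pool.Agent.Work.MP_82fd4a_nt.P.KFb

/-! The faster machine: clearing and convolution. -/

set_option autoImplicit false
open Finset

namespace Pool.Agent.Work.MP_82fd4a_nt.P.F

open BS Y

variable {n : ℕ} {los his : List ℕ}

theorem kKFc_a (z M T n h : ℕ) (k : ℕ → ℕ → ℕ → ℕ) (w a c dg D A V b L : ℕ) :
    (fun u => @Bool.rec (fun _ => ℕ) (k A (Nat.add V (Nat.mul w (vm1 n (Nat.add (Nat.mul (Nat.sub u c)
    (ones n)) (Nat.mul (Nat.mul a h) D))))) (Nat.add (Nat.add (Nat.add b (Nat.sub T (Nat.mul (nat_lit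
    2) L))) (Nat.sub (Nat.add L (Nat.mul (Nat.succ h) dg)) M)) (Nat.sub c u))) (k (Nat.add A
    (Nat.mul w (nat_lit 1073741824))) V (Nat.add (Nat.add (Nat.add b (Nat.sub T (Nat.mul (nat_lit
    2) L))) (Nat.sub (Nat.add L (Nat.mul (Nat.succ h) dg)) M)) (Nat.sub c u))) (Nat.ble (Nat.add
    c z) u)) = fun u => il (c + z) u (k (A + w * 1073741824) V
      (b + (T - 2 * L) + (L + (h + 1) * dg - M) + (c - u))) (k A
      (V + w * vm1 n ((u - c) * ones n + a * h * D))
      (b + (T - 2 * L) + (L + (h + 1) * dg - M) + (c - u))) := rfl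

theorem kKFc_b (M T n h : ℕ) (k : ℕ → ℕ → ℕ → ℕ) (w a c dg D A V b L : ℕ) :
    cr2 M T n h k w a c dg D A V b L = fun u => il (c + 1073741824) u (k (A + w * 1073741824) V
      (b + (T - 2 * L) + (L + (h + 1) * dg - M) + (c - u))) (k A
      (V + w * vm1 n ((u - c) * ones n + a * h * D))
      (b + (T - 2 * L) + (L + (h + 1) * dg - M) + (c - u))) :=
  kKFc_a (nat_lit 1073741824) M T n h k w a c dg D A V b L

theorem cr1_eq (M T n X sh h R : ℕ) (k : ℕ → ℕ) (ce : Ce) (A V b : ℕ) :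
    cr1 M T n X sh h R k ce A V b = if b = 0 then crn M T n X sh h R k ce A V else BAD := by
  induction ce generalizing A V b with
  | nil => exact (iz_eq b (k (V + A * ones n)) BAD).trans (if_congr Iff.rfl (fz_eq _ k).symm rfl)
  | cons w a c e y dg D r ih =>
    obtain ⟨L, hL⟩ : ∃ L, L = dt X y sh + e * R := ⟨_, rfl⟩
    have e0 : ∀ Y, vm1 n Y = vmn n Y := fun Y => (fz_eq (Y + bia n) (vm2 n Y)).symm
    have e1 : cr1 M T n X sh h R k (Ce.cons w a c e y dg D r) A V b =
        cr2 M T n h (cr1 M T n X sh h R k r) w a c dg D A V b L (a * L) := hL ▸ rfl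
    have e3 : crn M T n X sh h R k (Ce.cons w a c e y dg D r) A V =
        fz L fun L => il T (2 * L) (il (L + (h + 1) * dg) M (fz (a * L) fun u => il c u
          (il (c + 1073741824) u (crn M T n X sh h R k r (A + w * 1073741824) V)
          (fz ((u - c) * ones n + a * h * D) fun Y =>
            crn M T n X sh h R k r A (V + w * vmn n Y))) BAD) BAD) BAD := hL ▸ rfl
    rw [e1, kKFc_b, e3]
    simp only [fz_eq, il_eq, ih, e0]
    split_ifs <;> first | with_reducible rfl | (exfalso; omega)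

theorem cm5_eq (U SL h V n k : ℕ) : cm5 U SL h V n k = cm U SL h V n k := by
  unfold cm
  simp only [fz_eq]
  rfl

theorem cl6_eq (h : Bx n los his) (hn : n ≤ 14) (U M T : ℕ) (ce : Ce) (K : ℕ) (k : ℕ → ℕ) :
    cl6 U M T n (pk los) (pk his) ce K k = clr U M T n los his ce K k := by
  obtain ⟨a1, a2, a3⟩ := h.head
  obtain ⟨b1, b2⟩ := h.sum hn
  obtain ⟨u, hu⟩ : ∃ u, u = nth his 0 - nth los 0 := ⟨_, rfl⟩
  have e0 : slt (pk los) % 16777216 = pk los % 16777213 := by
    have e : slt (pk los) = pk los <<< 64 + pk los % 16777213 := rfl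
    rw [e, Nat.shiftLeft_eq]
    omega
  have e1 : cl6 U M T n (pk los) (pk his) ce K k = cl7 U M T n (pk los) (pk his) ce K k
      (pk his % 18446744073709551616 - pk los % 18446744073709551616)
      (pk his % 18446744073709551615) := rfl
  have e2 : ∀ S, cl7 U M T n (pk los) (pk his) ce K k u S = cr1 M T n (slt (pk los)) (64 * n) u
      (M - 1 - S) (fun V => k (sk (K ^^^ K &&& cm5 U (pk los % 18446744073709551615) u V n n))) ce
      (9223363240224882688 - pk los % 16777213) 0 ((pk his ^^^ pk los + u * onn n) + (S + 1 - M)) :=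
    fun _ => rfl
  have e3 : clr U M T n los his ce K k = fz u fun u => iz (eqw u los his) (fz (sm his) fun S =>
      il M S BAD (fz (slt (pk los)) fun X => fz (64 * n) fun sh => fz (M - 1 - S) fun R =>
        crn M T n X sh u R (fun V => fz (sm los) fun L => fz (sk (K ^^^ K &&& cm U L u V n n)) k)
          ce (9223363240224882688 - X % 16777216) 0)) BAD := hu ▸ rfl
  have e4 := h.eqw (H := u) (by omega)
  rw [← Nat.xor_eq_zero_iff] at e4
  rw [e1, a1, a2, ← hu, e2, e3, cr1_eq, b1, b2]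
  simp only [fz_eq, il_eq, iz_eq, sm_eq, cm5_eq, e0, ← e4]
  split_ifs <;> first | rfl | omega

theorem cv5_eq (h : Bx n los his) (hn : n ≤ 14) (U G M c K CT j0 : ℕ) {g : ℕ} (hg : g ≤ 3) :
    cv5 U G M c n (pk los) (pk his) K CT j0 g = cvl U G M c n los his K CT j0 g := by
  obtain ⟨a1, a2, a3⟩ := h.head
  obtain ⟨u, hu⟩ : ∃ u, u = (nth his 0 - nth los 0) >>> g := ⟨_, rfl⟩
  have e1 : cv5 U G M c n (pk los) (pk his) K CT j0 g = fz (2 ^ g) fun S =>
      fz ((pk his % 18446744073709551616 - pk los % 18446744073709551616) >>> g)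
        (cv6 U G M c n (pk los) (pk his) K CT j0 S (24 * n)) := rfl
  have e2 : cv6 U G M c n (pk los) (pk his) K CT j0 (2 ^ g) (24 * n) u =
      @Bool.rec (fun _ => ℕ) BAD (cs5 U G M c K CT j0 u (n * u) (24 * n) (2 ^ (24 * n)) (20 * n)
        ((2 ^ g - 1) * n + 1) (wpx (24 * n) u (2 ^ g) n (pk los)) (pk los % 18446744073709551615) 0)
        (Nat.beq (pk his) (pk los + 2 ^ g * u * onn n)) := rfl
  have e3 : cvl U G M c n los his K CT j0 g = fz u fun u => fz (2 ^ g) fun S => fz (S * u) fun H =>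
      iz (eqw H los his) (fz (24 * n) fun V => fz (wp V u S los) fun Q => fz (sm los) fun L =>
        fz (n * u) fun d => fz (2 ^ V) fun b =>
          cvs U G M c K CT j0 u d V b (20 * n) ((S - 1) * n + 1) Q L 0) BAD := hu ▸ rfl
  have e4 := h.eqw (H := 2 ^ g * u) (by
    have := Nat.mul_div_le (nth his 0 - nth los 0) (2 ^ g)
    rw [← Nat.shiftRight_eq_div_pow, ← hu] at this
    omega)
  rw [e1, fz_eq, fz_eq, a1, a2, ← hu, e2, e3, cs5_eq, h.wpx, (h.sum hn).1]
  simp only [fz_eq, iz_eq, sm_eq, ← e4]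
  cases e : Nat.beq (pk his) (pk los + 2 ^ g * u * onn n)
  · exact (if_neg (Nat.ne_of_beq_eq_false e)).symm
  · exact (if_pos (Nat.eq_of_beq_eq_true e)).symm

theorem lf5_eq (h : Bx n los his) (hn : n ≤ 14) (U G M c CT j0 K : ℕ) :
    lf5 U G M n c (pk los) (pk his) CT j0 K =
      nar U K los his fun sl sh => lf G M c los his sl sh CT j0 := by
  have e : lf5 U G M n c (pk los) (pk his) CT j0 K = nr1 U K (pk los % 18446744073709551615)
      (pk his % 18446744073709551615) (lk1 G M c CT j0 (lf3 M n (pk los) (pk his))) := rfl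
  rw [e, (h.sum hn).1, (h.sum hn).2, nr1_eq]
  exact congrArg _ (funext₂ (lk1_eq h.msx G M c CT j0))

end Pool.Agent.Work.MP_82fd4a_nt.P.F
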