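import Pool.Agent.Work.MP_82fd4a_nt.P.Gr
import Pool.Agent.Work.MP_82fd4a_nt.P.KFd
import Pool.Agent.Work.MP_82fd4a_nt.P.KCor

/-! The grid: notions and vectors of digits. -/

set_option autoImplicit false
open Finset

namespace Pool.Agent.Work.MP_82fd4a_nt.P.G

open BS Y

/-- a coordinate of a point of the grid -/
def dig (S d x : ℕ) : ℕ := x / (S + 1) ^ d % (S + 1)

/-- the sum of the coordinates -/
def ds (S n x : ℕ) : ℕ := ∑ d ∈ range n, dig S d x

/-- the point with given coordinates -/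
def off (S n : ℕ) (β : ℕ → ℕ) : ℕ := ∑ d ∈ range n, β d * (S + 1) ^ d

/-- the least corners of the small boxes -/
def Val (S n x : ℕ) : Prop := x < (S + 1) ^ n ∧ ∀ d < n, dig S d x < S

/-- membership in a small box -/
def Sub (B S h x : ℕ) (los p : List ℕ) : Prop := ∀ j < los.length,
  (los.getD j 0 + dig S (los.length - 1 - j) x * h) * B ≤ p.getD j 0 ∧
    p.getD j 0 ≤ (los.getD j 0 + dig S (los.length - 1 - j) x * h + h) * B

/-- the meaning of the bits of the slabs -/
def ZI (P : Par) (B δ S h : ℕ) (los his : List ℕ) (Z : ℕ) : Prop := ∀ pre a x r,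
  Bad P B δ los his pre a → Val S los.length x → Sub B S h x los pre → r < los.length →
    (los.sum + (ds S los.length x + r) * h) * B ≤ pre.sum →
    pre.sum < (los.sum + (ds S los.length x + r + 1) * h) * B → Z.testBit (64 * x + r) = true

/-- the increment of the length of a monomial at a point of the grid -/
def dvx (S n : ℕ) (r : Rc) (v : ℕ) : ℕ :=
  r.e * (S * n - ds S n v) + ∑ d ∈ range n, r.m (n - 1 - d) * dig S d v

/-- the defect of a monomial at a point of the grid -/
def dfc (S n R h : ℕ) (los : List ℕ) (v : ℕ) (r : Rc) : ℕ :=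
  r.w * (r.c + 2 ^ 30) - r.w * r.a * (kKCor_L n R los r + h * dvx S n r v)

/-- the range of a monomial on the whole box -/
def Rng (M T n R H : ℕ) (los : List ℕ) (r : Rc) : Prop := T ≤ 2 * kKCor_L n R los r ∧
  kKCor_L n R los r + (H + 1) * (r.e + ∑ j ∈ range n, max (r.m j) r.e) ≤ M

theorem pb_eq (S k : ℕ) : pb S k = 64 * (S + 1) ^ k := rfl

theorem blk_eq (p m : ℕ) (f : ℕ → ℕ) : blk p f m = pack p m f := by
  induction m with
  | zero => rfl
  | succ m ih =>
    have e : blk p f (m + 1) = blk p f m + f m <<< (p * m) := rfl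
    rw [e, ih, pack_succ', Nat.shiftLeft_eq]

theorem pack_blk (W N m : ℕ) (f : ℕ → ℕ → ℕ) :
    pack (W * N) m (fun i => pack W N (f i)) = pack W (N * m) fun x => f (x / N) (x % N) := by
  induction m with
  | zero => simp
  | succ m ih =>
    rw [pack_succ', ih, ← Nat.shiftLeft_eq, mul_assoc, pack_append, Nat.mul_succ]
    refine pack_congr fun i hi => ?_
    split_ifs with h
    · rfl
    · obtain ⟨j, rfl⟩ := Nat.exists_eq_add_of_le (not_lt.1 h)
      have hj : j < N := by omega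
      rw [Nat.add_sub_cancel_left, Nat.mul_add_div (by omega), Nat.div_eq_of_lt hj, add_zero,
        Nat.mul_add_mod, Nat.mod_eq_of_lt hj]

theorem pack_sum {ι : Type} (W N : ℕ) (s : Finset ι) (f : ι → ℕ → ℕ) :
    ∑ i ∈ s, pack W N (f i) = pack W N fun x => ∑ i ∈ s, f i x := by
  simp only [pack, sum_mul]
  exact sum_comm

theorem pack_mul (W N m : ℕ) (f g : ℕ → ℕ) : pack W N f * pack W m g =
    pack W (N + m) fun k => ∑ i ∈ range N, ∑ j ∈ range m, if i + j = k then f i * g j else 0 := by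
  rw [← pack_sum, pack, pack, sum_mul_sum]
  refine sum_congr rfl fun i hi => ?_
  rw [← pack_sum]
  refine sum_congr rfl fun j hj => ?_
  rw [mem_range] at hi hj
  simp only [pack, ite_mul, zero_mul, sum_ite_eq, mem_range, if_pos (Nat.add_lt_add hi hj)]
  rw [mul_add, pow_add]
  ring

theorem pack_cut {W N k t : ℕ} {f : ℕ → ℕ} (hf : ∀ i < N, f i < 2 ^ W) (hk : k < N) (ht : t ≤ W) :
    pack W N f >>> (W * k + t) % 2 ^ (W - t) = f k / 2 ^ t := by
  have h := F.kKFd_cut t (W - t) (pack W N f >>> (W * k))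
  rw [Nat.add_sub_cancel' ht, pack_lane hk hf, ← Nat.shiftRight_add] at h
  rw [← h, Nat.shiftRight_eq_div_pow]

theorem pack_bit {W N x r : ℕ} {f : ℕ → ℕ} (hf : ∀ i < N, f i < 2 ^ W) (hx : x < N) (hr : r < W) :
    (pack W N f).testBit (W * x + r) = (f x).testBit r := by
  rw [← pack_lane hx hf, Nat.testBit_mod_two_pow, Nat.testBit_shiftRight, decide_eq_true hr,
    Bool.true_and]

theorem land_one (N Z : ℕ) : Z &&& pack 64 N (fun _ => 1) =
    pack 64 N fun x => if Z.testBit (64 * x) then 1 else 0 := by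
  rw [F.kKFd_land fun _ _ => by norm_num]
  refine pack_congr fun i _ => ?_
  have h := Nat.and_two_pow (Z >>> (64 * i) % 2 ^ 64) 0
  rw [Nat.testBit_mod_two_pow, Nat.testBit_shiftRight, pow_zero, add_zero] at h
  rw [h]
  cases Z.testBit (64 * i) <;> simp

theorem kKGa_geo (V m : ℕ) : (2 ^ V - 1) * pack V m (fun _ => 1) + 1 = 2 ^ (V * m) := by
  induction m with
  | zero => simp
  | succ m ih =>
    obtain ⟨c, hc⟩ : ∃ c, 2 ^ V = c + 1 := ⟨2 ^ V - 1, (Nat.sub_add_cancel (Nat.two_pow_pos V)).symm⟩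
    rw [pack_succ', Nat.mul_succ, pow_add, mul_add, add_right_comm, ih, hc, Nat.add_sub_cancel]
    ring

theorem kKGa_div {V : ℕ} (hV : 2 ≤ V) (m : ℕ) :
    2 ^ (V * m) / (2 ^ V - 1) = pack V m fun _ => 1 := by
  have h : 2 ^ 2 ≤ 2 ^ V := Nat.pow_le_pow_right two_pos hV
  rw [← kKGa_geo, Nat.mul_add_div (by omega), Nat.div_eq_of_lt (by omega), add_zero]

theorem onw_eq {V : ℕ} (hV : 2 ≤ V) (m : ℕ) : onw V m = pack V m fun _ => 1 := kKGa_div hV m

theorem onv_eq (S k : ℕ) : onv S k = pack 64 ((S + 1) ^ k) fun _ => 1 := by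
  have e : ∀ c, Nat.div (Nat.pow 2 (pb S k)) c = 2 ^ (64 * (S + 1) ^ k) / c := fun _ => rfl
  have e2 : 18446744073709551615 = 2 ^ 64 - 1 := by norm_num
  exact (e 18446744073709551615).trans (e2 ▸ kKGa_div (by norm_num) _)

theorem dig_le (S d x : ℕ) : dig S d x ≤ S := Nat.le_of_lt_succ (Nat.mod_lt _ S.succ_pos)

theorem ds_le (S n x : ℕ) : ds S n x ≤ S * n := by
  refine (sum_le_card_nsmul _ _ S fun d _ => dig_le S d x).trans_eq ?_
  rw [card_range, smul_eq_mul, mul_comm]

theorem dig_top {S n x i : ℕ} (hx : x < (S + 1) ^ n) (hi : i ≤ S) :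
    dig S n (x + (S + 1) ^ n * i) = i := by
  rw [dig, Nat.add_mul_div_left _ _ (by positivity), Nat.div_eq_of_lt hx, zero_add,
    Nat.mod_eq_of_lt (by omega)]

theorem dig_low {S n d : ℕ} (hd : d < n) (x i : ℕ) : dig S d (x + (S + 1) ^ n * i) = dig S d x := by
  obtain ⟨c, rfl⟩ := Nat.exists_eq_add_of_lt hd
  rw [dig, add_assoc d, pow_add, mul_assoc, Nat.add_mul_div_left _ _ (by positivity), pow_succ',
    mul_assoc, Nat.add_mul_mod_self_left, dig]

theorem dig_off {S n x : ℕ} {β : ℕ → ℕ} (hx : x < (S + 1) ^ n)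
    (h : ∀ d < n, dig S d x + β d ≤ S) : x + off S n β < (S + 1) ^ n ∧
      ∀ d < n, dig S d (x + off S n β) = dig S d x + β d := by
  induction n generalizing x with
  | zero => simpa [off] using hx
  | succ n ih =>
    have hp : 0 < (S + 1) ^ n := by positivity
    obtain ⟨y, i, hy, rfl⟩ : ∃ y i, y < (S + 1) ^ n ∧ x = y + (S + 1) ^ n * i :=
      ⟨_, _, Nat.mod_lt x hp, (Nat.mod_add_div _ _).symm⟩
    have hi : i ≤ S := by
      rw [pow_succ] at hx
      exact Nat.le_of_lt_succ (lt_of_mul_lt_mul_left ((Nat.le_add_left _ _).trans_lt hx) hp.le)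
    have h1 := h n n.lt_succ_self
    rw [dig_top hy hi] at h1
    obtain ⟨h2, h3⟩ := ih hy fun d hd => dig_low hd y i ▸ h d (by omega)
    have e : y + (S + 1) ^ n * i + off S (n + 1) β =
        y + off S n β + (S + 1) ^ n * (i + β n) := by
      rw [off, sum_range_succ, off]
      ring
    rw [e]
    refine ⟨?_, fun d hd => ?_⟩
    · have := Nat.mul_le_mul_left ((S + 1) ^ n) h1
      rw [pow_succ, Nat.mul_succ]
      omega
    · rcases Nat.lt_succ_iff_lt_or_eq.1 hd with hd | rfl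
      · rw [dig_low hd, dig_low hd, h3 d hd]
      · rw [dig_top h2 h1, dig_top hy hi]

end Pool.Agent.Work.MP_82fd4a_nt.P.G
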