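import Pool.Agent.Work.MP_82fd4a_nt.P.KGa

/-! The grid: the test at the corners of a slab of a small box. -/

set_option autoImplicit false
open Finset

namespace Pool.Agent.Work.MP_82fd4a_nt.P.G

open BS Y

theorem kKGb_good {M T n h R B a q : ℕ} {los pre : List ℕ} {rs : List Rc} (hB : 0 < B)
    (hh : 0 < h) (hl : los.length = n) (hp : pre.length = n)
    (hb : ∀ j < n, los.getD j 0 * B ≤ pre.getD j 0 ∧ pre.getD j 0 ≤ (los.getD j 0 + h) * B)
    (hR : R + (los.sum + n * h) + 1 = M) (h1 : M * B ≤ pre.sum + a + B) (h2 : pre.sum + a ≤ M * B)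
    (q1 : (los.sum + q * h) * B ≤ pre.sum) (q2 : pre.sum ≤ (los.sum + (q + 1) * h) * B)
    (hk : rs.length ≤ 15) (hr : ∀ r ∈ rs, r.OK T) (ce : (rs.map fun r => r.w * r.e).sum ≤ 4096)
    (cm : ∀ j < n, (rs.map fun r => r.w * r.m j).sum ≤ 4096)
    (ok : ∀ r ∈ rs, T ≤ 2 * kKCor_L n R los r ∧
      kKCor_L n R los r + h * (∑ j ∈ range n, max (r.m j) r.e) + r.e ≤ M)
    (hv : ∀ i < 2 ^ n, pop n i = q ∨ pop n i = q + 1 → (8796629893120 : ℝ) ≤ (rs.map fun r =>
      (r.w : ℝ) * min ((r.a : ℝ) * (kKCor_L n R los r + h * csum r.m (fun _ => r.e) n i : ℕ) - r.c)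
        (2 ^ 30)).sum) :
    GoodL (T * B : ℕ) (M * B : ℕ) (1 / 8192) (pre ++ [a]) := by
  have b : (0 : ℝ) < B := by exact_mod_cast hB
  have b1 : (0 : ℝ) < h := by exact_mod_cast hh
  obtain ⟨d⟩ : Nonempty Rc := ⟨⟨0, 0, 0, 0, fun _ => 0⟩⟩
  obtain ⟨ρ, hρ⟩ : ∃ ρ : ℕ → Rc, ρ = fun i => rs.getD i d := ⟨_, rfl⟩
  have mem : ∀ i < rs.length, ρ i ∈ rs := fun i hi => by
    rw [hρ]; simp only [List.getD_eq_getElem _ _ hi]; exact List.getElem_mem hi
  have sm : ∀ f : Rc → ℕ, (rs.map f).sum = ∑ i ∈ range rs.length, f (ρ i) := fun f => by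
    rw [kKCor_sum f d, hρ]
  obtain ⟨u, hu⟩ : ∃ u : ℕ → ℝ, ∀ j, (pre.getD j 0 : ℝ) = B * (los.getD j 0 + h * u j) :=
    ⟨fun j => (pre.getD j 0 / B - los.getD j 0) / h, fun j => by field_simp; ring⟩
  have u01 : ∀ j < n, 0 ≤ u j ∧ u j ≤ 1 := fun j hj => by
    have a1 : ((los.getD j 0 : ℕ) : ℝ) * B ≤ pre.getD j 0 := by exact_mod_cast (hb j hj).1
    have a2 : ((pre.getD j 0 : ℕ) : ℝ) ≤ (los.getD j 0 + h) * B := by exact_mod_cast (hb j hj).2
    rw [hu j] at a1 a2
    have bh := mul_pos b b1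
    constructor
    · exact nonneg_of_mul_nonneg_right (by linarith) bh
    · exact le_of_mul_le_mul_left (by linarith) bh
  have s1 : ∀ l : List ℕ, l.length = n → (l.sum : ℝ) = ∑ j ∈ range n, (l.getD j 0 : ℝ) :=
    fun l hl => by
      have := kKCor_sum id 0 l
      rw [List.map_id, hl] at this
      rw [this]
      push_cast
      rfl
  have s2 : (pre.sum : ℝ) = B * (los.sum + h * ∑ j ∈ range n, u j) := by
    rw [s1 pre hp, s1 los hl, mul_sum, ← sum_add_distrib, mul_sum]
    exact sum_congr rfl fun j _ => hu j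
  have hR' : (R : ℝ) + (los.sum + n * h) + 1 = M := by exact_mod_cast hR
  have a1 : (B : ℝ) * (R + h * (n - ∑ j ∈ range n, u j)) ≤ a := by
    have : (M : ℝ) * B ≤ pre.sum + a + B := by exact_mod_cast h1
    rw [s2, ← hR'] at this
    linarith
  have a2 : (a : ℝ) ≤ B * (R + h * (n - ∑ j ∈ range n, u j) + 1) := by
    have : (pre.sum : ℝ) + a ≤ M * B := by exact_mod_cast h2
    rw [s2, ← hR'] at this
    linarith
  obtain ⟨m, hm⟩ : ∃ m : ℕ → ℕ → ℕ, m = fun i j => if j < n then (ρ i).m j else (ρ i).e := ⟨_, rfl⟩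
  obtain ⟨l, hl'⟩ : ∃ l : Rc → ℝ, l = fun r => (kKCor_L n R los r : ℝ) +
    h * ∑ j ∈ range n, (u j * r.m j + (1 - u j) * r.e) := ⟨_, rfl⟩
  have d1 : ∀ i, B * l (ρ i) ≤ dot (m i) (pre ++ [a]) ∧
      (dot (m i) (pre ++ [a]) : ℝ) ≤ B * (l (ρ i) + (ρ i).e) := fun i => by
    have e1 : dot (m i) (pre ++ [a]) = ∑ j ∈ range n, (ρ i).m j * pre.getD j 0 + (ρ i).e * a := by
      rw [dot, List.length_append, hp, List.length_singleton, sum_range_succ, hm]
      simp only [lt_irrefl, if_false]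
      rw [List.getD_append_right _ _ _ _ hp.le, hp, Nat.sub_self, List.getD_cons_zero]
      congr 1
      exact sum_congr rfl fun j hj => by
        rw [if_pos (mem_range.1 hj), List.getD_append _ _ _ _ (hp ▸ mem_range.1 hj)]
    have e2 : B * l (ρ i) = ∑ j ∈ range n, ((ρ i).m j : ℝ) * pre.getD j 0 +
        (ρ i).e * (B * (R + h * (n - ∑ j ∈ range n, u j))) := by
      have e3 : (n : ℝ) - ∑ j ∈ range n, u j = ∑ j ∈ range n, (1 - u j) := by
        rw [sum_sub_distrib]; simp
      rw [hl', e3]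
      simp only [kKCor_L, hu]
      push_cast
      simp only [mul_add, mul_sum, sum_add_distrib]
      have e4 : ∀ f g : ℕ → ℝ, (∀ j, f j = g j) → ∑ j ∈ range n, f j = ∑ j ∈ range n, g j :=
        fun f g h => sum_congr rfl fun j _ => h j
      rw [e4 (fun j => B * (((ρ i).m j : ℝ) * los.getD j 0))
          (fun j => (ρ i).m j * (B * los.getD j 0)) fun j => by ring,
        e4 (fun j => (B : ℝ) * (h * (u j * (ρ i).m j))) (fun j => (ρ i).m j * (B * (h * u j)))
          fun j => by ring,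
        e4 (fun j => (B : ℝ) * (h * ((1 - u j) * (ρ i).e)))
          (fun j => (ρ i).e * (B * (h * (1 - u j)))) fun j => by ring]
      ring
    have e0 : (0 : ℝ) ≤ (ρ i).e := Nat.cast_nonneg _
    rw [e1, mul_add, e2]
    push_cast
    constructor <;> nlinarith [mul_le_mul_of_nonneg_left a1 e0, mul_le_mul_of_nonneg_left a2 e0]
  have l1 : ∀ r, (kKCor_L n R los r : ℝ) ≤ l r ∧
      l r ≤ kKCor_L n R los r + h * (∑ j ∈ range n, max (r.m j) r.e : ℕ) := fun r => by
    have c0 : ∀ x : ℕ, (0 : ℝ) ≤ x := Nat.cast_nonneg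
    rw [hl', Nat.cast_sum]
    refine ⟨le_add_of_nonneg_right (mul_nonneg b1.le (sum_nonneg fun j hj => ?_)),
      add_le_add_right (mul_le_mul_of_nonneg_left (sum_le_sum fun j hj => ?_) b1.le) _⟩ <;>
      obtain ⟨u0, u1⟩ := u01 j (mem_range.1 hj)
    · exact add_nonneg (mul_nonneg u0 (c0 _)) (mul_nonneg (by linarith) (c0 _))
    · have x1 : (r.m j : ℝ) ≤ (max (r.m j) r.e : ℕ) := by exact_mod_cast le_max_left _ _
      have x2 : (r.e : ℝ) ≤ (max (r.m j) r.e : ℕ) := by exact_mod_cast le_max_right _ _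
      nlinarith
  refine ⟨rs.length, fun i => (ρ i).w / 4096, m, by omega, fun i _ => by positivity,
    fun i hi => ?_, fun i hi => ?_, fun j hj => ?_, ?_⟩
  · have x1 : (T : ℝ) ≤ 2 * kKCor_L n R los (ρ i) := by exact_mod_cast (ok _ (mem i hi)).1
    have := (d1 i).1
    have := mul_le_mul_of_nonneg_left (l1 (ρ i)).1 b.le
    have := mul_le_mul_of_nonneg_left x1 b.le
    push_cast
    linarith
  · have x1 : (kKCor_L n R los (ρ i) : ℝ) +
        h * (∑ j ∈ range n, max ((ρ i).m j) (ρ i).e : ℕ) + (ρ i).e ≤ M := by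
      exact_mod_cast (ok _ (mem i hi)).2
    have x2 := (l1 (ρ i)).2
    have x3 : l (ρ i) + (ρ i).e ≤ M := by linarith
    have := (d1 i).2
    have := mul_le_mul_of_nonneg_left x3 b.le
    push_cast
    linarith
  · have x1 : ∑ i ∈ range rs.length, (ρ i).w * m i j ≤ 4096 := by
      rw [hm]
      by_cases h3 : j < n
      · simp only [if_pos h3]
        exact sm (fun r => r.w * r.m j) ▸ cm j h3
      · simp only [if_neg h3]
        exact sm (fun r => r.w * r.e) ▸ ce
    have x2 : ∑ i ∈ range rs.length, ((ρ i).w : ℝ) * m i j ≤ 4096 := by exact_mod_cast x1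
    simp only [div_mul_eq_mul_div]
    rw [← sum_div]
    linarith
  · have bh := mul_pos b b1
    have x1 := tsum_slab (k := rs.length) (n := n) (r := q) (O := 2 ^ 30) (c := 8796629893120)
      (w := fun i => (ρ i).w) (A := fun i => (ρ i).a * kKCor_L n R los (ρ i) - (ρ i).c)
      (m := fun i j => (ρ i).a * h * (ρ i).m j) (e := fun i _ => (ρ i).a * h * (ρ i).e)
      (fun i _ => Nat.cast_nonneg _) (fun c hc hq => ?_) u u01 ?_ ?_
    · have x2 : ∀ i ∈ range rs.length, ((ρ i).w : ℝ) * min ((ρ i).a * kKCor_L n R los (ρ i) -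
          (ρ i).c + ∑ j ∈ range n, (u j * ((ρ i).a * h * (ρ i).m j) +
            (1 - u j) * ((ρ i).a * h * (ρ i).e))) (2 ^ 30) ≤
          2 ^ 42 * ((ρ i).w / 4096 * phi (T * B : ℕ) (dot (m i) (pre ++ [a]))) := fun i hi => by
        have y1 := kKCor_phi (hr _ (mem i (mem_range.1 hi))) hB (Nat.cast_nonneg _) (d1 i).1
        have y2 : ((ρ i).a : ℝ) * l (ρ i) - (ρ i).c = (ρ i).a * kKCor_L n R los (ρ i) -
            (ρ i).c + ∑ j ∈ range n, (u j * ((ρ i).a * h * (ρ i).m j) +
              (1 - u j) * ((ρ i).a * h * (ρ i).e)) := by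
          rw [hl', mul_add, ← mul_assoc, mul_sum, add_sub_right_comm]
          exact congrArg _ (sum_congr rfl fun j _ => by ring)
        rw [← y2]
        exact (mul_le_mul_of_nonneg_left y1 (Nat.cast_nonneg (ρ i).w)).trans_eq (by ring)
      have x3 := x1.trans (sum_le_sum x2)
      rw [← mul_sum] at x3
      linarith
    · have y1 := hv c hc hq
      rw [kKCor_sum _ d] at y1
      refine y1.trans (le_of_eq (sum_congr rfl fun i _ => ?_))
      rw [show rs.getD i d = ρ i by rw [hρ]]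
      push_cast
      rw [csum_cast, mul_add, ← mul_assoc, mul_sum, add_sub_right_comm]
      congr 3
      exact sum_congr rfl fun j _ => by ring
    · have : ((los.sum : ℝ) + q * h) * B ≤ pre.sum := by exact_mod_cast q1
      rw [s2] at this
      exact le_of_mul_le_mul_left (by linarith) bh
    · have : (pre.sum : ℝ) ≤ (los.sum + (q + 1) * h) * B := by exact_mod_cast q2
      rw [s2] at this
      exact le_of_mul_le_mul_left (by linarith) bh

theorem kKGb_min (w a c L : ℕ) : (w : ℝ) * 2 ^ 30 - (w * (c + 2 ^ 30) - w * a * L : ℕ) ≤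
    w * min ((a : ℝ) * L - c) (2 ^ 30) := by
  have h0 : (0 : ℝ) ≤ (w * (c + 2 ^ 30) - w * a * L : ℕ) := Nat.cast_nonneg _
  have h1 : (w : ℝ) * (c + 2 ^ 30) ≤ (w * (c + 2 ^ 30) - w * a * L : ℕ) + w * a * L := by
    exact_mod_cast (le_tsub_add : w * (c + 2 ^ 30) ≤ w * (c + 2 ^ 30) - w * a * L + w * a * L)
  rw [mul_min_of_nonneg _ _ (Nat.cast_nonneg w)]
  exact le_min (by linarith) (by linarith)

theorem kKGb_list {α : Type} (w D : α → ℕ) (V : α → ℝ) (h : ∀ r, (w r : ℝ) * 2 ^ 30 - D r ≤ V r)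
    (l : List α) : ((l.map w).sum : ℕ) * (2 : ℝ) ^ 30 - ((l.map D).sum : ℕ) ≤ (l.map V).sum := by
  induction l with
  | nil => simp
  | cons r t ih =>
    have := h r
    simp only [List.map_cons, List.sum_cons, Nat.cast_add]
    linarith

theorem good_zero (U : ℝ) (hU : 0 ≤ U) (t : List ℕ) : GoodL 0 U (1 / 8192) t := by
  refine ⟨3, fun _ => 1, fun _ _ => 0, by omega, fun _ _ => zero_le_one, fun _ _ => by positivity,
    fun _ _ => by simpa [dot] using hU, fun _ _ => by simp, ?_⟩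
  simp [phi, dot]
  norm_num

theorem good_grid {M T S n h R B a q x : ℕ} {los pre : List ℕ} {rs : List Rc} (hB : 0 < B)
    (hh : 0 < h) (hl : los.length = n) (hp : pre.length = n) (hx : Val S n x)
    (hb : Sub B S h x los pre) (hR : R + (los.sum + n * (S * h)) + 1 = M)
    (h1 : M * B ≤ pre.sum + a + B) (h2 : pre.sum + a ≤ M * B)
    (q1 : (los.sum + (ds S n x + q) * h) * B ≤ pre.sum)
    (q2 : pre.sum ≤ (los.sum + (ds S n x + q + 1) * h) * B)
    (hk : rs.length ≤ 15) (hr : ∀ r ∈ rs, r.OK T) (ce : (rs.map fun r => r.w * r.e).sum ≤ 4096)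
    (cm : ∀ j < n, (rs.map fun r => r.w * r.m j).sum ≤ 4096)
    (ok : ∀ r ∈ rs, Rng M T n R (S * h) los r)
    (hv : ∀ β : ℕ → ℕ, (∀ d, β d ≤ 1) →
      ∑ d ∈ range n, β d = q ∨ ∑ d ∈ range n, β d = q + 1 →
      (rs.map (dfc S n R h los (x + off S n β))).sum + 8796629893120 ≤
        (rs.map fun r => r.w).sum * 2 ^ 30) :
    GoodL (T * B : ℕ) (M * B : ℕ) (1 / 8192) (pre ++ [a]) := by
  obtain ⟨g, hg⟩ : ∃ g : ℕ → ℕ, ∀ d < n, dig S d x + g d + 1 = S :=
    ⟨fun d => S - 1 - dig S d x, fun d hd => by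
      have := hx.2 d hd
      dsimp only
      omega⟩
  obtain ⟨l, l1, l2⟩ : ∃ l : List ℕ, l.length = n ∧
      ∀ j < n, l.getD j 0 = los.getD j 0 + dig S (n - 1 - j) x * h :=
    ⟨(List.range n).map fun j => los.getD j 0 + dig S (n - 1 - j) x * h, by simp, fun j hj => by
      rw [List.getD_eq_getElem _ _ (by simpa using hj)]
      simp⟩
  have s0 : ∀ t : List ℕ, t.length = n → t.sum = ∑ j ∈ range n, t.getD j 0 := fun t ht => by
    have := kKCor_sum id 0 t
    rwa [List.map_id, ht] at this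
  have s1 : l.sum = los.sum + ds S n x * h := by
    rw [s0 l l1, s0 los hl, ds, ← sum_range_reflect (fun d => dig S d x), sum_mul, ← sum_add_distrib]
    exact sum_congr rfl fun j hj => l2 j (mem_range.1 hj)
  have s2 : ds S n x + ∑ d ∈ range n, g d + n = n * S := by
    have := sum_congr rfl fun d (hd : d ∈ range n) => hg d (mem_range.1 hd)
    simpa only [ds, sum_add_distrib, sum_const, card_range, smul_eq_mul, mul_one] using this
  have s3 : ∀ r : Rc, kKCor_L n (R + (∑ d ∈ range n, g d) * h) l r = kKCor_L n R los r +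
      h * ∑ d ∈ range n, (r.m (n - 1 - d) * dig S d x + r.e * g d) := fun r => by
    have e1 : ∑ j ∈ range n, r.m j * l.getD j 0 = ∑ j ∈ range n, r.m j * los.getD j 0 +
        h * ∑ d ∈ range n, r.m (n - 1 - d) * dig S d x := by
      rw [← sum_range_reflect (fun d => r.m (n - 1 - d) * dig S d x), mul_sum, ← sum_add_distrib]
      refine sum_congr rfl fun j hj => ?_
      have := mem_range.1 hj
      rw [l2 j this, show n - 1 - (n - 1 - j) = j by omega]
      ring
    rw [kKCor_L, kKCor_L, e1, sum_add_distrib, ← mul_sum]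
    ring
  refine kKGb_good (los := l) (R := R + (∑ d ∈ range n, g d) * h) (q := q) hB hh l1 hp
    (fun j hj => ?_) ?_ h1 h2 ?_ ?_ hk hr ce cm (fun r hm => ?_) fun i _ hi => ?_
  · have := hb j (hl ▸ hj)
    rwa [hl, ← l2 j hj] at this
  · rw [s1, ← hR, ← mul_assoc, ← s2]
    ring
  · rw [s1, add_assoc, ← add_mul]
    exact q1
  · rw [s1, add_assoc, ← add_mul, ← add_assoc]
    exact q2
  · obtain ⟨o1, o2⟩ := ok r hm
    have e1 : ∑ d ∈ range n, (r.m (n - 1 - d) * dig S d x + r.e * g d) +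
        ∑ j ∈ range n, max (r.m j) r.e ≤ S * ∑ j ∈ range n, max (r.m j) r.e := by
      rw [← sum_range_reflect (fun j => max (r.m j) r.e), ← sum_add_distrib, mul_sum]
      refine sum_le_sum fun d hd => ?_
      have x1 := Nat.mul_le_mul_right (dig S d x) (le_max_left (r.m (n - 1 - d)) r.e)
      have x2 := Nat.mul_le_mul_right (g d) (le_max_right (r.m (n - 1 - d)) r.e)
      have x3 := congrArg (· * max (r.m (n - 1 - d)) r.e) (hg d (mem_range.1 hd))
      nlinarith
    have e2 := Nat.mul_le_mul_left h e1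
    rw [s3]
    exact ⟨by omega, by
      nlinarith [Nat.zero_le (S * h * r.e), Nat.zero_le (∑ j ∈ range n, max (r.m j) r.e)]⟩
  obtain ⟨β, b1, b2⟩ : ∃ β : ℕ → ℕ, (∀ d, β d ≤ 1) ∧
      ∀ d, β d = if i.testBit (n - 1 - d) then 1 else 0 :=
    ⟨fun d => if i.testBit (n - 1 - d) then 1 else 0, fun d => by dsimp only; split_ifs <;> omega,
      fun _ => rfl⟩
  have t1 : ∑ d ∈ range n, β d = pop n i := by
    rw [pop, csum, ← sum_range_reflect (fun l => if i.testBit l then 1 else 0)]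
    exact sum_congr rfl fun d _ => b2 d
  have t2 := (dig_off (β := β) hx.1 fun d hd => by have := hg d hd; have := b1 d; omega).2
  have t3 : S * n - ds S n (x + off S n β) = ∑ d ∈ range n, (g d + (1 - β d)) := by
    refine Nat.sub_eq_of_eq_add ?_
    rw [ds, ← sum_add_distrib, mul_comm, ← smul_eq_mul, ← card_range n, ← sum_const, card_range]
    refine sum_congr rfl fun d hd => ?_
    have := hg d (mem_range.1 hd)
    have := b1 d
    rw [t2 d (mem_range.1 hd)]
    omega
  have t4 : ∀ r : Rc, kKCor_L n (R + (∑ d ∈ range n, g d) * h) l r +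
      h * csum r.m (fun _ => r.e) n i = kKCor_L n R los r + h * dvx S n r (x + off S n β) :=
    fun r => by
      rw [s3, add_assoc, ← mul_add, dvx, t3, csum,
        ← sum_range_reflect (fun l => if i.testBit l then r.m l else r.e), mul_sum,
        ← sum_add_distrib, ← sum_add_distrib]
      congr 2
      refine sum_congr rfl fun d hd => ?_
      rw [t2 d (mem_range.1 hd), b2]
      split_ifs <;> ring
  have t5 : ((rs.map (dfc S n R h los (x + off S n β))).sum : ℕ) + (8796629893120 : ℝ) ≤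
      ((rs.map fun r => r.w).sum : ℕ) * 2 ^ 30 := by exact_mod_cast hv β b1 (t1 ▸ hi)
  simp only [t4]
  exact (le_sub_iff_add_le'.2 t5).trans (kKGb_list (fun r => r.w) (dfc S n R h los (x + off S n β)) _
    (fun r => kKGb_min r.w r.a r.c _) rs)

end Pool.Agent.Work.MP_82fd4a_nt.P.G
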