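import Pool.Agent.Work.MP_82fd4a_nt.P.KGp

/-! The grid: the defects at all the points. -/

set_option autoImplicit false
open Finset

namespace Pool.Agent.Work.MP_82fd4a_nt.P.G

open BS Y

theorem kKGc_cons (O X p : ℕ) (k : ℕ → ℕ → ℕ) (y lo hi c d D z : ℕ) (t : Ce) (V b : ℕ) :
    gc1 O X p k (Ce.cons y lo hi c d D z t) V b =
      gc2 O (gc1 O X p k t) lo hi c d D V b ((X * y) >>> p % 18446744073709551616) := rfl

theorem kKGc_gc2 (O : ℕ) (k : ℕ → ℕ → ℕ) (lo hi c d D V b u : ℕ) :
    gc2 O k lo hi c d D V b u = if c ≤ u then k V (b + (lo - u) + (u - hi)) else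
      k (V + vk O ((d - u) * O - D)) (b + (lo - u) + (u - hi)) := by
  have e : gc2 O k lo hi c d D V b u = Bool.rec
      (k (V + vk O ((d - u) * O - D)) (b + (lo - u) + (u - hi))) (k V (b + (lo - u) + (u - hi)))
      (Nat.ble c u) := rfl
  rw [e]
  cases h : Nat.ble c u
  · rw [if_neg (Nat.not_le_of_not_ble_eq_true (by simp [h]))]
  · rw [if_pos (Nat.le_of_ble_eq_true h)]

theorem kKGc_prp (M T S n h H w a c e y dg D : ℕ) (t : Ce) :
    prp M T S n h H (Ce.cons w a c e y dg D t) =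
      pr1 M T S n h H e y dg (prp M T S n h H t) (w * a) (w * (c + 1073741824)) := rfl

theorem kKGc_pr1 (M T S n h H e y dg a c : ℕ) (t : Ce) : pr1 M T S n h H e y dg t a c =
    Ce.cons (a * (y <<< 64 + e)) ((a * T + 1) / 2 + (1 - a) + (a >>> 40 + c >>> 50) <<< 64)
      (a * (M - H * dg)) c (9223372036854775808 + c) (a * h * dgr S n e y) 0 t := rfl

theorem kKGc_dig {n R a T : ℕ} {los : List ℕ} {r : Rc} (hn : n ≤ 14) (hl : los.length = n)
    (h1 : ∀ x ∈ los, x ≤ 32768) (hR : R ≤ 32768) (hr : r.OK T) (ha : a < 2 ^ 40) :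
    ((pk los + R <<< (64 * n)) *
      (a * ((∑ j ∈ range n, r.m j * 2 ^ (64 * (n - 1 - j))) <<< 64 + r.e))) >>> (64 * n) %
        18446744073709551616 = a * kKCor_L n R los r := by
  obtain ⟨x, x0, x1, xb⟩ : ∃ x : ℕ → ℕ, (∀ i < n, x i = los.getD i 0) ∧ x n = R ∧
      ∀ i, x i ≤ 32768 := by
    refine ⟨fun i => if i < n then los.getD i 0 else R, fun i hi => if_pos hi,
      if_neg (lt_irrefl _), fun i => ?_⟩
    beta_reduce
    split_ifs with hi
    · rw [List.getD_eq_getElem _ _ (hl ▸ hi)]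
      exact h1 _ (List.getElem_mem _)
    · exact hR
  obtain ⟨g, g0, g1, gb⟩ : ∃ g : ℕ → ℕ, g 0 = r.e ∧ (∀ i, g (i + 1) = r.m (n - 1 - i)) ∧
      ∀ i, g i ≤ 15 := by
    refine ⟨fun i => Nat.rec r.e (fun i _ => r.m (n - 1 - i)) i, rfl, fun _ => rfl, ?_⟩
    rintro (_ | i)
    · exact Nat.le_of_lt_succ hr.e
    · exact Nat.le_of_lt_succ (hr.m _)
  have e1 : pk los + R <<< (64 * n) = pack 64 (n + 1) x := by
    rw [pack_succ', x1, kKDt_pk, hl, Nat.shiftLeft_eq, pack]
    exact congrArg (· + _) (sum_congr rfl fun i hi => by rw [x0 i (mem_range.1 hi), pow_mul])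
  have e2 : (∑ j ∈ range n, r.m j * 2 ^ (64 * (n - 1 - j))) <<< 64 + r.e = pack 64 (n + 1) g := by
    rw [pack_succ, g0, Nat.shiftLeft_eq, mul_comm, pack, ← sum_range_reflect]
    refine congrArg (2 ^ 64 * · + _) (sum_congr rfl fun i hi => ?_)
    have := mem_range.1 hi
    rw [g1, show n - 1 - (n - 1 - i) = i by omega]
  have e3 : ∀ i k, ∑ j ∈ range (n + 1), (if i + j = k then x i * g j else 0) ≤ 32768 * 15 := by
    intro i k
    by_cases h : ∃ j ∈ range (n + 1), i + j = k
    · obtain ⟨j, hj, h⟩ := h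
      rw [sum_eq_single_of_mem j hj fun j' _ hne => if_neg (by omega), if_pos h]
      exact Nat.mul_le_mul (xb _) (gb _)
    · rw [sum_eq_zero fun j hj => if_neg fun e => h ⟨j, hj, e⟩]
      exact Nat.zero_le _
  rw [e1, e2, mul_left_comm, pack_mul, pack_smul, show 18446744073709551616 = 2 ^ 64 by norm_num,
    pack_lane (by omega) fun k _ => ?_]
  · refine congrArg (a * ·) ?_
    rw [sum_range_succ, kKCor_L, sum_eq_single_of_mem (s := range (n + 1)) 0 (by simp)
      fun j _ hne => if_neg (by omega), if_pos (Nat.add_zero n), x1, g0, mul_comm R]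
    refine congrArg (· + _) (sum_congr rfl fun i hi => ?_)
    have := mem_range.1 hi
    rw [sum_eq_single_of_mem (n - 1 - i + 1) (mem_range.2 (by omega))
      fun j _ hne => if_neg (by omega), if_pos (by omega), x0 i this, g1,
      show n - 1 - (n - 1 - i) = i by omega, mul_comm]
  · have h2 := sum_le_card_nsmul (range (n + 1)) _ _ fun i _ => e3 i k
    rw [card_range, smul_eq_mul] at h2
    have h3 := Nat.mul_le_mul ha.le (h2.trans (Nat.mul_le_mul_right _ (Nat.succ_le_succ hn)))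
    exact h3.trans_lt (by norm_num)

theorem kKGc_dvx (S n : ℕ) (r : Rc) (v : ℕ) :
    dvx S n r v ≤ S * ∑ j ∈ range n, max (r.m j) r.e := by
  have e : S * n - ds S n v = ∑ d ∈ range n, (S - dig S d v) := by
    rw [sum_tsub_distrib _ fun d _ => dig_le S d v, sum_const, card_range, smul_eq_mul, mul_comm]
    rfl
  rw [dvx, e, ← sum_range_reflect (fun j => max (r.m j) r.e), mul_sum, mul_sum, ← sum_add_distrib]
  refine sum_le_sum fun d _ => ?_
  obtain ⟨s, hs⟩ := Nat.exists_eq_add_of_le (dig_le S d v)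
  generalize dig S d v = q at hs ⊢
  have a1 := Nat.mul_le_mul_right s (le_max_right (r.m (n - 1 - d)) r.e)
  have a2 := Nat.mul_le_mul_right q (le_max_left (r.m (n - 1 - d)) r.e)
  rw [hs, Nat.add_sub_cancel_left, mul_comm (q + s), mul_add]
  omega

theorem gc1_zero {O X p : ℕ} {k : ℕ → ℕ → ℕ} (hk : ∀ V b, k V b < BAD → b = 0) (ce : Ce)
    {V b : ℕ} (H : gc1 O X p k ce V b < BAD) : b = 0 := by
  induction ce generalizing V b with
  | nil => exact hk V b H
  | cons y lo hi c d D z t ih =>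
    rw [kKGc_cons, kKGc_gc2] at H
    split_ifs at H <;> have := ih H <;> omega

theorem gc1_spec {M T S n h R : ℕ} {los : List ℕ} {k : ℕ → ℕ → ℕ} (hT : 0 < T) (hn : n ≤ 14)
    (hl : los.length = n) (h1 : ∀ x ∈ los, x ≤ 32768) (hM : M ≤ 32768) (hR : R ≤ 32768)
    (hk : ∀ V b, k V b < BAD → b = 0) {rs : List Rc} (hr : ∀ r ∈ rs, r.OK T) {f : ℕ → ℕ} {b y : ℕ}
    (hy : y = gc1 (onv S n) (pk los + R <<< (64 * n)) (64 * n) k
      (prp M T S n h (S * h + 1) (mkCe n rs)) (pack 64 ((S + 1) ^ n) f) b) (H : y < BAD) :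
    (∀ r ∈ rs, Rng M T n R (S * h) los r ∧ r.w * (r.c + 2 ^ 30) < 2 ^ 50) ∧
      y = k (pack 64 ((S + 1) ^ n) fun v => f v + (rs.map (dfc S n R h los v)).sum) 0 := by
  induction rs generalizing f b with
  | nil =>
    have e : y = k (pack 64 ((S + 1) ^ n) f) b := hy
    obtain rfl := hk _ _ (e ▸ H)
    exact ⟨by simp, by simpa using e⟩
  | cons r t ih =>
    have h0 := hr r List.mem_cons_self
    have ht : ∀ r ∈ t, r.OK T := fun r h => hr r (List.mem_cons_of_mem _ h)
    rw [mkCe_cons, kKGc_prp, kKGc_pr1, kKGc_cons, kKGc_gc2,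
      show 1073741824 = 2 ^ 30 by norm_num] at hy
    have hd := fun ha => kKGc_dig (a := r.w * r.a) hn hl h1 hR h0 ha
    generalize hu : ((pk los + R <<< (64 * n)) * (r.w * r.a *
      ((∑ j ∈ range n, r.m j * 2 ^ (64 * (n - 1 - j))) <<< 64 + r.e))) >>> (64 * n) %
        18446744073709551616 = u at hy hd
    have u1 : u < 18446744073709551616 := hu ▸ Nat.mod_lt _ (by norm_num)
    have hdf : ∀ v, dfc S n R h los v r = r.w * (r.c + 2 ^ 30) -
        (r.w * r.a * kKCor_L n R los r + r.w * r.a * h * dvx S n r v) := fun v => by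
      rw [dfc, mul_add (r.w * r.a), ← mul_assoc]
    generalize hc : r.w * (r.c + 2 ^ 30) = c at hy hdf
    generalize r.w * r.a = a at hy hd hdf
    have z : b + ((a * T + 1) / 2 + (1 - a) + (a >>> 40 + c >>> 50) <<< 64 - u) +
        (u - a * (M - (S * h + 1) * (r.e + ∑ j ∈ range n, max (r.m j) r.e))) = 0 := by
      rw [hy] at H
      split_ifs at H <;> exact gc1_zero hk _ H
    rw [z] at hy
    simp only [Nat.shiftLeft_eq, Nat.shiftRight_eq_div_pow] at z
    have a1 : a < 2 ^ 40 := by omega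
    have c1 : c < 2 ^ 50 := by omega
    have a0 : 0 < a := by
      rcases a.eq_zero_or_pos with rfl | h2
      · rw [zero_mul, zero_mul] at z
        omega
      · exact h2
    obtain rfl := hd a1
    have r1 : T ≤ 2 * kKCor_L n R los r :=
      Nat.le_of_mul_le_mul_left (by rw [mul_left_comm]; omega) a0
    have r2 : kKCor_L n R los r ≤ M - (S * h + 1) * (r.e + ∑ j ∈ range n, max (r.m j) r.e) :=
      Nat.le_of_mul_le_mul_left (by omega) a0
    have r3 : kKCor_L n R los r + (S * h + 1) * (r.e + ∑ j ∈ range n, max (r.m j) r.e) ≤ M := by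
      omega
    have key : ∀ g : ℕ → ℕ, (∀ v, g v = f v + dfc S n R h los v r) →
        y = gc1 (onv S n) (pk los + R <<< (64 * n)) (64 * n) k
          (prp M T S n h (S * h + 1) (mkCe n t)) (pack 64 ((S + 1) ^ n) g) 0 →
        (∀ r' ∈ r :: t, Rng M T n R (S * h) los r' ∧ r'.w * (r'.c + 2 ^ 30) < 2 ^ 50) ∧
          y = k (pack 64 ((S + 1) ^ n) fun v => f v + ((r :: t).map (dfc S n R h los v)).sum) 0 := by
      intro g hg e
      obtain ⟨i1, i2⟩ := ih ht e
      refine ⟨List.forall_mem_cons.2 ⟨⟨⟨r1, r3⟩, hc ▸ c1⟩, i1⟩, i2.trans (congrArg (k · 0)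
        (pack_congr fun v _ => ?_))⟩
      rw [List.map_cons, List.sum_cons, hg, add_assoc]
    split_ifs at hy with c2
    · exact key f (fun v => by rw [hdf]; omega) hy
    · have hb : ∀ v, a * h * dvx S n r v ≤ 2 ^ 40 * 32768 := fun v => by
        have b1 := Nat.mul_le_mul_left h (kKGc_dvx S n r v)
        rw [add_mul, mul_add, mul_comm S h, mul_assoc, mul_assoc] at r3
        rw [mul_assoc]
        exact Nat.mul_le_mul a1.le (by omega)
      rw [dgr_eq h0.m, pack_smul] at hy
      have e : vk (onv S n) ((9223372036854775808 + c - a * kKCor_L n R los r) * onv S n -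
          pack 64 ((S + 1) ^ n) fun v => a * h * dvx S n r v) =
            pack 64 ((S + 1) ^ n) fun v => dfc S n R h los v r := by
        rw [onv_eq, pack_smul, pack_sub fun v _ => by have := hb v; omega,
          vk_eq fun v _ => by omega]
        exact pack_congr fun v _ => by rw [hdf]; omega
      rw [e, pack_add] at hy
      exact key _ (fun v => rfl) hy

end Pool.Agent.Work.MP_82fd4a_nt.P.G
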