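import Pool.Agent.Work.MP_82fd4a_nt.P.KGp

/-! The grid: bits of the slabs. -/

set_option autoImplicit false
open Finset

namespace Pool.Agent.Work.MP_82fd4a_nt.P.G

open BS Y

theorem kKGd_dpv {S F : ℕ} {β : ℕ → ℕ} (hβ : ∀ d, β d ≤ 1) (k x : ℕ)
    (h : F.testBit (64 * (x + off S k β)) = true) :
    (dpv S F k).testBit (64 * x + ∑ d ∈ range k, β d) = true := by
  induction k generalizing x with
  | zero => exact h
  | succ k ih =>
    have e : dpv S F (k + 1) = dpv S F k ||| dpv S F k >>> (64 * (S + 1) ^ k - 1) := rfl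
    have p : 0 < (S + 1) ^ k := by positivity
    rw [off, sum_range_succ, ← off, add_comm (off S k β), ← add_assoc] at h
    have i := ih _ h
    rw [e, Nat.testBit_or, Nat.testBit_shiftRight, Bool.or_eq_true, sum_range_succ]
    rcases Nat.le_one_iff_eq_zero_or_eq_one.1 (hβ k) with b | b <;> rw [b] at i ⊢
    · exact .inl (by simpa using i)
    · exact .inr (i ▸ congrArg _ (by omega))

theorem sbv_spec {S n V x r : ℕ} {β : ℕ → ℕ} (hβ : ∀ d, β d ≤ 1)
    (hs : ∑ d ∈ range n, β d = r ∨ ∑ d ∈ range n, β d = r + 1)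
    (hx : x + off S n β < (S + 1) ^ n) (h : V.testBit (64 * (x + off S n β) + 63) = true) :
    (sbv S n (onv S n) V).testBit (64 * x + r) = true := by
  have e : sbv S n (onv S n) V = dpv S (V >>> 63 &&& onv S n) n |||
      dpv S (V >>> 63 &&& onv S n) n >>> 1 := rfl
  have k := kKGd_dpv (S := S) (F := V >>> 63 &&& onv S n) hβ n x (by
    rw [Nat.testBit_and, Nat.testBit_shiftRight, add_comm 63, h, onv_eq]
    exact pack_bit (r := 0) (fun _ _ => by norm_num) hx (by norm_num))
  rw [e, Nat.testBit_or, Nat.testBit_shiftRight, Bool.or_eq_true]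
  rcases hs with hs | hs <;> rw [hs] at k
  · exact .inl k
  · exact .inr (by rwa [add_comm 1, add_assoc])

theorem kKGd_wsm (n : ℕ) (rs : List Rc) : wsm (mkCe n rs) = (rs.map fun r => r.w).sum := by
  induction rs with
  | nil => rfl
  | cons r t ih => exact congrArg (r.w + ·) ih

theorem bsv_eq (S n : ℕ) (rs : List Rc) : bsv S n (mkCe n rs) = pack 64 ((S + 1) ^ n) fun _ =>
    9223380833484668927 - (rs.map fun r => r.w).sum * 2 ^ 30 := by
  have e : ∀ c, bsv S n c = (9223380833484668927 - wsm c <<< 30) * onv S n := fun _ => rfl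
  rw [e, kKGd_wsm, onv_eq, F.kKFd_const, Nat.shiftLeft_eq]

theorem kKGd_kbt (U h m W : ℕ) : kbt U h m W = pack 1 m fun t =>
    1 - (1 - W >>> (t * h / U) % 2 ^ ((t * h + h - 1) / U + 1 - t * h / U)) := blk_eq _ _ _

theorem kKGd_lt (U h m W : ℕ) : kbt U h m W < 2 ^ m := by
  have := pack_lt (W := 1) (n := m) (f := fun t =>
    1 - (1 - W >>> (t * h / U) % 2 ^ ((t * h + h - 1) / U + 1 - t * h / U))) fun _ _ => by omega
  rwa [one_mul, ← kKGd_kbt] at this

theorem kKGd_bit {U h m W t j : ℕ} (ht : t < m) (h1 : t * h / U ≤ j)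
    (h2 : j ≤ (t * h + h - 1) / U) (hj : W.testBit j = true) : (kbt U h m W).testBit t = true := by
  have k := pack_bit (W := 1) (N := m) (r := 0) (f := fun t =>
    1 - (1 - W >>> (t * h / U) % 2 ^ ((t * h + h - 1) / U + 1 - t * h / U)))
    (fun _ _ => by omega) ht one_pos
  rw [one_mul, add_zero, ← kKGd_kbt] at k
  have b : (W >>> (t * h / U) % 2 ^ ((t * h + h - 1) / U + 1 - t * h / U)).testBit
      (j - t * h / U) = true := by
    rw [Nat.testBit_mod_two_pow, Nat.testBit_shiftRight, Nat.add_sub_cancel' h1, hj,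
      Bool.and_true, decide_eq_true_eq]
    omega
  have := Nat.ge_two_pow_of_testBit b
  have := Nat.two_pow_pos (j - t * h / U)
  rw [k, show 1 - (1 - W >>> (t * h / U) % 2 ^ ((t * h + h - 1) / U + 1 - t * h / U)) = 1 by omega]
  rfl

theorem gz0_spec {P : Par} {B δ n S h K : ℕ} {los his : List ℕ} (hs : Sm P) (hB : 0 < B)
    (hl : los.length = n) (hn : n ≤ 14) (hS : S * n ≤ 32) (hU : los.sum % (P.G / 32) = 0)
    (hK : MI P B δ los his K) : ZI P B δ S h los his (gz0 (P.G / 32) S n h los.sum K) := by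
  intro pre a x r hb hv _ hr h1 h2
  have hk := hK pre a hb
  have U0 := hs.U0
  rw [hl] at hv hr h1 h2
  generalize P.G / 32 = U at hU hk U0 ⊢
  obtain ⟨q, hq⟩ := Nat.dvd_of_mod_eq_zero hU
  have ht : ds S n x + n ≤ S * n := by
    have := sum_le_card_nsmul (range n) (fun d => dig S d x + 1) S fun d hd =>
      hv.2 d (mem_range.1 hd)
    rwa [sum_add_distrib, sum_const, card_range, smul_eq_mul, smul_eq_mul, mul_one,
      mul_comm] at this
  have e : gz0 U S n h los.sum K = (fz (K >>> (los.sum / U) % 2 ^ (S * n * h / U + 1))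
      (kbt U h (S * n)) * pwv S n) >>> (S * n) &&& (2 ^ n - 1) * cmv S n := rfl
  have e2 : pwv S n = pack 64 ((S + 1) ^ n) fun v => 2 ^ (S * n - (0 + ds S n v * 1)) :=
    dsv_eq _ _ _ _ _
  have p1 : 2 ^ n ≤ 2 ^ 14 := Nat.pow_le_pow_right (by norm_num) hn
  have p2 : ∀ m, 2 ^ (S * n - m) ≤ 2 ^ 32 := fun m => Nat.pow_le_pow_right (by norm_num) (by omega)
  have p3 := fun W => (kKGd_lt U h (S * n) W).trans_le (p2 0)
  rw [e, fz_eq, e2, cmv_eq, pack_smul, pack_smul, Nat.testBit_and, Nat.testBit_shiftRight,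
    pack_bit (fun i _ => by split_ifs <;> omega) hv.1 (by omega), if_pos hv.2, mul_one,
    Nat.testBit_two_pow_sub_one, add_left_comm,
    pack_bit (fun i _ => Nat.mul_lt_mul_of_lt_of_le (p3 _) (p2 _) (by norm_num)) hv.1 (by omega),
    Nat.testBit_mul_two_pow, show S * n + r - (S * n - (0 + ds S n x * 1)) = ds S n x + r by omega,
    decide_eq_true hr, decide_eq_true (by omega), Bool.and_true, Bool.true_and]
  have t1 : ds S n x + r < S * n := by omega
  generalize ds S n x + r = t at h1 h2 t1 ⊢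
  have h3 : (los.sum + t * h) / U ≤ pre.sum / (U * B) := by
    rw [← Nat.mul_div_mul_right _ U hB]
    exact Nat.div_le_div_right h1
  have h4 : pre.sum / (U * B) ≤ (los.sum + (t + 1) * h - 1) / U := by
    rw [mul_comm, ← Nat.div_div_eq_div_mul]
    exact Nat.div_le_div_right (Nat.le_sub_one_of_lt ((Nat.div_lt_iff_lt_mul hB).2 h2))
  have h0 : t * h < (t + 1) * h := by
    have := Nat.lt_of_mul_lt_mul_right (h1.trans_lt h2)
    omega
  have h5 : (t * h + h - 1) / U ≤ S * n * h / U := Nat.div_le_div_right (by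
    have := Nat.mul_le_mul_right h (Nat.succ_le_of_lt t1)
    rw [Nat.succ_mul] at this
    omega)
  rw [Nat.add_sub_assoc (by omega), hq, Nat.mul_add_div U0, add_mul, one_mul] at h4
  rw [hq, Nat.mul_add_div U0] at h3
  have h6 := (Nat.le_add_right _ _).trans h3
  refine kKGd_bit (j := pre.sum / (U * B) - q) t1 (by omega) (by omega) ?_
  rw [Nat.testBit_mod_two_pow, Nat.testBit_shiftRight, hq, Nat.mul_div_cancel_left _ U0,
    Nat.add_sub_cancel' h6, hk, Bool.and_true, decide_eq_true_eq]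
  omega

end Pool.Agent.Work.MP_82fd4a_nt.P.G
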