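import Pool.Agent.Work.MP_82fd4a_nt.P.KGa
import Pool.Agent.Work.MP_82fd4a_nt.P.KCv

/-! The grid: masses. -/

set_option autoImplicit false
open Finset

namespace Pool.Agent.Work.MP_82fd4a_nt.P.G

open BS Y

/-- the sum over the small boxes -/
def Cq (S : ℕ) (w : ℕ → ℕ → ℕ) : List ℕ → (ℕ → ℕ) → ℕ
  | [], A => A 0
  | a :: l, A => ∑ i ∈ range S, w a i * Cq S w l fun x => A (x + (S + 1) ^ l.length * i)

/-- the sum over the pieces of a small box -/
def Rq (s : ℕ) (ρ : ℕ → ℕ → ℕ) : List ℕ → (ℕ → ℕ) → ℕ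
  | [], F => F 0
  | a :: l, F => ∑ k ∈ range s, ρ a k * Rq s ρ l fun σ => F (k + σ)

/-- the mass of a side of a small box -/
def wt (h a i : ℕ) : ℕ := cdv (8192 * (2 * a + h)) (2 * a + h + i * (2 * h))

/-- the mass of a piece -/
def rh (D h u a k : ℕ) : ℕ :=
  tau (2 * a) (2 * (a + D)) h (2 * u) k + tau (2 * a) (2 * (a + D)) h (2 * u) (k + 1)

theorem kKGe_val {S n x i : ℕ} (hx : Val S n x) (hi : i < S) :
    Val S (n + 1) (x + (S + 1) ^ n * i) ∧ ds S (n + 1) (x + (S + 1) ^ n * i) = ds S n x + i := by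
  refine ⟨⟨?_, fun d hd => ?_⟩, ?_⟩
  · have h1 := hx.1
    have h2 := Nat.mul_le_mul_left ((S + 1) ^ n) (show i + 1 ≤ S + 1 by omega)
    rw [pow_succ]
    rw [mul_add, mul_one] at h2
    omega
  · rcases Nat.lt_succ_iff_lt_or_eq.1 hd with h | rfl
    · rw [dig_low h]
      exact hx.2 d h
    · rwa [dig_top hx.1 hi.le]
  · rw [ds, sum_range_succ, dig_top hx.1 hi.le, sum_congr rfl fun d hd => dig_low (mem_range.1 hd) x i]
    rfl

theorem Cq_mono {S : ℕ} {w : ℕ → ℕ → ℕ} {l : List ℕ} {A A' : ℕ → ℕ}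
    (h : ∀ x, Val S l.length x → A x ≤ A' x) : Cq S w l A ≤ Cq S w l A' := by
  induction l generalizing A A' with
  | nil => exact h 0 ⟨Nat.one_pos, fun d hd => absurd hd d.not_lt_zero⟩
  | cons a l ih =>
    exact sum_le_sum fun i hi => Nat.mul_le_mul_left _
      (ih fun x hx => h _ (kKGe_val hx (mem_range.1 hi)).1)

theorem Cq_sum {ι : Type} (S : ℕ) (w : ℕ → ℕ → ℕ) (l : List ℕ) (t : Finset ι) (c : ι → ℕ)
    (A : ι → ℕ → ℕ) :
    Cq S w l (fun x => ∑ i ∈ t, c i * A i x) = ∑ i ∈ t, c i * Cq S w l (A i) := by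
  induction l generalizing A with
  | nil => rfl
  | cons a l ih =>
    simp only [Cq, mul_sum]
    rw [sum_comm]
    refine sum_congr rfl fun j _ => ?_
    rw [ih fun i x => A i (x + (S + 1) ^ l.length * j), mul_sum]
    exact sum_congr rfl fun i _ => mul_left_comm _ _ _

theorem Cq_smul (S c : ℕ) (w : ℕ → ℕ → ℕ) (l : List ℕ) (A : ℕ → ℕ) :
    Cq S w l (fun x => c * A x) = c * Cq S w l A := by
  simpa only [sum_singleton] using Cq_sum S w l {()} (fun _ => c) fun _ => A

theorem Rq_rep (s : ℕ) (ρ : ℕ → ℕ → ℕ) (l : List ℕ) : ∃ ω : ℕ → ℕ, ∀ F,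
    Rq (s + 1) ρ l F = ∑ σ ∈ range (s * l.length + 1), ω σ * F σ := by
  induction l with
  | nil => exact ⟨fun _ => 1, fun F => by simp [Rq]⟩
  | cons a l ih =>
    obtain ⟨ω, hω⟩ := ih
    refine ⟨fun t => ∑ i ∈ range (s + 1), ∑ σ ∈ range (s * l.length + 1),
      if i + σ = t then ρ a i * ω σ else 0, fun F => ?_⟩
    simp only [Rq, hω, sum_mul, mul_sum]
    rw [sum_comm (s := range (s * (a :: l).length + 1))]
    refine sum_congr rfl fun i hi => ?_
    rw [sum_comm]
    refine sum_congr rfl fun σ hs => ?_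
    rw [mem_range] at hi hs
    simp only [ite_mul, zero_mul, sum_ite_eq, mem_range, List.length_cons]
    rw [if_pos (by rw [mul_add]; omega), mul_assoc]

theorem kKGe_hom (s c : ℕ) (ρ : ℕ → ℕ → ℕ) (l : List ℕ) (F : ℕ → ℕ) :
    Rq s ρ l (fun σ => c * F σ) = c * Rq s ρ l F := by
  induction l generalizing F with
  | nil => rfl
  | cons a l ih =>
    simp only [Rq, mul_sum]
    exact sum_congr rfl fun i _ => by rw [ih fun σ => F (i + σ), mul_left_comm]

theorem Rq_prod (V s : ℕ) (ρ : ℕ → ℕ → ℕ) (l : List ℕ) :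
    (l.map fun a => pack V s (ρ a)).prod = Rq s ρ l fun σ => 2 ^ (V * σ) := by
  induction l with
  | nil => rfl
  | cons a l ih =>
    rw [List.map_cons, List.prod_cons, ih, pack, sum_mul, Rq]
    refine sum_congr rfl fun i _ => ?_
    simp only [mul_add, pow_add]
    rw [kKGe_hom, mul_assoc]

theorem Rq_one {s c : ℕ} {ρ : ℕ → ℕ → ℕ} {l : List ℕ} (h : ∀ a ∈ l, ∀ k, ρ a k ≤ c) :
    Rq s ρ l (fun _ => 1) ≤ (s * c) ^ l.length := by
  induction l with
  | nil => exact le_rfl
  | cons a l ih =>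
    obtain ⟨h1, h3⟩ := List.forall_mem_cons.1 h
    rw [Rq, ← sum_mul, List.length_cons, pow_succ']
    refine Nat.mul_le_mul ((sum_le_card_nsmul _ _ c fun i _ => h1 i).trans ?_) (ih h3)
    rw [card_range, smul_eq_mul]

theorem kKGe_ge (a : ℕ) {b : ℕ} (hb : 0 < b) : a ≤ cdv a b * b := by
  have e : cdv a b = (a + (b - 1)) / b := rfl
  have e1 := Nat.div_add_mod' (a + (b - 1)) b
  have e2 := Nat.mod_lt (a + (b - 1)) hb
  rw [e]
  omega

theorem kKGe_le {a b c : ℕ} (hb : 0 < b) (h : a ≤ c * b) : cdv a b ≤ c := by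
  have e : cdv a b = (a + (b - 1)) / b := rfl
  rw [e]
  refine Nat.le_of_lt_succ ((Nat.div_lt_iff_lt_mul hb).2 ?_)
  rw [Nat.succ_mul]
  omega

theorem kKGe_tau (a d h u i : ℕ) : tau a d h u i =
    max (cdv (65536 * (a + h)) (a + i * u)) (cdv (65536 * (d + h)) (d + i * u)) := by
  have e : ∀ x y : ℕ, mxz x y = max x y := fun x y => by
    change x + (y - x) = _
    omega
  exact e _ _

theorem wt_le {h a : ℕ} (ha : 0 < a) (i : ℕ) : wt h a i ≤ 8192 := by
  exact kKGe_le (by omega) (by omega)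

theorem tau_le {D h u a : ℕ} (ha : 0 < a) (hh : h ≤ a) (k : ℕ) :
    tau (2 * a) (2 * (a + D)) h (2 * u) k ≤ 98304 := by
  rw [kKGe_tau]
  exact max_le (kKGe_le (by omega) (by omega)) (kKGe_le (by omega) (by omega))

theorem kKGe_pc {D h u a i : ℕ} (ha : 0 < a) (hD : i * h ≤ D) (k : ℕ) : (2 * a + h) * 2 ^ 29 ≤
    wt h a i * tau (2 * a) (2 * (a + D)) h (2 * u) k * (2 * (a + i * h + k * u)) := by
  have h1 : 8192 * (2 * a + h) ≤ wt h a i * (2 * a + h + i * (2 * h)) := kKGe_ge _ (by omega)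
  have h2 := (kKGe_ge (65536 * (2 * a + h)) (b := 2 * a + k * (2 * u)) (by omega)).trans
    (Nat.mul_le_mul_right _ ((le_max_left _ _).trans (kKGe_tau _ (2 * (a + D)) _ _ _).ge))
  have h3 := (kKGe_ge (65536 * (2 * (a + D) + h)) (b := 2 * (a + D) + k * (2 * u)) (by omega)).trans
    (Nat.mul_le_mul_right _ ((le_max_right _ _).trans (kKGe_tau (2 * a) _ _ _ _).ge))
  generalize tau _ _ _ _ _ = τ at *
  obtain ⟨j, rfl⟩ := Nat.exists_eq_add_of_le hD
  rw [mul_left_comm i] at h1
  rw [mul_left_comm k] at h2 h3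
  generalize i * h = c at *
  generalize k * u = v at *
  have h4 : 65536 * (2 * a + h + 2 * c) ≤ τ * (2 * (a + c + v)) := by
    rcases le_total τ 65536 with h5 | h5
    · nlinarith [Nat.mul_le_mul_right j h5]
    · nlinarith [Nat.mul_le_mul_right c h5]
  rw [mul_assoc]
  refine le_trans ?_ (Nat.mul_le_mul_left _ h4)
  rw [mul_left_comm]
  omega

theorem log_le {S h u a i : ℕ} (ha : 0 < a) (hi : i < S) (k : ℕ) :
    Real.log (((a + i * h + k * u + u : ℕ) : ℝ) / (a + i * h + k * u : ℕ)) ≤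
      u / ((2 * a + h : ℕ) * 2 ^ 29) * (wt h a i * rh (S * h - h) h u a k : ℕ) := by
  have hD : i * h ≤ S * h - h := by
    have := Nat.mul_le_mul_right h (show i + 1 ≤ S from hi)
    rw [add_mul] at this
    omega
  have h1 := kKGe_pc (u := u) ha hD k
  have h2 := kKGe_pc (u := u) ha hD (k + 1)
  rw [add_mul k, one_mul, ← add_assoc] at h2
  have hb : 0 < a + i * h + k * u := by omega
  have hm : 0 < 2 * a + h := by omega
  rw [rh, mul_add (wt h a i)]
  generalize wt h a i * tau _ _ _ _ k = X at *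
  generalize wt h a i * tau _ _ _ _ (k + 1) = Y at *
  generalize a + i * h + k * u = b at *
  generalize 2 * a + h = m at *
  have l1 : (0 : ℝ) < b := by exact_mod_cast hb
  have l2 : (0 : ℝ) ≤ u := Nat.cast_nonneg _
  have l3 : (0 : ℝ) < m := by exact_mod_cast hm
  have e1 : (1 : ℝ) / (2 * b) ≤ X / (m * 2 ^ 29) := by
    rw [div_le_div_iff₀ (by positivity) (by positivity), one_mul]
    exact_mod_cast h1
  have e2 : (1 : ℝ) / (2 * (b + u)) ≤ Y / (m * 2 ^ 29) := by
    rw [div_le_div_iff₀ (by positivity) (by positivity), one_mul]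
    exact_mod_cast h2
  push_cast
  refine (Real.self_le_sinh_iff.2 (Real.log_nonneg ((one_le_div l1).2 (by linarith)))).trans ?_
  rw [Real.sinh_log (by positivity), show ((b + u) / b - ((b + u) / b : ℝ)⁻¹) / 2 =
    u * (1 / (2 * b) + 1 / (2 * (b + u))) by field_simp; ring, div_mul_eq_mul_div, mul_div_assoc,
    add_div (X : ℝ)]
  exact mul_le_mul_of_nonneg_left (add_le_add e1 e2) l2

theorem bs_grid {P : Par} {B S s u : ℕ} {κ K : ℝ} {μ : ℕ → ℝ} (hz : 0 < P.z) (hκ : 0 ≤ κ)
    (hK : 0 ≤ K) (hm : Mass P B κ μ) {l t : List ℕ} (hb : BoxOK P l t)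
    (he : eqw (S * ((s + 1) * u)) l t = 0) {Ψ : List ℕ → ℝ} {Φ : ℕ → ℕ → ℕ}
    (hF : ∀ p, InB B l t p → ∀ x σ, Val S l.length x → Sub B S ((s + 1) * u) x l p →
      σ ≤ s * l.length → (l.sum + ds S l.length x * ((s + 1) * u) + σ * u) * B ≤ p.sum →
      p.sum + p.length ≤ (l.sum + ds S l.length x * ((s + 1) * u) + σ * u + l.length * u) * B →
      Ψ p ≤ K * Φ x σ) :
    bs B μ l t Ψ ≤ κ ^ l.length * K * (u ^ l.length /
      (((l.map fun a => 2 * a + (s + 1) * u).prod : ℕ) * 2 ^ (29 * l.length))) *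
      (Cq S (wt ((s + 1) * u)) l fun x =>
        Rq (s + 1) (rh (S * ((s + 1) * u) - (s + 1) * u) ((s + 1) * u) u) l (Φ x) : ℕ) := by
  induction hb generalizing Ψ Φ with
  | nil =>
    simpa [bs, Cq, Rq] using hF [] .nil 0 0 ⟨Nat.one_pos, fun d hd => absurd hd d.not_lt_zero⟩
      (fun j hj => absurd hj j.not_lt_zero) (by simp) (by simp [ds]) (by simp)
  | @cons lo hi l t h1 h2 _ h4 _ ih =>
    obtain ⟨rfl, e2⟩ := kCv_eqw _ _ _ _ _ he
    have h0 : 0 < u := Nat.pos_of_mul_pos_left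
      (Nat.pos_of_mul_pos_left (a := S) (b := (s + 1) * u) (by omega))
    rw [bs, kCv_Ico, Cq, Nat.cast_sum, mul_sum]
    refine sum_le_sum fun i hi => ?_
    have hi1 := mem_range.1 hi
    have hi' := Nat.mul_le_mul_right ((s + 1) * u) hi1
    rw [Nat.succ_mul] at hi'
    simp only [Rq]
    rw [kCv_Ico, Cq_sum, mul_sum, Nat.cast_sum, mul_sum]
    refine sum_le_sum fun k hk => ?_
    have hk1 := mem_range.1 hk
    have hk' := Nat.mul_le_mul_right u hk1
    rw [Nat.succ_mul] at hk'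
    have hlog := log_le (h := (s + 1) * u) (u := u) (a := lo) (by omega) hi1 k
    have hih := fun x => @ih e2 (fun p => Ψ (x :: p))
      fun y σ => Φ (y + (S + 1) ^ l.length * i) (k + σ)
    generalize hX : κ ^ l.length * K * (u ^ l.length /
      (((l.map fun a => 2 * a + (s + 1) * u).prod : ℕ) * 2 ^ (29 * l.length))) *
      (Cq S (wt ((s + 1) * u)) l fun x => Rq (s + 1) (rh (S * ((s + 1) * u) - (s + 1) * u)
        ((s + 1) * u) u) l fun σ => Φ (x + (S + 1) ^ l.length * i) (k + σ) : ℕ) = X at hih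
    have X0 : 0 ≤ X := hX ▸ by positivity
    calc _ ≤ ∑ x ∈ Ico ((lo + i * ((s + 1) * u) + k * u) * B)
            ((lo + i * ((s + 1) * u) + k * u + u) * B), μ x * X := by
          refine sum_le_sum fun x hx => mul_le_mul_of_nonneg_left (hih x
            fun p hp y σ hy hs hσ q1 q2 => ?_) (hm.1 x)
          obtain ⟨x1, x2⟩ := mem_Ico.1 hx
          obtain ⟨v1, v2⟩ := kKGe_val hy hi1
          refine hF _ (.cons (le_trans (Nat.mul_le_mul_right B (by omega)) x1)
            (x2.trans_le (Nat.mul_le_mul_right B (by omega))) hp) _ (k + σ) v1 ?_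
            (by rw [List.length_cons, mul_add]; omega) ?_ ?_
          · rintro (_ | j) hj
            · simp only [List.length_cons, Nat.add_sub_cancel, Nat.sub_zero, List.getD_cons_zero,
                dig_top hy.1 hi1.le]
              exact ⟨le_trans (Nat.mul_le_mul_right B (by omega)) x1,
                x2.le.trans (Nat.mul_le_mul_right B (by omega))⟩
            · have hj' : j < l.length := by simpa using hj
              simp only [List.length_cons, List.getD_cons_succ]
              rw [show l.length + 1 - 1 - (j + 1) = l.length - 1 - j by omega, dig_low (by omega)]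
              exact hs j hj'
          all_goals
            simp only [List.length_cons, v2]
            generalize (s + 1) * u = h at *
            simp only [List.sum_cons, List.length_cons, add_mul, one_mul] at x1 x2 q1 q2 ⊢
            omega
      _ ≤ κ * (u / ((2 * lo + (s + 1) * u : ℕ) * 2 ^ 29) * (wt ((s + 1) * u) lo i *
            rh (S * ((s + 1) * u) - (s + 1) * u) ((s + 1) * u) u lo k : ℕ)) * X := by
          rw [← sum_mul]
          exact mul_le_mul_of_nonneg_right ((hm.2 _ _ (by omega) (by omega) (by omega)).trans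
            (mul_le_mul_of_nonneg_left hlog hκ)) X0
      _ = _ := by
          rw [← hX, List.length_cons, List.map_cons, List.prod_cons]
          simp only [Nat.cast_mul]
          ring

end Pool.Agent.Work.MP_82fd4a_nt.P.G
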