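import Pool.Agent.Work.MP_82fd4a_nt.P.KGe
import Pool.Agent.Work.MP_82fd4a_nt.P.KFb

/-! The grid: the programs for the masses. -/

set_option autoImplicit false
open Finset

namespace Pool.Agent.Work.MP_82fd4a_nt.P.G

open BS Y

theorem rhv_eq {V s D h u a : ℕ} (hV : 17 ≤ V) (ha : 0 < a) (hh : h ≤ a) :
    rhv V s D h u a = pack V s (rh D h u a) := by
  have e : rhv V s D h u a = blk V (tau (2 * a) (2 * (a + D)) h (2 * u)) (s + 1) % 2 ^ (V * s) +
      blk V (tau (2 * a) (2 * (a + D)) h (2 * u)) (s + 1) >>> V := rfl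
  have hb : ∀ i < s + 1, tau (2 * a) (2 * (a + D)) h (2 * u) i < 2 ^ V := fun i _ =>
    (tau_le ha hh i).trans_lt
      (lt_of_lt_of_le (by norm_num) (Nat.pow_le_pow_right (by norm_num) hV))
  have h1 := pack_shiftRight 1 hb
  rw [mul_one, Nat.add_sub_cancel] at h1
  rw [e, blk_eq, pack_mod s (by omega) hb, h1, pack_add]
  rfl

theorem kKGf_up (y t : ℕ) : y ≤ 2 ^ t * (y / 2 ^ t + 1) :=
  (Nat.lt_mul_div_succ y (Nat.two_pow_pos t)).le

theorem kKGf_idx {N S x i : ℕ} (hx : x < N) (hi : i < S + 1) : x + N * i < N * (S + 1) := by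
  have := Nat.mul_le_mul_left N (Nat.le_of_lt_succ hi)
  rw [Nat.mul_succ]
  omega

theorem kKGf_win (i m k y : ℕ) : ∑ j ∈ range m, (if i + j = k then y else 0) =
    if i ≤ k ∧ k < i + m then y else 0 := by
  split_ifs with h
  · rw [sum_eq_single (k - i)]
    · rw [if_pos (by omega)]
    · intro j _ hj
      rw [if_neg (by omega)]
    · intro hn
      exact absurd (mem_range.2 (by omega)) hn
  · exact sum_eq_zero fun j hj => by
      have := mem_range.1 hj
      rw [if_neg (by omega)]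

theorem kKGf_mul (N S : ℕ) (A w : ℕ → ℕ) :
    pack 64 (N * (S + 1)) A * pack (64 * N) S w = pack 64 (N * (S + 1 + S)) fun y =>
      ∑ i ∈ range (S + 1), ∑ i' ∈ range S,
        if i + i' = y / N then w i' * A (y % N + N * i) else 0 := by
  have e1 : pack 64 (N * (S + 1)) A =
      pack (64 * N) (S + 1) fun i => pack 64 N fun x => A (x + N * i) := by
    rw [pack_blk]
    exact pack_congr fun y _ => by rw [Nat.mod_add_div]
  rw [e1, pack_mul, ← pack_blk 64 N (S + 1 + S) fun k x => ∑ i ∈ range (S + 1), ∑ i' ∈ range S,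
    if i + i' = k then w i' * A (x + N * i) else 0]
  refine pack_congr fun k _ => ?_
  rw [← pack_sum]
  refine sum_congr rfl fun i _ => ?_
  rw [← pack_sum]
  refine sum_congr rfl fun i' _ => ?_
  split_ifs
  · rw [mul_comm, pack_smul]
  · rw [pack_const_zero]

theorem kKGf_bd {N S k x c : ℕ} {A w : ℕ → ℕ} (hx : x < N) (hw : ∀ i, w i ≤ 8192)
    (hA : ∀ y < N * (S + 1), A y ≤ c) : ∑ i ∈ range (S + 1), ∑ i' ∈ range S,
      (if i + i' = k then w i' * A (x + N * i) else 0) ≤ S * (8192 * c) := by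
  rw [sum_comm]
  refine (sum_le_card_nsmul _ _ (8192 * c) fun i' _ => ?_).trans_eq (by simp)
  calc _ ≤ ∑ i ∈ range (S + 1), (if i' + i = k then 8192 * c else 0) := by
        refine sum_le_sum fun i hi => ?_
        rw [add_comm i i']
        split_ifs
        · exact Nat.mul_le_mul (hw _) (hA _ (kKGf_idx hx (mem_range.1 hi)))
        · exact le_rfl
    _ ≤ 8192 * c := by
        rw [kKGf_win]
        split_ifs
        · exact le_rfl
        · exact Nat.zero_le _

theorem kKGf_diag (S : ℕ) (w B : ℕ → ℕ) : ∑ i ∈ range (S + 1 + 1), ∑ i' ∈ range (S + 1),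
      (if i + i' = S then w (S + 1 - (i' + 1)) * B i else 0) =
    ∑ i ∈ range (S + 1), w i * B i := by
  rw [sum_range_succ, sum_eq_zero fun i' _ => if_neg (by omega), add_zero]
  refine sum_congr rfl fun i hi => ?_
  have := mem_range.1 hi
  rw [sum_eq_single (S - i)]
  · rw [if_pos (by omega), show S + 1 - (S - i + 1) = i by omega]
  · intro j _ hj
    rw [if_neg (by omega)]
  · intro hn
    exact absurd (mem_range.2 (by omega)) hn

theorem ctr_eq {S g h j a c : ℕ} {A : ℕ → ℕ} (hS : S = 2 ^ g) (hg : g ≤ 3) (ha : 0 < a)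
    (hc : c ≤ 2 ^ 47 + 14) (hA : ∀ x < (S + 1) ^ (j + 1), A x ≤ c) :
    ((pack 64 ((S + 1) ^ (j + 1)) A * wts S h j a) >>> shv S (g + 13) j &&& msv S (g + 13) j) +
      onv S j = pack 64 ((S + 1) ^ j) fun x =>
        (∑ i ∈ range S, wt h a i * A (x + (S + 1) ^ j * i)) / 2 ^ (g + 13) + 1 := by
  have hS8 : S ≤ 8 := by
    rw [hS]
    exact (Nat.pow_le_pow_right (by norm_num) hg).trans (by norm_num)
  obtain ⟨S', rfl⟩ : ∃ S', S = S' + 1 := ⟨S - 1, by have := Nat.two_pow_pos g; omega⟩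
  have e1 : wts (S' + 1) h j a = blk (64 * (S' + 1 + 1) ^ j)
      (fun i => wt h a (S' + 1 - (i + 1))) (S' + 1) := rfl
  have e2 : shv (S' + 1) (g + 13) j = 64 * (S' + 1 + 1) ^ j * S' + (g + 13) := rfl
  have e3 : msv (S' + 1) (g + 13) j = (2 ^ (64 - (g + 13)) - 1) * onv (S' + 1) j := rfl
  rw [e1, e2, e3, onv_eq, blk_eq, F.kKFd_const, pow_succ]
  rw [pow_succ] at hA
  have hN : 0 < (S' + 1 + 1) ^ j := by positivity
  generalize (S' + 1 + 1) ^ j = N at hA hN ⊢
  have hlt : 2 ^ (64 - (g + 13)) - 1 < 2 ^ 64 :=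
    lt_of_lt_of_le (Nat.sub_lt (Nat.two_pow_pos _) one_pos)
      (Nat.pow_le_pow_right (by norm_num) (Nat.sub_le _ _))
  rw [kKGf_mul N (S' + 1), F.kKFd_land fun _ _ => hlt, pack_add]
  refine pack_congr fun x hx => ?_
  rw [Nat.and_two_pow_sub_one_eq_mod,
    Nat.mod_mod_of_dvd _ (Nat.pow_dvd_pow 2 (Nat.sub_le 64 (g + 13))), ← Nat.shiftRight_add,
    show 64 * N * S' + (g + 13) + 64 * x = 64 * (x + N * S') + (g + 13) by ring,
    pack_cut (fun y _ => ?_) ?_ (by omega), Nat.add_mul_div_left _ _ hN, Nat.add_mul_mod_self_left,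
    Nat.div_eq_of_lt hx, Nat.mod_eq_of_lt hx, zero_add,
    kKGf_diag S' (wt h a) fun i => A (x + N * i)]
  · exact (kKGf_idx hx (Nat.lt_succ_self S')).trans_le (Nat.mul_le_mul_left _ (by omega))
  · refine (kKGf_bd (w := fun i => wt h a (S' + 1 - (i + 1))) (Nat.mod_lt _ hN)
      (fun i => wt_le ha _) hA).trans_lt ?_
    calc (S' + 1) * (8192 * c) ≤ 8 * (8192 * (2 ^ 47 + 14)) :=
          Nat.mul_le_mul hS8 (Nat.mul_le_mul_left _ hc)
      _ < 2 ^ 64 := by norm_num

theorem qpr_spec {S g h : ℕ} (hS : S = 2 ^ g) (hg : g ≤ 3) (f : ℕ → ℕ)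
    (k : ℕ → (ℕ → ℕ) → ℕ → ℕ) {l : List ℕ} (hl : ∀ a ∈ l, 0 < a ∧ a ≤ 32768) (Q d : ℕ)
    (W : ℕ → ℕ) : ∃ W' : ℕ → ℕ, qpr S (g + 13) h f k l.length (pk l) Q W d =
      k ((l.map f).prod * Q) W' (d * (l.map fun a => 2 * a + h).prod) ∧
      ∀ (V c : ℕ) (A : ℕ → ℕ), W V = pack 64 ((S + 1) ^ l.length) A →
        (∀ x < (S + 1) ^ l.length, A x ≤ c) → c + l.length ≤ 2 ^ 47 + 14 →
        Cq S (wt h) l A ≤ 2 ^ ((g + 13) * l.length) * W' V := by
  induction l generalizing Q d W with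
  | nil =>
    refine ⟨W, by simp only [List.map_nil, List.prod_nil, one_mul, mul_one]; rfl, ?_⟩
    intro V c A h1 _ _
    rw [h1]
    simp [Cq, pack_one]
  | cons a l ih =>
    obtain ⟨ha, ha'⟩ := hl a List.mem_cons_self
    have e : ∀ X, qpr S (g + 13) h f k (l.length + 1) X Q W d =
        fz (X % 18446744073709551616) fun a => qpr S (g + 13) h f k l.length (X >>> 64) (f a * Q)
          (fun V => ((W V * wts S h l.length a) >>> shv S (g + 13) l.length &&&
            msv S (g + 13) l.length) + onv S l.length) (d * (2 * a + h)) := fun _ => rfl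
    obtain ⟨W', h1, h2⟩ := ih (fun b hb => hl b (List.mem_cons_of_mem _ hb)) (f a * Q)
      (d * (2 * a + h)) fun V => ((W V * wts S h l.length a) >>> shv S (g + 13) l.length &&&
        msv S (g + 13) l.length) + onv S l.length
    refine ⟨W', ?_, fun V c A h3 h4 h5 => ?_⟩
    · rw [List.length_cons, e, fz_eq, F.kKFb_mod l ha', F.kKFb_shr l ha', h1]
      simp only [List.map_cons, List.prod_cons]
      congr 1 <;> ring
    · rw [List.length_cons] at h3 h4 h5 ⊢
      have h6 := h2 V (c + 1) _ (by rw [h3]; exact ctr_eq hS hg ha (by omega) h4)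
        (fun x hx => ?_) (by omega)
      · have e1 : Cq S (wt h) (a :: l) A = ∑ i ∈ range S, wt h a i *
            Cq S (wt h) l fun x => A (x + (S + 1) ^ l.length * i) := rfl
        rw [e1, ← Cq_sum S (wt h) l (range S) (wt h a)
          fun i x => A (x + (S + 1) ^ l.length * i)]
        refine (Cq_mono fun x _ => kKGf_up _ (g + 13)).trans ?_
        rw [Cq_smul, Nat.mul_succ, pow_add 2 ((g + 13) * l.length),
          mul_comm (2 ^ ((g + 13) * l.length)), mul_assoc]
        exact Nat.mul_le_mul_left _ h6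
      · refine Nat.succ_le_succ (Nat.div_le_of_le_mul ?_)
        rw [pow_succ] at h4
        refine (sum_le_card_nsmul _ _ (8192 * c) fun i hi => Nat.mul_le_mul (wt_le ha i)
          (h4 _ (kKGf_idx hx (Nat.lt_succ_of_lt (mem_range.1 hi))))).trans_eq ?_
        rw [card_range, smul_eq_mul, hS, pow_add]
        ring

theorem win_le {V N m k t : ℕ} {ω : ℕ → ℕ} (hV : 2 ≤ V) (ht : t ≤ V)
    (hω : ∑ σ ∈ range N, ω σ < 2 ^ V) :
    ∑ σ ∈ range N, (if σ ≤ k ∧ k < σ + m then ω σ else 0) ≤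
      2 ^ t * ((pack V N ω * onw V m) >>> (V * k + t) % 2 ^ (V - t) + 1) := by
  rcases Nat.lt_or_ge k (N + m) with hk | hk
  · rw [onw_eq hV, pack_mul, pack_cut (fun y _ => ?_) hk ht]
    · simp only [mul_one, kKGf_win]
      exact kKGf_up _ t
    · simp only [mul_one, kKGf_win]
      refine lt_of_le_of_lt (sum_le_sum fun i _ => ?_) hω
      split_ifs
      · exact le_rfl
      · exact Nat.zero_le _
  · rw [sum_eq_zero fun σ hσ => if_neg (by have := mem_range.1 hσ; omega)]
    exact Nat.zero_le _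

end Pool.Agent.Work.MP_82fd4a_nt.P.G
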