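import Pool.Agent.Work.MP_82fd4a_nt.P.KGb
import Pool.Agent.Work.MP_82fd4a_nt.P.KGc
import Pool.Agent.Work.MP_82fd4a_nt.P.KGd
import Pool.Agent.Work.MP_82fd4a_nt.P.KMc

/-! The grid: the loop over the packings and the loop over the levels. -/

set_option autoImplicit false
open Finset

namespace Pool.Agent.Work.MP_82fd4a_nt.P.G

open BS Y

theorem kKGh_glw (M T S n O X p h H : ℕ) (k : ℕ → ℕ → ℕ) (l : List Ce) (f m Z b : ℕ) :
    glw M T S n O X p h H k l (f + 1) m Z b = gc1 O X p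
      (fun V c => glw M T S n O X p h H k l f (m >>> 6) (Z &&& sbv S n O V) c)
      (prp M T S n h H (nce l (m % 64))) (bsv S n (nce l (m % 64))) b :=
  fz_eq (m % 64) fun i => gc1 O X p
    (fun V c => glw M T S n O X p h H k l f (m >>> 6) (Z &&& sbv S n O V) c)
    (prp M T S n h H (nce l i)) (bsv S n (nce l i)) b

theorem glw_zero {M T S n O X p h H : ℕ} {k : ℕ → ℕ → ℕ} {l : List Ce}
    (hk : ∀ Z b, k Z b < BAD → b = 0) (f : ℕ) :
    ∀ m Z b, glw M T S n O X p h H k l f m Z b < BAD → b = 0 := by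
  induction f with
  | zero => exact fun _ Z b => hk Z b
  | succ f ih =>
    intro m Z b H
    rw [kKGh_glw] at H
    exact gc1_zero (fun V c => ih _ _ c) _ H

theorem kKGh_sum {α : Type} {l : List α} {f : α → ℕ} {c : ℕ} (h : ∀ a ∈ l, f a ≤ c) :
    (l.map f).sum ≤ l.length * c := by
  have := List.sum_le_card_nsmul (l.map f) c fun x hx => by
    obtain ⟨a, ha, rfl⟩ := List.mem_map.1 hx
    exact h a ha
  simpa using this

theorem glw_spec {P : Par} {B δ n S h R : ℕ} {los his : List ℕ} {k : ℕ → ℕ → ℕ} {CL : List Ce}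
    (hs : Sm P) (hB : 0 < B) (hδ : δ ≤ B) (hT : 0 < P.T) (h1 : ∀ x ∈ los, x ≤ 32768)
    (hl : los.length = n) (hn : n ≤ 14) (hh : 0 < h)
    (hR : R + (los.sum + n * (S * h)) + 1 = P.N * P.G) (hL : ∀ ce ∈ CL, CeOK P.T n ce)
    (hk : ∀ Z b, k Z b < BAD → b = 0) (f : ℕ) : ∀ m Z y, ZI P B δ S h los his Z →
    y = glw (P.N * P.G) P.T S n (onv S n) (pk los + R <<< (64 * n)) (64 * n) h (S * h + 1) k CL f
      m Z 0 → y < BAD → ∃ Z', ZI P B δ S h los his Z' ∧ y = k Z' 0 := by
  induction f with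
  | zero => exact fun _ Z _ hZ hy _ => ⟨Z, hZ, hy⟩
  | succ f ih =>
    intro m Z y hZ hy H
    have hM := hs.M
    obtain ⟨rs, e, c0, hr, c1, c2⟩ := kMc_nce hL (m % 64)
    rw [kKGh_glw, e, bsv_eq] at hy
    obtain ⟨ok, e2⟩ := gc1_spec hT hn hl h1 hM (by omega) (fun V c => glw_zero hk f _ _ c) hr hy H
    refine ih _ _ y (fun pre a x r hx hv hb hr' q1 q2 => ?_) e2 H
    rw [Nat.testBit_and, hZ pre a x r hx hv hb hr' q1 q2, Bool.true_and]
    by_contra hc
    have t1 := hx.hyp.lo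
    have t2 := hx.hyp.hi
    have len := hx.box.len
    rw [List.sum_append, List.sum_singleton, ← mul_assoc] at t1 t2
    rw [hl] at hv q1 q2
    have w1 : (rs.map fun r => r.w).sum ≤ rs.length * 8192 := kKGh_sum fun r h => (hr r h).w.le
    have w2 : ∀ v, (rs.map (dfc S n R h los v)).sum ≤ rs.length * 2 ^ 50 := fun v =>
      kKGh_sum fun r h => (Nat.sub_le _ _).trans (ok r h).2.le
    refine hx.bad (good_grid (q := r) hB hh hl (by omega) hv hb hR (by omega) t2 q1 q2.le c0 hr c1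
      c2 (fun r h => (ok r h).1) fun β hβ hq => ?_)
    have x1 := (dig_off (β := β) hv.1 fun d hd => by
      have := hv.2 d hd
      have := hβ d
      omega).1
    by_contra hp
    refine hc (sbv_spec hβ hq x1 ?_)
    rw [pack_bit (fun i _ => by have := w2 i; omega) x1 (by norm_num)]
    have := w2 (x + off S n β)
    exact Nat.testBit_of_two_pow_le_and_two_pow_add_one_gt (by omega) (by omega)

/-- the bits of a level, moved by one -/
def mkb (Z : ℕ) : ℕ → ℕ → Bool
  | 0, _ => false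
  | q + 1, x => Z.testBit (64 * x + q)

/-- the masks of the levels -/
def mkq (O Z : ℕ) : ℕ → ℕ
  | 0 => 0
  | q + 1 => (Z >>> q &&& O) * 4294967295

/-- the weights of the levels -/
def bq (R s v : ℕ) : ℕ → ℕ
  | 0 => 0
  | q + 1 => R >>> (s * q) % v + 1

/-- the point of the grid that is `q` levels higher -/
def ofs (S q : ℕ) : ℕ := ∑ d ∈ range q, (S + 1) ^ d

theorem kKGh_ac (S O s v Z F Q R : ℕ) (k : ℕ → ℕ → ℕ → ℕ) (n : ℕ) : ∀ r A u t, ∃ u',
    ac1 (S + 1) O s v k n (Z >>> r) (F >>> (64 * ofs S r)) (64 * (S + 1) ^ r) (Q >>> (s * r))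
      (R >>> (s * r)) (mkq O Z r) (bq R s v r) A u t =
      k (A + ∑ q ∈ range n, (bq Q s v (r + q + 1) *
        (F >>> (64 * ofs S (r + q)) &&& mkq O Z (r + q + 1)) + bq R s v (r + q) *
          (F >>> (64 * ofs S (r + q)) >>> 32 &&& (mkq O Z (r + q) ||| mkq O Z (r + q + 1))))) u'
        (t + ∑ q ∈ range n, (bq Q s v (r + q + 1) + bq R s v (r + q + 1))) ∧
      (∀ i, u.testBit i = true → u'.testBit i = true) ∧ ∀ q < n, ∀ i,
        (F >>> (64 * ofs S (r + q)) &&& mkq O Z (r + q + 1)).testBit i = true →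
          u'.testBit i = true := by
  induction n with
  | zero => exact fun r A u t => ⟨u, rfl, fun _ h => h, fun _ h => absurd h (Nat.not_lt_zero _)⟩
  | succ n ih =>
    intro r A u t
    have e : ∀ Z F p Q R m B, ac1 (S + 1) O s v k (n + 1) Z F p Q R m B A u t =
        ac1 (S + 1) O s v k n (Z >>> 1) (F >>> p) (p * (S + 1)) (Q >>> s) (R >>> s)
          ((Z &&& O) * 4294967295) (R % v + 1)
          (A + (Q % v + 1) * (F &&& (Z &&& O) * 4294967295) +
            B * (F >>> 32 &&& (m ||| (Z &&& O) * 4294967295)))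
          (u ||| (F &&& (Z &&& O) * 4294967295)) (t + (Q % v + 1) + (R % v + 1)) :=
      fun _ _ _ _ _ _ _ => rfl
    obtain ⟨u', i1, i2, i3⟩ := ih (r + 1)
      (A + bq Q s v (r + 1) * (F >>> (64 * ofs S r) &&& mkq O Z (r + 1)) +
        bq R s v r * (F >>> (64 * ofs S r) >>> 32 &&& (mkq O Z r ||| mkq O Z (r + 1))))
      (u ||| (F >>> (64 * ofs S r) &&& mkq O Z (r + 1))) (t + bq Q s v (r + 1) + bq R s v (r + 1))
    have e1 : ∀ q, r + 1 + q = r + (q + 1) := fun q => by omega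
    simp only [e1] at i1 i3
    refine ⟨u', ?_, fun i h => i2 i (by rw [Nat.testBit_or, h, Bool.true_or]), ?_⟩
    · rw [e, ← Nat.shiftRight_add, ← Nat.shiftRight_add, ← Nat.shiftRight_add, ← Nat.shiftRight_add,
        ← mul_add, ← Nat.mul_succ, mul_assoc, ← pow_succ, sum_range_succ', sum_range_succ']
      refine Eq.trans ?_ (i1.trans ?_)
      · rw [ofs, ofs, sum_range_succ]
        rfl
      · simp only [add_zero]
        congr 1 <;> ring
    · rintro (_ | q) hq i h
      · exact i2 i (by rw [Nat.testBit_or, Bool.or_eq_true]; exact Or.inr h)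
      · exact i3 q (by omega) i h

theorem kKGh_or {W a b : ℕ} (x y : ℕ) (ha : a < 2 ^ W) (hb : b < 2 ^ W) :
    (2 ^ W * x + a) ||| (2 ^ W * y + b) = 2 ^ W * (x ||| y) + (a ||| b) := by
  refine Nat.eq_of_testBit_eq fun j => ?_
  rw [Nat.testBit_or, Nat.testBit_two_pow_mul_add _ ha, Nat.testBit_two_pow_mul_add _ hb,
    Nat.testBit_two_pow_mul_add _ (Nat.or_lt_two_pow ha hb)]
  split_ifs <;> rw [Nat.testBit_or]

theorem pack_lor {W n : ℕ} {f g : ℕ → ℕ} (hf : ∀ i < n, f i < 2 ^ W) (hg : ∀ i < n, g i < 2 ^ W) :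
    pack W n f ||| pack W n g = pack W n (fun i => f i ||| g i) := by
  induction n generalizing f g with
  | zero => simp
  | succ n ih =>
    rw [pack_succ, pack_succ, pack_succ, kKGh_or _ _ (hf 0 (by omega)) (hg 0 (by omega)),
      ih (fun i hi => hf _ (by omega)) fun i hi => hg _ (by omega)]

theorem mkq_eq (N Z q : ℕ) : mkq (pack 64 N fun _ => 1) Z q =
    pack 64 N fun x => if mkb Z q x then 2 ^ 32 - 1 else 0 := by
  cases q with
  | zero => exact (pack_const_zero 64 N).symm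
  | succ q =>
    rw [mkq, land_one, mul_comm, pack_smul]
    refine pack_congr fun x _ => ?_
    rw [mkb, Nat.testBit_shiftRight, add_comm]
    split_ifs <;> rfl

theorem land_msk (N X : ℕ) (g : ℕ → Bool) :
    (X &&& pack 64 N fun x => if g x then 2 ^ 32 - 1 else 0) =
      pack 64 N fun x => if g x then X >>> (64 * x) % 2 ^ 32 else 0 := by
  rw [F.kKFd_land fun i _ => by split_ifs <;> norm_num]
  refine pack_congr fun x _ => ?_
  split_ifs
  · rw [Nat.and_two_pow_sub_one_eq_mod, Nat.mod_mod_of_dvd _ (by norm_num)]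
  · exact Nat.and_zero _

theorem lor_msk (N : ℕ) (g g' : ℕ → Bool) :
    ((pack 64 N fun x => if g x then 2 ^ 32 - 1 else 0) |||
      pack 64 N fun x => if g' x then 2 ^ 32 - 1 else 0) =
      pack 64 N fun x => if g x || g' x then 2 ^ 32 - 1 else 0 := by
  rw [pack_lor (fun i _ => by split_ifs <;> norm_num) fun i _ => by split_ifs <;> norm_num]
  exact pack_congr fun x _ => by cases g x <;> cases g' x <;> rfl

/-- the costs of the small boxes -/
def acc (S s v Z F Q R n x : ℕ) : ℕ := ∑ q ∈ range n,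
  (bq Q s v (q + 1) * (if mkb Z (q + 1) x then F >>> (64 * (x + ofs S q)) % 2 ^ 32 else 0) +
    bq R s v q * if mkb Z q x || mkb Z (q + 1) x then
      F >>> (64 * (x + ofs S q) + 32) % 2 ^ 32 else 0)

theorem ac1_spec (S N s v Z F Q R : ℕ) (k : ℕ → ℕ → ℕ → ℕ) (n : ℕ) : ∃ u,
    ac1 (S + 1) (pack 64 N fun _ => 1) s v k n Z F 64 Q R 0 0 0 0 0 =
      k (pack 64 N (acc S s v Z F Q R n)) u
        (∑ q ∈ range n, (bq Q s v (q + 1) + bq R s v (q + 1))) ∧
      ∀ q < n, ∀ x < N, Z.testBit (64 * x + q) = true →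
        (F >>> (64 * (x + ofs S q)) % 2 ^ 32).testBit 27 = true → u.testBit (64 * x + 27) = true := by
  obtain ⟨u, h0, -, h2⟩ := kKGh_ac S (pack 64 N fun _ => 1) s v Z F Q R k n 0 0 0 0
  have h1 := (show ac1 (S + 1) (pack 64 N fun _ => 1) s v k n Z F 64 Q R 0 0 0 0 0 = _ from
    rfl).trans h0
  have b : ∀ (g : Bool) (y : ℕ), (if g then y % 2 ^ 32 else 0) < 2 ^ 64 := fun g y => by
    split_ifs <;> omega
  have e : ∀ q x, F >>> (64 * ofs S q) >>> (64 * x) = F >>> (64 * (x + ofs S q)) := fun q x => by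
    rw [← Nat.shiftRight_add, mul_add, add_comm]
  simp only [zero_add, mkq_eq, land_msk, e] at h1 h2
  refine ⟨u, h1.trans (congrArg (k · u _) ?_), fun q hq x hx h3 h4 => h2 q hq _ ?_⟩
  · unfold acc
    rw [← pack_sum]
    refine sum_congr rfl fun q _ => ?_
    rw [lor_msk, land_msk, pack_smul, pack_smul, pack_add]
    refine pack_congr fun x _ => ?_
    rw [← Nat.shiftRight_add, ← Nat.shiftRight_add,
      show 64 * ofs S q + (32 + 64 * x) = 64 * (x + ofs S q) + 32 by ring]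
  · rw [pack_bit (fun i _ => b _ _) hx (by norm_num), mkb, if_pos h3, h4]

end Pool.Agent.Work.MP_82fd4a_nt.P.G
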