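import Pool.Agent.Work.MP_82fd4a_nt.P.KGh
import Pool.Agent.Work.MP_82fd4a_nt.P.KGf
import Pool.Agent.Work.MP_82fd4a_nt.P.KGm

/-! The grid: the cost of the slabs that remain. -/

set_option autoImplicit false
open Finset

namespace Pool.Agent.Work.MP_82fd4a_nt.P.G

open BS Y

theorem kKGi_lv2 (M C A : ℕ) :
    lv2 M C A = min (2 ^ 27) ((C * M * 16 + (A - 1)) / A + C / 2 ^ 31 * 2 ^ 27) := by
  have e : lv2 M C A = mn 134217728 ((C * M * 16 + (A - 1)) / A + (C >>> 31) <<< 27) := rfl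
  rw [e, mn_eq, Nat.shiftRight_eq_div_pow, Nat.shiftLeft_eq]
  rfl

theorem kKGi_lev (G M c CT j0 h x : ℕ) : ∃ jl C A, max c ((M - (x + h)) / G) = jl ∧
    mxl ((M - x - 1) / G + 1 - jl) (CT / 2 ^ (32 * (jl - j0 + 1))) = C ∧
    max (jl * G) (M - 1 - (x + h)) = A ∧ lev G M c CT j0 h x = lv2 M C A := by
  refine ⟨_, _, _, rfl, rfl, rfl, ?_⟩
  rw [← mx_eq, ← mx_eq, ← Nat.shiftRight_eq_div_pow]
  rfl

theorem lev_le (G M c CT j0 h x : ℕ) : lev G M c CT j0 h x ≤ 2 ^ 27 := by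
  obtain ⟨_, _, _, -, -, -, e⟩ := kKGi_lev G M c CT j0 h x
  rw [e, kKGi_lv2]
  exact min_le_left _ _

theorem kKGi_lv {M C A : ℕ} (hA : 0 < A) (H : lv2 M C A < 2 ^ 27) :
    C < 2 ^ 31 ∧ C * M * 16 ≤ lv2 M C A * A := by
  rw [kKGi_lv2] at H ⊢
  have a1 := Nat.div_add_mod' (C * M * 16 + (A - 1)) A
  have a2 := Nat.mod_lt (C * M * 16 + (A - 1)) hA
  generalize (C * M * 16 + (A - 1)) % A = w at a1 a2
  generalize (C * M * 16 + (A - 1)) / A = v at H a1 ⊢
  have a3 : C / 2 ^ 31 = 0 := by omega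
  rw [a3, zero_mul, add_zero] at H ⊢
  rw [min_eq_right (by omega)]
  omega

theorem lev_spec {P : Par} {tb : Tr} {B δ c CT j0 h y : ℕ} {κ : ℝ} {μ : ℕ → ℝ}
    {Ψ : List ℕ → ℝ} {los his p : List ℕ} (hx : Ctx P tb B δ κ μ Ψ) (hc : Low P B δ c los his)
    (hT : CTI P tb B δ los his CT j0) (hp : InB B los his p) (h1 : y * B ≤ p.sum)
    (h2 : p.sum < (y + h) * B) (H : lev P.G (P.N * P.G) c CT j0 h y < 2 ^ 27) :
    Ψ p ≤ 2 ^ 36 / 2 ^ 52 * lev P.G (P.N * P.G) c CT j0 h y := by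
  obtain ⟨jl, C, A, e1, e2, e3, e⟩ := kKGi_lev P.G (P.N * P.G) c CT j0 h y
  have hA : 0 < A := e3 ▸ e1 ▸ kKLf_pos hx.sm hc.1 _ _
  have key := kKLf_pt hx hc hT hp (fun _ _ => ⟨h1, h2⟩) e1 e2 e3
  rw [e] at H ⊢
  obtain ⟨a3, a4⟩ := kKGi_lv hA H
  refine (key a3).trans ?_
  generalize lv2 _ _ _ = v at a4 ⊢
  generalize P.N * P.G = M at a4 ⊢
  have a5 : (C : ℝ) * M * 16 ≤ v * A := by exact_mod_cast a4
  have a6 : (0 : ℝ) < A := by exact_mod_cast hA
  rw [← mul_div_assoc, div_le_iff₀ a6]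
  push_cast
  linarith

theorem kKGi_lane {S h n y F : ℕ} {f : ℕ → ℕ} (hf : ∀ x, f x ≤ 2 ^ 27)
    (hF : F = dsv S h (lw2 f h) n y) (i : ℕ) :
    (F >>> (64 * i) % 2 ^ 32 ≤ 2 ^ 27 ∧ F >>> (64 * i + 32) % 2 ^ 32 ≤ 2 ^ 27) ∧
      (i < (S + 1) ^ n → F >>> (64 * i) % 2 ^ 32 = f (y + ds S n i * h) ∧
        F >>> (64 * i + 32) % 2 ^ 32 =
          max (f (y + ds S n i * h) % 2 ^ 27) (f (y + ds S n i * h - h) % 2 ^ 27)) := by
  have e : ∀ x, lw2 f h x = f x + max (f x % 2 ^ 27) (f (x - h) % 2 ^ 27) * 2 ^ 32 := fun x => by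
    have e : lw2 f h x = f x + (f x % 134217728 + (fz (x - h) f % 134217728 - f x % 134217728)) <<<
      32 := rfl
    rw [e, fz_eq, Nat.shiftLeft_eq]
    omega
  have b : ∀ x, lw2 f h x < 2 ^ 64 := fun x => by
    have := hf x
    rw [e]
    omega
  rw [dsv_eq] at hF
  have k : i < (S + 1) ^ n → F >>> (64 * i) % 2 ^ 32 = f (y + ds S n i * h) ∧
      F >>> (64 * i + 32) % 2 ^ 32 =
        max (f (y + ds S n i * h) % 2 ^ 27) (f (y + ds S n i * h - h) % 2 ^ 27) := fun hi => by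
    have a1 := pack_lane hi fun i _ => b (y + ds S n i * h)
    have a2 := pack_cut (t := 32) (fun i _ => b (y + ds S n i * h)) hi (by norm_num)
    have := hf (y + ds S n i * h)
    rw [← hF, e] at a1 a2
    omega
  refine ⟨?_, k⟩
  by_cases hi : i < (S + 1) ^ n
  · have := hf (y + ds S n i * h)
    have := k hi
    omega
  · rw [Nat.shiftRight_add, hF, pack_shiftRight i fun i _ => b _,
      Nat.sub_eq_zero_of_le (not_lt.1 hi), pack_zero]
    simp

theorem kKGi_ofs {S n x q : ℕ} (hx : Val S n x) (hq : q ≤ n) :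
    x + ofs S q < (S + 1) ^ n ∧ ds S n (x + ofs S q) = ds S n x + q := by
  have e : ∀ f : ℕ → ℕ, ∑ d ∈ range n, (if d < q then 1 else 0) * f d = ∑ d ∈ range q, f d :=
    fun f => by
      rw [← sum_subset (range_subset_range.2 hq) fun d _ hd => by
        rw [if_neg (by simpa using hd), zero_mul]]
      exact sum_congr rfl fun d hd => by rw [if_pos (mem_range.1 hd), one_mul]
  obtain ⟨a1, a2⟩ := dig_off (β := fun d => if d < q then 1 else 0) hx.1 fun d hd => by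
    have := hx.2 d hd
    split_ifs <;> omega
  rw [off, e] at a1 a2
  refine ⟨a1, ?_⟩
  have a3 := e fun _ => 1
  simp only [mul_one, sum_const, card_range, smul_eq_mul] at a3
  rw [ds, ofs, sum_congr rfl fun d hd => a2 d (mem_range.1 hd), sum_add_distrib, a3]
  rfl

theorem kKGi_acc {S s v Z F Q R n x c : ℕ}
    (hF : ∀ i, F >>> (64 * i) % 2 ^ 32 ≤ c ∧ F >>> (64 * i + 32) % 2 ^ 32 ≤ c) :
    acc S s v Z F Q R n x ≤ (∑ q ∈ range n, (bq Q s v (q + 1) + bq R s v (q + 1))) * c := by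
  have a1 : acc S s v Z F Q R n x ≤ ∑ q ∈ range n, (bq Q s v (q + 1) + bq R s v q) * c :=
    sum_le_sum fun q _ => by
      rw [add_mul]
      refine add_le_add (Nat.mul_le_mul_left _ ?_) (Nat.mul_le_mul_left _ ?_) <;> split_ifs
      exacts [(hF _).1, Nat.zero_le _, (hF _).2, Nat.zero_le _]
  have a2 := (sum_range_succ (bq R s v) n).symm.trans (sum_range_succ' (bq R s v) n)
  rw [← sum_mul] at a1
  refine a1.trans (Nat.mul_le_mul_right _ ?_)
  rw [sum_add_distrib, sum_add_distrib]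
  have : bq R s v 0 = 0 := rfl
  omega

/-- the cost on a class of pieces of a small box -/
def phc (S s Z F n x σ : ℕ) : ℕ := ∑ q ∈ range n,
  ((if σ ≤ s * q + (s - n) ∧ s * q + (s - n) < σ + (s + 1 - n) then 1 else 0) *
    (if mkb Z (q + 1) x then F >>> (64 * (x + ofs S q)) % 2 ^ 32 else 0) +
  (if 0 < q ∧ σ ≤ s * (q - 1) + (s - 1) ∧ s * (q - 1) + (s - 1) < σ + (n - 1) then 1 else 0) *
    if mkb Z q x || mkb Z (q + 1) x then F >>> (64 * (x + ofs S q) + 32) % 2 ^ 32 else 0)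

theorem kKGi_phc {S s Z F n x V t N : ℕ} {ω : ℕ → ℕ} (hV : 2 ≤ V) (ht : t ≤ V)
    (hω : ∑ σ ∈ range N, ω σ < 2 ^ V) : ∑ σ ∈ range N, ω σ * phc S s Z F n x σ ≤
      2 ^ t * acc S (V * s) (2 ^ (V - t)) Z F ((pack V N ω * onw V (s + 1 - n)) >>> (V * (s - n) + t))
        ((pack V N ω * onw V (n - 1)) >>> (V * (s - 1) + t)) n x := by
  simp only [phc, acc, mul_sum]
  rw [sum_comm]
  refine sum_le_sum fun q _ => ?_
  have e : ∀ X k q, X >>> (V * k + t) >>> (V * s * q) = X >>> (V * (s * q + k) + t) :=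
    fun X k q => by
      rw [← Nat.shiftRight_add]
      congr 1
      ring
  have e1 : ∀ (p : ℕ → Prop) [DecidablePred p] (c : ℕ), ∑ σ ∈ range N,
      ω σ * ((if p σ then 1 else 0) * c) = (∑ σ ∈ range N, if p σ then ω σ else 0) * c :=
    fun p _ c => by
      rw [sum_mul]
      exact sum_congr rfl fun σ _ => by split_ifs <;> simp
  simp only [mul_add, sum_add_distrib]
  rw [e1, e1, ← mul_assoc, ← mul_assoc]
  refine add_le_add (Nat.mul_le_mul_right _ ?_) (Nat.mul_le_mul_right _ ?_)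
  · rw [bq, e]
    exact win_le hV ht hω
  · cases q with
    | zero => simp
    | succ q =>
      simp only [bq, e, Nat.succ_pos, true_and, Nat.add_sub_cancel]
      exact win_le hV ht hω

/-- a point that carries a loss lies in a slab that remains -/
theorem kKGi_slab {P : Par} {tb : Tr} {B δ S h Z x : ℕ} {κ : ℝ} {μ : ℕ → ℝ} {Ψ : List ℕ → ℝ}
    {los his p : List ℕ} (hx : Ctx P tb B δ κ μ Ψ) (hZ : ZI P B δ S h los his Z)
    (hp : InB B los his p) (hv : Val S los.length x) (hb : Sub B S h x los p) (h0 : 0 < Ψ p)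
    (q1 : (los.sum + ds S los.length x * h) * B ≤ p.sum)
    (q2 : p.sum < (los.sum + ds S los.length x * h + los.length * h) * B) :
    ∃ r < los.length, Z.testBit (64 * x + r) = true ∧
      (los.sum + ds S los.length x * h + r * h) * B ≤ p.sum ∧
      p.sum < (los.sum + ds S los.length x * h + r * h + h) * B := by
  obtain ⟨a, -, hy, hg, -⟩ := (hx.dom p).resolve_left h0.not_ge
  obtain ⟨w, hw⟩ := Nat.exists_eq_add_of_le q1
  have a1 : w < los.length * (h * B) := by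
    rw [hw, add_mul _ (los.length * h), mul_assoc los.length] at q2
    omega
  have a2 : 0 < h * B := Nat.pos_of_mul_pos_left (a1.trans_le' (Nat.zero_le _))
  have a3 := Nat.div_add_mod' w (h * B)
  have a4 := Nat.mod_lt w a2
  have a5 := (Nat.div_lt_iff_lt_mul a2).2 a1
  generalize w / (h * B) = r at a3 a5
  have b1 : (los.sum + ds S los.length x * h + r * h) * B ≤ p.sum := by
    rw [hw, add_mul _ (r * h), mul_assoc r]
    omega
  have b2 : p.sum < (los.sum + ds S los.length x * h + r * h + h) * B := by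
    rw [hw, add_mul _ h, add_mul _ (r * h), mul_assoc r]
    omega
  refine ⟨r, a5, hZ p a x r ⟨hp, hy, hg⟩ hv hb a5 ?_ ?_, b1, b2⟩
  · rwa [add_mul _ r, ← add_assoc]
  · rwa [add_mul _ 1, add_mul _ r, one_mul, ← add_assoc, ← add_assoc]

theorem kKGi_cls {s n σ r : ℕ} (hn : n ≤ s + 2) (h0 : 0 < n) (hσ : σ ≤ s * n)
    (h1 : σ < (s + 1) * (r + 1)) (h2 : (s + 1) * r < σ + n) :
    (σ ≤ (s + 1) * r + (s + 1 - n) ∧ (s + 1) * r + (s + 1 - n) < σ + (s + 1 + 1 - n)) ∨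
      ∃ q, q + 1 < n ∧ (r = q ∨ r = q + 1) ∧ σ ≤ (s + 1) * q + (s + 1 - 1) ∧
        (s + 1) * q + (s + 1 - 1) < σ + (n - 1) := by
  have a1 := Nat.div_add_mod σ (s + 1)
  have a2 : σ % (s + 1) < s + 1 := Nat.mod_lt σ s.succ_pos
  generalize σ / (s + 1) = q at a1
  have a3 : q < r + 1 := Nat.lt_of_mul_lt_mul_left (a := s + 1) (by omega)
  have a4 : r < q + 2 := Nat.lt_of_mul_lt_mul_left (a := s + 1) (by rw [mul_add]; omega)
  by_cases hc : σ % (s + 1) + n ≤ s + 1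
  · have a5 : r < q + 1 := Nat.lt_of_mul_lt_mul_left (a := s + 1) (by rw [mul_add]; omega)
    obtain rfl : r = q := by omega
    exact Or.inl (by omega)
  · refine Or.inr ⟨q, Nat.lt_of_mul_lt_mul_left (a := s + 1) ?_, by omega, by omega⟩
    rw [mul_add, add_mul s 1 n]
    omega

theorem kKGi_pt {P : Par} {tb : Tr} {B δ c CT j0 S s u n Z F x σ : ℕ} {κ : ℝ} {μ : ℕ → ℝ}
    {Ψ : List ℕ → ℝ} {los his p : List ℕ} (hx : Ctx P tb B δ κ μ Ψ) (hc : Low P B δ c los his)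
    (hT : CTI P tb B δ los his CT j0) (hZ : ZI P B δ S ((s + 1) * u) los his Z)
    (hl : los.length = n) (h0 : 0 < n) (hn : n ≤ s + 2)
    (hF : F = dsv S ((s + 1) * u) (lw2 (lev P.G (P.N * P.G) c CT j0 ((s + 1) * u)) ((s + 1) * u)) n
      los.sum)
    (hf : ∀ q < n, Z.testBit (64 * x + q) = true →
      (F >>> (64 * (x + ofs S q)) % 2 ^ 32).testBit 27 = false)
    (hp : InB B los his p) (hv : Val S n x) (hb : Sub B S ((s + 1) * u) x los p) (hσ : σ ≤ s * n)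
    (q1 : (los.sum + ds S n x * ((s + 1) * u) + σ * u) * B ≤ p.sum)
    (q2 : p.sum + p.length ≤ (los.sum + ds S n x * ((s + 1) * u) + σ * u + n * u) * B) :
    Ψ p ≤ 2 ^ 36 / 2 ^ 52 * phc S (s + 1) Z F n x σ := by
  by_cases hΨ : Ψ p ≤ 0
  · exact hΨ.trans (by positivity)
  have len := hp.len.1
  subst hl
  have a1 : σ * u + los.length * u ≤ los.length * ((s + 1) * u) := by
    rw [← add_mul, ← mul_assoc]
    exact Nat.mul_le_mul_right _ (by rw [mul_add, mul_comm]; omega)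
  obtain ⟨r, r1, r2, r3, r4⟩ := kKGi_slab hx hZ hp hv hb (not_le.1 hΨ)
    (le_trans (Nat.mul_le_mul_right _ (by omega)) q1)
    (lt_of_lt_of_le (by omega : p.sum < p.sum + p.length)
      (q2.trans (Nat.mul_le_mul_right _ (by omega))))
  have a2 : σ < (s + 1) * (r + 1) := Nat.lt_of_mul_lt_mul_right (a := u) (by
    have := Nat.lt_of_mul_lt_mul_right (q1.trans_lt r4)
    rw [show (s + 1) * (r + 1) * u = r * ((s + 1) * u) + (s + 1) * u by ring]
    omega)
  have a3 : (s + 1) * r < σ + los.length := Nat.lt_of_mul_lt_mul_right (a := u) (by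
    have := Nat.lt_of_mul_lt_mul_right (r3.trans_lt
      (lt_of_lt_of_le (by omega : p.sum < p.sum + p.length) q2))
    rw [show (s + 1) * r * u = r * ((s + 1) * u) by ring, add_mul σ]
    omega)
  generalize (s + 1) * u = h at *
  have key := lev_spec hx hc hT hp r3 r4
  have f1 := lev_le P.G (P.N * P.G) c CT j0 h
  generalize lev P.G (P.N * P.G) c CT j0 h = f at hF key f1
  have L := fun q (hq : q ≤ los.length) =>
    (kKGi_lane f1 hF (x + ofs S q)).2 (kKGi_ofs hv hq).1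
  have L1 := (L r r1.le).1
  have f2 := hf r r1 r2
  rw [(kKGi_ofs hv r1.le).2, add_mul, ← add_assoc] at L1
  rw [L1] at f2
  have f3 : f (los.sum + ds S los.length x * h + r * h) < 2 ^ 27 :=
    (f1 _).lt_of_ne fun e => by rw [e] at f2; exact absurd f2 (by decide)
  refine (key f3).trans (mul_le_mul_of_nonneg_left (Nat.cast_le.2 ?_) (by positivity))
  rcases kKGi_cls hn h0 hσ a2 a3 with k | ⟨q, k1, k2, k3⟩
  · refine le_trans ?_ (single_le_sum (fun _ _ => Nat.zero_le _) (mem_range.2 r1))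
    rw [if_pos k, mkb, if_pos r2, one_mul, L1]
    exact Nat.le_add_right _ _
  · refine le_trans ?_ (single_le_sum (fun _ _ => Nat.zero_le _) (mem_range.2 k1))
    have L2 := (L (q + 1) k1.le).2
    rw [(kKGi_ofs hv k1.le).2, add_mul, add_mul, one_mul, ← add_assoc, ← add_assoc,
      Nat.add_sub_cancel] at L2
    rw [Nat.add_sub_cancel (n := q), if_pos (show 0 < q + 1 ∧ _ from ⟨q.succ_pos, k3⟩), one_mul, mkb,
      mkb, L2]
    refine le_trans ?_ (Nat.le_add_left _ _)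
    rcases k2 with rfl | rfl
    · rw [r2, Bool.true_or, if_pos rfl, Nat.mod_eq_of_lt f3]
      exact le_max_right _ _
    · rw [add_mul, one_mul, ← add_assoc] at f3 ⊢
      rw [r2, Bool.or_true, if_pos rfl, Nat.mod_eq_of_lt f3]
      exact le_max_left _ _

theorem gl5_eq {S g h n : ℕ} {l : List ℕ} (hS : S = 2 ^ g) (hg : g ≤ 3)
    (hl : ∀ a ∈ l, 0 < a ∧ a ≤ 32768) (hn : l.length = n) (s u V t F Z b : ℕ) {Q QA QB : ℕ}
    (hQ : Q = (l.map (rhv V s (S * h - h) h u)).prod)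
    (hA : QA = (Q * onw V (s + 1 - n)) >>> (V * (s - n) + t))
    (hB : QB = (Q * onw V (n - 1)) >>> (V * (s - 1) + t)) : ∃ w y : ℕ,
    gl5 S n (onv S n) (pk l) g s h u V t F b Z = y * u ^ n * 2 ^ (t + 36 + (g + 13) * n) /
      ((l.map fun a => 2 * a + h).prod * 2 ^ (29 * n)) + 1 + (b + (w &&& onv S n <<< 27) +
        (∑ q ∈ range n, (bq QA (V * s) (2 ^ (V - t)) (q + 1) + bq QB (V * s) (2 ^ (V - t)) (q + 1)) -
          1048576)) * 2 ^ 120 ∧
    ((∀ x, acc S (V * s) (2 ^ (V - t)) Z F QA QB n x ≤ 2 ^ 47) → n ≤ 14 →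
      Cq S (wt h) l (acc S (V * s) (2 ^ (V - t)) Z F QA QB n) ≤ 2 ^ ((g + 13) * n) * y) ∧
    ∀ q < n, ∀ x < (S + 1) ^ n, Z.testBit (64 * x + q) = true →
      (F >>> (64 * (x + ofs S q)) % 2 ^ 32).testBit 27 = true → w.testBit (64 * x + 27) = true := by
  subst hn
  obtain ⟨W, e1, e2⟩ := qpr_spec (h := h) hS hg (rhv V s (S * h - h) h u)
    (gl6 S l.length (onv S l.length) g s u V t F b Z) hl 1 1 fun A => A
  obtain ⟨w, e3, e4⟩ := ac1_spec S ((S + 1) ^ l.length) (V * s) (2 ^ (V - t)) Z F QA QB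
    (fun A x tt => (W A * u ^ l.length) <<< (t + 36 + (g + 13) * l.length) /
      (l.map fun a => 2 * a + h).prod <<< (29 * l.length) + 1 +
        (b + (x &&& onv S l.length <<< 27) + (tt - 1048576)) <<< 120) l.length
  rw [mul_one, one_mul, ← hQ] at e1
  rw [← onv_eq] at e3
  refine ⟨w, W (pack 64 ((S + 1) ^ l.length) (acc S (V * s) (2 ^ (V - t)) Z F QA QB l.length)), ?_,
    fun h1 h2 => e2 _ (2 ^ 47) _ rfl (fun x _ => h1 x) (by omega), e4⟩
  rw [← Nat.shiftLeft_eq, ← Nat.shiftLeft_eq, ← Nat.shiftLeft_eq, ← e3, hA, hB]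
  exact e1

theorem gl5_spec {P : Par} {tb : Tr} {B δ c CT j0 S g e s u n Z : ℕ} {κ : ℝ} {μ : ℕ → ℝ}
    {Ψ : List ℕ → ℝ} {los his : List ℕ} (hx : Ctx P tb B δ κ μ Ψ) (hb : BoxOK P los his)
    (hc : Low P B δ c los his) (hT : CTI P tb B δ los his CT j0)
    (hZ : ZI P B δ S ((s + 1) * u) los his Z) (hl : los.length = n) (h0 : 0 < n) (h14 : n ≤ 14)
    (hn : n ≤ s + 2) (hS : S = 2 ^ g) (hg : g ≤ 3) (hs : s + 1 = 2 ^ e)
    (he : eqw (S * ((s + 1) * u)) los his = 0)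
    (ha : ∀ a ∈ los, (0 < a ∧ a ≤ 32768) ∧ (s + 1) * u ≤ a) {y : ℕ}
    (hy : y = gl5 S n (onv S n) (pk los) g (s + 1) ((s + 1) * u) u (n * (18 + e) + 1)
      (n * (17 + e) - 19) (dsv S ((s + 1) * u)
        (lw2 (lev P.G (P.N * P.G) c CT j0 ((s + 1) * u)) ((s + 1) * u)) n los.sum) 0 Z)
    (H : y < BAD) : bs B μ los his Ψ ≤ κ ^ n / 2 ^ 52 * y := by
  have hG : 0 < P.G := by have := hx.sm.G2; omega
  have hκ := zero_le_one.trans hx.κ1
  obtain ⟨F, hF⟩ : ∃ F, F = dsv S ((s + 1) * u)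
    (lw2 (lev P.G (P.N * P.G) c CT j0 ((s + 1) * u)) ((s + 1) * u)) n los.sum := ⟨_, rfl⟩
  obtain ⟨V, hV⟩ : ∃ V, V = n * (18 + e) + 1 := ⟨_, rfl⟩
  obtain ⟨t, ht⟩ : ∃ t, t = n * (17 + e) - 19 := ⟨_, rfl⟩
  have v1 : 18 + e ≤ n * (18 + e) := Nat.le_mul_of_pos_left _ h0
  have v2 : n * (17 + e) ≤ n * (18 + e) := Nat.mul_le_mul_left _ (by omega)
  rw [← hF, ← hV, ← ht] at hy
  have key := fun hf : ∀ x < (S + 1) ^ n, ∀ q < n, Z.testBit (64 * x + q) = true →
      (F >>> (64 * (x + ofs S q)) % 2 ^ 32).testBit 27 = false =>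
    bs_grid (hG.trans_le hx.sm.Gz) hκ (by positivity) hx.mass hb he fun p hp x σ k1 k2 k3 k4 k5 =>
      kKGi_pt hx hc hT hZ hl h0 hn hF (hf x (hl ▸ k1.1)) hp (hl ▸ k1) k2 (hl ▸ k3) (hl ▸ k4)
        (hl ▸ k5)
  have fl := (kKGi_lane (lev_le _ _ _ _ _ _) hF · |>.1)
  clear hF
  generalize (s + 1) * u = h at *
  obtain ⟨ω, hω⟩ := Rq_rep s (rh (S * h - h) h u) los
  rw [hl] at hω key
  have e1 : (los.map (rhv V (s + 1) (S * h - h) h u)).prod = pack V (s * n + 1) ω := by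
    rw [List.map_congr_left fun a h => rhv_eq (by omega) (ha a h).1.1 (ha a h).2, Rq_prod, hω]
    rfl
  have e2 : ∑ σ ∈ range (s * n + 1), ω σ < 2 ^ V := by
    have a1 := Rq_one (s := s + 1) (ρ := rh (S * h - h) h u) (c := 2 ^ 18) (l := los) fun a h k =>
      (add_le_add (tau_le (ha a h).1.1 (ha a h).2 k) (tau_le (ha a h).1.1 (ha a h).2 _)).trans
        (by norm_num)
    simp only [hω, mul_one] at a1
    rw [hs, ← pow_add, ← pow_mul, hl] at a1
    exact a1.trans_lt (Nat.pow_lt_pow_right (by norm_num) (by rw [hV, mul_comm, add_comm e]; omega))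
  obtain ⟨w, z, e3, e4, e5⟩ := gl5_eq hS hg (fun a h => (ha a h).1) hl (s + 1) u V t F Z 0
    e1.symm rfl rfl
  have e6 := fun x => kKGi_phc (S := S) (s := s + 1) (Z := Z) (F := F) (n := n) (x := x) (t := t)
    (by omega) (by omega) e2
  have e7 := fun x => kKGi_acc (S := S) (s := V * (s + 1)) (v := 2 ^ (V - t)) (Z := Z)
    (Q := (pack V (s * n + 1) ω * onw V (s + 1 + 1 - n)) >>> (V * (s + 1 - n) + t))
    (R := (pack V (s * n + 1) ω * onw V (n - 1)) >>> (V * (s + 1 - 1) + t)) (n := n) (x := x) fl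
  rw [← hy] at e3
  generalize acc _ _ _ _ _ _ _ _ = A at e4 e6 e7
  generalize (∑ q ∈ range n, _ : ℕ) = tot at e3 e7
  rw [BAD_eq] at H
  generalize hq : z * u ^ n * _ / _ = z' at e3
  have f1 : w &&& onv S n <<< 27 = 0 ∧ tot ≤ 1048576 := by omega
  have f2 := e4 (fun x => (e7 x).trans (by omega)) h14
  have f3 : Cq S (wt h) los (fun x => Rq (s + 1) (rh (S * h - h) h u) los (phc S (s + 1) Z F n x)) ≤
      2 ^ t * (2 ^ ((g + 13) * n) * z) :=
    (Cq_mono fun x _ => (hω _).trans_le (e6 x)).trans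
      ((Cq_smul _ _ _ _ _).trans_le (Nat.mul_le_mul_left _ f2))
  refine (key fun x k1 q k2 k3 => Bool.eq_false_iff.2 fun k4 => ?_).trans ?_
  · have k5 := congrArg (·.testBit (64 * x + 27)) f1.1
    simp only [Nat.testBit_and, e5 q k2 x k1 k3 k4, Nat.testBit_shiftLeft, Nat.add_sub_cancel,
      onv_eq] at k5
    rw [← add_zero (64 * x), pack_bit (fun _ _ => by norm_num) k1 (by norm_num)] at k5
    simp at k5
  · have d0 : 0 < (los.map fun a => 2 * a + h).prod := List.prod_pos fun x hx => by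
      obtain ⟨a, h1, rfl⟩ := List.mem_map.1 hx
      have := (ha a h1).1.1
      omega
    generalize (los.map fun a => 2 * a + h).prod = d at hq d0 ⊢
    have d1 : (0 : ℝ) < d := by exact_mod_cast d0
    have g1 : ((z * u ^ n * 2 ^ (t + 36 + (g + 13) * n) : ℕ) : ℝ) / (d * 2 ^ (29 * n) : ℕ) ≤ y := by
      refine (Nat.lt_floor_add_one _).le.trans ?_
      rw [Nat.floor_div_eq_div, hq, ← Nat.cast_succ]
      exact Nat.cast_le.2 (by omega)
    refine (mul_le_mul_of_nonneg_left (Nat.cast_le.2 f3) (mul_nonneg (mul_nonneg (pow_nonneg hκ _)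
      (by norm_num)) (div_nonneg (pow_nonneg (Nat.cast_nonneg _) _) (mul_nonneg d1.le
        (pow_nonneg zero_le_two _))))).trans
      (le_of_eq_of_le ?_ (mul_le_mul_of_nonneg_left g1
        (div_nonneg (pow_nonneg hκ _) (by norm_num))))
    push_cast
    rw [pow_add, pow_add]
    ring

theorem kKGi_ind {S n t : ℕ} (hS : S * n ≤ 32) (ht : t ≤ S * n) :
    ind S n t = pack 64 ((S + 1) ^ n) fun v => if ds S n v = t then 1 else 0 := by
  have e : ind S n t = (pwv S n >>> (S * n - t)) &&& onv S n := rfl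
  have e2 : pwv S n = pack 64 ((S + 1) ^ n) fun v => 2 ^ (S * n - (0 + ds S n v * 1)) :=
    dsv_eq _ _ _ _ _
  have p2 : ∀ m, 2 ^ (S * n - m) < 2 ^ 64 := fun m =>
    Nat.pow_lt_pow_right (by norm_num) (by omega)
  rw [e, onv_eq, land_one]
  refine pack_congr fun v hv => ?_
  have := ds_le S n v
  rw [Nat.testBit_shiftRight, add_comm (S * n - t), e2, pack_bit (fun i _ => p2 _) hv (by omega),
    Nat.testBit_two_pow]
  refine if_congr ?_ rfl rfl
  rw [decide_eq_true_eq]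
  omega

theorem kKGi_dsf {S n : ℕ} (hS : S * n ≤ 32) (h x : ℕ) (f : ℕ → ℕ) :
    dsf S h f n x (S * n + 1) = dsv S h f n x := by
  have e : ∀ m, dsf S h f n x m = ∑ t ∈ range m, f (x + t * h) * ind S n t := fun m => by
    induction m with
    | zero => rfl
    | succ m ih =>
      have e : dsf S h f n x (m + 1) = dsf S h f n x m + fz (x + m * h) f * ind S n m := rfl
      rw [e, ih, sum_range_succ, fz_eq]
  rw [e, dsv_eq, sum_congr rfl fun t ht => by
    rw [kKGi_ind hS (Nat.lt_succ_iff.1 (mem_range.1 ht)), pack_smul], pack_sum]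
  refine pack_congr fun v _ => ?_
  have := ds_le S n v
  simp only [mul_ite, mul_one, mul_zero, sum_ite_eq, mem_range]
  exact if_pos (by omega)

theorem kKGi_gl4 (G M c S n O X CT j0 g e s h u SL Z b : ℕ) :
    gl4 G M c S n O X CT j0 g e s h u SL Z b = if Z = 0 then b * 2 ^ 120 else
      gl5 S n O X g s h u (n * (18 + e) + 1) (n * (17 + e) - 19)
        (dsf S h (lw2 (lev G M c CT j0 h) h) n SL (S * n + 1)) b Z := by
  rw [← Nat.shiftLeft_eq]
  exact F.kKFa_beq _ _ Z 0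

theorem gl4_spec {P : Par} {tb : Tr} {B δ c CT j0 S g e s u n Z : ℕ} {κ : ℝ} {μ : ℕ → ℝ}
    {Ψ : List ℕ → ℝ} {los his : List ℕ} (hx : Ctx P tb B δ κ μ Ψ) (hb : BoxOK P los his)
    (hc : Low P B δ c los his) (hT : CTI P tb B δ los his CT j0)
    (hZ : ZI P B δ S ((s + 1) * u) los his Z) (hl : los.length = n) (h0 : 0 < n) (h14 : n ≤ 14)
    (hn : n ≤ s + 2) (hS : S = 2 ^ g) (hg : g ≤ 3) (hs : s + 1 = 2 ^ e) (h32 : S * n ≤ 32)
    (he : eqw (S * ((s + 1) * u)) los his = 0)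
    (ha : ∀ a ∈ los, (0 < a ∧ a ≤ 32768) ∧ (s + 1) * u ≤ a) {y : ℕ}
    (hy : y = gl4 P.G (P.N * P.G) c S n (onv S n) (pk los) CT j0 g e (s + 1) ((s + 1) * u) u los.sum
      Z 0) (H : y < BAD) : bs B μ los his Ψ ≤ κ ^ n / 2 ^ 52 * y := by
  rw [kKGi_gl4, kKGi_dsf h32] at hy
  split_ifs at hy with hz
  swap
  · exact gl5_spec hx hb hc hT hZ hl h0 h14 hn hS hg hs he ha hy H
  have hG : 0 < P.G := by have := hx.sm.G2; omega
  have hκ := zero_le_one.trans hx.κ1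
  refine (bs_grid (K := 0) (Φ := fun _ _ => 0) (hG.trans_le hx.sm.Gz) hκ le_rfl hx.mass hb he
    fun p hp x σ k1 k2 k3 k4 k5 => ?_).trans (by
      rw [mul_zero, zero_mul, zero_mul]
      exact mul_nonneg (div_nonneg (pow_nonneg hκ _) (by norm_num)) (Nat.cast_nonneg _))
  rw [zero_mul]
  by_contra hΨ
  have len := hp.len.1
  have a1 : σ * u + los.length * u ≤ los.length * ((s + 1) * u) := by
    rw [← add_mul, ← mul_assoc]
    exact Nat.mul_le_mul_right _ (by rw [mul_add, mul_comm]; omega)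
  obtain ⟨r, -, r2, -⟩ := kKGi_slab hx hZ hp k1 k2 (not_le.1 hΨ)
    (le_trans (Nat.mul_le_mul_right _ (by omega)) k4)
    (lt_of_lt_of_le (by omega : p.sum < p.sum + p.length)
      (k5.trans (Nat.mul_le_mul_right _ (by omega))))
  simp [hz] at r2

theorem gl4_zero {G M c S n CT j0 g e s h u SL : ℕ} {l : List ℕ} (hS : S = 2 ^ g) (hg : g ≤ 3)
    (hl : ∀ a ∈ l, 0 < a ∧ a ≤ 32768) (hn : l.length = n) (Z b : ℕ)
    (H : gl4 G M c S n (onv S n) (pk l) CT j0 g e s h u SL Z b < BAD) : b = 0 := by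
  rw [kKGi_gl4, BAD_eq] at H
  split_ifs at H
  · omega
  · obtain ⟨w, z, e3, -⟩ := gl5_eq (h := h) hS hg hl hn s u _ _ _ Z b rfl rfl rfl
    rw [e3] at H
    have := (Nat.le_add_left _ _).trans_lt H
    omega

theorem gl_spec : GlSpec := by
  intro P tb B δ c n K CT j0 z κ μ Ψ los his CL hx hb hl h0 hn hc hT hK hL H
  have hs := hx.sm
  have hκ := zero_le_one.trans hx.κ1
  by_cases T0 : P.T = 0
  · refine (kMc_void hx hb fun pre a h => h.bad ?_).trans (by positivity)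
    rw [T0, zero_mul, Nat.cast_zero]
    exact good_zero _ (Nat.cast_nonneg _) _
  have bx : F.Bx n los his := hl ▸ kGm_bx hs hb
  obtain ⟨a1, a2, a3⟩ := bx.head
  obtain ⟨g, hg⟩ : ∃ g, g = z % 32 % 4 := ⟨_, rfl⟩
  obtain ⟨e, he⟩ : ∃ e, e = (z % 32) >>> 2 := ⟨_, rfl⟩
  obtain ⟨u, hu⟩ : ∃ u, u = (nth his 0 - nth los 0) >>> (g + e) := ⟨_, rfl⟩
  obtain ⟨S, hS⟩ : ∃ S, S = 2 ^ g := ⟨_, rfl⟩
  obtain ⟨s, hs'⟩ : ∃ s, 2 ^ e = s + 1 := Nat.exists_eq_succ_of_ne_zero (by positivity)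
  have e1 : ∀ U G M T, gl U G M T c n (pk los) (pk his) CT j0 CL K z =
      gl3 U G M T c n (pk los) (pk his) CT j0 CL K (z >>> 5) g e S (s + 1) u ((s + 1) * u)
        (S * ((s + 1) * u)) (onv S n) los.sum := fun U G M T => by
    rw [← hs', hS, hu, ← a1, ← a2, ← (bx.sum hn).1, hg, he]
    exact (fz_eq _ _).trans ((fz_eq _ _).trans (fz_eq _ _))
  have e2 : ∀ U G M T m h H O SL, gl3 U G M T c n (pk los) (pk his) CT j0 CL K m g e S (s + 1) u h H
      O SL = glw M T S n O (pk los + (M - 1 - (SL + n * H)) <<< (64 * n)) (64 * n) h (H + 1)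
        (gl4 G M c S n O (pk los) CT j0 g e (s + 1) h u SL) CL (m % 16) (m >>> 4) (gz0 U S n h SL K)
        ((pk his ^^^ (pk los + H * onw 64 n)) + (SL + n * H + 1 - M) + (n - (s + 1 + 1)) +
          (S * n - 32) + SL % U) := fun _ _ _ _ _ _ _ _ _ => rfl
  rw [e1, e2] at H ⊢
  have hG : 0 < P.G := by have := hs.G2; omega
  have hM := hs.M
  have hz := hs.Gz
  have g3 : g ≤ 3 := by omega
  have b1 : ∀ a ∈ los, 0 < a ∧ a ≤ 32768 := by
    clear H hK hT hc hl e1 e2 bx a1 a2 a3 hu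
    induction hb with
    | nil => simp
    | cons _ _ _ _ _ ih => exact List.forall_mem_cons.2 ⟨by omega, ih⟩
  have hk := gl4_zero (G := P.G) (M := P.N * P.G) (c := c) (CT := CT) (j0 := j0) (e := e)
    (s := s + 1) (h := (s + 1) * u) (u := u) (SL := los.sum) hS g3 b1 hl
  have b0 := glw_zero hk _ _ _ _ H
  rw [b0] at H ⊢
  have b2 : eqw (S * ((s + 1) * u)) los his = 0 := by
    refine (bx.eqw ?_).1 ?_
    · have := Nat.mul_div_le (nth his 0 - nth los 0) (2 ^ (g + e))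
      rw [← Nat.shiftRight_eq_div_pow, ← hu, pow_add, ← hS, hs', mul_assoc] at this
      omega
    · rw [F.kKFd_onn, ← onw_eq (by norm_num)]
      exact Nat.xor_eq_zero_iff.1 (by omega)
  have b3 : ∀ a ∈ los, 0 < S * ((s + 1) * u) ∧ S * ((s + 1) * u) ≤ a := by
    clear H hK hT hc hl e1 e2 bx a1 a2 a3 hu b0 hk b1
    induction hb with
    | nil => simp
    | @cons lo hi l t h1 h2 h3 _ _ ih =>
      obtain ⟨rfl, e2⟩ := kCv_eqw _ _ _ _ _ b2
      refine List.forall_mem_cons.2 ⟨?_, ih e2⟩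
      have := Nat.div_mul_le_self lo P.G
      rw [add_mul (lo / P.G), one_mul] at h3
      omega
  obtain ⟨x, hx'⟩ := List.exists_mem_of_length_pos (hl ▸ h0)
  obtain ⟨Z, z1, z2⟩ := glw_spec hs hx.B0 hx.δB (Nat.pos_of_ne_zero T0) (fun a h => (b1 a h).2) hl hn
    (Nat.pos_of_mul_pos_left (b3 x hx').1) (by omega) hL hk _ _ _ _
    (gz0_spec hs hx.B0 hl hn (by omega) (by omega) hK) rfl H
  exact gl4_spec hx hb hc hT z1 hl h0 hn (by omega) hS g3 hs'.symm (by omega) b2 (fun a h => ⟨b1 a h,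
    (Nat.le_mul_of_pos_left _ (by rw [hS]; positivity)).trans (b3 a h).2⟩) z2 H

theorem cert_of_grid {P : Par} {tb tq tc : Tr} {Y0 s : ℕ} {J : Jt} (hs : Sm P)
    (hz : P.z = P.z / P.G * P.G) (hc : chk P.N P.Q tb (P.z / P.G) [] = 0) (hq : ckr Y0 tb tq = 0)
    (hT : TcOK P tb tc)
    (hJ : run8 P.G P.N (P.N * P.G) P.T (P.G / 32) P.z (P.z / P.G) Y0 tb tq tc J = 0)
    (h : 1000 * top P.G (P.N * P.G) P.z (P.z / P.G) J s ≤ 998 * 2 ^ 52) :
    Cert P (lamT P.N (P.z / P.G) tb) :=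
  cert_of_run8 gl_spec hs hz hc hq hT hJ h

end Pool.Agent.Work.MP_82fd4a_nt.P.G
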