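import Pool.Agent.Work.MP_82fd4a_nt.P.KGa

/-! The grid: the constant vectors. -/

set_option autoImplicit false
open Finset

namespace Pool.Agent.Work.MP_82fd4a_nt.P.G

open BS Y

theorem kKGp_blk (S k : ℕ) (g : ℕ → ℕ → ℕ) (F : ℕ → ℕ)
    (h : ∀ i ≤ S, ∀ x < (S + 1) ^ k, g i x = F (x + (S + 1) ^ k * i)) :
    pack (64 * (S + 1) ^ k) (S + 1) (fun i => pack 64 ((S + 1) ^ k) (g i)) =
      pack 64 ((S + 1) ^ (k + 1)) F := by
  rw [pack_blk, pow_succ]
  refine pack_congr fun y hy => ?_
  have h0 : 0 < (S + 1) ^ k := Nat.pow_pos (Nat.succ_pos S)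
  rw [h _ (Nat.lt_succ_iff.1 (Nat.div_lt_of_lt_mul hy)) _ (Nat.mod_lt _ h0), Nat.mod_add_div]

theorem kKGp_ds {S k x i : ℕ} (hx : x < (S + 1) ^ k) (hi : i ≤ S) :
    ds S (k + 1) (x + (S + 1) ^ k * i) = ds S k x + i := by
  rw [ds, sum_range_succ, dig_top hx hi, ds]
  congr 1
  exact sum_congr rfl fun d hd => dig_low (mem_range.1 hd) x i

theorem dsv_eq (S h n x : ℕ) (f : ℕ → ℕ) :
    dsv S h f n x = pack 64 ((S + 1) ^ n) fun v => f (x + ds S n v * h) := by
  induction n generalizing x with
  | zero => rw [pow_zero, pack_one]; simp [ds, dsv]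
  | succ k ih =>
    have e : dsv S h f (k + 1) x =
        blk (pb S k) (fun i => fz (x + i * h) (dsv S h f k)) (S + 1) := rfl
    rw [e, blk_eq, pb_eq]
    simp only [fz_eq, ih]
    refine kKGp_blk S k (fun i v => f (x + i * h + ds S k v * h)) _ fun i hi y hy => ?_
    rw [kKGp_ds hy hi]
    congr 1
    ring

theorem cmv_eq (S n : ℕ) :
    cmv S n = pack 64 ((S + 1) ^ n) fun v => if ∀ d < n, dig S d v < S then 1 else 0 := by
  induction n with
  | zero => rw [pow_zero, pack_one]; simp [cmv]
  | succ k ih =>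
    have e : cmv S (k + 1) = blk (pb S k) (fun _ => cmv S k) S := rfl
    rw [e, blk_eq, pb_eq, ih, ← kKGp_blk S k
      (fun i v => if i < S then (if ∀ d < k, dig S d v < S then 1 else 0) else 0), pack_succ']
    · simp only [lt_irrefl, if_false, pack_const_zero, zero_mul, add_zero]
      exact pack_congr fun i hi => by simp only [hi, if_true]
    · intro i hi y hy
      have : (∀ d < k + 1, dig S d (y + (S + 1) ^ k * i) < S) ↔
          i < S ∧ ∀ d < k, dig S d y < S := by
        rw [Nat.forall_lt_succ_right, dig_top hy hi, and_comm]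
        exact and_congr_right fun _ => forall₂_congr fun d hd => by rw [dig_low hd]
      simp only [this]
      by_cases h1 : i < S <;> simp [h1]

theorem vdg_eq (S d k : ℕ) : vdg S d k = pack 64 ((S + 1) ^ (d + k + 1)) (dig S d) := by
  induction k with
  | zero =>
    have e : vdg S d 0 = blk (pb S d) (fun i => i * onv S d) (S + 1) := rfl
    rw [e, blk_eq, pb_eq, onv_eq]
    simp only [pack_smul, mul_one]
    exact kKGp_blk S d (fun i _ => i) _ fun i hi y hy => (dig_top hy hi).symm
  | succ j ih =>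
    have e : vdg S d (j + 1) = blk (pb S (d + j + 1)) (fun _ => vdg S d j) (S + 1) := rfl
    rw [e, blk_eq, pb_eq, ih]
    exact kKGp_blk S (d + j + 1) (fun _ => dig S d) _ fun i _ y _ => (dig_low (by omega) y i).symm

theorem dgr_eq {S n : ℕ} {r : Rc} (hm : ∀ j, r.m j < 16) :
    dgr S n r.e (∑ j ∈ range n, r.m j * 2 ^ (64 * (n - 1 - j))) =
      pack 64 ((S + 1) ^ n) (dvx S n r) := by
  have hy : ∑ j ∈ range n, r.m j * 2 ^ (64 * (n - 1 - j)) = pack 64 n fun d => r.m (n - 1 - d) := by
    rw [pack, ← sum_range_reflect]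
    refine sum_congr rfl fun j hj => ?_
    have := mem_range.1 hj
    rw [show n - 1 - (n - 1 - j) = j by omega]
  rw [hy]
  have key : ∀ k ≤ n, dg1 S n r.e (pack 64 n fun d => r.m (n - 1 - d)) k =
      pack 64 ((S + 1) ^ n) fun v =>
        r.e * (S * n - ds S n v) + ∑ d ∈ range k, r.m (n - 1 - d) * dig S d v := by
    intro k
    induction k with
    | zero =>
      intro _
      have e : ∀ y, dg1 S n r.e y 0 = r.e * dsv S 1 (fun t => S * n - t) n 0 := fun _ => rfl
      rw [e, dsv_eq, pack_smul]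
      exact pack_congr fun v _ => by simp
    | succ k ih =>
      intro hk
      have e : ∀ y, dg1 S n r.e y (k + 1) = dg1 S n r.e y k +
          (y >>> (64 * k) % 18446744073709551616) * vdg S k (n - (k + 1)) := fun _ => rfl
      rw [e, ih (by omega), show (18446744073709551616 : ℕ) = 2 ^ 64 by norm_num,
        pack_lane (by omega) (fun i _ => (hm _).trans (by norm_num)), vdg_eq,
        show k + (n - (k + 1)) + 1 = n by omega, pack_smul, pack_add]
      exact pack_congr fun v _ => by rw [sum_range_succ, add_assoc]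
  exact key n le_rfl

theorem vk_eq {N : ℕ} {f : ℕ → ℕ} (hf : ∀ i < N, f i < 2 ^ 64) :
    vk (pack 64 N fun _ => 1) (pack 64 N f) = pack 64 N fun i => f i - 2 ^ 63 := by
  have e : ∀ O Z c : ℕ, c = 9223372036854775807 → vk O Z = Z &&& ((Z >>> 63 &&& O) * c) := by
    rintro O Z c rfl; rfl
  have hb : ∀ x < N, (pack 64 N f >>> 63).testBit (64 * x) = (f x).testBit 63 := fun x hx => by
    rw [Nat.testBit_shiftRight, add_comm, pack_bit hf hx (by norm_num)]
  rw [e _ _ (2 ^ 63 - 1) (by norm_num), land_one, mul_comm, pack_smul, pack_land hf]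
  · refine pack_congr fun x hx => ?_
    have h1 := hf x hx
    rw [hb x hx]
    split_ifs with h
    · have h2 := Nat.ge_two_pow_of_testBit h
      rw [mul_one, Nat.and_two_pow_sub_one_eq_mod]
      omega
    · have h2 : f x < 2 ^ 63 := by
        by_contra hc
        exact h (Nat.testBit_of_two_pow_le_and_two_pow_add_one_gt (by omega) h1)
      rw [mul_zero, Nat.and_zero]
      omega
  · intro i _
    split_ifs <;> norm_num

end Pool.Agent.Work.MP_82fd4a_nt.P.G
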