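import Pool.Agent.Work.MP_82fd4a_nt.P.KDt

/-! The test for the multilinear estimate. -/

set_option autoImplicit false
open Finset

namespace Pool.Agent.Work.MP_82fd4a_nt.P

open BS Y

private theorem kKII_nil (M T : ℕ) (los his : List ℕ) (X Y sh A R g : ℕ) :
    iiL M T los his X Y sh Ce.nil A R g = gl g (g / 2 ^ 64 % 2 ^ 64) los his 128
      (A + g / 2 ^ 64 % 2 ^ 64 * (M - 1)) (R + 137506062336) := by
  have e : iiL M T los his X Y sh Ce.nil A R g = fz g fun g =>
      fz (g >>> 64 % 18446744073709551616) fun ge =>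
        gl g ge los his 128 (A + ge * (M - 1)) (R + 137506062336) := rfl
  rw [e, fz_eq, fz_eq, Nat.shiftRight_eq_div_pow]
  norm_num

private theorem kKII_cons (M T : ℕ) (los his : List ℕ) (X Y sh w a c e yp yn mv : ℕ) (t : Ce)
    (A R g Ll Lh p0 ws : ℕ) (h1 : Ll = e * (M - 1) + dt X yp sh - dt Y yn sh)
    (h2 : Lh = e * M + dt Y yp sh - dt X yn sh) (h3 : p0 = min (a * Ll - c) 16777216)
    (h4 : ws = w * ((min (a * Lh - c) 16777216 - p0) / (Lh - Ll) % 65536)) :
    iiL M T los his X Y sh (Ce.cons w a c e yp yn mv t) A R g =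
      if T ≤ 2 * Ll ∧ Lh ≤ M ∧ c ≤ a * Ll then
        iiL M T los his X Y sh t (A + w * p0) (R + ws * Ll) (g + ws * mv) else BAD := by
  have e : iiL M T los his X Y sh (Ce.cons w a c e yp yn mv t) A R g =
      fz (e * (M - 1) + dt X yp sh - dt Y yn sh) fun Ll =>
      fz (e * M + dt Y yp sh - dt X yn sh) fun Lh =>
      il T (2 * Ll) (il Lh M (fz (a * Ll) fun u => il c u
        (fz (mn (u - c) 16777216) fun p0 =>
          fz (w * ((mn (a * Lh - c) 16777216 - p0) / (Lh - Ll) % 65536)) fun ws =>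
          iiL M T los his X Y sh t (A + w * p0) (R + ws * Ll) (g + ws * mv))
        BAD) BAD) BAD := rfl
  rw [e, ← h1, ← h2]
  simp only [fz_eq, il_eq, mn_eq]
  rw [← h3, ← h4]
  by_cases c1 : T ≤ 2 * Ll <;> by_cases c2 : Lh ≤ M <;> by_cases c3 : c ≤ a * Ll <;>
    simp only [c1, c2, c3, if_true, if_false, and_self, and_true, and_false]

private theorem kKII_zero {M T : ℕ} {los his : List ℕ} {X Y sh : ℕ} (ce : Ce) :
    ∀ A R g, iiL M T los his X Y sh ce A R g < BAD → iiL M T los his X Y sh ce A R g = 0 := by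
  induction ce with
  | nil =>
    intro A R g h
    rw [kKII_nil] at h ⊢
    exact gl_zero h
  | cons w a c e yp yn mv t ih =>
    intro A R g h
    rw [kKII_cons _ _ _ _ _ _ _ _ _ _ _ _ _ _ _ _ _ _ _ _ _ _ rfl rfl rfl rfl] at h ⊢
    split_ifs at h ⊢ with hc
    · exact ih _ _ _ h
    · exact absurd h (lt_irrefl _)

private theorem kKII_ii (M T n : ℕ) (los his : List ℕ) (ce : Ce) :
    ii M T n los his ce = iiL M T los his (slt (pk los)) (slt (pk his)) (64 * n) ce 0 0
      ((slt (pk los) * 251 + slt (pk his)) % 4294967296) := by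
  unfold ii
  rw [fz_eq, fz_eq, fz_eq]
  rfl

theorem ii_zero {M T n : ℕ} {los his : List ℕ} {ce : Ce} (h : ii M T n los his ce < BAD) :
    ii M T n los his ce = 0 := by
  rw [kKII_ii] at h ⊢
  exact kKII_zero ce _ _ _ h

/-- lower bound for the length of a monomial -/
private noncomputable def kLl (M X Y n : ℕ) (r : Rc) : ℕ :=
  r.e * (M - 1) + dt X (∑ j ∈ range n, (r.m j - r.e) * 2 ^ (64 * (n - 1 - j))) (64 * n) -
    dt Y (∑ j ∈ range n, (r.e - r.m j) * 2 ^ (64 * (n - 1 - j))) (64 * n)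

/-- upper bound for the length of a monomial -/
private noncomputable def kLh (M X Y n : ℕ) (r : Rc) : ℕ :=
  r.e * M + dt Y (∑ j ∈ range n, (r.m j - r.e) * 2 ^ (64 * (n - 1 - j))) (64 * n) -
    dt X (∑ j ∈ range n, (r.e - r.m j) * 2 ^ (64 * (n - 1 - j))) (64 * n)

/-- value of the minorant at the lower end -/
private noncomputable def kP0 (M X Y n : ℕ) (r : Rc) : ℕ :=
  min (r.a * kLl M X Y n r - r.c) 16777216

/-- slope of the minorant -/
private noncomputable def kSg (M X Y n : ℕ) (r : Rc) : ℕ :=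
  (min (r.a * kLh M X Y n r - r.c) 16777216 - kP0 M X Y n r) /
    (kLh M X Y n r - kLl M X Y n r) % 65536

private theorem kKII_run {M T n : ℕ} {los his : List ℕ} {X Y : ℕ} (rs : List Rc) :
    ∀ A R g, iiL M T los his X Y (64 * n) (mkCe n rs) A R g < BAD →
      (∀ r ∈ rs, T ≤ 2 * kLl M X Y n r ∧ kLh M X Y n r ≤ M ∧ r.c ≤ r.a * kLl M X Y n r) ∧
      ∀ G, G = g + (rs.map fun r => r.w * kSg M X Y n r *
          (r.e * 2 ^ 64 + ∑ j ∈ range n, r.m j * 2 ^ (64 * (j + 2)))).sum →
        gl G (G / 2 ^ 64 % 2 ^ 64) los his 128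
          (A + (rs.map fun r => r.w * kP0 M X Y n r).sum + G / 2 ^ 64 % 2 ^ 64 * (M - 1))
          (R + (rs.map fun r => r.w * kSg M X Y n r * kLl M X Y n r).sum + 137506062336) <
            BAD := by
  induction rs with
  | nil =>
    intro A R g h
    refine ⟨by simp, fun G hG => ?_⟩
    rw [mkCe, kKII_nil] at h
    simp only [List.map_nil, List.sum_nil, add_zero] at hG ⊢
    rwa [hG]
  | cons r t ih =>
    intro A R g h
    rw [mkCe, kKII_cons _ _ _ _ _ _ _ _ _ _ _ _ _ _ _ _ _ _ (kLl M X Y n r) (kLh M X Y n r)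
      (kP0 M X Y n r) (r.w * kSg M X Y n r) rfl rfl rfl rfl] at h
    split_ifs at h with hc
    · obtain ⟨i1, i2⟩ := ih _ _ _ h
      refine ⟨fun s hs => ?_, fun G hG => ?_⟩
      · rcases List.mem_cons.1 hs with rfl | hs
        exacts [hc, i1 s hs]
      · have := i2 G (by rw [hG, List.map_cons, List.sum_cons, add_assoc])
        simp only [List.map_cons, List.sum_cons, ← add_assoc]
        exact this
    · exact absurd h (lt_irrefl _)

private theorem kKII_sum {α β : Type} [AddCommMonoid α] (b : β) (f : β → α) (l : List β) :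
    (l.map f).sum = ∑ i ∈ range l.length, f (l.getD i b) := by
  induction l with
  | nil => simp
  | cons r t ih =>
    rw [List.map_cons, List.sum_cons, List.length_cons, sum_range_succ', ih, add_comm]
    rfl

private theorem kKII_sum' (l : List ℕ) : l.sum = ∑ i ∈ range l.length, l.getD i 0 := by
  have := kKII_sum 0 (fun x : ℕ => x) l
  rwa [List.map_id'] at this

private theorem kKII_dot (m : ℕ → ℕ) (e : ℕ) (pre rest : List ℕ) :
    dot (fun j => if j < pre.length then m j else e) (pre ++ rest) =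
      ∑ j ∈ range pre.length, m j * pre.getD j 0 + e * rest.sum := by
  rw [dot, List.length_append, sum_range_add, kKII_sum' rest, mul_sum]
  congr 1
  · refine sum_congr rfl fun j hj => ?_
    rw [if_pos (mem_range.1 hj), List.getD_append _ _ _ _ (mem_range.1 hj)]
  · refine sum_congr rfl fun j _ => ?_
    rw [if_neg (by omega), List.getD_append_right _ _ _ _ (by omega), Nat.add_sub_cancel_left]

private theorem kKII_box {B : ℕ} {los his pre : List ℕ} (hp : InB B los his pre) (y : ℕ → ℕ) :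
    (∑ j ∈ range pre.length, y j * los.getD j 0) * B ≤ ∑ j ∈ range pre.length, y j * pre.getD j 0 ∧
    ∑ j ∈ range pre.length, y j * pre.getD j 0 ≤
      (∑ j ∈ range pre.length, y j * his.getD j 0) * B := by
  rw [sum_mul, sum_mul]
  refine ⟨sum_le_sum fun j hj => ?_, sum_le_sum fun j hj => ?_⟩
  · rw [mul_assoc]
    exact Nat.mul_le_mul_left _ (hp.get (mem_range.1 hj)).1
  · rw [mul_assoc]
    exact Nat.mul_le_mul_left _ (hp.get (mem_range.1 hj)).2.le

private theorem kKII_los {B : ℕ} {los his pre : List ℕ} (hp : InB B los his pre)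
    (hh : ∀ x ∈ his, x ≤ 4096) : ∀ x ∈ los, x ≤ 4096 := by
  induction hp with
  | nil => simp
  | @cons lo hi x l h p h1 h2 _ ih =>
    intro y hy
    rcases List.mem_cons.1 hy with rfl | hy
    · exact (Nat.lt_of_mul_lt_mul_right (h1.trans_lt h2)).le.trans (hh hi (by simp))
    · exact ih (fun z hz => hh z (List.mem_cons_of_mem _ hz)) y hy

private theorem kKII_len {M T B : ℕ} {los his pre rest : List ℕ} {r : Rc} (hn : pre.length ≤ 30)
    (hh : ∀ x ∈ his, x ≤ 4096) (hp : InB B los his pre) (hr : r.OK T)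
    (h1 : (M - 1) * B ≤ pre.sum + rest.sum) (h2 : pre.sum + rest.sum ≤ M * B) {L : ℕ}
    (hL : L = ∑ j ∈ range pre.length, r.m j * pre.getD j 0 + r.e * rest.sum) :
    kLl M (slt (pk los)) (slt (pk his)) pre.length r * B ≤ L ∧
      L ≤ kLh M (slt (pk los)) (slt (pk his)) pre.length r * B := by
  have hlo := kKII_los hp hh
  have y1 : ∀ j, r.m j - r.e < 16 := fun j => by have := hr.m j; omega
  have y2 : ∀ j, r.e - r.m j < 16 := fun j => by have := hr.e; omega
  rw [kLl, kLh, dt_spec hn hp.len.1 hlo y1, dt_spec hn hp.len.1 hlo y2,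
    dt_spec hn hp.len.2 hh y1, dt_spec hn hp.len.2 hh y2, Nat.sub_mul, Nat.sub_mul, add_mul,
    add_mul]
  have b1 := kKII_box hp fun j => r.m j - r.e
  have b2 := kKII_box hp fun j => r.e - r.m j
  have e1 : ∑ j ∈ range pre.length, r.m j * pre.getD j 0 +
      ∑ j ∈ range pre.length, (r.e - r.m j) * pre.getD j 0 =
      r.e * pre.sum + ∑ j ∈ range pre.length, (r.m j - r.e) * pre.getD j 0 := by
    rw [kKII_sum' pre, mul_sum, ← sum_add_distrib, ← sum_add_distrib]
    refine sum_congr rfl fun j _ => ?_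
    rw [← add_mul, ← add_mul]
    congr 1
    omega
  have c1 := Nat.mul_le_mul_left r.e h1
  have c2 := Nat.mul_le_mul_left r.e h2
  rw [← mul_assoc, mul_add] at c1 c2
  omega

private theorem kKII_tan {T B L Ll Lh a c p0 sg : ℕ} (hB : 0 < B) (h1 : Ll * B ≤ L)
    (h2 : L ≤ Lh * B) (hc : c ≤ a * Ll) (hp : p0 = min (a * Ll - c) 16777216)
    (hs : sg = (min (a * Lh - c) 16777216 - p0) / (Lh - Ll) % 65536)
    (ht : ∀ L : ℝ, 0 ≤ L → L < T → a * L - c ≤ 16777216 * (L / (2 * T - L))) :
    (p0 * B + sg * L : ℝ) ≤ 16777216 * phi (T * B : ℕ) L * B + sg * Ll * B := by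
  have hl : Ll ≤ Lh := Nat.le_of_mul_le_mul_right (h1.trans h2) hB
  obtain ⟨d, rfl⟩ := Nat.exists_eq_add_of_le hl
  rw [Nat.add_sub_cancel_left, mul_add] at hs
  have s1 : sg * d ≤ min (a * Ll + a * d - c) 16777216 - p0 :=
    (Nat.mul_le_mul_right _ (hs.le.trans (Nat.mod_le _ _))).trans (Nat.div_mul_le_self _ _)
  have s2 : sg ≤ a := by
    rcases Nat.eq_zero_or_pos d with rfl | hd
    · simp [hs]
    · exact Nat.le_of_mul_le_mul_right (by omega) hd
  have s3 : p0 + sg * d ≤ 16777216 := by omega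
  have s4 : p0 + c ≤ a * Ll := by omega
  have r0 : (0 : ℝ) < B := by exact_mod_cast hB
  have r1 : (Ll * B : ℝ) ≤ L := by exact_mod_cast h1
  have r2 : (L : ℝ) ≤ (Ll + d) * B := by exact_mod_cast h2
  have r3 : (p0 + sg * d : ℝ) ≤ 16777216 := by exact_mod_cast s3
  have r4 : (p0 + c : ℝ) ≤ a * Ll := by exact_mod_cast s4
  have r5 : (sg : ℝ) ≤ a := by exact_mod_cast s2
  have r6 : (0 : ℝ) ≤ sg := Nat.cast_nonneg _
  unfold phi
  split_ifs with hT
  · nlinarith [mul_le_mul_of_nonneg_left r2 r6, mul_le_mul_of_nonneg_right r3 r0.le]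
  · push_cast at hT ⊢
    have hx : (L : ℝ) / B < T := by rw [div_lt_iff₀ r0]; exact not_le.1 hT
    have t1 := mul_le_mul_of_nonneg_right (ht (L / B) (by positivity) hx) r0.le
    have hL : (0 : ℝ) ≤ L := Nat.cast_nonneg _
    have e1 : (L : ℝ) / B / (2 * T - L / B) = L / (2 * (T * B) - L) := by
      rw [div_div]
      congr 1
      field_simp
    have e2 : (a * ((L : ℝ) / B) - c) * B = a * L - c * B := by field_simp
    rw [e1, e2] at t1
    nlinarith [mul_le_mul_of_nonneg_right r4 r0.le,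
      mul_le_mul_of_nonneg_right r5 (sub_nonneg.2 r1)]

theorem ii_spec {M T n B : ℕ} {los his pre rest : List ℕ} {ce : Ce} (hn : n ≤ 30)
    (hl : los.length = n) (hh : ∀ x ∈ his, x ≤ 4096) (hce : CeOK T n ce)
    (h : ii M T n los his ce < BAD) (hB : 0 < B) (hp : InB B los his pre)
    (h1 : M * B ≤ (pre ++ rest).sum + B) (h2 : (pre ++ rest).sum ≤ M * B) :
    GoodL (T * B : ℕ) (M * B : ℕ) (1 / 1024) (pre ++ rest) := by
  obtain ⟨rs, rfl, k1, k2, k3, k4⟩ := hce
  obtain rfl : n = pre.length := hl.symm.trans hp.len.1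
  rw [List.sum_append] at h1 h2
  have h3 : (M - 1) * B ≤ pre.sum + rest.sum := by rw [Nat.sub_mul, one_mul]; omega
  rw [kKII_ii] at h
  obtain ⟨i1, i2⟩ := kKII_run rs _ _ _ h
  generalize hX : slt (pk los) = X at i1 i2
  generalize hY : slt (pk his) = Y at i1 i2
  have g1 := gl_spec (i2 _ rfl) hp
  have g0 : (X * 251 + Y) % 4294967296 < 2 ^ 64 :=
    (Nat.mod_lt _ (by norm_num)).trans (by norm_num)
  obtain ⟨l1, l2⟩ := lanes_spec (n := pre.length) (fun r => r.w * kSg M X Y pre.length r) g0 k2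
    (fun r hr => by
      have a1 := (k2 r hr).w
      have a2 : kSg M X Y pre.length r < 65536 := Nat.mod_lt _ (by norm_num)
      calc r.w * kSg M X Y pre.length r ≤ 8192 * 65536 := Nat.mul_le_mul a1.le a2.le
        _ < 2 ^ 30 := by norm_num) k1
  rw [l1, sum_congr rfl fun j hj => by rw [l2 j (mem_range.1 hj)]] at g1
  let r0 : Rc := ⟨0, 0, 0, 0, fun _ => 0⟩
  have hm : ∀ i < rs.length, rs.getD i r0 ∈ rs := fun i hi => by
    rw [List.getD_eq_getElem _ _ hi]
    exact List.getElem_mem hi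
  simp only [kKII_sum r0] at g1 k3 k4
  generalize hρ : (fun i => rs.getD i r0) = ρ
  have hρ' : ∀ i, rs.getD i r0 = ρ i := fun i => congrFun hρ i
  simp only [hρ'] at g1 k3 k4 hm
  have hL : ∀ i < rs.length, kLl M X Y pre.length (ρ i) * B ≤
      dot (fun j => if j < pre.length then (ρ i).m j else (ρ i).e) (pre ++ rest) ∧
      dot (fun j => if j < pre.length then (ρ i).m j else (ρ i).e) (pre ++ rest) ≤
        kLh M X Y pre.length (ρ i) * B := fun i hi => by
    rw [← hX, ← hY]
    exact kKII_len hn hh hp (k2 _ (hm i hi)) h3 h2 (kKII_dot _ _ _ _)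
  refine ⟨rs.length, fun i => ((ρ i).w : ℝ) / 4096,
    fun i j => if j < pre.length then (ρ i).m j else (ρ i).e, by omega,
    fun i _ => by positivity, fun i hi => ?_, fun i hi => ?_, fun j _ => ?_, ?_⟩
  · have := Nat.mul_le_mul_right B (i1 _ (hm i hi)).1
    rw [mul_assoc] at this
    exact_mod_cast this.trans (Nat.mul_le_mul_left 2 (hL i hi).1)
  · exact_mod_cast (hL i hi).2.trans (Nat.mul_le_mul_right B (i1 _ (hm i hi)).2.1)
  · have : ∑ i ∈ range rs.length,
        (ρ i).w * (if j < pre.length then (ρ i).m j else (ρ i).e) ≤ 4096 := by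
      by_cases hj : j < pre.length
      · simpa only [if_pos hj] using k4 j hj
      · simpa only [if_neg hj] using k3
    have r1 : ∑ i ∈ range rs.length, ((ρ i).w : ℝ) *
        ((if j < pre.length then (ρ i).m j else (ρ i).e : ℕ) : ℝ) ≤ 4096 := by
      exact_mod_cast this
    simp only [div_mul_eq_mul_div, ← sum_div]
    rwa [div_le_one (by norm_num)]
  · have e1 : ∑ i ∈ range rs.length, (ρ i).w * kSg M X Y pre.length (ρ i) *
        dot (fun j => if j < pre.length then (ρ i).m j else (ρ i).e) (pre ++ rest) =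
        ∑ j ∈ range pre.length, (∑ i ∈ range rs.length,
          (ρ i).w * kSg M X Y pre.length (ρ i) * (ρ i).m j) * pre.getD j 0 +
        (∑ i ∈ range rs.length, (ρ i).w * kSg M X Y pre.length (ρ i) * (ρ i).e) * rest.sum := by
      simp only [kKII_dot, mul_add, sum_add_distrib, mul_sum, sum_mul, mul_assoc]
      rw [sum_comm]
    have c1 := Nat.mul_le_mul_left
      (∑ i ∈ range rs.length, (ρ i).w * kSg M X Y pre.length (ρ i) * (ρ i).e) h3
    have c2 : 137506062336 * B + (∑ i ∈ range rs.length,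
        (ρ i).w * kSg M X Y pre.length (ρ i) * kLl M X Y pre.length (ρ i)) * B ≤
        (∑ i ∈ range rs.length, (ρ i).w * kP0 M X Y pre.length (ρ i)) * B +
        ∑ i ∈ range rs.length, (ρ i).w * kSg M X Y pre.length (ρ i) *
          dot (fun j => if j < pre.length then (ρ i).m j else (ρ i).e) (pre ++ rest) := by
      rw [e1]
      simp only [zero_add, add_mul] at g1
      rw [← mul_assoc, mul_add] at c1
      omega
    have c3 := (Nat.cast_le (α := ℝ)).2 c2
    push_cast at c3
    have r0 : (0 : ℝ) < B := by exact_mod_cast hB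
    have c4 := sum_le_sum fun i (hi : i ∈ range rs.length) => mul_le_mul_of_nonneg_left
      (kKII_tan (p0 := kP0 M X Y pre.length (ρ i)) (sg := kSg M X Y pre.length (ρ i)) hB
        (hL i (mem_range.1 hi)).1 (hL i (mem_range.1 hi)).2 (i1 _ (hm i (mem_range.1 hi))).2.2
        rfl rfl (k2 _ (hm i (mem_range.1 hi))).tan) (Nat.cast_nonneg (α := ℝ) (ρ i).w)
    simp only [mul_add, sum_add_distrib] at c4
    simp only [sum_mul, mul_assoc] at c3 c4
    have c5 : ∑ i ∈ range rs.length, ((ρ i).w : ℝ) * (16777216 * (phi (T * B : ℕ)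
        (dot (fun j => if j < pre.length then (ρ i).m j else (ρ i).e) (pre ++ rest)) * B)) =
        68719476736 * (∑ i ∈ range rs.length, ((ρ i).w : ℝ) / 4096 * phi (T * B : ℕ)
        (dot (fun j => if j < pre.length then (ρ i).m j else (ρ i).e) (pre ++ rest))) * B := by
      rw [mul_sum, sum_mul]
      exact sum_congr rfl fun i _ => by ring
    rw [c5] at c4
    have c6 := le_of_mul_le_mul_right (a := (B : ℝ)) (b := 137506062336)
      (c := 68719476736 * (∑ i ∈ range rs.length, ((ρ i).w : ℝ) / 4096 * phi (T * B : ℕ)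
        (dot (fun j => if j < pre.length then (ρ i).m j else (ρ i).e) (pre ++ rest))))
      (by linarith) r0
    linarith

end Pool.Agent.Work.MP_82fd4a_nt.P
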