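import Pool.Agent.Work.MP_82fd4a_nt.P.Tc
import Pool.Agent.Work.MP_82fd4a_nt.P.KDefs

/-! The combinatorial meaning of the program that checks the table of the costs. -/

set_option autoImplicit false

namespace Pool.Agent.Work.MP_82fd4a_nt.P

open BS Y

/-- first value of a stream -/
def hdT : Tr → ℕ
  | Tr.e => 0
  | Tr.c v _ _ => v

/-- first children of a stream -/
def kdT : Tr → Tr
  | Tr.e => Tr.e
  | Tr.c _ k _ => k

/-- the rest of a stream -/
def tlT : Tr → Tr
  | Tr.e => Tr.e
  | Tr.c _ _ r => r

theorem un_eq (s : Tr) (f : ℕ → Tr → Tr → ℕ) : un s f = f (hdT s) (kdT s) (tlT s) := by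
  cases s <;> rfl

theorem mrg_e (s : Tr) : mrg s Tr.e = s := by cases s <;> rfl

theorem skip_tl (s : Tr) (n : ℕ) : skip s (n + 1) = skip (tlT s) n := by cases s <;> rfl

theorem skip_mrg (i : ℕ) (s u : Tr) : skip (mrg s u) i = mrg (skip s i) (skip u i) := by
  induction i generalizing s u with
  | zero => simp only [skip_zero]
  | succ i ih =>
    cases s with
    | e => rfl
    | c v k r =>
      cases u with
      | e => rw [mrg_e, skip_e, mrg_e]
      | c v' k' r' => exact ih r r'

theorem ph_mrg (l : List ℕ) (s u : Tr) (a : ℕ) : ph l (mrg s u) a = ph l s a + ph l u a := by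
  induction l generalizing s u a with
  | nil => rfl
  | cons x t ih =>
    rw [ph_cons, ph_cons, ph_cons, skip_mrg]
    cases skip s (x - a) with
    | e => exact (zero_add _).symm
    | c v k r =>
      cases skip u (x - a) with
      | e => rfl
      | c v' k' r' =>
        change v + v' + ph t (mrg k k') x + ph t (mrg (Tr.c v k r) (Tr.c v' k' r')) x =
          v + ph t k x + ph t (Tr.c v k r) x + (v' + ph t k' x + ph t (Tr.c v' k' r') x)
        rw [ih, ih]
        ring

theorem pf_eq (l : List ℕ) (s : Tr) (a o : ℕ) : pf l s a o = o + ph l s a := by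
  induction l generalizing s a o with
  | nil => rfl
  | cons x t ih =>
    have e : pf (x :: t) s a o = Tr.rec (motive := fun _ => ℕ) o (fun v k r _ _ =>
      fz (o + v) fun o' => pf t (mrg (Tr.c v k r) k) x o') (skip s (x - a)) := rfl
    rw [e, ph_cons]
    cases skip s (x - a) with
    | e => rfl
    | c v k r =>
      change fz (o + v) _ = o + (v + ph t k x + ph t (Tr.c v k r) x)
      rw [fz_eq, ih, ph_mrg]
      ring

theorem ph_hd (d : ℕ) (t : List ℕ) (s : Tr) :
    ph (d :: t) s d = hdT s + ph t (mrg s (kdT s)) d := by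
  rw [ph_cons, Nat.sub_self, skip_zero, ph_mrg]
  cases s with
  | e => simp [hdT, kdT, ph_e]
  | c v k r =>
    change v + ph t k d + ph t (Tr.c v k r) d = v + (ph t (Tr.c v k r) d + ph t k d)
    ring

theorem ph_tl {d x : ℕ} (h : d < x) (t : List ℕ) (s : Tr) :
    ph (x :: t) s d = ph (x :: t) (tlT s) (d + 1) := by
  rw [ph_cons, ph_cons, show x - d = x - (d + 1) + 1 by omega, skip_tl]

theorem ph_one (j a : ℕ) (s : Tr) : ph [j] s a = hdT (skip s (j - a)) := by
  rw [ph_cons]
  cases skip s (j - a) <;> rfl

theorem look_tl {d x : ℕ} (h : d < x) (t : List ℕ) (v : ℕ) (k r : Tr) :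
    look (x :: t) 0 (Tr.c v k r) d = look (x :: t) 0 r (d + 1) := by
  have e : skip (Tr.c v k r) (x - d) = skip r (x - (d + 1)) := by
    rw [show x - d = x - (d + 1) + 1 by omega, skip_succ]
  cases h' : skip r (x - (d + 1)) with
  | e => rw [look_e h', look_e (e.trans h')]
  | c w k' r' => rw [look_c h', look_c (e.trans h')]

/-- what is checked for one cost -/
def RowC (x C g : ℕ) : Prop := C < 2 ^ 31 →
  x % 2 ^ 64 + 4096 ≤ x / 2 ^ 128 % 2 ^ 64 * 524288 ∧
    x / 2 ^ 128 % 2 ^ 64 * 524288 ≤ x / 2 ^ 64 % 2 ^ 64 + 4096 + C * g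

theorem ck1_spec {C x g : ℕ} (h : ck1 C x g = 0) : RowC x C g := by
  intro hC
  have e : ck1 C x g = fz C fun C => il 2147483648 C 0 (fz x fun x =>
    fz (x >>> 128 % 18446744073709551616 * 524288) fun o => il (x % 18446744073709551616 + 4096) o
      (il o (x >>> 64 % 18446744073709551616 + 4096 + C * g) 0 1) 1) := rfl
  simp only [e, fz_eq, il_eq, Nat.shiftRight_eq_div_pow] at h
  split_ifs at h with h1 h2 h3
  · omega
  · exact ⟨h2, h3⟩

theorem cks_spec {o f n V g : ℕ} {s : Tr} (h : cks o f n V g s = 0) {i : ℕ} (hi : i < n) :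
    RowC ((o + hdT (skip s i)) / 2 ^ (192 * (n - 1 - i))) (V / 2 ^ (32 * i) % 2 ^ 32)
      (if i = 0 then g else f) := by
  induction n generalizing V g s i with
  | zero => omega
  | succ n ih =>
    have e : cks o f (n + 1) V g s = un s fun v _ r => ck1 (V % 4294967296)
      ((o + v) >>> (192 * n)) g + fz (V >>> 32) fun V' => cks o f n V' f r := rfl
    rw [e, un_eq, fz_eq, Nat.add_eq_zero_iff, Nat.shiftRight_eq_div_pow,
      Nat.shiftRight_eq_div_pow] at h
    cases i with
    | zero => simpa [skip_zero] using ck1_spec h.1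
    | succ i =>
      have := ih h.2 (i := i) (by omega)
      rw [Nat.div_div_eq_div_mul, ← pow_add, ite_self] at this
      rwa [skip_tl, if_neg (by omega), show n + 1 - 1 - (i + 1) = n - 1 - i by omega,
        show 32 * (i + 1) = 32 + 32 * i by ring]

/-- the multiplicities of a sorted list that follows `m - 1` entries equal to `d` -/
def mm : ℕ → ℕ → List ℕ → ℕ
  | _, _, [] => 1
  | m, d, x :: l => if x = d then m * mm (m + 1) d l else mm 2 x l

/-- the key of a list -/
def kf : ℕ → List ℕ → ℕ
  | _, [] => 0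
  | u, x :: l => x * u + kf (u / 128) l

theorem kf_le (u : ℕ) {l : List ℕ} (h : ∀ x ∈ l, x < 128) : kf u l ≤ 128 * u - 1 := by
  induction l generalizing u with
  | nil => exact Nat.zero_le _
  | cons x l ih =>
    have h1 := ih (u / 128) fun y hy => h y (List.mem_cons_of_mem _ hy)
    have h2 := Nat.mul_le_mul_right u (Nat.le_of_lt_succ (h x List.mem_cons_self))
    rw [kf]
    omega

theorem mf_mm {p l : List ℕ} {d : ℕ} (hp : ∀ x ∈ p, x ≤ d) (hl : l.Pairwise (· ≤ ·))
    (hd : ∀ x ∈ l, d ≤ x) : mf (p ++ l) = mf p * mm (p.count d + 1) d l := by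
  induction l generalizing p d with
  | nil => simp [mm]
  | cons x l ih =>
    obtain ⟨h1, h2⟩ := List.pairwise_cons.1 hl
    have h3 := hd x List.mem_cons_self
    have h4 : mf (p ++ [x]) = (p.count x + 1) * mf p := mf_perm (List.perm_append_singleton x p)
    rw [List.append_cons, ih (d := x) (fun y hy => ?_) h2 h1, h4, mm]
    · split_ifs with h
      · subst h
        simp only [List.count_append, List.count_singleton_self]
        ring
      · have : p.count x = 0 := List.count_eq_zero.2 fun h' => by
          have := hp x h'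
          omega
        simp [this]
    · rcases List.mem_append.1 hy with hy | hy
      · exact (hp y hy).trans h3
      · exact (List.mem_singleton.1 hy).le

theorem ckv_spec {K V c m R f o j : ℕ} {s : Tr} (h : ckv K V c m R f o s = 0) (hV : V ≠ 0)
    (h1 : c ≤ j) (h2 : j < R) (h3 : R ≤ j + K) :
    RowC ((o + ph [j] s c) / 2 ^ (192 * (R - j - 1))) (V / 2 ^ (32 * (j - (R - K) + 1)) % 2 ^ 32)
      (f * mm m c [j]) := by
  simp only [ckv, iz_eq, if_neg hV, fz_eq, mx_eq, il_eq, Nat.sub_eq, Nat.mul_eq,
    Nat.shiftRight_eq, Nat.shiftRight_eq_div_pow, Nat.succ_eq_add_one] at h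
  have := cks_spec h (i := j - max c (R - K)) (by omega)
  rw [skip_add, Nat.div_div_eq_div_mul, ← pow_add, ← mul_add] at this
  rw [ph_one, show j - c = max c (R - K) - c + (j - max c (R - K)) by omega,
    show R - j - 1 = R - max c (R - K) - 1 - (j - max c (R - K)) by omega,
    show j - (R - K) + 1 = max c (R - K) - (R - K) + 1 + (j - max c (R - K)) by omega]
  convert this using 1
  simp only [mm]
  split_ifs <;> first | omega | simp

theorem ckc_spec {K a b j : ℕ} {t : Tr} : ∀ {n d m R f o y u : ℕ} {s : Tr} {Q : List ℕ},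
    ckc K a b t n d m R f o y u s = 0 → R ≤ 128 → Q.length = n → 0 < n →
    (Q ++ [j]).Pairwise (· ≤ ·) → (∀ x ∈ Q, d ≤ x) → Q.sum + j < R → R ≤ Q.sum + j + K →
    a ≤ y + kf u Q → y + kf u Q < b → look Q 0 t d ≠ 0 →
    RowC ((o + ph (Q ++ [j]) s d) / 2 ^ (192 * (R - Q.sum - j - 1)))
      (look Q 0 t d / 2 ^ (32 * (j - (R - Q.sum - K) + 1)) % 2 ^ 32) (f * mm m d (Q ++ [j])) := by
  induction t with
  | e =>
    intro n d m R f o y u s Q _ _ h2 h3 _ _ _ _ _ _ h
    cases Q with
    | nil => exact absurd rfl h
    | cons x Q => exact absurd (look_e (skip_e _) _ _) h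
  | c V tk tr ihk ihr =>
    intro n d m R f o y u s Q h h1 h2 h3 h4 h5 h6 h7 h8 h9 h10
    obtain ⟨x, Q, rfl⟩ := List.exists_cons_of_ne_nil (l := Q) (by rintro rfl; simp at h2; omega)
    have e : ckc K a b (Tr.c V tk tr) n d m R f o y u s = il R ((n + 1) * d) 0 (un s fun v k r =>
      (fz (y + d * u) fun y' => il b y' 0 (il a (y' + (u - 1))
        (fz (m + 1) fun m' => fz (R - d) fun R' => fz (f * m) fun f' =>
          fz (o + v) fun o' => il n 1 (ckv K V d m' R' f' o' (mrg s k))
            (fz (n - 1) fun n' => fz (u / 128) fun u' =>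
              ckc K a b tk n' d m' R' f' o' y' u' (mrg s k))) 0)) +
      (fz (d + 1) fun d' => ckc K a b tr n d' 1 R f o y u r)) := rfl
    have k1 := h5 x List.mem_cons_self
    obtain ⟨k2, k3⟩ := List.pairwise_cons.1 h4
    have k4 : (Q ++ [j]).length • x ≤ (Q ++ [j]).sum := List.card_nsmul_le_sum _ _ k2
    simp only [List.length_append, List.sum_append, smul_eq_mul,
      List.sum_cons, List.length_cons, List.length_nil, List.sum_nil, add_zero,
      zero_add] at k4 h2 h6 h7
    have k5 : (n + 1) * d < R := by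
      have := Nat.mul_le_mul_left (n + 1) k1
      rw [h2] at k4
      rw [Nat.succ_mul n x] at this
      omega
    simp only [e, il_eq, if_neg k5.not_ge, un_eq, fz_eq, Nat.add_eq_zero_iff] at h
    rcases k1.eq_or_lt with rfl | k1
    · have k6 := kf_le (u / 128) (l := Q) fun z hz => by
        have := List.single_le_sum (fun _ _ => Nat.zero_le _) z hz
        omega
      rw [kf] at h8 h9
      have h' := h.1
      rw [if_neg (by omega), if_pos (by omega)] at h'
      rw [look_c (by rw [Nat.sub_self, skip_zero])] at h10 ⊢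
      rw [List.cons_append, ph_hd, mm, if_pos rfl, List.sum_cons, ← add_assoc, ← mul_assoc,
        Nat.sub_add_eq]
      cases Q with
      | nil =>
        rw [if_pos (by simp at h2; omega)] at h'
        simp only [List.sum_nil, add_zero, Nat.sub_zero] at h6 h7 ⊢
        exact ckv_spec h' h10 (k2 j (by simp)) (by omega) (by omega)
      | cons z Q =>
        rw [if_neg (by simp at h2; omega)] at h'
        have k7 : ∀ v, look (z :: Q) v tk d = look (z :: Q) 0 tk d := fun v => rfl
        rw [k7] at h10 ⊢
        exact ihk h' (by omega) (by omega) (by simp at h2; omega) k3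
          (fun w hw => k2 w (List.mem_append_left _ hw)) (by omega) (by omega) (by omega)
          (by omega) h10
    · have k7 : look (x :: Q) 0 (Tr.c V tk tr) d = look (x :: Q) 0 tr (d + 1) := by
        exact look_tl k1 Q V tk tr
      have k8 : mm m d (x :: Q ++ [j]) = mm 1 (d + 1) (x :: Q ++ [j]) := by
        rw [List.cons_append, mm, mm, if_neg k1.ne']
        split_ifs with h
        · rw [h, one_mul]
        · rfl
      rw [k7] at h10 ⊢
      rw [k8, List.cons_append, ph_tl k1]
      refine ihr (Q := x :: Q) h.2 h1 (by simpa using h2) h3 h4 (fun w hw => ?_) (by simpa using h6)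
        (by simpa using h7) h8 h9 h10
      rcases List.mem_cons.1 hw with rfl | hw
      · exact k1
      · exact k1.trans_le (k2 w (List.mem_append_left _ hw))

theorem look_evk (K : ℕ) (D : List ℕ) (v n a : ℕ) (s : Tr) :
    look D (enr K v n) (evk K s (n + 1)) a = enr K (look D v s a) (n + D.length) := by
  have sk : ∀ (i : ℕ) (s : Tr) (n : ℕ), skip (evk K s n) i = evk K (skip s i) n := by
    intro i
    induction i with
    | zero => simp only [skip_zero, implies_true]
    | succ i ih =>
      intro s n
      cases s with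
      | e => rfl
      | c v k r => exact ih r n
  induction D generalizing v n a s with
  | nil => rfl
  | cons x D ih =>
    cases h : skip s (x - a) with
    | e =>
      rw [look_e h, look_e (by rw [sk, h]; rfl)]
      rfl
    | c w k r =>
      rw [look_c h, look_c (w := enr K w (n + 1)) (k := evk K k (n + 1 + 1)) (r := evk K r (n + 1))
        (by rw [sk, h]; rfl), ih, List.length_cons, add_assoc, add_comm 1]

theorem dpt_spec {t : Tr} : ∀ {n a : ℕ} {D : List ℕ}, dpt t n = 0 → n < D.length →
    look D 0 t a = 0 := by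
  induction t with
  | e =>
    intro n a D _ h
    cases D with
    | nil => rfl
    | cons x D => exact look_e (skip_e _) _ _
  | c v k r ihk ihr =>
    intro n a D h h1
    have e : dpt (Tr.c v k r) n = iz n 1 (fz (n - 1) (dpt k) + dpt r n) := rfl
    rw [e, iz_eq, fz_eq] at h
    split_ifs at h with h2
    rw [Nat.add_eq_zero_iff] at h
    obtain ⟨x, D, rfl⟩ := List.exists_cons_of_ne_nil (l := D) (by rintro rfl; simp at h1)
    rcases Nat.eq_zero_or_pos (x - a) with h3 | h3
    · rw [look_c (by rw [h3, skip_zero])]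
      obtain ⟨z, D, rfl⟩ := List.exists_cons_of_ne_nil (l := D) (by rintro rfl; simp at h1; omega)
      exact ihk (a := x) (D := z :: D) h.1 (by simp at h1 ⊢; omega)
    · rw [look_tl (by omega)]
      exact ihr h.2 h1

end Pool.Agent.Work.MP_82fd4a_nt.P
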