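import Pool.Agent.Work.MP_82fd4a_nt.P.Tc2
import Pool.Agent.Work.MP_82fd4a_nt.P.KTc
import Pool.Agent.Work.MP_82fd4a_nt.P.Lanes

/-! The faster check of the table of the costs. -/

set_option autoImplicit false
open Finset

namespace Pool.Agent.Work.MP_82fd4a_nt.P

open BS Y

theorem brec_beq {α : Type} (a b : ℕ) (x y : α) :
    Bool.rec (motive := fun _ => α) x y (Nat.beq a b) = if a = b then y else x := by
  split_ifs with h
  · rw [show Nat.beq a b = true from Nat.beq_eq ▸ h]
  · rw [show Nat.beq a b = false from Bool.eq_false_iff.2 fun h' => h (Nat.eq_of_beq_eq_true h')]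

theorem brec_ble {α : Type} (a b : ℕ) (x y : α) :
    Bool.rec (motive := fun _ => α) x y (Nat.ble a b) = if a ≤ b then y else x := il_eq a b y x

theorem rlz_eq (n V a b : ℕ) : rlz n V a b = rl n V a b := by
  induction n generalizing V a b with
  | zero => rfl
  | succ n ih =>
    have e : rl (n + 1) V a b = fz (V % 1048576) fun u => fz (mx u a) fun a' =>
      fz (mn u b) fun b' => rl n (V >>> 20) a' b' := rfl
    have e' : rlz (n + 1) V a b =
      rlz n (V >>> 20) (a + (V % 1048576 - a)) (b - (b - V % 1048576)) := rfl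
    rw [e, e', ih, fz_eq, fz_eq, fz_eq, mx_eq, mn_eq]
    congr 1 <;> omega

theorem enz_eq (K v n : ℕ) : enz K v n = enr K v n := by
  have e : ∀ q, blz K q v n = ∑ i ∈ range K, blk q v n i * (2 ^ 192) ^ i := fun q => by
    induction K with
    | zero => rfl
    | succ K ih =>
      have e1 : blz (K + 1) q v n = blz K q v n + rlz (K + 1 - (K + 1 - n) - (K + 1 - q))
        (v >>> (20 * (K + 1 - q + 1))) 0 1048576 <<< (192 * K) := rfl
      have e2 : blk q v n K = fz (K + 1 - q + 1) fun lo =>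
        rl (mn (K + 1) n + 1 - lo) (v >>> (20 * lo)) 0 1048576 := rfl
      rw [sum_range_succ, e1, ih, e2, fz_eq, mn_eq, rlz_eq, Nat.shiftLeft_eq, pow_mul,
        show K + 1 - (K + 1 - n) - (K + 1 - q) = min (K + 1) n + 1 - (K + 1 - q + 1) by omega]
  have e' : enz K v n = Bool.rec (motive := fun _ => ℕ) (Bool.rec (motive := fun _ => ℕ)
    (blz K (K - n + 1) v n) ((v >>> 20 % 2 ^ 20 * 18446744073709551617 +
      340282366920938463463374607431768211456) * geo 192 K)
    (Nat.beq (v >>> 20) (v >>> 20 % 2 ^ 20 * geo 20 n))) 0 (Nat.beq v 0) := rfl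
  rw [e', brec_beq, brec_beq, enr_eq, Nat.shiftRight_eq_div_pow]
  unfold bl
  split_ifs with h1 h2
  · simp
  · rw [← mul_sum, ← geo_eq]
    exact congrArg (· * geo 192 K) (by omega)
  · rw [e, show max 1 (K + 1 - n) = K - n + 1 by omega]

theorem enr_lt (K v n : ℕ) : 2 ^ 31 * enr K v n < 2 ^ (192 * K) := by
  have := pack_lt (W := 192) (n := K) (f := fun i => 2 ^ 31 * bl K v n i) fun i _ => by
    obtain ⟨A, Bm, k, h1, h2, h3, h4, -⟩ := bl_spec K v n i
    omega
  rw [← pack_smul] at this
  rw [enr_eq]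
  simpa only [pack, pow_mul] using this

/-- `d` gives the digits of `y` -/
def Dg (W y : ℕ) (d : ℕ → ℕ) : Prop := ∃ n0, ∀ n, n0 ≤ n → y = pack W n d

theorem Dg.zero (W : ℕ) : Dg W 0 fun _ => 0 := ⟨0, fun n _ => (pack_const_zero _ n).symm⟩

theorem Dg.add {W y y' : ℕ} {d d' : ℕ → ℕ} (h : Dg W y d) (h' : Dg W y' d') :
    Dg W (y + y') fun i => d i + d' i := by
  obtain ⟨n, h⟩ := h
  obtain ⟨n', h'⟩ := h'
  exact ⟨max n n', fun m hm => by rw [h m (by omega), h' m (by omega), pack_add]⟩

theorem Dg.read {W y : ℕ} {d : ℕ → ℕ} (h : Dg W y d) (hd : ∀ i, d i < 2 ^ W) (i : ℕ) :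
    y / 2 ^ (W * i) % 2 ^ W = d i := by
  obtain ⟨n, h⟩ := h
  rw [h (max n (i + 1)) (le_max_left _ _), ← Nat.shiftRight_eq_div_pow]
  exact pack_lane (by omega) fun i _ => hd i

theorem Dg.shift {W y a : ℕ} {d : ℕ → ℕ} (e : ℕ) (h : Dg W y d) (ha : 1 ≤ a) :
    Dg W (e + y <<< (W * a)) fun i => if i < a then (if i = 0 then e else 0) else d (i - a) := by
  obtain ⟨n, h⟩ := h
  refine ⟨a + n, fun m hm => ?_⟩
  obtain ⟨m, rfl⟩ : ∃ m', m = a + m' := ⟨m - a, by omega⟩
  obtain ⟨a, rfl⟩ : ∃ a', a = a' + 1 := ⟨a - 1, by omega⟩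
  rw [← pack_append, ← h m (by omega), pack_succ]
  simp [pack_const_zero]

theorem chz_dg (K W n : ℕ) (s : Tr) : Dg W (chz K W n s) fun i => enr K (hdT (skip s i)) n := by
  induction s with
  | e => exact Dg.zero W
  | c v k r _ ih =>
    obtain ⟨m, h⟩ := ih
    refine ⟨m + 1, fun j hj => ?_⟩
    obtain ⟨j, rfl⟩ : ∃ j', j = j' + 1 := ⟨j - 1, by omega⟩
    have e : chz K W n (Tr.c v k r) = enz K v n + chz K W n r <<< W := rfl
    rw [e, pack_succ, h j (by omega), Nat.shiftLeft_eq, add_comm, mul_comm, enz_eq]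
    rfl

theorem skip_evz (K W i : ℕ) (s : Tr) (n a : ℕ) :
    skip (evz K W s n (W * a)) i = evz K W (skip s i) n (W * (a + i)) := by
  induction i generalizing s a with
  | zero => rw [skip_zero, skip_zero, add_zero]
  | succ i ih =>
    cases s with
    | e => rfl
    | c v k r =>
      rw [skip_succ, show a + (i + 1) = a + 1 + i by omega, ← ih, mul_add_one]
      rfl

theorem look_evz {K W : ℕ} {D : List ℕ} {j J v x a n : ℕ} {s : Tr}
    (hD : (D ++ [j]).Pairwise (· ≤ ·)) (hx : ∀ z ∈ D ++ [j], x ≤ z) (ha : 1 ≤ a)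
    (hJ : J + x = j + a) : ∃ d, Dg W (look D (enr K v n + chz K W (n + 1) s <<< (W * a))
      (evz K W s (n + 1) (W * a)) x) d ∧ (∀ i, ∃ v n, d i = enr K v n) ∧
      d 0 = enr K (look D v s x) (n + D.length) ∧
      d J = enr K (look (D ++ [j]) v s x) (n + (D.length + 1)) := by
  induction D generalizing v x a n s with
  | nil =>
    have h1 := hx j (by simp)
    refine ⟨_, (chz_dg K W (n + 1) s).shift (enr K v n) ha, fun i => ?_, ?_, ?_⟩
    · split_ifs
      exacts [⟨_, _, rfl⟩, ⟨0, 0, rfl⟩, ⟨_, _, rfl⟩]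
    · rw [if_pos (by omega), if_pos rfl]
      rfl
    · rw [if_neg (by omega), show J - a = j - x by omega, List.nil_append]
      cases h : skip s (j - x) with
      | e => rw [look_e h]; rfl
      | c w k r => rw [look_c h]; rfl
  | cons z t ih =>
    have h1 := hx z (by simp)
    have h2 := skip_evz K W (z - x) s (n + 1) a
    rw [List.cons_append, List.pairwise_cons] at hD
    have h3 := hD.1 j (by simp)
    cases hs : skip s (z - x) with
    | e =>
      rw [hs] at h2
      rw [List.cons_append, look_e hs, look_e hs, look_e h2]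
      exact ⟨_, Dg.zero W, fun _ => ⟨0, 0, rfl⟩, rfl, rfl⟩
    | c w k r =>
      rw [hs] at h2
      rw [List.cons_append, look_c hs, look_c hs, look_c h2, List.length_cons, enz_eq,
        show n + (t.length + 1) = n + 1 + t.length by omega,
        show n + (t.length + 1 + 1) = n + 1 + (t.length + 1) by omega]
      exact ih hD.2 hD.1 (by omega) (by omega)

theorem kTc2_sum {α : Type} (L : List α) {g e0 e1 : α → ℕ} {J K : ℕ}
    (h : ∀ p ∈ L, ∃ d, Dg (192 * K) (g p) d ∧ (∀ i, ∃ v n, d i = enr K v n) ∧ d 0 = e0 p ∧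
      d J = e1 p) : ∃ d, Dg (192 * K) (L.map g).sum d ∧
      (∀ i, 2 ^ 31 * d i + L.length ≤ L.length * 2 ^ (192 * K)) ∧ d 0 = (L.map e0).sum ∧
      d J = (L.map e1).sum := by
  induction L with
  | nil => exact ⟨_, Dg.zero _, fun _ => by simp, rfl, rfl⟩
  | cons p L ih =>
    obtain ⟨d, h1, h2, h3, h4⟩ := h p List.mem_cons_self
    obtain ⟨d', k1, k2, k3, k4⟩ := ih fun q hq => h q (List.mem_cons_of_mem _ hq)
    refine ⟨_, h1.add k1, fun i => ?_, ?_, ?_⟩
    · obtain ⟨v, n, e⟩ := h2 i
      have := enr_lt K v n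
      have := k2 i
      rw [List.length_cons, add_mul]
      omega
    · rw [h3, k3, List.map_cons, List.sum_cons]
    · rw [h4, k4, List.map_cons, List.sum_cons]

theorem kTc2_snoc (l : List ℕ) (a : ℕ) (g : List ℕ → ℕ) :
    ((splits (l ++ [a])).map fun p => g p.1).sum = ((splits l).map fun p => g p.1).sum +
      ((splits l).map fun p => g (p.1 ++ [a])).sum := by
  induction l generalizing g with
  | nil => simp [splits, add_comm]
  | cons x t ih =>
    simp only [List.cons_append, splits, List.map_append, List.map_map, List.sum_append,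
      Function.comp_def]
    rw [ih fun q => g (x :: q), ih]
    ring

theorem kTc2_val {K c0 j X : ℕ} {tb : Tr} {Q : List ℕ} (h1 : (Q ++ [j]).Pairwise (· ≤ ·))
    (h2 : ∀ z ∈ Q ++ [j], c0 ≤ z) (h3 : Q.length ≤ 30) (hX : X = chz K (192 * K) 1 tb <<< (192 * K) +
      ph Q (evz K (192 * K) tb 1 (192 * K)) c0) :
    X % 2 ^ (192 * K) + X / 2 ^ (192 * K * (j - c0 + 1)) % 2 ^ (192 * K) =
      ph (Q ++ [j]) (evk K tb 1) c0 := by
  have h4 := h2 j (by simp)
  have k9 : ∀ D, look D 0 (evk K tb 1) c0 = enr K (look D 0 tb c0) D.length :=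
    fun D => (look_evk K D 0 0 _ tb).trans (by rw [zero_add])
  rw [← ph_eq (List.pairwise_append.1 h1).1 _ _ fun y hy => h2 y (List.mem_append_left _ hy)] at hX
  obtain ⟨d, k1, k2, k3, k4⟩ := kTc2_sum (splits Q) (J := j - c0 + 1) (K := K)
    (g := fun p => look p.1 (chz K (192 * K) 1 tb <<< (192 * K))
      (evz K (192 * K) tb 1 (192 * K)) c0) (e0 := fun p => look p.1 0 (evk K tb 1) c0)
    (e1 := fun p => look (p.1 ++ [j]) 0 (evk K tb 1) c0) fun p hp => by
    have s1 : (p.1 ++ [j]).Sublist (Q ++ [j]) := (splits_sublist hp).1.append (List.Sublist.refl _)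
    have := look_evz (K := K) (W := 192 * K) (J := j - c0 + 1) (v := 0) (n := 0) (a := 1) (s := tb)
      (h1.sublist s1) (fun z hz => h2 z (s1.subset hz)) le_rfl (by omega)
    rw [show enr K 0 0 = 0 from rfl] at this
    simpa only [k9, zero_add, mul_one, List.length_append, List.length_singleton] using this
  have k5 : ∀ i, d i < 2 ^ (192 * K) := fun i => by
    have h5 := k2 i
    have h6 : (splits Q).length ≤ 2 ^ 31 := by
      rw [length_splits]
      exact Nat.pow_le_pow_right (by norm_num) (by omega)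
    have h7 : 0 < (splits Q).length := by
      rw [length_splits]
      positivity
    have h8 := Nat.mul_le_mul_right (2 ^ (192 * K)) h6
    omega
  have k6 := k1.read k5 0
  have k7 := k1.read k5 (j - c0 + 1)
  rw [mul_zero, pow_zero, Nat.div_one] at k6
  rw [hX, k6, k7, k3, k4, ← kTc2_snoc Q j fun D => look D 0 (evk K tb 1) c0, ph_eq h1 0 _ h2,
    zero_add]

theorem cky_spec {C x g : ℕ} (h : cky C x g = 0) : RowC x C g := by
  intro hC
  have e : cky C x g = (1 - C >>> 31) * ((x % 18446744073709551616 + 4096 -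
    x >>> 128 % 18446744073709551616 * 524288) + (x >>> 128 % 18446744073709551616 * 524288 -
      (x >>> 64 % 18446744073709551616 + 4096 + C * g))) := rfl
  simp only [e, Nat.shiftRight_eq_div_pow, Nat.div_eq_of_lt hC, Nat.sub_zero, one_mul] at h
  omega

theorem csz_spec {W o f n V g X : ℕ} (h : csz W o f n V g X = 0) {i : ℕ} (hi : i < n) :
    RowC ((o + X / 2 ^ (W * i) % 2 ^ W) / 2 ^ (192 * (n - 1 - i))) (V / 2 ^ (32 * i) % 2 ^ 32)
      (if i = 0 then g else f) := by
  induction n generalizing V g X i with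
  | zero => omega
  | succ n ih =>
    have e : csz W o f (n + 1) V g X = cky (V % 4294967296) ((o + X % 2 ^ W) >>> (192 * n)) g +
      csz W o f n (V >>> 32) f (X >>> W) := rfl
    rw [e, Nat.add_eq_zero_iff, Nat.shiftRight_eq_div_pow, Nat.shiftRight_eq_div_pow,
      Nat.shiftRight_eq_div_pow] at h
    cases i with
    | zero => simpa using cky_spec h.1
    | succ i =>
      have := ih h.2 (i := i) (by omega)
      rw [Nat.div_div_eq_div_mul, Nat.div_div_eq_div_mul, ← pow_add, ← pow_add, ite_self] at this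
      rwa [if_neg (by omega), show n + 1 - 1 - (i + 1) = n - 1 - i by omega,
        show 32 * (i + 1) = 32 + 32 * i by ring, show W * (i + 1) = W + W * i by ring]

theorem cvz_spec {K W c0 V c m R f o j : ℕ} (h : cvz K W c0 V c m R f o = 0) (hV : V ≠ 0)
    (h0 : c0 ≤ c) (h1 : c ≤ j) (h2 : j < R) (h3 : R ≤ j + K) :
    RowC ((o % 2 ^ W + o / 2 ^ (W * (j - c0 + 1)) % 2 ^ W) / 2 ^ (192 * (R - j - 1)))
      (V / 2 ^ (32 * (j - (R - K) + 1)) % 2 ^ 32) (f * mm m c [j]) := by
  have e : cvz K W c0 V c m R f o = Bool.rec (motive := fun _ => ℕ) (csz W (o % 2 ^ W) f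
    (R - (c + (R - K - c))) (V >>> (32 * (c + (R - K - c) - (R - K) + 1)))
    (Bool.rec f (f * m) (Nat.ble (c + (R - K - c)) c)) (o >>> (W * (c + (R - K - c) - c0 + 1)))) 0
      (Nat.beq V 0) := rfl
  rw [e, brec_beq, if_neg hV, brec_ble, Nat.shiftRight_eq_div_pow, Nat.shiftRight_eq_div_pow] at h
  generalize hl : c + (R - K - c) = l at h
  have := csz_spec h (i := j - l) (by omega)
  rw [Nat.div_div_eq_div_mul, Nat.div_div_eq_div_mul, ← pow_add, ← pow_add, ← mul_add,
    ← mul_add] at this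
  rw [show j - c0 + 1 = l - c0 + 1 + (j - l) by omega,
    show R - j - 1 = R - l - 1 - (j - l) by omega,
    show j - (R - K) + 1 = l - (R - K) + 1 + (j - l) by omega]
  convert this using 1
  simp only [mm]
  split_ifs <;> first | omega | simp

theorem ccz_spec {K W c0 a b j : ℕ} {t : Tr} : ∀ {n d m R f o y u : ℕ} {s : Tr} {Q : List ℕ},
    ccz K W c0 a b t n d m R f o y u s = 0 → R ≤ 128 → Q.length = n → 0 < n → c0 ≤ d →
    (Q ++ [j]).Pairwise (· ≤ ·) → (∀ x ∈ Q, d ≤ x) → Q.sum + j < R → R ≤ Q.sum + j + K →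
    a ≤ y + kf u Q → y + kf u Q < b → look Q 0 t d ≠ 0 →
    RowC (((o + ph Q s d) % 2 ^ W + (o + ph Q s d) / 2 ^ (W * (j - c0 + 1)) % 2 ^ W) /
        2 ^ (192 * (R - Q.sum - j - 1)))
      (look Q 0 t d / 2 ^ (32 * (j - (R - Q.sum - K) + 1)) % 2 ^ 32) (f * mm m d (Q ++ [j])) := by
  induction t with
  | e =>
    intro n d m R f o y u s Q _ _ h2 h3 _ _ _ _ _ _ _ h
    cases Q with
    | nil => exact absurd rfl h
    | cons x Q => exact absurd (look_e (skip_e _) _ _) h
  | c V tk tr ihk ihr =>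
    intro n d m R f o y u s Q h h1 h2 h3 h0 h4 h5 h6 h7 h8 h9 h10
    obtain ⟨x, Q, rfl⟩ := List.exists_cons_of_ne_nil (l := Q) (by rintro rfl; simp at h2; omega)
    have e : ccz K W c0 a b (Tr.c V tk tr) n d m R f o y u s = Bool.rec (motive := fun _ => ℕ)
      (Bool.rec (motive := fun _ => ℕ) 0 (Bool.rec (motive := fun _ => ℕ)
        (ccz K W c0 a b tk (n - 1) d (m + 1) (R - d) (f * m) (o + hdT s) (y + d * u) (u / 128)
          (mrg s (kdT s))) (cvz K W c0 V d (m + 1) (R - d) (f * m) (o + hdT s)) (Nat.ble n 1))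
        (Nat.beq (y + d * u + 1 - b + (a - (y + d * u + (u - 1)))) 0) +
      ccz K W c0 a b tr n (d + 1) 1 R f o y u (tlT s)) 0 (Nat.ble R ((n + 1) * d)) := by
      cases s <;> rfl
    have k1 := h5 x List.mem_cons_self
    obtain ⟨k2, k3⟩ := List.pairwise_cons.1 h4
    have k4 : (Q ++ [j]).length • x ≤ (Q ++ [j]).sum := List.card_nsmul_le_sum _ _ k2
    simp only [List.length_append, List.sum_append, smul_eq_mul,
      List.sum_cons, List.length_cons, List.length_nil, List.sum_nil, add_zero,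
      zero_add] at k4 h2 h6 h7
    have k5 : (n + 1) * d < R := by
      have := Nat.mul_le_mul_left (n + 1) k1
      rw [h2] at k4
      rw [Nat.succ_mul n x] at this
      omega
    rw [e, brec_ble, if_neg k5.not_ge, brec_ble, brec_beq, Nat.add_eq_zero_iff] at h
    rcases k1.eq_or_lt with rfl | k1
    · have k6 := kf_le (u / 128) (l := Q) fun z hz => by
        have := List.single_le_sum (fun _ _ => Nat.zero_le _) z hz
        omega
      rw [kf] at h8 h9
      have h' := h.1
      rw [if_pos (by omega)] at h'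
      rw [look_c (by rw [Nat.sub_self, skip_zero])] at h10 ⊢
      rw [List.cons_append, ph_hd, mm, if_pos rfl, List.sum_cons, ← add_assoc, ← mul_assoc f,
        Nat.sub_add_eq]
      cases Q with
      | nil =>
        rw [if_pos (by simp at h2; omega)] at h'
        simp only [List.sum_nil, add_zero, Nat.sub_zero] at h6 h7 ⊢
        exact cvz_spec h' h10 h0 (k2 j (by simp)) (by omega) (by omega)
      | cons z Q =>
        rw [if_neg (by simp at h2; omega)] at h'
        have k7 : ∀ v, look (z :: Q) v tk d = look (z :: Q) 0 tk d := fun v => rfl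
        rw [k7] at h10 ⊢
        exact ihk h' (by omega) (by omega) (by simp at h2; omega) h0 k3
          (fun w hw => k2 w (List.mem_append_left _ hw)) (by omega) (by omega) (by omega)
          (by omega) h10
    · have k8 : mm m d (x :: Q ++ [j]) = mm 1 (d + 1) (x :: Q ++ [j]) := by
        rw [List.cons_append, mm, mm, if_neg k1.ne']
        split_ifs with h
        · rw [h, one_mul]
        · rfl
      rw [look_tl k1] at h10 ⊢
      rw [k8, ph_tl k1]
      refine ihr (Q := x :: Q) h.2 h1 (by simpa using h2) h3 (by omega) h4 (fun w hw => ?_)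
        (by simpa using h6) (by simpa using h7) h8 h9 h10
      rcases List.mem_cons.1 hw with rfl | hw
      · exact k1
      · exact k1.trans_le (k2 w (List.mem_append_left _ hw))

theorem cjob2_spec {P : Par} {tb tc : Tr} {K a b : ℕ} (hs : Sm P) (hK : 0 < K)
    (h : cjob2 P.N (P.z / P.G) K tb tc a b = 0) : TcK P tb tc K a b := by
  intro B δ pre x hB hδ H hl ha hb hV C hC hlt
  have p0 : pre ≠ [] := by
    rintro rfl
    simp at hl
    omega
  obtain ⟨r1, r2⟩ := kTc_last hs hB hδ H p0
  have h1 := H.sorted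
  have h2 := kTc_low hB H
  have h3 := kTc_len hs hB H
  have h4 := hs.N1
  have h5 := mf_mm (p := []) (d := P.z / P.G) (by simp) h1 h2
  have h6 := ph_eq h1 0 (evk K tb 1) h2
  have h7 : ((pre ++ [x]).map (· / (P.G * B))).sum +
      (P.N - (pre.map (· / (P.G * B))).sum - x / (P.G * B) - 1) + 1 = P.N := by
    simp only [List.map_append, List.sum_append, List.map_singleton, List.sum_singleton]
    omega
  have k0 := ccz_spec (j := x / (P.G * B)) (Q := pre.map (· / (P.G * B))) h (by omega)
    (by rwa [List.length_map]) hK le_rfl (by simpa using h1)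
    (fun y hy => h2 y (by rw [List.map_append]; exact List.mem_append_left _ hy)) (by omega)
    (by omega) (by rwa [zero_add]) (by rwa [zero_add]) hV
  erw [kTc2_val (by simpa using h1) (by simpa only [List.map_append, List.map_singleton] using h2)
    (by simp at h3 ⊢; omega) rfl] at k0
  rw [zero_add] at h6
  rw [← hC, ← List.map_singleton (f := (· / (P.G * B))), ← List.map_append, ← h6, splits_map,
    List.map_map] at k0
  have k9 : ∀ D, look D 0 (evk K tb 1) (P.z / P.G) = enr K (look D 0 tb (P.z / P.G)) D.length :=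
    fun D => (look_evk K D 0 0 _ tb).trans (by rw [zero_add])
  simp only [Function.comp_def, k9, List.length_map] at k0
  have k6 : (splits (pre ++ [x])).length ≤ 2 ^ 31 := by
    rw [length_splits]
    exact Nat.pow_le_pow_right (by norm_num) (by omega)
  have k7 := kTc_dig (splits (pre ++ [x])) k6 K
    (fun p => look (p.1.map (· / (P.G * B))) 0 tb (P.z / P.G)) (fun p => p.1.length)
    (i := P.N - (pre.map (· / (P.G * B))).sum - x / (P.G * B) - 1) (by omega)
  obtain ⟨A, Bm, u, k1, k8, k2, k3, k4, k5⟩ := kTc_tot (splits (pre ++ [x])) fun p hp =>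
    kTc_term tb hs hB hδ H hK (by simp [hl]) h7 hp
  rw [kTc_nil] at k4 k5
  rw [k1] at k7
  obtain ⟨t1, t2⟩ := k0 hlt
  rw [List.nil_append] at h5
  rw [show 1 * mm 1 (P.z / P.G) ((pre ++ [x]).map (· / (P.G * B))) =
    mf ((pre ++ [x]).map (· / (P.G * B))) from h5.symm] at t2
  generalize mf ((pre ++ [x]).map (· / (P.G * B))) = f at *
  generalize _ / 2 ^ (192 * (P.N - (pre.map (· / (P.G * B))).sum - x / (P.G * B) - 1)) = y at *
  rw [show y / 2 ^ 128 % 2 ^ 64 = u by omega] at t1 t2
  rw [show y % 2 ^ 64 = A by omega] at t1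
  rw [show y / 2 ^ 64 % 2 ^ 64 = Bm by omega] at t2
  have t3 := (Nat.cast_le (α := ℝ)).2 t1
  have t4 := (Nat.cast_le (α := ℝ)).2 t2
  push_cast at t3 t4
  unfold W
  constructor <;> linarith

end Pool.Agent.Work.MP_82fd4a_nt.P
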