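import Pool.Agent.Work.MP_82fd4a_nt.P.KTd3

/-! The third check of the table of the costs. -/

set_option autoImplicit false
open Finset

namespace Pool.Agent.Work.MP_82fd4a_nt.P

open BS Y

theorem look_cons (x : ℕ) (D : List ℕ) (v : ℕ) (s : Tr) (a : ℕ) :
    look (x :: D) v s a = look D (hdT (skip s (x - a))) (kdT (skip s (x - a))) x := by
  cases h : skip s (x - a) with
  | e => rw [look_e h]; cases D <;> rfl
  | c w k r => exact look_c h _ _

theorem look_mrg (D : List ℕ) (v w : ℕ) (s u : Tr) (a : ℕ) :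
    look D (v + w) (mrg s u) a = look D v s a + look D w u a := by
  induction D generalizing v w s u a with
  | nil => rfl
  | cons x D ih =>
    rw [look_cons, look_cons, look_cons, skip_mrg, ← ih]
    cases skip s (x - a) with
    | e => rw [show hdT Tr.e = 0 from rfl, zero_add]; rfl
    | c v k r => cases skip u (x - a) <;> simp only [mrg_e, hdT, kdT] <;> rfl

/-- the children of a list -/
noncomputable def kid3 : List ℕ → Tr → ℕ → Tr
  | [], s, _ => s
  | x :: D, s, a => kid3 D (kdT (skip s (x - a))) x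

theorem look_kid3 (D : List ℕ) (x v : ℕ) (s : Tr) (a : ℕ) :
    look (D ++ [x]) v s a = hdT (skip (kid3 D s a) (x - D.getLastD a)) := by
  induction D generalizing v s a with
  | nil => exact look_cons _ _ _ _ _
  | cons y D ih => rw [List.cons_append, look_cons, ih, List.getLastD_cons]; rfl

theorem wtb_kid3 (D : List ℕ) {s : Tr} {a b : ℕ} (h : wtb s b = 0) :
    wtb (kid3 D s a) (b + 20 * D.length) = 0 := by
  induction D generalizing s a b with
  | nil => exact h
  | cons y D ih =>
    rw [List.length_cons, mul_add_one, add_comm _ 20, ← add_assoc]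
    exact ih (wtb_spec h _).2

theorem look_ev3 {K V W : ℕ} (h0 : ∀ n, chm K V W n Tr.e = 0) (D : List ℕ) (s : Tr) (a n : ℕ) :
    look D (chm K V W n s) (ev3 K V W s (n + 1)) a = chm K V W (n + D.length) (kid3 D s a) := by
  have k : ∀ s n, hdT (ev3 K V W s n) = chm K V W n (kdT s) ∧
      kdT (ev3 K V W s n) = ev3 K V W (kdT s) (n + 1) ∧
      tlT (ev3 K V W s n) = ev3 K V W (tlT s) n := fun s n => by
    cases s with
    | e => exact ⟨(h0 n).symm, rfl, rfl⟩
    | c v k r =>
      cases k with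
      | c => exact ⟨rfl, rfl, rfl⟩
      | e =>
        have e : ev3 K V W (Tr.c v Tr.e r) n = Tr.rec (motive := fun _ => Tr) Tr.e
          (fun v' k' r' _ _ => Tr.c 0 Tr.e (Tr.c v' k' r')) (ev3 K V W r n) := rfl
        rw [e, show tlT (Tr.c v Tr.e r) = r from rfl]
        cases ev3 K V W r n <;> exact ⟨(h0 n).symm, rfl, rfl⟩
  have sk : ∀ i s n, skip (ev3 K V W s n) i = ev3 K V W (skip s i) n := fun i => by
    induction i with
    | zero => simp only [skip_zero, implies_true]
    | succ i ih => exact fun s n => by rw [skip_tl, skip_tl, (k s n).2.2, ih]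
  induction D generalizing s a n with
  | nil => rfl
  | cons x D ih =>
    rw [look_cons, sk, (k _ _).1, (k _ _).2.1, ih, List.length_cons, add_assoc, add_comm 1]
    rfl

/-- sum over the sublists -/
def S3 (g : List ℕ → ℕ) (l : List ℕ) : ℕ := ((splits l).map fun p => g p.1).sum

theorem S3_le {g : List ℕ → ℕ} {B : ℕ} (h : ∀ D, g D ≤ B) (l : List ℕ) :
    S3 g l ≤ 2 ^ l.length * B := by
  have := List.sum_le_card_nsmul ((splits l).map fun p => g p.1) B fun x hx => by
    obtain ⟨q, -, rfl⟩ := List.mem_map.1 hx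
    exact h _
  rwa [List.length_map, length_splits, smul_eq_mul] at this

/-- the state of the program after the list `Q` -/
structure St3 (K : ℕ) (β : List ℕ → ℕ → ℕ) (M : List ℕ → ℕ) (Q : List ℕ) (d o p : ℕ) (s : Tr) :
    Prop where
  own : ∀ l, dg3 (K + 21) o l = if l < 2 * K + 1 then S3 (β · l) Q else 0
  kid : ∀ c l, l < 2 * K + 1 →
    dg3 (K + 21) p ((2 * K + 1) * c + l) = S3 (fun D => β (D ++ [d + c]) l) Q
  str : ∀ x E, d ≤ x → look (x :: E) 0 s d = S3 (fun D => M (D ++ x :: E)) Q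

variable {K : ℕ} {β : List ℕ → ℕ → ℕ} {M : List ℕ → ℕ}

theorem St3.next {Q : List ℕ} {d o p : ℕ} {s : Tr} (h : St3 K β M Q d o p s) :
    St3 K β M Q (d + 1) o (p >>> ((K + 21) * (2 * K + 1))) (tlT s) := by
  refine ⟨h.own, fun c l hl => ?_, fun x E hx => ?_⟩
  · rw [dg3_shr, ← add_assoc, ← mul_one_add, h.kid _ _ hl, add_assoc]
  · rw [← h.str x E (by omega), look_cons, look_cons, ← skip_tl,
      show x - (d + 1) + 1 = x - d by omega]

theorem St3.row (hβ : ∀ D l, β D l ≤ 1048575) {Q : List ℕ} {d o p : ℕ} {s : Tr}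
    (h : St3 K β M Q d o p s) (hQ : Q.length ≤ K) (c l : ℕ) :
    dg3 (K + 21) (o + (p >>> ((K + 21) * (2 * K + 1) * c) &&& 2 ^ ((K + 21) * (2 * K + 1)) - 1)) l =
      if l < 2 * K + 1 then S3 (β · l) (Q ++ [d + c]) else 0 := by
  have k : ∀ l, dg3 (K + 21) o l + dg3 (K + 21) (p >>> ((K + 21) * (2 * K + 1) * c) &&&
      2 ^ ((K + 21) * (2 * K + 1)) - 1) l =
      if l < 2 * K + 1 then S3 (β · l) (Q ++ [d + c]) else 0 := fun l => by
    rw [h.own, dg3_low, mul_assoc, dg3_shr]
    split_ifs with hl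
    · rw [h.kid _ _ hl]
      exact (kTc2_snoc Q _ (β · l)).symm
    · rfl
  rw [dg3_add (by omega) fun l => ?_, k]
  have h1 := S3_le (fun D => hβ D l) (Q ++ [d + c])
  have h2 : 2 ^ (Q ++ [d + c]).length ≤ 2 ^ (K + 1) :=
    Nat.pow_le_pow_right (by norm_num) (by simpa using hQ)
  have h3 := Nat.two_pow_pos K
  rw [k, pow_add]
  rw [pow_succ] at h2
  split_ifs <;> omega

theorem St3.down (hβ : ∀ D l, β D l ≤ 1048575)
    (hM : ∀ D x c l, D.length < K → l < 2 * K + 1 →
      dg3 (K + 21) (M (D ++ [x])) ((2 * K + 1) * c + l) = β (D ++ [x] ++ [x + c]) l)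
    {Q : List ℕ} {d o p : ℕ} {s : Tr} (h : St3 K β M Q d o p s) (hQ : Q.length < K) :
    St3 K β M (Q ++ [d]) d (o + (p &&& 2 ^ ((K + 21) * (2 * K + 1)) - 1)) (p + hdT s)
      (mrg s (kdT s)) := by
  refine ⟨h.row hβ hQ.le 0, fun c l hl => ?_, fun x E hx => ?_⟩
  · have h1 := h.str d [] le_rfl
    rw [look_cons, Nat.sub_self, skip_zero] at h1
    have h2 : 2 ^ Q.length ≤ 2 ^ K := Nat.pow_le_pow_right (by norm_num) hQ.le
    have h3 := Nat.two_pow_pos K
    have h4 : ∀ q ∈ splits Q, q.1.length < K := fun q hq => by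
      have := splits_length hq
      omega
    have k : ∀ c l, l < 2 * K + 1 → dg3 (K + 21) (hdT s) ((2 * K + 1) * c + l) =
        S3 (fun D => β (D ++ [d] ++ [d + c]) l) Q := fun c l hl => by
      rw [show hdT s = _ from h1, S3, dg3_sum (B := 1048575) (by omega) _ (fun q hq i => ?_)
        (by rw [length_splits, pow_add]; omega)]
      · exact congrArg _ (List.map_congr_left fun q hq => hM _ _ _ _ (h4 q hq) hl)
      · rw [← Nat.div_add_mod i (2 * K + 1), hM _ _ _ _ (h4 q hq) (Nat.mod_lt _ (by omega))]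
        exact hβ _ _
    rw [dg3_add (by omega) fun i => ?_, k _ _ hl, h.kid _ _ hl]
    · exact (kTc2_snoc Q d fun D => β (D ++ [d + c]) l).symm
    · have h5 := Nat.mod_lt i (show 0 < 2 * K + 1 by omega)
      rw [← Nat.div_add_mod i (2 * K + 1), k _ _ h5, h.kid _ _ h5, pow_add]
      have := S3_le (fun D => hβ (D ++ [d + i / (2 * K + 1)]) (i % (2 * K + 1))) Q
      have := S3_le (fun D => hβ (D ++ [d] ++ [d + i / (2 * K + 1)]) (i % (2 * K + 1))) Q
      omega
  · have h1 := h.str d (x :: E) le_rfl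
    rw [look_cons, Nat.sub_self, skip_zero] at h1
    rw [look_mrg _ 0 0, h.str x E hx, show look (x :: E) 0 (kdT s) d = _ from h1, S3, S3, S3,
      kTc2_snoc Q d fun D => M (D ++ x :: E)]
    simp only [List.append_assoc, List.singleton_append]

/-- what is checked for one cost -/
def Rw3 (F K X i C g : ℕ) : Prop := C < 2 ^ 31 →
  dg3 F X i + 4096 ≤ dg3 F X (2 * K) * 524288 ∧
    dg3 F X (K + i) ≤ dg3 F X (2 * K) * 524287 + 4096 + C * g

theorem cs3_spec {F W L o f n V g X : ℕ} (h : cs3 F (F * K) W (2 ^ F - 1) L o f n V g X = 0) {i : ℕ}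
    (hi : i < n) : Rw3 F K (o + (X >>> (W * i) &&& L)) (n - 1 - i) (V / 2 ^ (32 * i) % 2 ^ 32)
      (if i = 0 then g else f) := by
  induction n generalizing V g X i with
  | zero => omega
  | succ n ih =>
    have e : cs3 F (F * K) W (2 ^ F - 1) L o f (n + 1) V g X = ck3 (V &&& 2 ^ 32 - 1)
      ((o + (X &&& L)) >>> (F * n) &&& 2 ^ F - 1)
      ((o + (X &&& L)) >>> (F * n) >>> (F * K) &&& 2 ^ F - 1)
      ((o + (X &&& L)) >>> (F * K + F * K) &&& 2 ^ F - 1) g +
      cs3 F (F * K) W (2 ^ F - 1) L o f n (V >>> 32) f (X >>> W) := rfl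
    rw [e, Nat.add_eq_zero_iff] at h
    cases i with
    | zero =>
      intro hC
      have e' : ∀ C A B k g, ck3 C A B k g = (1 - C >>> 31) * ((A + 4096 - k * 524288) +
        (B - (k * 524287 + 4096 + C * g))) := fun _ _ _ _ _ => rfl
      have h1 := h.1
      simp only [e', Nat.and_two_pow_sub_one_eq_mod, ← Nat.shiftRight_add, ← mul_add,
        add_comm n] at h1
      simp only [mul_zero, pow_zero, Nat.div_one, Nat.shiftRight_zero, if_true, dg3,
        Nat.add_sub_cancel, Nat.sub_zero, two_mul] at hC ⊢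
      simp only [Nat.shiftRight_eq_div_pow, Nat.div_eq_of_lt hC, Nat.sub_zero, one_mul] at h1
      omega
    | succ i =>
      have := ih h.2 (i := i) (by omega)
      rw [Nat.shiftRight_eq_div_pow V, Nat.div_div_eq_div_mul, ← pow_add, ← Nat.shiftRight_add,
        ite_self] at this
      rwa [if_neg (by omega), show n + 1 - 1 - (i + 1) = n - 1 - i by omega,
        show 32 * (i + 1) = 32 + 32 * i by ring, show W * (i + 1) = W + W * i by ring]

theorem cv3_spec {F W L V c m R f o p j : ℕ}
    (h : cv3 K F (F * K) W (2 ^ F - 1) L V c m R f o p = 0) (hV : V ≠ 0)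
    (h1 : c ≤ j) (h2 : j < R) (h3 : R ≤ j + K) :
    Rw3 F K (o + (p >>> (W * (j - c)) &&& L)) (R - j - 1)
      (V / 2 ^ (32 * (j - (R - K) + 1)) % 2 ^ 32) (f * mm m c [j]) := by
  have e : cv3 K F (F * K) W (2 ^ F - 1) L V c m R f o p = Bool.rec (motive := fun _ => ℕ)
    (cs3 F (F * K) W (2 ^ F - 1) L o f (R - (c + (R - K - c)))
      (V >>> (32 * (c + (R - K - c) - (R - K) + 1)))
      (Bool.rec f (f * m) (Nat.ble (c + (R - K - c)) c)) (p >>> (W * (c + (R - K - c) - c)))) 0
      (Nat.beq V 0) := rfl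
  rw [e, brec_beq, if_neg hV, brec_ble, Nat.shiftRight_eq_div_pow V] at h
  generalize hl : c + (R - K - c) = l at h
  have := cs3_spec h (i := j - l) (by omega)
  rw [Nat.div_div_eq_div_mul, ← pow_add, ← Nat.shiftRight_add, ← mul_add, ← mul_add] at this
  rw [show j - c = l - c + (j - l) by omega, show R - j - 1 = R - l - 1 - (j - l) by omega,
    show j - (R - K) + 1 = l - (R - K) + 1 + (j - l) by omega]
  convert this using 1
  simp only [mm]
  split_ifs <;> first | omega | simp

/-- what is proved for one cost -/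
def Rv3 (K : ℕ) (β : List ℕ → ℕ → ℕ) (T : List ℕ) (i C g : ℕ) : Prop := C < 2 ^ 31 →
  S3 (β · i) T + 4096 ≤ S3 (β · (2 * K)) T * 524288 ∧
    S3 (β · (K + i)) T ≤ S3 (β · (2 * K)) T * 524287 + 4096 + C * g

theorem cc3_spec (hβ : ∀ D l, β D l ≤ 1048575)
    (hM : ∀ D x c l, D.length < K → l < 2 * K + 1 →
      dg3 (K + 21) (M (D ++ [x])) ((2 * K + 1) * c + l) = β (D ++ [x] ++ [x + c]) l)
    {a b j W : ℕ} (hW : W = (K + 21) * (2 * K + 1)) {t : Tr} :
    ∀ {n d m R f o p y u : ℕ} {s : Tr} {T Q : List ℕ},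
    cc3 K (K + 21) ((K + 21) * K) W (2 ^ (K + 21) - 1) (2 ^ W - 1) a b t n d m R f o p y u s = 0 →
    St3 K β M T d o p s → T.length + n = K → R ≤ 128 → Q.length = n → 0 < n →
    (Q ++ [j]).Pairwise (· ≤ ·) → (∀ x ∈ Q, d ≤ x) → Q.sum + j < R → R ≤ Q.sum + j + K →
    a ≤ y + kf u Q → y + kf u Q < b → look Q 0 t d ≠ 0 →
    Rv3 K β (T ++ (Q ++ [j])) (R - Q.sum - j - 1)
      (look Q 0 t d / 2 ^ (32 * (j - (R - Q.sum - K) + 1)) % 2 ^ 32) (f * mm m d (Q ++ [j])) := by
  generalize hF : K + 21 = F at hW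
  generalize hU : F * K = U
  generalize hA : 2 ^ F - 1 = A
  generalize hL : 2 ^ W - 1 = L
  induction t with
  | e =>
    intro n d m R f o p y u s T Q _ _ _ _ h2 h3 _ _ _ _ _ _ h
    cases Q with
    | nil => exact absurd rfl h
    | cons x Q => exact absurd (look_e (skip_e _) _ _) h
  | c V tk tr ihk ihr =>
    intro n d m R f o p y u s T Q h hs h0 h1 h2 h3 h4 h5 h6 h7 h8 h9 h10
    obtain ⟨x, Q, rfl⟩ := List.exists_cons_of_ne_nil (l := Q) (by rintro rfl; simp at h2; omega)
    have e : cc3 K F U W A L a b (Tr.c V tk tr) n d m R f o p y u s =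
      Bool.rec (motive := fun _ => ℕ)
      (Bool.rec (motive := fun _ => ℕ) 0 (Bool.rec (motive := fun _ => ℕ)
        (cc3 K F U W A L a b tk (n - 1) d (m + 1) (R - d) (f * m) (o + (p &&& L)) (p + hdT s)
          (y + d * u) (u / 128) (mrg s (kdT s)))
        (cv3 K F U W A L V d (m + 1) (R - d) (f * m) (o + (p &&& L)) (p + hdT s)) (Nat.ble n 1))
        (Nat.beq (y + d * u + 1 - b + (a - (y + d * u + (u - 1)))) 0) +
      cc3 K F U W A L a b tr n (d + 1) 1 R f o (p >>> W) y u (tlT s)) 0
        (Nat.ble R ((n + 1) * d)) := by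
      cases s <;> rfl
    have k1 := h5 x List.mem_cons_self
    obtain ⟨k2, k3⟩ := List.pairwise_cons.1 h4
    have k4 : (Q ++ [j]).length • x ≤ (Q ++ [j]).sum := List.card_nsmul_le_sum _ _ k2
    simp only [List.length_append, List.sum_append, smul_eq_mul,
      List.sum_cons, List.length_cons, List.length_nil, List.sum_nil, add_zero,
      zero_add] at k4 h2 h6 h7
    have k5 : (n + 1) * d < R := by
      have := Nat.mul_le_mul_left (n + 1) k1
      rw [h2] at k4
      rw [Nat.succ_mul n x] at this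
      omega
    rw [e, brec_ble, if_neg k5.not_ge, brec_ble, brec_beq, Nat.add_eq_zero_iff] at h
    rcases k1.eq_or_lt with rfl | k1
    · have k6 := kf_le (u / 128) (l := Q) fun z hz => by
        have := List.single_le_sum (fun _ _ => Nat.zero_le _) z hz
        omega
      rw [kf] at h8 h9
      have h' := h.1
      have hd := hs.down hβ hM (by omega)
      rw [if_pos (by omega)] at h'
      rw [look_c (by rw [Nat.sub_self, skip_zero])] at h10 ⊢
      rw [List.cons_append, mm, if_pos rfl, List.sum_cons, ← mul_assoc f, Nat.sub_add_eq,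
        List.append_cons]
      cases Q with
      | nil =>
        rw [if_pos (by simp at h2; omega)] at h'
        simp only [List.sum_nil, add_zero, Nat.sub_zero] at h6 h7 ⊢
        have k7 := k2 j (by simp)
        have k8 := hd.row hβ (by simp at h2 ⊢; omega) (j - d)
        rw [← hU, ← hA] at h'
        rw [hF, ← hW, hL, Nat.add_sub_cancel' k7] at k8
        have := cv3_spec h' h10 k7 (by omega) (by omega)
        unfold Rw3 at this
        rwa [k8, k8, k8, if_pos (by omega), if_pos (by omega), if_pos (by omega)] at this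
      | cons z Q =>
        rw [if_neg (by simp at h2; omega)] at h'
        have k7 : ∀ v, look (z :: Q) v tk d = look (z :: Q) 0 tk d := fun v => rfl
        rw [k7] at h10 ⊢
        rw [hF, ← hW, hL] at hd
        exact ihk h' hd (by simp; omega) (by omega) (by omega) (by simp at h2; omega) k3
          (fun w hw => k2 w (List.mem_append_left _ hw)) (by omega) (by omega) (by omega)
          (by omega) h10
    · have k8 : mm m d (x :: Q ++ [j]) = mm 1 (d + 1) (x :: Q ++ [j]) := by
        rw [List.cons_append, mm, mm, if_neg k1.ne']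
        split_ifs with h
        · rw [h, one_mul]
        · rfl
      have hn := hs.next
      rw [hF, ← hW] at hn
      rw [look_tl k1] at h10 ⊢
      rw [k8]
      refine ihr (Q := x :: Q) h.2 hn h0 h1 (by simpa using h2) h3 h4 (fun w hw => ?_)
        (by simpa using h6) (by simpa using h7) h8 h9 h10
      rcases List.mem_cons.1 hw with rfl | hw
      · exact k1
      · exact k1.trans_le (k2 w (List.mem_append_left _ hw))

theorem kTc3_term {P : Par} (tb : Tr) {B δ i : ℕ} {t : List ℕ} {p : List ℕ × List ℕ} {γ : ℕ → ℕ}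
    (hs : Sm P) (hB : 0 < B) (hδ : δ ≤ B) (ht : Hyp P B δ t) (h2 : 0 < K) (hK : t.length = K + 1)
    (hi : (t.map (· / (P.G * B))).sum + i + 1 = P.N) (hp : p ∈ splits t) (hi' : i < K)
    (g0 : p.1 = [] → ∀ l, γ l = 0)
    (g1 : p.1 ≠ [] → Ok3 K p.1.length (look (p.1.map (· / (P.G * B))) 0 tb (P.z / P.G)) γ) :
    (γ (2 * K) : ℝ) * 524287 + (if p.1 = [] then 4096 else 0) ≤ 4096 *
      lamT P.N (P.z / P.G) tb (p.1.map (· / (P.G * B))) (p.2.sum / (P.G * B)) + γ (K + i) ∧
    4096 * lamT P.N (P.z / P.G) tb (p.1.map (· / (P.G * B))) (p.2.sum / (P.G * B)) +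
      γ (2 * K) * 524288 ≤ (γ i : ℝ) + (if p.1 = [] then 4096 else 0) := by
  by_cases h0 : p.1 = []
  · simp [h0, lamT, g0 h0]
  obtain ⟨k5, k6⟩ := kTc_rho hs hB hδ ht (by omega) hp h0
  have hc : ∀ a ∈ p.1.map (· / (P.G * B)), P.z / P.G ≤ a := fun a ha =>
    kTc_low hB ht a (((splits_sublist hp).1.map _).subset ha)
  have F0 : 0 < P.G * B := Nat.mul_pos (by have := hs.G2; omega) hB
  obtain ⟨k1, k2⟩ := kKHit_sum F0 p.2
  have k3 := ((splits_perm hp).map (· / (P.G * B))).sum_eq
  have k4 := splits_length hp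
  rw [List.map_append, List.sum_append] at k3
  have k7 := (Nat.le_div_iff_mul_le F0).2 k1
  have k8 : p.2.sum / (P.G * B) < (p.2.map (· / (P.G * B))).sum + max 1 p.2.length := by
    rcases Nat.eq_zero_or_pos p.2.length with h | h
    · rw [List.length_eq_zero_iff.1 h]
      simp
    · rw [max_eq_right h]
      exact (Nat.div_lt_iff_lt_mul F0).2 (by omega)
  obtain ⟨r4, r5⟩ := g1 h0
  unfold lamT
  rw [if_neg h0, if_neg (by simpa using h0), List.length_map, r4]
  generalize look (p.1.map (· / (P.G * B))) 0 tb (P.z / P.G) = v at *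
  generalize (p.1.map (· / (P.G * B))).sum = S at *
  generalize p.2.sum / (P.G * B) = e at *
  by_cases hv : v = 0
  · rw [if_pos (Or.inl hv), if_pos hv]
    simp
  rw [if_neg hv, if_neg (by push Not; exact ⟨hv, by omega, by omega, hc⟩)]
  have r7 := r5 i (P.N - e - S) hi' (by omega) (by omega) (by omega) (by omega) hv
  have r8 := (Nat.cast_le (α := ℝ)).2 r7.1
  have r9 := (Nat.cast_le (α := ℝ)).2 r7.2
  rw [Nat.cast_add, Nat.cast_ofNat] at r9
  rw [Nat.cast_one]
  constructor <;> linarith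

theorem cjob3_spec {P : Par} {tb tc : Tr} {V F U Y A L a b : ℕ} (hs : Sm P) (hK : 0 < K)
    (hw : wtb tb 40 = 0) (hV : V = K + 20) (hF : F = K + 21) (hU : U = F * K)
    (hW : Y = F * (2 * K + 1)) (hA : A = 2 ^ F - 1) (hL : L = 2 ^ Y - 1)
    (h : cjob3 P.N (P.z / P.G) K V F U Y A L tb tc a b = 0) : TcK P tb tc K a b := by
  intro B δ pre x hB hδ H hl ha hb hT C hC hlt
  have p0 : pre ≠ [] := by
    rintro rfl
    simp at hl
    omega
  obtain ⟨r1, r2⟩ := kTc_last hs hB hδ H p0
  have h1 := H.sorted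
  have h2 := kTc_low hB H
  have h4 := hs.N1
  have h5 := mf_mm (p := []) (d := P.z / P.G) (by simp) h1 h2
  have h7 : ((pre ++ [x]).map (· / (P.G * B))).sum +
      (P.N - (pre.map (· / (P.G * B))).sum - x / (P.G * B) - 1) + 1 = P.N := by
    simp only [List.map_append, List.sum_append, List.map_singleton, List.sum_singleton]
    omega
  rw [hA, hL, hU, hF] at h
  rw [hF] at hW
  have hW' : Y = (V + 1) * (2 * K + 1) := by rw [hW, hV]
  generalize hc : P.z / P.G = c at *
  obtain ⟨M, hM⟩ : ∃ M : List ℕ → ℕ, ∀ D, M D = chm K V Y (1 + D.length) (kid3 D tb c) :=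
    ⟨_, fun _ => rfl⟩
  obtain ⟨β, hβ⟩ : ∃ β : List ℕ → ℕ → ℕ, ∀ D l, β D l = if D = [] ∨ K + 1 < D.length then 0 else
    dg3 (K + 21) (M D.dropLast) ((2 * K + 1) * (D.getLastD 0 - D.dropLast.getLastD c) + l) :=
    ⟨_, fun _ _ => rfl⟩
  have b0 : ∀ D : List ℕ, D.length ≤ K → (∀ l, dg3 (K + 21) (M D) l ≤ 1048575) ∧
      ∀ i, Ok3 K (1 + D.length) (hdT (skip (kid3 D tb c) i))
        fun p => dg3 (K + 21) (M D) ((2 * K + 1) * i + p) := fun D hD => by
    rw [hM, show K + 21 = V + 1 by omega]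
    exact chm_spec hK hV hW' (by omega) (by
      rw [show 20 * (1 + D.length + 1) = 40 + 20 * D.length by ring]
      exact wtb_kid3 D hw)
  have b1 : ∀ D y l, D.length ≤ K → β (D ++ [y]) l =
      dg3 (K + 21) (M D) ((2 * K + 1) * (y - D.getLastD c) + l) := fun D y l hD => by
    rw [hβ, if_neg (by simpa using hD), List.dropLast_concat, List.getLastD_concat]
  have b2 : ∀ D l, β D l ≤ 1048575 := fun D l => by
    rw [hβ]
    split_ifs with h
    · omega
    · exact (b0 _ (by rw [List.length_dropLast]; omega)).1 _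
  have k0 := cc3_spec (j := x / (P.G * B)) (Q := pre.map (· / (P.G * B))) (T := []) (M := M) b2
    (fun D y c l h _ => by
      rw [b1 _ _ _ (by simpa using h), List.getLastD_concat, Nat.add_sub_cancel_left]) hW h
    ⟨fun l => by simp [dg3, S3, splits, hβ], fun i l _ => by
      rw [show S3 (fun D => β (D ++ [c + i]) l) [] = β ([] ++ [c + i]) l by simp [S3, splits],
        b1 _ _ _ (Nat.zero_le _), hM, List.getLastD_nil, Nat.add_sub_cancel_left]
      rfl, fun y E _ => by
      rw [show S3 (fun D => M (D ++ y :: E)) [] = M (y :: E) by simp [S3, splits], hM,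
        ← look_ev3 fun _ => chm_e hK hV hW']
      rfl⟩ (zero_add _) (by omega) (by rwa [List.length_map]) hK (by simpa using h1)
    (fun y hy => h2 y (by rw [List.map_append]; exact List.mem_append_left _ hy)) (by omega)
    (by omega) (by rwa [zero_add]) (by rwa [zero_add]) hT
  rw [← hC, ← List.map_singleton (f := (· / (P.G * B))), ← List.map_append, List.nil_append] at k0
  obtain ⟨t1, t2⟩ := k0 hlt
  rw [List.nil_append] at h5
  rw [show 1 * mm 1 c ((pre ++ [x]).map (· / (P.G * B))) =
    mf ((pre ++ [x]).map (· / (P.G * B))) from h5.symm] at t2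
  generalize mf ((pre ++ [x]).map (· / (P.G * B))) = f at *
  generalize hi : P.N - (pre.map (· / (P.G * B))).sum - x / (P.G * B) - 1 = i at *
  subst hc
  have k1 := fun p (hp : p ∈ splits (pre ++ [x])) => kTc3_term (γ := β (p.1.map (· / (P.G * B))))
    tb hs hB hδ H hK (by simp [hl]) h7 hp (by omega) (fun h l => by rw [hβ, h]; rfl) fun h => by
      have k2 := splits_length hp
      obtain ⟨D, y, k3⟩ := (List.eq_nil_or_concat' (p.1.map (· / (P.G * B)))).resolve_left
        (by simpa using h)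
      have k4 := congrArg List.length k3
      simp only [List.length_map, List.length_append, List.length_singleton] at k2 k4
      rw [k3, k4, look_kid3, add_comm, funext fun l => b1 D y l (by omega)]
      exact (b0 D (by omega)).2 _
  have k2 := List.sum_le_sum fun p hp => (k1 p hp).1
  have k3 := List.sum_le_sum fun p hp => (k1 p hp).2
  have t3 := (Nat.cast_le (α := ℝ)).2 t1
  have t4 := (Nat.cast_le (α := ℝ)).2 t2
  simp only [S3, splits_map, List.map_map, Function.comp_def] at t3 t4
  simp only [List.sum_map_add, kTc_nil, List.sum_map_mul_left, List.sum_map_mul_right] at k2 k3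
  push_cast at t3 t4
  simp only [List.map_map, Function.comp_def] at t3 t4
  unfold W
  constructor <;> linarith

end Pool.Agent.Work.MP_82fd4a_nt.P
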