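import Pool.Agent.Work.MP_82fd4a_nt.P.Tc3
import Pool.Agent.Work.MP_82fd4a_nt.P.KTc2

/-! The ranges of the entries of a stream, computed for all the entries at once. -/

set_option autoImplicit false
open Finset

namespace Pool.Agent.Work.MP_82fd4a_nt.P

open BS Y

/-- a digit in base `2 ^ F` -/
def dg3 (F y l : ℕ) : ℕ := y / 2 ^ (F * l) % 2 ^ F

theorem dg3_pack {F n : ℕ} {f : ℕ → ℕ} (h : ∀ i < n, f i < 2 ^ F) (l : ℕ) :
    dg3 F (pack F n f) l = if l < n then f l else 0 := by
  unfold dg3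
  split_ifs with hl
  · rw [← Nat.shiftRight_eq_div_pow, pack_lane hl h]
  · rw [Nat.div_eq_of_lt ((pack_lt h).trans_le (Nat.pow_le_pow_right (by norm_num)
      (Nat.mul_le_mul_left _ (by omega)))), Nat.zero_mod]

theorem dg3_shr (F y t l : ℕ) : dg3 F (y >>> (F * t)) l = dg3 F y (t + l) := by
  rw [dg3, dg3, Nat.shiftRight_eq_div_pow, Nat.div_div_eq_div_mul, ← pow_add, mul_add]

theorem pack_dg3 {F n y : ℕ} (h : y < 2 ^ (F * n)) : y = pack F n (dg3 F y) := by
  induction n generalizing y with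
  | zero => simpa using h
  | succ n ih =>
    have h1 : y >>> (F * 1) < 2 ^ (F * n) := by
      rw [Nat.shiftRight_eq_div_pow, mul_one]
      exact Nat.div_lt_of_lt_mul (by rwa [← pow_add, add_comm, ← Nat.mul_succ])
    rw [pack_succ, pack_congr (g := dg3 F (y >>> (F * 1))) fun i _ => by rw [dg3_shr, add_comm],
      ← ih h1, Nat.shiftRight_eq_div_pow, mul_one, dg3, mul_zero, pow_zero, Nat.div_one,
      Nat.div_add_mod]

theorem dg3_add {F y z : ℕ} (hF : 0 < F) (h : ∀ l, dg3 F y l + dg3 F z l < 2 ^ F) (l : ℕ) :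
    dg3 F (y + z) l = dg3 F y l + dg3 F z l := by
  have k : ∀ w, w ≤ y + z + l + 1 → w < 2 ^ (F * (y + z + l + 1)) := fun w hw =>
    Nat.lt_two_pow_self.trans_le (Nat.pow_le_pow_right (by norm_num)
      (hw.trans (Nat.le_mul_of_pos_left _ hF)))
  have e := congrArg₂ (· + ·) (pack_dg3 (k y (by omega))) (pack_dg3 (k z (by omega)))
  simp only [pack_add] at e
  rw [e, dg3_pack fun i _ => h i, if_pos (by omega)]

theorem dg3_low (F G y l : ℕ) :
    dg3 F (y &&& 2 ^ (F * G) - 1) l = if l < G then dg3 F y l else 0 := by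
  rw [Nat.and_two_pow_sub_one_eq_mod]
  unfold dg3
  split_ifs with h
  · refine Nat.eq_of_testBit_eq fun j => ?_
    simp only [Nat.testBit_mod_two_pow, Nat.testBit_div_two_pow]
    have := Nat.mul_le_mul_left F (Nat.succ_le_of_lt h)
    rw [Nat.mul_succ] at this
    by_cases hj : j < F
    · simp [hj, show j + F * l < F * G by omega]
    · simp [hj]
  · rw [Nat.div_eq_of_lt ((Nat.mod_lt _ (by positivity)).trans_le (Nat.pow_le_pow_right
      (by norm_num) (Nat.mul_le_mul_left _ (by omega)))), Nat.zero_mod]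

theorem dg3_sum {α : Type} {F B : ℕ} (hF : 0 < F) (L : List α) {g : α → ℕ}
    (h : ∀ p ∈ L, ∀ l, dg3 F (g p) l ≤ B) (hL : L.length * B < 2 ^ F) (l : ℕ) :
    dg3 F (L.map g).sum l = (L.map fun p => dg3 F (g p) l).sum := by
  induction L generalizing l with
  | nil => simp [dg3]
  | cons p L ih =>
    rw [List.length_cons, add_mul] at hL
    have h1 := ih (fun q hq => h q (List.mem_cons_of_mem _ hq)) (by omega)
    rw [List.map_cons, List.sum_cons, List.map_cons, List.sum_cons, dg3_add hF fun i => ?_, h1]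
    have h2 := h p List.mem_cons_self i
    have h3 := List.sum_le_card_nsmul (L.map fun p => dg3 F (g p) i) B fun x hx => by
      obtain ⟨q, hq, rfl⟩ := List.mem_map.1 hx
      exact h q (List.mem_cons_of_mem _ hq) i
    rw [List.length_map, smul_eq_mul] at h3
    rw [h1]
    omega

theorem pack_ext {F n m : ℕ} {f g : ℕ → ℕ} (h : n ≤ m) (h1 : ∀ i < n, f i = g i)
    (h2 : ∀ i, n ≤ i → g i = 0) : pack F n f = pack F m g := by
  obtain ⟨k, rfl⟩ := Nat.exists_eq_add_of_le h
  have := pack_append F n k f fun _ => 0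
  rw [pack_const_zero, Nat.zero_shiftLeft, add_zero] at this
  rw [this]
  refine pack_congr fun i _ => ?_
  split_ifs with h3
  exacts [h1 i h3, (h2 i (by omega)).symm]

theorem pack_shl {F m s : ℕ} {e : ℕ → ℕ} (h : ∀ l, m ≤ l + s → e l = 0) :
    pack F m e <<< (F * s) = pack F m fun l => if l < s then 0 else e (l - s) := by
  have := pack_append F s m (fun _ => 0) e
  rw [pack_const_zero, zero_add] at this
  rw [this]
  refine (pack_ext (by omega) (fun _ _ => rfl) fun i hi => ?_).symm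
  split_ifs with h1
  exacts [rfl, h _ (by omega)]

theorem pack_pack {F G : ℕ} (hG : 0 < G) (n : ℕ) (e : ℕ → ℕ → ℕ) :
    pack (F * G) n (fun c => pack F G (e c)) = pack F (G * n) fun l => e (l / G) (l % G) := by
  induction n with
  | zero => simp
  | succ n ih =>
    rw [pack_succ', ih, ← Nat.shiftLeft_eq, mul_assoc, pack_append, Nat.mul_succ]
    refine pack_congr fun i hi => ?_
    split_ifs with h
    · rfl
    · obtain ⟨p, rfl⟩ := Nat.exists_eq_add_of_le (not_lt.1 h)
      rw [Nat.mul_add_div hG, Nat.mul_add_mod, Nat.div_eq_of_lt (by omega),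
        Nat.mod_eq_of_lt (by omega), add_zero, Nat.add_sub_cancel_left]

theorem geo_pack (F n : ℕ) : geo F n = pack F n fun _ => 1 := by
  simp only [geo_eq, pack, one_mul, pow_mul]

theorem vm3_eq {V m : ℕ} {f g : ℕ → ℕ} (hf : ∀ i, f i < 2 ^ V) (hg : ∀ i, g i < 2 ^ V) :
    vm3 V (pack (V + 1) m fun _ => 2 ^ V) (pack (V + 1) m f) (pack (V + 1) m g) =
      pack (V + 1) m fun i => max (f i) (g i) := by
  have p : 0 < 2 ^ V := by positivity
  have e : ∀ H X Y, vm3 V H X Y =
    Y + ((X + H - Y) &&& (((X + H - Y) &&& H) - ((X + H - Y) &&& H) >>> V)) := fun _ _ _ => rfl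
  have b : ∀ i < m, f i + 2 ^ V - g i < 2 ^ (V + 1) := fun i _ => by
    have := hf i
    rw [pow_succ]
    omega
  rw [e, pack_add, pack_sub fun i _ => by have := hg i; omega, pack_top b,
    pack_shiftRight_dvd V fun i _ => by split_ifs <;> simp,
    pack_sub fun i _ => Nat.div_le_self _ _,
    pack_land b fun i _ => (Nat.sub_le _ _).trans_lt (by rw [pow_succ]; split_ifs <;> omega),
    pack_add]
  refine pack_congr fun i _ => ?_
  have := hf i
  have := hg i
  split_ifs with h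
  · rw [Nat.div_self p, Nat.and_two_pow_sub_one_eq_mod,
      show f i + 2 ^ V - g i = f i - g i + 2 ^ V by omega, Nat.add_mod_right,
      Nat.mod_eq_of_lt (by omega)]
    omega
  · rw [Nat.zero_div, Nat.sub_zero, Nat.and_zero]
    omega

/-- `e` is the maximum of `a` consecutive values of `d` -/
def Sl3 (d : ℕ → ℕ) (a : ℕ) (e : ℕ → ℕ) : Prop :=
  (∀ l t, t < a → t ≤ l → d (l - t) ≤ e l) ∧ ∀ l, ∃ t < a, t ≤ l ∧ e l ≤ d (l - t)

theorem sld_spec {V m q : ℕ} {d : ℕ → ℕ} (hd : ∀ l, d l < 2 ^ V)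
    (hb : ∀ l, m < l + q → d l = 0) (n : ℕ) : ∀ {a : ℕ} {e : ℕ → ℕ}, Sl3 d (min a q) e →
    q ≤ a * 2 ^ n → ∃ e', Sl3 d q e' ∧
      sld V (pack (V + 1) m fun _ => 2 ^ V) q n a (pack (V + 1) m e) = pack (V + 1) m e' := by
  induction n with
  | zero => exact fun h h1 => ⟨_, by rwa [min_eq_right (by omega)] at h, rfl⟩
  | succ n ih =>
    intro a e h h1
    have e1 : ∀ H T, sld V H q (n + 1) a T = Bool.rec (motive := fun _ => ℕ) (sld V H q n (2 * a)
      (vm3 V H T (T <<< ((V + 1) * (a - (a - (q - a))))))) T (Nat.ble q a) := fun _ _ => rfl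
    rw [e1, brec_ble]
    split_ifs with h2
    · exact ⟨_, by rwa [min_eq_right h2] at h, rfl⟩
    rw [min_eq_left (by omega)] at h
    generalize hs : a - (a - (q - a)) = s
    have he : ∀ l, e l < 2 ^ V := fun l => by
      obtain ⟨t, -, -, k⟩ := h.2 l
      exact k.trans_lt (hd _)
    rw [pack_shl fun l hl => ?_, vm3_eq he fun l => ?_]
    · refine ih ⟨fun l t h3 h4 => ?_, fun l => ?_⟩ (by rw [pow_succ] at h1; linarith)
      · beta_reduce
        by_cases h5 : t < a
        · exact (h.1 l t h5 h4).trans (le_max_left _ _)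
        · have := h.1 (l - s) (t - s) (by omega) (by omega)
          rw [show l - s - (t - s) = l - t by omega] at this
          rw [if_neg (by omega)]
          exact this.trans (le_max_right _ _)
      · obtain ⟨t, k1, k2, k3⟩ := h.2 l
        obtain ⟨u, k4, k5, k6⟩ := h.2 (l - s)
        beta_reduce
        split_ifs with h3
        · exact ⟨t, by omega, k2, by omega⟩
        · rcases le_total (e (l - s)) (e l) with h4 | h4
          · exact ⟨t, by omega, k2, by omega⟩
          · exact ⟨s + u, by omega, by omega, by rw [Nat.sub_add_eq]; omega⟩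
    · split_ifs
      exacts [by positivity, he _]
    · obtain ⟨t, k1, k2, k3⟩ := h.2 l
      have := hb (l - t) (by omega)
      omega

theorem spr_eq {F W c : ℕ} (hW : 20 ≤ W) (n Z : ℕ) : spr F (pack W c fun _ => 1048575) n Z =
    pack W c fun i => pack F n fun p => Z / 2 ^ (W * i + 20 * p) % 2 ^ 20 := by
  have k : ∀ (c Z : ℕ), Z &&& (pack W c fun _ => 1048575) =
      pack W c fun i => Z / 2 ^ (W * i) % 2 ^ 20 := fun c => by
    induction c with
    | zero => simp
    | succ c ih =>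
      intro Z
      have h1 := Nat.pow_le_pow_right (show 0 < 2 by norm_num) hW
      rw [pack_succ, pack_succ]
      conv_lhs => rw [← Nat.div_add_mod Z (2 ^ W)]
      rw [land_step _ _ (Nat.mod_lt _ (Nat.two_pow_pos W)) (by omega), ih,
        show 1048575 = 2 ^ 20 - 1 by norm_num, Nat.and_two_pow_sub_one_eq_mod,
        Nat.mod_mod_of_dvd _ (pow_dvd_pow _ hW)]
      simp only [Nat.div_div_eq_div_mul, ← pow_add, mul_zero, pow_zero, Nat.div_one,
        Nat.mul_succ, add_comm W]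
  induction n generalizing Z with
  | zero => simp only [pack_zero, pack_const_zero]; rfl
  | succ n ih =>
    have e : ∀ M, spr F M (n + 1) Z = (Z &&& M) + spr F M n (Z >>> 20) <<< F := fun _ => rfl
    rw [e, ih, k, Nat.shiftLeft_eq, mul_comm _ (2 ^ F), pack_smul, pack_add]
    refine pack_congr fun i _ => ?_
    rw [pack_succ, add_comm]
    simp only [Nat.shiftRight_eq_div_pow, Nat.div_div_eq_div_mul, ← pow_add, mul_zero, add_zero,
      Nat.mul_succ, ← add_assoc, add_comm 20]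

theorem pk3_eq (W : ℕ) (s : Tr) : pk3 W s = pack W (ln3 s) (fun i => hdT (skip s i)) ∧
    ∀ i, ln3 s ≤ i → hdT (skip s i) = 0 := by
  induction s with
  | e => exact ⟨rfl, fun _ _ => rfl⟩
  | c v k r _ ih =>
    have e : pk3 W (Tr.c v k r) = v + pk3 W r <<< W := rfl
    have e' : ln3 (Tr.c v k r) = ln3 r + 1 := rfl
    rw [e, e', pack_succ, ih.1, Nat.shiftLeft_eq, add_comm, mul_comm]
    refine ⟨rfl, fun i hi => ?_⟩
    obtain ⟨i, rfl⟩ : ∃ j, i = j + 1 := ⟨i - 1, by omega⟩
    exact ih.2 i (by omega)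

theorem wtb_spec {s : Tr} {b : ℕ} (h : wtb s b = 0) (i : ℕ) :
    hdT (skip s i) < 2 ^ b ∧ wtb (kdT (skip s i)) (b + 20) = 0 := by
  induction s generalizing i with
  | e => exact ⟨Nat.two_pow_pos b, rfl⟩
  | c v k r _ ih =>
    have e : wtb (Tr.c v k r) b = v >>> b + wtb k (b + 20) + wtb r b := rfl
    rw [e, Nat.add_eq_zero_iff, Nat.add_eq_zero_iff, Nat.shiftRight_eq_div_pow,
      Nat.div_eq_zero_iff_lt (Nat.two_pow_pos b)] at h
    cases i with
    | zero => exact h.1
    | succ i => exact ih h.2 i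

/-- the digits `β` give the ranges of the entry `v` -/
def Ok3 (K n v : ℕ) (β : ℕ → ℕ) : Prop := β (2 * K) = (if v = 0 then 0 else 1) ∧
  ∀ i ρ, i < K → 1 ≤ ρ → ρ ≤ n → ρ ≤ i + 1 → i + 1 < ρ + max 1 (K + 1 - n) → v ≠ 0 →
    v / 2 ^ (20 * ρ) % 2 ^ 20 ≤ β i ∧ 1048575 ≤ β (K + i) + v / 2 ^ (20 * ρ) % 2 ^ 20

theorem ch1_spec {K n c U V : ℕ} {v : ℕ → ℕ} (hK : 0 < K) (hn : n ≤ K) (hV : V = K + 20)
    (hU : U + 1 = (V + 1) * (2 * K + 1)) (hv : ∀ i, v i < 2 ^ U) (h0 : ∀ i, c ≤ i → v i = 0) :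
    ∃ e : ℕ → ℕ, ch1 K V U n (pack (U + 1) c v) (geo (U + 1) c) = pack (V + 1) ((2 * K + 1) * c) e ∧
      (∀ l, e l ≤ 1048575) ∧ ∀ i < c, Ok3 K n (v i) fun p => e ((2 * K + 1) * i + p) := by
  have e1 : ∀ X E, ch1 K V U n X E = sld V (2 ^ V * geo (V + 1) (2 * K + 1) * E) (K - n + 1) K 1
      (spr (V + 1) (1048575 * E) n (X >>> 20) + (1048575 * geo (V + 1) n *
        ((X + (2 ^ U - 1) * E &&& 2 ^ U * E) >>> U) - spr (V + 1) (1048575 * E) n (X >>> 20)) <<<
          ((V + 1) * K)) + ((X + (2 ^ U - 1) * E &&& 2 ^ U * E) >>> U) <<< ((V + 1) * (2 * K)) :=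
    fun _ _ => rfl
  have u1 : 20 * K + 40 ≤ U + 1 := by rw [hU, hV]; nlinarith
  have g0 : 0 < 2 * K + 1 := by omega
  obtain ⟨k, hk⟩ : ∃ k : ℕ → ℕ, ∀ i, k i = if v i = 0 then 0 else 1 := ⟨_, fun _ => rfl⟩
  obtain ⟨w, hw⟩ : ∃ w : ℕ → ℕ → ℕ, ∀ i p, w i p = v i / 2 ^ (20 * (p + 1)) % 2 ^ 20 :=
    ⟨_, fun _ _ => rfl⟩
  have w1 : ∀ i p, w i p ≤ 1048575 * k i ∧ k i ≤ 1 := fun i p => by
    rw [hw, hk]
    split_ifs with h
    · simp [h]
    · omega
  have e2 : (pack (U + 1) c v + (2 ^ U - 1) * geo (U + 1) c &&& 2 ^ U * geo (U + 1) c) >>> U =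
      pack (U + 1) c k := by
    rw [geo_pack, pack_smul _ _ (2 ^ U), pack_congr (f := fun _ => 2 ^ U * 1) fun _ _ => mul_one _,
      pack_cmp Nat.one_le_two_pow fun i _ => (hv i).trans (Nat.lt_succ_self _),
      pack_shiftRight_dvd U fun i _ => by split_ifs <;> simp]
    refine pack_congr fun i _ => ?_
    rw [hk]
    split_ifs <;> first | omega | simp
  have e3 : spr (V + 1) (1048575 * geo (U + 1) c) n (pack (U + 1) c v >>> 20) =
      pack (U + 1) c fun i => pack (V + 1) n (w i) := by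
    rw [geo_pack, pack_smul, pack_congr (f := fun _ => 1048575 * 1) fun _ _ => mul_one _,
      spr_eq (by omega)]
    refine pack_congr fun i hi => pack_congr fun p hp => ?_
    rw [hw, ← pack_lane (W := U + 1) hi fun i _ =>
      (hv i).trans (Nat.pow_lt_pow_right (by norm_num) (Nat.lt_succ_self _))]
    refine Nat.eq_of_testBit_eq fun j => ?_
    simp only [Nat.testBit_mod_two_pow, Nat.testBit_div_two_pow, Nat.testBit_shiftRight]
    by_cases hj : j < 20
    · rw [decide_eq_true (show j + 20 * (p + 1) < U + 1 by omega), Bool.true_and,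
        show 20 + (j + ((U + 1) * i + 20 * p)) = (U + 1) * i + (j + 20 * (p + 1)) by ring]
    · simp [hj]
  obtain ⟨bl, hbl⟩ : ∃ bl : ℕ → ℕ → ℕ, ∀ i p, bl i p = if p < K then (if p < n then w i p else 0)
    else if p - K < n then 1048575 * k i - w i (p - K) else 0 := ⟨_, fun _ _ => rfl⟩
  have e4 : (pack (U + 1) c fun i => pack (V + 1) n (w i)) + (1048575 * geo (V + 1) n *
      pack (U + 1) c k - pack (U + 1) c fun i => pack (V + 1) n (w i)) <<< ((V + 1) * K) =
      pack (V + 1) ((2 * K + 1) * c) fun l => bl (l / (2 * K + 1)) (l % (2 * K + 1)) := by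
    have a1 : ∀ i, 1048575 * geo (V + 1) n * k i = pack (V + 1) n fun _ => 1048575 * k i := fun i => by
      rw [mul_right_comm, geo_pack, pack_smul]
      exact pack_congr fun _ _ => mul_one _
    rw [← pack_pack g0, ← hU, pack_smul, pack_sub fun i _ => ?_, Nat.shiftLeft_eq,
      mul_comm _ (2 ^ _), pack_smul, pack_add]
    · refine pack_congr fun i _ => ?_
      rw [a1, pack_sub fun p _ => (w1 i p).1, mul_comm (2 ^ _), ← Nat.shiftLeft_eq,
        pack_ext (g := fun p => if p < n then w i p else 0) hn (fun p hp => (if_pos hp).symm)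
          fun p hp => if_neg (by omega),
        pack_ext (n := n) (m := K + 1) (g := fun p => if p < n then 1048575 * k i - w i p else 0)
          (by omega) (fun p hp => (if_pos hp).symm) fun p hp => if_neg (by omega), pack_append,
        show K + (K + 1) = 2 * K + 1 by ring]
      exact pack_congr fun p _ => (hbl i p).symm
    · rw [a1]
      exact sum_le_sum fun p _ => Nat.mul_le_mul_right _ (w1 i p).1
  have e5 : 2 ^ V * geo (V + 1) (2 * K + 1) * geo (U + 1) c =
      pack (V + 1) ((2 * K + 1) * c) fun _ => 2 ^ V := by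
    rw [← pack_pack g0 c fun _ _ => 2 ^ V, ← hU, geo_pack (U + 1), pack_smul, geo_pack, pack_smul]
    simp only [mul_one]
  have e6 : pack (U + 1) c k <<< ((V + 1) * (2 * K)) = pack (V + 1) ((2 * K + 1) * c) fun l =>
      if l % (2 * K + 1) = 2 * K then k (l / (2 * K + 1)) else 0 := by
    rw [← pack_pack g0 c fun i p => if p = 2 * K then k i else 0, ← hU, Nat.shiftLeft_eq,
      mul_comm _ (2 ^ _), pack_smul]
    refine pack_congr fun i _ => ?_
    rw [pack_succ', if_pos rfl, pack_congr (g := fun _ => 0) fun p hp => if_neg hp.ne,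
      pack_const_zero, zero_add, mul_comm]
  have b1 : ∀ i p, bl i p ≤ 1048575 * k i := fun i p => by
    have := (w1 i p).1
    rw [hbl]
    split_ifs <;> omega
  have b2 : ∀ i p, p < 2 * K + 1 → bl (((2 * K + 1) * i + p) / (2 * K + 1))
      (((2 * K + 1) * i + p) % (2 * K + 1)) = bl i p ∧
      ((2 * K + 1) * i + p) / (2 * K + 1) = i ∧ ((2 * K + 1) * i + p) % (2 * K + 1) = p :=
    fun i p hp => by
      rw [Nat.mul_add_div g0, Nat.mul_add_mod, Nat.div_eq_of_lt hp, Nat.mod_eq_of_lt hp, add_zero]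
      exact ⟨rfl, rfl, rfl⟩
  have b3 : 2 ^ 20 ≤ 2 ^ V := Nat.pow_le_pow_right (by norm_num) (by omega)
  obtain ⟨e, ⟨s1, s2⟩, s3⟩ := sld_spec (V := V) (m := (2 * K + 1) * c) (q := K - n + 1)
    (d := fun l => bl (l / (2 * K + 1)) (l % (2 * K + 1))) (fun l => by
      have := b1 (l / (2 * K + 1)) (l % (2 * K + 1))
      have := (w1 (l / (2 * K + 1)) 0).2
      omega) (fun l hl => by
      have h1 := Nat.div_add_mod l (2 * K + 1)
      rcases le_or_gt c (l / (2 * K + 1)) with h | h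
      · have := b1 (l / (2 * K + 1)) (l % (2 * K + 1))
        rw [hk, if_pos (h0 _ h)] at this
        omega
      · have := Nat.mul_le_mul_left (2 * K + 1) (Nat.succ_le_of_lt h)
        rw [Nat.mul_succ] at this
        rw [hbl, if_neg (by omega), if_neg (by omega)]) K (a := 1)
    (e := fun l => bl (l / (2 * K + 1)) (l % (2 * K + 1)))
    ⟨fun l t h _ => by rw [show t = 0 by omega, Nat.sub_zero], fun l => ⟨0, by omega, by omega, le_rfl⟩⟩
    (by have := Nat.lt_two_pow_self (n := K); omega)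
  beta_reduce at s1 s2
  have s4 : ∀ i, e ((2 * K + 1) * i + 2 * K) = 0 := fun i => by
    obtain ⟨t, k1, -, k3⟩ := s2 ((2 * K + 1) * i + 2 * K)
    rw [Nat.add_sub_assoc (by omega), (b2 _ _ (by omega)).1, hbl, if_neg (by omega),
      if_neg (by omega)] at k3
    omega
  refine ⟨_, by rw [e1, e2, e3, e4, e5, e6, s3, pack_add], fun l => ?_, fun i _ => ⟨?_, ?_⟩⟩
  · have := (w1 (l / (2 * K + 1)) 0).2
    split_ifs with h
    · have h1 := s4 (l / (2 * K + 1))
      have h2 := Nat.div_add_mod l (2 * K + 1)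
      rw [h] at h2
      rw [h2] at h1
      omega
    · obtain ⟨t, -, -, k3⟩ := s2 l
      have := b1 ((l - t) / (2 * K + 1)) ((l - t) % (2 * K + 1))
      have := (w1 ((l - t) / (2 * K + 1)) 0).2
      omega
  · beta_reduce
    rw [s4, (b2 i _ (by omega)).2.1, (b2 i _ (by omega)).2.2, if_pos rfl, hk, zero_add]
  · intro j ρ h1 h2 h3 h4 h5 h6
    have k1 := s1 ((2 * K + 1) * i + j) (j + 1 - ρ) (by omega) (by omega)
    have k2 := s1 ((2 * K + 1) * i + (K + j)) (j + 1 - ρ) (by omega) (by omega)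
    rw [Nat.add_sub_assoc (by omega), (b2 _ _ (by omega)).1, hbl] at k1 k2
    rw [if_pos (by omega), if_pos (by omega), hw, show j - (j + 1 - ρ) + 1 = ρ by omega] at k1
    rw [if_neg (by omega), if_pos (by omega), hw, hk, if_neg h6,
      show K + j - (j + 1 - ρ) - K + 1 = ρ by omega] at k2
    beta_reduce
    omega

theorem chm_spec {K n V W : ℕ} {s : Tr} (hK : 0 < K) (hV : V = K + 20)
    (hW : W = (V + 1) * (2 * K + 1)) (hn : n ≤ K + 1) (hw : wtb s (20 * (n + 1)) = 0) :
    (∀ l, dg3 (V + 1) (chm K V W n s) l ≤ 1048575) ∧ ∀ i, Ok3 K n (hdT (skip s i))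
      fun p => dg3 (V + 1) (chm K V W n s) ((2 * K + 1) * i + p) := by
  have u1 : 20 * K + 41 ≤ W := by rw [hW, hV]; nlinarith
  obtain ⟨U, rfl⟩ : ∃ U, W = U + 1 := ⟨W - 1, by omega⟩
  have e1 : chm K V (U + 1) n s = fz (ln3 s) fun c =>
    ch1 K V U (n - (n - K)) (pk3 (U + 1) s) (geo (U + 1) c) := rfl
  obtain ⟨e, k1, k2, k3⟩ := ch1_spec (n := n - (n - K)) (c := ln3 s) hK (by omega) hV hW
    (fun i => (wtb_spec hw i).1.trans_le (Nat.pow_le_pow_right (by norm_num) (by omega)))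
    (pk3_eq 0 s).2
  have b3 : 2 ^ 20 ≤ 2 ^ (V + 1) := Nat.pow_le_pow_right (by norm_num) (by omega)
  have k4 := dg3_pack (F := V + 1) (n := (2 * K + 1) * ln3 s) (f := e) fun i _ => by
    have := k2 i
    omega
  rw [e1, fz_eq, (pk3_eq _ s).1, k1]
  refine ⟨fun l => ?_, fun i => ?_⟩
  · have := k2 l
    rw [k4]
    split_ifs <;> omega
  rcases le_or_gt (ln3 s) i with h | h
  · have := Nat.mul_le_mul_left (2 * K + 1) h
    rw [(pk3_eq 0 s).2 i h]
    exact ⟨(k4 _).trans (if_neg (by omega)), fun _ _ _ _ _ _ _ h => absurd rfl h⟩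
  · have := Nat.mul_le_mul_left (2 * K + 1) (Nat.succ_le_of_lt h)
    rw [Nat.mul_succ] at this
    obtain ⟨k5, k6⟩ := k3 i h
    refine ⟨((k4 _).trans (if_pos (by omega))).trans k5, fun j ρ h1 h2 h3 h4 h5 h6 => ?_⟩
    beta_reduce
    rw [k4, k4, if_pos (by omega), if_pos (by omega)]
    exact k6 j ρ h1 h2 (by omega) h4 (by omega) h6

theorem chm_e {K n V W : ℕ} (hK : 0 < K) (hV : V = K + 20) (hW : W = (V + 1) * (2 * K + 1)) :
    chm K V W n Tr.e = 0 := by
  obtain ⟨U, rfl⟩ : ∃ U, W = U + 1 := ⟨W - 1, by have : 0 < W := by rw [hW]; positivity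
                                                 omega⟩
  obtain ⟨e, k1, -⟩ := ch1_spec (n := n - (n - K)) (c := 0) (v := fun _ => 0) hK (by omega) hV hW
    (fun i => Nat.two_pow_pos _) fun _ _ => rfl
  exact k1

end Pool.Agent.Work.MP_82fd4a_nt.P
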