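import Pool.Agent.Work.MP_82fd4a_nt.P.ExpLog
import Pool.Agent.Work.MP_82fd4a_nt.P.IIDefs
import Pool.Agent.Lib.MR.PrimeHM
import Pool.Agent.Lib.MR.Kernel

/-! Large values of Dirichlet polynomials: the mean value theorem and the inequality of Halasz,
Montgomery and Huxley, in measure form on a window. -/

set_option autoImplicit false
open Finset Filter MeasureTheory Pool.Agent.Lib.MR Pool.Agent.Lib.MR.PrimeHM

namespace Pool.Agent.Work.MP_82fd4a_nt.P

lemma Large_dual (ν : Measure ℝ) [IsFiniteMeasure ν] (I : Finset ℕ) (a : ℕ → ℂ) :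
    (∫ u, ‖DP I a u‖ ^ 2 ∂ν) ^ 2 ≤ (∑ n ∈ I, ‖a n‖ ^ 2) * ∑ p ∈ I, ‖GG ν (DP I a) p‖ ^ 2 := by
  have hQ := Trig.DP I a
  have e : ((∫ u, ‖DP I a u‖ ^ 2 ∂ν : ℝ) : ℂ) = ∑ p ∈ I, a p * GG ν (DP I a) p := by
    simp only [GG, ← integral_const_mul]
    rw [← integral_finsetSum _ fun p _ =>
      (((Trig.conj hQ).mul (Trig.nit p)).integrable ν).const_mul (a p), ← integral_complex_ofReal]
    refine integral_congr_ae (Eventually.of_forall fun u => ?_)
    simp only
    rw [← Complex.normSq_eq_norm_sq, ← Complex.mul_conj]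
    nth_rewrite 1 [DP]
    rw [sum_mul]
    exact sum_congr rfl fun n _ => by ring
  have h0 : 0 ≤ ∫ u, ‖DP I a u‖ ^ 2 ∂ν := integral_nonneg fun u => by positivity
  refine le_trans (pow_le_pow_left₀ h0 ?_ 2) (sum_mul_sq_le_sq_mul_sq I _ _)
  rw [← Real.norm_of_nonneg h0, ← Complex.norm_real, e]
  exact (norm_sum_le _ _).trans (sum_le_sum fun p _ => (norm_mul _ _).le)

lemma Large_bil {U : Set ℝ} (hU : MeasurableSet U) [IsFiniteMeasure (volume.restrict U)]
    {Q : ℝ → ℂ} (hQ : Trig Q) (S : Finset ℕ) {k : ℝ → ℝ} (hk : Continuous k) {K A : ℝ}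
    (hk0 : ∀ t, 0 ≤ k t) (hkK : ∀ t, k t ≤ K) (hke : ∀ t, k (-t) = k t)
    (h : ∀ u ∈ U, ∀ v ∈ U, ‖∑ n ∈ S, nit n (u - v)‖ ≤ k (u - v))
    (hA : ∀ u ∈ U, ∫ v in U, k (u - v) ≤ A) :
    ∑ n ∈ S, ‖GG (volume.restrict U) Q n‖ ^ 2 ≤ A * ∫ u in U, ‖Q u‖ ^ 2 := by
  set ν := volume.restrict U with hν
  obtain ⟨B, hB⟩ := hQ.2
  have c1 := hQ.1
  have c2 := continuous_nit
  have e1 : ∀ n, ((‖GG ν Q n‖ ^ 2 : ℝ) : ℂ) =
      ∫ z : ℝ × ℝ, (starRingEnd ℂ) (Q z.1) * Q z.2 * nit n (z.1 - z.2) ∂ν.prod ν := by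
    intro n
    rw [← Complex.normSq_eq_norm_sq, ← Complex.mul_conj, GG, ← integral_conj, ← integral_prod_mul]
    refine integral_congr_ae (Eventually.of_forall fun z => ?_)
    simp only [map_mul, conj_nit, Complex.conj_conj, sub_eq_add_neg, nit_add]
    ring
  have i1 : ∀ n, Integrable (fun z : ℝ × ℝ =>
      (starRingEnd ℂ) (Q z.1) * Q z.2 * nit n (z.1 - z.2)) (ν.prod ν) := by
    intro n
    refine Integrable.of_bound (Continuous.aestronglyMeasurable ?_) (B * B)
      (Eventually.of_forall fun z => ?_)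
    · have := c2 n
      exact ((Complex.continuous_conj.comp (c1.comp continuous_fst)).mul
        (c1.comp continuous_snd)).mul (this.comp (continuous_fst.sub continuous_snd))
    · rw [norm_mul, norm_mul, norm_nit, mul_one, Complex.norm_conj]
      exact mul_le_mul (hB _) (hB _) (norm_nonneg _) ((norm_nonneg _).trans (hB 0))
  have e2 : ((∑ n ∈ S, ‖GG ν Q n‖ ^ 2 : ℝ) : ℂ) = ∫ z : ℝ × ℝ,
      (starRingEnd ℂ) (Q z.1) * Q z.2 * ∑ n ∈ S, nit n (z.1 - z.2) ∂ν.prod ν := by
    rw [Complex.ofReal_sum]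
    simp only [e1]
    rw [← integral_finsetSum _ fun n _ => i1 n]
    refine integral_congr_ae (Eventually.of_forall fun z => ?_)
    simp only [mul_sum]
  let g : ℝ × ℝ → ℝ := fun z => ‖Q z.1‖ ^ 2 * k (z.1 - z.2)
  have i2 : Integrable g (ν.prod ν) := by
    refine Integrable.of_bound (Continuous.aestronglyMeasurable ?_) (B ^ 2 * K)
      (Eventually.of_forall fun z => ?_)
    · exact ((c1.comp continuous_fst).norm.pow 2).mul (hk.comp (continuous_fst.sub continuous_snd))
    · rw [Real.norm_of_nonneg (mul_nonneg (by positivity) (hk0 _))]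
      exact mul_le_mul (pow_le_pow_left₀ (norm_nonneg _) (hB _) 2) (hkK _) (hk0 _)
        (by positivity)
  have b2 : ∫ z, g z ∂ν.prod ν ≤ A * ∫ u, ‖Q u‖ ^ 2 ∂ν := by
    rw [integral_prod g i2, ← integral_const_mul]
    refine integral_mono_ae i2.integral_prod_left ((hQ.integrable_sq ν).const_mul _) ?_
    filter_upwards [ae_restrict_mem hU] with u hu
    simp only [g]
    rw [integral_const_mul, mul_comm]
    exact mul_le_mul_of_nonneg_right (hA u hu) (by positivity)
  have i3 : Integrable (fun z : ℝ × ℝ => g z.swap) (ν.prod ν) := i2.swap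
  refine (le_abs_self _).trans ?_
  rw [← Real.norm_eq_abs, ← Complex.norm_real, e2]
  refine (norm_integral_le_of_norm_le (g := fun z => (g z + g z.swap) / 2)
    ((i2.add i3).div_const 2) ?_).trans ?_
  · rw [hν, Measure.prod_restrict]
    filter_upwards [ae_restrict_mem (hU.prod hU)] with z hz
    rw [norm_mul, norm_mul, Complex.norm_conj]
    have a1 := h _ hz.1 _ hz.2
    have a2 : k (z.2 - z.1) = k (z.1 - z.2) := by rw [← hke, neg_sub]
    simp only [g, Prod.fst_swap, Prod.snd_swap, a2]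
    have a3 := hk0 (z.1 - z.2)
    calc _ ≤ ‖Q z.1‖ * ‖Q z.2‖ * k (z.1 - z.2) := mul_le_mul_of_nonneg_left a1 (by positivity)
      _ ≤ _ := by nlinarith [mul_nonneg a3 (sq_nonneg (‖Q z.1‖ - ‖Q z.2‖))]
  · rw [integral_div, integral_add i2 i3, integral_prod_swap g]
    linarith

lemma Large_int {T : ℝ} (hT : 0 ≤ T) (u : ℝ) :
    ∫ v in Set.Ioc (u - T) (u + T), 1 / (1 + |u - v|) = 2 * Real.log (1 + T) := by
  have hc : Continuous fun s : ℝ => 1 / (1 + |s|) :=
    continuous_const.div (by fun_prop) fun s => by positivity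
  have h1 : ∫ s in (0 : ℝ)..T, 1 / (1 + |s|) = Real.log (1 + T) := by
    have : ∫ s in (0 : ℝ)..T, 1 / (1 + |s|) = ∫ s in (0 : ℝ)..T, (1 + s)⁻¹ := by
      refine intervalIntegral.integral_congr fun s hs => ?_
      rw [Set.uIcc_of_le hT] at hs
      simp only [abs_of_nonneg hs.1, one_div]
    rw [this, intervalIntegral.integral_comp_add_left (fun s : ℝ => s⁻¹) 1,
      integral_inv_of_pos (by norm_num) (by linarith)]
    simp
  have h2 : ∫ s in (-T)..0, 1 / (1 + |s|) = Real.log (1 + T) := by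
    have := intervalIntegral.integral_comp_neg (a := 0) (b := T) (fun s : ℝ => 1 / (1 + |s|))
    simp only [abs_neg, neg_zero] at this
    rw [← this, h1]
  rw [← intervalIntegral.integral_of_le (by linarith),
    intervalIntegral.integral_comp_sub_left (fun s : ℝ => 1 / (1 + |s|)) u,
    show u - (u + T) = -T by ring, show u - (u - T) = T by ring,
    ← intervalIntegral.integral_add_adjacent_intervals (hc.intervalIntegrable (-T) 0)
      (hc.intervalIntegrable 0 T), h1, h2]
  ring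

lemma Large_fin {U : Set ℝ} {c d : ℝ} (h : U ⊆ Set.Ioc c d) :
    IsFiniteMeasure (volume.restrict U) :=
  ⟨by rw [Measure.restrict_apply_univ]; exact (measure_mono h).trans_lt measure_Ioc_lt_top⟩

/-- the inequality of Halasz and Montgomery -/
theorem hm_window : ∃ C : ℝ, 1 ≤ C ∧ ∀ (N : ℕ) (a : ℕ → ℂ) (c T : ℝ) (U : Set ℝ), 0 ≤ T →
    MeasurableSet U → U ⊆ Set.Ioc c (c + T) →
    ∫ u in U, ‖DP (Icc 1 N) a u‖ ^ 2 ≤ C * (2 * N * Real.log (1 + T) +
      √T * (1 + Real.log N) ^ 2 * volume.real U) * ∑ n ∈ Icc 1 N, ‖a n‖ ^ 2 := by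
  obtain ⟨C, hC, H⟩ := exp_log
  refine ⟨C, hC, fun N a c T U hT hU hUc => ?_⟩
  have := Large_fin hUc
  have hC0 : 0 ≤ C := by linarith
  set β : ℝ := √T * (1 + Real.log N) ^ 2 with hβ
  have hβ0 : 0 ≤ β := by positivity
  have hc : Continuous fun s : ℝ => 1 / (1 + |s|) :=
    continuous_const.div (by fun_prop) fun s => by positivity
  set A : ℝ := C * (2 * N * Real.log (1 + T) + β * volume.real U) with hA
  have hlog : 0 ≤ Real.log (1 + T) := Real.log_nonneg (by linarith)
  have hA0 : 0 ≤ A := by have : 0 ≤ volume.real U := measureReal_nonneg; positivity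
  have X := Large_bil hU (Trig.DP (Icc 1 N) a) (Icc 1 N)
    (k := fun t => C * (N * (1 / (1 + |t|)) + β)) (K := C * (N + β)) (A := A) (by fun_prop)
    (fun t => by positivity) (fun t => by
      have : 1 / (1 + |t|) ≤ 1 := by
        rw [div_le_one (by positivity)]; linarith [abs_nonneg t]
      gcongr
      exact mul_le_of_le_one_right (by positivity) this)
    (fun t => by simp only [abs_neg]) (fun u hu v hv => by
      refine (H N (u - v)).trans ?_
      have h1 := hUc hu
      have h2 := hUc hv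
      have : |u - v| ≤ T := abs_le.2 ⟨by linarith [h1.1, h2.2], by linarith [h1.2, h2.1]⟩
      rw [mul_one_div, hβ]
      gcongr) (fun u hu => by
      have i1 : Integrable (fun v => 1 / (1 + |u - v|)) (volume.restrict U) :=
        Integrable.of_bound (hc.comp (continuous_const.sub continuous_id)).aestronglyMeasurable 1
          (Eventually.of_forall fun v => by
            rw [Real.norm_of_nonneg (by positivity), div_le_one (by positivity)]
            linarith [abs_nonneg (u - v)])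
      rw [integral_const_mul, integral_add (i1.const_mul _) (integrable_const β),
        integral_const_mul, integral_const, smul_eq_mul, measureReal_restrict_apply_univ, hA,
        mul_comm _ β]
      have h1 := hUc hu
      have h2 : ∫ v in U, 1 / (1 + |u - v|) ≤ 2 * Real.log (1 + T) := by
        rw [← Large_int hT u]
        refine setIntegral_mono_set
          ((hc.comp (continuous_const.sub continuous_id)).integrableOn_Icc.mono_set
            Set.Ioc_subset_Icc_self) (Eventually.of_forall fun v => by positivity)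
          (LE.le.eventuallyLE fun v hv => ?_)
        have h2 := hUc hv
        exact ⟨by linarith [h1.2, h2.1], by linarith [h1.1, h2.2]⟩
      have h3 : (N : ℝ) * ∫ v in U, 1 / (1 + |u - v|) ≤ 2 * N * Real.log (1 + T) := by
        have := mul_le_mul_of_nonneg_left h2 (Nat.cast_nonneg (α := ℝ) N)
        linarith
      gcongr)
  set W : ℝ := ∫ u in U, ‖DP (Icc 1 N) a u‖ ^ 2 with hW
  have M0 : 0 ≤ W := integral_nonneg fun _ => by positivity
  have s0 : 0 ≤ ∑ n ∈ Icc 1 N, ‖a n‖ ^ 2 := sum_nonneg fun p _ => by positivity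
  have S4 := (Large_dual (volume.restrict U) (Icc 1 N) a).trans (mul_le_mul_of_nonneg_left X s0)
  change W ^ 2 ≤ _ at S4
  rcases M0.eq_or_lt with h | h
  · rw [← h]; positivity
  · refine le_of_mul_le_mul_right ?_ h
    rw [← sq]
    refine S4.trans (le_of_eq ?_)
    ring

/-- the mean value theorem on a window -/
theorem mv_window (N : ℕ) (a : ℕ → ℂ) (c : ℝ) {T : ℝ} (hT : 0 < T) :
    ∫ u in Set.Ioc c (c + T), ‖DP (Icc 1 N) a u‖ ^ 2 ≤
      7 * (T + 2 * N) * ∑ n ∈ Icc 1 N, ‖a n‖ ^ 2 := by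
  set b : ℕ → ℂ := fun n => a n * nit n c with hb
  have h1 := mean_value (S := Icc 1 N) Subset.rfl b hT
  have h2 : ∑ n ∈ Icc 1 N, ‖b n‖ ^ 2 = ∑ n ∈ Icc 1 N, ‖a n‖ ^ 2 :=
    sum_congr rfl fun n _ => by rw [hb, norm_mul, norm_nit, mul_one]
  have h3 : ∀ s, DP (Icc 1 N) a (c + s) = DP (Icc 1 N) b s := fun s =>
    sum_congr rfl fun n _ => by rw [hb, nit_add, mul_assoc]
  have hQ := Trig.DP (Icc 1 N) b
  have h4 : ∫ u in Set.Ioc c (c + T), ‖DP (Icc 1 N) a u‖ ^ 2 =
      ∫ s in Set.Ioc 0 T, ‖DP (Icc 1 N) b s‖ ^ 2 := by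
    rw [← intervalIntegral.integral_of_le (by linarith), ← intervalIntegral.integral_of_le hT.le]
    have := intervalIntegral.integral_comp_add_left (a := 0) (b := T)
      (fun u => ‖DP (Icc 1 N) a u‖ ^ 2) c
    simp only [add_zero, h3] at this
    exact this.symm
  have h5 : volume.restrict (Set.Ioc 0 T) ≤ (2 : NNReal) • cm T := by
    have e : volume.restrict (Set.Ioc 0 T) =
        volume.withDensity ((Set.Ioc 0 T).indicator fun _ => 1) := by
      rw [withDensity_indicator measurableSet_Ioc]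
      exact withDensity_one.symm
    have e2 : (2 : NNReal) • cm T =
        volume.withDensity ((2 : ENNReal) • fun u => ENNReal.ofReal (wt T u)) := by
      rw [withDensity_smul' _ _ (by simp), cm]
      rfl
    rw [e, e2]
    refine withDensity_mono (Eventually.of_forall fun u => ?_)
    by_cases hu : u ∈ Set.Ioc 0 T
    · simp only [Set.indicator_of_mem hu, Pi.smul_apply, smul_eq_mul]
      have : 1 ≤ 2 * wt T u := by
        unfold wt
        rw [← mul_div_assoc, le_div_iff₀ (by positivity)]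
        nlinarith [hu.1, hu.2]
      calc (1 : ENNReal) = ENNReal.ofReal 1 := ENNReal.ofReal_one.symm
        _ ≤ ENNReal.ofReal (2 * wt T u) := ENNReal.ofReal_le_ofReal this
        _ = _ := by rw [ENNReal.ofReal_mul (by norm_num)]; simp
    · simp only [Set.indicator_of_notMem hu, zero_le]
  have h6 := integral_mono_measure h5 (f := fun s => ‖DP (Icc 1 N) b s‖ ^ 2)
    (Eventually.of_forall fun _ => by positivity) (hQ.integrable_sq _)
  rw [integral_smul_nnreal_measure] at h6
  rw [h4]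
  refine h6.trans ?_
  rw [MS, Measure.restrict_univ, h2] at h1
  have s0 : 0 ≤ (T + 2 * N) * ∑ n ∈ Icc 1 N, ‖a n‖ ^ 2 :=
    mul_nonneg (by positivity) (sum_nonneg fun p _ => by positivity)
  have hpi := Real.pi_lt_d2
  rw [NNReal.smul_def, smul_eq_mul]
  push_cast
  nlinarith

lemma Large_cheb {Q : ℝ → ℂ} (hQ : Trig Q) {E : Set ℝ} (hE : MeasurableSet E) {c d V : ℝ}
    (hEc : E ⊆ Set.Ioc c d) (hV : 0 ≤ V) (h : ∀ u ∈ E, V ≤ ‖Q u‖) :
    V ^ 2 * volume.real E ≤ ∫ u in E, ‖Q u‖ ^ 2 := by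
  have := Large_fin hEc
  rw [mul_comm, ← smul_eq_mul, ← setIntegral_const]
  exact setIntegral_mono_on (integrable_const _) (hQ.integrable_sq _) hE fun u hu =>
    pow_le_pow_left₀ hV (h u hu) 2

/-- the measure of the set of large values -/
theorem large_meas : ∃ C : ℝ, 1 ≤ C ∧ ∀ (N : ℕ) (a : ℕ → ℂ) (c T V G l : ℝ) (E : Set ℝ), 0 < T →
    0 < V → 0 < G → 1 ≤ l → MeasurableSet E → E ⊆ Set.Ioc c (c + T) →
    ∑ n ∈ Icc 1 N, ‖a n‖ ^ 2 ≤ G → (∀ u ∈ E, V ≤ ‖DP (Icc 1 N) a u‖) → 1 + Real.log N ≤ l →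
    Real.log (1 + T) ≤ l →
    volume.real E ≤ 7 * (T + 2 * N) * G / V ^ 2 ∧
    volume.real E ≤ (2 + T * (2 * C * l ^ 2 * G / V ^ 2) ^ 2) * (4 * C * N * l * G / V ^ 2) := by
  obtain ⟨C, hC, H⟩ := hm_window
  refine ⟨C, hC, fun N a c T V G l E hT hV hG hl hE hEc hs hEV hlN hlT => ⟨?_, ?_⟩⟩
  · rw [le_div_iff₀ (by positivity), mul_comm]
    refine (Large_cheb (Trig.DP _ _) hE hEc hV.le hEV).trans ?_
    have := Large_fin (Set.Subset.refl (Set.Ioc c (c + T)))
    refine (setIntegral_mono_set ((Trig.DP _ _).integrable_sq _)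
      (Eventually.of_forall fun _ => by positivity) hEc.eventuallyLE).trans ?_
    refine (mv_window N a c hT).trans ?_
    gcongr
  have hC0 : 0 < C := by linarith
  set y : ℝ := 2 * C * l ^ 2 * G / V ^ 2 with hy
  have hy0 : 0 < y := by positivity
  set T0 : ℝ := min T (1 / y ^ 2) with hT0
  have hT00 : 0 < T0 := lt_min hT (by positivity)
  have hsq : √T0 ≤ 1 / y := by
    refine Real.sqrt_le_iff.2 ⟨by positivity, ?_⟩
    rw [div_pow, one_pow]; exact min_le_right _ _
  have hlog : Real.log (1 + T0) ≤ l :=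
    (Real.log_le_log (by linarith) (by linarith [min_le_left T (1 / y ^ 2)])).trans hlT
  have hl0 : 0 ≤ 1 + Real.log N := by have := Real.log_natCast_nonneg N; linarith
  have one : ∀ d : ℝ, volume.real (E ∩ Set.Ioc d (d + T0)) ≤ 4 * C * N * l * G / V ^ 2 := by
    intro d
    have hm := hE.inter (measurableSet_Ioc (a := d) (b := d + T0))
    have h1 := (Large_cheb (Trig.DP _ _) hm Set.inter_subset_right hV.le
      fun u hu => hEV u hu.1).trans (H N a d T0 _ hT00.le hm Set.inter_subset_right)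
    have h0 : 0 ≤ volume.real (E ∩ Set.Ioc d (d + T0)) := measureReal_nonneg
    generalize volume.real (E ∩ Set.Ioc d (d + T0)) = m at *
    have hlog0 : 0 ≤ Real.log (1 + T0) := Real.log_nonneg (by linarith)
    have h2 : C * (2 * N * Real.log (1 + T0) + √T0 * (1 + Real.log N) ^ 2 * m) *
        ∑ n ∈ Icc 1 N, ‖a n‖ ^ 2 ≤ C * (2 * N * l + 1 / y * l ^ 2 * m) * G := by
      gcongr
    have h3 : C * (2 * N * l + 1 / y * l ^ 2 * m) * G = 2 * C * N * l * G + V ^ 2 * m / 2 := by
      rw [hy]; field_simp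
    rw [le_div_iff₀ (by positivity)]
    linarith
  set n : ℕ := ⌈T / T0⌉₊ with hn
  have cov : E ⊆ ⋃ i ∈ range n, E ∩ Set.Ioc (c + i * T0) (c + i * T0 + T0) := by
    intro u hu
    obtain ⟨h1, h2⟩ := hEc hu
    have h3 : 0 < (u - c) / T0 := div_pos (by linarith) hT00
    have h4 : 1 ≤ ⌈(u - c) / T0⌉₊ := Nat.ceil_pos.2 h3
    have h5 : ⌈(u - c) / T0⌉₊ ≤ n := Nat.ceil_mono (by gcongr; linarith)
    have h6 := Nat.le_ceil ((u - c) / T0)
    have h7 := Nat.ceil_lt_add_one h3.le
    obtain ⟨i, hi⟩ := Nat.exists_eq_add_of_le' h4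
    rw [hi] at h5 h6 h7
    push_cast at h6 h7
    rw [div_le_iff₀ hT00] at h6
    have h8 : (i : ℝ) < (u - c) / T0 := by linarith
    rw [lt_div_iff₀ hT00] at h8
    simp only [Set.mem_iUnion]
    exact ⟨i, mem_range.2 (by omega), hu, by linarith, by linarith⟩
  have fin : (volume (⋃ i ∈ range n, E ∩ Set.Ioc (c + i * T0) (c + i * T0 + T0))) ≠ ⊤ := by
    refine ne_top_of_le_ne_top (measure_Ioc_lt_top (μ := volume) (a := c) (b := c + T)).ne
      (measure_mono ?_)
    exact Set.iUnion₂_subset fun i _ => Set.inter_subset_left.trans hEc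
  refine (measureReal_mono cov fin).trans ((measureReal_biUnion_finset_le _ _).trans ?_)
  refine (sum_le_card_nsmul _ _ _ fun i _ => one _).trans ?_
  rw [card_range, nsmul_eq_mul]
  refine mul_le_mul_of_nonneg_right ?_ (by positivity)
  have h1 := Nat.ceil_lt_add_one (div_pos hT hT00).le
  have h2 : T / T0 ≤ 1 + T * y ^ 2 := by
    rcases le_total T (1 / y ^ 2) with h | h
    · rw [hT0, min_eq_left h, div_self hT.ne']
      exact le_add_of_nonneg_right (by positivity)
    · rw [hT0, min_eq_right h, div_div_eq_mul_div, div_one]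
      linarith
  linarith

lemma Large_alg {ρ u lam t l κ : ℝ} (hρ : 0 ≤ ρ) (hu : 0 ≤ u) (hlam : 0 < lam)
    (h : u ≤ κ * ρ - lam / 2) (hκ : κ ≤ 1 / 2)
    (hk : κ ≤ 0 ∨ (t ≤ 2 * l ∧ κ * (4 * t - 2 * l) ≤ l))
    (h1 : ρ < lam + 2 * u ∨ ρ < lam + t - l + 2 * u)
    (h2 : ρ < lam + 2 * u ∨ ρ < lam + t - 2 * l + 6 * u) : False := by
  have A : ¬ ρ < lam + 2 * u := fun h3 => by nlinarith
  replace h1 := h1.resolve_left A
  replace h2 := h2.resolve_left A
  rcases hk with hk | ⟨k1, k2⟩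
  · nlinarith
  rcases le_or_gt t l with h3 | h3
  · exact A (by linarith)
  have a1 := mul_le_mul_of_nonneg_left h1.le (show 0 ≤ 2 * l - t by linarith)
  have a2 := mul_lt_mul_of_pos_left h2 (show 0 < t - l by linarith)
  have a3 := mul_le_mul_of_nonneg_left h (show 0 ≤ 4 * t - 2 * l by linarith)
  have a4 := mul_le_mul_of_nonneg_right k2 hρ
  have a5 := mul_pos hlam (show 0 < t - l by linarith)
  nlinarith

/-- the large value estimate with an admissible exponent -/
theorem large_kap : ∃ C : ℝ, 1 ≤ C ∧ ∀ (x τ L κ D l R c T : ℝ) (N : ℕ) (a : ℕ → ℂ), 1 < x → 0 < T →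
    T ≤ x ^ τ → Kap τ L κ → 1 ≤ D → 1 ≤ l → (N : ℝ) ≤ D * x ^ L →
    ∑ n ∈ Icc 1 N, ‖a n‖ ^ 2 ≤ D * x ^ L → (∀ u, ‖DP (Icc 1 N) a u‖ ≤ x ^ L) →
    1 + Real.log N ≤ l → Real.log (1 + T) ≤ l → 1 ≤ R →
    volume.real {u | u ∈ Set.Ioc c (c + T) ∧
      C * D ^ 2 * l ^ 3 * R ^ (-κ) * x ^ L < ‖DP (Icc 1 N) a u‖} ≤ R := by
  obtain ⟨C, hC, H⟩ := large_meas
  refine ⟨8 * C ^ 2, by nlinarith, ?_⟩
  intro x τ L κ D l R c T N a hx hT hTx hκ hD hl hN hs hq hlN hlT hR
  by_contra hcon
  rw [not_le] at hcon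
  have hx0 : 0 < x := by linarith
  have hlx : 0 < Real.log x := Real.log_pos hx
  set X : ℝ := x ^ L with hX
  have hX0 : 0 < X := Real.rpow_pos_of_pos hx0 L
  set P : ℝ := 8 * C ^ 2 * D ^ 2 * l ^ 3 with hP
  have hC2 : 1 ≤ C ^ 2 := one_le_pow₀ hC
  have hD2 : 1 ≤ D ^ 2 := one_le_pow₀ hD
  have hl3 : 1 ≤ l ^ 3 := one_le_pow₀ hl
  have hP1 : 8 ≤ P := by
    have := one_le_mul_of_one_le_of_one_le (one_le_mul_of_one_le_of_one_le hC2 hD2) hl3
    rw [hP]; linarith
  set q : ℝ := P * R ^ (-κ) with hqd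
  have hR0 : 0 < R := by linarith
  have hq0 : 0 < q := mul_pos (by linarith) (Real.rpow_pos_of_pos hR0 _)
  set E := {u | u ∈ Set.Ioc c (c + T) ∧ q * X < ‖DP (Icc 1 N) a u‖} with hE
  have hEm : MeasurableSet E :=
    measurableSet_Ioc.inter (measurableSet_lt measurable_const (Trig.DP _ _).1.norm.measurable)
  obtain ⟨u0, hu0⟩ : E.Nonempty := by
    rcases E.eq_empty_or_nonempty with h | h
    · rw [h, measureReal_empty] at hcon; linarith
    · exact h
  have hq1 : q ≤ 1 := by
    have := hu0.2.le.trans (hq u0)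
    exact le_of_mul_le_mul_right (by linarith) hX0
  obtain ⟨b1, b2⟩ := H N a c T (q * X) (D * X) l E hT (by positivity) (by positivity) hl hEm
    (fun u hu => hu.1) hs (fun u hu => hu.2.le) hlN hlT
  set Tm : ℝ := x ^ τ with hTm
  have hTm0 : 0 < Tm := Real.rpow_pos_of_pos hx0 τ
  have c1 : R < 7 * D * (Tm / X / q ^ 2) + 14 * D ^ 2 * (1 / q ^ 2) := by
    refine (hcon.trans_le b1).trans_le ?_
    calc _ ≤ 7 * (Tm + 2 * (D * X)) * (D * X) / (q * X) ^ 2 := by gcongr
      _ = _ := by field_simp; ring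
  have c2 : R < 16 * C ^ 3 * D ^ 4 * l ^ 5 * (Tm / X ^ 2 / q ^ 6) +
      8 * C * D ^ 2 * l * (1 / q ^ 2) := by
    refine (hcon.trans_le b2).trans_le ?_
    calc _ ≤ (2 + Tm * (2 * C * l ^ 2 * (D * X) / (q * X) ^ 2) ^ 2) *
          (4 * C * (D * X) * l * (D * X) / (q * X) ^ 2) := by gcongr
      _ = _ := by field_simp; ring
  have hPP : P ^ 2 = 64 * C ^ 4 * D ^ 4 * l ^ 6 := by rw [hP]; ring
  have m1 : ∀ (k i j r : ℕ), i ≤ 4 → j ≤ 4 → r ≤ 6 → k ≤ 32 →
      (k : ℝ) * C ^ i * D ^ j * l ^ r ≤ P ^ 2 / 2 := fun k i j r hi hj hr hk => by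
    have : (k : ℝ) ≤ 32 := by exact_mod_cast hk
    calc _ ≤ 32 * C ^ 4 * D ^ 4 * l ^ 6 := by gcongr
      _ = _ := by rw [hPP]; ring
  have split : ∀ {α β y z : ℝ}, R < α * y + β * z → α ≤ P ^ 2 / 2 → β ≤ P ^ 2 / 2 → 0 < y → 0 < z →
      Real.log R < 2 * Real.log P + Real.log z ∨ Real.log R < 2 * Real.log P + Real.log y := by
    intro α β y z h hα hβ hy hz
    have k : ∀ w : ℝ, 0 < w → R < P ^ 2 * w → Real.log R < 2 * Real.log P + Real.log w :=
      fun w hw h => by
        have := Real.log_lt_log hR0 h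
        rwa [Real.log_mul (by positivity) hw.ne', Real.log_pow, Nat.cast_ofNat] at this
    have p1 := mul_le_mul_of_nonneg_right hα hy.le
    have p2 := mul_le_mul_of_nonneg_right hβ hz.le
    rcases le_total y z with h1 | h1
    · have := mul_le_mul_of_nonneg_left h1 (show 0 ≤ P ^ 2 / 2 by positivity)
      exact Or.inl (k z hz (by linarith))
    · have := mul_le_mul_of_nonneg_left h1 (show 0 ≤ P ^ 2 / 2 by positivity)
      exact Or.inr (k y hy (by linarith))
  have d1 := split c1 (by simpa using m1 7 0 1 0) (by simpa using m1 14 0 2 0)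
    (by positivity) (by positivity)
  have d2 := split c2 (by simpa using m1 16 3 4 5) (by simpa using m1 8 1 2 1)
    (by positivity) (by positivity)
  have lq : Real.log q = Real.log P - κ * Real.log R := by
    rw [hqd, Real.log_mul (by positivity) (by positivity), Real.log_rpow hR0]; ring
  have lX : Real.log X = L * Real.log x := Real.log_rpow hx0 L
  have lT : Real.log Tm = τ * Real.log x := Real.log_rpow hx0 τ
  have e1 : Real.log (1 / q ^ 2) = 2 * (-Real.log q) := by
    rw [one_div, Real.log_inv, Real.log_pow]; push_cast; ring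
  have e2 : Real.log (Tm / X / q ^ 2) = τ * Real.log x - L * Real.log x + 2 * (-Real.log q) := by
    rw [Real.log_div (by positivity) (by positivity), Real.log_div (by positivity) (by positivity),
      Real.log_pow, lX, lT]; push_cast; ring
  have e3 : Real.log (Tm / X ^ 2 / q ^ 6) =
      τ * Real.log x - 2 * (L * Real.log x) + 6 * (-Real.log q) := by
    rw [Real.log_div (by positivity) (by positivity), Real.log_div (by positivity) (by positivity),
      Real.log_pow, Real.log_pow, lX, lT]; push_cast; ring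
  rw [e1, e2] at d1
  rw [e1, e3] at d2
  refine Large_alg (ρ := Real.log R) (u := -Real.log q) (lam := 2 * Real.log P)
    (t := τ * Real.log x) (l := L * Real.log x) (κ := κ) (Real.log_nonneg hR)
    (neg_nonneg.2 (Real.log_nonpos hq0.le hq1))
    (by have := Real.log_pos (show 1 < P by linarith); linarith) (by rw [lq]; linarith) hκ.1
    (hκ.2.imp id fun h => ⟨by nlinarith [h.1], by nlinarith [h.2]⟩)
    (d1.imp id fun h => by linarith) (d2.imp id fun h => by linarith)

end Pool.Agent.Work.MP_82fd4a_nt.P
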