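import Pool.Agent.Work.MP_82fd4a_nt.P.Chk

/-! The program that checks the table of the costs. -/

set_option autoImplicit false

namespace Pool.Agent.Work.MP_82fd4a_nt.P

open BS Y

noncomputable section

/-- sum of two tables -/
def mrg (s : Tr) : Tr → Tr :=
  Tr.rec (fun u => u) (fun v k r ihk ihr u =>
    Tr.rec (Tr.c v k r) (fun v' k' r' _ _ => Tr.c (Nat.add v v') (ihk k') (ihr r')) u) s

/-- the sum over the sublists, computed from the left -/
def pf (l : List ℕ) : Tr → ℕ → ℕ → ℕ :=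
  List.rec (fun _ _ o => o) (fun x _ ih s a o =>
    Tr.rec o (fun v k r _ _ => fz (Nat.add o v) fun o' => ih (mrg (Tr.c v k r) k) x o')
      (skip s (Nat.sub x a))) l

/-- read the first node of a stream -/
def un (s : Tr) (f : ℕ → Tr → Tr → ℕ) : ℕ := Tr.rec (f 0 Tr.e Tr.e) (fun v k r _ _ => f v k r) s

/-- the range of an entry of length `n`; the other parts are `q` in number -/
def blk (q v n i : ℕ) : ℕ := fz (Nat.succ (Nat.sub (Nat.succ i) q)) fun lo =>
  rl (Nat.sub (Nat.succ (mn (Nat.succ i) n)) lo) (Nat.shiftRight v (Nat.mul 20 lo)) 0 1048576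

/-- `n` digits equal to one -/
def geo (h n : ℕ) : ℕ := Nat.rec 0 (fun _ ih => Nat.succ (Nat.shiftLeft ih h)) n

/-- the ranges of an entry of length `n` inside a list of length `K + 1` -/
def enr (K v n : ℕ) : ℕ := iz v 0 (fz n fun n =>
  fz (Nat.mod (Nat.shiftRight v 20) 1048576) fun u => Bool.rec
    (fz (mx 1 (Nat.sub (Nat.succ K) n)) fun q =>
      Nat.rec 0 (fun i ih => Nat.add ih (Nat.shiftLeft (blk q v n i) (Nat.mul 192 i))) K)
    (Nat.mul (Nat.add (Nat.mul u 18446744073709551617) 340282366920938463463374607431768211456)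
      (geo 192 K)) (Nat.beq (Nat.shiftRight v 20) (Nat.mul u (geo 20 n))))

/-- the table of the ranges -/
def evk (K : ℕ) (s : Tr) : ℕ → Tr :=
  Tr.rec (fun _ => Tr.e) (fun v _ _ ihk ihr n => Tr.c (enr K v n) (ihk (Nat.succ n)) (ihr n)) s

/-- zero if one cost is right -/
def ck1 (C x g : ℕ) : ℕ := fz C fun C => il 2147483648 C 0
  (fz x fun x => fz (Nat.mul (Nat.mod (Nat.shiftRight x 128) 18446744073709551616) 524288) fun o =>
    il (Nat.add (Nat.mod x 18446744073709551616) 4096) o
      (il o (Nat.add (Nat.add (Nat.mod (Nat.shiftRight x 64) 18446744073709551616) 4096)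
        (Nat.mul C g)) 0 1) 1)

/-- zero if the costs of `n` consecutive cells are right -/
def cks (o f n : ℕ) : ℕ → ℕ → Tr → ℕ :=
  Nat.rec (fun _ _ _ => 0) (fun i ih V g s => un s fun v _ r => Nat.add
    (ck1 (Nat.mod V 4294967296) (Nat.shiftRight (Nat.add o v) (Nat.mul 192 i)) g)
    (fz (Nat.shiftRight V 32) fun V' => ih V' f r)) n

/-- zero if the costs of a list of cells are right -/
def ckv (K V c m R f o : ℕ) (s : Tr) : ℕ := iz V 0 (fz (Nat.sub R K) fun j0 => fz (mx c j0) fun j =>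
  cks o f (Nat.sub R j) (Nat.shiftRight V (Nat.mul 32 (Nat.succ (Nat.sub j j0))))
    (il j c (Nat.mul f m) f) (skip s (Nat.sub j c)))

/-- zero if the costs of the lists of length `K` with key between `a` and `b` are right -/
def ckc (K a b : ℕ) (t : Tr) : ℕ → ℕ → ℕ → ℕ → ℕ → ℕ → ℕ → ℕ → Tr → ℕ :=
  Tr.rec (fun _ _ _ _ _ _ _ _ _ => 0) (fun V _ _ ihk ihr n d m R f o y u s =>
    il R (Nat.mul (Nat.succ n) d) 0 (un s fun v k r => Nat.add
      (fz (Nat.add y (Nat.mul d u)) fun y' => il b y' 0 (il a (Nat.add y' (Nat.pred u))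
        (fz (Nat.succ m) fun m' => fz (Nat.sub R d) fun R' => fz (Nat.mul f m) fun f' =>
          fz (Nat.add o v) fun o' => il n 1 (ckv K V d m' R' f' o' (mrg s k))
            (fz (Nat.pred n) fun n' => fz (Nat.div u 128) fun u' =>
              ihk n' d m' R' f' o' y' u' (mrg s k))) 0))
      (fz (Nat.succ d) fun d' => ihr n d' 1 R f o y u r))) t

/-- zero if the costs of the lists of length `K` with key between `a` and `b` are right -/
def cjob (N c0 K : ℕ) (tb tc : Tr) (a b : ℕ) : ℕ :=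
  ckc K a b tc K c0 1 N 1 0 0 562949953421312 (evk K tb 1)

/-- zero if the depth is at most the last argument -/
def dpt (t : Tr) : ℕ → ℕ :=
  Tr.rec (fun _ => 0) (fun _ _ _ ihk ihr n => iz n 1 (Nat.add (fz (Nat.pred n) ihk) (ihr n))) t

/-- read the costs in the table -/
def ldc (G N c0 : ℕ) (tc : Tr) (los : List ℕ) (k : ℕ → ℕ → ℕ) : ℕ :=
  fl (cls G los) fun cs => fz (look cs 0 tc c0) fun v =>
    iz v (k CT0 0) (fz (Nat.sub (Nat.sub N (sm cs)) (ln cs)) fun j => k v j)

end

end Pool.Agent.Work.MP_82fd4a_nt.P
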