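import Pool.Agent.Work.MP_82fd4a_nt.P.Cv
import Pool.Agent.Work.MP_82fd4a_nt.P.Tc

/-! The machine that reads the certificate. -/

set_option autoImplicit false

namespace Pool.Agent.Work.MP_82fd4a_nt.P

open BS Y

noncomputable section

/-- evaluate the envelopes on a box; the continuation gets the costs and the first cell -/
def evp (G M c0 Y0 : ℕ) (tq : Tr) (c : ℕ) (los : List ℕ) (sl sh : ℕ) (k : ℕ → ℕ → ℕ) : ℕ :=
  fl (cls G los) fun cs => fz (mx c (Nat.div (Nat.sub M sh) G)) fun jl =>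
  fz (pf cs tq c0 Y0) fun r =>
  fz (evs (eq1 c0 r cs) (Nat.sub (Nat.succ (Nat.div (Nat.pred (Nat.sub M sl)) G)) jl) jl) fun C =>
  fz (Nat.add (Nat.shiftLeft C 32) (Nat.mod C 4294967291)) fun CT => k CT jl

/-- boxes with one more part -/
def cl3 (G N M T U c0 Y0 : ℕ) (tb tq tc : Tr) (n c f : ℕ) :
    List ℕ → List ℕ → ℕ → ℕ → List Ce → ℕ → ℕ → ℕ :=
  Nat.rec (fun _ _ _ _ _ _ _ => BAD) (fun _ ih los his CT j0 CL K s => fz (Nat.mod s 4) fun o =>
    iz o (fz (Nat.mod (Nat.shiftRight s 2) 4) fun o' => iz o'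
        (fz (sm los) fun SL => fz (sm his) fun SH =>
          evp G M c0 Y0 tq c los SL SH fun CT' j' => lf G M c los his SL SH CT' j')
        (fz (Nat.shiftRight s 4) fun s' => il o' 1
          (rdc T n s' fun ce a => ih los his CT j0 (ce :: CL) K a)
          (il o' 2 (nar U K los his fun sl sh => evl G N M c0 tb c los his sl sh fun CT' j' =>
              ih los his CT' j' CL K s')
            (ldc G N c0 tc los fun CT' j' => ih los his CT' j' CL K s'))))
      (il o 1 (fz (Nat.mod (Nat.shiftRight s 2) 4) fun g =>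
          iz g (nar U K los his fun sl sh => lf G M c los his sl sh CT j0)
            (cvl U G M c n los his K CT j0 g))
        (il o 2 (spl n los his (Nat.shiftRight s 2) fun l h a => ih l h CT j0 CL K a)
          (clr U M T n los his (nce CL (Nat.mod (Nat.shiftRight s 2) 32)) K fun K' =>
            fz (Nat.shiftRight s 7) fun s' => ih los his CT j0 CL K' s')))) f

/-- boxes with any number of further parts -/
def op3 (G N M T U z c0 Y0 : ℕ) (tb tq tc : Tr) (f : ℕ) : ℕ → ℕ → List ℕ → List ℕ → ℕ → ℕ :=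
  Nat.rec (fun _ _ _ _ _ => BAD) (fun _ ih n c los his s => tk s fun a b =>
    Nat.add (cl3 G N M T U c0 Y0 tb tq tc n c 250 los his CT0 0 [] CT0 a)
      (fz (Nat.succ n) fun n' => xp G M z c los his b fun d l h u => ih n' d l h u)) f

/-- one job -/
def job3 (G N M T U z c0 Y0 : ℕ) (tb tq tc : Tr) (o c : ℕ) (l h : List ℕ) (s : ℕ) : ℕ :=
  fz (ln l) fun n => iz o (cl3 G N M T U c0 Y0 tb tq tc n c 250 l h CT0 0 [] CT0 s)
    (op3 G N M T U z c0 Y0 tb tq tc 40 n c l h s)

/-- zero if all the jobs respect their bounds -/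
def run3 (G N M T U z c0 Y0 : ℕ) (tb tq tc : Tr) (J : Jt) : ℕ :=
  Jt.rec (fun o c l h r s => il (job3 G N M T U z c0 Y0 tb tq tc o c l h s) r 0 1)
    (fun _ _ a b => Nat.add a b) J

end

end Pool.Agent.Work.MP_82fd4a_nt.P
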