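import Pool.Agent.Lib.MR.Basic

/-! A monomial in prime polynomials is a Dirichlet polynomial with bounded coefficients.

Plan. Index type `κ = Σ j, Fin (m j)`, `card κ = d = ∑ m j ≤ M`. The product is
`∏ i : κ, DP (P i.1) 1 u = ∑ p ∈ Fintype.piFinset (fun i : κ => P i.1), nit (∏ i, p i) u`
(`Finset.prod_univ_sum`, `nit_mul`, `Finset.prod_sigma`). `c k` is the number of tuples with product `k`
(`sum_fiberwise_of_maps_to`, as in `mean_value_fam`). A tuple with product `k` has all entries in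
`k.primeFactors`, and `k.primeFactors ⊆ image p` has at most `d` elements, so `c k ≤ d ^ d ≤ M ^ M`
(treat `d = 0` apart or use `(M + 1) ^ M`); `∑ c k = ∏ #(P j) ^ m j`. `N = ⌊2 ^ M * ∏ Y j ^ m j⌋₊`. -/

set_option autoImplicit false
open Finset Pool.Agent.Lib.MR

namespace Pool.Agent.Work.MP_82fd4a_nt.P

lemma Mono_nit {κ : Type} (s : Finset κ) {p : κ → ℕ} (hp : ∀ i ∈ s, p i ≠ 0) (u : ℝ) :
    nit (∏ i ∈ s, p i) u = ∏ i ∈ s, nit (p i) u := by
  induction s using Finset.cons_induction with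
  | empty => simp [nit]
  | cons a s ha ih =>
    have h := fun i hi => hp i (mem_cons_of_mem hi)
    rw [prod_cons, prod_cons, nit_mul (hp a (mem_cons_self _ _)) (prod_ne_zero_iff.2 h), ih h]

lemma Mono_fib {κ : Type} [Fintype κ] [DecidableEq κ] {Q : κ → Finset ℕ}
    (hQ : ∀ i, ∀ p ∈ Q i, p.Prime) (k : ℕ) :
    #{p ∈ Fintype.piFinset Q | ∏ i, p i = k} ≤ Fintype.card κ ^ Fintype.card κ := by
  rcases eq_empty_or_nonempty {p ∈ Fintype.piFinset Q | ∏ i, p i = k} with h | ⟨q, hq⟩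
  · rw [h]
    exact Nat.zero_le _
  obtain ⟨q1, q2⟩ := mem_filter.1 hq
  refine (card_le_card (t := Fintype.piFinset fun _ : κ => univ.image q) fun p hp => ?_).trans ?_
  · obtain ⟨p1, p2⟩ := mem_filter.1 hp
    refine Fintype.mem_piFinset.2 fun i => ?_
    have h1 := hQ i _ (Fintype.mem_piFinset.1 p1 i)
    obtain ⟨j, -, hj⟩ := h1.prime.exists_mem_finset_dvd (s := univ) (f := q)
      (by rw [q2, ← p2]; exact dvd_prod_of_mem _ (mem_univ i))
    exact mem_image.2 ⟨j, mem_univ _,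
      ((Nat.prime_dvd_prime_iff_eq h1 (hQ j _ (Fintype.mem_piFinset.1 q1 j))).1 hj).symm⟩
  · rw [Fintype.card_piFinset, prod_const, card_univ]
    exact Nat.pow_le_pow_left card_image_le _

lemma Mono_gen {κ : Type} [Fintype κ] [DecidableEq κ] {Q : κ → Finset ℕ}
    (hQ : ∀ i, ∀ p ∈ Q i, p.Prime) {N : ℕ} (hN : ∀ p ∈ Fintype.piFinset Q, ∏ i, p i ≤ N) :
    ∃ c : ℕ → ℕ, (∀ k, c k ≤ Fintype.card κ ^ Fintype.card κ) ∧
      ∑ k ∈ Icc 1 N, c k = ∏ i, #(Q i) ∧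
      ∀ u : ℝ, ∏ i, DP (Q i) (fun _ => 1) u = DP (Icc 1 N) (fun k => c k) u := by
  have h0 : ∀ p ∈ Fintype.piFinset Q, ∀ i ∈ univ, p i ≠ 0 := fun p hp i _ =>
    (hQ i _ (Fintype.mem_piFinset.1 hp i)).ne_zero
  have hm : ∀ p ∈ Fintype.piFinset Q, ∏ i, p i ∈ Icc 1 N := fun p hp =>
    mem_Icc.2 ⟨Nat.one_le_iff_ne_zero.2 (prod_ne_zero_iff.2 (h0 p hp)), hN p hp⟩
  refine ⟨fun k => #{p ∈ Fintype.piFinset Q | ∏ i, p i = k}, Mono_fib hQ, ?_, fun u => ?_⟩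
  · rw [← card_eq_sum_card_fiberwise hm, Fintype.card_piFinset]
  · simp only [DP, one_mul]
    rw [prod_univ_sum, ← sum_fiberwise_of_maps_to hm]
    refine sum_congr rfl fun k _ => ?_
    rw [← nsmul_eq_mul, ← sum_const]
    refine sum_congr rfl fun p hp => ?_
    rw [← (mem_filter.1 hp).2, Mono_nit _ (h0 p (mem_filter.1 hp).1)]

theorem mono_DP {n : ℕ} (P : Fin n → Finset ℕ) (Y : Fin n → ℝ) (hY : ∀ j, 1 ≤ Y j)
    (hP : ∀ j, ∀ p ∈ P j, p.Prime ∧ (p : ℝ) ≤ 2 * Y j) (hc : ∀ j, (#(P j) : ℝ) ≤ Y j)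
    (m : Fin n → ℕ) {M : ℕ} (hm : ∑ j, m j ≤ M) :
    ∃ (N : ℕ) (c : ℕ → ℂ), 1 ≤ N ∧ (N : ℝ) ≤ 2 ^ M * ∏ j, Y j ^ m j ∧
      ∑ k ∈ Icc 1 N, ‖c k‖ ^ 2 ≤ ((M : ℝ) + 1) ^ M * ∏ j, Y j ^ m j ∧
      ∀ u : ℝ, ∏ j, DP (P j) (fun _ => 1) u ^ m j = DP (Icc 1 N) c u := by
  have e : ∀ {R : Type} [CommMonoid R] (f : Fin n → R),
      ∏ i : (Σ j, Fin (m j)), f i.1 = ∏ j, f j ^ m j := fun f => by
    rw [Fintype.prod_sigma]
    simp only [prod_const, card_univ, Fintype.card_fin]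
  have hd : Fintype.card (Σ j, Fin (m j)) ≤ M := by
    simpa only [Fintype.card_sigma, Fintype.card_fin] using hm
  have h1 : 1 ≤ ∏ j, Y j ^ m j := one_le_prod fun j _ => one_le_pow₀ (hY j)
  have h2 : 1 ≤ 2 ^ M * ∏ j, Y j ^ m j := one_le_mul_of_one_le_of_one_le (one_le_pow₀ one_le_two) h1
  obtain ⟨c, c1, c2, c3⟩ := Mono_gen (Q := fun i : (Σ j, Fin (m j)) => P i.1)
    (fun i p hp => (hP _ p hp).1) (N := ⌊2 ^ M * ∏ j, Y j ^ m j⌋₊) fun p hp => by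
      refine Nat.le_floor ?_
      rw [Nat.cast_prod]
      refine (prod_le_prod (fun _ _ => Nat.cast_nonneg _)
        fun i _ => (hP _ _ (Fintype.mem_piFinset.1 hp i)).2).trans ?_
      rw [prod_mul_distrib, e Y, prod_const, card_univ]
      exact mul_le_mul_of_nonneg_right (pow_le_pow_right₀ one_le_two hd) (zero_le_one.trans h1)
  refine ⟨_, fun k => c k, Nat.le_floor (by rwa [Nat.cast_one]),
    Nat.floor_le (zero_le_one.trans h2), ?_, fun u => (e fun j => DP (P j) _ u).symm.trans (c3 u)⟩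
  have c4 : ∀ k, (c k : ℝ) ≤ ((M : ℝ) + 1) ^ M := fun k => by
    exact_mod_cast (c1 k).trans ((Nat.pow_le_pow_left (hd.trans M.le_succ) _).trans
      (Nat.pow_le_pow_right M.succ_pos hd))
  refine (sum_le_sum (g := fun k => ((M : ℝ) + 1) ^ M * c k) fun k _ => ?_).trans ?_
  · rw [Complex.norm_natCast, sq]
    exact mul_le_mul_of_nonneg_right (c4 k) (Nat.cast_nonneg _)
  · rw [← mul_sum, ← Nat.cast_sum, c2, Nat.cast_prod, ← e Y]
    exact mul_le_mul_of_nonneg_left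
      (prod_le_prod (fun _ _ => Nat.cast_nonneg _) fun i _ => hc i.1) (by positivity)


end Pool.Agent.Work.MP_82fd4a_nt.P
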