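import Pool.Agent.Work.MP_82fd4a_nt.P.Gm

/-! The machine that can discard a box together with all its extensions. -/

set_option autoImplicit false

namespace Pool.Agent.Work.MP_82fd4a_nt.P.G

open BS Y

noncomputable section

/-- boxes with any number of further parts -/
def op5 (G N M z c0 Y0 : ℕ) (tq : Tr) (w w0 : ℕ → ℕ → List ℕ → List ℕ → ℕ → ℕ) (f : ℕ) :
    ℕ → ℕ → List ℕ → List ℕ → ℕ → ℕ :=
  Nat.rec (fun _ _ _ _ _ => BAD) (fun g ih n c los his s =>
    iz s (ent G N c0 Y0 tq c los his (aub N c0 (Nat.succ g) c)) (tk s fun a b =>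
      iz (Nat.add (Nat.mod a 16) (Nat.sub 1 a)) (w0 n c los his (Nat.shiftRight a 4))
      (Nat.add (w n c los his a) (iz b
        (il c (Nat.div (Nat.sub M (sm los)) (Nat.mul 2 G))
          (ent G N c0 Y0 tq c los his (kid (aub N c0 g) c)) 0)
        (fz (Nat.succ n) fun n' => xp G M z c los his b fun d l h u => ih n' d l h u))))) f

/-- zero if all the jobs respect their bounds -/
def runp (G N M z c0 Y0 : ℕ) (tq : Tr) (w w0 : ℕ → ℕ → List ℕ → List ℕ → ℕ → ℕ) (J : Jt) : ℕ :=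
  Jt.rec (fun o c l h r s => il BAD r 1 (il (fz (ln l) fun n => iz o (w n c l h s)
      (op5 G N M z c0 Y0 tq w w0 40 n c l h s)) r 0 1))
    (fun _ _ a b => Nat.add a b) J

/-- zero if all the jobs respect their bounds -/
def run9 (G N M T U z c0 Y0 : ℕ) (tb tq tc : Tr) (J : Jt) : ℕ :=
  runp G N M z c0 Y0 tq (cq8 G N M T U c0 Y0 tb tq tc) (cq8 G N M T U c0 0 Tr.e Tr.e Tr.e) J

end

end Pool.Agent.Work.MP_82fd4a_nt.P.G
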