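import Pool.Agent.Work.MP_82fd4a_nt.P.SDefs
import Pool.Agent.Work.MP_82fd4a_nt.NSumU

/-! Rough numbers that are not squarefree are rare.

Plan. As `sum_sqful2`: such an `n ≤ 2 x` is divisible by `p ^ 2` with `x ^ η < p ≤ √(2 x)`, and
`∑ p, (Gam / p ^ 2 + 2) ≤ 2 Gam / x ^ η + 2 √(2 x)`, `Gam ≥ x ^ (515 / 1000) / 8` by `Gam_ge`. -/

set_option autoImplicit false
open Finset Filter

namespace Pool.Agent.Work.MP_82fd4a_nt.P

theorem sum_ns {η : ℝ} (hη : 0 < η) (hη1 : η ≤ 1 / 100) : ∀ᶠ x : ℕ in atTop, ∀ T : ℝ, 1 ≤ T →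
    T ≤ (x : ℝ) ^ (485 / 1000 : ℝ) → SF x T (NsF ((x : ℝ) ^ η)) ≤ (x : ℝ) ^ (-(η / 2)) := by
  filter_upwards [su_ev 34 (half_pos hη), eventually_ge_atTop 1] with x hu hx T hT hTx
  have hx1 : (1 : ℝ) ≤ x := by exact_mod_cast hx
  have hx0 : (0 : ℝ) < x := by linarith
  have hy1 : 1 ≤ (x : ℝ) ^ η := Real.one_le_rpow hx1 hη.le
  have hG : √(x : ℝ) * (x : ℝ) ^ η ≤ 8 * Gam x T := by
    have h1 := Gam_ge hT (hTx.trans (Real.rpow_le_self_of_one_le hx1 (by norm_num)))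
    have h2 : √(x : ℝ) * (x : ℝ) ^ η * T ≤ x := by
      refine (mul_le_mul_of_nonneg_left hTx (by positivity)).trans ?_
      rw [Real.sqrt_eq_rpow, ← Real.rpow_add hx0, ← Real.rpow_add hx0]
      exact Real.rpow_le_self_of_one_le hx1 (by linarith)
    rw [div_le_iff₀ (by positivity)] at h1
    exact le_of_mul_le_mul_right (a := T) (by linarith) (by linarith)
  have hG0 : 0 < Gam x T := by
    have : 0 < √(x : ℝ) * (x : ℝ) ^ η := by positivity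
    linarith
  obtain ⟨P, hP⟩ : ∃ P, P = Ioc ⌊(x : ℝ) ^ η⌋₊ ⌊2 * √(x : ℝ)⌋₊ := ⟨_, rfl⟩
  have s1 : ∑ n ∈ Icc 1 (2 * x), NsF ((x : ℝ) ^ η) n * gk x T n ≤
      ∑ p ∈ P, ∑ n ∈ Icc 1 (2 * x), (if p ^ 2 ∣ n then 1 else 0) * gk x T n := by
    rw [sum_comm]
    refine sum_le_sum fun n hn => ?_
    rw [← sum_mul]
    refine mul_le_mul_of_nonneg_right ?_ (gk_nonneg _ _ _)
    have h0 : ∀ p ∈ P, (0 : ℝ) ≤ if p ^ 2 ∣ n then 1 else 0 := fun p _ => by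
      split_ifs <;> norm_num
    rw [NsF, rf]
    split_ifs with h1 h2
    · exact sum_nonneg h0
    · rw [Nat.squarefree_iff_prime_squarefree] at h1
      push Not at h1
      obtain ⟨p, p1, p2⟩ := h1
      have p3 : (p : ℝ) * p ≤ 2 * x := by
        exact_mod_cast (Nat.le_of_dvd (mem_Icc.1 hn).1 p2).trans (mem_Icc.1 hn).2
      have := single_le_sum h0 (a := p) (hP ▸ mem_Ioc.2
        ⟨(Nat.floor_lt (by positivity)).2 (h2 p p1 ((dvd_mul_right p p).trans p2)),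
          Nat.le_floor (abs_le_of_sq_le_sq' (by nlinarith [Real.mul_self_sqrt hx0.le])
            (by positivity)).2⟩)
      rwa [if_pos (pow_two p ▸ p2)] at this
    · exact sum_nonneg h0
  have f1 : 1 ≤ ⌊(x : ℝ) ^ η⌋₊ := Nat.le_floor (by simpa using hy1)
  have f1' : (1 : ℝ) ≤ ⌊(x : ℝ) ^ η⌋₊ := by exact_mod_cast f1
  have f2 : (x : ℝ) ^ η < ⌊(x : ℝ) ^ η⌋₊ + 1 := Nat.lt_floor_add_one _
  have s2 : ∑ p ∈ P, ∑ n ∈ Icc 1 (2 * x), (if p ^ 2 ∣ n then 1 else 0) * gk x T n ≤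
      ∑ p ∈ P, (Gam x T * ((p : ℝ) ^ 2)⁻¹ + 2) := by
    refine sum_le_sum fun p hp => ?_
    have hp0 : 0 < p ^ 2 := pow_pos (by rw [hP, mem_Ioc] at hp; omega) 2
    have := (abs_le.1 (sum_gk_mul x (by linarith : 0 ≤ T) hp0)).2
    rw [ker_dvd x T hp0, div_eq_mul_inv] at this
    push_cast at this
    linarith
  have s3 : ∑ p ∈ P, ((p : ℝ) ^ 2)⁻¹ ≤ 2 / (x : ℝ) ^ η := by
    have t1 : ((⌊(x : ℝ) ^ η⌋₊ : ℕ) : ℝ)⁻¹ ≤ 2 / (x : ℝ) ^ η := by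
      rw [inv_eq_one_div, div_le_div_iff₀ (by linarith) (by linarith)]
      linarith
    rw [hP]
    rcases le_total ⌊(x : ℝ) ^ η⌋₊ ⌊2 * √(x : ℝ)⌋₊ with h | h
    · exact (sum_Ioc_inv_sq_le_sub (by omega) h).trans ((sub_le_self _ (by positivity)).trans t1)
    · rw [Ioc_eq_empty (not_lt.2 h), sum_empty]
      positivity
  have s4 : (#P : ℝ) ≤ 16 * Gam x T / (x : ℝ) ^ η := by
    have t1 : (#P : ℝ) ≤ 2 * √(x : ℝ) := by
      refine le_trans ?_ (Nat.floor_le (by positivity))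
      rw [hP, Nat.card_Ioc]
      exact_mod_cast Nat.sub_le _ _
    rw [le_div_iff₀ (by linarith)]
    nlinarith
  rw [sum_add_distrib, ← mul_sum, sum_const, nsmul_eq_mul] at s2
  have s5 : Gam x T * ∑ p ∈ P, ((p : ℝ) ^ 2)⁻¹ + #P * 2 ≤ 34 * Gam x T / (x : ℝ) ^ η := by
    have := mul_le_mul_of_nonneg_left s3 hG0.le
    simp only [div_eq_mul_inv] at this s4 ⊢
    linarith
  have e1 : (x : ℝ) ^ (η / 2) = (x : ℝ) ^ (-(η / 2)) * (x : ℝ) ^ η := by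
    rw [← Real.rpow_add hx0]
    congr 1
    ring
  rw [SF, div_le_iff₀ hG0]
  refine s1.trans (s2.trans (s5.trans ?_))
  rw [div_le_iff₀ (by linarith), mul_right_comm, ← e1]
  exact mul_le_mul_of_nonneg_right hu hG0.le

end Pool.Agent.Work.MP_82fd4a_nt.P
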