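import Pool.Agent.Work.MP_82fd4a_nt.P.SDefs

/-! A type in which a small part crosses the middle is of type II.

Plan. Write `U = N * (G * B)`, `T = P.T * B`, `A = u.sum`, `R = (σ - u).sum`, so `A + R + e ∈ [U - δ, U]`,
`U / 2 - δ - e < A ≤ U / 2 - δ`. Take the list `e :: (u.toList ++ (σ - u).toList)` and three monomials:
the block `u` (weight `1`), the block `σ - u` (weight `1`), and `e ^ k` (weight `1 / k`).
For `L ≤ T`, `1 - phi T L = 2 d / (T + d)` with `d = T - L`. The inequality between the deficits of the two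
blocks and the gain of the third monomial is the property `Clo`, proved here for several ranges of the
parameters by means of a linear majorant of the deficit. -/

set_option autoImplicit false
open Finset

namespace Pool.Agent.Work.MP_82fd4a_nt.P

theorem SClose_cons (m : ℕ → ℕ) (a : ℕ) (t : List ℕ) :
    dot m (a :: t) = m 0 * a + dot (fun j => m (j + 1)) t := by
  simp [dot, sum_range_succ', add_comm]

theorem SClose_app (s t : List ℕ) : ∀ m : ℕ → ℕ,
    dot m (s ++ t) = dot m s + dot (fun j => m (j + s.length)) t := by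
  induction s with
  | nil => intro m; simp [dot]
  | cons a s ih =>
    intro m
    rw [List.cons_append, SClose_cons, SClose_cons, ih, add_assoc]
    rfl

theorem SClose_const (c : ℕ) (t : List ℕ) : ∀ m : ℕ → ℕ, (∀ j < t.length, m j = c) →
    dot m t = c * t.sum := by
  induction t with
  | nil => intro m _; simp [dot]
  | cons a t ih =>
    intro m h
    rw [SClose_cons, ih _ fun j hj => h _ (by simpa using hj), h 0 (by simp), List.sum_cons,
      mul_add]

theorem SClose_dot (e x y z : ℕ) (s t : List ℕ) :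
    dot (fun j => if j = 0 then x else if j ≤ s.length then y else z) (e :: (s ++ t)) =
      x * e + y * s.sum + z * t.sum := by
  rw [SClose_cons, SClose_app, SClose_const y s _ fun j hj => by simp [Nat.succ_le_of_lt hj],
    SClose_const z t _ fun j _ => by simp, add_assoc]
  simp

theorem SClose_hom {U : ℝ} (hU : 0 < U) (T L : ℝ) : phi T L = phi (T / U) (L / U) := by
  unfold phi
  rw [← mul_div_assoc, ← sub_div, div_div_div_cancel_right₀ hU.ne']
  simp only [div_le_div_iff_of_pos_right hU]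

theorem SClose_one {t t0 e a L : ℝ} (t2 : t ≤ t0) (e2 : e ≤ 1 / 20) (L1 : L ≤ 1)
    (h : (1 - L) * (2 * t0 - (499995 / 1000000 - e)) ≤ 499995 / 1000000 - e)
    (ha : 499995 / 1000000 - e ≤ a) : 1 - max 0 L ≤ phi t a := by
  unfold phi
  split_ifs with h1
  · linarith [le_max_left 0 L]
  · push Not at h1
    refine (sub_le_sub_left (le_max_right _ _) 1).trans ?_
    rw [le_div_iff₀ (by linarith)]
    nlinarith [mul_nonneg (sub_nonneg.2 t2) (sub_nonneg.2 L1),
      mul_nonneg (sub_nonneg.2 ha) (sub_nonneg.2 L1)]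

theorem SClose_lin {t a : ℝ} (t1 : 48 / 100 ≤ t) (h : a < t) : 1 - 5 * (t - a) ≤ phi t a := by
  rw [phi, if_neg h.not_ge, le_div_iff₀ (by linarith)]
  nlinarith [mul_nonneg (sub_nonneg.2 t1) (sub_nonneg.2 h.le), sq_nonneg (t - a)]

theorem SClose_two {t t0 e a r L : ℝ} (t1 : 48 / 100 ≤ t) (t2 : t ≤ t0) (e2 : e ≤ 1 / 20)
    (L1 : L ≤ 1) (h : (1 - L) * (2 * t0 - (499995 / 1000000 - e)) ≤ 499995 / 1000000 - e)
    (h' : 5 * (2 * t0 - 999995 / 1000000 + e) ≤ L) (ha : 499995 / 1000000 - e ≤ a)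
    (hr : 499995 / 1000000 - e ≤ r) (hs : 999995 / 1000000 - e ≤ a + r) :
    2 - max 0 L ≤ phi t a + phi t r := by
  have h1 := SClose_one t2 e2 L1 h ha
  have h2 := SClose_one t2 e2 L1 h hr
  rcases le_or_gt t a with h3 | h3
  · rw [phi, if_pos h3]
    linarith
  rcases le_or_gt t r with h4 | h4
  · rw [phi.eq_1 t r, if_pos h4]
    linarith
  linarith [SClose_lin t1 h3, SClose_lin t1 h4, le_max_right 0 L]

theorem SClose_ceil {t e : ℝ} (t1 : 48 / 100 ≤ t) (t2 : t ≤ 4844 / 10000) (c1 : 0 < e)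
    (h : e ≤ 1 / 50) : ∃ k : ℕ, 0 < k ∧ t ≤ 2 * (k * e) ∧ k * e ≤ 1 ∧
      197 / 100 * e ≤ 1 / k * phi t (k * e) := by
  have a1 : t ≤ ⌈t / e⌉₊ * e := (div_le_iff₀ c1).1 (Nat.le_ceil _)
  have a2 : ⌈t / e⌉₊ * e < t + e := by
    have := mul_lt_mul_of_pos_right (Nat.ceil_lt_add_one (show 0 ≤ t / e by positivity)) c1
    rwa [add_mul, div_mul_cancel₀ _ c1.ne', one_mul] at this
  have a3 : 0 < ⌈t / e⌉₊ := Nat.ceil_pos.2 (by positivity)
  refine ⟨_, a3, by linarith, by linarith, ?_⟩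
  rw [phi, if_pos a1, mul_one, le_div_iff₀ (by exact_mod_cast a3)]
  linarith

theorem SClose_gain {t t0 e L k : ℝ} (k0 : 0 < k) (t1 : 0 < t) (t2 : t ≤ t0) (L0 : 0 ≤ L)
    (h1 : L * k ≤ 1) (h2 : L * (2 * t0 - k * e) ≤ e) : L ≤ 1 / k * phi t (k * e) := by
  rw [phi]
  split_ifs with h
  · rwa [mul_one, le_div_iff₀ k0]
  · push Not at h
    rw [← mul_div_assoc, one_div, inv_mul_cancel_left₀ k0.ne', le_div_iff₀ (by linarith)]
    nlinarith [mul_nonneg L0 (sub_nonneg.2 t2)]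

/-- the closing property from a linear majorant `α * e - β` of the deficit -/
theorem clo_mk {t t0 c α β : ℝ} (t1 : 48 / 100 ≤ t) (t2 : t ≤ t0) (t3 : t0 ≤ 4844 / 10000)
    (c2 : c ≤ 1 / 20) (α1 : 3 ≤ α) (α2 : α ≤ 39 / 10) (β1 : 586 / 10000 ≤ β) (β2 : β ≤ 1 / 10)
    (h : ∀ e, e ≤ c → (1 - (α * e - β)) * (2 * t0 - (499995 / 1000000 - e)) ≤ 499995 / 1000000 - e)
    (h' : β + (5 - α) * c ≤ 5 * (999995 / 1000000 - 2 * t0))
    (g : ∀ e, 1 / 50 ≤ e → e ≤ c → ∃ k : ℕ, 13 ≤ k + 1 ∧ k ≤ 20 ∧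
      (α * e - β + 1 / 10000) * k ≤ 1 ∧ 1 / 10000 * (2 * t0 - k * e) ≤ e ∧
      (α * e - β + 1 / 10000) * (2 * t0 - k * e) ≤ e ∧ t0 ≤ 2 * (k * e)) : Clo t c := by
  intro e γ e0 e1 g1 g2
  have a0 : α * e ≤ 39 / 10 * e := mul_le_mul_of_nonneg_right α2 e0.le
  have a1 : ∀ a r : ℝ, 499995 / 1000000 - e ≤ a → 499995 / 1000000 - e ≤ r →
      999995 / 1000000 - e ≤ a + r → 2 - max 0 (α * e - β) ≤ phi t a + phi t r :=
    fun a r => SClose_two t1 t2 (by linarith) (by linarith) (h e e1)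
      (by nlinarith [mul_le_mul_of_nonneg_left e1 (show 0 ≤ 5 - α by linarith)])
  rcases le_total e (1 / 50) with h1 | h1
  · obtain ⟨k, k0, k1, k2, k3⟩ := SClose_ceil t1 (t2.trans t3) e0 h1
    have a2 : max 0 (α * e - β) ≤ 97 / 100 * e := max_le (by linarith) (by linarith)
    exact ⟨k, k0, k1, k2, fun a r b1 b2 b3 => by linarith [a1 a r b1 b2 b3]⟩
  · obtain ⟨k, k0, k1, k2, k3, k4, k5⟩ := g e h1 e1
    have k6 : (0 : ℝ) < k := by exact_mod_cast (by omega)
    have k7 : (k : ℝ) ≤ 20 := by exact_mod_cast k1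
    have a2 : max 0 (α * e - β) + 1 / 10000 ≤ 1 / k * phi t (k * e) := by
      rcases le_total 0 (α * e - β) with h2 | h2
      · rw [max_eq_right h2]
        exact SClose_gain k6 (by linarith) t2 (by linarith) k2 k4
      · rw [max_eq_left h2, zero_add]
        exact SClose_gain k6 (by linarith) t2 (by norm_num) (by linarith) k3
    exact ⟨k, by omega, by linarith, by nlinarith, fun a r b1 b2 b3 => by linarith [a1 a r b1 b2 b3]⟩

theorem clo_A {t c : ℝ} (t1 : 48 / 100 ≤ t) (t2 : t ≤ 4802 / 10000) (c2 : c ≤ 4056 / 100000) :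
    Clo t c :=
  clo_mk (α := 384 / 100) (β := 728 / 10000) t1 t2 (by norm_num) (by linarith) (by norm_num)
    (by norm_num) (by norm_num) (by norm_num)
    (fun e _ => by nlinarith [sq_nonneg (e - 397 / 10000)]) (by linarith) fun e h1 h2 => by
      rcases le_total e (3 / 100) with h3 | h3
      · exact ⟨14, by norm_num, by norm_num, by push_cast; linarith, by push_cast; linarith,
          by push_cast; nlinarith [sq_nonneg (e - 33 / 1000)], by push_cast; linarith⟩
      · exact ⟨12, by norm_num, by norm_num, by push_cast; linarith, by push_cast; linarith,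
          by push_cast; nlinarith [sq_nonneg (e - 386 / 10000)], by push_cast; linarith⟩

theorem SClose_quad {a b c : ℝ} (ha : 0 < a) (h : b ^ 2 ≤ 4 * a * c) (e : ℝ) :
    0 ≤ a * e ^ 2 + b * e + c :=
  le_of_mul_le_mul_left (a := 4 * a) (by nlinarith [sq_nonneg (2 * a * e + b)]) (by linarith)

/-- the closing property from numerical inequalities -/
theorem clo_num {t t0 c c0 : ℝ} (α β : ℝ) (k : ℕ) (t1 : 48 / 100 ≤ t) (t2 : t ≤ t0) (c2 : c ≤ c0)
    (h : t0 ≤ 4844 / 10000 ∧ c0 ≤ 1 / 20 ∧ 3 ≤ α ∧ α ≤ 39 / 10 ∧ 586 / 10000 ≤ β ∧ β ≤ 1 / 10 ∧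
      13 ≤ k ∧ k ≤ 20 ∧ β + (5 - α) * c0 ≤ 5 * (999995 / 1000000 - 2 * t0) ∧
      (α * c0 - β + 1 / 10000) * k ≤ 1 ∧
      (α * (2 * t0 - 499995 / 1000000) - 2 - β) ^ 2 ≤
        4 * α * (499995 / 1000000 - (1 + β) * (2 * t0 - 499995 / 1000000)) ∧
      (1 - 2 * α * t0 + (1 / 10000 - β) * k) ^ 2 ≤ 4 * (α * k) * ((β - 1 / 10000) * (2 * t0))) :
    Clo t c := by
  obtain ⟨h1, h2, h3, h4, h5, h6, h7, h8, h9, h10, h11, h12⟩ := h
  have k1 : (13 : ℝ) ≤ k := by exact_mod_cast h7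
  refine clo_mk t1 t2 h1 (c2.trans h2) h3 h4 h5 h6
    (fun e _ => by linarith [SClose_quad (by linarith) h11 e]) (by nlinarith) fun e e1 e2 =>
      ⟨k, by omega, h8, le_trans ?_ h10, by nlinarith, ?_, by nlinarith⟩
  · exact mul_le_mul_of_nonneg_right (by nlinarith) (by linarith)
  · linarith [SClose_quad (by positivity) h12 e]

theorem clo_B {t c : ℝ} (t1 : 48 / 100 ≤ t) (t2 : t ≤ 4821 / 10000) (c2 : c ≤ 371 / 10000) :
    Clo t c := clo_num (38583 / 10000) (665077 / 10000000) 13 t1 t2 c2 (by norm_num)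

theorem clo_C {t c : ℝ} (t1 : 48 / 100 ≤ t) (t2 : t ≤ 48297 / 100000) (c2 : c ≤ 34884 / 1000000) :
    Clo t c := clo_num (38677 / 10000) (31797 / 500000) 14 t1 t2 c2 (by norm_num)

theorem clo_D {t c : ℝ} (t1 : 48 / 100 ≤ t) (t2 : t ≤ 4833 / 10000) (c2 : c ≤ 345 / 10000) :
    Clo t c := clo_num (38679 / 10000) (155921 / 2500000) 14 t1 t2 c2 (by norm_num)

theorem clo_E {t c : ℝ} (t1 : 48 / 100 ≤ t) (t2 : t ≤ 48434 / 100000) (c2 : c ≤ 3192 / 100000) :
    Clo t c := clo_num (31 / 8) (36691 / 625000) 15 t1 t2 c2 (by norm_num)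

theorem Par.OK.fit {P : Par} (h : P.OK) : P.Fit := by
  have h1 : (0 : ℝ) < P.N * P.G := by
    have := h.G0; have := h.N0
    have : 0 < P.N * P.G := by positivity
    exact_mod_cast this
  have h2 : (480 : ℝ) * (P.N * P.G) ≤ 1000 * P.T := by exact_mod_cast h.T1
  have h3 : (10000 : ℝ) * P.T ≤ 4802 * (P.N * P.G) := by exact_mod_cast h.T2
  have h4 : (100000 : ℝ) * P.z ≤ 4056 * (P.N * P.G) := by exact_mod_cast h.z2
  exact ⟨h.G0, h.N0, h.even, h.T1, by have := h.T2; omega, by have := h.z1; have := Nat.mul_pos (show 0 < P.N by have := h.N0; omega) h.G0; omega,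
    by have := h.z2; omega, h.Q1,
    clo_A (by rw [Par.ex, le_div_iff₀ h1]; linarith) (by rw [Par.ex, div_le_iff₀ h1]; linarith)
      (by rw [div_le_iff₀ h1]; linarith)⟩

theorem close {P : Par} (hP : P.Fit) {B δ e : ℕ} {γ : ℝ} {σ u : Multiset ℕ} (hu : u ≤ σ)
    (h1 : 2 * (u.sum + δ) ≤ P.N * (P.G * B)) 
    (h2 : P.N * (P.G * B) < 2 * (e + u.sum + δ) ∨ P.T * B ≤ u.sum)
    (he : e < P.z * B) (hγ0 : 0 < γ) (hγ : γ ≤ 1 / 10000)
    (he0 : γ * (P.N * (P.G * B) : ℕ) ≤ e)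
    (hδ : 200000 * δ ≤ P.N * (P.G * B)) (hF : Full P B δ (e ::ₘ σ)) :
    GoodM (P.T * B : ℕ) (P.N * (P.G * B) : ℕ) γ (e ::ₘ σ) := by
  obtain ⟨f1, f2⟩ := hF
  have B0 : (B : ℝ) ≠ 0 := by
    rintro h
    rw [Nat.cast_eq_zero.1 h] at he
    simp at he
  have cl : Clo (((P.T * B : ℕ) : ℝ) / (P.N * (P.G * B) : ℕ))
      (((P.z * B : ℕ) : ℝ) / (P.N * (P.G * B) : ℕ)) := by
    push_cast
    rw [← mul_assoc, mul_div_mul_right _ _ B0, mul_div_mul_right _ _ B0]
    exact hP.cl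
  have t1 := Nat.mul_le_mul_right B hP.T1
  have t2 := Nat.mul_le_mul_right B hP.T2
  have z2 := Nat.mul_le_mul_right B hP.z2
  simp only [mul_assoc] at t1 t2 z2
  have hs : u + (σ - u) = σ := add_tsub_cancel_of_le hu
  rw [Multiset.sum_cons, ← hs, Multiset.sum_add] at f1 f2
  generalize P.N * (P.G * B) = U at *
  generalize P.T * B = T at *
  generalize P.z * B = Z at *
  rw [← Multiset.sum_toList u] at h1 h2
  rw [← Multiset.sum_toList u, ← Multiset.sum_toList (σ - u)] at f1 f2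
  refine ⟨e :: (u.toList ++ (σ - u).toList), by
    rw [← Multiset.cons_coe, ← Multiset.coe_add, Multiset.coe_toList, Multiset.coe_toList, hs], ?_⟩
  generalize u.toList = s at *
  generalize (σ - u).toList = t at *
  have U0 : (0 : ℝ) < U := by exact_mod_cast (show 0 < U by omega)
  have r4 : ∀ a b : ℕ, b * U ≤ 1000000 * (a + e) → (b : ℝ) / 1000000 - e / U ≤ a / U := by
    intro a b h
    rw [sub_le_iff_le_add, ← add_div, le_div_iff₀ U0]
    have : ((b * U : ℕ) : ℝ) ≤ (1000000 * (a + e) : ℕ) := Nat.cast_le.2 h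
    push_cast at this
    linarith
  have r5 := r4 (s.sum + t.sum) 999995 (by omega)
  rw [Nat.cast_add, add_div] at r5
  obtain ⟨k, k0, k1, k2, k3⟩ := cl (e / U) γ (div_pos ((mul_pos hγ0 U0).trans_le he0) U0)
    (div_le_div_of_nonneg_right (by exact_mod_cast he.le) U0.le) hγ ((le_div_iff₀ U0).2 he0)
  replace k3 : 2 + γ ≤ phi (T / U) (s.sum / U) + phi (T / U) (t.sum / U) +
      1 / k * phi (T / U) (k * (e / U)) := by
    have r6 := r4 t.sum 499995 (by omega)
    rcases h2 with h2 | h2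
    · exact k3 _ _ (r4 s.sum 499995 (by omega)) r6 r5
    · have r7 : (0 : ℝ) ≤ e / U := by positivity
      have r8 := k3 (1 / 2) _ (by linarith) r6 (by push_cast at r6 ⊢; linarith)
      have r9 : (T : ℝ) / U ≤ 1 / 2 := by
        rw [div_le_div_iff₀ U0 two_pos]
        exact_mod_cast (by omega)
      rw [phi.eq_1 _ (1 / 2), if_pos r9] at r8
      rwa [phi.eq_1 _ (s.sum / U), if_pos (div_le_div_of_nonneg_right (by exact_mod_cast h2) U0.le)]
  rw [← mul_div_assoc (k : ℝ)] at k1 k2 k3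
  rw [← mul_div_assoc, div_le_div_iff_of_pos_right U0] at k1
  rw [div_le_one U0] at k2
  rw [← SClose_hom U0, ← SClose_hom U0, ← SClose_hom U0] at k3
  have k4 : (0 : ℝ) < k := by exact_mod_cast k0
  have b1 : ∀ a : ℕ, T ≤ 2 * a → (T : ℝ) ≤ 2 * a := fun a h => by exact_mod_cast h
  have b2 : ∀ a : ℕ, a ≤ U → (a : ℝ) ≤ U := fun a h => by exact_mod_cast h
  refine ⟨3, fun i => if i = 2 then 1 / k else 1, fun i j =>
    if j = 0 then (if i = 2 then k else 0) else if j ≤ s.length then (if i = 0 then 1 else 0)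
      else (if i = 1 then 1 else 0), by norm_num, fun i _ => by split_ifs <;> positivity,
    fun i hi => ?_, fun i hi => ?_, fun j _ => ?_, ?_⟩
  · rw [SClose_dot]
    interval_cases i
    · exact b1 _ (by simp; omega)
    · exact b1 _ (by simp; omega)
    · simpa using k1
  · rw [SClose_dot]
    interval_cases i
    · exact b2 _ (by simp; omega)
    · exact b2 _ (by simp; omega)
    · simpa using k2
  · simp only [sum_range_succ, sum_range_zero]
    norm_num
    split_ifs <;> simp [k4.ne']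
  · simp only [sum_range_succ, sum_range_zero, SClose_dot]
    norm_num [-Nat.cast_list_sum]
    rw [one_div] at k3
    linarith

end Pool.Agent.Work.MP_82fd4a_nt.P
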