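import Pool.Agent.Work.MP_82fd4a_nt.NDefs
import Pool.Agent.Work.MP_82fd4a_nt.P.Cert2

/-! Primes in short intervals: the definitions of the sieve. -/

set_option autoImplicit false
open Finset

namespace Pool.Agent.Work.MP_82fd4a_nt.P

/-- normalised weighted sum -/
noncomputable def SF (x : ℕ) (T : ℝ) (f : ℕ → ℝ) : ℝ :=
  (∑ n ∈ Icc 1 (2 * x), f n * gk x T n) / Gam x T

/-- the exponent of the length of the range of integration -/
noncomputable def Par.ex (P : Par) : ℝ := P.T / (P.N * P.G)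

/-- a part of size at most `c` that crosses the middle makes the type good -/
def Clo (t c : ℝ) : Prop := ∀ e γ : ℝ, 0 < e → e ≤ c → γ ≤ 1 / 10000 → γ ≤ e →
  ∃ k : ℕ, 0 < k ∧ t ≤ 2 * (k * e) ∧ k * e ≤ 1 ∧ ∀ a r : ℝ, 499995 / 1000000 - e ≤ a →
    499995 / 1000000 - e ≤ r → 999995 / 1000000 - e ≤ a + r →
      2 + γ ≤ phi t a + phi t r + 1 / k * phi t (k * e)

/-- what the sieve needs to know about the parameters -/
structure Par.Fit (P : Par) : Prop where
  G0 : 0 < P.G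
  N0 : 50 ≤ P.N
  even : 2 ∣ P.N
  T1 : 480 * (P.N * P.G) ≤ 1000 * P.T
  T2 : 10000 * P.T ≤ 4844 * (P.N * P.G)
  z1 : P.N * P.G < 32 * P.z
  z2 : 100000 * P.z ≤ 4200 * (P.N * P.G)
  Q1 : 10000 * (2 * (P.Q * P.G) + P.T) ≤ 9999 * (P.N * P.G)
  cl : Clo P.ex (P.z / (P.N * P.G))

/-- the fine unit -/
noncomputable def Par.un (P : Par) (B x : ℕ) : ℝ := Real.log (2 * x) / (P.N * (P.G * B) : ℕ)

/-- the large parts, sorted -/
noncomputable def bigL (P : Par) (B : ℕ) (t : Multiset ℕ) : List ℕ :=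
  (t.filter (P.z * B ≤ ·)).sort (· ≤ ·)

/-- admissible for the type I estimate, on the fine scale -/
def AdmF (P : Par) (B : ℕ) (l : List ℕ) : Prop := ∃ p ∈ splits l,
  2 * p.2.sum ≤ P.N * (P.G * B) ∧ (p.1.sum ≤ P.Q * (P.G * B) ∨
    P.T * B ≤ p.2.sum ∧ 2 * l.sum ≤ P.N * (P.G * B) + 2 * (P.Q * (P.G * B)))

open Classical in
/-- the short part of an admissible set -/
noncomputable def sel1 (P : Par) (B : ℕ) (t : Multiset ℕ) : Multiset ℕ :=
  if h : AdmF P B (bigL P B t) then (h.choose.1 : List ℕ) else 0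

open Classical in
/-- the weights on the types -/
noncomputable def lam1 (P : Par) (lam : List ℕ → ℕ → ℝ) (B δ : ℕ) (t : Multiset ℕ) : ℝ :=
  if AdmF P B (bigL P B t) ∧ 2 * ((t - sel1 P B t).sum + δ) ≤ P.N * (P.G * B) ∧
      ((sel1 P B t).sum ≤ P.Q * (P.G * B) ∨ t.filter (· < P.z * B) = 0) then
    lam ((bigL P B t).map (· / (P.G * B))) ((P.N * (P.G * B) - (bigL P B t).sum) / (P.G * B)) *
      (-1) ^ (t.filter (· < P.z * B)).card
  else 0

/-- the weights on the pairs of types -/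
noncomputable def lam2 (P : Par) (lam : List ℕ → ℕ → ℝ) (B δ : ℕ) (t t' : Multiset ℕ) : ℝ :=
  if t = sel1 P B (t + t') then lam1 P lam B δ (t + t') / ((t + t').powerset.count t : ℝ) else 0

/-- the value of the sieve on squarefree numbers of a given type -/
noncomputable def PhiN (P : Par) (lam : List ℕ → ℕ → ℝ) (B δ : ℕ) (τ : Multiset ℕ) : ℝ :=
  (τ.powerset.map (lam1 P lam B δ)).sum

/-- the types that are treated by the multilinear estimate -/
def GoodT (P : Par) (B : ℕ) (γ : ℝ) (τ : Multiset ℕ) : Prop :=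
  2 ≤ τ.card ∧ GoodM (P.T * B : ℕ) (P.N * (P.G * B) : ℕ) γ τ

/-- the total is right -/
def Full (P : Par) (B δ : ℕ) (τ : Multiset ℕ) : Prop :=
  P.N * (P.G * B) ≤ τ.sum + δ ∧ τ.sum ≤ P.N * (P.G * B)

/-- all the parts are large -/
def Big (P : Par) (B : ℕ) (τ : Multiset ℕ) : Prop := ∀ a ∈ τ, P.z * B ≤ a

/-- no proper subsum is near a wall -/
def Free (P : Par) (B δ : ℕ) (τ : Multiset ℕ) : Prop := ∀ s ≤ τ, s ≠ 0 → s ≠ τ →
  0 < s.sum % (P.G * B) ∧ s.sum % (P.G * B) + δ < P.G * B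

/-- the types on which there is a loss -/
def BadT (P : Par) (B δ : ℕ) (τ : Multiset ℕ) : Prop :=
  2 ≤ τ.card ∧ Big P B τ ∧ Full P B δ τ ∧ Free P B δ τ ∧
    ¬ GoodM (P.T * B : ℕ) (P.N * (P.G * B) : ℕ) (1 / 8192) τ

open Classical in
/-- indicator of the squarefree rough numbers of a given type -/
noncomputable def TyF (w b : ℝ) (τ : Multiset ℕ) (n : ℕ) : ℝ :=
  if Squarefree n ∧ Rough w n ∧ ty b n = τ then 1 else 0

open Classical in
/-- the multilinear part -/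
noncomputable def GF (P : Par) (lam : List ℕ → ℕ → ℝ) (B δ : ℕ) (γ w b : ℝ) (n : ℕ) : ℝ :=
  if Squarefree n ∧ Rough w n ∧ GoodT P B γ (ty b n) then PhiN P lam B δ (ty b n) else 0

open Classical in
/-- the loss -/
noncomputable def LossF (P : Par) (lam : List ℕ → ℕ → ℝ) (B δ : ℕ) (b : ℝ) (n : ℕ) : ℝ :=
  if Squarefree n ∧ BadT P B δ (ty b n) then max 0 (-WM lam (P.G * B) (ty b n)) else 0

open Classical in
/-- indicator of the numbers with a divisor near a wall -/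
noncomputable def WallF (P : Par) (B δ : ℕ) (b : ℝ) (n : ℕ) : ℝ :=
  if Squarefree n ∧ Big P B (ty b n) ∧ Full P B δ (ty b n) ∧ ¬ Free P B δ (ty b n) then 1 else 0

/-- indicator of the rough numbers that are not squarefree -/
noncomputable def NsF (w : ℝ) (n : ℕ) : ℝ := if Squarefree n then 0 else rf w n

/-- indicator of the primes -/
noncomputable def PrF (n : ℕ) : ℝ := if n.Prime then 1 else 0

/-- the primes with a given rounded logarithm -/
noncomputable def PrA (x : ℕ) (w b : ℝ) (a : ℕ) : Finset ℕ :=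
  (Icc 1 (2 * x)).filter fun p => p.Prime ∧ w < p ∧ fs b p = a

/-- logarithmic mass of the large primes with a given rounded logarithm -/
noncomputable def muA (P : Par) (B x : ℕ) (a : ℕ) : ℝ :=
  if P.z * B ≤ a then ∑ p ∈ PrA x 0 (P.un B x) a, (p : ℝ)⁻¹ else 0

lemma SF_add (x : ℕ) (T : ℝ) (f g : ℕ → ℝ) :
    SF x T (fun n => f n + g n) = SF x T f + SF x T g := by
  simp only [SF, add_mul, sum_add_distrib, add_div]

lemma SF_sub (x : ℕ) (T : ℝ) (f g : ℕ → ℝ) :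
    SF x T (fun n => f n - g n) = SF x T f - SF x T g := by
  simp only [SF, sub_mul, sum_sub_distrib, sub_div]

lemma SF_mul (x : ℕ) (T c : ℝ) (f : ℕ → ℝ) : SF x T (fun n => c * f n) = c * SF x T f := by
  simp only [SF, mul_assoc, ← mul_sum, mul_div_assoc]

lemma SF_sum {ι : Type*} (x : ℕ) (T : ℝ) (S : Finset ι) (f : ι → ℕ → ℝ) :
    SF x T (fun n => ∑ i ∈ S, f i n) = ∑ i ∈ S, SF x T (f i) := by
  simp only [SF, sum_mul]
  rw [sum_comm, sum_div]

lemma Gam_nonneg (x : ℕ) (T : ℝ) : 0 ≤ Gam x T := sum_nonneg fun _ _ => gk_nonneg _ _ _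

lemma SF_mono {x : ℕ} {T : ℝ} {f g : ℕ → ℝ}
    (h : ∀ n, x < 2 * n → n ≤ 2 * x → f n ≤ g n) : SF x T f ≤ SF x T g := by
  refine div_le_div_of_nonneg_right (sum_le_sum fun n _ => ?_) (Gam_nonneg x T)
  by_cases h0 : gk x T n = 0
  · rw [h0, mul_zero, mul_zero]
  · exact mul_le_mul_of_nonneg_right (h n (gk_ne_zero h0).1 (gk_ne_zero h0).2) (gk_nonneg _ _ _)

lemma SF_nonneg {x : ℕ} {T : ℝ} {f : ℕ → ℝ} (h : ∀ n, 0 ≤ f n) : 0 ≤ SF x T f :=
  div_nonneg (sum_nonneg fun n _ => mul_nonneg (h n) (gk_nonneg _ _ _)) (Gam_nonneg x T)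

lemma NsF_nonneg (w : ℝ) (n : ℕ) : 0 ≤ NsF w n := by
  unfold NsF
  split_ifs
  · exact le_rfl
  · exact rf_nonneg _ _

lemma WallF_nonneg (P : Par) (B δ : ℕ) (b : ℝ) (n : ℕ) : 0 ≤ WallF P B δ b n := by
  unfold WallF
  split_ifs <;> norm_num

lemma LossF_nonneg (P : Par) (lam : List ℕ → ℕ → ℝ) (B δ : ℕ) (b : ℝ) (n : ℕ) :
    0 ≤ LossF P lam B δ b n := by
  unfold LossF
  split_ifs
  · exact le_max_left _ _
  · exact le_rfl

lemma Par.Fit.ex_ge {P : Par} (h : P.Fit) : 48 / 100 ≤ P.ex := by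
  have h1 : (0 : ℝ) < P.N * P.G := by
    have := h.G0; have := h.N0
    have : 0 < P.N * P.G := by positivity
    exact_mod_cast this
  have h2 : (480 : ℝ) * (P.N * P.G) ≤ 1000 * P.T := by exact_mod_cast h.T1
  rw [Par.ex, le_div_iff₀ h1]
  linarith

lemma Par.Fit.ex_le {P : Par} (h : P.Fit) : P.ex ≤ 4844 / 10000 := by
  have h1 : (0 : ℝ) < P.N * P.G := by
    have := h.G0; have := h.N0
    have : 0 < P.N * P.G := by positivity
    exact_mod_cast this
  have h2 : (10000 : ℝ) * P.T ≤ 4844 * (P.N * P.G) := by exact_mod_cast h.T2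
  rw [Par.ex, div_le_iff₀ h1]
  linarith

end Pool.Agent.Work.MP_82fd4a_nt.P
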