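import Pool.Agent.Work.MP_82fd4a_nt.P.SMain

/-! Primes in short intervals, from a certificate. -/

set_option autoImplicit false
open Finset Filter

namespace Pool.Agent.Work.MP_82fd4a_nt.P

theorem sum_tail : ∀ᶠ x : ℕ in atTop, ∀ T D : ℝ, 2 ≤ T → T ≤ √(x : ℝ) →
    ∑ n ∈ (Icc 1 (2 * x)).filter fun n : ℕ => D ≤ |(n : ℝ) - x|, PrF n * gk x T n
      ≤ 16000 * Real.exp (-(T * D / (4 * x))) * Gam x T / Real.log x := by
  filter_upwards [n2b_rf (η := 1 / 100) (by norm_num) le_rfl,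
    su_ev 2 (by norm_num : (0 : ℝ) < 99 / 100), eventually_ge_atTop 2] with x hx hx3 hx2 T D hT hTx
  have hx1 : (1 : ℝ) < x := by exact_mod_cast hx2
  have hx0 : (0 : ℝ) < x := by linarith
  have hL : 0 < Real.log x := Real.log_pos hx1
  have hTx' : T ≤ x := hTx.trans (Real.sqrt_le_self_iff.2 (Or.inr hx1.le))
  have h1 := hx 1 (T / 2) one_pos (by simpa using Real.one_le_rpow hx1.le (by norm_num))
    (by linarith) (by linarith)
  have h2 : Gam x (T / 2) ≤ 80 * Gam x T := by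
    have a1 := Gam_le (x := x) (T := T / 2) (by linarith) (by linarith)
    have a2 := Gam_ge (x := x) (T := T) (by linarith) hTx'
    have a3 : 5 * (x : ℝ) / (T / 2) = 80 * (x / (8 * T)) := by field_simp; norm_num
    linarith
  simp only [one_mul, Nat.cast_one, inv_one, mul_one] at h1
  calc _ ≤ Real.exp (-(T * D / (4 * x))) *
        ∑ n ∈ Icc 1 (2 * x), rf ((x : ℝ) ^ (1 / 100 : ℝ)) n * gk x (T / 2) n := by
        rw [sum_filter, mul_sum]
        refine sum_le_sum fun n _ => ?_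
        have hR : 0 ≤ Real.exp (-(T * D / (4 * x))) *
            (rf ((x : ℝ) ^ (1 / 100 : ℝ)) n * gk x (T / 2) n) :=
          mul_nonneg (Real.exp_pos _).le (mul_nonneg (rf_nonneg _ _) (gk_nonneg _ _ _))
        split_ifs with hD
        swap
        · exact hR
        by_cases hp : n.Prime
        swap
        · rw [PrF, if_neg hp, zero_mul]; exact hR
        by_cases h0 : gk x T n = 0
        · rw [h0, mul_zero]; exact hR
        have h6 : Rough ((x : ℝ) ^ (1 / 100 : ℝ)) n := by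
          intro p hp' hpn
          obtain rfl := (Nat.prime_dvd_prime_iff_eq hp' hp).1 hpn
          have b1 : (x : ℝ) < 2 * p := by exact_mod_cast (gk_ne_zero h0).1
          have e1 : (x : ℝ) ^ (99 / 100 : ℝ) * (x : ℝ) ^ (1 / 100 : ℝ) = x := by
            rw [← Real.rpow_add hx0]; norm_num
          have e2 : 0 < (x : ℝ) ^ (1 / 100 : ℝ) := by positivity
          nlinarith
        rw [PrF, if_pos hp, rf, if_pos h6, one_mul, one_mul]
        exact gk_tail (by omega) (by linarith) hD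
    _ ≤ Real.exp (-(T * D / (4 * x))) * (2 * (80 * Gam x T) / (1 / 100 * Real.log x)) := by
        refine mul_le_mul_of_nonneg_left (h1.trans ?_) (Real.exp_pos _).le
        gcongr
    _ = _ := by field_simp; ring

theorem near_of_cert {P : Par} {lam : List ℕ → ℕ → ℝ} (hP : P.Fit) (hC : Cert2 P lam) {θ : ℝ}
    (hθ : 1 - P.ex < θ) (hθ1 : θ < 1) : ∀ᶠ x : ℕ in atTop, ∀ D : ℝ, (x : ℝ) ^ θ / 8 ≤ D →
    D ≤ (x : ℝ) ^ θ → D / 2304000 / Real.log x ≤
      #((Icc 1 (2 * x)).filter fun n : ℕ => n.Prime ∧ |(n : ℝ) - x| < D) := by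
  obtain ⟨A, h⟩ := prime_mass hP hC
  have e2 := hP.ex_le
  have hA' := (isLittleO_log_rpow_rpow_atTop (A : ℝ) (sub_pos.2 hθ1)).bound one_pos
  filter_upwards [h, sum_tail, su_ev 576 (sub_pos.2 (sub_lt_comm.1 hθ)), eventually_ge_atTop 2,
    tendsto_natCast_atTop_atTop.eventually hA'] with x hx ht h576 hx2 hlog D hD hD'
  have hx1 : (1 : ℝ) < x := by exact_mod_cast hx2
  have hx0 : (0 : ℝ) < x := by linarith
  have hL : 0 < Real.log x := Real.log_pos hx1
  have p0 : 0 < (x : ℝ) ^ θ := by positivity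
  have p1 : 1 ≤ (x : ℝ) ^ (1 - θ) := Real.one_le_rpow hx1.le (by linarith)
  have D0 : 0 < D := by linarith
  have e1 : (x : ℝ) ^ (1 - θ) * x ^ θ = x := by rw [← Real.rpow_add hx0]; simp
  rw [Real.norm_of_nonneg (by positivity), Real.norm_of_nonneg (by positivity), one_mul,
    Real.rpow_natCast] at hlog
  have t1 : 72 * (x : ℝ) ^ (1 - θ) ≤ 72 * x / D := by
    rw [le_div_iff₀ D0]
    nlinarith
  have t2 : 72 * x / D ≤ (x : ℝ) ^ P.ex := by
    have e3 : (x : ℝ) ^ P.ex = x ^ (P.ex - (1 - θ)) * x ^ (1 - θ) := by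
      rw [← Real.rpow_add hx0]; simp
    rw [div_le_iff₀ D0, e3]
    calc 72 * (x : ℝ) = 576 * x ^ (1 - θ) * (x ^ θ / 8) := by linarith
      _ ≤ _ := by gcongr
  have t3 : 72 * x / D ≤ √(x : ℝ) := by
    rw [Real.sqrt_eq_rpow]
    exact t2.trans (Real.rpow_le_rpow_of_exponent_le hx1.le (by linarith))
  have t4 : 72 * x / D ≤ x := t3.trans (Real.sqrt_le_self_iff.2 (Or.inr hx1.le))
  have r1 := hx (72 * x / D) (by linarith) t2
  have r2 := ht (72 * x / D) D (by linarith) t3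
  have r3 := Gam_ge (x := x) (T := 72 * x / D) (by linarith) t4
  have e4 : 72 * x / D * D / (4 * x) = (18 : ℕ) * (1 : ℝ) := by
    field_simp
    norm_num
  have e5 : (x : ℝ) / (8 * (72 * x / D)) = D / 576 := by
    field_simp
    norm_num
  have e6 : 16000 * Real.exp (-((18 : ℕ) * (1 : ℝ))) ≤ 1 / 4000 := by
    have a1 : (2.718 : ℝ) ^ 18 ≤ Real.exp 1 ^ 18 :=
      pow_le_pow_left₀ (by norm_num) (by linarith [Real.exp_one_gt_d9]) 18
    rw [Real.exp_neg, Real.exp_nat_mul, ← div_eq_mul_inv, div_le_iff₀ (by positivity)]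
    refine le_trans (by norm_num) (mul_le_mul_of_nonneg_left a1 (by norm_num))
  rw [e5] at r3
  rw [e4] at r2
  have hG : 0 < Gam x (72 * x / D) := by linarith
  rw [SF, le_div_iff₀ hG, ← sum_filter_add_sum_filter_not _ fun n : ℕ => D ≤ |(n : ℝ) - x|] at r1
  have r4 : ∑ n ∈ (Icc 1 (2 * x)).filter fun n : ℕ => ¬ D ≤ |(n : ℝ) - x|,
      PrF n * gk x (72 * x / D) n ≤
      #((Icc 1 (2 * x)).filter fun n : ℕ => n.Prime ∧ |(n : ℝ) - x| < D) := by
    rw [card_filter, Nat.cast_sum, sum_filter]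
    refine sum_le_sum fun n _ => ?_
    by_cases h1 : D ≤ |(n : ℝ) - x|
    · simp [h1, not_lt.2 h1]
    by_cases h2 : n.Prime
    · simpa [h1, h2, not_le.1 h1, PrF] using gk_le_one x (T := 72 * x / D) (by linarith) n
    · simp [h1, h2, PrF]
  have r5 : 16000 * Real.exp (-((18 : ℕ) * (1 : ℝ))) * Gam x (72 * x / D) / Real.log x ≤
      1 / 4000 * Gam x (72 * x / D) / Real.log x := by gcongr
  have r6 : D / 576 / Real.log x ≤ Gam x (72 * x / D) / Real.log x := by gcongr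
  simp only [div_eq_mul_inv] at r1 r2 r4 r5 r6 ⊢
  linarith

theorem count_of_fit {P : Par} {lam : List ℕ → ℕ → ℝ} (hP : P.Fit) (hC : Cert2 P lam) {θ : ℝ}
    (hθ : 1 - P.ex < θ) (hθ1 : θ < 1) : ∃ c : ℝ, 0 < c ∧ ∃ y₀ : ℝ, ∀ y : ℝ, y₀ ≤ y →
    c * y ^ θ / Real.log y ≤ #{p ∈ Ioc ⌊y⌋₊ ⌊y + y ^ θ⌋₊ | p.Prime} := by
  have e2 := hP.ex_le
  have θ0 : 0 < θ := by linarith
  obtain ⟨x₀, h⟩ := eventually_atTop.1 (near_of_cert hP hC hθ hθ1)
  obtain ⟨y₁, h4⟩ := eventually_atTop.1 ((tendsto_rpow_atTop θ0).eventually_ge_atTop 4)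
  refine ⟨1 / 10 ^ 8, by norm_num, max (max x₀ 2) y₁, fun y hy => ?_⟩
  have y1 : (x₀ : ℝ) ≤ y := (le_max_left _ _).trans ((le_max_left _ _).trans hy)
  have y2 : 2 ≤ y := (le_max_right _ _).trans ((le_max_left _ _).trans hy)
  have y3 := h4 y ((le_max_right _ _).trans hy)
  have y4 : y ^ θ ≤ y := by
    simpa using Real.rpow_le_rpow_of_exponent_le (show 1 ≤ y by linarith) hθ1.le
  have x1 := Nat.floor_le (show 0 ≤ y + y ^ θ / 2 by linarith)
  have x2 := Nat.lt_floor_add_one (y + y ^ θ / 2)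
  generalize ⌊y + y ^ θ / 2⌋₊ = x at x1 x2
  have x3 : y ≤ x := by linarith
  have x4 : (x : ℝ) ≤ 2 * y := by linarith
  have a1 : (x : ℝ) ^ θ ≤ 2 * y ^ θ := by
    refine (Real.rpow_le_rpow (by linarith) x4 θ0.le).trans ?_
    rw [Real.mul_rpow zero_le_two (by linarith)]
    refine mul_le_mul_of_nonneg_right ?_ (by linarith)
    simpa using Real.rpow_le_rpow_of_exponent_le one_le_two hθ1.le
  have a2 : y ^ θ ≤ (x : ℝ) ^ θ := Real.rpow_le_rpow (by linarith) x3 θ0.le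
  have r := h x (by exact_mod_cast y1.trans x3) (y ^ θ / 4) (by linarith) (by linarith)
  have l1 : 0 < Real.log y := Real.log_pos (by linarith)
  have l2 : 0 < Real.log x := Real.log_pos (by linarith)
  have l3 : Real.log x ≤ 2 * Real.log y := by
    have := Real.log_le_log (by linarith) (x4.trans (mul_le_mul_of_nonneg_right y2 (by linarith)))
    rw [Real.log_mul (by linarith) (by linarith)] at this
    linarith
  refine le_trans ?_ (r.trans (Nat.cast_le.2 (card_le_card fun p hp => ?_)))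
  · rw [div_le_div_iff₀ l1 l2]
    nlinarith
  · obtain ⟨-, b1, b2⟩ := mem_filter.1 hp
    obtain ⟨b3, b4⟩ := abs_lt.1 b2
    exact mem_filter.2 ⟨mem_Ioc.2 ⟨(Nat.floor_lt (by linarith)).2 (by linarith),
      Nat.le_floor (by linarith)⟩, b1⟩

theorem count_of_cert {P : Par} {lam : List ℕ → ℕ → ℝ} (hP : P.OK) (hC : Cert P lam) {θ : ℝ}
    (hθ : 1 - P.ex < θ) (hθ1 : θ < 1) : ∃ c : ℝ, 0 < c ∧ ∃ y₀ : ℝ, ∀ y : ℝ, y₀ ≤ y →
    c * y ^ θ / Real.log y ≤ #{p ∈ Ioc ⌊y⌋₊ ⌊y + y ^ θ⌋₊ | p.Prime} :=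
  count_of_fit hP.fit hC.two hθ hθ1

end Pool.Agent.Work.MP_82fd4a_nt.P
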