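import Pool.Agent.Work.MP_82fd4a_nt.P.SRule

/-! The types of the rough numbers. -/

set_option autoImplicit false
open Finset Filter

namespace Pool.Agent.Work.MP_82fd4a_nt.P

lemma sg_log : Tendsto (fun x : ℕ => Real.log x) atTop atTop :=
  Real.tendsto_log_atTop.comp tendsto_natCast_atTop_atTop

lemma sg_log2 {x : ℕ} (hx : 1 ≤ x) : Real.log (2 * x) = Real.log 2 + Real.log x :=
  Real.log_mul two_ne_zero (by exact_mod_cast (by omega : x ≠ 0))

lemma sg_pos {P : Par} (hP : P.Fit) {B : ℕ} (hB : 0 < B) : (0 : ℝ) < (P.N * (P.G * B) : ℕ) := by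
  have := hP.N0
  have := hP.G0
  have : 0 < P.N * (P.G * B) := by positivity
  exact_mod_cast this

lemma sg_un {P : Par} (hP : P.Fit) {B : ℕ} (hB : 0 < B) (x : ℕ) :
    (P.N * (P.G * B) : ℕ) * P.un B x = Real.log (2 * x) :=
  mul_div_cancel₀ _ (sg_pos hP hB).ne'

lemma sg_ev {P : Par} (hP : P.Fit) {B : ℕ} (hB : 0 < B) : ∀ᶠ x : ℕ in atTop, 2 ≤ P.un B x := by
  filter_upwards [sg_log.eventually_ge_atTop (2 * (P.N * (P.G * B) : ℕ)), eventually_ge_atTop 1]
    with x h hx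
  rw [Par.un, le_div_iff₀ (sg_pos hP hB), sg_log2 hx]
  linarith [Real.log_pos one_lt_two]

theorem geom {P : Par} (hP : P.Fit) {η : ℝ} (hη : 0 < η) {B k : ℕ} (hB : 0 < B) (hk : 2 ≤ k * η)
    (hN : 4 ≤ η * (P.N * (P.G * B) : ℕ)) : ∀ᶠ x : ℕ in atTop, ∀ n : ℕ, 1 ≤ n → n ≤ 2 * x →
    Rough ((x : ℝ) ^ η) n → (ty (P.un B x) n).card ≤ k ∧
      (ty (P.un B x) n).sum ≤ P.N * (P.G * B) ∧
      (∀ a ∈ ty (P.un B x) n, η / 4 * (P.N * (P.G * B) : ℕ) ≤ a) ∧
      ty (P.un B x) n ≤ k • (range (P.N * (P.G * B) + 1)).val ∧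
      (x < 2 * n → P.N * (P.G * B) ≤ (ty (P.un B x) n).sum + (k + 1)) := by
  filter_upwards [sg_ev hP hB, sg_log.eventually_ge_atTop 1, eventually_ge_atTop 1]
    with x hb hL hx n hn hn' hr
  have hu := sg_un hP hB x
  have hU := sg_pos hP hB
  have hx1 : (1 : ℝ) ≤ x := by exact_mod_cast hx
  have hn1 : (1 : ℝ) ≤ n := by exact_mod_cast hn
  have l2 := Real.log_two_lt_d9
  have h1 : Real.log n ≤ Real.log (2 * x) := Real.log_le_log (by linarith) (by exact_mod_cast hn')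
  have h2 := sg_log2 hx
  generalize P.un B x = b at *
  generalize P.N * (P.G * B) = U at *
  have b0 : 0 < b := by linarith
  have c1 : (ty b n).card ≤ k := by
    have h3 := card_ty_le b (Real.one_le_rpow hx1 hη.le) (by omega) hr
    rw [Real.log_rpow (by linarith)] at h3
    have h4 : ((ty b n).card : ℝ) * (η * Real.log x) ≤ k * (η * Real.log x) := by
      have := mul_le_mul_of_nonneg_right hk (show 0 ≤ Real.log x by linarith)
      linarith
    exact_mod_cast le_of_mul_le_mul_right h4 (by positivity)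
  have c2 : ((ty b n).card : ℝ) ≤ k := by exact_mod_cast c1
  refine ⟨c1, ?_, fun a ha => ?_, ty_le b0 c1 (by push_cast; linarith), fun h => ?_⟩
  · have h3 := ty_sum_le b0 n
    exact_mod_cast le_of_mul_le_mul_right (show ((ty b n).sum : ℝ) * b ≤ U * b by linarith) b0
  · obtain ⟨p, hp, rfl⟩ := List.mem_map.1 (Multiset.mem_coe.1 ha)
    have h3 := hr p (Nat.prime_of_mem_primeFactorsList hp) (Nat.dvd_of_mem_primeFactorsList hp)
    have h4 := Real.log_le_log (by positivity) h3.le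
    rw [Real.log_rpow (by linarith)] at h4
    have h5 := Nat.lt_floor_add_one (Real.log p / b)
    rw [div_lt_iff₀ b0] at h5
    have h6 : η * (U * b) ≤ η * (2 * Real.log x) := mul_le_mul_of_nonneg_left (by linarith) hη.le
    have h7 : (η / 2 * U) * b ≤ (⌊Real.log p / b⌋₊ + 1) * b := by linarith
    have h8 := le_of_mul_le_mul_right h7 b0
    linarith
  · have h3 := log_le_ty b0 n
    have h4 : Real.log (2 * x) ≤ Real.log (2 * (2 * n)) :=
      Real.log_le_log (by linarith) (by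
        have : (x : ℝ) < 2 * n := by exact_mod_cast h
        linarith)
    rw [Real.log_mul two_ne_zero (by positivity : (2 * n : ℝ) ≠ 0),
      Real.log_mul two_ne_zero (by positivity : (n : ℝ) ≠ 0)] at h4
    have h5 := mul_le_mul_of_nonneg_right c2 b0.le
    have h6 : (U : ℝ) * b ≤ ((ty b n).sum + (k + 1)) * b := by linarith
    exact_mod_cast le_of_mul_le_mul_right h6 b0

theorem level {P : Par} (hP : P.Fit) (lam : List ℕ → ℕ → ℝ) {B k : ℕ} (hB : 0 < B)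
    (hδ : 200000 * (k + 1) ≤ P.N * (P.G * B)) : ∀ᶠ x : ℕ in atTop, ∀ d₁ d₂ : ℕ, 1 ≤ d₁ → 1 ≤ d₂ →
    (ty (P.un B x) d₁).card ≤ k → (ty (P.un B x) d₂).card ≤ k →
    lam2 P lam B (k + 1) (ty (P.un B x) d₁) (ty (P.un B x) d₂) ≠ 0 →
    (d₁ : ℝ) ≤ (x : ℝ) ^ (1 / 2 : ℝ) ∧ (d₂ : ℝ) ≤ (x : ℝ) ^ (1 / 2 : ℝ) ∧
      (d₁ : ℝ) * d₂ ≤ (x : ℝ) ^ ((1 + (1 - P.ex)) / 2 - 1 / 50000) ∧
      (d₁ : ℝ) ^ 2 * d₂ ≤ (x : ℝ) ^ (2 * (1 - P.ex) - 2 * (1 / 50000)) := by
  filter_upwards [sg_ev hP hB, sg_log.eventually_ge_atTop 100000, eventually_ge_atTop 1]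
    with x hb hL hx d₁ d₂ h1 h2 c1 c2 h
  obtain ⟨s1, s2⟩ := lam2_supp h
  have hu := sg_un hP hB x
  have hU := sg_pos hP hB
  have hx0 : (0 : ℝ) < x := by exact_mod_cast hx
  have l2 := Real.log_two_lt_d9
  have l3 := Real.log_pos one_lt_two
  have h3 := sg_log2 hx
  have e1 := hP.ex_ge
  have e2 : P.ex * (P.N * (P.G * B) : ℕ) = (P.T * B : ℕ) := by
    have : (P.N * P.G : ℝ) ≠ 0 := by
      have := hP.N0
      have := hP.G0
      positivity
    rw [Par.ex, div_mul_eq_mul_div, div_eq_iff this]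
    push_cast
    ring
  have e3 : (10000 : ℝ) * (2 * (P.Q * (P.G * B) : ℕ) + (P.T * B : ℕ)) ≤
      9999 * (P.N * (P.G * B) : ℕ) := by
    have := Nat.mul_le_mul_right B hP.Q1
    have h5 : 10000 * (2 * (P.Q * (P.G * B)) + P.T * B) ≤ 9999 * (P.N * (P.G * B)) := by
      refine le_trans (le_of_eq ?_) (this.trans (le_of_eq ?_)) <;> ring
    exact_mod_cast h5
  have b0 : 0 < P.un B x := by linarith
  have a1 := log_le_ty b0 d₁
  have a2 := log_le_ty b0 d₂
  have t1 := Nat.mul_le_mul_right B hP.T1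
  have t2 := Nat.mul_le_mul_right B hP.T2
  simp only [mul_assoc] at t1 t2
  have r0 : 2 * (((ty (P.un B x) d₁).sum : ℝ) + (ty (P.un B x) d₂).sum) ≤
      (P.N * (P.G * B) : ℕ) + 2 * (P.Q * (P.G * B) : ℕ) := by exact_mod_cast (by omega)
  have r1 : 2 * ((ty (P.un B x) d₁).sum : ℝ) + (ty (P.un B x) d₂).sum + (P.T * B : ℕ) ≤
      (P.N * (P.G * B) : ℕ) + 2 * (P.Q * (P.G * B) : ℕ) := by exact_mod_cast (by omega)
  have r6 : (0 : ℝ) ≤ (ty (P.un B x) d₂).sum := Nat.cast_nonneg _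
  have e4 := hP.ex_le
  have p1 : (0 : ℝ) < d₁ := by exact_mod_cast h1
  have p2 : (0 : ℝ) < d₂ := by exact_mod_cast h2
  have r2 : 2 * (((ty (P.un B x) d₂).sum : ℝ) + (k + 1)) ≤ (P.N * (P.G * B) : ℕ) := by
    exact_mod_cast s2
  have r3 : ((ty (P.un B x) d₁).card : ℝ) ≤ k := by exact_mod_cast c1
  have r4 : ((ty (P.un B x) d₂).card : ℝ) ≤ k := by exact_mod_cast c2
  have r5 : 200000 * ((k : ℝ) + 1) ≤ (P.N * (P.G * B) : ℕ) := by exact_mod_cast hδ
  have r7 : 100 * ((ty (P.un B x) d₁).sum : ℝ) ≤ 30 * (P.N * (P.G * B) : ℕ) := by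
    have := sr_Q hP B
    exact_mod_cast (by omega)
  rw [Real.le_rpow_iff_log_le p1 hx0, Real.le_rpow_iff_log_le p2 hx0,
    Real.le_rpow_iff_log_le (by positivity) hx0, Real.le_rpow_iff_log_le (by positivity) hx0,
    Real.log_mul p1.ne' p2.ne', Real.log_mul (by positivity) p2.ne', Real.log_pow]
  generalize P.un B x = b at *
  generalize ((P.N * (P.G * B) : ℕ) : ℝ) = U at *
  refine ⟨?_, ?_, ?_, ?_⟩
  · have h4 : ((ty b d₁).sum + (ty b d₁).card : ℝ) ≤ U / 2 - 1 := by linarith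
    have h5 := mul_le_mul_of_nonneg_right h4 b0.le
    linarith
  · have h4 : ((ty b d₂).sum + (ty b d₂).card : ℝ) ≤ U / 2 - 1 := by linarith
    have h5 := mul_le_mul_of_nonneg_right h4 b0.le
    linarith
  · have h4 : ((ty b d₁).sum + (ty b d₁).card + ((ty b d₂).sum + (ty b d₂).card) : ℝ) ≤
        ((1 + (1 - P.ex)) / 2 - 4 / 100000) * U := by linarith
    have h5 := mul_le_mul_of_nonneg_right h4 b0.le
    rw [mul_assoc, hu, h3] at h5
    nlinarith
  · have h4 : (2 * ((ty b d₁).sum + (ty b d₁).card) + ((ty b d₂).sum + (ty b d₂).card) : ℝ) ≤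
        (2 * (1 - P.ex) - 8 / 100000) * U := by linarith
    have h5 := mul_le_mul_of_nonneg_right h4 b0.le
    rw [mul_assoc, hu, h3] at h5
    push_cast
    nlinarith

end Pool.Agent.Work.MP_82fd4a_nt.P
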