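import Pool.Agent.Work.MP_82fd4a_nt.P.SDefs
import Pool.Agent.Work.MP_82fd4a_nt.NSumU

/-! The prime number theorem on the long scale.

Plan. `prime_gkB`: the proof of `prime_gk2` with `mert_theta (A + 1)` and `Gam ≥ x / (8 T) ≥ x / (8 L ^ A)`.
`sum_prime`: `q = 1` and `log n ≤ log (2 x)`. -/

set_option autoImplicit false
open Finset Filter

namespace Pool.Agent.Work.MP_82fd4a_nt.P

theorem prime_gkB (A : ℕ) {ε : ℝ} (hε : 0 < ε) : ∀ᶠ x : ℕ in atTop, ∀ T : ℝ, 1 ≤ T →
    T ≤ Real.log x ^ A → ∀ q : ℕ, 1 ≤ q → (q : ℝ) ≤ (x : ℝ) ^ (99 / 100 : ℝ) →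
    |∑ n ∈ Icc 1 (2 * x), (if n.Prime then Real.log n else 0) * gk x T (q * n) - Gam x T / q|
      ≤ ε * (Gam x T / q) := by
  obtain ⟨Y₀, hY₀⟩ := eventually_atTop.1 ((mert_theta (A + 1)).and
    (Lib.ANT.PNTError.eventually_pow_log_le 1 one_pos (A + 1)))
  have ht : Tendsto (fun x : ℕ => (x : ℝ) ^ (1 / 100 : ℝ)) atTop atTop :=
    (tendsto_rpow_atTop (by norm_num)).comp tendsto_natCast_atTop_atTop
  filter_upwards [ht.eventually_ge_atTop (Y₀ : ℝ), ht.eventually_ge_atTop 1,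
    Lib.ANT.PNTError.tendsto_log.eventually_ge_atTop 1,
    Lib.ANT.PNTError.tendsto_log.eventually_ge_atTop (96 * 100 ^ (A + 1) / ε),
    Lib.ANT.PNTError.eventually_pow_log_le 1 one_pos A, eventually_ge_atTop 1]
    with x h1 h2 hL hLε hT hx1 T hT1 hT2 q hq hqx
  set L := Real.log x with hLdef
  set Y := 2 * x / q with hY
  have hx0 : (0 : ℝ) < x := by exact_mod_cast hx1
  have hq0 : (0 : ℝ) < q := by exact_mod_cast hq
  have hYle : (Y : ℝ) ≤ 2 * x / q := by
    have := Nat.cast_div_le (α := ℝ) (m := 2 * x) (n := q)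
    push_cast at this; exact this
  have hxq : (x : ℝ) ^ (1 / 100 : ℝ) ≤ x / q := by
    rw [le_div_iff₀ hq0]
    calc _ ≤ (x : ℝ) ^ (1 / 100 : ℝ) * (x : ℝ) ^ (99 / 100 : ℝ) :=
          mul_le_mul_of_nonneg_left hqx (by positivity)
      _ = x := by rw [← Real.rpow_add hx0]; norm_num
  have hYge : (x : ℝ) ^ (1 / 100 : ℝ) ≤ Y := by
    have h := Nat.lt_floor_add_one (((2 * x : ℕ) : ℝ) / (q : ℕ))
    rw [Nat.floor_div_eq_div] at h
    push_cast at h
    have e : 2 * (x : ℝ) / q = 2 * (x / q) := by ring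
    rw [← hY] at h
    linarith
  have hY0 : Y₀ ≤ Y := by exact_mod_cast h1.trans hYge
  obtain ⟨hD, hP⟩ := hY₀ Y hY0
  have hlogY : L / 100 ≤ Real.log Y := by
    have := Real.log_le_log (by positivity) hYge
    rw [Real.log_rpow hx0] at this
    linarith
  have hL0 : 0 < L := by linarith
  have hlY : 0 < Real.log Y := by linarith
  have hT0 : 0 ≤ T := by linarith
  have hYn : (0 : ℝ) ≤ Y := Nat.cast_nonneg _
  have hE : 0 ≤ 2 * (Y / Real.log Y ^ (A + 1)) := by positivity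
  have key : ∀ a b : ℕ, a ≤ b → q * b ≤ 2 * x →
      |∑ n ∈ Ioc a b, (mertL n - 1)| ≤ 2 * (Y / Real.log Y ^ (A + 1)) := by
    intro a b hab hb
    have hbY : b ≤ Y := by
      rw [hY, Nat.le_div_iff_mul_le hq, mul_comm]; exact hb
    have d1 := hD b hbY
    have d2 := hD a (hab.trans hbY)
    rw [mertD_sub hab]
    rw [abs_le] at d1 d2 ⊢
    constructor <;> linarith [d1.1, d1.2, d2.1, d2.2]
  have up := abel_gk x hT0 hq (fun n => mertL n - 1) hE
    (fun a b hab hb => (le_abs_self _).trans (key a b hab hb))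
  have dn := abel_gk x hT0 hq (fun n => -(mertL n - 1)) hE
    (fun a b hab hb => by rw [sum_neg_distrib]; exact (neg_le_abs _).trans (key a b hab hb))
  have hm := sum_gk_mul x hT0 hq
  have e1 : ∑ n ∈ Icc 1 (2 * x), (if n.Prime then Real.log n else 0) * gk x T (q * n) =
      ∑ n ∈ Icc 1 (2 * x), (mertL n - 1) * gk x T (q * n) +
        ∑ n ∈ Icc 1 (2 * x), gk x T (q * n) := by
    rw [← sum_add_distrib]
    refine sum_congr rfl fun n _ => ?_
    unfold mertL; ring
  have e2 : ∑ n ∈ Icc 1 (2 * x), -(mertL n - 1) * gk x T (q * n) =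
      -∑ n ∈ Icc 1 (2 * x), (mertL n - 1) * gk x T (q * n) := by
    rw [← sum_neg_distrib]
    refine sum_congr rfl fun n _ => ?_
    ring
  rw [e2] at dn
  have hG : x / (8 * L ^ A) ≤ Gam x T :=
    (div_le_div_of_nonneg_left hx0.le (by linarith) (by linarith)).trans
      (Gam_ge (x := x) hT1 (by linarith))
  have f1 : 1 ≤ Y / Real.log Y ^ (A + 1) := by rw [le_div_iff₀ (by positivity)]; exact hP
  have f2 : 6 * (Y / Real.log Y ^ (A + 1)) ≤ ε * (Gam x T / q) := by
    have g1 : (L / 100) ^ (A + 1) ≤ Real.log Y ^ (A + 1) :=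
      pow_le_pow_left₀ (by positivity) hlogY _
    have g2 : 96 * 100 ^ (A + 1) / L ≤ ε := by
      rw [div_le_iff₀ hε] at hLε
      rw [div_le_iff₀ hL0]
      linarith
    calc _ ≤ 6 * ((2 * x / q) / (L / 100) ^ (A + 1)) :=
          mul_le_mul_of_nonneg_left (div_le_div₀ (by positivity) hYle (by positivity) g1)
            (by norm_num)
      _ = 96 * 100 ^ (A + 1) / L * ((x / (8 * L ^ A)) / q) := by
        rw [div_pow]
        field_simp
        ring
      _ ≤ ε * (Gam x T / q) :=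
        mul_le_mul g2 (div_le_div_of_nonneg_right hG hq0.le) (by positivity) hε.le
  rw [e1]
  rw [abs_le] at hm ⊢
  constructor <;> linarith [hm.1, hm.2]

theorem sum_prime (A : ℕ) {ε : ℝ} (hε : 0 < ε) : ∀ᶠ x : ℕ in atTop, ∀ T : ℝ, 1 ≤ T →
    T ≤ Real.log x ^ A → (1 - ε) / Real.log (2 * x) ≤ SF x T PrF := by
  filter_upwards [prime_gkB A hε, Lib.ANT.PNTError.eventually_pow_log_le 1 one_pos A,
    eventually_ge_atTop 1] with x h hT hx1 T hT1 hT2
  have hx : (1 : ℝ) ≤ x := by exact_mod_cast hx1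
  have h1 := (abs_le.1 (h T hT1 hT2 1 le_rfl
    (by simpa using Real.one_le_rpow hx (by norm_num)))).1
  simp only [Nat.cast_one, div_one, one_mul] at h1
  have hG : 0 < Gam x T := lt_of_lt_of_le (by positivity) (Gam_ge (x := x) hT1 (by linarith))
  have hl : 0 < Real.log (2 * x) := Real.log_pos (by linarith)
  have h2 : ∑ n ∈ Icc 1 (2 * x), (if n.Prime then Real.log n else 0) * gk x T n ≤
      (∑ n ∈ Icc 1 (2 * x), PrF n * gk x T n) * Real.log (2 * x) := by
    rw [sum_mul]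
    refine sum_le_sum fun n hn => ?_
    rw [mul_right_comm]
    refine mul_le_mul_of_nonneg_right ?_ (gk_nonneg _ _ _)
    unfold PrF
    split_ifs with hp
    · rw [one_mul]
      exact Real.log_le_log (by exact_mod_cast hp.pos) (by exact_mod_cast (mem_Icc.1 hn).2)
    · rw [zero_mul]
  rw [SF, div_le_div_iff₀ hl hG]
  linarith

end Pool.Agent.Work.MP_82fd4a_nt.P
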