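import Pool.Agent.Work.MP_82fd4a_nt.P.SDefs
import Pool.Agent.Work.MP_82fd4a_nt.LossT

/-! Squarefree numbers of a given type and tuples of primes.

Plan. `psum_count`: induction on `c` generalizing `n` (compare `tuple_le`): the primes `p ∈ A a` that divide `n`
are `c.count a + 1` in number, and `n / p` is squarefree of type `c`. `tup_eq`: group the tuples by their product
`n` (`gk` vanishes for `n > 2 x`). For squarefree `n` the number of tuples is `mf t` if `n` is rough of type
`t`, and `0` otherwise; if `n` is not squarefree and is the product of a tuple, it is rough and has at most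
`t.length` prime factors, so there are at most `t.length ^ t.length` tuples. -/

set_option autoImplicit false
open Finset

namespace Pool.Agent.Work.MP_82fd4a_nt.P

theorem STup_zero (V : List (Finset ℕ)) : psum V (fun _ => 0) = 0 := by
  induction V with
  | nil => rfl
  | cons A V ih => simp only [psum, ih, sum_const_zero]

theorem psum_count (g : ℕ → ℕ) (A : ℕ → Finset ℕ) (hA : ∀ a, ∀ p ∈ A a, p.Prime ∧ g p = a)
    (c : List ℕ) {n : ℕ} (hn : Squarefree n) (hA' : ∀ p, p.Prime → p ∣ n → p ∈ A (g p))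
    (hc : (n.primeFactorsList.map g).Perm c) :
    psum (c.map A) (fun m => if m = n then 1 else 0) = mf c := by
  induction c generalizing n with
  | nil =>
    have h1 := (Nat.primeFactorsList_eq_nil n).1 (List.map_eq_nil_iff.1 hc.eq_nil)
    have h2 : 1 = n := (h1.resolve_left hn.ne_zero).symm
    simp only [List.map_nil, psum, if_pos h2, mf, Nat.cast_one]
  | cons a c ih =>
    have h1 : #{p ∈ A a | p ∣ n} = c.count a + 1 := by
      rw [← List.count_cons_self, ← hc.count_eq, List.count_eq_countP, List.countP_map,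
        List.countP_eq_length_filter,
        ← List.toFinset_card_of_nodup (hn.nodup_primeFactorsList.filter _)]
      refine congrArg card (Finset.ext fun p => ?_)
      rw [mem_filter, List.mem_toFinset, List.mem_filter]
      refine ⟨fun h => ⟨(Nat.mem_primeFactorsList hn.ne_zero).2 ⟨(hA a p h.1).1, h.2⟩,
        by simpa using (hA a p h.1).2⟩, fun h => ?_⟩
      have h2 := (Nat.mem_primeFactorsList hn.ne_zero).1 h.1
      have h3 : g p = a := by simpa using h.2
      exact ⟨h3 ▸ hA' p h2.1 h2.2, h2.2⟩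
    rw [List.map_cons, psum, mf, ← h1, Nat.cast_mul, ← nsmul_eq_mul, ← sum_const, sum_filter]
    refine sum_congr rfl fun p hp => ?_
    obtain ⟨h2, h3⟩ := hA a p hp
    split_ifs with h4
    · obtain ⟨m, rfl⟩ := h4
      have h5 : m ≠ 0 := right_ne_zero_of_mul hn.ne_zero
      have h6 := ((Nat.perm_primeFactorsList_mul h2.ne_zero h5).map g).symm.trans hc
      rw [Nat.primeFactorsList_prime h2, List.singleton_append, List.map_cons, h3] at h6
      rw [← ih hn.of_mul_right (fun q hq h => hA' q hq (h.mul_left p)) h6.cons_inv]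
      simp only [mul_right_inj' h2.ne_zero]
    · exact (congrArg _ (funext fun m => if_neg fun h : p * m = n => h4 ⟨m, h.symm⟩)).trans
        (STup_zero (c.map A))

theorem STup_pi (k : ℕ) (A : Fin k → Finset ℕ) (F : ℕ → ℝ) :
    ∑ p ∈ Fintype.piFinset A, F (∏ j, p j) = psum (List.ofFn A) F := by
  induction k generalizing F with
  | zero => simp [psum]
  | succ k ih =>
    rw [List.ofFn_succ, psum]
    simp only [← ih]
    rw [← sum_product']
    refine sum_nbij' (fun p => (p 0, Fin.tail p)) (fun q => Fin.cons q.1 q.2) ?_ ?_ ?_ ?_ ?_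
    · intro p hp
      rw [Fintype.mem_piFinset] at hp
      exact mem_product.2 ⟨hp 0, Fintype.mem_piFinset.2 fun j => hp j.succ⟩
    · intro q hq
      obtain ⟨h1, h2⟩ := mem_product.1 hq
      exact Fintype.mem_piFinset.2 (Fin.cases h1 (Fintype.mem_piFinset.1 h2))
    · intro p _
      exact Fin.cons_self_tail p
    · intro q _
      rfl
    · intro p _
      rw [Fin.prod_univ_succ]
      rfl

theorem STup_mem {x : ℕ} {w b : ℝ} {t : List ℕ} {p : Fin t.length → ℕ}
    (hp : p ∈ Fintype.piFinset fun j : Fin t.length => PrA x w b (t.get j)) :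
    Rough w (∏ j, p j) ∧ ty b (∏ j, p j) = t ∧ #(∏ j, p j).primeFactors ≤ t.length ∧
      ∀ j, p j ∈ (∏ j, p j).primeFactors := by
  have h : ∀ j, (p j).Prime ∧ w < p j ∧ fs b (p j) = t.get j := fun j =>
    (mem_filter.1 (Fintype.mem_piFinset.1 hp j)).2
  have h1 : (List.ofFn p).Perm (∏ j, p j).primeFactorsList :=
    Nat.primeFactorsList_unique List.prod_ofFn fun q hq => by
      obtain ⟨j, rfl⟩ := (List.mem_ofFn' _ _).1 hq
      exact (h j).1
  refine ⟨fun q hq hd => ?_, ?_, ?_, fun j => ?_⟩
  · obtain ⟨j, -, hj⟩ := (hq.prime.dvd_finsetProd_iff _).1 hd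
    rw [(Nat.prime_dvd_prime_iff_eq hq (h j).1).1 hj]
    exact (h j).2.1
  · rw [ty, Multiset.coe_eq_coe]
    refine (h1.map _).symm.trans (List.Perm.of_eq ?_)
    rw [List.map_ofFn]
    conv_rhs => rw [← List.ofFn_get t]
    exact congrArg _ (funext fun j => (fs_prime b (h j).1).symm.trans (h j).2.2)
  · refine (List.toFinset_card_le _).trans_eq ?_
    rw [← h1.length_eq, List.length_ofFn]
  · exact List.mem_toFinset.2 (h1.subset ((List.mem_ofFn' _ _).2 ⟨j, rfl⟩))

theorem STup_pt (x : ℕ) (w b : ℝ) (t : List ℕ) {n : ℕ} (hn : n ∈ Icc 1 (2 * x)) :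
    |(∑ p ∈ Fintype.piFinset fun j : Fin t.length => PrA x w b (t.get j),
      if ∏ j, p j = n then (1 : ℝ) else 0) - mf t * TyF w b t n|
      ≤ (t.length : ℝ) ^ t.length * NsF w n := by
  unfold TyF
  split_ifs with h
  · rw [STup_pi _ _ fun m => if m = n then 1 else 0, NsF, if_pos h.1, mul_zero, mul_one,
      show (List.ofFn fun j : Fin t.length => PrA x w b (t.get j)) = t.map (PrA x w b) by
        conv_rhs => rw [← List.ofFn_get t, List.map_ofFn]
        rfl,
      psum_count (fs b) (PrA x w b) (fun a p hp => ⟨(mem_filter.1 hp).2.1, (mem_filter.1 hp).2.2.2⟩)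
        t h.1 (fun p hp hd => mem_filter.2 ⟨mem_Icc.2 ⟨hp.one_le, (Nat.le_of_dvd
          (mem_Icc.1 hn).1 hd).trans (mem_Icc.1 hn).2⟩, hp, h.2.1 p hp hd, rfl⟩) ?_,
      sub_self, abs_zero]
    rw [List.map_congr_left fun p hp => fs_prime b (Nat.prime_of_mem_primeFactorsList hp)]
    exact Multiset.coe_eq_coe.1 h.2.2
  · rw [mul_zero, sub_zero, sum_boole, Nat.abs_cast]
    rcases Finset.eq_empty_or_nonempty
      {p ∈ Fintype.piFinset fun j : Fin t.length => PrA x w b (t.get j) | ∏ j, p j = n}
      with h1 | ⟨p, hp⟩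
    · rw [h1, card_empty, Nat.cast_zero]
      exact mul_nonneg (by positivity) (NsF_nonneg _ _)
    · obtain ⟨h1, rfl⟩ := mem_filter.1 hp
      obtain ⟨h2, h3, h4, -⟩ := STup_mem h1
      rw [NsF, if_neg fun h5 => h ⟨h5, h2, h3⟩, rf, if_pos h2, mul_one, ← Nat.cast_pow, Nat.cast_le]
      refine (card_le_card (t := Fintype.piFinset fun _ => (∏ j, p j).primeFactors)
        fun q hq => ?_).trans ?_
      · obtain ⟨h5, h6⟩ := mem_filter.1 hq
        exact Fintype.mem_piFinset.2 (h6 ▸ (STup_mem h5).2.2.2)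
      · rw [Fintype.card_piFinset_const]
        exact Nat.pow_le_pow_left h4 _

theorem tup_eq (x : ℕ) (T w b : ℝ) (t : List ℕ) :
    |(∑ p ∈ Fintype.piFinset fun j : Fin t.length => PrA x w b (t.get j), gk x T (∏ j, p j)) -
      mf t * ∑ n ∈ Icc 1 (2 * x), TyF w b t n * gk x T n|
      ≤ (t.length : ℝ) ^ t.length * ∑ n ∈ Icc 1 (2 * x), NsF w n * gk x T n := by
  have h1 : ∀ m, gk x T m = ∑ n ∈ Icc 1 (2 * x), (if m = n then 1 else 0) * gk x T n := fun m => by
    simp only [ite_mul, one_mul, zero_mul, sum_ite_eq]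
    split_ifs with h
    · rfl
    · by_contra h0
      have := gk_ne_zero h0
      exact h (mem_Icc.2 (by omega))
  rw [sum_congr rfl fun p _ => h1 _, sum_comm, mul_sum, mul_sum, ← sum_sub_distrib]
  refine (abs_sum_le_sum_abs _ _).trans (sum_le_sum fun n hn => ?_)
  rw [← sum_mul, ← mul_assoc, ← mul_assoc, ← sub_mul, abs_mul, abs_of_nonneg (gk_nonneg _ _ _)]
  exact mul_le_mul_of_nonneg_right (STup_pt x w b t hn) (gk_nonneg _ _ _)

end Pool.Agent.Work.MP_82fd4a_nt.P
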