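import Pool.Agent.Work.MP_82fd4a_nt.P.SPsi
import Pool.Agent.Work.MP_82fd4a_nt.P.SLong
import Pool.Agent.Work.MP_82fd4a_nt.P.STup
import Pool.Agent.Work.MP_82fd4a_nt.P.CertEqs

/-! The loss on the long scale.

Plan. `loss_le_tot`: `F = G * B`, `b = P.un B x`, `Pr` the primes `p ≤ 2 x` with `z B ≤ fs b p < N F`. A squarefree `n`
of bad type `τ` with sorted cells `c` has `mf c` orderings `pre ++ [p]` of its prime factors with sorted cells
(`psum_count` with `g p = fs b p / F`, or directly); for each of them the list `t` of the `fs` satisfies `Hyp`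
(`Free` and `rm_split`), `¬ GoodL`, `W lam F t = WM lam F τ` (`WM_eq`), so `hΨ` summed over
the orderings gives `LossF n * (N F) ≤ ∑ Ψ (pre.map fs) * fs p`, and `fs p / (N F) ≤ log p / log (2 x)`. Hence the sum is at
most the sum over the lists `pre` of at most `30` primes of `Pr` (a bad type has at most `30` parts, each `< N F`) of
`Ψ (pre.map fs) / log (2 x) * ∑ p, log p * gk (pre.prod * p) ≤ Ψ (pre.map fs) * C / (log (2 x) * pre.prod)`
(if `Ψ > 0` then `hD` bounds `log pre.prod` through `log_le_ty`), and the sum over such lists of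
`Ψ (pre.map fs) / pre.prod` is `tot` (induction on the fuel, with a copy of `tot` on the lists of primes).
`sum_loss`: `κ = 1 + 1 / 100000`, `ε = 1 / 10000`, `κ ^ 30 * 0.998 * 1.0001 ≤ 0.9985`;
`(N F - z B + 30) b ≤ (31 / 32 + 30 / 5000) log (2 x) ≤ 0.99 log x`. -/

set_option autoImplicit false
open Finset Filter

namespace Pool.Agent.Work.MP_82fd4a_nt.P

/-- sum over all the extensions of a list by elements of `S` -/
noncomputable def SLoss_tot (S : Finset ℕ) (Φ : List ℕ → ℝ) : ℕ → List ℕ → ℝ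
  | 0, _ => 0
  | f + 1, pre => Φ pre + ∑ p ∈ S, SLoss_tot S Φ f (pre ++ [p])

lemma SLoss_tot_nonneg (S : Finset ℕ) {Φ : List ℕ → ℝ} (h : ∀ l, 0 ≤ Φ l) (f : ℕ)
    (pre : List ℕ) : 0 ≤ SLoss_tot S Φ f pre := by
  induction f generalizing pre with
  | zero => exact le_rfl
  | succ f ih => exact add_nonneg (h pre) (sum_nonneg fun p _ => ih _)

lemma SLoss_tot_mono (S : Finset ℕ) {Φ Φ' : List ℕ → ℝ}
    (h : ∀ l : List ℕ, (∀ p ∈ l, p ∈ S) → Φ l ≤ Φ' l) (f : ℕ) (pre : List ℕ)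
    (hp : ∀ p ∈ pre, p ∈ S) : SLoss_tot S Φ f pre ≤ SLoss_tot S Φ' f pre := by
  induction f generalizing pre with
  | zero => exact le_rfl
  | succ f ih =>
    refine add_le_add (h pre hp) (sum_le_sum fun p hp' => ih _ fun q hq => ?_)
    rcases List.mem_append.1 hq with h1 | h1
    · exact hp q h1
    · rw [List.mem_singleton.1 h1]; exact hp'

lemma SLoss_tot_sum (S I : Finset ℕ) (c : ℕ → ℝ) (Φ : ℕ → List ℕ → ℝ) (f : ℕ) (pre : List ℕ) :
    ∑ n ∈ I, SLoss_tot S (Φ n) f pre * c n =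
      SLoss_tot S (fun l => ∑ n ∈ I, Φ n l * c n) f pre := by
  induction f generalizing pre with
  | zero => simp [SLoss_tot]
  | succ f ih =>
    simp only [SLoss_tot, add_mul, sum_add_distrib, sum_mul, ← ih]
    rw [sum_comm]

lemma SLoss_psum_mul (V : List (Finset ℕ)) (k : ℝ) (G : ℕ → ℝ) :
    psum V (fun m => k * G m) = k * psum V G := by
  induction V generalizing G with
  | nil => rfl
  | cons A V ih => simp only [psum, ih, mul_sum]

lemma SLoss_psum_le (S : Finset ℕ) {Φ : List ℕ → ℝ} (h : ∀ l, 0 ≤ Φ l) (V : List (Finset ℕ))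
    (f : ℕ) (pre : List ℕ) (G : ℕ → ℝ) (hf : V.length < f) (hV : ∀ A ∈ V, A ⊆ S)
    (hG : ∀ l : List ℕ, List.Forall₂ (· ∈ ·) l V → G l.prod ≤ Φ (pre ++ l)) :
    psum V G ≤ SLoss_tot S Φ f pre := by
  induction V generalizing f pre G with
  | nil =>
    obtain ⟨f, rfl⟩ : ∃ g, f = g + 1 := ⟨f - 1, by simp at hf; omega⟩
    have h1 := hG [] List.Forall₂.nil
    simp only [List.prod_nil, List.append_nil] at h1
    exact h1.trans (le_add_of_nonneg_right (sum_nonneg fun p _ => SLoss_tot_nonneg S h _ _))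
  | cons A V ih =>
    obtain ⟨f, rfl⟩ : ∃ g, f = g + 1 := ⟨f - 1, by omega⟩
    refine le_trans ?_ (le_add_of_nonneg_left (h pre))
    refine le_trans (sum_le_sum fun a ha => ih f (pre ++ [a]) _ (by simpa using hf)
      (fun B hB => hV B (List.mem_cons_of_mem _ hB)) fun l hl => ?_)
      (sum_le_sum_of_subset_of_nonneg (hV A List.mem_cons_self)
        fun p _ _ => SLoss_tot_nonneg S h _ _)
    simpa using hG (a :: l) (List.Forall₂.cons ha hl)

lemma SLoss_ty (b : ℝ) {l : List ℕ} (h : ∀ p ∈ l, p.Prime) :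
    l.prod ≠ 0 ∧ ty b l.prod = (l.map (fs b) : List ℕ) := by
  induction l with
  | nil => simp [typ_one]
  | cons p l ih =>
    have hp := h p List.mem_cons_self
    obtain ⟨h1, h2⟩ := ih fun q hq => h q (List.mem_cons_of_mem _ hq)
    refine ⟨by rw [List.prod_cons]; exact mul_ne_zero hp.ne_zero h1, ?_⟩
    rw [List.prod_cons, typ_prime_mul b hp h1, h2, List.map_cons, fs_prime b hp,
      Multiset.cons_coe]

/-- the large primes -/
noncomputable def SLoss_Pr (P : Par) (B x : ℕ) : Finset ℕ :=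
  (Icc 1 (2 * x)).filter fun p => p.Prime ∧ P.z * B ≤ fs (P.un B x) p ∧
    fs (P.un B x) p < P.N * (P.G * B)

lemma SLoss_tot_eq (P : Par) (B x : ℕ) (Ψ : List ℕ → ℝ) (k : ℝ) (f : ℕ) (pre : List ℕ) :
    SLoss_tot (SLoss_Pr P B x) (fun l => Ψ (l.map (fs (P.un B x))) * (k / l.prod)) f pre =
      k / pre.prod * tot (P.N * (P.G * B)) (muA P B x) Ψ f (pre.map (fs (P.un B x))) := by
  induction f generalizing pre with
  | zero => simp [SLoss_tot, tot]
  | succ f ih =>
    simp only [SLoss_tot, tot, ih]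
    rw [mul_add, mul_comm (Ψ _), mul_sum]
    congr 1
    rw [← sum_fiberwise_of_maps_to (s := SLoss_Pr P B x) (t := range (P.N * (P.G * B)))
      (g := fs (P.un B x)) fun p hp => mem_range.2 (mem_filter.1 hp).2.2.2]
    refine sum_congr rfl fun a ha => ?_
    have h1 : muA P B x a = ∑ p ∈ SLoss_Pr P B x with fs (P.un B x) p = a, (p : ℝ)⁻¹ := by
      unfold muA
      split_ifs with h
      · refine sum_congr ?_ fun _ _ => rfl
        ext p
        simp only [PrA, SLoss_Pr, mem_filter]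
        constructor
        · rintro ⟨h1, h2, -, h3⟩
          exact ⟨⟨h1, h2, h3 ▸ h, h3 ▸ mem_range.1 ha⟩, h3⟩
        · rintro ⟨⟨h1, h2, -⟩, h3⟩
          exact ⟨h1, h2, by exact_mod_cast h2.pos, h3⟩
      · symm
        refine sum_eq_zero fun p hp => ?_
        rw [mem_filter] at hp
        exact absurd (hp.2 ▸ (mem_filter.1 hp.1).2.2.1) h
    rw [h1, sum_mul, mul_sum]
    refine sum_congr rfl fun p hp => ?_
    rw [List.map_append, List.map_singleton, (mem_filter.1 hp).2, List.prod_append,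
      List.prod_singleton, Nat.cast_mul, div_mul_eq_div_div, div_eq_mul_inv _ (p : ℝ), mul_assoc]

lemma SLoss_cells {g : ℕ → ℕ} {A : ℕ → Finset ℕ} (hA : ∀ a, ∀ p ∈ A a, g p = a) {l c : List ℕ}
    (h : List.Forall₂ (· ∈ ·) l (c.map A)) : l.map g = c ∧ ∀ p ∈ l, ∃ a, p ∈ A a := by
  induction c generalizing l with
  | nil => simp at h; simp [h]
  | cons a c ih =>
    rw [List.map_cons, List.forall₂_cons_right_iff] at h
    obtain ⟨p, l, h1, h2, rfl⟩ := h
    obtain ⟨h3, h4⟩ := ih h2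
    refine ⟨by rw [List.map_cons, h3, hA a p h1], fun q hq => ?_⟩
    rcases List.mem_cons.1 hq with rfl | hq
    · exact ⟨a, h1⟩
    · exact h4 q hq

lemma SLoss_z {P : Par} (hP : P.Fit) {B : ℕ} (hB : 0 < B) : 0 < P.z * B := by
  have h1 := hP.z1
  have h2 : 0 < P.N * P.G := Nat.mul_pos (by have := hP.N0; omega) hP.G0
  exact Nat.mul_pos (by omega) hB

lemma SLoss_card {P : Par} (hP : P.Fit) {B : ℕ} (hB : 0 < B) {τ : Multiset ℕ} (h1 : Big P B τ)
    (h2 : τ.sum ≤ P.N * (P.G * B)) : τ.card ≤ 31 := by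
  have h3 := Multiset.card_nsmul_le_sum (s := τ) (a := P.z * B) h1
  rw [smul_eq_mul] at h3
  have h4 : P.N * (P.G * B) < 32 * (P.z * B) := by
    rw [← mul_assoc, ← mul_assoc]; exact Nat.mul_lt_mul_of_pos_right hP.z1 hB
  exact Nat.le_of_lt_succ (Nat.lt_of_mul_lt_mul_right (h3.trans_lt (h2.trans_lt h4)))

lemma SLoss_hyp {P : Par} {B δ : ℕ} {t : List ℕ} (h : BadT P B δ t)
    (hs : (t.map (· / (P.G * B))).Pairwise (· ≤ ·)) : Hyp P B δ t := by
  obtain ⟨-, h1, ⟨h2, h3⟩, h4, -⟩ := h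
  refine ⟨hs, fun a ha => h1 a (Multiset.mem_coe.2 ha), by simpa using h2, by simpa using h3,
    fun p hp e1 e2 => ?_⟩
  have h5 := h4 (p.1 : Multiset ℕ) (Multiset.coe_le.2 (splits_sublist hp).1.subperm)
    (by simpa using e1) (fun e => by
      have h6 := (Multiset.coe_eq_coe.1 e).length_eq
      have h7 := (splits_perm hp).length_eq
      rw [List.length_append] at h7
      exact e2 (List.length_eq_zero_iff.1 (by omega)))
  simpa using h5

/-- the pointwise inequality -/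
lemma SLoss_point {P : Par} (hP : P.Fit) {lam : List ℕ → ℕ → ℝ} {B δ x : ℕ} (hB : 0 < B)
    {Ψ : List ℕ → ℝ} (h0 : ∀ pre, 0 ≤ Ψ pre)
    (hΨ : ∀ (pre : List ℕ) (a : ℕ), pre ≠ [] → Hyp P B δ (pre ++ [a]) →
      ¬ GoodL (P.T * B : ℕ) (P.N * (P.G * B) : ℕ) (1 / 8192) (pre ++ [a]) →
      -W lam (P.G * B) (pre ++ [a]) * (P.N * (P.G * B) : ℕ) ≤
        Ψ pre * a * mf ((pre ++ [a]).map (· / (P.G * B)))) {n : ℕ} (hn : n ∈ Icc 1 (2 * x)) :
    LossF P lam B δ (P.un B x) n * (P.N * (P.G * B) : ℕ) ≤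
      SLoss_tot (SLoss_Pr P B x) (fun l => Ψ (l.map (fs (P.un B x))) * ∑ p ∈ Icc 1 (2 * x),
        if p.Prime ∧ l.prod * p = n then (fs (P.un B x) p : ℝ) else 0) 31 [] := by
  have hΦ : ∀ l : List ℕ, 0 ≤ Ψ (l.map (fs (P.un B x))) * ∑ p ∈ Icc 1 (2 * x),
      if p.Prime ∧ l.prod * p = n then (fs (P.un B x) p : ℝ) else 0 := fun l =>
    mul_nonneg (h0 _) (sum_nonneg fun p _ => by split_ifs <;> positivity)
  unfold LossF
  split_ifs with h
  swap
  · rw [zero_mul]; exact SLoss_tot_nonneg _ hΦ _ _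
  obtain ⟨hsq, hbad⟩ := h
  set b := P.un B x with hb
  set L := max 0 (-WM lam (P.G * B) (ty b n)) with hL
  set g : ℕ → ℕ := fun p => fs b p / (P.G * B) with hg
  set A : ℕ → Finset ℕ := fun a => (SLoss_Pr P B x).filter fun p => g p = a with hA
  have hz := SLoss_z hP hB
  have hcard := SLoss_card hP hB hbad.2.1 hbad.2.2.1.2
  have h2 := hbad.1
  rw [typ_card] at hcard h2
  obtain ⟨c, hc1, hc2⟩ : ∃ c : List ℕ, (n.primeFactorsList.map g).Perm c ∧ c.Pairwise (· ≤ ·) :=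
    ⟨Multiset.sort (n.primeFactorsList.map g : List ℕ) (· ≤ ·),
      Multiset.coe_eq_coe.1 (Multiset.sort_eq _ _).symm, Multiset.pairwise_sort _ _⟩
  have hlen : c.length = n.primeFactorsList.length := by rw [← hc1.length_eq, List.length_map]
  have hAp : ∀ a, ∀ p ∈ A a, p.Prime ∧ g p = a := fun a p hp =>
    ⟨(mem_filter.1 (mem_filter.1 hp).1).2.1, (mem_filter.1 hp).2⟩
  have hcount := psum_count g A hAp c hsq (fun p hp hd => by
    refine mem_filter.2 ⟨mem_filter.2 ⟨mem_Icc.2 ⟨hp.pos,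
      (Nat.le_of_dvd (mem_Icc.1 hn).1 hd).trans (mem_Icc.1 hn).2⟩, hp, ?_⟩, rfl⟩
    have hm : fs b p ∈ ty b n := by
      rw [fs_prime b hp]
      exact Multiset.mem_coe.2 (List.mem_map.2
        ⟨p, (Nat.mem_primeFactorsList hsq.ne_zero).2 ⟨hp, hd⟩, rfl⟩)
    have h3 := lossV_part hm hbad.2.1
    have h4 : 1 * (P.z * B) ≤ ((ty b n).card - 1) * (P.z * B) :=
      Nat.mul_le_mul_right _ (by have := hbad.1; omega)
    have h5 := hbad.2.2.1.2
    have h6 : fs b p < P.N * (P.G * B) := by omega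
    exact ⟨hbad.2.1 _ hm, h6⟩) hc1
  obtain ⟨c, e, rfl⟩ : ∃ c' e, c = c' ++ [e] := by
    rcases List.eq_nil_or_concat c with rfl | ⟨c', e, rfl⟩
    · simp at hlen; omega
    · exact ⟨c', e, by simp⟩
  rw [List.length_append, List.length_singleton] at hlen
  have hm : (0 : ℝ) < mf (c ++ [e]) := by exact_mod_cast mf_pos _
  rw [List.map_append, psum_append] at hcount
  have e1 : L * (P.N * (P.G * B) : ℕ) = L * (P.N * (P.G * B) : ℕ) / mf (c ++ [e]) *
      mf (c ++ [e]) := (div_mul_cancel₀ _ hm.ne').symm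
  rw [e1]
  nth_rewrite 2 [← hcount]
  rw [← SLoss_psum_mul]
  refine SLoss_psum_le _ hΦ _ _ _ _ (by rw [List.length_map]; omega) (fun A' hA' => ?_)
    fun l hl => ?_
  · obtain ⟨a, -, rfl⟩ := List.mem_map.1 hA'
    exact filter_subset _ _
  obtain ⟨hl1, hl2⟩ := SLoss_cells (fun a p hp => (hAp a p hp).2) hl
  simp only [List.map_cons, List.map_nil, psum, mul_one, List.nil_append]
  rw [mul_sum, mul_sum]
  refine le_trans (sum_le_sum fun p hp => ?_) (sum_le_sum_of_subset_of_nonneg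
    (s := A e) ((filter_subset _ _).trans (filter_subset _ _)) fun p _ _ =>
      mul_nonneg (h0 _) (by split_ifs <;> positivity))
  by_cases hpn : l.prod * p = n
  swap
  · rw [if_neg hpn, if_neg fun h => hpn h.2, mul_zero, mul_zero]
  rw [if_pos hpn, if_pos ⟨(hAp e p hp).1, hpn⟩, mul_one, div_le_iff₀ hm]
  have hpr : ∀ q ∈ l ++ [p], q.Prime := fun q hq => by
    rcases List.mem_append.1 hq with h | h
    · obtain ⟨a, ha⟩ := hl2 q h
      exact (hAp a q ha).1
    · rw [List.mem_singleton.1 h]; exact (hAp e p hp).1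
  have hty := (SLoss_ty b hpr).2
  rw [List.prod_append, List.prod_singleton, hpn, List.map_append, List.map_singleton] at hty
  have hcl : (l.map (fs b) ++ [fs b p]).map (· / (P.G * B)) = c ++ [e] := by
    rw [List.map_append, List.map_map, List.map_singleton, ← hl1, ← (hAp e p hp).2]
    rfl
  rw [hty] at hbad
  have hs : ((l.map (fs b) ++ [fs b p]).map (· / (P.G * B))).Pairwise (· ≤ ·) := by rwa [hcl]
  have hne : l.map (fs b) ≠ [] := by
    intro h
    have := congrArg List.length h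
    rw [List.length_map, List.length_nil] at this
    have h3 := congrArg List.length hl1
    rw [List.length_map] at h3
    omega
  have h6 := hΨ _ _ hne (SLoss_hyp hbad hs) fun h => hbad.2.2.2.2 ⟨_, rfl, h⟩
  rw [hcl] at h6
  rw [hL, hty, WM_eq lam _ hs, max_mul_of_nonneg _ _ (Nat.cast_nonneg _), zero_mul]
  exact max_le (mul_nonneg (mul_nonneg (h0 _) (Nat.cast_nonneg _)) hm.le) h6

theorem loss_le_tot {P : Par} (hP : P.Fit) {lam : List ℕ → ℕ → ℝ} {B δ x : ℕ} (hB : 0 < B)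
    (hx : 1 ≤ x) {T C : ℝ} (hC : 0 ≤ C) {Ψ : List ℕ → ℝ} (h0 : ∀ pre, 0 ≤ Ψ pre)
    (hD : Dom P lam B δ Ψ) (hΨ : ∀ (pre : List ℕ) (a : ℕ), pre ≠ [] → Hyp P B δ (pre ++ [a]) →
      ¬ GoodL (P.T * B : ℕ) (P.N * (P.G * B) : ℕ) (1 / 8192) (pre ++ [a]) →
      -W lam (P.G * B) (pre ++ [a]) * (P.N * (P.G * B) : ℕ) ≤
        Ψ pre * a * mf ((pre ++ [a]).map (· / (P.G * B))))
    (hq : ∀ q : ℕ, 1 ≤ q → Real.log q + (P.z * B : ℕ) * P.un B x ≤
      ((P.N * (P.G * B) : ℕ) + 30) * P.un B x →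
      ∑ n ∈ Icc 1 (2 * x), (if n.Prime then Real.log n else 0) * gk x T (q * n) ≤ C / q) :
    ∑ n ∈ Icc 1 (2 * x), LossF P lam B δ (P.un B x) n * gk x T n ≤
      C / Real.log (2 * x) * tot (P.N * (P.G * B)) (muA P B x) Ψ 31 [] := by
  have hM : 0 < P.N * (P.G * B) :=
    Nat.mul_pos (by have := hP.N0; omega) (Nat.mul_pos hP.G0 hB)
  have hM' : (0 : ℝ) < (P.N * (P.G * B) : ℕ) := by exact_mod_cast hM
  have hx' : (1 : ℝ) ≤ x := by exact_mod_cast hx
  have hlog : 0 < Real.log (2 * x) := Real.log_pos (by linarith)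
  have hb : 0 < P.un B x := div_pos hlog hM'
  have hbM : P.un B x * (P.N * (P.G * B) : ℕ) = Real.log (2 * x) := div_mul_cancel₀ _ hM'.ne'
  refine le_of_mul_le_mul_right ?_ hM'
  have e1 : C / Real.log (2 * x) * tot (P.N * (P.G * B)) (muA P B x) Ψ 31 [] *
      (P.N * (P.G * B) : ℕ) = C / P.un B x / (([] : List ℕ).prod : ℕ) *
        tot (P.N * (P.G * B)) (muA P B x) Ψ 31 (([] : List ℕ).map (fs (P.un B x))) := by
    rw [← hbM, List.prod_nil, List.map_nil, Nat.cast_one, div_one]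
    field_simp
  rw [e1, ← SLoss_tot_eq, sum_mul]
  refine le_trans (sum_le_sum fun n hn => ?_) ((SLoss_tot_sum (SLoss_Pr P B x) (Icc 1 (2 * x))
    (gk x T) (fun n l => Ψ (l.map (fs (P.un B x))) * ∑ p ∈ Icc 1 (2 * x),
      if p.Prime ∧ l.prod * p = n then (fs (P.un B x) p : ℝ) else 0) 31 []).le.trans
    (SLoss_tot_mono _ (fun l hl => ?_) _ _ (by simp)))
  · rw [mul_right_comm]
    exact mul_le_mul_of_nonneg_right (SLoss_point hP hB h0 hΨ hn) (gk_nonneg _ _ _)
  simp only [mul_assoc, ← mul_sum]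
  rcases hD (l.map (fs (P.un B x))) with h | ⟨a, -, H, -⟩
  · rw [le_antisymm h (h0 _), zero_mul, zero_mul]
  refine mul_le_mul_of_nonneg_left ?_ (h0 _)
  obtain ⟨h1, h2⟩ := SLoss_ty (P.un B x) (l := l) fun p hp => (mem_filter.1 (hl p hp)).2.1
  have h3 := log_le_ty hb l.prod
  have h4 := SLoss_card hP hB (τ := (l.map (fs (P.un B x)) ++ [a] : List ℕ))
    (fun a ha => H.big a (Multiset.mem_coe.1 ha)) (by simpa using H.hi)
  have h5 := H.hi
  have h6 := H.big a (by simp)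
  rw [h2, Multiset.sum_coe, Multiset.coe_card] at h3
  rw [Multiset.coe_card, List.length_append, List.length_singleton] at h4
  rw [List.sum_append, List.sum_singleton] at h5
  have h7 : (l.map (fs (P.un B x))).sum + (l.map (fs (P.un B x))).length + P.z * B ≤
      P.N * (P.G * B) + 30 := by omega
  have h8 : (((l.map (fs (P.un B x))).sum : ℕ) : ℝ) + (l.map (fs (P.un B x))).length +
      (P.z * B : ℕ) ≤ (P.N * (P.G * B) : ℕ) + 30 := by exact_mod_cast h7
  have h9 := hq l.prod (Nat.pos_of_ne_zero h1) (by nlinarith)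
  rw [div_right_comm, le_div_iff₀ hb]
  refine le_trans ?_ h9
  simp only [sum_mul]
  rw [sum_comm]
  refine sum_le_sum fun p _ => ?_
  by_cases hp : p.Prime
  swap
  · simp [hp]
  simp only [hp, true_and, if_true, ite_mul, zero_mul, sum_ite_eq]
  have hg := gk_nonneg x T (l.prod * p)
  split_ifs
  · have := lossV_le_fs hb hp (le_refl (fs (P.un B x) p))
    nlinarith
  · exact mul_nonneg (Real.log_natCast_nonneg p) hg

theorem sum_loss {P : Par} (hP : P.Fit) {lam : List ℕ → ℕ → ℝ} (hC : Cert2 P lam) (A : ℕ) {B δ : ℕ}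
    (hB : 100 ≤ B) (hδ : δ ≤ B) : ∀ᶠ x : ℕ in atTop, ∀ T : ℝ, 1 ≤ T → T ≤ Real.log x ^ A →
    SF x T (LossF P lam B δ (P.un B x)) ≤ 9985 / 10000 / Real.log (2 * x) := by
  have hB0 : 0 < B := by omega
  obtain ⟨Ψ, h0, hD, hΨ⟩ := exists_Psi hP lam hB0 δ
  have hlim : ∀ᶠ x : ℕ in atTop, 100 ≤ Real.log x :=
    (Real.tendsto_log_atTop.comp tendsto_natCast_atTop_atTop).eventually_ge_atTop 100
  filter_upwards [mass_mu hP hB0 (κ := 1 + 1 / 100000) (by norm_num),
    prime_gkB A (ε := 1 / 10000) (by norm_num), hlim, eventually_ge_atTop 1]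
    with x hμ hpr hL hx T hT1 hT2
  have hx' : (1 : ℝ) ≤ x := by exact_mod_cast hx
  have hlog : 0 < Real.log (2 * x) := Real.log_pos (by linarith)
  have hG := Gam_nonneg x T
  have hM : 5000 ≤ P.N * (P.G * B) := by
    have h1 : 100 ≤ P.G * B := hB.trans (Nat.le_mul_of_pos_left B hP.G0)
    exact Nat.mul_le_mul hP.N0 h1
  have hM' : (5000 : ℝ) ≤ (P.N * (P.G * B) : ℕ) := by exact_mod_cast hM
  have hz : P.N * (P.G * B) ≤ 32 * (P.z * B) := by
    rw [← mul_assoc, ← mul_assoc]; exact Nat.mul_le_mul_right _ hP.z1.le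
  have hz' : ((P.N * (P.G * B) : ℕ) : ℝ) ≤ 32 * (P.z * B : ℕ) := by exact_mod_cast hz
  have hb : 0 < P.un B x := div_pos hlog (by linarith)
  have hbM : P.un B x * (P.N * (P.G * B) : ℕ) = Real.log (2 * x) :=
    div_mul_cancel₀ _ (by linarith : (0 : ℝ) < (P.N * (P.G * B) : ℕ)).ne'
  have h2x : Real.log (2 * x) ≤ Real.log x + 1 := by
    rw [Real.log_mul (by norm_num) (by linarith)]
    linarith [Real.log_two_lt_d9]
  have h1 := loss_le_tot (lam := lam) (T := T) (C := (1 + 1 / 10000) * Gam x T) hP hB0 hx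
    (by positivity) h0 hD hΨ fun q hq hq' => by
      have hq0 : (0 : ℝ) < q := by exact_mod_cast hq
      have h3 : Real.log q ≤ 99 / 100 * Real.log x := by nlinarith
      have h4 := hpr T hT1 hT2 q hq ((Real.le_rpow_iff_log_le hq0 (by linarith)).2 h3)
      have h5 := (abs_le.1 h4).2
      rw [mul_div_assoc]
      linarith
  have h2 := hC.loss B δ _ _ Ψ hB0 hδ (by norm_num) hμ hD
  have h3 : (1 + 1 / 10000 : ℝ) * ((1 + 1 / 100000) ^ 30 * (998 / 1000)) ≤ 9985 / 10000 := by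
    norm_num
  unfold SF
  refine div_le_of_le_mul₀ hG (by positivity) (h1.trans ?_)
  calc (1 + 1 / 10000) * Gam x T / Real.log (2 * x) * tot (P.N * (P.G * B)) (muA P B x) Ψ 31 []
      ≤ (1 + 1 / 10000) * Gam x T / Real.log (2 * x) * ((1 + 1 / 100000) ^ 30 * (998 / 1000)) :=
        mul_le_mul_of_nonneg_left h2 (by positivity)
    _ = (1 + 1 / 10000) * ((1 + 1 / 100000) ^ 30 * (998 / 1000)) / Real.log (2 * x) * Gam x T := by
        ring
    _ ≤ _ := by gcongr

end Pool.Agent.Work.MP_82fd4a_nt.P
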