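import Pool.Agent.Work.MP_82fd4a_nt.P.Var

/-! The type I estimate with two variables in a wider range. -/

set_option autoImplicit false
open Finset Filter

namespace Pool.Agent.Work.MP_82fd4a_nt.P

lemma Var_num2 {P T B F l u G J N : ℝ} (hT : 0 < T) (hB : 1 ≤ B) (hl : 1 ≤ l) (hu : 13 * l ≤ u)
    (hN0 : 0 ≤ N) (hN : B * N ≤ 3 * (P * T)) (a3 : B ^ 2 / T * (F ^ 2 * u ^ 20) ≤ P * P)
    (h1 : B * u ^ 20 ≤ P)
    (h2 : B * (F ^ 2 * u ^ 20) ≤ P * P) (h3 : T * u ^ 20 ≤ P) (g1 : P ≤ 8 * G) (g2 : G ≤ 5 * P)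
    (hJ : P ≤ 2 * J * (B * u ^ 6)) :
    (N + F ^ 2 * l) * (u ^ 2 * l ^ 3 * J) * ((4 * B * G / (P * T) + 2) * (G + 2 * B)) ≤
      (J * G / u ^ 4) ^ 2 := by
  have hu0 : 0 < u := by linarith
  have hB0 : 0 < B := by linarith
  have hl0 : 0 < l := by linarith
  have hU : 1 ≤ u ^ 20 := one_le_pow₀ (by linarith)
  have hP : 0 < P := lt_of_lt_of_le (by positivity) h1
  have hG : 0 < G := by linarith
  have hJ0 : 0 < J := by
    have h4 := (mul_pos_iff_of_pos_right (by positivity : 0 < B * u ^ 6)).1 (hP.trans_le hJ)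
    linarith
  have hBP : B ≤ P := (le_mul_of_one_le_right hB0.le hU).trans h1
  have a1 : 4 * B * G / (P * T) ≤ 20 * B / T := by
    calc _ ≤ 4 * B * (5 * P) / (P * T) := by gcongr
      _ = _ := by field_simp; ring
  have a2 : B * N / T ≤ 3 * P := (div_le_iff₀ hT).2 (by linarith)
  have a4 : (N + F ^ 2 * l) * (20 * B / T + 2) * (B * u ^ 20) ≤ 88 * l * (P * P) := by
    calc _ = 20 * (B * N / T) * (B * u ^ 20) + 2 * (B * N / T) * (T * u ^ 20) +
          20 * l * (B ^ 2 / T * (F ^ 2 * u ^ 20)) + 2 * l * (B * (F ^ 2 * u ^ 20)) := by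
          field_simp; ring
      _ ≤ 20 * (3 * P) * P + 2 * (3 * P) * P + 20 * l * (P * P) + 2 * l * (P * P) := by gcongr
      _ = 66 * 1 * (P * P) + 22 * l * (P * P) := by ring
      _ ≤ 66 * l * (P * P) + 22 * l * (P * P) := by gcongr
      _ = _ := by ring
  refine le_of_mul_le_mul_right ?_ (by positivity : 0 < B * u ^ 20)
  calc _ ≤ (N + F ^ 2 * l) * (u ^ 2 * l ^ 3 * J) * ((20 * B / T + 2) * (17 * G)) * (B * u ^ 20) := by
        have : G + 2 * B ≤ 17 * G := by linarith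
        gcongr
    _ = (N + F ^ 2 * l) * (20 * B / T + 2) * (B * u ^ 20) * (17 * G * u ^ 2 * l ^ 3 * J) := by ring
    _ ≤ 88 * l * (8 * G * (2 * J * (B * u ^ 6))) * (17 * G * u ^ 2 * l ^ 3 * J) := by
        refine mul_le_mul_of_nonneg_right (a4.trans ?_) (by positivity)
        gcongr
    _ = 23936 * l ^ 4 * (G ^ 2 * J ^ 2 * B * u ^ 8) := by ring
    _ ≤ (13 * l) ^ 4 * (G ^ 2 * J ^ 2 * B * u ^ 8) := by
        rw [mul_pow]
        gcongr
        norm_num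
    _ ≤ u ^ 4 * (G ^ 2 * J ^ 2 * B * u ^ 8) := by gcongr
    _ = _ := by field_simp

theorem typeI4 {θ c : ℝ} (hθ : 1 / 2 < θ) (hθ1 : θ ≤ 1) (hc : 0 < c) (hc1 : c ≤ θ - 1 / 2) :
    ∃ e : ℝ, 0 < e ∧ ∀ᶠ x : ℕ in atTop, ∀ (α β : ℕ → ℝ) (A Bs : Finset ℕ),
    (∀ a ∈ A, 1 ≤ a ∧ (a : ℝ) ≤ x) → (∀ n ∈ A, |α n| ≤ (x : ℝ) ^ e) →
    (∀ b ∈ Bs, 1 ≤ b ∧ (b : ℝ) ≤ (x : ℝ) ^ (1 / 2 + c / 2)) → (∀ n ∈ Bs, |β n| ≤ (x : ℝ) ^ e) →
    (∀ a ∈ A, ∀ b ∈ Bs, (a : ℝ) * b ≤ (x : ℝ) ^ ((1 + θ) / 2 - c / 2) ∧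
      (a : ℝ) ^ 2 * b ≤ (x : ℝ) ^ (2 * θ - c / 2)) →
    ∀ T : ℝ, Real.log x ^ 2 ≤ T → T ≤ (x : ℝ) ^ (1 - θ) →
    |∑ b ∈ Bs, ∑ a ∈ A, β b * α a * (sG x T (b * a) - Gam x T / (b * a))|
      ≤ Gam x T * (x : ℝ) ^ (-e) := by
  set e : ℝ := c / 40 with he
  have e0 : 0 < e := by positivity
  have hl : Tendsto (fun x : ℕ => Real.log x) atTop atTop :=
    Real.tendsto_log_atTop.comp tendsto_natCast_atTop_atTop
  refine ⟨e, e0, ?_⟩
  filter_upwards [Var_ev e0, hl.eventually_ge_atTop 5, eventually_ge_atTop 1]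
    with x ⟨hu, hτ⟩ hL hxn α β A Bs hA hα hBs hβ' hAB T hT hTx
  set X := ⌊(x : ℝ) ^ (1 / 2 + c / 2)⌋₊ with hXdef
  set L := Real.log x with hLdef
  have hx1 : (1 : ℝ) ≤ x := by exact_mod_cast hxn
  have hx0 : (0 : ℝ) < x := by linarith
  have hXx : (X : ℝ) ≤ (x : ℝ) ^ (1 / 2 + c / 2) := Nat.floor_le (by positivity)
  have hX : 1 ≤ X := Nat.le_floor (by
    rw [Nat.cast_one]; exact Real.one_le_rpow hx1 (by linarith))
  have hBX : Bs ⊆ Icc 1 X := fun b hb => mem_Icc.2 ⟨(hBs b hb).1, Nat.le_floor (hBs b hb).2⟩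
  have hT1 : 1 ≤ T := by nlinarith
  have hT0 : 0 < T := by linarith
  have hpow : ∀ {s t : ℝ}, s ≤ t → (x : ℝ) ^ s ≤ (x : ℝ) ^ t := fun h =>
    Real.rpow_le_rpow_of_exponent_le hx1 h
  have hTle : T ≤ x := hTx.trans ((hpow (by linarith)).trans_eq (Real.rpow_one _))
  rcases A.eq_empty_or_nonempty with rfl | hne
  · simp only [sum_empty, sum_const_zero, abs_zero]
    exact mul_nonneg (sum_nonneg fun _ _ => gk_nonneg _ _ _) (by positivity)
  obtain ⟨F, hFA, hF⟩ := A.exists_max_image id hne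
  have hAF : A ⊆ Icc 1 F := fun a ha => mem_Icc.2 ⟨(hA a ha).1, hF a ha⟩
  have hFL : Real.log F ≤ L := Real.log_le_log (by exact_mod_cast (hA F hFA).1) (hA F hFA).2
  have hFL0 : 0 ≤ Real.log F := Real.log_natCast_nonneg F
  set P : ℝ := x / T with hP
  have hPT : (x : ℝ) = P * T := (div_mul_cancel₀ _ hT0.ne').symm
  have hPx : P ≤ x := div_le_self hx0.le hT1
  have key : ∀ {y s : ℝ}, y ≤ (x : ℝ) ^ s → s + 20 * e ≤ θ → y * ((x : ℝ) ^ e) ^ 20 ≤ P := by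
    intro y s h1 h2
    rw [hP, le_div_iff₀ hT0, ← Real.rpow_natCast, ← Real.rpow_mul hx0.le]
    calc _ ≤ (x : ℝ) ^ s * (x : ℝ) ^ (e * (20 : ℕ)) * (x : ℝ) ^ (1 - θ) := by gcongr
      _ = (x : ℝ) ^ (s + e * (20 : ℕ) + (1 - θ)) := by
        rw [Real.rpow_add hx0, Real.rpow_add hx0]
      _ ≤ _ := (hpow (by push_cast; linarith)).trans_eq (Real.rpow_one _)
  have hXx1 : (X : ℝ) ≤ x := hXx.trans ((hpow (by linarith)).trans_eq (Real.rpow_one _))
  have k1 := key hXx (by linarith)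
  have hPP : P * P = x ^ 2 / T ^ 2 := by rw [hP]; field_simp
  have k4 : ∀ b ∈ Bs, (b : ℝ) ^ 2 / T * ((F : ℝ) ^ 2 * ((x : ℝ) ^ e) ^ 20) ≤ P * P := by
    intro b hb
    have b0 := (hAB F hFA b hb).1
    have b1 : ((F : ℝ) * b) ^ 2 * ((x : ℝ) ^ e) ^ 20 * T ≤ x ^ 2 := by
      calc _ ≤ ((x : ℝ) ^ ((1 + θ) / 2 - c / 2)) ^ 2 * ((x : ℝ) ^ e) ^ 20 * (x : ℝ) ^ (1 - θ) := by
            gcongr
        _ = (x : ℝ) ^ (((1 + θ) / 2 - c / 2) * (2 : ℕ) + e * (20 : ℕ) + (1 - θ)) := by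
          simp only [Real.rpow_add hx0 _ (1 - θ), Real.rpow_add hx0 _ (e * _),
            Real.rpow_mul hx0.le, Real.rpow_natCast]
        _ ≤ (x : ℝ) ^ ((2 : ℕ) : ℝ) := hpow (by push_cast; linarith)
        _ = _ := Real.rpow_natCast _ _
    calc _ = ((F : ℝ) * b) ^ 2 * ((x : ℝ) ^ e) ^ 20 * T / T ^ 2 := by field_simp
      _ ≤ x ^ 2 / T ^ 2 := by gcongr
      _ = _ := hPP.symm
  have k2 : ∀ b ∈ Bs, (b : ℝ) * ((F : ℝ) ^ 2 * ((x : ℝ) ^ e) ^ 20) ≤ P * P := by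
    intro b hb
    have b0 := (hAB F hFA b hb).2
    rw [hPP, le_div_iff₀ (by positivity)]
    calc _ = (F : ℝ) ^ 2 * b * ((x : ℝ) ^ e) ^ 20 * T ^ 2 := by ring
      _ ≤ (x : ℝ) ^ (2 * θ - c / 2) * ((x : ℝ) ^ e) ^ 20 * ((x : ℝ) ^ (1 - θ)) ^ 2 := by gcongr
      _ = (x : ℝ) ^ (2 * θ - c / 2 + e * (20 : ℕ) + (1 - θ) * (2 : ℕ)) := by
          simp only [Real.rpow_add hx0 _ ((1 - θ) * _), Real.rpow_add hx0 _ (e * _),
            Real.rpow_mul hx0.le, Real.rpow_natCast]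
      _ ≤ (x : ℝ) ^ ((2 : ℕ) : ℝ) := hpow (by push_cast; linarith)
      _ = _ := Real.rpow_natCast _ _
  have k3 := key hTx (by linarith)
  rw [Real.rpow_neg hx0.le]
  generalize (x : ℝ) ^ e = u at *
  have hu1 : 200 ≤ u := by linarith
  have hu0 : 0 < u := by linarith
  have hΓ1 : P ≤ 8 * Gam x T := by
    have h := Gam_ge hT1 hTle
    rw [mul_comm, ← div_div, div_le_iff₀ (by norm_num)] at h
    linarith
  have hΓ2 : Gam x T ≤ 5 * P := (Gam_le hT0 hTle).trans_eq (mul_div_assoc _ _ _)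
  have hP0 : 0 < P := by positivity
  have hΓ0 : 0 < Gam x T := by linarith
  have hH : ∑ a ∈ A, 1 / (a : ℝ) ≤ u / 2 := by
    have h1 : ∑ a ∈ A, 1 / (a : ℝ) ≤ Lib.LargeSieve.HH F :=
      sum_le_sum_of_subset_of_nonneg hAF fun _ _ _ => by positivity
    linarith [Lib.LargeSieve.HH_le F]
  rw [nti_split x T α β A _ (fun a ha => (hA a ha).1) fun b hb => (hBs b hb).1]
  have s2 : |(∑ a ∈ A, α a * (1 / a)) * ∑ b ∈ Bs, β b * (sG x T b - Gam x T / b)| ≤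
      Gam x T * u⁻¹ / 2 := by
    have h1 : |∑ a ∈ A, α a * (1 / a)| ≤ u * (u / 2) := by
      refine (abs_sum_le_sum_abs _ _).trans (le_trans ?_ (mul_le_mul_of_nonneg_left hH hu0.le))
      rw [mul_sum]
      refine sum_le_sum fun a ha => ?_
      rw [abs_mul, abs_of_nonneg (by positivity : 0 ≤ 1 / (a : ℝ))]
      have := hα a ha
      gcongr
    have h2 : |∑ b ∈ Bs, β b * (sG x T b - Gam x T / b)| ≤ X * (u * 2) := by
      refine (abs_sum_le_sum_abs _ _).trans ((sum_le_card_nsmul _ _ (u * 2) fun b hb => ?_).trans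
        (by
          have h5 : (#Bs : ℝ) ≤ X := by
            exact_mod_cast (card_le_card hBX).trans (by simp)
          rw [nsmul_eq_mul]
          gcongr))
      rw [abs_mul]
      have := hβ' b hb
      have : |sG x T b - Gam x T / b| ≤ 2 := sum_gk_mul x hT0.le (hBs b hb).1
      gcongr
    rw [abs_mul]
    refine (mul_le_mul h1 h2 (abs_nonneg _) (by positivity)).trans ?_
    rw [← div_eq_mul_inv, div_div, le_div_iff₀ (by positivity)]
    have h3 : (16 : ℝ) ≤ u ^ 16 := by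
      calc (16 : ℝ) ≤ u ^ 1 := by linarith
        _ ≤ _ := pow_le_pow_right₀ (by linarith) (by norm_num)
    have h4 : 16 * (X * u ^ 4) ≤ u ^ 16 * (X * u ^ 4) := by gcongr
    calc _ = 16 * (X * u ^ 4) / 8 := by ring
      _ ≤ X * u ^ 20 / 8 := by linarith
      _ ≤ _ := by linarith
  have win : ∀ i ∈ range (Nat.log 2 X + 1), |∑ b ∈ Bs with Nat.log 2 b = i,
      ∑ k ∈ Icc 1 (2 * x), β b * (∑ a ∈ A, α a * fa a k) * gk x T (b * k)| ≤
        33 * Gam x T / u ^ 3 := by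
    intro i hi
    rcases (Bs.filter fun b => Nat.log 2 b = i).eq_empty_or_nonempty with h0 | ⟨b₀, hb₀⟩
    · rw [h0, sum_empty, abs_zero]
      positivity
    obtain ⟨hb₁, hb₂⟩ := mem_filter.1 hb₀
    have hb₃ : ((2 ^ i : ℕ) : ℝ) ≤ b₀ := by
      rw [← hb₂]
      exact_mod_cast Nat.pow_log_le_self 2 (by have := (hBs b₀ hb₁).1; omega)
    set B : ℕ := 2 ^ i with hB
    have hB0 : 0 < B := by positivity
    have hBX2 : B ≤ X := Nat.pow_le_of_le_log (by omega) (by have := mem_range.1 hi; omega)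
    have hB1 : (1 : ℝ) ≤ B := by exact_mod_cast hB0
    have hBX' : (B : ℝ) ≤ X := by exact_mod_cast hBX2
    have hBx : (B : ℝ) ^ 2 / T * ((F : ℝ) ^ 2 * u ^ 20) ≤ P * P :=
      le_trans (by gcongr) (k4 b₀ hb₁)
    have hBy : (B : ℝ) * ((F : ℝ) ^ 2 * u ^ 20) ≤ P * P := le_trans (by gcongr) (k2 b₀ hb₁)
    have hBx1 : (B : ℝ) ≤ x := hBX'.trans hXx1
    have hBP : B * u ^ 20 ≤ P := le_trans (by gcongr) k1
    have hq : 1 ≤ P / (B * u ^ 6) := by
      rw [one_le_div (by positivity)]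
      exact le_trans (mul_le_mul_of_nonneg_left
        (pow_le_pow_right₀ (by linarith) (by norm_num)) (by linarith)) hBP
    set J := ⌊P / (B * u ^ 6)⌋₊ with hJ
    have hJ1 : (1 : ℝ) ≤ J := by exact_mod_cast Nat.le_floor (by exact_mod_cast hq)
    have hJ2 : J * (B * u ^ 6) ≤ P := (le_div_iff₀ (by positivity)).1 (Nat.floor_le (by positivity))
    have hJ3 : P ≤ 2 * J * (B * u ^ 6) := by
      have := Nat.lt_floor_add_one (P / (B * u ^ 6))
      exact (div_le_iff₀ (by positivity)).1 (by linarith)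
    have hJx : J ≤ x := by
      have h1 : (1 : ℝ) ≤ B * u ^ 6 := one_le_mul_of_one_le_of_one_le hB1 (one_le_pow₀ (by linarith))
      have h2 := le_mul_of_one_le_right (by linarith : (0 : ℝ) ≤ J) h1
      exact_mod_cast h2.trans (hJ2.trans hPx)
    have hN : (B : ℝ) * ((2 * x / B + 1 : ℕ) : ℝ) ≤ 3 * (P * T) := by
      have h1 : (B : ℝ) * (2 * x / B : ℕ) ≤ 2 * x := by exact_mod_cast Nat.mul_div_le (2 * x) B
      rw [Nat.cast_succ, ← hPT]
      linarith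
    have hw := Var_window (J := J) hB0 (by exact_mod_cast hBx1) hT0.le
      (Bs.filter fun b => Nat.log 2 b = i) (fun b hb => by
        obtain ⟨b1, b2⟩ := mem_filter.1 hb
        have b3 : b ≠ 0 := by have := (hBs b b1).1; omega
        rw [hB, ← b2, ← pow_succ']
        exact ⟨Nat.pow_log_le_self 2 b3, Nat.lt_pow_succ_log_self one_lt_two b⟩)
      β (fun k => ∑ a ∈ A, α a * fa a k) hu0.le (M := u * u) (by positivity)
      (fun b hb => hβ' b (mem_filter.1 hb).1)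
      (fun k h1 h2 => (Var_coef A α hu0.le hα h1).trans (mul_le_mul_of_nonneg_left
        (by linarith [hτ k (by omega)]) hu0.le))
      (V := (((2 * x / B + 1 : ℕ) : ℝ) + (F : ℝ) ^ 2 * (1 + 2 * L)) * (u ^ 2 * (1 + 2 * L) ^ 3 * J))
      ((var_window A hAF α hα _ J).trans (by gcongr; linarith))
      (R := J * Gam x T / u ^ 4) (by positivity)
      (by
        rw [show 4 * B * Gam x T / (x : ℝ) = 4 * B * Gam x T / (P * T) by rw [← hPT]]
        exact Var_num2 hT0 hB1 (by linarith) (by linarith) (by positivity) hN hBx hBP hBy k3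
          hΓ1 hΓ2 hJ3)
    refine le_of_mul_le_mul_left (hw.trans ?_) (by linarith : (0 : ℝ) < J)
    calc _ = J * ((Gam x T + 4 * (J * (B * u ^ 6))) / u ^ 3) := by field_simp
      _ ≤ J * ((Gam x T + 4 * (8 * Gam x T)) / u ^ 3) := by
        have := hJ2.trans hΓ1
        gcongr
      _ = _ := by ring
  have s1 : |∑ b ∈ Bs, ∑ k ∈ Icc 1 (2 * x),
      β b * (∑ a ∈ A, α a * fa a k) * gk x T (b * k)| ≤ Gam x T * u⁻¹ / 2 := by
    rw [← sum_fiberwise_of_maps_to (t := range (Nat.log 2 X + 1)) (g := Nat.log 2)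
      fun b hb => mem_range.2 (Nat.lt_succ_of_le (Nat.log_mono_right (mem_Icc.1 (hBX hb)).2))]
    refine (abs_sum_le_sum_abs _ _).trans ((sum_le_card_nsmul _ _ _ win).trans ?_)
    rw [card_range, nsmul_eq_mul]
    have h1 : ((Nat.log 2 X + 1 : ℕ) : ℝ) ≤ 2 * L := by
      have h2 : (2 : ℝ) ^ Nat.log 2 X ≤ X := by
        exact_mod_cast Nat.pow_log_le_self 2 (by omega : X ≠ 0)
      have h3 := Real.log_le_log (by positivity) (h2.trans hXx1)
      rw [Real.log_pow, ← hLdef] at h3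
      have h4 := Real.log_two_gt_d9
      have h5 : (0 : ℝ) ≤ Nat.log 2 X := Nat.cast_nonneg _
      push_cast
      nlinarith
    have h2 : 132 * L ≤ u ^ 2 := by nlinarith
    calc _ ≤ 2 * L * (33 * Gam x T / u ^ 3) := by gcongr
      _ = 132 * L * (Gam x T / u ^ 3 / 2) := by ring
      _ ≤ u ^ 2 * (Gam x T / u ^ 3 / 2) := by gcongr
      _ = _ := by field_simp
  refine (abs_add_le _ _).trans ?_
  linarith

end Pool.Agent.Work.MP_82fd4a_nt.P
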