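import Pool.Agent.Work.MP_82fd4a_nt.P.SDefs
import Pool.Agent.Work.MP_82fd4a_nt.P.Var2
import Pool.Agent.Work.MP_82fd4a_nt.NSumI
import Pool.Agent.Work.MP_82fd4a_nt.SumI

/-! The linear part.

Plan. This is `Y.sum_Phi3` without the steering primes (`n2_expand` with `q = 1`, `si_sieve`, `ns_group` with
`ι = Unit`, `ns_pair_mass`, `si_inv_rough`, `fund_lemma` with `s = (c / 2) / η`), with `P.typeI4` (for `c / 2`)
applied to each pair of types: `Bs = Dt t'`, `β = 1`, `α a = ∑ d₁ e = a, φ e`, `|α a| ≤ 2 tau a`. -/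

set_option autoImplicit false
open Finset Filter

namespace Pool.Agent.Work.MP_82fd4a_nt.P

lemma SSumI_coef (D E : Finset ℕ) (φ : ℕ → ℝ) (hφ : ∀ e, |φ e| ≤ 2) {a : ℕ} (ha : a ≠ 0) :
    |∑ q ∈ D ×ˢ E with q.1 * q.2 = a, φ q.2| ≤ 2 * (#a.divisors : ℝ) := by
  refine (abs_sum_le_sum_abs _ _).trans ((sum_le_card_nsmul _ _ 2 fun q _ => hφ _).trans ?_)
  rw [nsmul_eq_mul, mul_comm, ← card_map ⟨fun d => (d, a / d), fun _ _ => congr_arg Prod.fst⟩,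
    Nat.map_div_right_divisors]
  exact mul_le_mul_of_nonneg_left (Nat.cast_le.2 (card_le_card fun q hq =>
    Nat.mem_divisorsAntidiagonal.2 ⟨(mem_filter.1 hq).2, ha⟩)) zero_le_two

lemma SSumI_typeI {θ c ε : ℝ} (hθ : 1 / 2 < θ) (hθ1 : θ ≤ 1) (hc : 0 < c) (hc1 : c ≤ θ - 1 / 2)
    (hε : 0 < ε) :
    ∀ᶠ x : ℕ in atTop, ∀ (D₁ D₂ E : Finset ℕ) (φ : ℕ → ℝ),
    (∀ d ∈ D₁, 1 ≤ d ∧ (d : ℝ) ≤ (x : ℝ) ^ (1 / 2 : ℝ)) →
    (∀ d ∈ D₂, 1 ≤ d ∧ (d : ℝ) ≤ (x : ℝ) ^ (1 / 2 : ℝ)) →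
    (∀ d₁ ∈ D₁, ∀ d₂ ∈ D₂, (d₁ : ℝ) * d₂ ≤ (x : ℝ) ^ ((1 + θ) / 2 - c) ∧
      (d₁ : ℝ) ^ 2 * d₂ ≤ (x : ℝ) ^ (2 * θ - 2 * c)) →
    (∀ e ∈ E, 1 ≤ e ∧ (e : ℝ) ≤ (x : ℝ) ^ (c / 2)) → (∀ e, |φ e| ≤ 2) →
    ∀ T : ℝ, Real.log x ^ 2 ≤ T → T ≤ (x : ℝ) ^ (1 - θ) →
    |∑ d₁ ∈ D₁, ∑ d₂ ∈ D₂, ∑ e ∈ E, φ e * (sG x T (d₁ * d₂ * e) - Gam x T / ((d₁ * d₂ * e : ℕ) : ℝ))|
      ≤ ε / Real.log x * Gam x T := by
  obtain ⟨e₀, he, h0⟩ := typeI4 hθ hθ1 (half_pos hc) (by linarith)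
  filter_upwards [h0, Var_ev he, Var_ev (half_pos he), su_ev (1 / ε) (half_pos he),
    eventually_ge_atTop 2] with x hx h1 h2 h3 hx1 D₁ D₂ E φ hD₁ hD₂ hD hE hφ T hT hT'
  have hx1' : (1 : ℝ) < x := by exact_mod_cast hx1
  have hx0 : (0 : ℝ) < x := by linarith
  have hL := Real.log_pos hx1'
  have hA : ∀ a : ℕ, a ∈ (D₁ ×ˢ E).image (fun q => q.1 * q.2) →
      1 ≤ a ∧ (a : ℝ) ≤ x := fun a ha => by
    obtain ⟨q, hq, rfl⟩ := mem_image.1 ha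
    obtain ⟨a1, a2⟩ := hD₁ _ (mem_product.1 hq).1
    obtain ⟨a3, a4⟩ := hE _ (mem_product.1 hq).2
    refine ⟨Nat.mul_pos a1 a3, ?_⟩
    refine le_trans ?_ ((Real.rpow_le_rpow_of_exponent_le hx1'.le
      (show 1 / 2 + c / 2 ≤ 1 by linarith)).trans_eq (Real.rpow_one _))
    rw [Real.rpow_add hx0, Nat.cast_mul]
    gcongr
  have key := hx (fun a => ∑ q ∈ D₁ ×ˢ E with q.1 * q.2 = a, φ q.2) (fun _ => 1) _ D₂ hA
    (fun a ha => (SSumI_coef D₁ E φ hφ (by have := (hA a ha).1; omega)).trans (h1.2 a (by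
      have : a ≤ x := by exact_mod_cast (hA a ha).2
      omega)))
    (fun d hd => ⟨(hD₂ d hd).1,
      (hD₂ d hd).2.trans (Real.rpow_le_rpow_of_exponent_le hx1'.le (by linarith))⟩)
    (fun b _ => abs_one.trans_le (Real.one_le_rpow hx1'.le he.le)) (fun a ha b hb => by
      obtain ⟨q, hq, rfl⟩ := mem_image.1 ha
      obtain ⟨a1, a2⟩ := hD _ (mem_product.1 hq).1 b hb
      have a4 := (hE _ (mem_product.1 hq).2).2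
      rw [Nat.cast_mul]
      constructor
      · refine le_trans ?_ (Real.rpow_le_rpow_of_exponent_le hx1'.le
          (show (1 + θ) / 2 - c + c / 2 ≤ _ by linarith))
        rw [Real.rpow_add hx0, mul_right_comm]
        gcongr
      · refine le_trans ?_ (Real.rpow_le_rpow_of_exponent_le hx1'.le
          (show 2 * θ - 2 * c + c / 2 * (2 : ℕ) ≤ _ by push_cast; linarith))
        rw [Real.rpow_add hx0, Real.rpow_mul hx0.le (c / 2), Real.rpow_natCast, mul_pow,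
          mul_right_comm]
        gcongr) T hT hT'
  simp only [one_mul, ← Nat.cast_mul] at key
  rw [sum_congr rfl fun b _ => (si_regroup (D₁ ×ˢ E) (fun q => q.1 * q.2) (fun q => φ q.2)
    fun a => sG x T (b * a) - Gam x T / ((b * a : ℕ) : ℝ)).symm] at key
  simp only [sum_product] at key
  rw [sum_comm] at key
  simp only [fun a b c : ℕ => show a * (b * c) = b * a * c by ring] at key
  refine key.trans ?_
  rw [mul_comm]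
  refine mul_le_mul_of_nonneg_right ?_ (Gam_nonneg x T)
  rw [Real.rpow_neg hx0.le, inv_le_comm₀ (by positivity) (by positivity), inv_div,
    ← add_halves e₀, Real.rpow_add hx0, div_eq_mul_one_div]
  exact mul_le_mul (by linarith [h2.1]) h3 (by positivity) (by positivity)

/-- one value of the parameter: the normalised sum is close to a main term -/
lemma SSumI_one (x : ℕ) (T z b : ℝ) (E : Finset ℕ) (lam : Multiset ℕ → Multiset ℕ → ℝ)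
    (ls err : ℕ → ℝ) {δ B₁ B₂ : ℝ} (hG : 0 < Gam x T) (hE : ∀ e ∈ E, 1 ≤ e)
    (h : ∀ n : ℕ, 1 ≤ n → |rf z n - ∑ e ∈ E with e ∣ n, ls e| ≤ ∑ e ∈ E with e ∣ n, err e)
    (h1 : |∑ d₁ ∈ (Icc 1 (2 * x)).filter (Rough z), ∑ d₂ ∈ (Icc 1 (2 * x)).filter (Rough z),
      lam (ty b d₁) (ty b d₂) * ∑ e ∈ E, ls e *
        (sG x T (d₁ * d₂ * e) - Gam x T / ((d₁ * d₂ * e : ℕ) : ℝ))| ≤ δ * Gam x T)
    (h2 : |∑ d₁ ∈ (Icc 1 (2 * x)).filter (Rough z), ∑ d₂ ∈ (Icc 1 (2 * x)).filter (Rough z),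
      |lam (ty b d₁) (ty b d₂)| * ∑ e ∈ E, err e *
        (sG x T (d₁ * d₂ * e) - Gam x T / ((d₁ * d₂ * e : ℕ) : ℝ))| ≤ δ * Gam x T)
    (hB₁ : ∑ d₁ ∈ (Icc 1 (2 * x)).filter (Rough z), ∑ d₂ ∈ (Icc 1 (2 * x)).filter (Rough z),
      |lam (ty b d₁) (ty b d₂)| * (1 / ((d₁ : ℝ) * d₂)) ≤ B₁)
    (hB₂ : ∑ e ∈ E, err e / e ≤ B₂) (hB : 0 ≤ B₂) :
    |SF x T (fun n => rf z n * Phi2 b lam n)
      - ∑ d₁ ∈ (Icc 1 (2 * x)).filter (Rough z), ∑ d₂ ∈ (Icc 1 (2 * x)).filter (Rough z),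
        lam (ty b d₁) (ty b d₂) * ∑ e ∈ E, ls e * (1 / ((d₁ * d₂ * e : ℕ) : ℝ))|
      ≤ B₁ * B₂ + 2 * δ := by
  set D := (Icc 1 (2 * x)).filter (Rough z) with hD
  have hD1 : ∀ d ∈ D, 0 < d := fun d hd => (mem_Icc.1 (mem_filter.1 hd).1).1
  have e1 := n2_expand x T z b lam one_pos
  simp only [one_mul] at e1
  have e2 : |∑ n ∈ Icc 1 (2 * x), rf z n * Phi2 b lam n * gk x T n
      - ∑ d₁ ∈ D, ∑ d₂ ∈ D, lam (ty b d₁) (ty b d₂) * ∑ e ∈ E, ls e * sG x T (d₁ * d₂ * e)|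
      ≤ ∑ d₁ ∈ D, ∑ d₂ ∈ D, |lam (ty b d₁) (ty b d₂)| * ∑ e ∈ E, err e * sG x T (d₁ * d₂ * e) := by
    rw [e1, ← sum_sub_distrib]
    refine (abs_sum_le_sum_abs _ _).trans (sum_le_sum fun d₁ h₁ => ?_)
    rw [← sum_sub_distrib]
    refine (abs_sum_le_sum_abs _ _).trans (sum_le_sum fun d₂ h₂ => ?_)
    rw [← mul_sub, abs_mul]
    exact mul_le_mul_of_nonneg_left
      (si_sieve x T z (Nat.mul_pos (hD1 _ h₁) (hD1 _ h₂)) E hE ls err h) (abs_nonneg _)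
  have split : ∀ (g : ℕ → ℕ → ℝ) (φ : ℕ → ℝ), ∑ d₁ ∈ D, ∑ d₂ ∈ D,
        g d₁ d₂ * ∑ e ∈ E, φ e * (sG x T (d₁ * d₂ * e) - Gam x T / ((d₁ * d₂ * e : ℕ) : ℝ))
      = ∑ d₁ ∈ D, ∑ d₂ ∈ D, g d₁ d₂ * ∑ e ∈ E, φ e * sG x T (d₁ * d₂ * e)
        - Gam x T * ∑ d₁ ∈ D, ∑ d₂ ∈ D, g d₁ d₂ * ∑ e ∈ E, φ e * (1 / ((d₁ * d₂ * e : ℕ) : ℝ)) := by
    intro g φ
    simp only [mul_sum, ← sum_sub_distrib]
    refine sum_congr rfl fun d₁ _ => sum_congr rfl fun d₂ _ => sum_congr rfl fun e _ => ?_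
    ring
  rw [split (fun d₁ d₂ => lam (ty b d₁) (ty b d₂))] at h1
  rw [split (fun d₁ d₂ => |lam (ty b d₁) (ty b d₂)|)] at h2
  have e3 : ∑ d₁ ∈ D, ∑ d₂ ∈ D, |lam (ty b d₁) (ty b d₂)| *
        ∑ e ∈ E, err e * (1 / ((d₁ * d₂ * e : ℕ) : ℝ))
      = (∑ d₁ ∈ D, ∑ d₂ ∈ D, |lam (ty b d₁) (ty b d₂)| * (1 / ((d₁ : ℝ) * d₂))) *
        ∑ e ∈ E, err e / e := by
    rw [sum_mul]
    refine sum_congr rfl fun d₁ _ => ?_
    rw [sum_mul]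
    refine sum_congr rfl fun d₂ _ => ?_
    simp only [mul_sum]
    refine sum_congr rfl fun e _ => ?_
    push_cast
    ring
  have hDn : 0 ≤ ∑ d₁ ∈ D, ∑ d₂ ∈ D, |lam (ty b d₁) (ty b d₂)| * (1 / ((d₁ : ℝ) * d₂)) :=
    sum_nonneg fun _ _ => sum_nonneg fun _ _ => by positivity
  have e4 := (mul_le_mul_of_nonneg_left hB₂ hDn).trans (mul_le_mul_of_nonneg_right hB₁ hB)
  rw [e3] at h2
  have e5 := mul_le_mul_of_nonneg_left e4 hG.le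
  rw [SF, div_sub' hG.ne', abs_div, abs_of_pos hG, div_le_iff₀ hG]
  rw [abs_le] at h1 h2 e2 ⊢
  constructor <;> nlinarith [h1.1, h1.2, h2.1, h2.2, e2.1, e2.2]

theorem sum_Phi {θ c ζ C₀ : ℝ} (hθ : 1 / 2 < θ) (hθ1 : θ ≤ 1) (hc : 0 < c)
    (hc1 : c ≤ θ - 1 / 2) (hζ : 0 < ζ) (hC : 0 < C₀) :
    ∃ η₀ : ℝ, 0 < η₀ ∧ ∀ η : ℝ, 0 < η → η ≤ η₀ → ∀ N : ℕ, ∀ᶠ x : ℕ in atTop,
    ∀ (b : ℝ) (lam : Multiset ℕ → Multiset ℕ → ℝ) (𝒯 : Finset (Multiset ℕ)), 𝒯.card ≤ N →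
    (∀ d ∈ Icc 1 (2 * x), Rough ((x : ℝ) ^ η) d → ty b d ∈ 𝒯) → (∀ t t', |lam t t'| ≤ C₀) →
    (∀ d : ℕ, ∑ d₁ ∈ d.divisors, |lam (ty b d₁) (ty b (d / d₁))| ≤ C₀) →
    (∀ d₁ ∈ Icc 1 (2 * x), ∀ d₂ ∈ Icc 1 (2 * x), Rough ((x : ℝ) ^ η) d₁ →
      Rough ((x : ℝ) ^ η) d₂ → lam (ty b d₁) (ty b d₂) ≠ 0 →
      (d₁ : ℝ) ≤ (x : ℝ) ^ (1 / 2 : ℝ) ∧ (d₂ : ℝ) ≤ (x : ℝ) ^ (1 / 2 : ℝ) ∧
      (d₁ : ℝ) * d₂ ≤ (x : ℝ) ^ ((1 + θ) / 2 - c) ∧ (d₁ : ℝ) ^ 2 * d₂ ≤ (x : ℝ) ^ (2 * θ - 2 * c)) →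
    ∀ T T' : ℝ, Real.log x ^ 2 ≤ T → T ≤ (x : ℝ) ^ (1 - θ) → Real.log x ^ 2 ≤ T' →
    T' ≤ (x : ℝ) ^ (1 - θ) →
    |SF x T (fun n => rf ((x : ℝ) ^ η) n * Phi2 b lam n)
      - SF x T' (fun n => rf ((x : ℝ) ^ η) n * Phi2 b lam n)| ≤ ζ / Real.log x := by
  obtain ⟨C, hC', hF⟩ := fund_lemma
  refine ⟨min (c / 20) (ζ * (c / 2) ^ 3 / (76 * C * C₀)), by positivity, fun η hη hη0 N => ?_⟩
  have hη1 : η ≤ c / 20 := hη0.trans (min_le_left _ _)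
  have hη2 : η ≤ ζ * (c / 2) ^ 3 / (76 * C * C₀) := hη0.trans (min_le_right _ _)
  have hs : 10 ≤ (c / 2) / η := by rw [le_div_iff₀ hη]; linarith
  have ht : Tendsto (fun x : ℕ => (x : ℝ) ^ η) atTop atTop :=
    (tendsto_rpow_atTop hη).comp tendsto_natCast_atTop_atTop
  have hl : Tendsto (fun x : ℕ => Real.log x) atTop atTop :=
    Real.tendsto_log_atTop.comp tendsto_natCast_atTop_atTop
  obtain ⟨ε, hε, hε2⟩ : ∃ ε : ℝ, 0 < ε ∧ 8 * ((N : ℝ) ^ 2 * C₀ * ε) ≤ ζ := by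
    refine ⟨ζ / (8 * ((N : ℝ) ^ 2 * C₀ + 1)), by positivity, ?_⟩
    have h1 : 8 * (((N : ℝ) ^ 2 * C₀ + 1) * (ζ / (8 * ((N : ℝ) ^ 2 * C₀ + 1)))) = ζ := by
      field_simp
    have h2 : 0 ≤ ζ / (8 * ((N : ℝ) ^ 2 * C₀ + 1)) := by positivity
    linarith
  filter_upwards [ht.eventually (hF _ hs), SSumI_typeI hθ hθ1 hc hc1 hε,
    si_inv_rough hη (by linarith), eventually_ge_atTop 1, hl.eventually_ge_atTop 1]
    with x hx hI hinv hx1 hL b lam 𝒯 hN h𝒯 hlam hlam2 hsize T T' hT1 hT2 hT1' hT2'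
  obtain ⟨E, ls, err, hE, hls, herr, hpt, hsum⟩ := hx
  have hx1' : (1 : ℝ) ≤ x := by exact_mod_cast hx1
  have hx0 : (0 : ℝ) < x := by linarith
  have hle : ∀ s : ℝ, s ≤ 1 → (x : ℝ) ^ s ≤ x := fun s h =>
    (Real.rpow_le_rpow_of_exponent_le hx1' h).trans_eq (Real.rpow_one _)
  have hlz : Real.log ((x : ℝ) ^ η) = η * Real.log x := Real.log_rpow hx0 η
  have hE' : ∀ e ∈ E, 1 ≤ e ∧ (e : ℝ) ≤ (x : ℝ) ^ (c / 2) := fun e he =>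
    ⟨(hE e he).1, (hE e he).2.trans_eq (by rw [← Real.rpow_mul hx0.le, mul_div_cancel₀ _ hη.ne'])⟩
  have hB₁ := (ns_pair_mass x ((x : ℝ) ^ η) b lam hlam2 fun d₁ h₁ d₂ h₂ h0 => by
      obtain ⟨-, -, c5, -⟩ := hsize d₁ (mem_filter.1 h₁).1 d₂ (mem_filter.1 h₂).1
        (mem_filter.1 h₁).2 (mem_filter.1 h₂).2 h0
      have c6 : d₁ * d₂ ≤ x := by exact_mod_cast c5.trans (hle _ (by linarith))
      omega).trans (mul_le_mul_of_nonneg_left (hinv _ fun d hd => by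
        obtain ⟨a1, a2⟩ := mem_filter.1 hd
        exact ⟨(mem_Icc.1 a1).1, (mem_Icc.1 a1).2, a2⟩) hC.le)
  have hgroup : ∀ U : ℝ, Real.log x ^ 2 ≤ U → U ≤ (x : ℝ) ^ (1 - θ) → 0 < Gam x U →
      ∀ (g : Multiset ℕ → Multiset ℕ → ℝ) (φ : ℕ → ℝ), (∀ t t', |g t t'| ≤ C₀) →
      (∀ t t', g t t' ≠ 0 → lam t t' ≠ 0) → (∀ f, |φ f| ≤ 2) →
      |∑ d₁ ∈ (Icc 1 (2 * x)).filter (Rough ((x : ℝ) ^ η)),
        ∑ d₂ ∈ (Icc 1 (2 * x)).filter (Rough ((x : ℝ) ^ η)), g (ty b d₁) (ty b d₂) *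
          ∑ e ∈ E, φ e * (sG x U (d₁ * d₂ * e) - Gam x U / ((d₁ * d₂ * e : ℕ) : ℝ))|
        ≤ (N : ℝ) ^ 2 * C₀ * ε / Real.log x * Gam x U := by
    intro U hU1 hU2 hG g φ hg hg0 hφ
    refine ((congrArg abs (sum_singleton _ ()).symm).trans_le (ns_group {()} x _ b 𝒯 h𝒯 g
      (fun _ d₁ d₂ => ∑ e ∈ E, φ e * (sG x U (d₁ * d₂ * e) - Gam x U / ((d₁ * d₂ * e : ℕ) : ℝ)))
      hN hg (B := ε / Real.log x * Gam x U) (by positivity) fun t t' h0 => ?_)).trans_eq (by ring)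
    rw [sum_singleton]
    rcases (Dt x ((x : ℝ) ^ η) b t).eq_empty_or_nonempty with h1 | ⟨u, hu⟩
    · simp only [h1, sum_empty, abs_zero]
      positivity
    rcases (Dt x ((x : ℝ) ^ η) b t').eq_empty_or_nonempty with h2 | ⟨v, hv⟩
    · simp only [h2, sum_empty, sum_const_zero, abs_zero]
      positivity
    refine hI _ _ E φ (fun d hd => ?_) (fun d hd => ?_) (fun d hd d' hd' => ?_) hE' hφ U hU1 hU2
    · obtain ⟨a1, a2, a3⟩ := mem_filter.1 hd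
      obtain ⟨b1, b2, b3⟩ := mem_filter.1 hv
      exact ⟨(mem_Icc.1 a1).1, (hsize d a1 v b1 a2 b2 (by rw [a3, b3]; exact hg0 _ _ h0)).1⟩
    · obtain ⟨a1, a2, a3⟩ := mem_filter.1 hd
      obtain ⟨b1, b2, b3⟩ := mem_filter.1 hu
      exact ⟨(mem_Icc.1 a1).1, (hsize u b1 d a1 b2 a2 (by rw [a3, b3]; exact hg0 _ _ h0)).2.1⟩
    · obtain ⟨a1, a2, a3⟩ := mem_filter.1 hd
      obtain ⟨b1, b2, b3⟩ := mem_filter.1 hd'
      exact (hsize d a1 d' b1 a2 b2 (by rw [a3, b3]; exact hg0 _ _ h0)).2.2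
  have one : ∀ U : ℝ, Real.log x ^ 2 ≤ U → U ≤ (x : ℝ) ^ (1 - θ) → _ := fun U hU1 hU2 => by
    have hU3 : 1 ≤ U := (one_le_pow₀ hL).trans hU1
    have hG : 0 < Gam x U :=
      lt_of_lt_of_le (div_pos hx0 (by linarith)) (Gam_ge hU3 (hU2.trans (hle _ (by linarith))))
    exact SSumI_one x U ((x : ℝ) ^ η) b E lam ls err hG (fun e he => (hE e he).1) hpt
      (hgroup U hU1 hU2 hG lam ls hlam (fun _ _ h0 => h0) hls)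
      (hgroup U hU1 hU2 hG (fun t t' => |lam t t'|) err (fun t t' => by
        rw [abs_abs]; exact hlam t t') (fun _ _ h0 => abs_ne_zero.1 h0) herr)
      hB₁ hsum (by rw [hlz]; positivity)
  have a1 := one T hT1 hT2
  have a2 := one T' hT1' hT2'
  have c1 : 4 * (C₀ * (19 / η) * (C / (((c / 2) / η) ^ 3 * Real.log ((x : ℝ) ^ η))))
      ≤ ζ / Real.log x := by
    have h1 : 4 * (C₀ * (19 / η) * (C / (((c / 2) / η) ^ 3 * Real.log ((x : ℝ) ^ η))))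
        = (η * (76 * C * C₀) / (c / 2) ^ 3) / Real.log x := by
      rw [hlz]; field_simp; ring
    rw [h1]
    refine div_le_div_of_nonneg_right ?_ (by linarith)
    rw [le_div_iff₀ (by positivity)] at hη2
    rw [div_le_iff₀ (by positivity)]
    exact hη2
  have c2 := div_le_div_of_nonneg_right hε2 (zero_le_one.trans hL)
  rw [mul_div_assoc] at c2
  rw [abs_le] at a1 a2 ⊢
  constructor <;> linarith [a1.1, a1.2, a2.1, a2.2]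

end Pool.Agent.Work.MP_82fd4a_nt.P
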