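import Pool.Agent.Work.MP_82fd4a_nt.P.SDefs
import Pool.Agent.Work.MP_82fd4a_nt.P.IIDefs

/-! From the packings of the certificate to those of the analysis.

Plan. Take the same monomials and weights and `κ i = phi T (dot (m i) t) / 2`; the degree is at most
`dot (m i) t ≤ U ≤ M`; `Kap τ L κ` is monotone in `L` when `0 ≤ κ`, and `∑ j, m i j * a j ≥ dot (m i) t / U`. -/

set_option autoImplicit false
open Finset

namespace Pool.Agent.Work.MP_82fd4a_nt.P

theorem SPack_kap {T U D L : ℝ} (hU : 0 < U) (h1 : T ≤ 2 * D) (h2 : D / U ≤ L) :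
    Kap (T / U) L (phi T D / 2) := by
  have h3 : T / U ≤ 2 * (D / U) := by
    rw [← mul_div_assoc]
    exact div_le_div_of_nonneg_right h1 hU.le
  unfold phi
  split_ifs with h
  · have h4 := div_le_div_of_nonneg_right h hU.le
    exact ⟨le_rfl, .inr ⟨by linarith, by linarith⟩⟩
  · have h4 : 0 < 2 * T - D := by linarith
    have h5 : 0 ≤ D / (2 * T - D) := div_nonneg (by linarith) h4.le
    have h6 : D / (2 * T - D) ≤ 1 := (div_le_one h4).2 (by linarith)
    have h7 : D / (2 * T - D) / 2 * (4 * (T / U) - 2 * (D / U)) = D / U := by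
      field_simp
      ring
    refine ⟨by linarith, .inr ⟨by linarith, ?_⟩⟩
    nlinarith [mul_nonneg h5 (sub_nonneg.2 h2)]

theorem pack_of_good {T U γ : ℝ} (hT : 0 < T) (hU : 0 < U) {t : List ℕ} (h : GoodL T U γ t)
    (h1 : ∀ a ∈ t, 1 ≤ a) {M : ℕ} (hM : 16 ≤ M) (hM' : U ≤ M) {a : Fin t.length → ℝ}
    (ha : ∀ j, (t.get j : ℝ) / U ≤ a j) : Pack (T / U) (γ / 2) M a := by
  obtain ⟨n, w, m, h⟩ := h
  have e : ∀ i, dot (m i) t = ∑ j : Fin t.length, m i j * t.get j := fun i => by
    rw [dot, sum_range]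
    exact sum_congr rfl fun j _ => by rw [List.getD_eq_get]
  refine ⟨n, fun i j => m i j, fun i => w i, fun i => phi T (dot (m i) t) / 2, h.n16.trans hM,
    fun i => ⟨h.w0 i i.2, ?_, SPack_kap hU (h.lo i i.2) ?_⟩, fun j => ?_, ?_⟩
  · have h2 : dot (m i) t ≤ M := by exact_mod_cast (h.hi i i.2).trans hM'
    refine le_trans ?_ h2
    rw [e]
    exact sum_le_sum fun j _ => Nat.le_mul_of_pos_right _ (h1 _ (List.get_mem t j))
  · rw [e, Nat.cast_sum, sum_div]
    refine sum_le_sum fun j _ => ?_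
    rw [Nat.cast_mul, mul_div_assoc]
    exact mul_le_mul_of_nonneg_left (ha j) (Nat.cast_nonneg _)
  · have h2 := h.cap j j.2
    rwa [sum_range] at h2
  · have h2 := h.val
    rw [sum_range] at h2
    simp only [← mul_div_assoc]
    rw [← sum_div]
    linarith

end Pool.Agent.Work.MP_82fd4a_nt.P
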