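import Pool.Agent.Work.MP_82fd4a_nt.P.TIIb
import Pool.Agent.Work.MP_82fd4a_nt.P.GamA

/-! Products of primes of type II are equidistributed in short intervals. -/

set_option autoImplicit false
open Finset Filter

namespace Pool.Agent.Work.MP_82fd4a_nt.P

lemma TII_gk0 (x : ℕ) (T : ℝ) (n : ℕ) : 0 ≤ gk x T n := by
  unfold gk
  split_ifs
  · exact (Real.exp_pos _).le
  · exact le_rfl

lemma TII_fibre {n : ℕ} (P : Fin n → Finset ℕ) (hP : ∀ j, ∀ p ∈ P j, p.Prime) (N : ℕ) :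
    #((Fintype.piFinset P).filter fun p => ∏ j, p j = N) ≤ n ^ n := by
  rcases ((Fintype.piFinset P).filter fun p => ∏ j, p j = N).eq_empty_or_nonempty with h | ⟨q, hq⟩
  · rw [h, card_empty]; exact Nat.zero_le _
  obtain ⟨q1, q2⟩ := mem_filter.1 hq
  have : ((Fintype.piFinset P).filter fun p => ∏ j, p j = N) ⊆
      Fintype.piFinset fun _ : Fin n => univ.image q := by
    intro p hp
    obtain ⟨p1, p2⟩ := mem_filter.1 hp
    refine Fintype.mem_piFinset.2 fun j => ?_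
    have a1 := hP j _ (Fintype.mem_piFinset.1 p1 j)
    have a2 : p j ∣ ∏ i, q i := by
      rw [q2, ← p2]; exact dvd_prod_of_mem _ (mem_univ j)
    obtain ⟨i, -, hi⟩ := (Prime.dvd_finsetProd_iff a1.prime _).1 a2
    exact mem_image.2 ⟨i, mem_univ i, ((Nat.prime_dvd_prime_iff_eq a1
      (hP i _ (Fintype.mem_piFinset.1 q1 i))).1 hi).symm⟩
  refine (card_le_card this).trans ?_
  rw [Fintype.card_piFinset, prod_const, card_univ, Fintype.card_fin]
  exact Nat.pow_le_pow_left (card_image_le.trans (by simp)) n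

lemma TII_sum_le {n : ℕ} (P : Fin n → Finset ℕ) (hP : ∀ j, ∀ p ∈ P j, p.Prime) (x : ℕ) (T : ℝ) :
    ∑ p ∈ Fintype.piFinset P, gk x T (∏ j, p j) ≤ (n : ℝ) ^ n * Gam x T := by
  have h1 : ∑ p ∈ Fintype.piFinset P, gk x T (∏ j, p j) =
      ∑ p ∈ (Fintype.piFinset P).filter fun p => ∏ j, p j ∈ Icc 1 (2 * x), gk x T (∏ j, p j) := by
    refine (sum_filter_of_ne fun p _ h => ?_).symm
    unfold gk at h
    split_ifs at h with h2
    · exact mem_Icc.2 ⟨by omega, h2.2⟩
    · exact absurd rfl h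
  rw [h1, ← sum_fiberwise_of_maps_to (g := fun p : Fin n → ℕ => ∏ j, p j) (t := Icc 1 (2 * x))
    fun p hp => (mem_filter.1 hp).2, Gam, mul_sum]
  refine sum_le_sum fun N _ => ?_
  rw [sum_congr rfl fun p hp => by rw [(mem_filter.1 hp).2], sum_const, nsmul_eq_mul]
  refine mul_le_mul_of_nonneg_right ?_ (TII_gk0 _ _ _)
  exact_mod_cast (card_le_card (monotone_filter_left _ (filter_subset _ _))).trans
    (TII_fibre P hP N)

lemma TII_dyad {p d : ℕ} (hp : 2 ≤ p) : Nat.log 2 (p - 1) = d ↔ 2 ^ d < p ∧ p ≤ 2 ^ (d + 1) := by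
  rw [Nat.log_eq_iff (Or.inr ⟨by norm_num, by omega⟩)]
  omega

lemma TII_split {n : ℕ} (lo hi : Fin n → ℕ) {y : ℕ} (h : ∀ j, hi j ≤ y) (f : (Fin n → ℕ) → ℝ) :
    ∑ p ∈ Fintype.piFinset fun j => (Ioc (lo j) (hi j)).filter Nat.Prime, f p =
      ∑ d ∈ Fintype.piFinset fun _ : Fin n => range (Nat.log 2 y + 1),
        ∑ p ∈ Fintype.piFinset fun j =>
          (Ioc (max (lo j) (2 ^ d j)) (min (hi j) (2 ^ (d j + 1)))).filter Nat.Prime, f p := by
  rw [← sum_fiberwise_of_maps_to (g := fun (p : Fin n → ℕ) j => Nat.log 2 (p j - 1))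
    (t := Fintype.piFinset fun _ : Fin n => range (Nat.log 2 y + 1)) fun p hp =>
      Fintype.mem_piFinset.2 fun j => mem_range.2 (Nat.lt_succ_of_le (Nat.log_mono_right (by
        have := (mem_Ioc.1 (mem_filter.1 (Fintype.mem_piFinset.1 hp j)).1).2
        have := h j
        omega)))]
  refine sum_congr rfl fun d _ => sum_congr ?_ fun _ _ => rfl
  ext p
  simp only [mem_filter, Fintype.mem_piFinset, mem_Ioc, funext_iff, max_lt_iff, le_min_iff]
  constructor
  · rintro ⟨h1, h2⟩ j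
    have := (TII_dyad (h1 j).2.two_le).1 (h2 j)
    exact ⟨⟨⟨(h1 j).1.1, this.1⟩, (h1 j).1.2, this.2⟩, (h1 j).2⟩
  · intro h1
    exact ⟨fun j => ⟨⟨(h1 j).1.1.1, (h1 j).1.2.1⟩, (h1 j).2⟩, fun j =>
      (TII_dyad (h1 j).2.two_le).2 ⟨(h1 j).1.1.2, (h1 j).1.2.2⟩⟩

theorem typeII_pack {τ δ η : ℝ} (hτ : 0 < τ) (hτ1 : τ ≤ 1 / 2) (hδ : 0 < δ) (hη : 0 < η)
    (M A : ℕ) : ∃ B : ℕ, 2 ≤ B ∧ ∀ᶠ x : ℕ in atTop, ∀ n ≤ M, ∀ lo hi : Fin n → ℕ,
    (∀ j, (x : ℝ) ^ η ≤ lo j) → (∀ j, hi j ≤ 2 * x) →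
    (∀ p ∈ Fintype.piFinset fun j => (Ioc (lo j) (hi j)).filter Nat.Prime,
      x < 2 * ∏ j, p j → ∏ j, p j ≤ 2 * x →
        Pack τ δ M fun j => Real.log (p j) / Real.log x) →
    ∀ T T' : ℝ, Real.log x ^ B ≤ T' → T' ≤ T → T ≤ (x : ℝ) ^ τ →
    |(∑ p ∈ Fintype.piFinset fun j => (Ioc (lo j) (hi j)).filter Nat.Prime,
        gk x T (∏ j, p j)) / Gam x T -
      (∑ p ∈ Fintype.piFinset fun j => (Ioc (lo j) (hi j)).filter Nat.Prime,
        gk x T' (∏ j, p j)) / Gam x T'| ≤ 1 / Real.log x ^ A := by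
  obtain ⟨B, hB, H⟩ := box_cmp hτ hτ1 hδ hη M (A + 1 + 2 * M)
  refine ⟨B, by omega, ?_⟩
  have hM0 : (0 : ℝ) ≤ M := Nat.cast_nonneg M
  set K : ℝ := ((M : ℝ) + 1) ^ M with hK
  have hK1 : 1 ≤ K := one_le_pow₀ (by linarith)
  filter_upwards [H, TIIb_ev (A + 1), TIIb_log (160 * K), eventually_ge_atTop 1600]
    with x H hs hL hx n hn lo hi hlo hhi hpk T T' hT' hTT hT
  set L := Real.log x with hLd
  have hx1 : (1600 : ℝ) ≤ x := by exact_mod_cast hx
  have hx0 : (0 : ℝ) < x := by linarith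
  have hL1 : 1 ≤ L := by linarith
  have hL0 : 0 < L := by linarith
  have hT1 : L ^ (A + 1) ≤ T' := (pow_le_pow_right₀ hL1 (by omega)).trans hT'
  have hT2 : L ≤ T' := (le_self_pow₀ hL1 (by omega)).trans hT1
  have hT'0 : 0 < T' := by linarith
  have hT0 : 0 < T := by linarith
  have hTx : T ≤ √(x : ℝ) := by
    rw [Real.sqrt_eq_rpow]
    exact hT.trans (Real.rpow_le_rpow_of_exponent_le (by linarith) hτ1)
  have hsx : √(x : ℝ) ≤ x / 40 := Real.sqrt_le_iff.2 ⟨by positivity, by nlinarith⟩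
  have hsq : √(x : ℝ) * √(x : ℝ) = x := Real.mul_self_sqrt hx0.le
  have hs0 : 0 < √(x : ℝ) := Real.sqrt_pos.2 hx0
  set S : ℝ → ℝ := fun R => ∑ p ∈ Fintype.piFinset fun j => (Ioc (lo j) (hi j)).filter Nat.Prime,
    gk x R (∏ j, p j) with hS
  have A1 : |T * S T - T' * S T'| ≤ x / L ^ (A + 1) := by
    simp only [hS]
    rw [TII_split lo hi hhi, TII_split lo hi hhi fun p => gk x T' (∏ j, p j), mul_sum, mul_sum,
      ← sum_sub_distrib]
    refine (abs_sum_le_sum_abs _ _).trans ((sum_le_card_nsmul _ _ (x / L ^ (A + 1 + 2 * M))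
      fun d _ => ?_).trans ?_)
    · by_cases hex : ∃ q ∈ Fintype.piFinset fun j =>
          (Ioc (max (lo j) (2 ^ d j)) (min (hi j) (2 ^ (d j + 1)))).filter Nat.Prime,
          x < 2 * ∏ j, q j ∧ ∏ j, q j ≤ 2 * x
      · obtain ⟨q, q1, q2, q3⟩ := hex
        have q4 : ∀ j, (lo j < q j ∧ 2 ^ d j < q j) ∧ (q j ≤ hi j ∧ q j ≤ 2 ^ (d j + 1)) ∧
            (q j).Prime := fun j => by
          have := Fintype.mem_piFinset.1 q1 j
          simp only [mem_filter, mem_Ioc, max_lt_iff, le_min_iff] at this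
          exact ⟨this.1.1, this.1.2, this.2⟩
        refine H n hn _ _ q (fun j => (hlo j).trans (by exact_mod_cast le_max_left _ _))
          (fun j => (min_le_left _ _).trans (hhi j)) (fun j => ?_) (fun j => ?_) q2 q3
          (hpk q (Fintype.mem_piFinset.2 fun j => mem_filter.2
            ⟨mem_Ioc.2 ⟨(q4 j).1.1, (q4 j).2.1.1⟩, (q4 j).2.2⟩) q2 q3) T T' hT' hTT hT
        · have := (q4 j).1.2
          have := min_le_right (hi j) (2 ^ (d j + 1))
          omega
        · have := (q4 j).1.2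
          have := min_le_right (hi j) (2 ^ (d j + 1))
          have := le_max_right (lo j) (2 ^ d j)
          omega
      · have z : ∀ R : ℝ, ∑ p ∈ Fintype.piFinset fun j =>
            (Ioc (max (lo j) (2 ^ d j)) (min (hi j) (2 ^ (d j + 1)))).filter Nat.Prime,
            gk x R (∏ j, p j) = 0 := fun R => sum_eq_zero fun p hp =>
          if_neg fun h => hex ⟨p, hp, h⟩
        rw [z, z, mul_zero, mul_zero, sub_self, abs_zero]
        positivity
    · have b1 : ((Nat.log 2 (2 * x) + 1 : ℕ) : ℝ) ≤ L ^ 2 := by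
        have c1 : ((2 : ℝ)) ^ Nat.log 2 (2 * x) ≤ x * x := by
          have : 2 ^ Nat.log 2 (2 * x) ≤ x * x :=
            (Nat.pow_log_le_self 2 (by omega)).trans (Nat.mul_le_mul_right x (by omega))
          exact_mod_cast this
        have c2 := Real.log_le_log (by positivity) c1
        rw [Real.log_pow, Real.log_mul hx0.ne' hx0.ne'] at c2
        have c3 := mul_le_mul_of_nonneg_left (show (1 / 2 : ℝ) ≤ Real.log 2 by
          linarith [Real.log_two_gt_d9]) (Nat.cast_nonneg (α := ℝ) (Nat.log 2 (2 * x)))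
        push_cast
        nlinarith
      rw [Fintype.card_piFinset, prod_const, card_univ, Fintype.card_fin, card_range, nsmul_eq_mul,
        Nat.cast_pow]
      calc _ ≤ (L ^ 2) ^ M * (x / L ^ (A + 1 + 2 * M)) := by
            refine mul_le_mul_of_nonneg_right ?_ (by positivity)
            exact (pow_le_pow_left₀ (Nat.cast_nonneg _) b1 n).trans
              (pow_le_pow_right₀ (one_le_pow₀ hL1) hn)
        _ = _ := by rw [← pow_mul]; field_simp; ring
  have G : ∀ R : ℝ, T' ≤ R → R ≤ T → |R * Gam x R - 2 * x| ≤ 40 * (x / L ^ (A + 1)) := by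
    intro R h1 h2
    refine (Gam_asymp (by omega) (by linarith)).trans ?_
    have c1 : (x : ℝ) / R ≤ x / L ^ (A + 1) :=
      div_le_div_of_nonneg_left hx0.le (by positivity) (hT1.trans h1)
    have c2 : R ≤ x / L ^ (A + 1) := by
      rw [le_div_iff₀ (by positivity), ← hsq]
      exact mul_le_mul (h2.trans hTx) hs (by positivity) hs0.le
    linarith
  have hxL : 40 * (x / L ^ (A + 1)) ≤ x := by
    rw [← mul_div_assoc, div_le_iff₀ (by positivity), mul_comm]
    exact mul_le_mul_of_nonneg_left (le_trans (by linarith) (le_self_pow₀ hL1 (by omega))) hx0.le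
  have G1 := abs_le.1 (G T hTT le_rfl)
  have G2 := abs_le.1 (G T' le_rfl hTT)
  have g1 : (x : ℝ) ≤ T * Gam x T := by linarith
  have g2 : (x : ℝ) ≤ T' * Gam x T' := by linarith
  have g3 : 0 < Gam x T := (mul_pos_iff_of_pos_left hT0).1 (hx0.trans_le g1)
  have g4 : 0 < Gam x T' := (mul_pos_iff_of_pos_left hT'0).1 (hx0.trans_le g2)
  have s0 : 0 ≤ S T' / Gam x T' := div_nonneg (sum_nonneg fun _ _ => TII_gk0 _ _ _) g4.le
  have s1 : S T' / Gam x T' ≤ K := by
    rw [div_le_iff₀ g4]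
    refine (TII_sum_le _ (fun j p hp => (mem_filter.1 hp).2) x T').trans
      (mul_le_mul_of_nonneg_right ?_ g4.le)
    have : (n : ℝ) ≤ M := by exact_mod_cast hn
    exact (pow_le_pow_left₀ (Nat.cast_nonneg _) (by linarith) n).trans
      (pow_le_pow_right₀ (by linarith) hn)
  have e : S T / Gam x T - S T' / Gam x T' = ((T * S T - T' * S T') +
      S T' / Gam x T' * (T' * Gam x T' - T * Gam x T)) / (T * Gam x T) := by
    field_simp
    ring
  change |S T / Gam x T - S T' / Gam x T'| ≤ _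
  rw [e, abs_div, abs_of_pos (hx0.trans_le g1)]
  have b1 : |S T' / Gam x T' * (T' * Gam x T' - T * Gam x T)| ≤ K * (80 * (x / L ^ (A + 1))) := by
    rw [abs_mul, abs_of_nonneg s0]
    exact mul_le_mul s1 (abs_le.2 ⟨by linarith, by linarith⟩) (abs_nonneg _) (by linarith)
  refine (div_le_div₀ (by positivity) ((abs_add_le _ _).trans (add_le_add A1 b1)) hx0 g1).trans ?_
  calc _ = 1 / L ^ A * ((1 + 80 * K) / L) := by rw [pow_succ]; field_simp
    _ ≤ _ := mul_le_of_le_one_right (by positivity) ((div_le_one hL0).2 (by linarith))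

end Pool.Agent.Work.MP_82fd4a_nt.P
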