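import Pool.Agent.Work.MP_82fd4a_nt.P.STup
import Pool.Agent.Work.MP_82fd4a_nt.P.SPack
import Pool.Agent.Work.MP_82fd4a_nt.P.SAtyp
import Pool.Agent.Work.MP_82fd4a_nt.P.TII

/-! The multilinear part, one type at a time. -/

set_option autoImplicit false
open Finset Filter

namespace Pool.Agent.Work.MP_82fd4a_nt.P

theorem PrA_eq (x : ℕ) {w b : ℝ} (hw : 0 ≤ w) (hb : 0 < b) (a : ℕ) : ∃ lo hi : ℕ, ⌊w⌋₊ ≤ lo ∧
    hi ≤ 2 * x ∧ PrA x w b a = (Ioc lo hi).filter Nat.Prime := by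
  refine ⟨max ⌊w⌋₊ (⌈Real.exp (a * b)⌉₊ - 1), min (2 * x) (⌈Real.exp ((a + 1) * b)⌉₊ - 1),
    le_max_left _ _, min_le_left _ _, ?_⟩
  ext p
  simp only [PrA, mem_filter, mem_Icc, mem_Ioc, max_lt_iff, le_min_iff]
  by_cases hp : p.Prime
  · have p1 := hp.one_lt
    have p0 : (0 : ℝ) < p := by exact_mod_cast hp.pos
    have e1 : ⌈Real.exp (a * b)⌉₊ - 1 < p ↔ (a : ℝ) ≤ Real.log p / b := by
      rw [le_div_iff₀ hb, Real.le_log_iff_exp_le p0, ← Nat.ceil_le]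
      omega
    have e2 : p ≤ ⌈Real.exp ((a + 1) * b)⌉₊ - 1 ↔ Real.log p / b < a + 1 := by
      rw [div_lt_iff₀ hb, Real.log_lt_iff_lt_exp p0, ← Nat.lt_ceil]
      omega
    rw [fs_prime b hp, Nat.floor_eq_iff (div_nonneg (Real.log_natCast_nonneg p) hb.le), e1, e2,
      Nat.floor_lt hw]
    exact ⟨fun h => ⟨⟨⟨h.2.2.1, h.2.2.2.1⟩, h.1.2, h.2.2.2.2⟩, hp⟩,
      fun h => ⟨⟨p1.le, h.1.2.1⟩, hp, h.1.1.1, h.1.1.2, h.1.2.2⟩⟩
  · simp [hp]

lemma SSumII_tup (x : ℕ) (T w b : ℝ) (t : List ℕ) :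
    |(∑ p ∈ Fintype.piFinset fun j : Fin t.length => PrA x w b (t.get j), gk x T (∏ j, p j)) /
      Gam x T - mf t * SF x T (TyF w b t)| ≤ (t.length : ℝ) ^ t.length * SF x T (NsF w) := by
  rw [SF, SF, ← mul_div_assoc, ← mul_div_assoc, ← sub_div, abs_div, abs_of_nonneg (Gam_nonneg x T)]
  exact div_le_div_of_nonneg_right (tup_eq x T w b t) (Gam_nonneg x T)

lemma SSumII_ev (C : ℝ) {c : ℝ} (hc : 0 < c) :
    ∀ᶠ x : ℕ in atTop, C * Real.log x ^ 2 ≤ (x : ℝ) ^ c := by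
  have h := (isLittleO_log_rpow_rpow_atTop 2 hc).bound (show 0 < 1 / (|C| + 1) by positivity)
  filter_upwards [tendsto_natCast_atTop_atTop.eventually h] with x h
  rw [Real.rpow_two, Real.norm_of_nonneg (sq_nonneg _), Real.norm_of_nonneg (by positivity),
    div_mul_eq_mul_div, one_mul, le_div_iff₀ (by positivity)] at h
  nlinarith [le_abs_self C, sq_nonneg (Real.log x)]

theorem sum_type {P : Par} (hP : P.Fit) {η γ : ℝ} (hη : 0 < η) (hη1 : η ≤ 1 / 100) (hγ : 0 < γ)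
    {B : ℕ} (hB : 0 < B) (k : ℕ) : ∃ A : ℕ, 2 ≤ A ∧ ∀ᶠ x : ℕ in atTop, ∀ τ : Multiset ℕ,
    τ.card ≤ k → (∀ a ∈ τ, 1 ≤ a) → GoodM (P.T * B : ℕ) (P.N * (P.G * B) : ℕ) γ τ →
    ∀ T T' : ℝ, Real.log x ^ A ≤ T' → T' ≤ T → T ≤ (x : ℝ) ^ P.ex →
    |SF x T (TyF ((x : ℝ) ^ η) (P.un B x) τ) - SF x T' (TyF ((x : ℝ) ^ η) (P.un B x) τ)|
      ≤ 1 / Real.log x ^ 2 := by
  have e1 := hP.ex_ge
  have e2 := hP.ex_le
  have U0 : 0 < P.N * (P.G * B) := by
    have := hP.G0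
    have := hP.N0
    positivity
  have U1 : (0 : ℝ) < (P.N * (P.G * B) : ℕ) := by exact_mod_cast U0
  have e3 : ((P.T * B : ℕ) : ℝ) / (P.N * (P.G * B) : ℕ) = P.ex := by
    rw [Par.ex]
    push_cast
    rw [← mul_assoc, mul_div_mul_right _ _ (by exact_mod_cast hB.ne')]
  have T0 : (0 : ℝ) < (P.T * B : ℕ) := by
    rw [div_eq_iff U1.ne'] at e3
    rw [e3]
    exact mul_pos (by linarith) U1
  obtain ⟨A, hA, h⟩ := typeII_pack (τ := P.ex) (δ := γ / 2) (η := η / 2) (by linarith)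
    (by linarith) (half_pos hγ) (half_pos hη) (P.N * (P.G * B) + k + 16) 3
  refine ⟨A, hA, ?_⟩
  filter_upwards [h, sum_ns hη hη1, SSumII_ev (4 * (k + 1) ^ k) (half_pos hη),
    (Real.tendsto_log_atTop.comp tendsto_natCast_atTop_atTop).eventually_ge_atTop 2,
    ((tendsto_rpow_atTop (half_pos hη)).comp tendsto_natCast_atTop_atTop).eventually_ge_atTop 2,
    eventually_ge_atTop 1] with x h h1 h2 l2 y2 x1 τ hk hτ hG T T' t1 t2 t3
  simp only [Function.comp] at l2 y2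
  obtain ⟨t, rfl, hG⟩ := hG
  rw [Multiset.coe_card] at hk
  have x0 : (1 : ℝ) ≤ x := by exact_mod_cast x1
  have l3 : Real.log x ≤ Real.log (2 * x) := Real.log_le_log (by linarith) (by linarith)
  have b0 : 0 < P.un B x := div_pos (by linarith) U1
  choose lo hi k1 k2 k3 using fun j : Fin t.length =>
    PrA_eq x (w := (x : ℝ) ^ η) (by positivity) b0 (t.get j)
  have h3 := h t.length (by omega) lo hi (fun j => ?_) k2 (fun p hp _ _ => ?_) T T' t1 t2 t3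
  rotate_left
  · have a1 : (⌊(x : ℝ) ^ η⌋₊ : ℝ) ≤ lo j := by exact_mod_cast k1 j
    have a2 := Nat.lt_floor_add_one ((x : ℝ) ^ η)
    have a3 : (x : ℝ) ^ η = (x : ℝ) ^ (η / 2) * (x : ℝ) ^ (η / 2) := by
      rw [← Real.rpow_add (by linarith), add_halves]
    nlinarith
  · rw [← e3]
    refine pack_of_good T0 U1 hG hτ (by omega) (by exact_mod_cast (by omega)) fun j => ?_
    have a1 := Fintype.mem_piFinset.1 hp j
    rw [← k3, PrA, mem_filter] at a1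
    obtain ⟨-, a1, -, a2⟩ := a1
    have a3 := Real.log_natCast_nonneg (p j)
    have a4 := Nat.floor_le (div_nonneg a3 b0.le)
    rw [← fs_prime _ a1, a2, Par.un, div_div_eq_mul_div, mul_div_right_comm, ← div_le_iff₀ U1] at a4
    exact a4.trans (div_le_div_of_nonneg_left a3 (by linarith) l3)
  simp only [← k3] at h3
  have s1 : 1 ≤ T' := (one_le_pow₀ (by linarith)).trans t1
  have s2 : T ≤ (x : ℝ) ^ (485 / 1000 : ℝ) :=
    t3.trans (Real.rpow_le_rpow_of_exponent_le x0 (by linarith))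
  have c1 : (t.length : ℝ) ^ t.length ≤ (k + 1) ^ k := by
    have : (t.length : ℝ) ≤ k := by exact_mod_cast hk
    exact (pow_le_pow_left₀ (by positivity) (by linarith) _).trans
      (pow_le_pow_right₀ (by linarith [t.length.cast_nonneg (α := ℝ)]) hk)
  have c2 : ∀ S : ℝ, 1 ≤ S → S ≤ (x : ℝ) ^ (485 / 1000 : ℝ) →
      (t.length : ℝ) ^ t.length * SF x S (NsF ((x : ℝ) ^ η)) ≤ 1 / Real.log x ^ 2 / 4 :=
    fun S a1 a2 => by
      refine (mul_le_mul c1 (h1 S a1 a2) (SF_nonneg (NsF_nonneg _)) (by positivity)).trans ?_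
      rw [Real.rpow_neg (by linarith), ← div_eq_mul_inv, div_div,
        div_le_div_iff₀ (by linarith) (by positivity)]
      linarith
  have c3 := (SSumII_tup x T _ (P.un B x) t).trans (c2 T (s1.trans t2) s2)
  have c4 := (SSumII_tup x T' _ (P.un B x) t).trans (c2 T' s1 (t2.trans s2))
  have c5 : 1 / Real.log x ^ 3 ≤ 1 / Real.log x ^ 2 / 2 := by
    rw [div_div, pow_succ _ 2]
    exact one_div_le_one_div_of_le (by positivity) (mul_le_mul_of_nonneg_left l2 (by positivity))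
  have c6 : (1 : ℝ) ≤ mf t := by exact_mod_cast mf_pos t
  refine (le_mul_of_one_le_left (abs_nonneg _) c6).trans ?_
  rw [← abs_of_nonneg (zero_le_one.trans c6), ← abs_mul, mul_sub, abs_le]
  rw [abs_le] at h3 c3 c4
  constructor <;> linarith [h3.1, h3.2, c3.1, c3.2, c4.1, c4.2]

end Pool.Agent.Work.MP_82fd4a_nt.P
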