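import Pool.Agent.Work.MP_82fd4a_nt.LossV

/-! The mass of the primes with rounded logarithm in an interval. -/

set_option autoImplicit false
open Filter Topology Finset

namespace Pool.Agent.Work.MP_82fd4a_nt.P

theorem mass_fine2 {ε : ℝ} (hε : 0 < ε) : ∀ᶠ x : ℕ in atTop, ∀ (b : ℝ) (α β : ℕ), 0 < b →
    Real.log x / 32 ≤ α * b → α ≤ β →
    ∑ p ∈ Icc 1 (2 * x) with p.Prime ∧ α ≤ fs b p ∧ fs b p < β, (p : ℝ)⁻¹
      ≤ Real.log (β / α) + ε := by
  obtain ⟨L, hL⟩ := eventually_atTop.1 ((mertens_pnt 1).and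
    ((eventually_ge_atTop (2 / ε)).and (eventually_gt_atTop 0)))
  filter_upwards [Lib.ANT.PNTError.tendsto_log.eventually_ge_atTop (32 * L)]
    with x hx b α β hb hlo hαβ
  obtain ⟨hm, h2, h0⟩ := hL (α * b) (by linarith)
  have hα : (0 : ℝ) < α := (mul_pos_iff_of_pos_right hb).1 h0
  have hle : (α : ℝ) * b ≤ β * b := mul_le_mul_of_nonneg_right (by exact_mod_cast hαβ) hb.le
  have h3 := (abs_le.1 (hm (β * b) hle)).2
  rw [mul_div_mul_right _ _ hb.ne', pow_one] at h3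
  have h4 : ((⌈Real.exp (α * b)⌉₊ : ℕ) : ℝ)⁻¹ ≤ 1 / (α * b) := by
    rw [one_div]
    refine inv_anti₀ h0 (le_trans ?_ (Nat.le_ceil _))
    linarith [Real.add_one_le_exp ((α : ℝ) * b)]
  have h5 : 2 * (1 / (α * b)) ≤ ε := by
    rw [div_le_iff₀ hε] at h2
    rw [mul_one_div, div_le_iff₀ h0]
    linarith
  have h6 : ((Icc 1 (2 * x)).filter fun p => p.Prime ∧ α ≤ fs b p ∧ fs b p < β) ⊆
      insert ⌈Real.exp (α * b)⌉₊ (Pr (α * b) (β * b)) := by
    intro p hp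
    obtain ⟨-, h7, h8, h9⟩ := mem_filter.1 hp
    rcases (lossV_le_fs hb h7 h8).eq_or_lt with e | e
    · refine mem_insert.2 (Or.inl ?_)
      rw [e, Real.exp_log (by exact_mod_cast h7.pos), Nat.ceil_natCast]
    · exact mem_insert_of_mem (mem_Pr.2 ⟨h7, e, (lossV_fs_lt hb h7 h9).le⟩)
  refine (sum_le_sum_of_subset_of_nonneg h6 fun p _ _ => by positivity).trans ?_
  by_cases h7 : ⌈Real.exp (α * b)⌉₊ ∈ Pr (α * b) (β * b)
  · rw [insert_eq_of_mem h7]
    have : 0 ≤ 1 / ((α : ℝ) * b) := by positivity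
    linarith
  · rw [sum_insert h7]
    linarith

end Pool.Agent.Work.MP_82fd4a_nt.P
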