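import Pool.Agent.Work.MP_82fd4a_nt.P.SDefs
import Pool.Agent.Work.MP_82fd4a_nt.P.SMass
import Pool.Agent.Work.MP_82fd4a_nt.SumIA

/-! Numbers with a divisor near a wall are rare.

Plan. `F = G * B`, `b = P.un B x`. `wall_div`: a subsum `s ≤ ty b n` is the type of a divisor `d` (`typ_card_eq`);
the complementary divisor has `fs (n / d) + fs d + j = N F` with `j ≤ δ`, so both `fs d % F` and `fs (n / d) % F`
lie in the zone `r ≤ δ ∨ F ≤ r + δ`; take the smaller of the two divisors.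
`wall_mass`: write `d = p * d'` with `p` prime; `∑ 1 / d' ≤ 19 * 33` (`si_inv_rough`, `η = 1 / 33`: all the prime
factors have logarithm at least `z B b ≥ log (2 x) / 32`); for a fixed `d'` there are at most
`(N + 1) (2 δ + 1)` values `a ≤ N F` of `fs p` such that `(fs d' + a) % F` is in the zone, and the primes with
`fs p = a ≥ z B` have mass at most `log ((a + 1) / a) + 1 / (N F) ≤ 33 / (N F)` (`mass_fine2`).
`sum_wall`: the cofactor is rough for `w = x ^ (1 / 300)`; `sum_rf_gk` for each `d ≤ √(2 x)`; the errors add up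
to at most `√(2 x) * (2 / log w + 2 x ^ (1 / 75))`, and `Gam ≥ x ^ (515 / 1000) / 8` by `Gam_ge`. -/

set_option autoImplicit false
open Finset Filter

namespace Pool.Agent.Work.MP_82fd4a_nt.P

lemma sw_zone {F N δ u v : ℕ} (h1 : N * F ≤ u + v + δ) (h2 : u + v ≤ N * F)
    (hu : ¬ (0 < u % F ∧ u % F + δ < F)) : v % F ≤ δ ∨ F ≤ v % F + δ := by
  rcases Nat.eq_zero_or_pos F with rfl | hF
  · exact Or.inr (Nat.zero_le _)
  obtain ⟨j, hj⟩ := Nat.exists_eq_add_of_le h2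
  have h3 : F ∣ u % F + v % F + j := by
    have h4 : u % F + v % F + j ≡ u + v + j [MOD F] :=
      ((Nat.mod_modEq u F).add (Nat.mod_modEq v F)).add_right j
    rw [h4.dvd_iff dvd_rfl, ← hj]
    exact dvd_mul_left _ _
  obtain ⟨c, hc⟩ := h3
  have h4 := Nat.mod_lt u hF
  rcases c with _ | _ | c
  · omega
  · omega
  · have h5 : F * 2 ≤ F * (c + 1 + 1) := Nat.mul_le_mul_left _ (by omega)
    omega

theorem wall_div {P : Par} {B δ n : ℕ} {b : ℝ} (h : WallF P B δ b n ≠ 0) : ∃ d m : ℕ, d * m = n ∧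
    1 < d ∧ d ≤ m ∧ Big P B (ty b d) ∧ Big P B (ty b m) ∧
    (fs b d % (P.G * B) ≤ δ ∨ P.G * B ≤ fs b d % (P.G * B) + δ) := by
  have h1 : Squarefree n ∧ Big P B (ty b n) ∧ Full P B δ (ty b n) ∧ ¬ Free P B δ (ty b n) := by
    by_contra h'
    exact h (if_neg h')
  obtain ⟨hn, hb, ⟨hf1, hf2⟩, hw⟩ := h1
  simp only [Free, not_forall] at hw
  obtain ⟨s, hs, hs0, hs1, hz⟩ := hw
  have h2 : 0 < #{d ∈ n.divisors | ty b d = s} := by
    have h3 := Multiset.count_pos.2 (Multiset.mem_powerset.2 hs)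
    have h4 := typ_card_eq b hn s
    have h5 : (0 : ℝ) < #{d ∈ n.divisors | ty b d = s} := by
      rw [h4]
      exact_mod_cast h3
    exact_mod_cast h5
  obtain ⟨d, hd⟩ := card_pos.1 h2
  obtain ⟨hd1, rfl⟩ := mem_filter.1 hd
  obtain ⟨m, rfl⟩ := Nat.dvd_of_mem_divisors hd1
  have hd0 : d ≠ 0 := left_ne_zero_of_mul hn.ne_zero
  have hm0 : m ≠ 0 := right_ne_zero_of_mul hn.ne_zero
  have h3 : d ≠ 1 := fun e => hs0 (by rw [e, typ_one])
  have h4 : m ≠ 1 := fun e => hs1 (by rw [e, mul_one])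
  rw [ty_mul b hd0 hm0] at hb hf1 hf2
  rw [Multiset.sum_add] at hf1 hf2
  have h5 : Big P B (ty b d) := fun a ha => hb a (Multiset.mem_add.2 (Or.inl ha))
  have h6 : Big P B (ty b m) := fun a ha => hb a (Multiset.mem_add.2 (Or.inr ha))
  rcases le_total d m with h7 | h7
  · refine ⟨d, m, rfl, by omega, h7, h5, h6, ?_⟩
    unfold fs
    omega
  · exact ⟨m, d, mul_comm _ _, by omega, h7, h6, h5, sw_zone hf1 hf2 hz⟩

lemma sw_pairs {S : Finset ℕ} {Q : Finset (ℕ × ℕ)} {f : ℕ → ℝ} {g : ℕ × ℕ → ℝ} (hg : ∀ q, 0 ≤ g q)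
    (h : ∀ n ∈ S, f n ≤ 0 ∨ ∃ q ∈ Q, q.1 * q.2 = n ∧ f n ≤ g q) :
    ∑ n ∈ S, f n ≤ ∑ q ∈ Q, g q := by
  refine le_trans (sum_le_sum fun n hn => ?_) (sum_fiberwise_le_sum_of_sum_fiber_nonneg
    (g := fun q : ℕ × ℕ => q.1 * q.2) (t := S) fun _ _ => sum_nonneg fun q _ => hg q)
  rcases h n hn with h1 | ⟨q, hq, h1, h2⟩
  · exact h1.trans (sum_nonneg fun q _ => hg q)
  · exact h2.trans (single_le_sum (f := g) (fun q _ => hg q) (mem_filter.2 ⟨hq, h1⟩))

lemma sw_card {F : ℕ} (hF : 0 < F) (N δ c : ℕ) : #{a ∈ range (N * F + 1) |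
    (c + a) % F ≤ δ ∨ F ≤ (c + a) % F + δ} ≤ (N + 1) * (2 * δ + 1) := by
  refine (card_le_card_of_injOn (t := range (N + 1) ×ˢ (range (δ + 1) ∪ Ico (F - δ) F))
    (fun a => (a / F, (c + a) % F)) (fun a ha => ?_) fun a _ a' _ h => ?_).trans ?_
  · obtain ⟨h1, h2⟩ := mem_filter.1 (mem_coe.1 ha)
    have h3 := Nat.mod_lt (c + a) hF
    have h4 : a / F ≤ N := Nat.div_le_of_le_mul (by
      rw [mul_comm]
      exact Nat.le_of_lt_succ (mem_range.1 h1))
    simp only [coe_product, Set.mem_prod, mem_coe, mem_range, mem_union, mem_Ico]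
    omega
  · obtain ⟨h1, h2⟩ := Prod.mk.inj h
    have h3 : a % F = a' % F := Nat.ModEq.add_left_cancel' c h2
    rw [← Nat.div_add_mod a F, h1, h3, Nat.div_add_mod]
  · rw [card_product, card_range]
    refine Nat.mul_le_mul_left _ ((card_union_le _ _).trans ?_)
    rw [card_range, Nat.card_Ico]
    omega

lemma sw_mem (b : ℝ) {p n : ℕ} (hp : p.Prime) (hn : n ≠ 0) (h : p ∣ n) : fs b p ∈ ty b n := by
  obtain ⟨e, rfl⟩ := h
  rw [typ_prime_mul b hp (right_ne_zero_of_mul hn), fs_prime b hp]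
  exact Multiset.mem_cons_self _ _

lemma sw_un {P : Par} (hP : P.Fit) {B : ℕ} (hB : 0 < B) {x : ℕ} (hx : 2 ≤ x) : 0 < P.un B x ∧
    ((P.N * (P.G * B) : ℕ) : ℝ) * P.un B x = Real.log (2 * x) ∧
    Real.log x / 32 ≤ ((P.z * B : ℕ) : ℝ) * P.un B x := by
  have hN := hP.N0
  have h1 : (0 : ℝ) < (P.N * (P.G * B) : ℕ) := by
    exact_mod_cast Nat.mul_pos (by omega) (Nat.mul_pos hP.G0 hB)
  have h2 : (2 : ℝ) ≤ x := by exact_mod_cast hx
  have h3 : Real.log x ≤ Real.log (2 * x) := Real.log_le_log (by linarith) (by linarith)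
  have h4 : 0 < P.un B x := div_pos (Real.log_pos (by linarith)) h1
  have h5 : ((P.N * (P.G * B) : ℕ) : ℝ) * P.un B x = Real.log (2 * x) := mul_div_cancel₀ _ h1.ne'
  have h6 : ((P.N * (P.G * B) : ℕ) : ℝ) ≤ 32 * (P.z * B : ℕ) := by
    have h7 := Nat.mul_le_mul_right B hP.z1.le
    rw [mul_assoc, mul_assoc] at h7
    exact_mod_cast h7
  exact ⟨h4, h5, by nlinarith [mul_le_mul_of_nonneg_right h6 h4.le]⟩

lemma sw_rough {P : Par} (hP : P.Fit) {B : ℕ} (hB : 0 < B) {x : ℕ} (hx : 2 ≤ x) {n : ℕ}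
    (hn : n ≠ 0) (h : Big P B (ty (P.un B x) n)) : Rough ((x : ℝ) ^ (1 / 33 : ℝ)) n := by
  intro p hp hd
  obtain ⟨h1, -, h2⟩ := sw_un hP hB hx
  have h3 := lossV_le_fs h1 hp (h _ (sw_mem _ hp hn hd))
  have h4 : (1 : ℝ) < x := by exact_mod_cast hx
  have h5 := Real.log_pos h4
  rw [Real.rpow_def_of_pos (by linarith), ← Real.lt_log_iff_exp_lt (by exact_mod_cast hp.pos)]
  linarith

theorem wall_mass {P : Par} (hP : P.Fit) {B : ℕ} (hB : 0 < B) (δ : ℕ) : ∀ᶠ x : ℕ in atTop,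
    ∀ D : Finset ℕ, (∀ d ∈ D, 1 < d ∧ d ≤ 2 * x ∧ Big P B (ty (P.un B x) d) ∧
      (fs (P.un B x) d % (P.G * B) ≤ δ ∨ P.G * B ≤ fs (P.un B x) d % (P.G * B) + δ)) →
    ∑ d ∈ D, (d : ℝ)⁻¹ ≤ 50000 * (δ + 1) / B := by
  classical
  obtain ⟨U, hU⟩ : ∃ U, U = P.N * (P.G * B) := ⟨_, rfl⟩
  have hF : 0 < P.G * B := Nat.mul_pos hP.G0 hB
  have hN := hP.N0
  have hU0 : 0 < U := hU ▸ Nat.mul_pos (by omega) hF
  have hU1 : (0 : ℝ) < U := by exact_mod_cast hU0
  filter_upwards [mass_fine2 (ε := 1 / U) (by positivity),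
    si_inv_rough (η := 1 / 33) (by norm_num) (by norm_num), eventually_ge_atTop 2]
    with x h1 h2 hx D hD
  obtain ⟨hb, hb1, hb2⟩ := sw_un hP hB hx
  set b := P.un B x
  have h3 : ∀ c : ℕ, ∑ p ∈ Icc 1 (2 * x) with p.Prime ∧ P.z * B ≤ fs b p ∧
      ((c + fs b p) % (P.G * B) ≤ δ ∨ P.G * B ≤ (c + fs b p) % (P.G * B) + δ), (p : ℝ)⁻¹ ≤
      ((P.N + 1) * (2 * δ + 1) : ℕ) * (33 / U) := by
    intro c
    rw [← sum_fiberwise_of_maps_to (g := fs b) (t := (range (P.N * (P.G * B) + 1)).filter fun a =>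
      P.z * B ≤ a ∧ ((c + a) % (P.G * B) ≤ δ ∨ P.G * B ≤ (c + a) % (P.G * B) + δ))]
    · refine (sum_le_card_nsmul _ _ (33 / U : ℝ) fun a ha => ?_).trans ?_
      · have h4 := (mem_filter.1 ha).2.1
        have h5 : (U : ℝ) ≤ 32 * a := by
          have h6 := Nat.mul_le_mul_right B hP.z1.le
          rw [mul_assoc, mul_assoc, ← hU] at h6
          exact_mod_cast h6.trans (Nat.mul_le_mul_left 32 h4)
        have h6 : (0 : ℝ) < a := by linarith
        have h7 : ((P.z * B : ℕ) : ℝ) * b ≤ a * b :=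
          mul_le_mul_of_nonneg_right (by exact_mod_cast h4) hb.le
        refine le_trans (sum_le_sum_of_subset_of_nonneg (fun p hp => ?_) fun _ _ _ => by positivity)
          ((h1 b a (a + 1) hb (hb2.trans h7) (Nat.le_succ a)).trans ?_)
        · obtain ⟨h8, h9⟩ := mem_filter.1 hp
          obtain ⟨h10, h11, -⟩ := mem_filter.1 h8
          exact mem_filter.2 ⟨h10, h11, h9.ge, by omega⟩
        · have h8 := Real.log_le_sub_one_of_pos (x := ((a + 1 : ℕ) : ℝ) / a) (by positivity)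
          have h9 : ((a + 1 : ℕ) : ℝ) / a - 1 ≤ 32 / U := by
            rw [div_sub_one h6.ne', div_le_div_iff₀ h6 hU1]
            push_cast
            linarith
          have h10 : (33 : ℝ) / U = 32 / U + 1 / U := by ring
          linarith
      · rw [nsmul_eq_mul]
        refine mul_le_mul_of_nonneg_right (Nat.cast_le.2 (le_trans (card_le_card fun a ha => ?_)
          (sw_card hF P.N δ c))) (by positivity)
        exact mem_filter.2 ⟨(mem_filter.1 ha).1, (mem_filter.1 ha).2.2⟩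
    · intro p hp
      obtain ⟨h4, h5, h6⟩ := mem_filter.1 hp
      refine mem_filter.2 ⟨mem_range.2 (Nat.lt_succ_of_le ?_), h6⟩
      have h7 := ty_sum_le hb p
      have h8 : Real.log p ≤ Real.log (2 * x) :=
        Real.log_le_log (by exact_mod_cast h5.pos) (by exact_mod_cast (mem_Icc.1 h4).2)
      rw [← hb1] at h8
      exact_mod_cast le_of_mul_le_mul_right (h7.trans h8) hb
  have h4 := h2 ((Icc 1 (2 * x)).filter (Rough ((x : ℝ) ^ (1 / 33 : ℝ)))) fun d hd =>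
    ⟨(mem_Icc.1 (mem_filter.1 hd).1).1, (mem_Icc.1 (mem_filter.1 hd).1).2, (mem_filter.1 hd).2⟩
  refine (sw_pairs (Q := ((Icc 1 (2 * x)).filter (Rough ((x : ℝ) ^ (1 / 33 : ℝ)))) ×ˢ Icc 1 (2 * x))
    (g := fun q => 1 / (q.1 : ℝ) * if q.2.Prime ∧ P.z * B ≤ fs b q.2 ∧
      ((fs b q.1 + fs b q.2) % (P.G * B) ≤ δ ∨ P.G * B ≤ (fs b q.1 + fs b q.2) % (P.G * B) + δ)
      then (q.2 : ℝ)⁻¹ else 0) (fun q => by positivity) fun d hd => Or.inr ?_).trans ?_
  · obtain ⟨h5, h6, h7, h8⟩ := hD d hd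
    obtain ⟨p, hp, e, rfl⟩ := Nat.exists_prime_and_dvd h5.ne'
    have he : e ≠ 0 := by
      rintro rfl
      omega
    have h9 := sw_rough hP hB hx (by omega) h7
    refine ⟨(e, p), mem_product.2 ⟨mem_filter.2 ⟨mem_Icc.2 ⟨by omega,
      (Nat.le_mul_of_pos_left e hp.pos).trans h6⟩, (rough_mul.1 h9).2⟩, mem_Icc.2 ⟨hp.pos,
        (Nat.le_mul_of_pos_right p (by omega)).trans h6⟩⟩, mul_comm _ _, ?_⟩
    rw [fs_mul b hp.ne_zero he, add_comm (fs b p)] at h8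
    rw [if_pos ⟨hp, h7 _ (sw_mem b hp (by omega) (dvd_mul_right p e)), h8⟩]
    push_cast
    rw [mul_inv, one_div, mul_comm]
  · rw [sum_product]
    simp only [← mul_sum, ← sum_filter]
    refine (sum_le_sum fun d _ => mul_le_mul_of_nonneg_left (h3 _) (by positivity)).trans ?_
    rw [← sum_mul]
    refine (mul_le_mul_of_nonneg_right h4 (by positivity)).trans ?_
    have h5 : (50 : ℝ) ≤ P.N := by exact_mod_cast hN
    have h6 : (1 : ℝ) ≤ P.G := by exact_mod_cast hP.G0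
    have h7 : (0 : ℝ) < B := by exact_mod_cast hB
    have h8 : (0 : ℝ) ≤ δ := Nat.cast_nonneg δ
    have h9 : ((P.N : ℝ) + 1) * (2 * δ + 1) ≤ 51 / 50 * (P.N * P.G) * (2 * (δ + 1)) :=
      mul_le_mul (by nlinarith) (by linarith) (by positivity) (by positivity)
    have h10 : (0 : ℝ) ≤ P.N * P.G * (δ + 1) * B := by positivity
    rw [← mul_div_assoc, ← mul_div_assoc, div_le_div_iff₀ hU1 h7, hU]
    push_cast
    nlinarith [mul_le_mul_of_nonneg_right h9 h7.le]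

theorem sum_wall {P : Par} (hP : P.Fit) {B : ℕ} (hB : 0 < B) (δ : ℕ) : ∀ᶠ x : ℕ in atTop,
    ∀ T : ℝ, 1 ≤ T → T ≤ (x : ℝ) ^ (485 / 1000 : ℝ) →
    SF x T (WallF P B δ (P.un B x)) ≤ 10 ^ 8 * (δ + 1) / B / Real.log x := by
  classical
  have hB' : (0 : ℝ) < B := by exact_mod_cast hB
  have ht : ∀ᶠ x : ℕ in atTop, 64 * B * Real.log x ≤ (x : ℝ) ^ (1 / 600 : ℝ) := by
    have h := (isLittleO_log_rpow_atTop (by norm_num : (0 : ℝ) < 1 / 600)).bound
      (show (0 : ℝ) < (64 * B : ℝ)⁻¹ by positivity)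
    filter_upwards [tendsto_natCast_atTop_atTop.eventually h] with x hx
    rw [Real.norm_eq_abs, Real.norm_of_nonneg (by positivity),
      le_inv_mul_iff₀ (by positivity)] at hx
    exact (mul_le_mul_of_nonneg_left (le_abs_self _) (by positivity)).trans hx
  filter_upwards [wall_mass hP hB δ, ht, eventually_ge_atTop 2,
    Lib.ANT.PNTError.tendsto_log.eventually_ge_atTop 300] with x h1 h2 hx hL T hT hTx
  set b := P.un B x
  have hX : (1 : ℝ) < x := by exact_mod_cast hx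
  have hX0 : (0 : ℝ) < x := by linarith
  have hw : 1 < (x : ℝ) ^ (1 / 300 : ℝ) := Real.one_lt_rpow hX (by norm_num)
  have hlw : Real.log ((x : ℝ) ^ (1 / 300 : ℝ)) = Real.log x / 300 := by
    rw [Real.log_rpow hX0]
    ring
  have hw4 : ((x : ℝ) ^ (1 / 300 : ℝ)) ^ 4 = (x : ℝ) ^ (1 / 75 : ℝ) := by
    rw [← Real.rpow_natCast, ← Real.rpow_mul hX0.le]
    norm_num
  obtain ⟨D, hD⟩ : ∃ D : Finset ℕ, ∀ d, d ∈ D ↔ d ∈ Icc 1 (2 * x).sqrt ∧ 1 < d ∧ d ≤ 2 * x ∧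
      Big P B (ty b d) ∧ (fs b d % (P.G * B) ≤ δ ∨ P.G * B ≤ fs b d % (P.G * B) + δ) :=
    ⟨_, fun _ => mem_filter⟩
  have h3 := h1 D fun d hd => ((hD d).1 hd).2
  have h4 : ∑ n ∈ Icc 1 (2 * x), WallF P B δ b n * gk x T n ≤
      ∑ q ∈ D ×ˢ Icc 1 (2 * x), rf ((x : ℝ) ^ (1 / 300 : ℝ)) q.2 * gk x T (q.1 * q.2) := by
    refine sw_pairs (fun q => mul_nonneg (rf_nonneg _ _) (gk_nonneg _ _ _)) fun n hn => ?_
    by_cases h5 : WallF P B δ b n = 0
    · exact Or.inl (by rw [h5, zero_mul])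
    obtain ⟨d, m, rfl, h6, h7, h8, h9, h10⟩ := wall_div h5
    have h11 := (mem_Icc.1 hn).2
    refine Or.inr ⟨(d, m), mem_product.2 ⟨(hD d).2 ⟨mem_Icc.2 ⟨h6.le,
      Nat.le_sqrt.2 ((Nat.mul_le_mul_left d h7).trans h11)⟩, h6,
      (Nat.le_mul_of_pos_right d (by omega)).trans h11, h8, h10⟩, mem_Icc.2 ⟨by omega,
        (Nat.le_mul_of_pos_left m (by omega)).trans h11⟩⟩, rfl, ?_⟩
    refine mul_le_mul_of_nonneg_right ?_ (gk_nonneg _ _ _)
    have h12 : Rough ((x : ℝ) ^ (1 / 300 : ℝ)) m := fun p hp hd =>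
      (Real.rpow_le_rpow_of_exponent_le hX.le (by norm_num)).trans_lt
        (sw_rough hP hB hx (by omega) h9 p hp hd)
    rw [rf, if_pos h12, WallF]
    split_ifs <;> norm_num
  have hv : 1 ≤ (x : ℝ) ^ (1 / 75 : ℝ) := Real.one_le_rpow hX.le (by norm_num)
  have hs : 0 < (x : ℝ) ^ (1 / 2 : ℝ) := by positivity
  have hG := Gam_ge hT (hTx.trans ((Real.rpow_le_rpow_of_exponent_le hX.le
    (by norm_num : (485 / 1000 : ℝ) ≤ 1)).trans_eq (Real.rpow_one _)))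
  have hG0 : 0 < Gam x T := lt_of_lt_of_le (by positivity) hG
  have h5 : ∑ q ∈ D ×ˢ Icc 1 (2 * x), rf ((x : ℝ) ^ (1 / 300 : ℝ)) q.2 * gk x T (q.1 * q.2) ≤
      ∑ d ∈ D, (300 * Gam x T / Real.log x * (d : ℝ)⁻¹ + 4 * (x : ℝ) ^ (1 / 75 : ℝ)) := by
    rw [sum_product]
    refine sum_le_sum fun d hd => (sum_rf_gk x (by linarith)
      (mem_Icc.1 ((hD d).1 hd).1).1 hw).trans ?_
    have h6 : 2 / (Real.log x / 300) ≤ 2 := div_le_self (by norm_num) (by linarith)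
    have h7 : Gam x T / d / (Real.log x / 300) = 300 * Gam x T / Real.log x * (d : ℝ)⁻¹ := by ring
    rw [hlw, hw4, add_div, h7]
    linarith
  have h6 : (D.card : ℝ) ≤ 2 * (x : ℝ) ^ (1 / 2 : ℝ) := by
    have h7 : D.card ≤ (2 * x).sqrt :=
      (card_le_card fun d hd => ((hD d).1 hd).1).trans (by simp)
    have h8 : (D.card : ℝ) * D.card ≤ 2 * x := by
      exact_mod_cast (Nat.mul_le_mul h7 h7).trans (Nat.sqrt_le _)
    have h9 : (x : ℝ) ^ (1 / 2 : ℝ) * (x : ℝ) ^ (1 / 2 : ℝ) = x := by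
      rw [← Real.rpow_add hX0]
      norm_num
    by_contra h10
    nlinarith
  have h7 : (x : ℝ) ^ (485 / 1000 : ℝ) * ((x : ℝ) ^ (1 / 2 : ℝ) * (x : ℝ) ^ (1 / 75 : ℝ) *
      (x : ℝ) ^ (1 / 600 : ℝ)) = x := by
    rw [← Real.rpow_add hX0, ← Real.rpow_add hX0, ← Real.rpow_add hX0]
    norm_num
  have hL0 : 0 < Real.log x := by linarith
  have h8 : 8 * ((x : ℝ) ^ (1 / 2 : ℝ) * (x : ℝ) ^ (1 / 75 : ℝ)) ≤ 1 / B / Real.log x * Gam x T := by
    refine le_trans ?_ (mul_le_mul_of_nonneg_left hG (by positivity))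
    rw [div_div, one_div_mul_eq_div, le_div_iff₀ (by positivity), le_div_iff₀ (by positivity)]
    refine le_trans ?_ h7.le
    have h9 := mul_le_mul hTx (mul_le_mul_of_nonneg_left h2
      (by positivity : 0 ≤ (x : ℝ) ^ (1 / 2 : ℝ) * (x : ℝ) ^ (1 / 75 : ℝ))) (by positivity)
      (by positivity)
    linarith
  rw [sum_add_distrib, ← mul_sum, sum_const, nsmul_eq_mul] at h5
  have h9 := mul_le_mul_of_nonneg_left h3 (by positivity : 0 ≤ 300 * Gam x T / Real.log x)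
  have h10 := mul_le_mul_of_nonneg_right h6 (by positivity : 0 ≤ 4 * (x : ℝ) ^ (1 / 75 : ℝ))
  have h11 : 0 ≤ 1 / B / Real.log x * Gam x T := by positivity
  have h12 : 0 ≤ δ * (1 / B / Real.log x * Gam x T) := by positivity
  have h13 : 300 * Gam x T / Real.log x * (50000 * (δ + 1) / B) =
      15000000 * (δ + 1) * (1 / B / Real.log x * Gam x T) := by ring
  have h14 : 10 ^ 8 * (δ + 1) / B / Real.log x * Gam x T =
      10 ^ 8 * (δ + 1) * (1 / B / Real.log x * Gam x T) := by ring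
  rw [SF, div_le_iff₀ hG0, h14]
  linarith

end Pool.Agent.Work.MP_82fd4a_nt.P
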