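import Pool.Agent.Work.MP_82fd4a_nt.P.SGeom
import Pool.Agent.Work.MP_82fd4a_nt.P.SSumI
import Pool.Agent.Work.MP_82fd4a_nt.P.SSumII
import Pool.Agent.Work.MP_82fd4a_nt.P.SWall
import Pool.Agent.Work.MP_82fd4a_nt.P.SLoss

/-! The weighted sum over the primes on the short scale. -/

set_option autoImplicit false
open Finset Filter

namespace Pool.Agent.Work.MP_82fd4a_nt.P

variable {P : Par} {lam : List ℕ → ℕ → ℝ}

lemma sm_ev {c e : ℝ} (hc : 0 < c) (he : 0 < e) :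
    ∀ᶠ x : ℕ in atTop, (x : ℝ) ^ (-c) ≤ e / Real.log x := by
  have h := (isLittleO_log_rpow_atTop hc).bound he
  filter_upwards [tendsto_natCast_atTop_atTop.eventually h, eventually_ge_atTop 2] with x hx h2
  have h1 : (1 : ℝ) < x := by exact_mod_cast h2
  have h3 := Real.log_pos h1
  have h4 : 0 < (x : ℝ) ^ c := by positivity
  rw [Real.norm_of_nonneg h3.le, Real.norm_of_nonneg h4.le] at hx
  rw [Real.rpow_neg (by linarith), le_div_iff₀ h3, inv_mul_le_iff₀ h4]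
  linarith

theorem sum_G (hP : P.Fit) (hC : Cert2 P lam) {η ζ : ℝ} (hη : 0 < η) (hη1 : η ≤ 1 / 100) {γ : ℝ}
    (hγ : 0 < γ) (hζ : 0 < ζ) {B k : ℕ} (δ : ℕ) (hB : 0 < B) (hk : 2 ≤ k * η)
    (hN : 4 ≤ η * (P.N * (P.G * B) : ℕ)) : ∃ A : ℕ, 2 ≤ A ∧ ∀ᶠ x : ℕ in atTop,
    ∀ T T' : ℝ, Real.log x ^ A ≤ T' → T' ≤ T → T ≤ (x : ℝ) ^ P.ex →
    |SF x T (GF P lam B δ γ ((x : ℝ) ^ η) (P.un B x)) -
      SF x T' (GF P lam B δ γ ((x : ℝ) ^ η) (P.un B x))| ≤ ζ / Real.log x := by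
  classical
  obtain ⟨A, hA, h⟩ := sum_type hP hη hη1 hγ hB k
  set 𝒯 : Finset (Multiset ℕ) := {τ ∈ (k • (range (P.N * (P.G * B) + 1)).val).powerset.toFinset |
    τ.card ≤ k ∧ (∀ a ∈ τ, 1 ≤ a) ∧ GoodT P B γ τ} with h𝒯
  refine ⟨A, hA, ?_⟩
  filter_upwards [h, geom hP hη hB hk hN, sg_log.eventually_gt_atTop 0,
    sg_log.eventually_ge_atTop (#𝒯 * (2 ^ 20 * 2 ^ k) / ζ)] with x hx hg hL hL' T T' h1 h2 h3
  have e : ∀ n, n ≤ 2 * x → GF P lam B δ γ ((x : ℝ) ^ η) (P.un B x) n =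
      ∑ τ ∈ 𝒯, PhiN P lam B δ τ * TyF ((x : ℝ) ^ η) (P.un B x) τ n := fun n hn => by
    rw [GF]
    split_ifs with h4
    · obtain ⟨c1, -, c3, c4, -⟩ := hg n (Nat.pos_of_ne_zero h4.1.ne_zero) hn h4.2.1
      rw [sum_eq_single_of_mem (ty (P.un B x) n), TyF, if_pos ⟨h4.1, h4.2.1, rfl⟩, mul_one]
      · refine mem_filter.2 ⟨Multiset.mem_toFinset.2 (Multiset.mem_powerset.2 c4), c1,
          fun a ha => ?_, h4.2.2⟩
        have : (1 : ℝ) ≤ a := by linarith [c3 a ha]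
        exact_mod_cast this
      · intro τ _ h5
        rw [TyF, if_neg fun h6 => h5 h6.2.2.symm, mul_zero]
    · refine (sum_eq_zero fun τ hτ => ?_).symm
      rw [TyF, if_neg, mul_zero]
      rintro ⟨h5, h6, rfl⟩
      exact h4 ⟨h5, h6, (mem_filter.1 hτ).2.2.2⟩
  have e' : ∀ U, SF x U (GF P lam B δ γ ((x : ℝ) ^ η) (P.un B x)) =
      ∑ τ ∈ 𝒯, PhiN P lam B δ τ * SF x U (TyF ((x : ℝ) ^ η) (P.un B x) τ) := fun U => by
    rw [← sum_congr rfl fun τ _ => SF_mul x U (PhiN P lam B δ τ) _, ← SF_sum]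
    exact le_antisymm (SF_mono fun n _ hn => (e n hn).le) (SF_mono fun n _ hn => (e n hn).ge)
  rw [e', e', ← sum_sub_distrib]
  refine (abs_sum_le_sum_abs _ _).trans ((sum_le_card_nsmul _ _
    (2 ^ 20 * 2 ^ k * (1 / Real.log x ^ 2)) fun τ hτ => ?_).trans ?_)
  · obtain ⟨c1, c2, c3⟩ := (mem_filter.1 hτ).2
    rw [← mul_sub, abs_mul]
    exact mul_le_mul ((abs_PhiN_le hC B δ τ).trans (mul_le_mul_of_nonneg_left
      (pow_le_pow_right₀ one_le_two c1) (by positivity))) (hx τ c1 c2 c3.2 T T' h1 h2 h3)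
      (abs_nonneg _) (by positivity)
  · rw [nsmul_eq_mul, ← mul_assoc, mul_one_div, div_le_div_iff₀ (by positivity) hL]
    rw [div_le_iff₀ hζ] at hL'
    nlinarith

theorem prime_mass (hP : P.Fit) (hC : Cert2 P lam) : ∃ A : ℕ, ∀ᶠ x : ℕ in atTop, ∀ T : ℝ,
    Real.log x ^ A ≤ T → T ≤ (x : ℝ) ^ P.ex → 1 / 2000 / Real.log x ≤ SF x T PrF := by
  classical
  have e1 := hP.ex_ge
  have e2 := hP.ex_le
  obtain ⟨η₀, hη₀, hI⟩ := sum_Phi (θ := 1 - P.ex) (c := 1 / 50000) (ζ := 1 / 10000) (C₀ := 2 ^ 20)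
    (by linarith) (by linarith) (by norm_num) (by linarith) (by norm_num) (by positivity)
  obtain ⟨η, hη, hη1, hη2⟩ : ∃ η : ℝ, 0 < η ∧ η ≤ 1 / 10000 ∧ η ≤ η₀ :=
    ⟨min (1 / 10000) η₀, lt_min (by norm_num) hη₀, min_le_left _ _, min_le_right _ _⟩
  obtain ⟨k, hk⟩ : ∃ k : ℕ, 2 ≤ k * η := ⟨⌈2 / η⌉₊, (div_le_iff₀ hη).1 (Nat.le_ceil _)⟩
  obtain ⟨B, hB⟩ : ∃ B : ℕ, B = 10000 * 2 ^ 51 * 10 ^ 8 * (k + 2) := ⟨_, rfl⟩
  have hBU : B ≤ P.N * (P.G * B) := (Nat.le_mul_of_pos_left B hP.G0).trans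
    (Nat.le_mul_of_pos_left _ (by have := hP.N0; omega))
  have hB0 : 0 < B := by omega
  have hδ : 200000 * (k + 1) ≤ P.N * (P.G * B) := by omega
  have hN : 4 ≤ η * (P.N * (P.G * B) : ℕ) := by
    have h1 : 2 * (k : ℝ) ≤ (P.N * (P.G * B) : ℕ) := by exact_mod_cast (by omega)
    nlinarith
  obtain ⟨A, hA, hII⟩ := sum_G hP hC hη (by linarith) (γ := η / 4) (ζ := 1 / 10000) (by positivity)
    (by norm_num) (k + 1) hB0 hk hN
  refine ⟨A, ?_⟩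
  filter_upwards [hI η hη hη2 (k • (range (P.N * (P.G * B) + 1)).val).powerset.toFinset.card, hII,
    geom hP hη hB0 hk hN, level hP lam hB0 hδ, sum_ns hη (by linarith), sum_wall hP hB0 (k + 1),
    sum_prime A (ε := 1 / 10000) (by norm_num), sum_loss hP hC A (B := B) (δ := k + 1) (by omega)
      (by omega), sg_log.eventually_ge_atTop 5, eventually_ge_atTop 1,
    sm_ev (half_pos hη) (show (0 : ℝ) < 1 / 10000 / (2 ^ 20 * 2 ^ k) by positivity),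
    su_ev 2 (by norm_num : (0 : ℝ) < 1 / 2)]
    with x hIx hIIx hg hl hns hw hp hlo hL hx hev h2x T hT hT'
  have hx1 : (1 : ℝ) ≤ x := by exact_mod_cast hx
  have hT2 : Real.log x ^ 2 ≤ Real.log x ^ A := pow_le_pow_right₀ (by linarith) hA
  have hT1 : 1 ≤ Real.log x ^ A := one_le_pow₀ (by linarith)
  have hT3 : T ≤ (x : ℝ) ^ (485 / 1000 : ℝ) :=
    hT'.trans (Real.rpow_le_rpow_of_exponent_le hx1 (by linarith))
  have r1 := abs_le.1 (hIx (P.un B x) (lam2 P lam B (k + 1)) _ le_rfl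
    (fun d hd hr => Multiset.mem_toFinset.2 (Multiset.mem_powerset.2
      (hg d (mem_Icc.1 hd).1 (mem_Icc.1 hd).2 hr).2.2.2.1))
    (abs_lam2_le hC _ _) (sum_lam2_le hC _ _ _)
    (fun d₁ h₁ d₂ h₂ a₁ a₂ => hl d₁ d₂ (mem_Icc.1 h₁).1 (mem_Icc.1 h₂).1
      (hg d₁ (mem_Icc.1 h₁).1 (mem_Icc.1 h₁).2 a₁).1 (hg d₂ (mem_Icc.1 h₂).1 (mem_Icc.1 h₂).2 a₂).1)
    T (Real.log x ^ A) (hT2.trans hT) (by rwa [sub_sub_cancel]) hT2
    (by rw [sub_sub_cancel]; exact hT.trans hT'))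
  have r2 := abs_le.1 (hIIx T _ le_rfl hT hT')
  have pt : ∀ n, x < 2 * n → n ≤ 2 * x → _ := fun n h1 h2 =>
    point hP hC (B := B) (δ := k + 1) (k := k) (n := n) (γ := η / 4) (w := (x : ℝ) ^ η)
      (b := P.un B x) (by omega) hδ (by linarith) (by linarith)
      (fun hn p hp hd => by
        obtain rfl := (Nat.prime_dvd_prime_iff_eq hp hn).1 hd
        have a1 : (x : ℝ) < 2 * p := by exact_mod_cast h1
        have a2 : (x : ℝ) ^ η ≤ x ^ (1 / 2 : ℝ) :=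
          Real.rpow_le_rpow_of_exponent_le hx1 (by linarith)
        have a3 : (x : ℝ) ^ (1 / 2 : ℝ) * x ^ (1 / 2 : ℝ) = x := by
          rw [← Real.rpow_add (by linarith)]; norm_num
        nlinarith)
      fun hr => by
        obtain ⟨c1, c2, c3, -, c5⟩ := hg n (by omega) h2 hr
        exact ⟨c1, ⟨c5 h1, c2⟩, c3⟩
  have r3 := SF_mono (T := T) fun n h1 h2 => (pt n h1 h2).1
  have r4 := SF_mono (T := Real.log x ^ A) fun n h1 h2 => (pt n h1 h2).2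
  rw [SF_sub, SF_add, SF_add, SF_mul, SF_mul] at r3
  rw [SF_sub, SF_sub, SF_sub, SF_add, SF_mul, SF_mul] at r4
  have L0 : 0 < Real.log x := by linarith
  have s1 : ∀ U : ℝ, 1 ≤ U → U ≤ T → 2 ^ 20 * 2 ^ k * SF x U (NsF ((x : ℝ) ^ η)) ≤
      1 / 10000 / Real.log x := fun U h1 h2 => by
    refine (mul_le_mul_of_nonneg_left ((hns U h1 (h2.trans hT3)).trans hev)
      (by positivity)).trans (le_of_eq ?_)
    field_simp
  have s2 : ∀ U : ℝ, 1 ≤ U → U ≤ T → 2 ^ 51 * SF x U (WallF P B (k + 1) (P.un B x)) ≤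
      1 / 10000 / Real.log x := fun U h1 h2 => by
    refine (mul_le_mul_of_nonneg_left (hw U h1 (h2.trans hT3)) (by positivity)).trans (le_of_eq ?_)
    rw [hB]
    push_cast
    field_simp
    ring
  have s3 := hp _ hT1 le_rfl
  have s4 := hlo _ hT1 le_rfl
  have s5 : 12 / 10000 / Real.log x ≤ 14 / 10000 / Real.log (2 * x) := by
    have := Real.log_two_lt_d9
    have := Real.log_pos one_lt_two
    rw [sg_log2 hx, div_le_div_iff₀ L0 (by linarith)]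
    linarith
  have t1 := s1 T (hT1.trans hT) le_rfl
  have t2 := s1 _ hT1 hT
  have t3 := s2 T (hT1.trans hT) le_rfl
  have t4 := s2 _ hT1 hT
  simp only [div_eq_mul_inv] at *
  linarith [r1.1, r2.2]

end Pool.Agent.Work.MP_82fd4a_nt.P
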