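import Pool.Agent.Work.MP_82fd4a_nt.P.SDefs
import Pool.Agent.Work.MP_82fd4a_nt.P.SMass

/-! The data to which the certificate is applied.

Plan. `exists_Psi`: `Ψ pre` is the maximum of `0` and of the numbers `-W * (N F) / (a * mf)` over the finitely many
`a ≤ N F` with the three properties (`0 < z B ≤ a`, `mf_pos`). `mass_mu`: `mass_fine2` with `α = lo * B`,
`β = hi * B`, `ε = (κ - 1) / (2 N G) ≤ (κ - 1) * log (hi / lo)`. -/

set_option autoImplicit false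
open Finset Filter

namespace Pool.Agent.Work.MP_82fd4a_nt.P

lemma SPsi_NG {P : Par} (hP : P.Fit) : 0 < P.N * P.G :=
  Nat.mul_pos (by have := hP.N0; omega) hP.G0

lemma SPsi_z {P : Par} (hP : P.Fit) : 0 < P.z := by
  have h1 := SPsi_NG hP
  have h2 := hP.z1
  omega

lemma SPsi_one {P : Par} (hP : P.Fit) (lam : List ℕ → ℕ → ℝ) {B : ℕ} (hB : 0 < B) (δ : ℕ)
    (pre : List ℕ) : ∃ y : ℝ, 0 ≤ y ∧
      (y ≤ 0 ∨ ∃ a : ℕ, pre ≠ [] ∧ Hyp P B δ (pre ++ [a]) ∧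
        ¬ GoodL (P.T * B : ℕ) (P.N * (P.G * B) : ℕ) (1 / 8192) (pre ++ [a]) ∧
        y * a * mf ((pre ++ [a]).map (· / (P.G * B))) ≤
          -W lam (P.G * B) (pre ++ [a]) * (P.N * (P.G * B) : ℕ)) ∧
      ∀ a : ℕ, pre ≠ [] → Hyp P B δ (pre ++ [a]) →
        ¬ GoodL (P.T * B : ℕ) (P.N * (P.G * B) : ℕ) (1 / 8192) (pre ++ [a]) →
        -W lam (P.G * B) (pre ++ [a]) * (P.N * (P.G * B) : ℕ) ≤
          y * a * mf ((pre ++ [a]).map (· / (P.G * B))) := by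
  classical
  have hpos : ∀ a : ℕ, Hyp P B δ (pre ++ [a]) →
      (0 : ℝ) < a * mf ((pre ++ [a]).map (· / (P.G * B))) := fun a h => by
    have h1 := h.big a (by simp)
    have h2 : 0 < a := lt_of_lt_of_le (Nat.mul_pos (SPsi_z hP) hB) h1
    have h3 : (0 : ℝ) < a := by exact_mod_cast h2
    have h4 : (0 : ℝ) < mf ((pre ++ [a]).map (· / (P.G * B))) := by exact_mod_cast mf_pos _
    exact mul_pos h3 h4
  set S : Finset ℕ := (range (P.N * (P.G * B) + 1)).filter fun a => pre ≠ [] ∧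
    Hyp P B δ (pre ++ [a]) ∧
      ¬ GoodL (P.T * B : ℕ) (P.N * (P.G * B) : ℕ) (1 / 8192) (pre ++ [a]) with hS
  have hmem : ∀ a : ℕ, pre ≠ [] → Hyp P B δ (pre ++ [a]) →
      ¬ GoodL (P.T * B : ℕ) (P.N * (P.G * B) : ℕ) (1 / 8192) (pre ++ [a]) → a ∈ S :=
    fun a h1 h2 h3 => by
      refine mem_filter.2 ⟨mem_range.2 ?_, h1, h2, h3⟩
      have h4 := h2.hi
      rw [List.sum_append, List.sum_singleton] at h4
      omega
  rcases S.eq_empty_or_nonempty with e | hne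
  · refine ⟨0, le_rfl, Or.inl le_rfl, fun a h1 h2 h3 => ?_⟩
    have := hmem a h1 h2 h3
    rw [e] at this
    exact absurd this (notMem_empty a)
  · obtain ⟨a₀, h0, hmax⟩ := exists_max_image S (fun a : ℕ =>
      (-W lam (P.G * B) (pre ++ [a]) * (P.N * (P.G * B) : ℕ)) /
        (a * mf ((pre ++ [a]).map (· / (P.G * B))))) hne
    obtain ⟨-, k1, k2, k3⟩ := mem_filter.1 h0
    refine ⟨max 0 ((-W lam (P.G * B) (pre ++ [a₀]) * (P.N * (P.G * B) : ℕ)) /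
        (a₀ * mf ((pre ++ [a₀]).map (· / (P.G * B))))), le_max_left _ _, ?_,
      fun a h1 h2 h3 => ?_⟩
    · rcases le_total ((-W lam (P.G * B) (pre ++ [a₀]) * (P.N * (P.G * B) : ℕ)) /
        (a₀ * mf ((pre ++ [a₀]).map (· / (P.G * B))))) 0 with h | h
      · exact Or.inl (max_le le_rfl h)
      · refine Or.inr ⟨a₀, k1, k2, k3, ?_⟩
        rw [max_eq_right h, mul_assoc, div_mul_cancel₀ _ (hpos a₀ k2).ne']
    · have h4 := (hmax a (hmem a h1 h2 h3)).trans (le_max_right 0 _)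
      rw [div_le_iff₀ (hpos a h2)] at h4
      rw [mul_assoc _ (a : ℝ)]
      exact h4

lemma SPsi_log {lo hi M : ℕ} (h0 : 0 < lo) (h1 : lo < hi) (h2 : hi ≤ M) :
    1 / (M : ℝ) ≤ Real.log (hi / lo) := by
  have a0 : (0 : ℝ) < lo := by exact_mod_cast h0
  have a1 : (lo : ℝ) + 1 ≤ hi := by exact_mod_cast h1
  have a2 : (hi : ℝ) ≤ M := by exact_mod_cast h2
  have a3 : (0 : ℝ) < hi := by linarith
  have h3 := Real.one_sub_inv_le_log_of_pos (div_pos a3 a0)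
  rw [inv_div] at h3
  have h4 : 1 / (hi : ℝ) ≤ 1 - lo / hi := by
    rw [le_sub_iff_add_le, ← add_div, div_le_one a3]
    linarith
  exact ((one_div_le_one_div_of_le a3 a2).trans h4).trans h3

lemma SPsi_fib (x : ℕ) (b : ℝ) (α β : ℕ) :
    ∑ a ∈ Ico α β, ∑ p ∈ PrA x 0 b a, (p : ℝ)⁻¹ ≤
      ∑ p ∈ Icc 1 (2 * x) with p.Prime ∧ α ≤ fs b p ∧ fs b p < β, (p : ℝ)⁻¹ := by
  rw [← sum_fiberwise_of_maps_to (s := (Icc 1 (2 * x)).filter
    fun p => p.Prime ∧ α ≤ fs b p ∧ fs b p < β) (t := Ico α β) (g := fun p => fs b p)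
    (fun p hp => mem_Ico.2 (mem_filter.1 hp).2.2)]
  refine sum_le_sum fun a ha => sum_le_sum_of_subset_of_nonneg (fun p hp => ?_)
    fun p _ _ => by positivity
  obtain ⟨h1, h2, -, h3⟩ := mem_filter.1 hp
  refine mem_filter.2 ⟨mem_filter.2 ⟨h1, h2, ?_⟩, h3⟩
  rw [h3]
  exact mem_Ico.1 ha

theorem exists_Psi {P : Par} (hP : P.Fit) (lam : List ℕ → ℕ → ℝ) {B : ℕ} (hB : 0 < B) (δ : ℕ) :
    ∃ Ψ : List ℕ → ℝ, (∀ pre, 0 ≤ Ψ pre) ∧ Dom P lam B δ Ψ ∧ ∀ (pre : List ℕ) (a : ℕ), pre ≠ [] →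
      Hyp P B δ (pre ++ [a]) →
      ¬ GoodL (P.T * B : ℕ) (P.N * (P.G * B) : ℕ) (1 / 8192) (pre ++ [a]) →
      -W lam (P.G * B) (pre ++ [a]) * (P.N * (P.G * B) : ℕ) ≤
        Ψ pre * a * mf ((pre ++ [a]).map (· / (P.G * B))) := by
  choose Ψ h1 h2 h3 using SPsi_one hP lam hB δ
  exact ⟨Ψ, h1, h2, h3⟩

theorem mass_mu {P : Par} (hP : P.Fit) {B : ℕ} (hB : 0 < B) {κ : ℝ} (hκ : 1 < κ) :
    ∀ᶠ x : ℕ in atTop, Mass P B κ (muA P B x) := by
  have hM := SPsi_NG hP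
  have hM' : (0 : ℝ) < (P.N * P.G : ℕ) := by exact_mod_cast hM
  have hB' : (0 : ℝ) < B := by exact_mod_cast hB
  filter_upwards [mass_fine2 (ε := (κ - 1) * (1 / (P.N * P.G : ℕ)))
    (mul_pos (sub_pos.2 hκ) (one_div_pos.2 hM')), eventually_ge_atTop 1] with x hx hx1
  have x1 : (1 : ℝ) ≤ x := by exact_mod_cast hx1
  have l0 : 0 ≤ Real.log x := Real.log_nonneg x1
  have l1 : Real.log x ≤ Real.log (2 * x) := Real.log_le_log (by linarith) (by linarith)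
  have l2 : 0 < Real.log (2 * x) := Real.log_pos (by linarith)
  have e1 : ((P.N * (P.G * B) : ℕ) : ℝ) = (P.N * P.G : ℕ) * B := by
    push_cast
    ring
  have hb : 0 < P.un B x := by
    rw [Par.un, e1]
    positivity
  refine ⟨fun a => ?_, fun lo hi h1 h2 h3 => ?_⟩
  · unfold muA
    split_ifs
    · exact sum_nonneg fun p _ => by positivity
    · exact le_rfl
  have z0 : 0 < lo := lt_of_lt_of_le (SPsi_z hP) h1
  have z1 : (0 : ℝ) < lo := by exact_mod_cast z0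
  have hlo : Real.log x / 32 ≤ (lo * B : ℕ) * P.un B x := by
    have k1 : ((P.N * P.G : ℕ) : ℝ) ≤ 32 * lo := by
      have := hP.z1
      exact_mod_cast (by omega : P.N * P.G ≤ 32 * lo)
    have k2 : ((lo * B : ℕ) : ℝ) * P.un B x = Real.log (2 * x) * (lo / (P.N * P.G : ℕ)) := by
      rw [Par.un, e1, Nat.cast_mul lo B]
      field_simp
    have k3 : (1 : ℝ) / 32 ≤ lo / (P.N * P.G : ℕ) := by
      rw [div_le_div_iff₀ (by norm_num) hM']
      linarith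
    rw [k2]
    nlinarith [mul_le_mul_of_nonneg_left k3 l2.le]
  have h4 := hx (P.un B x) (lo * B) (hi * B) hb hlo (Nat.mul_le_mul_right B h2.le)
  have e2 : ((hi * B : ℕ) : ℝ) / (lo * B : ℕ) = hi / lo := by
    push_cast
    field_simp
  rw [e2] at h4
  have h5 := mul_le_mul_of_nonneg_left (SPsi_log z0 h2 h3) (sub_pos.2 hκ).le
  have h6 : ∑ a ∈ Ico (lo * B) (hi * B), muA P B x a ≤
      ∑ a ∈ Ico (lo * B) (hi * B), ∑ p ∈ PrA x 0 (P.un B x) a, (p : ℝ)⁻¹ := by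
    refine sum_le_sum fun a _ => ?_
    unfold muA
    split_ifs
    · exact le_rfl
    · exact sum_nonneg fun p _ => by positivity
  have h7 := SPsi_fib x (P.un B x) (lo * B) (hi * B)
  linarith

end Pool.Agent.Work.MP_82fd4a_nt.P
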