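import Pool.Agent.Work.MP_82fd4a_nt.P.SClose
import Pool.Agent.Work.MP_82fd4a_nt.RuleM
import Pool.Agent.Work.MP_82fd4a_nt.RuleMap

/-! The weights given by the table, and the pointwise inequalities. -/

set_option autoImplicit false
open Finset

namespace Pool.Agent.Work.MP_82fd4a_nt.P

variable {P : Par} {lam : List ℕ → ℕ → ℝ}

lemma sr_sel1 {B : ℕ} {t : Multiset ℕ} (h : AdmF P B (bigL P B t)) :
    ∃ p ∈ splits (bigL P B t), 2 * p.2.sum ≤ P.N * (P.G * B) ∧ (p.1.sum ≤ P.Q * (P.G * B) ∨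
      P.T * B ≤ p.2.sum ∧ 2 * (bigL P B t).sum ≤ P.N * (P.G * B) + 2 * (P.Q * (P.G * B))) ∧
      sel1 P B t = p.1 :=
  ⟨h.choose, h.choose_spec.1, h.choose_spec.2.1, h.choose_spec.2.2, dif_pos h⟩

lemma sr_sel1_le (P : Par) (B : ℕ) (t : Multiset ℕ) : sel1 P B t ≤ t := by
  by_cases h : AdmF P B (bigL P B t)
  · obtain ⟨p, hp, -, -, e⟩ := sr_sel1 h
    have h1 := rm_split hp
    rw [bigL, Multiset.sort_eq] at h1
    rw [e]
    exact (Multiset.le_add_right _ _).trans (h1.le.trans (Multiset.filter_le _ _))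
  · rw [sel1, dif_neg h]; exact Multiset.zero_le _

lemma sr_count (P : Par) (B : ℕ) (t : Multiset ℕ) : (t.powerset.count (sel1 P B t) : ℝ) ≠ 0 := by
  have := Multiset.count_pos.2 (Multiset.mem_powerset.2 (sr_sel1_le P B t))
  exact_mod_cast this.ne'

lemma sr_lam2 (P : Par) (lam : List ℕ → ℕ → ℝ) (B δ : ℕ) (b : ℝ) {d d₁ : ℕ} (h : d₁ ∈ d.divisors) :
    lam2 P lam B δ (ty b d₁) (ty b (d / d₁)) = if ty b d₁ = sel1 P B (ty b d) then
      lam1 P lam B δ (ty b d) / ((ty b d).powerset.count (sel1 P B (ty b d)) : ℝ) else 0 := by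
  obtain ⟨⟨k, rfl⟩, h0⟩ := Nat.mem_divisors.1 h
  have h1 := left_ne_zero_of_mul h0
  rw [Nat.mul_div_cancel_left _ (Nat.pos_of_ne_zero h1), lam2,
    ← ty_mul b h1 (right_ne_zero_of_mul h0)]
  split_ifs with e
  · rw [← e]
  · rfl

lemma sr_abs_lam1 (hC : Cert2 P lam) (B δ : ℕ) (t : Multiset ℕ) : |lam1 P lam B δ t| ≤ 2 ^ 20 := by
  unfold lam1
  split_ifs
  · rw [abs_mul, abs_pow, abs_neg, abs_one, one_pow, mul_one]
    exact hC.bd _ _
  · simp

theorem Phi2_eq (P : Par) (lam : List ℕ → ℕ → ℝ) (B δ : ℕ) (b : ℝ) {n : ℕ} (hn : Squarefree n) :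
    Phi2 b (lam2 P lam B δ) n = PhiN P lam B δ (ty b n) := by
  rw [Phi2, PhiN, ← typ_sum_divisors b hn]
  refine sum_congr rfl fun d hd => ?_
  rw [sum_congr rfl fun d₁ h => sr_lam2 P lam B δ b h,
    typ_sum_divisors b (hn.squarefree_of_dvd (Nat.dvd_of_mem_divisors hd)) fun t =>
      if t = sel1 P B (ty b d) then
        lam1 P lam B δ (ty b d) / ((ty b d).powerset.count (sel1 P B (ty b d)) : ℝ) else 0,
    rm_sum_ite, mul_div_cancel₀ _ (sr_count P B _)]

theorem abs_lam2_le (hC : Cert2 P lam) (B δ : ℕ) (t t' : Multiset ℕ) :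
    |lam2 P lam B δ t t'| ≤ 2 ^ 20 := by
  unfold lam2
  split_ifs
  · rw [abs_div, Nat.abs_cast]
    rcases Nat.eq_zero_or_pos ((t + t').powerset.count t) with h | h
    · rw [h]; simp
    · exact (div_le_self (abs_nonneg _) (by exact_mod_cast h)).trans (sr_abs_lam1 hC _ _ _)
  · simp

theorem sum_lam2_le (hC : Cert2 P lam) (B δ : ℕ) (b : ℝ) (d : ℕ) :
    ∑ d₁ ∈ d.divisors, |lam2 P lam B δ (ty b d₁) (ty b (d / d₁))| ≤ 2 ^ 20 := by
  have h := rm_sum_divisors b d (G := fun t => if t = sel1 P B (ty b d) then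
    |lam1 P lam B δ (ty b d)| / ((ty b d).powerset.count (sel1 P B (ty b d)) : ℝ) else 0)
    fun t => by
      split_ifs
      · positivity
      · exact le_rfl
  rw [rm_sum_ite, mul_div_cancel₀ _ (sr_count P B _)] at h
  refine le_trans (le_of_eq (sum_congr rfl fun d₁ h => ?_)) (h.trans (sr_abs_lam1 hC _ _ _))
  rw [sr_lam2 P lam B δ b h]
  split_ifs
  · rw [abs_div, Nat.abs_cast]
  · exact abs_zero

/-- the second kind of admissible sets -/
lemma sr_ext {B : ℕ} {t : Multiset ℕ} (h : AdmF P B (bigL P B t))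
    (h1 : (sel1 P B t).sum ≤ P.Q * (P.G * B) ∨ t.filter (· < P.z * B) = 0) :
    (sel1 P B t).sum ≤ P.Q * (P.G * B) ∨ P.T * B ≤ (t - sel1 P B t).sum ∧
      2 * t.sum ≤ P.N * (P.G * B) + 2 * (P.Q * (P.G * B)) := by
  refine h1.elim Or.inl fun h1 => ?_
  obtain ⟨p, hp, -, h2, e⟩ := sr_sel1 h
  have h3 := rm_split hp
  have h4 : t.filter (P.z * B ≤ ·) = t := Multiset.filter_eq_self.2 fun a ha =>
    not_lt.1 (Multiset.filter_eq_nil.1 h1 a ha)
  rw [bigL, h4] at h2 h3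
  rw [Multiset.sort_eq] at h3
  rw [rm_sort_sum] at h2
  rw [e, Multiset.sum_coe]
  refine h2.imp id fun h2 => ⟨?_, h2.2⟩
  rw [← h3, add_tsub_cancel_left, Multiset.sum_coe]
  exact h2.1

theorem lam2_supp {B δ : ℕ} {t t' : Multiset ℕ} (h : lam2 P lam B δ t t' ≠ 0) :
    (t.sum ≤ P.Q * (P.G * B) ∨ P.T * B ≤ t'.sum ∧
      2 * (t.sum + t'.sum) ≤ P.N * (P.G * B) + 2 * (P.Q * (P.G * B))) ∧
      2 * (t'.sum + δ) ≤ P.N * (P.G * B) := by
  unfold lam2 at h
  split_ifs at h with e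
  swap
  · exact absurd rfl h
  have h1 : lam1 P lam B δ (t + t') ≠ 0 := fun e' => h (by rw [e', zero_div])
  unfold lam1 at h1
  split_ifs at h1 with h2
  swap
  · exact absurd rfl h1
  obtain ⟨h2, h3, h4⟩ := h2
  have h5 := sr_ext h2 h4
  rw [← e, add_tsub_cancel_left] at h3 h5
  rw [Multiset.sum_add] at h5
  exact ⟨h5, h3⟩

theorem abs_PhiN_le (hC : Cert2 P lam) (B δ : ℕ) (τ : Multiset ℕ) :
    |PhiN P lam B δ τ| ≤ 2 ^ 20 * 2 ^ τ.card := by
  unfold PhiN
  refine (Multiset.abs_sum_le_sum_abs).trans ?_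
  have h := Multiset.sum_le_card_nsmul ((τ.powerset.map (lam1 P lam B δ)).map abs) (2 ^ 20) (by
    intro x hx
    simp only [Multiset.map_map, Multiset.mem_map, Function.comp] at hx
    obtain ⟨t, -, rfl⟩ := hx
    exact sr_abs_lam1 hC B δ t)
  rwa [Multiset.card_map, Multiset.card_map, Multiset.card_powerset, nsmul_eq_mul, Nat.cast_pow,
    Nat.cast_ofNat, mul_comm] at h

/-- pairing by a small part -/
lemma sr_small (lam : List ℕ → ℕ → ℝ) {B δ e : ℕ} {σ : Multiset ℕ} (he : e < P.z * B)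
    (h : ∀ u ≤ σ, 2 * (u.sum + δ) ≤ P.N * (P.G * B) →
      2 * (e + u.sum + δ) ≤ P.N * (P.G * B) ∧ u.sum < P.T * B) :
    PhiN P lam B δ (e ::ₘ σ) = 0 := by
  unfold PhiN
  rw [Multiset.powerset_cons, Multiset.map_add, Multiset.sum_add, Multiset.map_map,
    ← Multiset.sum_map_add]
  refine Multiset.sum_eq_zero fun x hx => ?_
  rw [Multiset.mem_map] at hx
  obtain ⟨t, ht, rfl⟩ := hx
  have hb : bigL P B (e ::ₘ t) = bigL P B t := by
    rw [bigL, bigL, Multiset.filter_cons_of_neg _ (by omega)]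
  have hs : sel1 P B (e ::ₘ t) = sel1 P B t := by
    unfold sel1
    generalize bigL P B (e ::ₘ t) = l at hb
    subst hb
    rfl
  have hd := Multiset.cons_sub_of_le e (sr_sel1_le P B t)
  have h1 := h (t - sel1 P B t) (tsub_le_self.trans (Multiset.mem_powerset.1 ht))
  rw [Function.comp_apply, lam1, lam1, hb, hs, hd, Multiset.sum_cons,
    Multiset.filter_cons_of_pos (p := (· < P.z * B)) t he, Multiset.card_cons]
  by_cases h2 : AdmF P B (bigL P B t) ∧ 2 * ((t - sel1 P B t).sum + δ) ≤ P.N * (P.G * B) ∧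
      ((sel1 P B t).sum ≤ P.Q * (P.G * B) ∨ t.filter (· < P.z * B) = 0)
  · have h3 := h1 h2.2.1
    rw [if_pos h2, if_pos ⟨h2.1, h3.1, Or.inl ((sr_ext h2.1 h2.2.2).resolve_right fun h4 =>
      h3.2.not_ge h4.1)⟩]
    ring
  · rw [if_neg h2, if_neg fun h3 => h2 ⟨h3.1, by omega,
      Or.inl (h3.2.2.resolve_right Multiset.cons_ne_zero)⟩]
    ring

/-- from the cells to the fine scale -/
lemma sr_part {F N e a c : ℕ} {u : List ℕ} {v : ℕ} (hF : 0 < F) (hl : u.sum + v + e * F ≤ N * F)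
    (ha : (u.map (· / F)).sum = a) (hc : c * F ≤ v) :
    u.sum ≤ (a + min u.length (N - e - (a + c))) * F := by
  rcases le_total u.length (N - e - (a + c)) with h1 | h1
  · rw [min_eq_left h1, ← ha]
    exact rmap_hi hF u
  · rw [min_eq_right h1]
    have h3 := rmap_lo F u
    rw [ha] at h3
    have h5 : (e + a + c) * F ≤ N * F := by
      rw [add_mul, add_mul]
      omega
    have h6 : e + a + c ≤ N := Nat.le_of_mul_le_mul_right h5 hF
    have h7 : N * F = (a + (N - e - (a + c)) + e + c) * F := by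
      congr 1
      omega
    rw [add_mul, add_mul] at h7
    omega

lemma sr_admF {B : ℕ} (hF : 0 < P.G * B) {l : List ℕ} (hl : l.sum ≤ P.N * (P.G * B))
    (h : Adm2 P (l.map (· / (P.G * B))) ((P.N * (P.G * B) - l.sum) / (P.G * B))) : AdmF P B l := by
  obtain ⟨p, hp, h2, h1⟩ := h
  rw [splits_map] at hp
  obtain ⟨q, hq, rfl⟩ := List.mem_map.1 hp
  have e1 := (splits_perm hq).sum_eq
  have e2 := ((splits_perm hq).map (· / (P.G * B))).sum_eq
  rw [List.map_append, List.sum_append] at e2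
  rw [List.sum_append] at e1
  have e3 := Nat.div_mul_le_self (P.N * (P.G * B) - l.sum) (P.G * B)
  simp only [List.length_map, ← e2] at h1 h2
  generalize (P.N * (P.G * B) - l.sum) / (P.G * B) = e at *
  have a1 := sr_part (N := P.N) (e := e) (u := q.1) (v := q.2.sum) hF (by omega) rfl (rmap_lo _ q.2)
  have a2 := sr_part (N := P.N) (e := e) (u := q.2) (v := q.1.sum) hF (by omega) rfl (rmap_lo _ q.1)
  rw [add_comm (q.2.map (· / (P.G * B))).sum (q.1.map (· / (P.G * B))).sum] at a2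
  refine ⟨q, hq, ?_, h1.imp (fun h1 => a1.trans (Nat.mul_le_mul_right _ h1)) fun h1 => ⟨?_, ?_⟩⟩
  · refine (Nat.mul_le_mul_left 2 a2).trans ?_
    rw [← mul_assoc]
    exact Nat.mul_le_mul_right _ h2
  · refine (Nat.mul_le_mul_right B h1.1).trans (le_trans (le_of_eq ?_) (rmap_lo (P.G * B) q.2))
    ring
  · have a3 : 2 * (P.N - e) ≤ P.N + 2 * P.Q := by omega
    have a4 := Nat.mul_le_mul_right (P.G * B) a3
    rw [mul_assoc, Nat.sub_mul, add_mul, mul_assoc] at a4
    omega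

lemma sr_Q (hP : P.Fit) (B : ℕ) : 100 * (P.Q * (P.G * B)) ≤ 26 * (P.N * (P.G * B)) := by
  have h1 := hP.Q1
  have h2 := hP.T1
  have h3 : 100 * (P.Q * P.G) ≤ 26 * (P.N * P.G) := by omega
  have h4 := Nat.mul_le_mul_right B h3
  simpa only [mul_assoc] using h4

lemma sr_lam1_big (hP : P.Fit) (hC : Cert2 P lam) {B δ : ℕ} (hδ : δ < B)
    (hδ' : 200000 * δ ≤ P.N * (P.G * B)) {τ t : Multiset ℕ} (h1 : Big P B τ) (h2 : Full P B δ τ)
    (h3 : Free P B δ τ) (ht : t ≤ τ) : lam1 P lam B δ t =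
      lam ((t.map (· / (P.G * B))).sort (· ≤ ·)) ((τ - t).sum / (P.G * B)) := by
  have hBF : B ≤ P.G * B := Nat.le_mul_of_pos_left B hP.G0
  have hF : 0 < P.G * B := by omega
  have h4 : ∀ a ∈ t, P.z * B ≤ a := fun a ha => h1 a (Multiset.mem_of_le ht ha)
  have hb : bigL P B t = t.sort (· ≤ ·) := by rw [bigL, Multiset.filter_eq_self.2 h4]
  have h0 : t.filter (· < P.z * B) = 0 :=
    Multiset.filter_eq_nil.2 fun a ha => not_lt.2 (h4 a ha)
  have hs : (t.sort (· ≤ ·)).map (· / (P.G * B)) = (t.map (· / (P.G * B))).sort (· ≤ ·) := by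
    refine List.Perm.eq_of_pairwise' (r := (· ≤ ·)) ((Multiset.pairwise_sort t _).map _
      fun _ _ hab => Nat.div_le_div_right hab) (Multiset.pairwise_sort _ _) ?_
    rw [← Multiset.coe_eq_coe, Multiset.sort_eq, ← Multiset.map_coe, Multiset.sort_eq]
  have e1 : t.sum + (τ - t).sum = τ.sum := by rw [← Multiset.sum_add, add_tsub_cancel_of_le ht]
  obtain ⟨f1, f2⟩ := h2
  have hQ := sr_Q hP B
  by_cases t0 : t = 0
  · subst t0
    rw [lam1, hb, if_pos ⟨⟨([], []), by simp [splits], by simp⟩, by simp; omega⟩]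
    simp [hC.nil]
  have e2 : (P.N * (P.G * B) - t.sum) / (P.G * B) = (τ - t).sum / (P.G * B) := by
    have e3 : (τ - t).sum % (P.G * B) + δ < P.G * B := by
      by_cases t1 : τ - t = 0
      · rw [t1, Multiset.sum_zero, Nat.zero_mod]
        omega
      · refine (h3 _ tsub_le_self t1 fun e => t0 ?_).2
        have := add_tsub_cancel_of_le ht
        rw [e] at this
        exact add_eq_right.1 this
    have e4 := Nat.div_add_mod (τ - t).sum (P.G * B)
    refine Nat.div_eq_of_lt_le ?_ ?_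
    · rw [mul_comm]; omega
    · rw [add_mul, mul_comm ((τ - t).sum / (P.G * B))]; omega
  rw [lam1, h0, Multiset.card_zero, pow_zero, mul_one, hb, rm_sort_sum, hs, e2]
  by_cases h : lam ((t.map (· / (P.G * B))).sort (· ≤ ·)) ((τ - t).sum / (P.G * B)) = 0
  · rw [h]; simp
  have hA : AdmF P B (bigL P B t) := by
    have := hC.adm _ _ (Multiset.pairwise_sort _ _) h
    rw [← hs, ← e2, ← rm_sort_sum t] at this
    rw [hb]
    exact sr_admF hF (by rw [rm_sort_sum]; omega) this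
  obtain ⟨p, hp, h5, -, e⟩ := sr_sel1 hA
  have h6 := rm_split hp
  rw [hb, Multiset.sort_eq] at h6
  have h7 : t - sel1 P B t = p.2 := by rw [e, ← h6, add_tsub_cancel_left]
  have h8 : (p.2 : Multiset ℕ) ≤ t := h6 ▸ Multiset.le_add_left _ _
  rw [hb] at hA
  refine if_pos ⟨hA, ?_, Or.inr rfl⟩
  rw [h7, Multiset.sum_coe]
  by_cases p0 : (p.2 : Multiset ℕ) = 0
  · rw [← Multiset.sum_coe, p0, Multiset.sum_zero]
    omega
  obtain ⟨g1, g2⟩ := h3 p.2 (h8.trans ht) p0 fun e => by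
    rw [← e, Multiset.sum_coe] at f1
    have := Nat.mul_pos (show 0 < P.N by have := hP.N0; omega) hF
    omega
  rw [Multiset.sum_coe] at g1 g2
  obtain ⟨M, hM⟩ := hP.even
  have e4 := Nat.div_add_mod p.2.sum (P.G * B)
  rw [hM, mul_assoc] at h5 ⊢
  have e5 : p.2.sum / (P.G * B) < M := by
    refine Nat.lt_of_mul_lt_mul_left (a := P.G * B) ?_
    rw [mul_comm _ M]
    omega
  have e6 := Nat.mul_le_mul_left (P.G * B) (Nat.succ_le_of_lt e5)
  rw [Nat.mul_succ, mul_comm _ M] at e6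
  omega

lemma sr_big (hP : P.Fit) (hC : Cert2 P lam) {B δ : ℕ} (hδ : δ < B)
    (hδ' : 200000 * δ ≤ P.N * (P.G * B)) {τ : Multiset ℕ} (h1 : Big P B τ) (h2 : Full P B δ τ)
    (h3 : Free P B δ τ) : PhiN P lam B δ τ = WM lam (P.G * B) τ :=
  congrArg _ (Multiset.map_congr rfl fun _ ht =>
    sr_lam1_big hP hC hδ hδ' h1 h2 h3 (Multiset.mem_powerset.1 ht))

lemma sr_prime (hP : P.Fit) (hC : Cert2 P lam) {B δ a : ℕ} (hB : 0 < B)
    (hδ' : 200000 * δ ≤ P.N * (P.G * B)) (h : P.N * (P.G * B) ≤ a + δ) :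
    PhiN P lam B δ {a} = 1 := by
  have hQ := sr_Q hP B
  have hz : P.z * B ≤ a := by
    have h1 := Nat.mul_le_mul_right B hP.z2
    rw [mul_assoc, mul_assoc, mul_assoc] at h1
    omega
  have h0 : 0 < P.N * (P.G * B) := by
    have := hP.N0
    have := hP.G0
    positivity
  have hb : bigL P B {a} = [a] := by
    rw [bigL, Multiset.filter_singleton, if_pos hz, Multiset.sort_singleton]
  have hb0 : bigL P B 0 = [] := by simp [bigL]
  have h1 : lam1 P lam B δ {a} = 0 := by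
    rw [lam1, hb, if_neg]
    rintro ⟨⟨p, hp, h5, h6⟩, -⟩
    simp only [splits, List.map_cons, List.map_nil, List.cons_append, List.nil_append,
      List.mem_cons, List.not_mem_nil, or_false] at hp
    rcases hp with rfl | rfl <;> simp at h5 h6 <;> omega
  have h2 : lam1 P lam B δ 0 = 1 := by
    rw [lam1, hb0, if_pos ⟨⟨([], []), by simp [splits], by simp⟩, by simp; omega⟩]
    simp [hC.nil]
  rw [PhiN, ← Multiset.cons_zero, Multiset.powerset_cons]
  simp [h1, h2]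

theorem hyp_of_bad {B δ : ℕ} {t : List ℕ} (hs : (t.map (· / (P.G * B))).Pairwise (· ≤ ·))
    (h1 : Big P B t) (h2 : Full P B δ t) (h3 : Free P B δ t) : Hyp P B δ t := by
  refine ⟨hs, fun a ha => h1 a ha, by simpa using h2.1, by simpa using h2.2, fun p hp a1 a2 => ?_⟩
  have e := rm_split hp
  have := h3 p.1 (e ▸ Multiset.le_add_right _ _) (by simpa using a1) fun e' => a2 (by
    rw [← e, left_eq_add] at e'
    simpa using e')
  rwa [Multiset.sum_coe] at this

lemma sr_card (hP : P.Fit) {B : ℕ} (hB : 0 < B) {τ : Multiset ℕ} (h1 : Big P B τ)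
    (h2 : τ.sum ≤ P.N * (P.G * B)) : τ.card ≤ 31 := by
  have h3 := Multiset.card_nsmul_le_sum h1
  have h4 := Nat.mul_lt_mul_of_pos_right hP.z1 hB
  rw [smul_eq_mul] at h3
  rw [mul_assoc, mul_assoc] at h4
  exact Nat.le_of_lt_succ (Nat.lt_of_mul_lt_mul_right (h3.trans_lt (h2.trans_lt h4)))

/-- the two pointwise inequalities -/
theorem point (hP : P.Fit) (hC : Cert2 P lam) {B δ k n : ℕ} {γ w b : ℝ} (hδ : δ < B)
    (hδ' : 200000 * δ ≤ P.N * (P.G * B)) (hγ0 : 0 < γ) (hγ : γ ≤ 1 / 10000)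
    (hp : n.Prime → Rough w n)
    (h : Rough w n → (ty b n).card ≤ k ∧ Full P B δ (ty b n) ∧
      ∀ a ∈ ty b n, γ * (P.N * (P.G * B) : ℕ) ≤ a) :
    rf w n * Phi2 b (lam2 P lam B δ) n - GF P lam B δ γ w b n ≤
      PrF n + (2 ^ 20 * 2 ^ k * NsF w n + 2 ^ 51 * WallF P B δ b n) ∧
    PrF n - LossF P lam B δ b n - (2 ^ 20 * 2 ^ k * NsF w n + 2 ^ 51 * WallF P B δ b n) ≤
      rf w n * Phi2 b (lam2 P lam B δ) n - GF P lam B δ γ w b n := by
  have hB : 0 < B := by omega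
  have hL := LossF_nonneg P lam B δ b n
  have hN : 0 ≤ 2 ^ 20 * 2 ^ k * NsF w n := mul_nonneg (by positivity) (NsF_nonneg _ _)
  have hW : 0 ≤ 2 ^ 51 * WallF P B δ b n := mul_nonneg (by positivity) (WallF_nonneg _ _ _ _ _)
  by_cases hr : Rough w n
  swap
  · rw [rf, if_neg hr, GF, if_neg fun h' => hr h'.2.1, PrF, if_neg fun h' => hr (hp h')]
    constructor <;> linarith
  obtain ⟨c1, c2, c3⟩ := h hr
  rw [rf, if_pos hr, one_mul]
  by_cases hn : Squarefree n
  swap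
  · have h1 := abs_le.1 ((abs_Phi2_le (sum_lam2_le hC B δ b) n).trans
      (mul_le_mul_of_nonneg_left (pow_le_pow_right₀ one_le_two c1) (by positivity)))
    rw [GF, if_neg fun h' => hn h'.1, PrF, if_neg fun h' => hn h'.squarefree, NsF, if_neg hn, rf,
      if_pos hr]
    constructor <;> linarith [h1.1, h1.2]
  rw [Phi2_eq P lam B δ b hn]
  by_cases hq : n.Prime
  · have ht := typ_prime b hq
    have h1 := c2.1
    rw [ht, Multiset.sum_singleton] at h1
    rw [GF, if_neg fun h' => by have := h'.2.2.1; rw [ht] at this; simp at this, ht,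
      sr_prime hP hC hB hδ' h1, PrF, if_pos hq]
    constructor <;> linarith
  rw [PrF, if_neg hq]
  have hk : 2 ≤ (ty b n).card := by
    by_contra hk
    rcases (by omega : (ty b n).card = 0 ∨ (ty b n).card = 1) with h0 | h0
    · have h1 := c2.1
      have h2 : 0 < P.N * (P.G * B) := by
        have := hP.N0
        have := hP.G0
        positivity
      rw [Multiset.card_eq_zero.1 h0, Multiset.sum_zero] at h1
      omega
    · rw [typ_card, ← ArithmeticFunction.cardFactors_apply,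
        ArithmeticFunction.cardFactors_eq_one_iff_prime] at h0
      exact hq h0
  by_cases hG : GoodM (P.T * B : ℕ) (P.N * (P.G * B) : ℕ) γ (ty b n)
  · rw [GF, if_pos ⟨hn, hr, hk, hG⟩, sub_self]
    constructor <;> linarith
  rw [GF, if_neg fun h' => hG h'.2.2.2, sub_zero]
  by_cases hs : ∃ e ∈ ty b n, e < P.z * B
  · obtain ⟨e, he, he'⟩ := hs
    obtain ⟨σ, hσ⟩ := Multiset.exists_cons_of_mem he
    have c4 := c3 e he
    rw [hσ] at hG c2
    rw [hσ, sr_small lam he' fun u hu h1 => ⟨not_lt.1 fun h2 =>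
      hG (close hP hu h1 (Or.inl h2) he' hγ0 hγ c4 hδ' c2), not_le.1 fun h2 =>
      hG (close hP hu h1 (Or.inr h2) he' hγ0 hγ c4 hδ' c2)⟩]
    constructor <;> linarith
  have hb : Big P B (ty b n) := fun a ha => not_lt.1 fun h' => hs ⟨a, ha, h'⟩
  by_cases hf : Free P B δ (ty b n)
  swap
  · have h1 := abs_le.1 ((abs_PhiN_le hC B δ (ty b n)).trans (mul_le_mul_of_nonneg_left
      (pow_le_pow_right₀ one_le_two (sr_card hP hB hb c2.2)) (by positivity)))
    rw [WallF, if_pos ⟨hn, hb, c2, hf⟩]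
    constructor <;> linarith [h1.1, h1.2]
  have hG' : ¬ GoodM (P.T * B : ℕ) (P.N * (P.G * B) : ℕ) (1 / 8192) (ty b n) := fun ⟨t, e, h'⟩ =>
    hG ⟨t, e, h'.mono (by linarith)⟩
  rw [sr_big hP hC hδ hδ' hb c2 hf, LossF, if_pos ⟨hn, hk, hb, c2, hf, hG'⟩]
  have hs : (((ty b n).sort (· ≤ ·)).map (· / (P.G * B))).Pairwise (· ≤ ·) :=
    (Multiset.pairwise_sort _ _).map _ fun _ _ hab => Nat.div_le_div_right hab
  have e := Multiset.sort_eq (ty b n) (· ≤ ·)
  have h1 := hC.neg B δ _ hB hδ.le (hyp_of_bad hs (e.symm ▸ hb) (e.symm ▸ c2) (e.symm ▸ hf))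
    (by rwa [Multiset.length_sort]) fun h' => hG' ⟨_, e, h'⟩
  rw [← WM_eq lam _ hs, e] at h1
  constructor <;> linarith [le_max_right 0 (-WM lam (P.G * B) (ty b n))]

end Pool.Agent.Work.MP_82fd4a_nt.P
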