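import Pool.Agent.Lib.MR.Basic

/-! Two lemmas on integrals.

Plan. `cm_windows`: `∫ g ∂cm T = ∫ wt T u * g u` (`integral_withDensity_eq_integral_smul` or as in
`integral_cm`, `cm_real`); cut the line into `Ioc (j • T) ((j + 1) • T)`, `j : ℤ`
(`iUnion_Ioc_zsmul`, `pairwise_disjoint_Ioc_zsmul`, `hasSum_integral_iUnion`); on the window `j`
`wt T u ≤ 3 / (1 + j ^ 2)` (write `u = T (j + s)`, `0 ≤ s ≤ 1`, `j ^ 2 ≤ 2 (j + s) ^ 2 + 2`);
`C = ∑' j : ℤ, 3 / (1 + j ^ 2)` (summable by comparison with `Real.summable_one_div_int_pow`).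
`layer`: `Integrable.integral_eq_integral_meas_lt` for the measure `volume.restrict U`; the
integrand vanishes for `ε ≤ t` and is at most `D * t ^ (-s)` on `Ioc 0 ε`; `integral_rpow`,
`intervalIntegral.intervalIntegrable_rpow'`. -/

set_option autoImplicit false
open MeasureTheory Set Pool.Agent.Lib.MR

namespace Pool.Agent.Work.MP_82fd4a_nt.P

lemma Win_sum : Summable fun j : ℤ => 3 / (1 + (j : ℝ) ^ 2) := by
  refine Summable.of_norm_bounded_eventually
    ((Real.summable_one_div_int_pow.2 one_lt_two).mul_left 3) ?_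
  filter_upwards [(Set.finite_singleton (0 : ℤ)).compl_mem_cofinite] with j hj
  have h : (0 : ℝ) < (j : ℝ) ^ 2 := by
    have : (j : ℝ) ≠ 0 := by exact_mod_cast hj
    positivity
  rw [Real.norm_of_nonneg (by positivity), mul_one_div]
  exact div_le_div_of_nonneg_left (by norm_num) h (by linarith)

lemma Win_wt {T : ℝ} (hT : 0 < T) (j : ℤ) {u : ℝ} (hu : u ∈ Ioc (j • T) ((j + 1) • T)) :
    wt T u ≤ 3 / (1 + (j : ℝ) ^ 2) := by
  obtain ⟨h1, h2⟩ := hu
  rw [zsmul_eq_mul] at h1 h2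
  push_cast at h2
  unfold wt
  rw [div_le_div_iff₀ (by positivity) (by positivity)]
  have h3 : (u - j * T) ^ 2 ≤ T ^ 2 := pow_le_pow_left₀ (by linarith) (by linarith) 2
  nlinarith [sq_nonneg (2 * u - j * T), sq_nonneg u]

theorem cm_windows : ∃ C : ℝ, 1 ≤ C ∧ ∀ (T β : ℝ) (g : ℝ → ℝ), 0 < T → Measurable g →
    (∀ u, 0 ≤ g u) → (∀ u, g u ≤ 1) → (∀ c : ℝ, ∫ u in Ioc c (c + T), g u ≤ β) →
    ∫ u, g u ∂(cm T) ≤ C * β := by
  refine ⟨∑' j : ℤ, 3 / (1 + (j : ℝ) ^ 2), ?_, fun T β g hT hg g0 g1 hβ => ?_⟩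
  · refine le_trans ?_ (Win_sum.le_tsum 0 fun j _ => by positivity)
    norm_num
  have e : ∫ u, g u ∂(cm T) = ∫ u, wt T u * g u := by
    rw [cm, integral_withDensity_eq_integral_toReal_smul (measurable_wt T).ennreal_ofReal
      (Filter.Eventually.of_forall fun _ => ENNReal.ofReal_lt_top)]
    refine integral_congr_ae (Filter.Eventually.of_forall fun u => ?_)
    simp only [ENNReal.toReal_ofReal (wt_nonneg T u), smul_eq_mul]
  have hi : Integrable fun u => wt T u * g u :=
    (integrable_wt T).mul_bdd hg.aestronglyMeasurable (c := 1)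
      (Filter.Eventually.of_forall fun u => by rw [Real.norm_of_nonneg (g0 u)]; exact g1 u)
  have hs := hasSum_integral_iUnion (μ := volume) (s := fun j : ℤ => Ioc (j • T) ((j + 1) • T))
    (fun _ => measurableSet_Ioc) (pairwise_disjoint_Ioc_zsmul T) hi.integrableOn
  rw [iUnion_Ioc_zsmul hT, Measure.restrict_univ] at hs
  rw [e]
  refine hasSum_le (fun j => ?_) hs (Win_sum.hasSum.mul_right β)
  have hgi : IntegrableOn g (Ioc (j • T) ((j + 1) • T)) :=
    Measure.integrableOn_of_bounded (M := 1) measure_Ioc_lt_top.ne hg.aestronglyMeasurable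
      (Filter.Eventually.of_forall fun u => by rw [Real.norm_of_nonneg (g0 u)]; exact g1 u)
  calc ∫ u in Ioc (j • T) ((j + 1) • T), wt T u * g u
      ≤ ∫ u in Ioc (j • T) ((j + 1) • T), 3 / (1 + (j : ℝ) ^ 2) * g u :=
        setIntegral_mono_on hi.integrableOn (hgi.const_mul _) measurableSet_Ioc
          fun u hu => mul_le_mul_of_nonneg_right (Win_wt hT j hu) (g0 u)
    _ ≤ 3 / (1 + (j : ℝ) ^ 2) * β := by
        rw [integral_const_mul, add_zsmul, one_zsmul]
        exact mul_le_mul_of_nonneg_left (hβ _) (by positivity)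

theorem layer {Φ : ℝ → ℝ} (hΦ : Measurable Φ) {U : Set ℝ} (hU : MeasurableSet U)
    (hfin : volume U ≠ ⊤) {ε D s : ℝ} (hε : 0 < ε) (hs : s < 1)
    (h0 : ∀ u ∈ U, 0 ≤ Φ u) (h1 : ∀ u ∈ U, Φ u ≤ ε)
    (h : ∀ t : ℝ, 0 < t → t ≤ ε → volume.real {u | u ∈ U ∧ t < Φ u} ≤ D * t ^ (-s)) :
    ∫ u in U, Φ u ≤ D * ε ^ (1 - s) / (1 - s) := by
  have : IsFiniteMeasure (volume.restrict U) := isFiniteMeasure_restrict.2 hfin
  have hi : Integrable Φ (volume.restrict U) :=
    Integrable.of_bound hΦ.aestronglyMeasurable ε ((ae_restrict_mem hU).mono fun u hu => by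
      rw [Real.norm_of_nonneg (h0 u hu)]; exact h1 u hu)
  have e : ∀ t, (volume.restrict U).real {u | t < Φ u} = volume.real {u | u ∈ U ∧ t < Φ u} :=
    fun t => by
      rw [measureReal_restrict_apply (measurableSet_lt measurable_const hΦ), inter_comm]
      rfl
  have hr : IntervalIntegrable (fun t : ℝ => t ^ (-s)) volume 0 ε :=
    intervalIntegral.intervalIntegrable_rpow' (by linarith)
  rw [hi.integral_eq_integral_meas_lt ((ae_restrict_mem hU).mono h0),
    setIntegral_eq_of_subset_of_forall_sdiff_eq_zero measurableSet_Ioi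
      (Ioc_subset_Ioi_self : Ioc 0 ε ⊆ Ioi 0) fun t ht => ?_]
  · refine (integral_mono_of_nonneg (Filter.Eventually.of_forall fun t => measureReal_nonneg)
      (hr.1.const_mul D) ((ae_restrict_mem measurableSet_Ioc).mono fun t ht => ?_)).trans ?_
    · exact (e t).trans_le (h t ht.1 ht.2)
    · rw [integral_const_mul, ← intervalIntegral.integral_of_le hε.le,
        integral_rpow (Or.inl (by linarith)), Real.zero_rpow (by linarith), sub_zero,
        show -s + 1 = 1 - s by ring, mul_div_assoc]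
  · have h2 : ε < t := not_le.1 fun k => ht.2 ⟨ht.1, k⟩
    rw [e, show {u | u ∈ U ∧ t < Φ u} = ∅ from eq_empty_of_forall_notMem fun u hu => by
      linarith [h1 u hu.1, hu.2], measureReal_empty]

end Pool.Agent.Work.MP_82fd4a_nt.P
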