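import Pool.Agent.Work.MP_82fd4a_nt.P.Large
import Pool.Agent.Work.MP_82fd4a_nt.P.Mono
import Pool.Agent.Work.MP_82fd4a_nt.P.Win

/-! The level sets of a product of prime polynomials of type II. -/

set_option autoImplicit false
open Finset Filter MeasureTheory Pool.Agent.Lib.MR

namespace Pool.Agent.Work.MP_82fd4a_nt.P

/-- the normalised product -/
noncomputable def Phi {n : ℕ} (P : Fin n → Finset ℕ) (Y : Fin n → ℝ) (u : ℝ) : ℝ :=
  ∏ j, ‖DP (P j) (fun _ => 1) u‖ / Y j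

lemma TIIa_one {P : Finset ℕ} {Y : ℝ} (hY : 1 ≤ Y) (hc : (#P : ℝ) ≤ Y) (u : ℝ) :
    0 ≤ ‖DP P (fun _ => 1) u‖ / Y ∧ ‖DP P (fun _ => 1) u‖ / Y ≤ 1 := by
  refine ⟨by positivity, ?_⟩
  rw [div_le_one (by linarith)]
  exact (norm_DP_le_card P (fun _ => by simp) u).trans hc

lemma Phi_nonneg {n : ℕ} {P : Fin n → Finset ℕ} {Y : Fin n → ℝ} (hY : ∀ j, 1 ≤ Y j)
    (hc : ∀ j, (#(P j) : ℝ) ≤ Y j) (u : ℝ) : 0 ≤ Phi P Y u :=
  prod_nonneg fun j _ => (TIIa_one (hY j) (hc j) u).1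

lemma Phi_le {n : ℕ} {P : Fin n → Finset ℕ} {Y : Fin n → ℝ} (hY : ∀ j, 1 ≤ Y j)
    (hc : ∀ j, (#(P j) : ℝ) ≤ Y j) (u : ℝ) (j : Fin n) :
    Phi P Y u ≤ ‖DP (P j) (fun _ => 1) u‖ / Y j := by
  unfold Phi
  rw [← mul_prod_erase univ _ (mem_univ j)]
  exact mul_le_of_le_one_right (TIIa_one (hY j) (hc j) u).1
    (prod_le_one (fun i _ => (TIIa_one (hY i) (hc i) u).1) fun i _ => (TIIa_one (hY i) (hc i) u).2)

lemma Phi_le_one {n : ℕ} {P : Fin n → Finset ℕ} {Y : Fin n → ℝ} (hY : ∀ j, 1 ≤ Y j)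
    (hc : ∀ j, (#(P j) : ℝ) ≤ Y j) (u : ℝ) : Phi P Y u ≤ 1 :=
  prod_le_one (fun i _ => (TIIa_one (hY i) (hc i) u).1) fun i _ => (TIIa_one (hY i) (hc i) u).2

lemma continuous_Phi {n : ℕ} (P : Fin n → Finset ℕ) (Y : Fin n → ℝ) : Continuous (Phi P Y) :=
  continuous_finsetProd _ fun _ _ => (Trig.DP _ _).1.norm.div_const _

lemma TIIa_alg {n r : ℕ} (m : Fin r → Fin n → ℕ) (w κ : Fin r → ℝ) (v : Fin n → ℝ) {ρ lam δ : ℝ}
    (hv : ∀ j, 0 ≤ v j) (hw : ∀ i, 0 ≤ w i) (h1 : ∀ j, ∑ i, w i * (m i j : ℝ) ≤ 1)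
    (h2 : 1 + δ ≤ ∑ i, w i * κ i) (hρ : 0 ≤ ρ) (hlam : 0 ≤ lam)
    (h : ∀ i, κ i * ρ - lam * ∑ j, (m i j : ℝ) ≤ ∑ j, (m i j : ℝ) * v j) :
    (1 + δ) * ρ - lam * n ≤ ∑ j, v j := by
  have a1 : ∑ i, w i * ∑ j, (m i j : ℝ) * v j ≤ ∑ j, v j := by
    simp only [mul_sum]
    rw [sum_comm]
    refine sum_le_sum fun j _ => ?_
    simp only [← mul_assoc]
    rw [← sum_mul]
    exact mul_le_of_le_one_left (hv j) (h1 j)
  have a2 : ∑ i, w i * ∑ j, (m i j : ℝ) ≤ n := by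
    simp only [mul_sum]
    rw [sum_comm]
    refine (sum_le_card_nsmul _ _ 1 fun j _ => h1 j).trans (le_of_eq (by simp))
  have a3 : ∑ i, w i * (κ i * ρ - lam * ∑ j, (m i j : ℝ)) ≤ ∑ i, w i * ∑ j, (m i j : ℝ) * v j :=
    sum_le_sum fun i _ => mul_le_mul_of_nonneg_left (h i) (hw i)
  have a4 : ∑ i, w i * (κ i * ρ - lam * ∑ j, (m i j : ℝ)) =
      (∑ i, w i * κ i) * ρ - lam * ∑ i, w i * ∑ j, (m i j : ℝ) := by
    rw [sum_mul, mul_sum, ← sum_sub_distrib]
    exact sum_congr rfl fun i _ => by ring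
  have a5 := mul_le_mul_of_nonneg_right h2 hρ
  have a6 := mul_le_mul_of_nonneg_left a2 hlam
  linarith

theorem box_level (M : ℕ) : ∃ C : ℝ, 1 ≤ C ∧ ∀ (x τ δ l R c T : ℝ) (n : ℕ)
    (P : Fin n → Finset ℕ) (Y : Fin n → ℝ), 1 < x → 0 < τ → 0 < T → T ≤ x ^ τ → n ≤ M →
    (∀ j, 1 ≤ Y j) → (∀ j, ∀ p ∈ P j, p.Prime ∧ (p : ℝ) ≤ 2 * Y j) → (∀ j, (#(P j) : ℝ) ≤ Y j) →
    (∀ j, 1 + M * Real.log (2 * Y j) ≤ l) → 1 + M * Real.log 2 ≤ l → Real.log (1 + T) ≤ l →
    Pack τ δ M (fun j => Real.log (Y j) / Real.log x) → 1 ≤ R →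
    volume.real {u | u ∈ Set.Ioc c (c + T) ∧ (C * (2 * l) ^ 3) ^ M * R ^ (-(1 + δ)) < Phi P Y u}
      ≤ M * R := by
  obtain ⟨C, hC, H⟩ := large_kap
  set D : ℝ := ((M : ℝ) + 2) ^ M with hD
  have hM0 : (0 : ℝ) ≤ M := Nat.cast_nonneg M
  have hD1 : 1 ≤ D := one_le_pow₀ (by linarith)
  refine ⟨C * D ^ 2, one_le_mul_of_one_le_of_one_le hC (one_le_pow₀ hD1), ?_⟩
  intro x τ δ l R c T n P Y hx hτ hT hTx hn hY hP hc hl1 hl2 hl3 hpk hR
  obtain ⟨r, m, w, κ, hr, hm, h1, h2⟩ := hpk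
  have hx0 : 0 < x := by linarith
  have hlx : 0 < Real.log x := Real.log_pos hx
  have hlog2 : 0 ≤ (M : ℝ) * Real.log 2 := mul_nonneg hM0 (Real.log_nonneg (by norm_num))
  have hl : 1 ≤ l := by linarith
  have hY0 : ∀ j, 0 < Y j := fun j => by linarith [hY j]
  set Λ : ℝ := C * D ^ 2 * (2 * l) ^ 3 with hΛ
  have hΛ1 : 1 ≤ Λ := one_le_mul_of_one_le_of_one_le
    (one_le_mul_of_one_le_of_one_le hC (one_le_pow₀ hD1)) (one_le_pow₀ (by linarith))
  have hR0 : 0 < R := by linarith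
  have hX : ∀ i, x ^ (∑ j, (m i j : ℝ) * (Real.log (Y j) / Real.log x)) = ∏ j, Y j ^ m i j := by
    intro i
    rw [Real.rpow_def_of_pos hx0, mul_sum, Real.exp_sum]
    refine prod_congr rfl fun j _ => ?_
    rw [show Real.log x * ((m i j : ℝ) * (Real.log (Y j) / Real.log x)) =
      (m i j : ℝ) * Real.log (Y j) by field_simp, Real.exp_nat_mul, Real.exp_log (hY0 j)]
  let E : Fin r → Set ℝ := fun i => {u | u ∈ Set.Ioc c (c + T) ∧
    Λ * R ^ (-κ i) * ∏ j, Y j ^ m i j < ∏ j, ‖DP (P j) (fun _ => 1) u‖ ^ m i j}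
  have hE : ∀ i, volume.real (E i) ≤ R := by
    intro i
    obtain ⟨N, a, N1, N2, N3, N4⟩ := mono_DP P Y hY hP hc (m i) (hm i).2.1
    have hp0 : 0 < ∏ j, Y j ^ m i j := prod_pos fun j _ => pow_pos (hY0 j) _
    have e : ∀ u, ‖DP (Icc 1 N) a u‖ = ∏ j, ‖DP (P j) (fun _ => 1) u‖ ^ m i j := fun u => by
      rw [← N4, norm_prod]
      simp only [norm_pow]
    have hlN : 1 + Real.log N ≤ 2 * l := by
      have b1 : Real.log N ≤ Real.log (2 ^ M * ∏ j, Y j ^ m i j) :=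
        Real.log_le_log (by exact_mod_cast N1) N2
      rw [Real.log_mul (by positivity) hp0.ne', Real.log_pow,
        Real.log_prod fun j _ => (pow_pos (hY0 j) _).ne'] at b1
      have b2 : (M : ℝ) * ∑ j, Real.log (Y j ^ m i j) ≤ M * l := by
        rw [mul_sum]
        calc _ ≤ ∑ j, (m i j : ℝ) * l := sum_le_sum fun j _ => by
              rw [Real.log_pow, mul_left_comm]
              refine mul_le_mul_of_nonneg_left ?_ (Nat.cast_nonneg _)
              have := mul_le_mul_of_nonneg_left (Real.log_le_log (hY0 j)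
                (show Y j ≤ 2 * Y j by linarith [hY0 j])) hM0
              linarith [hl1 j]
          _ ≤ M * l := by
              rw [← sum_mul]
              exact mul_le_mul_of_nonneg_right (by exact_mod_cast (hm i).2.1) (by linarith)
      rcases Nat.eq_zero_or_pos M with h0 | h0
      · exact absurd (hr.trans h0.le) (by have := i.pos; omega)
      · have := le_of_mul_le_mul_left b2 (by exact_mod_cast h0)
        linarith
    have := H x τ _ (κ i) D (2 * l) R c T N a hx hT hTx (hm i).2.2 hD1 (by linarith)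
      (by rw [hX]; exact N2.trans (mul_le_mul_of_nonneg_right
        (pow_le_pow_left₀ (by norm_num) (by linarith) M) hp0.le))
      (by rw [hX]; exact N3.trans (mul_le_mul_of_nonneg_right
        (pow_le_pow_left₀ (by linarith) (by linarith) M) hp0.le))
      (fun u => by
        rw [hX, e]
        exact prod_le_prod (fun j _ => by positivity) fun j _ => pow_le_pow_left₀ (norm_nonneg _)
          ((norm_DP_le_card _ (fun _ => by simp) u).trans (hc j)) _)
      hlN (by linarith) hR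
    simp only [hX, e] at this
    exact this
  have cov : {u | u ∈ Set.Ioc c (c + T) ∧ Λ ^ M * R ^ (-(1 + δ)) < Phi P Y u} ⊆
      ⋃ i ∈ (univ : Finset (Fin r)), E i := by
    intro u hu
    by_contra hcon
    simp only [Set.mem_iUnion, not_exists] at hcon
    have t0 : 0 < Λ ^ M * R ^ (-(1 + δ)) := mul_pos (by positivity) (Real.rpow_pos_of_pos hR0 _)
    have p0 : 0 < Phi P Y u := t0.trans hu.2
    set φ : Fin n → ℝ := fun j => ‖DP (P j) (fun _ => 1) u‖ / Y j with hφ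
    have φ0 : ∀ j, 0 < φ j := fun j => p0.trans_le (Phi_le hY hc u j)
    have φ1 : ∀ j, φ j ≤ 1 := fun j => (TIIa_one (hY j) (hc j) u).2
    have hv : ∀ j, 0 ≤ -Real.log (φ j) := fun j => neg_nonneg.2 (Real.log_nonpos (φ0 j).le (φ1 j))
    have hρ := Real.log_nonneg hR
    have hlam := Real.log_nonneg hΛ1
    have key := TIIa_alg m w κ (fun j => -Real.log (φ j)) hv (fun i => (hm i).1) h1 h2 hρ hlam
      fun i => by
        by_cases h0 : ∀ j, m i j = 0
        · have k := (hm i).2.2.2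
          simp only [h0, Nat.cast_zero, zero_mul, sum_const_zero, mul_zero, sub_zero] at k ⊢
          rcases k with k | k
          · exact mul_nonpos_of_nonpos_of_nonneg k hρ
          · linarith [k.1]
        · obtain ⟨j0, hj0⟩ := not_forall.1 h0
          have d1 : (1 : ℝ) ≤ ∑ j, (m i j : ℝ) := by
            refine le_trans ?_ (single_le_sum (f := fun j => (m i j : ℝ))
              (fun j _ => Nat.cast_nonneg _) (mem_univ j0))
            exact_mod_cast Nat.pos_of_ne_zero hj0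
          have d2 : ¬ _ := fun h => hcon i (mem_univ i) ⟨hu.1, h⟩
          rw [not_lt, ← div_le_iff₀ (prod_pos fun j _ => pow_pos (hY0 j) _), ← prod_div_distrib] at d2
          simp only [← div_pow] at d2
          have d3 := Real.log_le_log (prod_pos fun j _ => pow_pos (φ0 j) (m i j)) d2
          rw [Real.log_prod fun j _ => (pow_pos (φ0 j) _).ne', Real.log_mul (by positivity)
            (Real.rpow_pos_of_pos hR0 _).ne', Real.log_rpow hR0] at d3
          simp only [Real.log_pow] at d3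
          simp only [mul_neg, sum_neg_distrib]
          nlinarith
    have k1 := Real.log_lt_log t0 hu.2
    rw [Real.log_mul (by positivity) (Real.rpow_pos_of_pos hR0 _).ne', Real.log_rpow hR0,
      Real.log_pow, Phi, Real.log_prod fun j _ => (φ0 j).ne'] at k1
    rw [sum_neg_distrib] at key
    have k2 : Real.log Λ * n ≤ Real.log Λ * M :=
      mul_le_mul_of_nonneg_left (by exact_mod_cast hn) hlam
    linarith
  have fin : volume (⋃ i ∈ (univ : Finset (Fin r)), E i) ≠ ⊤ := by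
    refine ne_top_of_le_ne_top (measure_Ioc_lt_top (μ := volume) (a := c) (b := c + T)).ne
      (measure_mono ?_)
    exact Set.iUnion₂_subset fun i _ u hu => hu.1
  refine (measureReal_mono cov fin).trans ((measureReal_biUnion_finset_le _ _).trans ?_)
  refine (sum_le_card_nsmul _ _ _ fun i _ => hE i).trans ?_
  rw [card_univ, Fintype.card_fin, nsmul_eq_mul]
  exact mul_le_mul_of_nonneg_right (by exact_mod_cast hr) hR0.le

/-- the integral over a set on which the product is small -/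
theorem box_int (M : ℕ) {δ : ℝ} (hδ : 0 < δ) : ∃ C : ℝ, 1 ≤ C ∧ ∀ (x τ l ε T : ℝ) (n : ℕ)
    (P : Fin n → Finset ℕ) (Y : Fin n → ℝ) (U : Set ℝ), 1 < x → 0 < τ → 0 < T → T ≤ x ^ τ → n ≤ M →
    (∀ j, 1 ≤ Y j) → (∀ j, ∀ p ∈ P j, p.Prime ∧ (p : ℝ) ≤ 2 * Y j) → (∀ j, (#(P j) : ℝ) ≤ Y j) →
    (∀ j, 1 + M * Real.log (2 * Y j) ≤ l) → 1 + M * Real.log 2 ≤ l → Real.log (1 + T) ≤ l →
    Pack τ δ M (fun j => Real.log (Y j) / Real.log x) → MeasurableSet U → 0 < ε → ε ≤ 1 →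
    (∀ u ∈ U, Phi P Y u ≤ ε) →
    ∫ u, U.indicator (Phi P Y) u ∂(cm T) ≤ C * l ^ (3 * M) * ε ^ (δ / (1 + δ)) := by
  obtain ⟨C, hC, H⟩ := box_level M
  obtain ⟨C1, hC1, H1⟩ := cm_windows
  have hM0 : (0 : ℝ) ≤ M := Nat.cast_nonneg M
  set s : ℝ := 1 / (1 + δ) with hs
  have hs0 : 0 < s := by positivity
  have hs1 : 1 - s = δ / (1 + δ) := by rw [hs]; field_simp; ring
  have hσ : 0 < δ / (1 + δ) := by positivity
  have hσ1 : δ / (1 + δ) ≤ 1 := by linarith
  have hK : 1 ≤ (C * 8) ^ M := one_le_pow₀ (by linarith)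
  refine ⟨C1 * ((M + 1) * (C * 8) ^ M / (δ / (1 + δ))), one_le_mul_of_one_le_of_one_le hC1 ?_, ?_⟩
  · rw [le_div_iff₀ hσ]
    nlinarith
  intro x τ l ε T n P Y U hx hτ hT hTx hn hY hP hc hl1 hl2 hl3 hpk hU hε hε1 hUε
  have hlog2 : 0 ≤ (M : ℝ) * Real.log 2 := mul_nonneg hM0 (Real.log_nonneg (by norm_num))
  have hl : 1 ≤ l := by linarith
  set Λ : ℝ := (C * (2 * l) ^ 3) ^ M with hΛ
  have hΛ1 : 1 ≤ Λ := one_le_pow₀ (one_le_mul_of_one_le_of_one_le hC (one_le_pow₀ (by linarith)))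
  have hΛ0 : 0 < Λ := by linarith
  have hm := (continuous_Phi P Y).measurable
  have key := H1 T (M * Λ ^ s * ε ^ (1 - s) / (1 - s)) (U.indicator (Phi P Y)) hT (hm.indicator hU)
    (fun u => Set.indicator_nonneg (fun u _ => Phi_nonneg hY hc u) u)
    (fun u => Set.indicator_le' (fun u _ => Phi_le_one hY hc u) (fun _ _ => zero_le_one) u)
    fun c => by
      rw [setIntegral_indicator hU]
      refine layer hm (measurableSet_Ioc.inter hU) (ne_top_of_le_ne_top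
        (measure_Ioc_lt_top (μ := volume) (a := c) (b := c + T)).ne
        (measure_mono Set.inter_subset_left)) hε (by linarith) (fun u _ => Phi_nonneg hY hc u)
        (fun u hu => hUε u hu.2) fun t ht htε => ?_
      have hR : 1 ≤ (Λ / t) ^ s :=
        Real.one_le_rpow (by rw [le_div_iff₀ ht]; linarith) hs0.le
      have h1 := H x τ δ l _ c T n P Y hx hτ hT hTx hn hY hP hc hl1 hl2 hl3 hpk hR
      have e1 : Λ * ((Λ / t) ^ s) ^ (-(1 + δ)) = t := by
        rw [← Real.rpow_mul (by positivity), show s * -(1 + δ) = -1 by rw [hs]; field_simp,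
          Real.rpow_neg_one]
        field_simp
      rw [← hΛ, e1] at h1
      refine le_trans (le_trans (measureReal_mono (fun u hu => ?_) (ne_top_of_le_ne_top
        (measure_Ioc_lt_top (μ := volume) (a := c) (b := c + T)).ne
        (measure_mono fun u hu => ?_))) h1) (le_of_eq ?_)
      · exact ⟨hu.1.1, hu.2⟩
      · exact hu.1
      rw [Real.div_rpow hΛ0.le ht.le, Real.rpow_neg ht.le]
      ring
  refine key.trans ?_
  rw [hs1]
  have e2 : Λ ^ s ≤ (C * 8) ^ M * l ^ (3 * M) := by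
    refine (Real.rpow_le_rpow_of_exponent_le hΛ1 (show s ≤ 1 by linarith)).trans (le_of_eq ?_)
    rw [Real.rpow_one, hΛ, pow_mul, ← mul_pow]
    congr 1; ring
  have e3 : 0 < ε ^ (δ / (1 + δ)) := Real.rpow_pos_of_pos hε _
  calc _ ≤ C1 * ((M + 1) * ((C * 8) ^ M * l ^ (3 * M)) * ε ^ (δ / (1 + δ)) / (δ / (1 + δ))) := by
        gcongr
        linarith
    _ = _ := by ring

end Pool.Agent.Work.MP_82fd4a_nt.P
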