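import Pool.Agent.Work.MP_678620_nt.VKMain

/-! Sums of `p ^ (i t)` over the primes of an interval.

Plan. `vk_lambda (A + 1)` with `q = 1`, `χ = 1` bounds `∑ n ∈ Icc 1 y, Λ n * nit n t` by
`y / log x ^ (A + 1)` for `a ≤ y ≤ b` (`exp (log x ^ (4/5)) ≤ x ^ η` eventually). Remove the prime powers as
in `DP_lv_sub_lp` of MP_678620_nt/MRGamA (copy it, do NOT import MRGamA; `Chebyshev.psi_sub_theta_le`,
error `2 √y log y`, `y ≥ x ^ η`). Abel summation with the decreasing weight `1 / log n` on `Ioc a b`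
(induction on `b`, or `Finset.sum_Ioc_by_parts`): the sum is at most `4 max / log a`, `log a ≥ 1`.
If `b ≤ a` the sum is empty. -/

set_option autoImplicit false
open Finset Filter Pool.Agent.Lib.MR

namespace Pool.Agent.Work.MP_82fd4a_nt.P

lemma VKp_abel {c : ℕ → ℂ} {w : ℕ → ℝ} {a b : ℕ} {M : ℝ} (hab : a ≤ b) (h0 : 0 ≤ w b)
    (hw : ∀ y, a ≤ y → w (y + 1) ≤ w y) (hM : ∀ y, a ≤ y → y ≤ b → ‖∑ n ∈ Ioc a y, c n‖ ≤ M) :
    ‖∑ n ∈ Ioc a b, w n * c n‖ ≤ w a * M := by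
  have key : ∀ y, a ≤ y → y ≤ b →
      ‖∑ n ∈ Ioc a y, w n * c n - w y * ∑ n ∈ Ioc a y, c n‖ ≤ (w a - w y) * M := by
    intro y hy
    induction y, hy using Nat.le_induction with
    | base => simp
    | succ y hy ih =>
      intro hb
      have e : ∑ n ∈ Ioc a (y + 1), w n * c n - w (y + 1) * ∑ n ∈ Ioc a (y + 1), c n =
          (∑ n ∈ Ioc a y, w n * c n - w y * ∑ n ∈ Ioc a y, c n) +
            ((w y - w (y + 1) : ℝ) : ℂ) * ∑ n ∈ Ioc a y, c n := by
        rw [sum_Ioc_succ_top hy, sum_Ioc_succ_top hy]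
        push_cast
        ring
      have h1 := sub_nonneg.2 (hw y hy)
      have h2 := mul_le_mul_of_nonneg_left (hM y hy (by omega)) h1
      rw [e]
      refine (norm_add_le _ _).trans ?_
      rw [norm_mul, Complex.norm_real, Real.norm_of_nonneg h1]
      linarith [ih (by omega)]
  have h1 := norm_sub_norm_le (∑ n ∈ Ioc a b, w n * c n) (w b * ∑ n ∈ Ioc a b, c n)
  rw [norm_mul, Complex.norm_real, Real.norm_of_nonneg h0] at h1
  linarith [key b hab le_rfl, mul_le_mul_of_nonneg_left (hM b hab le_rfl) h0]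

/-- `log p * p ^ (i t)` on the primes -/
noncomputable def VKp_c (t : ℝ) (n : ℕ) : ℂ := if n.Prime then (Real.log n : ℂ) * nit n t else 0

lemma VKp_pp {y : ℕ} (hy : 1 ≤ y) (t : ℝ) :
    ‖∑ n ∈ Ioc 0 y, VKp_c t n‖ ≤ ‖∑ n ∈ Icc 1 y, (1 : DirichletCharacter ℂ 1) n *
      (ArithmeticFunction.vonMangoldt n : ℂ) * nit n t‖ + 2 * √(y : ℝ) * Real.log y := by
  rw [← Icc_add_one_left_eq_Ioc, zero_add]
  refine (norm_le_norm_add_norm_sub' _ _).trans (add_le_add le_rfl ?_)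
  refine le_trans ?_ (Chebyshev.psi_sub_theta_le (x := y) (by exact_mod_cast hy))
  rw [Chebyshev.psi, Chebyshev.theta, Nat.floor_natCast, sum_filter, ← sum_sub_distrib,
    ← sum_sub_distrib, ← Icc_add_one_left_eq_Ioc, zero_add]
  refine norm_sum_le_of_le _ fun n _ => ?_
  rw [MulChar.one_apply (isUnit_of_subsingleton _), one_mul, VKp_c]
  split_ifs with h
  · rw [ArithmeticFunction.vonMangoldt_apply_prime h, sub_self, sub_self, norm_zero]
  · rw [zero_sub, sub_zero, norm_neg, norm_mul, norm_nit, mul_one, Complex.norm_real,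
      Real.norm_of_nonneg ArithmeticFunction.vonMangoldt_nonneg]

lemma VKp_ev (A : ℕ) {η : ℝ} (hη : 0 < η) : ∀ᶠ l : ℝ in atTop, 4 ≤ l ∧ 1 ≤ η * l ∧
    l ^ (4 / 5 : ℝ) ≤ η * l ∧ 16 * l ^ (A + 1) ≤ Real.exp (η / 2 * l) := by
  filter_upwards [eventually_ge_atTop 4, eventually_ge_atTop η⁻¹,
    (tendsto_rpow_atTop (y := 1 / 5) (by norm_num)).eventually_ge_atTop η⁻¹,
    (tendsto_exp_mul_div_rpow_atTop (A + 1 : ℕ) _ (half_pos hη)).eventually_ge_atTop 16]
    with l h1 h2 h3 h4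
  have l0 : 0 < l := by linarith
  rw [inv_le_iff_one_le_mul₀' hη] at h2 h3
  rw [Real.rpow_natCast, le_div_iff₀ (by positivity)] at h4
  refine ⟨h1, h2, ?_, h4⟩
  have e : l = l ^ (1 / 5 : ℝ) * l ^ (4 / 5 : ℝ) := by
    rw [← Real.rpow_add l0]
    norm_num
  calc l ^ (4 / 5 : ℝ) = 1 * l ^ (4 / 5 : ℝ) := (one_mul _).symm
    _ ≤ η * l ^ (1 / 5 : ℝ) * l ^ (4 / 5 : ℝ) := by gcongr
    _ = η * l := by rw [mul_assoc, ← e]

theorem vk_primes (A : ℕ) {η : ℝ} (hη : 0 < η) : ∃ B : ℕ, ∀ᶠ x : ℕ in atTop, ∀ a b : ℕ,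
    (x : ℝ) ^ η ≤ a → b ≤ 2 * x → ∀ t : ℝ, Real.log x ^ B ≤ |t| → |t| ≤ (x : ℝ) ^ 3 →
    ‖DP ((Ioc a b).filter Nat.Prime) (fun _ => 1) t‖ ≤ b / Real.log x ^ A := by
  obtain ⟨B, hB⟩ := Pool.Agent.Work.MP_678620_nt.vk_lambda (A + 1)
  refine ⟨B, ?_⟩
  filter_upwards [hB, (Real.tendsto_log_atTop.comp tendsto_natCast_atTop_atTop).eventually
    (VKp_ev A hη), eventually_ge_atTop 2] with x h1 h2 hx a b ha hb t ht ht'
  have hx' : (2 : ℝ) ≤ x := by exact_mod_cast hx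
  rw [Real.rpow_def_of_pos (by linarith), mul_comm] at ha
  obtain ⟨l, e⟩ : ∃ l, l = Real.log x := ⟨_, rfl⟩
  simp only [Function.comp, ← e] at h1 h2 ha ht ⊢
  obtain ⟨k1, k2, k3, k4⟩ := h2
  have l0 : 0 < l := by linarith
  rcases le_or_gt b a with hba | hab
  · rw [Ioc_eq_empty_of_le hba, filter_empty, DP, sum_empty, norm_zero]
    positivity
  have a0 : (0 : ℝ) < a := (Real.exp_pos _).trans_le ha
  have hla : ∀ y, a ≤ y → 1 ≤ Real.log (y : ℕ) := fun y hy =>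
    k2.trans ((Real.le_log_iff_exp_le (a0.trans_le (by exact_mod_cast hy))).2
      (ha.trans (by exact_mod_cast hy)))
  have hT : ∀ y, a ≤ y → y ≤ b → ‖∑ n ∈ Ioc 0 y, VKp_c t n‖ ≤ b / l ^ A / 2 := by
    intro y hy hy'
    have y1 : (a : ℝ) ≤ y := by exact_mod_cast hy
    have y2 : (y : ℝ) ≤ b := by exact_mod_cast hy'
    have y0 : (0 : ℝ) < y := a0.trans_le y1
    have y3 : y ≤ x ^ 2 := by nlinarith
    have m1 := h1 1 1 (by simpa using one_le_pow₀ (by linarith)) t ht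
      (ht'.trans (pow_le_pow_right₀ (by linarith) (by norm_num))) y
      ((Real.exp_le_exp.2 k3).trans (ha.trans y1))
      (y3.trans (Nat.pow_le_pow_right (by omega) (by norm_num)))
    have m2 := VKp_pp (y := y) (by exact_mod_cast y0) t
    have m3 : Real.log y ≤ 2 * l := by
      have : Real.log y ≤ Real.log ((x : ℝ) ^ 2) := Real.log_le_log y0 (by exact_mod_cast y3)
      rwa [Real.log_pow, Nat.cast_ofNat, ← e] at this
    have m4 : 16 * l ^ (A + 1) ≤ √(y : ℝ) := k4.trans (Real.le_sqrt_of_sq_le (by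
      rw [← Real.exp_nat_mul, show ((2 : ℕ) : ℝ) * (η / 2 * l) = η * l by push_cast; ring]
      exact ha.trans y1))
    have m5 : y / l ^ (A + 1) ≤ b / l ^ A / 4 := by
      rw [div_div, pow_succ]
      gcongr
    have m6 : 2 * √(y : ℝ) * Real.log y ≤ b / l ^ A / 4 := by
      rw [div_div, le_div_iff₀ (by positivity)]
      calc 2 * √(y : ℝ) * Real.log y * (l ^ A * 4) ≤ 2 * √(y : ℝ) * (2 * l) * (l ^ A * 4) := by
            gcongr
        _ = √(y : ℝ) * (16 * l ^ (A + 1)) := by ring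
        _ ≤ √(y : ℝ) * √(y : ℝ) := by gcongr
        _ = y := Real.mul_self_sqrt y0.le
        _ ≤ b := y2
    linarith
  have key := VKp_abel (c := VKp_c t) (w := fun n => (Real.log n)⁻¹) (M := b / l ^ A) hab.le
    (inv_nonneg.2 (Real.log_natCast_nonneg b))
    (fun y hy => inv_anti₀ (by linarith [hla y hy])
      (Real.log_le_log (a0.trans_le (by exact_mod_cast hy)) (by push_cast; linarith)))
    (fun y hy hy' => by
      rw [eq_sub_of_add_eq' (sum_Ioc_consecutive (VKp_c t) a.zero_le hy)]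
      linarith [norm_sub_le (∑ n ∈ Ioc 0 y, VKp_c t n) (∑ n ∈ Ioc 0 a, VKp_c t n), hT y hy hy',
        hT a le_rfl hab.le])
  have e' : DP ((Ioc a b).filter Nat.Prime) (fun _ => 1) t =
      ∑ n ∈ Ioc a b, ((Real.log n)⁻¹ : ℝ) * VKp_c t n := by
    rw [DP, sum_filter]
    refine sum_congr rfl fun n hn => ?_
    have := hla n (mem_Ioc.1 hn).1.le
    rw [VKp_c]
    split_ifs
    · rw [← mul_assoc, ← Complex.ofReal_mul, inv_mul_cancel₀ (by linarith), Complex.ofReal_one]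
    · rw [mul_zero]
  rw [e']
  exact key.trans (mul_le_of_le_one_left (by positivity) (inv_le_one_of_one_le₀ (hla a le_rfl)))

end Pool.Agent.Work.MP_82fd4a_nt.P
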