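import Pool.Agent.Work.MP_82fd4a_nt.P.TIIa
import Pool.Agent.Work.MP_82fd4a_nt.P.VKp
import Pool.Agent.Work.MP_82fd4a_nt.TypeIIA

/-! One dyadic box of type II. -/

set_option autoImplicit false
open Finset Filter MeasureTheory Pool.Agent.Lib.MR

namespace Pool.Agent.Work.MP_82fd4a_nt.P

lemma TIIb_mellin {ι : Type*} (s : Finset ι) (nn : ι → ℕ) (x : ℕ) {T : ℝ} (hT : 0 < T) :
    ∫ u, (∑ i ∈ s, nit (nn i) u) * nit x (-u) ∂(cm T) =
      ((Real.pi * (T * ∑ i ∈ s, Real.exp (-(T * |Real.log (nn i) - Real.log x|))) : ℝ) : ℂ) := by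
  have h1 : ∀ i u, nit (nn i) u * nit x (-u) =
      Complex.exp (Complex.I * ((u * (Real.log (nn i) - Real.log x) : ℝ) : ℂ)) := fun i u => by
    rw [nit, nit, ← Complex.exp_add]
    congr 1; push_cast; ring
  have hE : ∀ y : ℝ, Trig fun u => Complex.exp (Complex.I * ((u * y : ℝ) : ℂ)) := fun y =>
    ⟨by fun_prop, 1, fun u => by
      beta_reduce; rw [mul_comm, Complex.norm_exp_ofReal_mul_I]⟩
  simp only [sum_mul, h1]
  rw [integral_finsetSum _ fun i _ => (hE _).integrable _]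
  simp only [integral_cm_exp hT]
  rw [← Complex.ofReal_sum, mul_sum, mul_sum]
  congr 1
  exact sum_congr rfl fun i _ => by ring

lemma TIIb_cmp {F : ℝ → ℂ} (hF : Trig F) {Φ : ℝ → ℝ} (hΦ : Measurable Φ) (h0 : ∀ u, 0 ≤ Φ u)
    (h1 : ∀ u, Φ u ≤ 1) {Z T T' U W : ℝ} (hZ : 0 ≤ Z) (h : ∀ u, ‖F u‖ ≤ Z * Φ u) (hT' : 0 < T')
    (hT : T' ≤ T) (hU : 0 < U) (hW : 0 < W) :
    ‖∫ u, F u ∂(cm T) - ∫ u, F u ∂(cm T')‖ ≤ Z * (2 * U ^ 3 / T' ^ 2 +
      ∫ u, {u : ℝ | U ≤ |u| ∧ |u| ≤ W}.indicator Φ u ∂(cm T) + 2 * T ^ 2 / W) := by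
  have hT0 : 0 < T := hT'.trans_le hT
  have w0 : ∀ u, 0 < wt T u := fun u => by unfold wt; positivity
  set r : ℝ → ℝ := fun u => wt T' u / wt T u with hr
  have rm : Measurable r := (measurable_wt T').div (measurable_wt T)
  have r1 : ∀ u, r u ≤ 1 := fun u => by
    rw [hr, div_le_one (w0 u)]
    unfold wt
    rw [div_le_div_iff₀ (by positivity) (by positivity)]
    have h1 : T' ^ 2 ≤ T ^ 2 := by gcongr
    nlinarith [mul_le_mul_of_nonneg_right h1 (sq_nonneg u)]
  have r2 : ∀ u, wt T' u ≤ r u := fun u => le_div_self (wt_nonneg _ _) (w0 u) (wt_le_one _ _)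
  have r0 : ∀ u, 0 ≤ r u := fun u => (wt_nonneg _ _).trans (r2 u)
  have r3 : ∀ u, 1 - r u ≤ u ^ 2 / T' ^ 2 := fun u => by
    have : 1 - wt T' u ≤ u ^ 2 / T' ^ 2 := by
      unfold wt
      rw [one_sub_div (by positivity)]
      refine div_le_div₀ (by positivity) (by linarith) (by positivity) (by nlinarith)
    linarith [r2 u]
  have e1 : ∫ u, F u ∂(cm T') = ∫ u, (r u : ℂ) * F u ∂(cm T) := by
    rw [integral_cm, integral_cm]
    refine integral_congr_ae (Eventually.of_forall fun u => ?_)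
    simp only [hr]
    rw [← mul_assoc, ← Complex.ofReal_mul, mul_div_cancel₀ _ (w0 u).ne']
  obtain ⟨B, hB⟩ := hF.2
  have i1 : Integrable (fun u => (r u : ℂ) * F u) (cm T) :=
    Integrable.of_bound ((Complex.measurable_ofReal.comp rm).mul hF.1.measurable).aestronglyMeasurable
      B (Eventually.of_forall fun u => by
        rw [norm_mul, Complex.norm_real, Real.norm_of_nonneg (r0 u)]
        exact (mul_le_of_le_one_left (norm_nonneg _) (r1 u)).trans (hB u))
  set S := {u : ℝ | U ≤ |u| ∧ |u| ≤ W} with hS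
  have mS : MeasurableSet S := (measurableSet_le measurable_const measurable_abs).inter
    (measurableSet_le measurable_abs measurable_const)
  have mV : MeasurableSet {u : ℝ | W < |u|} := measurableSet_lt measurable_const measurable_abs
  have j1 : Integrable ((Set.Ioo (-U) U).indicator fun _ : ℝ => U ^ 2 / T' ^ 2) (cm T) :=
    (integrable_const _).indicator measurableSet_Ioo
  have j2 : Integrable (S.indicator Φ) (cm T) :=
    (Integrable.of_bound hΦ.aestronglyMeasurable 1 (Eventually.of_forall fun u => by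
      rw [Real.norm_of_nonneg (h0 u)]; exact h1 u)).indicator mS
  have j3 : Integrable ({u : ℝ | W < |u|}.indicator fun _ => (1 : ℝ)) (cm T) :=
    (integrable_const _).indicator mV
  rw [e1, ← integral_sub (hF.integrable _) i1]
  refine (norm_integral_le_of_norm_le (((j1.add j2).add j3).const_mul Z)
    (Eventually.of_forall fun u => ?_)).trans ?_
  · rw [← one_sub_mul, norm_mul, ← Complex.ofReal_one, ← Complex.ofReal_sub, Complex.norm_real,
      Real.norm_of_nonneg (by linarith [r1 u])]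
    refine (mul_le_mul_of_nonneg_left (h u) (by linarith [r1 u])).trans ?_
    rw [mul_left_comm]
    refine mul_le_mul_of_nonneg_left ?_ hZ
    have a1 : 0 ≤ (Set.Ioo (-U) U).indicator (fun _ : ℝ => U ^ 2 / T' ^ 2) u :=
      Set.indicator_nonneg (fun _ _ => by positivity) u
    have a2 : 0 ≤ S.indicator Φ u := Set.indicator_nonneg (fun _ _ => h0 _) u
    have a3 : 0 ≤ {u : ℝ | W < |u|}.indicator (fun _ => (1 : ℝ)) u :=
      Set.indicator_nonneg (fun _ _ => zero_le_one) u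
    have b1 : (1 - r u) * Φ u ≤ Φ u := mul_le_of_le_one_left (h0 u) (by linarith [r0 u])
    simp only [Pi.add_apply]
    rcases lt_or_ge |u| U with c1 | c1
    · rw [Set.indicator_of_mem (show u ∈ Set.Ioo (-U) U from abs_lt.1 c1)]
      have b2 : (1 - r u) * Φ u ≤ 1 - r u := mul_le_of_le_one_right (by linarith [r1 u]) (h1 u)
      have b3 : u ^ 2 / T' ^ 2 ≤ U ^ 2 / T' ^ 2 :=
        div_le_div_of_nonneg_right (sq_le_sq' (abs_lt.1 c1).1.le (abs_lt.1 c1).2.le) (by positivity)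
      linarith [r3 u]
    rcases le_or_gt |u| W with c2 | c2
    · rw [Set.indicator_of_mem (show u ∈ S from ⟨c1, c2⟩)]
      linarith
    · rw [Set.indicator_of_mem (show u ∈ {u : ℝ | W < |u|} from c2)]
      linarith [h1 u]
  · rw [integral_const_mul]
    refine mul_le_mul_of_nonneg_left ?_ hZ
    have e2 := integral_add (j1.add j2) j3
    have e3 := integral_add j1 j2
    simp only [Pi.add_apply] at e2 e3 ⊢
    rw [e2, e3, integral_indicator_const _ measurableSet_Ioo, integral_indicator_const _ mV,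
      smul_eq_mul, smul_eq_mul, mul_one]
    have a1 : (cm T).real (Set.Ioo (-U) U) ≤ 2 * U := by
      have := ENNReal.toReal_mono (measure_Ioo_lt_top (μ := volume) (a := -U) (b := U)).ne
        (cm_le_volume T (Set.Ioo (-U) U))
      rw [Real.volume_Ioo, ENNReal.toReal_ofReal (by linarith)] at this
      exact le_trans this (by linarith)
    have a2 := mul_le_mul_of_nonneg_right a1 (show 0 ≤ U ^ 2 / T' ^ 2 by positivity)
    have a3 : 2 * U * (U ^ 2 / T' ^ 2) = 2 * U ^ 3 / T' ^ 2 := by ring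
    linarith [cm_tail T hW]

lemma TIIb_prod {n : ℕ} (P : Fin n → Finset ℕ) (hP : ∀ j, ∀ p ∈ P j, p.Prime) (u : ℝ) :
    ∑ p ∈ Fintype.piFinset P, nit (∏ j, p j) u = ∏ j, DP (P j) (fun _ => 1) u := by
  simp only [DP, one_mul]
  rw [prod_univ_sum]
  refine sum_congr rfl fun p hp => ?_
  have h : ∀ j, (p j : ℝ) ≠ 0 := fun j => by
    exact_mod_cast (hP j _ (Fintype.mem_piFinset.1 hp j)).ne_zero
  simp only [nit]
  rw [← Complex.exp_sum, Nat.cast_prod, Real.log_prod fun j _ => h j, mul_sum, Complex.ofReal_sum,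
    mul_sum]

lemma TIIb_ev (k : ℕ) : ∀ᶠ x : ℕ in atTop, Real.log x ^ k ≤ √(x : ℝ) := by
  have h := ((isLittleO_log_rpow_rpow_atTop (k : ℝ) (show (0 : ℝ) < 1 / 2 by norm_num)).comp_tendsto
    tendsto_natCast_atTop_atTop).bound one_pos
  filter_upwards [h] with x hx
  simp only [Function.comp, Real.rpow_natCast, one_mul] at hx
  rw [Real.norm_of_nonneg (by positivity : (0 : ℝ) ≤ (x : ℝ) ^ (1 / 2 : ℝ)),
    ← Real.sqrt_eq_rpow] at hx
  exact (le_abs_self _).trans hx

lemma TIIb_log (c : ℝ) : ∀ᶠ x : ℕ in atTop, c ≤ Real.log x :=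
  (Real.tendsto_log_atTop.comp tendsto_natCast_atTop_atTop).eventually_ge_atTop c

theorem box_cmp {τ δ η : ℝ} (hτ : 0 < τ) (hτ1 : τ ≤ 1 / 2) (hδ : 0 < δ) (hη : 0 < η) (M A : ℕ) :
    ∃ B : ℕ, A + 2 ≤ B ∧ ∀ᶠ x : ℕ in atTop, ∀ n ≤ M, ∀ lo hi q : Fin n → ℕ,
    (∀ j, (x : ℝ) ^ η ≤ lo j) → (∀ j, hi j ≤ 2 * x) → (∀ j, hi j ≤ 2 * q j) →
    (∀ j, hi j ≤ lo j + q j) → x < 2 * ∏ j, q j → ∏ j, q j ≤ 2 * x →
    Pack τ δ M (fun j => Real.log (q j) / Real.log x) →
    ∀ T T' : ℝ, Real.log x ^ B ≤ T' → T' ≤ T → T ≤ (x : ℝ) ^ τ →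
    |T * ∑ p ∈ Fintype.piFinset fun j => (Ioc (lo j) (hi j)).filter Nat.Prime, gk x T (∏ j, p j) -
      T' * ∑ p ∈ Fintype.piFinset fun j => (Ioc (lo j) (hi j)).filter Nat.Prime,
        gk x T' (∏ j, p j)| ≤ x / Real.log x ^ A := by
  obtain ⟨C, hC, H⟩ := box_int M hδ
  have hσ : 0 < δ / (1 + δ) := by positivity
  have hσ1 : δ / (1 + δ) ≤ 1 := by rw [div_le_one (by linarith)]; linarith
  obtain ⟨A1, hA1⟩ := exists_nat_ge (((3 * M + A + 2 : ℕ) : ℝ) / (δ / (1 + δ)) + 1)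
  obtain ⟨B1, hB1⟩ := vk_primes A1 hη
  set K : ℝ := 2 * C * (3 * ((M : ℝ) + 1)) ^ (3 * M) + 4 with hK
  have hM0 : (0 : ℝ) ≤ M := Nat.cast_nonneg M
  have hK4 : 4 ≤ K := le_add_of_nonneg_left (by positivity)
  refine ⟨2 * B1 + A + 2, by omega, ?_⟩
  filter_upwards [hB1, TIIb_ev (A + 2), TIIb_log (5 + K), eventually_ge_atTop 16]
    with x hvk hs hL hx n hn lo hi q hlo hhi hq1 hq2 hx1 hx2 hpk T T' hT' hTT hT
  set L := Real.log x with hLd
  have hx16 : (16 : ℝ) ≤ x := by exact_mod_cast hx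
  have hx0 : (0 : ℝ) < x := by linarith
  have hL1 : 1 ≤ L := by linarith
  have hL0 : 0 < L := by linarith
  have hT'2 : L ^ 2 ≤ T' := (pow_le_pow_right₀ hL1 (by omega)).trans hT'
  have hT'0 : 0 < T' := lt_of_lt_of_le (by positivity) hT'2
  have hT0 : 0 < T := hT'0.trans_le hTT
  have hTx : T ≤ x := hT.trans (by
    simpa using Real.rpow_le_rpow_of_exponent_le (show (1 : ℝ) ≤ x by linarith)
      (show τ ≤ 1 by linarith))
  have hsx : √(x : ℝ) ≤ x / 4 := Real.sqrt_le_iff.2 ⟨by positivity, by nlinarith⟩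
  set P : Fin n → Finset ℕ := fun j => (Ioc (lo j) (hi j)).filter Nat.Prime with hP
  have hq0 : ∀ j, 1 ≤ q j := fun j => Nat.pos_of_ne_zero fun h => by
    rw [prod_eq_zero (mem_univ j) h] at hx1; omega
  have hq3 : ∀ j, q j ≤ 2 * x := fun j => le_trans (single_le_prod' (f := q)
    (fun i _ => hq0 i) (mem_univ j)) hx2
  have hY : ∀ j, (1 : ℝ) ≤ q j := fun j => by exact_mod_cast hq0 j
  have hPp : ∀ j, ∀ p ∈ P j, p.Prime ∧ (p : ℝ) ≤ 2 * (q j : ℝ) := fun j p hp => by
    obtain ⟨a1, a2⟩ := mem_filter.1 hp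
    exact ⟨a2, by exact_mod_cast (mem_Ioc.1 a1).2.trans (hq1 j)⟩
  have hc : ∀ j, (#(P j) : ℝ) ≤ q j := fun j => by
    have h1 : #(P j) ≤ hi j - lo j := (card_filter_le _ _).trans (Nat.card_Ioc _ _).le
    have h2 := hq2 j
    exact_mod_cast (by omega : #(P j) ≤ q j)
  obtain ⟨j0⟩ : Nonempty (Fin n) := by
    rcases Nat.eq_zero_or_pos n with rfl | h
    · simp at hx1; omega
    · exact ⟨⟨0, h⟩⟩
  set Z : ℝ := ∏ j, (q j : ℝ) with hZ
  have hZ2 : Z ≤ 2 * x := by rw [hZ]; exact_mod_cast hx2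
  have hZ0 : 0 < Z := prod_pos fun j _ => by linarith [hY j]
  have hlog4 : Real.log (4 * x) ≤ 2 * L := by
    rw [hLd, two_mul, ← Real.log_mul hx0.ne' hx0.ne']
    exact Real.log_le_log (by positivity) (by nlinarith)
  have hA1' : 1 ≤ A1 := by
    have : (0 : ℝ) ≤ ((3 * M + A + 2 : ℕ) : ℝ) / (δ / (1 + δ)) := by positivity
    exact_mod_cast (by linarith : (1 : ℝ) ≤ A1)
  have hε1 : 2 / L ^ A1 ≤ 1 := by
    rw [div_le_one (by positivity)]
    exact le_trans (by linarith) (le_self_pow₀ hL1 (by omega))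
  set S := {u : ℝ | L ^ B1 ≤ |u| ∧ |u| ≤ (x : ℝ) ^ 3} with hS
  have mS : MeasurableSet S := (measurableSet_le measurable_const measurable_abs).inter
    (measurableSet_le measurable_abs measurable_const)
  have I1 := H x τ (3 * (M + 1) * L) (2 / L ^ A1) T n P (fun j => q j) S (by linarith) hτ hT0 hT hn
    hY hPp hc (fun j => by
      have h1 : Real.log (2 * (q j : ℝ)) ≤ Real.log (4 * x) :=
        Real.log_le_log (by linarith [hY j]) (by
          have : (q j : ℝ) ≤ 2 * x := by exact_mod_cast hq3 j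
          linarith)
      nlinarith)
    (by
      have h1 : Real.log 2 ≤ Real.log (4 * x) := Real.log_le_log (by norm_num) (by linarith)
      nlinarith)
    (by
      have h1 : Real.log (1 + T) ≤ Real.log (4 * x) := Real.log_le_log (by linarith) (by linarith)
      nlinarith)
    hpk mS (by positivity) hε1 fun u hu => by
      refine (Phi_le hY hc u j0).trans ?_
      rw [div_le_iff₀ (by linarith [hY j0])]
      refine (hvk _ _ (hlo j0) (hhi j0) u hu.1 hu.2).trans ?_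
      have : (hi j0 : ℝ) ≤ 2 * q j0 := by exact_mod_cast hq1 j0
      rw [div_mul_eq_mul_div]
      gcongr
  have I2 : (2 / L ^ A1) ^ (δ / (1 + δ)) ≤ 2 / L ^ (3 * M + A + 2) := by
    rw [Real.div_rpow (by norm_num) (by positivity)]
    refine div_le_div₀ (by norm_num) ?_ (by positivity) ?_
    · simpa using Real.rpow_le_rpow_of_exponent_le (show (1 : ℝ) ≤ 2 by norm_num) hσ1
    · rw [← Real.rpow_natCast, ← Real.rpow_natCast, ← Real.rpow_mul hL0.le]
      refine Real.rpow_le_rpow_of_exponent_le hL1 ?_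
      rw [← div_le_iff₀ hσ]
      linarith
  have I3 : ∫ u, S.indicator (Phi P fun j => q j) u ∂(cm T) ≤ (K - 4) / L ^ (A + 2) := by
    refine I1.trans ((mul_le_mul_of_nonneg_left I2 (by positivity)).trans (le_of_eq ?_))
    rw [hK, mul_pow]
    field_simp
    ring
  have tF : Trig fun u => (∑ p ∈ Fintype.piFinset P, nit (∏ j, p j) u) * nit x (-u) :=
    (Trig.sum fun p _ => Trig.nit _).mul
      ⟨(continuous_nit x).comp continuous_neg, 1, fun u => (norm_nit _ _).le⟩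
  have I4 := TIIb_cmp tF (continuous_Phi P fun j => q j).measurable (Phi_nonneg hY hc)
    (Phi_le_one hY hc) hZ0.le (fun u => by
      rw [norm_mul, norm_nit, mul_one, TIIb_prod P fun j p hp => (hPp j p hp).1, norm_prod, Phi,
        prod_div_distrib, ← hZ, mul_div_cancel₀ _ hZ0.ne'])
    hT'0 hTT (U := L ^ B1) (W := (x : ℝ) ^ 3) (by positivity) (by positivity)
  rw [TIIb_mellin _ _ _ hT0, TIIb_mellin _ _ _ hT'0, ← Complex.ofReal_sub, Complex.norm_real,
    Real.norm_eq_abs, ← mul_sub, abs_mul, abs_of_pos Real.pi_pos] at I4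
  have I5 : 2 * (L ^ B1) ^ 3 / T' ^ 2 ≤ 2 / L ^ (A + 2) := by
    rw [div_le_div_iff₀ (by positivity) (by positivity), mul_assoc]
    refine mul_le_mul_of_nonneg_left ?_ (by norm_num)
    refine le_trans ?_ (pow_le_pow_left₀ (by positivity) hT' 2)
    rw [← pow_mul, ← pow_mul, ← pow_add]
    exact pow_le_pow_right₀ hL1 (by omega)
  have I6 : 2 * T ^ 2 / (x : ℝ) ^ 3 ≤ 2 / L ^ (A + 2) := by
    rw [div_le_div_iff₀ (by positivity) (by positivity), mul_assoc]
    refine mul_le_mul_of_nonneg_left ?_ (by norm_num)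
    calc _ ≤ (x : ℝ) ^ 2 * x := by gcongr; linarith
      _ = _ := by ring
  have tr : ∀ R : ℝ, T' ≤ R → R ≤ x →
      |R * ∑ p ∈ Fintype.piFinset P, gk x R (∏ j, p j) - R * ∑ p ∈ Fintype.piFinset P,
        Real.exp (-(R * |Real.log (∏ j, p j : ℕ) - Real.log x|))| ≤ 1 := by
    intro R h1 h2
    have hR0 : 0 < R := hT'0.trans_le h1
    rw [← mul_sub, ← sum_sub_distrib, abs_mul, abs_of_pos hR0]
    have a1 := (abs_sum_le_sum_abs _ _).trans (sum_le_card_nsmul (Fintype.piFinset P)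
      (fun p => |gk x R (∏ j, p j) - Real.exp (-(R * |Real.log (∏ j, p j : ℕ) - Real.log x|))|)
      _ fun p hp => tii_trunc (by omega) (prod_pos fun j _ =>
        (hPp j _ (Fintype.mem_piFinset.1 hp j)).1.pos) hR0.le)
    have a2 : (#(Fintype.piFinset P) : ℝ) ≤ 2 * x := by
      rw [Fintype.card_piFinset, Nat.cast_prod]
      exact (prod_le_prod (fun j _ => Nat.cast_nonneg _) fun j _ => hc j).trans hZ2
    have a3 : Real.exp (-(R * Real.log 2)) ≤ 1 / x ^ 3 := by
      have h5 : 3 * L ≤ R * Real.log 2 := by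
        have := Real.log_two_gt_d9
        nlinarith
      calc _ ≤ Real.exp (-(3 * L)) := Real.exp_le_exp.2 (by linarith)
        _ = _ := by
          rw [Real.exp_neg, show (3 : ℝ) * L = ((3 : ℕ) : ℝ) * L by norm_num,
            Real.exp_nat_mul, Real.exp_log hx0, one_div]
    rw [nsmul_eq_mul] at a1
    calc _ ≤ (x : ℝ) * (2 * x * (1 / x ^ 3)) := by
          refine mul_le_mul h2 (a1.trans ?_) (abs_nonneg _) hx0.le
          gcongr
      _ = 2 / x := by field_simp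
      _ ≤ 1 := by rw [div_le_one hx0]; linarith
  have t1 := tr T hTT hTx
  have t2 := tr T' le_rfl (hTT.trans hTx)
  have I7 : Z * (2 * (L ^ B1) ^ 3 / T' ^ 2 + ∫ u, S.indicator (Phi P fun j => q j) u ∂(cm T) +
      2 * T ^ 2 / (x : ℝ) ^ 3) ≤ 2 * x * (K / L ^ (A + 2)) := by
    refine le_trans (mul_le_mul_of_nonneg_left (show _ ≤ K / L ^ (A + 2) from ?_) hZ0.le)
      (mul_le_mul_of_nonneg_right hZ2 (by positivity))
    have : K / L ^ (A + 2) = 2 / L ^ (A + 2) + (K - 4) / L ^ (A + 2) + 2 / L ^ (A + 2) := by ring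
    linarith
  have I8 : 2 * x * (K / L ^ (A + 2)) ≤ x / L ^ A / 2 := by
    have : 4 * K ≤ L ^ 2 := by nlinarith
    calc _ = x / L ^ A / 2 * (4 * K / L ^ 2) := by field_simp; ring
      _ ≤ _ := mul_le_of_le_one_right (by positivity) ((div_le_one (by positivity)).2 this)
  have I9 : 4 ≤ x / L ^ A := by
    rw [le_div_iff₀ (by positivity)]
    have : L ^ A ≤ L ^ (A + 2) := pow_le_pow_right₀ hL1 (by omega)
    linarith
  have I10 := le_mul_of_one_le_left (abs_nonneg (T * ∑ p ∈ Fintype.piFinset P,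
    Real.exp (-(T * |Real.log (∏ j, p j : ℕ) - Real.log x|)) - T' * ∑ p ∈ Fintype.piFinset P,
    Real.exp (-(T' * |Real.log (∏ j, p j : ℕ) - Real.log x|))))
    (show 1 ≤ Real.pi by linarith [Real.pi_gt_three])
  have I11 := abs_le.1 (I10.trans (I4.trans (I7.trans I8)))
  rw [abs_le] at t1 t2 ⊢
  constructor <;> linarith [t1.1, t1.2, t2.1, t2.2, I11.1, I11.2]

end Pool.Agent.Work.MP_82fd4a_nt.P
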