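import Pool.Agent.Work.MP_82fd4a_nt.P.Tc

/-! A faster program that checks the table of the costs. -/

set_option autoImplicit false

namespace Pool.Agent.Work.MP_82fd4a_nt.P

open BS Y

noncomputable section

/-- largest and smallest of `n` entries -/
def rlz (n : ℕ) : ℕ → ℕ → ℕ → ℕ :=
  Nat.rec (fun _ a b => Nat.add (Nat.add a (Nat.shiftLeft b 64))
      340282366920938463463374607431768211456)
    (fun _ ih V a b => ih (Nat.shiftRight V 20) (Nat.add a (Nat.sub (Nat.mod V 1048576) a))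
      (Nat.sub b (Nat.sub b (Nat.mod V 1048576)))) n

/-- the blocks of an entry -/
def blz (K q v n : ℕ) : ℕ :=
  Nat.rec 0 (fun i ih => Nat.add ih (Nat.shiftLeft
    (rlz (Nat.sub (Nat.sub (Nat.succ i) (Nat.sub (Nat.succ i) n)) (Nat.sub (Nat.succ i) q))
      (Nat.shiftRight v (Nat.mul 20 (Nat.succ (Nat.sub (Nat.succ i) q)))) 0 1048576)
    (Nat.mul 192 i))) K

/-- the ranges of an entry of length `n` inside a list of length `K + 1` -/
def enz (K v n : ℕ) : ℕ := Bool.rec (Bool.rec (blz K (Nat.succ (Nat.sub K n)) v n)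
    (Nat.mul (Nat.add (Nat.mul (Nat.mod (Nat.shiftRight v 20) 1048576) 18446744073709551617)
      340282366920938463463374607431768211456) (geo 192 K))
    (Nat.beq (Nat.shiftRight v 20) (Nat.mul (Nat.mod (Nat.shiftRight v 20) 1048576) (geo 20 n))))
  0 (Nat.beq v 0)

/-- the ranges of the entries of a stream -/
def chz (K W n : ℕ) (s : Tr) : ℕ :=
  Tr.rec 0 (fun v _ _ _ ih => Nat.add (enz K v n) (Nat.shiftLeft ih W)) s

/-- the table of the ranges of the entries and of their children -/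
def evz (K W : ℕ) (s : Tr) : ℕ → ℕ → Tr :=
  Tr.rec (fun _ _ => Tr.e) (fun v k _ ihk ihr n a => Tr.c
    (Nat.add (enz K v n) (Nat.shiftLeft (chz K W (Nat.succ n) k) a))
    (ihk (Nat.succ n) a) (ihr n (Nat.add a W))) s

/-- zero if one cost is right -/
def ckz (C x g o : ℕ) : ℕ := Nat.mul (Nat.sub 1 (Nat.shiftRight C 31)) (Nat.add
  (Nat.sub (Nat.add (Nat.mod x 18446744073709551616) 4096) o)
  (Nat.sub o (Nat.add (Nat.add (Nat.mod (Nat.shiftRight x 64) 18446744073709551616) 4096)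
    (Nat.mul C g))))

/-- zero if one cost is right -/
def cky (C x g : ℕ) : ℕ :=
  ckz C x g (Nat.mul (Nat.mod (Nat.shiftRight x 128) 18446744073709551616) 524288)

/-- zero if the costs of `n` consecutive cells are right -/
def csz (W o f n : ℕ) : ℕ → ℕ → ℕ → ℕ :=
  Nat.rec (fun _ _ _ => 0) (fun i ih V g X => Nat.add
    (cky (Nat.mod V 4294967296)
      (Nat.shiftRight (Nat.add o (Nat.mod X (Nat.pow 2 W))) (Nat.mul 192 i)) g)
    (ih (Nat.shiftRight V 32) f (Nat.shiftRight X W))) n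

/-- zero if the costs from the cell `j` on are right -/
def cvy (W c0 V c m R f o j0 j : ℕ) : ℕ :=
  csz W (Nat.mod o (Nat.pow 2 W)) f (Nat.sub R j)
    (Nat.shiftRight V (Nat.mul 32 (Nat.succ (Nat.sub j j0))))
    (Bool.rec f (Nat.mul f m) (Nat.ble j c)) (Nat.shiftRight o (Nat.mul W (Nat.succ (Nat.sub j c0))))

/-- zero if the costs of a list of cells are right -/
def cvz (K W c0 V c m R f o : ℕ) : ℕ :=
  Bool.rec (cvy W c0 V c m R f o (Nat.sub R K) (Nat.add c (Nat.sub (Nat.sub R K) c))) 0 (Nat.beq V 0)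

/-- one node of the table of the costs -/
def ccy (K W c0 a b V : ℕ) (ihk ihr : ℕ → ℕ → ℕ → ℕ → ℕ → ℕ → ℕ → ℕ → Tr → ℕ)
    (n d m R f o y u : ℕ) (s : Tr) (v : ℕ) (k r : Tr) : ℕ := Nat.add
  (Bool.rec 0 (Bool.rec
      (ihk (Nat.pred n) d (Nat.succ m) (Nat.sub R d) (Nat.mul f m) (Nat.add o v)
        (Nat.add y (Nat.mul d u)) (Nat.div u 128) (mrg s k))
      (cvz K W c0 V d (Nat.succ m) (Nat.sub R d) (Nat.mul f m) (Nat.add o v)) (Nat.ble n 1))
    (Nat.beq (Nat.add (Nat.sub (Nat.succ (Nat.add y (Nat.mul d u))) b)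
      (Nat.sub a (Nat.add (Nat.add y (Nat.mul d u)) (Nat.pred u)))) 0))
  (ihr n (Nat.succ d) 1 R f o y u r)

/-- zero if the costs of the lists of length `K` with key between `a` and `b` are right -/
def ccz (K W c0 a b : ℕ) (t : Tr) : ℕ → ℕ → ℕ → ℕ → ℕ → ℕ → ℕ → ℕ → Tr → ℕ :=
  Tr.rec (fun _ _ _ _ _ _ _ _ _ => 0) (fun V _ _ ihk ihr n d m R f o y u s => Bool.rec
    (Tr.rec (ccy K W c0 a b V ihk ihr n d m R f o y u s 0 Tr.e Tr.e)
      (fun v k r _ _ => ccy K W c0 a b V ihk ihr n d m R f o y u s v k r) s) 0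
    (Nat.ble R (Nat.mul (Nat.succ n) d))) t

/-- zero if the costs of the lists of length `K` with key between `a` and `b` are right -/
def cjob2 (N c0 K : ℕ) (tb tc : Tr) (a b : ℕ) : ℕ :=
  ccz K (Nat.mul 192 K) c0 a b tc K c0 1 N 1
    (Nat.shiftLeft (chz K (Nat.mul 192 K) 1 tb) (Nat.mul 192 K)) 0 562949953421312
    (evz K (Nat.mul 192 K) tb 1 (Nat.mul 192 K))

end

end Pool.Agent.Work.MP_82fd4a_nt.P
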