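import Pool.Agent.Work.MP_82fd4a_nt.P.Tc

/-! A third program that checks the table of the costs. -/

set_option autoImplicit false

namespace Pool.Agent.Work.MP_82fd4a_nt.P

open BS Y

noncomputable section

/-- zero if the entries are small -/
def wtb (t : Tr) : ℕ → ℕ :=
  Tr.rec (fun _ => 0) (fun v _ _ ihk ihr b =>
    Nat.add (Nat.add (Nat.shiftRight v b) (ihk (Nat.add b 20))) (ihr b)) t

/-- the entries of a stream as digits -/
def pk3 (W : ℕ) (s : Tr) : ℕ := Tr.rec 0 (fun v _ _ _ ih => Nat.add v (Nat.shiftLeft ih W)) s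

/-- the length of a stream -/
def ln3 (s : Tr) : ℕ := Tr.rec 0 (fun _ _ _ _ ih => Nat.succ ih) s

/-- spread `n` digits -/
def spr (F M n : ℕ) : ℕ → ℕ :=
  Nat.rec (fun _ => 0) (fun _ ih X =>
    Nat.add (Nat.land X M) (Nat.shiftLeft (ih (Nat.shiftRight X 20)) F)) n

/-- maximum of the digits, last step -/
def vm1 (V Y Z U : ℕ) : ℕ := Nat.add Y (Nat.land Z (Nat.sub U (Nat.shiftRight U V)))

/-- maximum of the digits, second step -/
def vm2 (V H Y Z : ℕ) : ℕ := vm1 V Y Z (Nat.land Z H)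

/-- maximum of the digits -/
def vm3 (V H X Y : ℕ) : ℕ := vm2 V H Y (Nat.sub (Nat.add X H) Y)

/-- maximum of `q` consecutive digits -/
def sld (V H q n : ℕ) : ℕ → ℕ → ℕ :=
  Nat.rec (fun _ T => T) (fun _ ih a T => Bool.rec (ih (Nat.mul 2 a) (vm3 V H T (Nat.shiftLeft T
    (Nat.mul (Nat.succ V) (Nat.sub a (Nat.sub a (Nat.sub q a))))))) T (Nat.ble q a)) n

/-- the ranges of the entries of a stream, last step -/
def ch2 (K V n E S I : ℕ) : ℕ := Nat.add
  (sld V (Nat.mul (Nat.mul (Nat.pow 2 V) (geo (Nat.succ V) (Nat.succ (Nat.mul 2 K)))) E)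
    (Nat.succ (Nat.sub K n)) K 1 (Nat.add S (Nat.shiftLeft
      (Nat.sub (Nat.mul (Nat.mul 1048575 (geo (Nat.succ V) n)) I) S) (Nat.mul (Nat.succ V) K))))
  (Nat.shiftLeft I (Nat.mul (Nat.succ V) (Nat.mul 2 K)))

/-- the ranges of the entries of a stream, second step -/
def ch1 (K V U n X E : ℕ) : ℕ :=
  ch2 K V n E (spr (Nat.succ V) (Nat.mul 1048575 E) n (Nat.shiftRight X 20))
    (Nat.shiftRight (Nat.land (Nat.add X (Nat.mul (Nat.sub (Nat.pow 2 U) 1) E))
      (Nat.mul (Nat.pow 2 U) E)) U)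

/-- the ranges of the entries of a stream -/
def chm (K V W n : ℕ) (s : Tr) : ℕ := fz (ln3 s) fun c =>
  ch1 K V (Nat.sub W 1) (Nat.sub n (Nat.sub n K)) (pk3 W s) (geo W c)

/-- the table of the ranges of the children -/
def ev3 (K V W : ℕ) (s : Tr) : ℕ → Tr :=
  Tr.rec (fun _ => Tr.e) (fun _ k _ ihk ihr n => Tr.rec
    (Tr.rec Tr.e (fun v' k' r' _ _ => Tr.c 0 Tr.e (Tr.c v' k' r')) (ihr n))
    (fun _ _ _ _ _ => Tr.c (chm K V W n k) (ihk (Nat.succ n)) (ihr n)) k) s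

/-- zero if one cost is right -/
def ck3 (C A B k g : ℕ) : ℕ := Nat.mul (Nat.sub 1 (Nat.shiftRight C 31)) (Nat.add
  (Nat.sub (Nat.add A 4096) (Nat.mul k 524288))
  (Nat.sub B (Nat.add (Nat.add (Nat.mul k 524287) 4096) (Nat.mul C g))))

/-- zero if one cost is right -/
def cy3 (U M C g X x : ℕ) : ℕ := ck3 C (Nat.land x M) (Nat.land (Nat.shiftRight x U) M)
  (Nat.land (Nat.shiftRight X (Nat.add U U)) M) g

/-- zero if one cost is right -/
def cx3 (F U M C g i X : ℕ) : ℕ := cy3 U M C g X (Nat.shiftRight X (Nat.mul F i))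

/-- zero if the costs of `n` consecutive cells are right -/
def cs3 (F U W M L o f n : ℕ) : ℕ → ℕ → ℕ → ℕ :=
  Nat.rec (fun _ _ _ => 0) (fun i ih V g X => Nat.add
    (cx3 F U M (Nat.land V 4294967295) g i (Nat.add o (Nat.land X L)))
    (ih (Nat.shiftRight V 32) f (Nat.shiftRight X W))) n

/-- zero if the costs from the cell `j` on are right -/
def cu3 (F U W M L V c m R f o p j0 j : ℕ) : ℕ :=
  cs3 F U W M L o f (Nat.sub R j) (Nat.shiftRight V (Nat.mul 32 (Nat.succ (Nat.sub j j0))))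
    (Bool.rec f (Nat.mul f m) (Nat.ble j c)) (Nat.shiftRight p (Nat.mul W (Nat.sub j c)))

/-- zero if the costs of a list of cells are right -/
def cv3 (K F U W M L V c m R f o p : ℕ) : ℕ :=
  Bool.rec (cu3 F U W M L V c m R f o p (Nat.sub R K) (Nat.add c (Nat.sub (Nat.sub R K) c))) 0
    (Nat.beq V 0)

/-- one node of the table of the costs -/
def cb3 (K F U W M L a b V : ℕ) (ihk ihr : ℕ → ℕ → ℕ → ℕ → ℕ → ℕ → ℕ → ℕ → ℕ → Tr → ℕ)
    (n d m R f o p y u : ℕ) (s : Tr) (v : ℕ) (k r : Tr) : ℕ := Nat.add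
  (Bool.rec 0 (Bool.rec
      (ihk (Nat.pred n) d (Nat.succ m) (Nat.sub R d) (Nat.mul f m) (Nat.add o (Nat.land p L))
        (Nat.add p v) (Nat.add y (Nat.mul d u)) (Nat.div u 128) (mrg s k))
      (cv3 K F U W M L V d (Nat.succ m) (Nat.sub R d) (Nat.mul f m) (Nat.add o (Nat.land p L))
        (Nat.add p v)) (Nat.ble n 1))
    (Nat.beq (Nat.add (Nat.sub (Nat.succ (Nat.add y (Nat.mul d u))) b)
      (Nat.sub a (Nat.add (Nat.add y (Nat.mul d u)) (Nat.pred u)))) 0))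
  (ihr n (Nat.succ d) 1 R f o (Nat.shiftRight p W) y u r)

/-- zero if the costs of the lists of length `K` with key between `a` and `b` are right -/
def cc3 (K F U W M L a b : ℕ) (t : Tr) : ℕ → ℕ → ℕ → ℕ → ℕ → ℕ → ℕ → ℕ → ℕ → Tr → ℕ :=
  Tr.rec (fun _ _ _ _ _ _ _ _ _ _ => 0) (fun V _ _ ihk ihr n d m R f o p y u s => Bool.rec
    (Tr.rec (cb3 K F U W M L a b V ihk ihr n d m R f o p y u s 0 Tr.e Tr.e)
      (fun v k r _ _ => cb3 K F U W M L a b V ihk ihr n d m R f o p y u s v k r) s) 0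
    (Nat.ble R (Nat.mul (Nat.succ n) d))) t

/-- zero if the costs of the lists of length `K` with key between `a` and `b` are right -/
def cjob3 (N c0 K V F U W M L : ℕ) (tb tc : Tr) (a b : ℕ) : ℕ :=
  cc3 K F U W M L a b tc K c0 1 N 1 0 (chm K V W 1 tb) 0 562949953421312 (ev3 K V W tb 2)

end

end Pool.Agent.Work.MP_82fd4a_nt.P
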