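import Pool.Agent.Work.MP_82fd4a_nt.NDefs
import Pool.Agent.Lib.LargeSieve.Additive

/-! The variance of divisor sums in short intervals by the large sieve.

Plan. `fa a k = (1 / a) ∑ h ∈ Ico 1 a, ee (k h / a)`. Collect reduced fractions `r / s`
(`h = r a / s`, `s ∣ a`, `2 ≤ s`): the inner sum is `∑ s ∈ Icc 2 F, ∑ r coprime to s,
g s * D (r / s) * ee (n r / s)`, `g s = ∑ a ∈ A with s ∣ a, α a / a`, `|g s| ≤ C HH F / s`,
`D u = ∑ j ∈ range J, ee ((1 + j) u)`. One way: prove for each `a` that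
`∑ h ∈ range a, φ (h / a) = ∑ s ∈ a.divisors, ∑ r ∈ (range s).filter (Coprime · s), φ (r / s)`
(the term `s = 1` is `h = 0`). `largeSieve_dual` with `farey_spaced` (as in `largeSieve_farey`) gives
the factor `N + F ^ 2 HH (F ^ 2)`; Parseval mod `s`:
`∑ r ∈ range s, ‖D (r / s)‖ ^ 2 = s * #{(j, j') : j ≡ j' mod s} ≤ s J (J / s + 1)`, the term `r = 0` is
`J ^ 2`, so the terms `r ≠ 0` sum to at most `s J`. Total `∑ s, (C HH F / s) ^ 2 s J ≤ C ^ 2 HH F ^ 3 J`,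
`HH_le`. If `F = 0` then `A` is empty. -/

set_option autoImplicit false
open Finset

namespace Pool.Agent.Work.MP_82fd4a_nt.P

open Pool.Agent.Lib.LargeSieve

/-- orthogonality of the additive characters -/
lemma VarW_orth {s : ℕ} (hs : 0 < s) (m : ℤ) :
    ∑ r ∈ range s, ee ((m : ℝ) * ((r : ℝ) / s)) = if (s : ℤ) ∣ m then (s : ℂ) else 0 := by
  have hs' : (0 : ℝ) < s := by exact_mod_cast hs
  have e : ∀ r : ℕ, (m : ℝ) * ((r : ℝ) / s) = r * ((m : ℝ) / s) := fun r => by ring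
  simp_rw [e]
  split_ifs with h
  · obtain ⟨k, rfl⟩ := h
    have e2 : ∀ r : ℕ, ee ((r : ℝ) * ((((s : ℤ) * k : ℤ) : ℝ) / s)) = 1 := fun r => by
      rw [← ee_intCast ((r : ℤ) * k)]
      congr 1
      push_cast
      field_simp
    simp_rw [e2]
    simp
  · have hne : ee ((m : ℝ) / s) ≠ 1 := by
      intro h1
      have h4 := four_dZ_le ((m : ℝ) / s)
      rw [h1, sub_self, norm_zero] at h4
      have h5 : dZ ((m : ℝ) / s) = 0 := le_antisymm (by linarith) (dZ_nonneg _)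
      unfold dZ at h5
      rw [abs_eq_zero, sub_eq_zero, div_eq_iff hs'.ne'] at h5
      apply h
      refine ⟨round ((m : ℝ) / s), ?_⟩
      have h6 : (m : ℝ) = (((s : ℤ) * round ((m : ℝ) / s) : ℤ) : ℝ) := by
        push_cast
        linarith
      exact_mod_cast h6
    simp_rw [ee_nat_mul]
    rw [geom_sum_eq hne, ← ee_nat_mul]
    have e3 : (s : ℝ) * ((m : ℝ) / s) = (m : ℝ) := by field_simp
    rw [e3, ee_intCast, sub_self, zero_div]

/-- the reduced residues -/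
def VarW_R (s : ℕ) : Finset ℕ := (range s).filter (fun h => Nat.Coprime h s)

/-- collecting the reduced fractions -/
lemma VarW_reduce {a : ℕ} (ha : 0 < a) (φ : ℝ → ℂ) :
    ∑ h ∈ range a, φ ((h : ℝ) / a) = ∑ s ∈ a.divisors, ∑ r ∈ VarW_R s, φ ((r : ℝ) / s) := by
  rw [sum_sigma']
  symm
  refine sum_nbij' (fun p => p.2 * (a / p.1)) (fun h => ⟨a / Nat.gcd h a, h / Nat.gcd h a⟩)
    ?_ ?_ ?_ ?_ ?_
  · rintro ⟨s, r⟩ hp
    simp only [VarW_R, mem_sigma, Nat.mem_divisors, mem_filter, mem_range] at hp ⊢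
    obtain ⟨⟨⟨k, rfl⟩, -⟩, hr, -⟩ := hp
    have hs : 0 < s := by omega
    have hk : 0 < k := Nat.pos_of_mul_pos_left ha
    rw [Nat.mul_div_cancel_left k hs]
    exact Nat.mul_lt_mul_of_pos_right hr hk
  · intro h hh
    simp only [VarW_R, mem_sigma, Nat.mem_divisors, mem_filter, mem_range] at hh ⊢
    have hg : 0 < Nat.gcd h a := Nat.gcd_pos_of_pos_right h ha
    refine ⟨⟨Nat.div_dvd_of_dvd (Nat.gcd_dvd_right h a), ha.ne'⟩, ?_,
      Nat.coprime_div_gcd_div_gcd hg⟩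
    exact Nat.div_lt_div_of_lt_of_dvd (Nat.gcd_dvd_right h a) hh
  · rintro ⟨s, r⟩ hp
    simp only [VarW_R, mem_sigma, Nat.mem_divisors, mem_filter, mem_range] at hp
    obtain ⟨⟨⟨k, rfl⟩, -⟩, hr, hc⟩ := hp
    have hs : 0 < s := by omega
    have hk : 0 < k := Nat.pos_of_mul_pos_left ha
    have e1 : s * k / s = k := Nat.mul_div_cancel_left k hs
    have e2 : Nat.gcd (r * k) (s * k) = k := by
      rw [Nat.gcd_mul_right, hc.gcd_eq_one, one_mul]
    simp only [e1, e2, Nat.mul_div_cancel _ hk]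
  · intro h hh
    have hg : 0 < Nat.gcd h a := Nat.gcd_pos_of_pos_right h ha
    simp only
    rw [Nat.div_div_self (Nat.gcd_dvd_right h a) ha.ne',
      Nat.div_mul_cancel (Nat.gcd_dvd_left h a)]
  · rintro ⟨s, r⟩ hp
    simp only [VarW_R, mem_sigma, Nat.mem_divisors, mem_filter, mem_range] at hp
    obtain ⟨⟨⟨k, rfl⟩, -⟩, hr, hc⟩ := hp
    have hs : 0 < s := by omega
    have hk : 0 < k := Nat.pos_of_mul_pos_left ha
    have hs' : (s : ℝ) ≠ 0 := by exact_mod_cast hs.ne'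
    have hk' : (k : ℝ) ≠ 0 := by exact_mod_cast hk.ne'
    simp only [Nat.mul_div_cancel_left k hs]
    congr 1
    push_cast
    field_simp

/-- expansion of the centred indicator -/
lemma VarW_fa {F a : ℕ} (ha : a ∈ Icc 1 F) (k : ℕ) :
    ((fa a k : ℝ) : ℂ) = ∑ s ∈ Icc 2 F, ∑ r ∈ VarW_R s,
      (if s ∣ a then (1 / (a : ℂ)) else 0) * ee ((k : ℝ) * ((r : ℝ) / s)) := by
  rw [mem_Icc] at ha
  have ha0 : 0 < a := ha.1
  have ha' : (a : ℂ) ≠ 0 := by exact_mod_cast ha0.ne'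
  have h1 := VarW_orth ha0 (k : ℤ)
  rw [VarW_reduce ha0 (fun u => ee (((k : ℤ) : ℝ) * u)),
    ← add_sum_erase _ _ (Nat.one_mem_divisors.2 ha0.ne')] at h1
  have h2 : ∑ r ∈ VarW_R 1, ee (((k : ℤ) : ℝ) * ((r : ℝ) / (1 : ℕ))) = 1 := by
    have : VarW_R 1 = {0} := by decide
    rw [this]; simp
  rw [h2] at h1
  have h3 : a.divisors.erase 1 = (Icc 2 F).filter (· ∣ a) := by
    ext s
    simp only [mem_erase, Nat.mem_divisors, mem_filter, mem_Icc]
    constructor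
    · rintro ⟨h, hd, -⟩
      have := Nat.pos_of_dvd_of_pos hd ha0
      have := Nat.le_of_dvd ha0 hd
      exact ⟨⟨by omega, by omega⟩, hd⟩
    · rintro ⟨⟨h, -⟩, hd⟩
      exact ⟨by omega, hd, ha0.ne'⟩
  rw [h3, sum_filter] at h1
  have h4 : ∑ s ∈ Icc 2 F, ∑ r ∈ VarW_R s,
      (if s ∣ a then (1 / (a : ℂ)) else 0) * ee ((k : ℝ) * ((r : ℝ) / s)) =
      (1 / (a : ℂ)) * ∑ s ∈ Icc 2 F,
        if s ∣ a then ∑ r ∈ VarW_R s, ee (((k : ℤ) : ℝ) * ((r : ℝ) / s)) else 0 := by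
    rw [mul_sum]
    refine sum_congr rfl fun s _ => ?_
    split_ifs
    · rw [mul_sum]; simp
    · simp
  rw [h4, eq_sub_of_add_eq' h1]
  unfold fa
  simp only [Int.natCast_dvd_natCast]
  split_ifs
  · push_cast; field_simp
  · push_cast; ring

/-- the kernel of the window -/
noncomputable def VarW_D (J : ℕ) (u : ℝ) : ℂ := ∑ j ∈ range J, ee (((1 + j : ℕ) : ℝ) * u)

lemma VarW_count {s : ℕ} (hs : 0 < s) (J j : ℕ) :
    ∑ i ∈ range J, (if (s : ℤ) ∣ (j : ℤ) - i then (s : ℝ) else 0) ≤ J + s := by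
  have h1 : ∑ i ∈ range J, (if (s : ℤ) ∣ (j : ℤ) - i then (s : ℝ) else 0) =
      (J.count (· ≡ j [MOD s]) : ℝ) * s := by
    rw [Nat.count_eq_card_filter_range, ← sum_filter, sum_const, nsmul_eq_mul]
    congr 3
    ext i
    simp only [mem_filter, Nat.modEq_iff_dvd]
  rw [h1, Nat.count_modEq_card J hs j]
  have h2 : (J / s + if j % s < J % s then 1 else 0) * s ≤ J + s := by
    have := Nat.div_mul_le_self J s
    split_ifs
    · rw [add_mul]; omega
    · rw [add_zero]; omega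
  exact_mod_cast h2

/-- Parseval modulo `s` -/
lemma VarW_parseval {s : ℕ} (hs : 2 ≤ s) (J : ℕ) :
    ∑ r ∈ VarW_R s, ‖VarW_D J ((r : ℝ) / s)‖ ^ 2 ≤ (s : ℝ) * J := by
  have hs0 : 0 < s := by omega
  have h1 : ((∑ r ∈ range s, ‖VarW_D J ((r : ℝ) / s)‖ ^ 2 : ℝ) : ℂ) =
      ((∑ j ∈ range J, ∑ i ∈ range J, (if (s : ℤ) ∣ (j : ℤ) - i then (s : ℝ) else 0) : ℝ) : ℂ) := by
    rw [Complex.ofReal_sum, Complex.ofReal_sum]
    unfold VarW_D
    simp_rw [normSq_sum_eq]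
    rw [sum_comm]
    refine sum_congr rfl fun j _ => ?_
    rw [sum_comm, Complex.ofReal_sum]
    refine sum_congr rfl fun i _ => ?_
    have e : ∀ r : ℕ, ee (((1 + j : ℕ) : ℝ) * ((r : ℝ) / s)) *
        (starRingEnd ℂ) (ee (((1 + i : ℕ) : ℝ) * ((r : ℝ) / s))) =
        ee (((((j : ℤ) - i : ℤ)) : ℝ) * ((r : ℝ) / s)) := fun r => by
      rw [conj_ee, ← ee_add]
      congr 1
      push_cast
      ring
    simp_rw [e]
    rw [VarW_orth hs0]
    split_ifs <;> simp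
  have h2 := Complex.ofReal_injective h1
  have h3 : ∑ j ∈ range J, ∑ i ∈ range J, (if (s : ℤ) ∣ (j : ℤ) - i then (s : ℝ) else 0) ≤
      J * ((J : ℝ) + s) := by
    refine (sum_le_card_nsmul _ _ _ fun j _ => VarW_count hs0 J j).trans ?_
    rw [card_range, nsmul_eq_mul]
  rw [← h2, ← add_sum_erase _ _ (mem_range.2 hs0)] at h3
  have h4 : ‖VarW_D J (((0 : ℕ) : ℝ) / s)‖ ^ 2 = (J : ℝ) ^ 2 := by
    simp [VarW_D]
  rw [h4] at h3
  have h5 : ∑ r ∈ VarW_R s, ‖VarW_D J ((r : ℝ) / s)‖ ^ 2 ≤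
      ∑ r ∈ (range s).erase 0, ‖VarW_D J ((r : ℝ) / s)‖ ^ 2 := by
    refine sum_le_sum_of_subset_of_nonneg (fun r hr => ?_) fun _ _ _ => by positivity
    simp only [VarW_R, mem_filter] at hr
    refine mem_erase.2 ⟨?_, hr.1⟩
    rintro rfl
    have := hr.2
    rw [Nat.coprime_zero_left] at this
    omega
  nlinarith

/-- the coefficient of a denominator -/
noncomputable def VarW_g (A : Finset ℕ) (α : ℕ → ℝ) (s : ℕ) : ℂ :=
  ∑ a ∈ A, (α a : ℂ) * (if s ∣ a then (1 / (a : ℂ)) else 0)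

lemma VarW_g_le {F : ℕ} (A : Finset ℕ) (hA : A ⊆ Icc 1 F) (α : ℕ → ℝ) {C : ℝ}
    (hα : ∀ a ∈ A, |α a| ≤ C) {s : ℕ} (hs : 0 < s) :
    ‖VarW_g A α s‖ ≤ |C| * HH F / s := by
  have hs' : (0 : ℝ) < s := by exact_mod_cast hs
  unfold VarW_g
  refine (norm_sum_le _ _).trans ?_
  calc ∑ a ∈ A, ‖(α a : ℂ) * (if s ∣ a then (1 / (a : ℂ)) else 0)‖
      ≤ ∑ a ∈ A, |C| * (if s ∣ a then (1 / (a : ℝ)) else 0) := by
        refine sum_le_sum fun a ha => ?_
        rw [norm_mul, Complex.norm_real, Real.norm_eq_abs]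
        refine mul_le_mul ((hα a ha).trans (le_abs_self C)) (le_of_eq ?_) (norm_nonneg _)
          (abs_nonneg _)
        split_ifs <;> simp
    _ ≤ ∑ a ∈ Icc 1 F, |C| * (if s ∣ a then (1 / (a : ℝ)) else 0) := by
        refine sum_le_sum_of_subset_of_nonneg hA fun a _ _ => ?_
        split_ifs <;> positivity
    _ = |C| * ∑ a ∈ (Icc 1 F).filter (s ∣ ·), (1 / (a : ℝ)) := by
        rw [← mul_sum, sum_filter]
    _ ≤ |C| * ∑ a ∈ (Icc 1 F).image (s * ·), (1 / (a : ℝ)) := by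
        refine mul_le_mul_of_nonneg_left ?_ (abs_nonneg _)
        refine sum_le_sum_of_subset_of_nonneg (fun a ha => ?_) fun _ _ _ => by positivity
        simp only [mem_filter, mem_Icc, mem_image] at ha ⊢
        obtain ⟨⟨h1, h2⟩, b, rfl⟩ := ha
        refine ⟨b, ⟨Nat.pos_of_mul_pos_left h1, ?_⟩, rfl⟩
        exact (Nat.le_mul_of_pos_left b hs).trans h2
    _ = |C| * HH F / s := by
        rw [sum_image fun a _ b _ h => Nat.eq_of_mul_eq_mul_left hs h, mul_div_assoc]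
        congr 1
        unfold HH
        rw [sum_div]
        refine sum_congr rfl fun a _ => ?_
        push_cast
        rw [div_div, mul_comm]

/-- expansion of the window sum -/
lemma VarW_expand {F : ℕ} (A : Finset ℕ) (hA : A ⊆ Icc 1 F) (α : ℕ → ℝ) (J n : ℕ) :
    ((∑ j ∈ range J, ∑ a ∈ A, α a * fa a (n + 1 + j) : ℝ) : ℂ) =
      ∑ p ∈ (Icc 2 F).sigma VarW_R, (VarW_g A α p.1 * VarW_D J ((p.2 : ℝ) / p.1)) *
        ee (n * ((p.2 : ℝ) / p.1)) := by
  push_cast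
  have h1 : ∀ j ∈ range J, ∑ a ∈ A, (α a : ℂ) * ((fa a (n + 1 + j) : ℝ) : ℂ) =
      ∑ p ∈ (Icc 2 F).sigma VarW_R, VarW_g A α p.1 * ee (((1 + j : ℕ) : ℝ) * ((p.2 : ℝ) / p.1)) *
        ee (n * ((p.2 : ℝ) / p.1)) := by
    intro j _
    rw [sum_congr rfl fun a ha => by rw [VarW_fa (hA ha), sum_sigma', mul_sum], sum_comm]
    refine sum_congr rfl fun p _ => ?_
    unfold VarW_g
    rw [mul_assoc, ← ee_add, sum_mul]
    refine sum_congr rfl fun a _ => ?_
    rw [mul_assoc]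
    congr 3
    push_cast
    ring
  rw [sum_congr rfl h1, sum_comm]
  refine sum_congr rfl fun p _ => ?_
  unfold VarW_D
  rw [mul_sum, sum_mul]

theorem var_window {F : ℕ} (A : Finset ℕ) (hA : A ⊆ Icc 1 F) (α : ℕ → ℝ) {C : ℝ}
    (hα : ∀ a ∈ A, |α a| ≤ C) (N J : ℕ) :
    ∑ n ∈ range N, (∑ j ∈ range J, ∑ a ∈ A, α a * fa a (n + 1 + j)) ^ 2 ≤
      (N + (F : ℝ) ^ 2 * (1 + 2 * Real.log F)) * (C ^ 2 * (1 + Real.log F) ^ 3 * J) := by
  have hlog : 0 ≤ Real.log F := Real.log_natCast_nonneg F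
  rcases Nat.eq_zero_or_pos F with rfl | hF
  · have hA0 : A = ∅ := by simpa using hA
    subst hA0
    simp only [sum_empty, sum_const_zero]
    have : ∑ n ∈ range N, (0 : ℝ) ^ 2 = 0 := by simp
    rw [this]
    positivity
  have hd := largeSieve_dual ((Icc 2 F).sigma VarW_R) (fun p => (p.2 : ℝ) / p.1) (F ^ 2)
    (by positivity) (by
      rintro ⟨f, h⟩ hj ⟨f', h'⟩ hk hne
      simp only [VarW_R, mem_sigma, mem_filter, mem_range, mem_Icc] at hj hk
      refine farey_spaced (mem_Icc.2 ⟨one_le_two.trans hj.1.1, hj.1.2⟩)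
        (mem_Icc.2 ⟨one_le_two.trans hk.1.1, hk.1.2⟩) hj.2.1 hk.2.1 hj.2.2 hk.2.2 ?_
      intro he
      apply hne
      simp only [Prod.mk.injEq] at he
      obtain ⟨rfl, rfl⟩ := he
      rfl) N (fun p => VarW_g A α p.1 * VarW_D J ((p.2 : ℝ) / p.1))
  simp only [← VarW_expand A hA α J, Complex.norm_real, Real.norm_eq_abs, sq_abs] at hd
  refine hd.trans ?_
  have hH := HH_nonneg F
  have h1 : (N : ℝ) + ((F ^ 2 : ℕ) : ℝ) * HH (F ^ 2) ≤
      N + (F : ℝ) ^ 2 * (1 + 2 * Real.log F) := by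
    have := HH_le (F ^ 2)
    push_cast at this ⊢
    rw [Real.log_pow] at this
    push_cast at this
    gcongr
  have h2 : ∑ p ∈ (Icc 2 F).sigma VarW_R, ‖VarW_g A α p.1 * VarW_D J ((p.2 : ℝ) / p.1)‖ ^ 2 ≤
      C ^ 2 * (1 + Real.log F) ^ 3 * J := by
    rw [sum_sigma]
    calc ∑ s ∈ Icc 2 F, ∑ r ∈ VarW_R s, ‖VarW_g A α s * VarW_D J ((r : ℝ) / s)‖ ^ 2
        ≤ ∑ s ∈ Icc 2 F, C ^ 2 * HH F ^ 2 * J * (1 / (s : ℝ)) := by
          refine sum_le_sum fun s hs => ?_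
          have hs2 := (mem_Icc.1 hs).1
          have hs0 : 0 < s := by omega
          have hs' : (0 : ℝ) < s := by exact_mod_cast hs0
          simp_rw [norm_mul, mul_pow]
          rw [← mul_sum]
          calc ‖VarW_g A α s‖ ^ 2 * ∑ r ∈ VarW_R s, ‖VarW_D J ((r : ℝ) / s)‖ ^ 2
              ≤ (|C| * HH F / s) ^ 2 * ((s : ℝ) * J) :=
                mul_le_mul (pow_le_pow_left₀ (norm_nonneg _) (VarW_g_le A hA α hα hs0) 2)
                  (VarW_parseval hs2 J) (sum_nonneg fun _ _ => by positivity) (by positivity)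
            _ = C ^ 2 * HH F ^ 2 * J * (1 / (s : ℝ)) := by
                rw [div_pow, mul_pow, sq_abs]
                field_simp
      _ ≤ ∑ s ∈ Icc 1 F, C ^ 2 * HH F ^ 2 * J * (1 / (s : ℝ)) :=
          sum_le_sum_of_subset_of_nonneg (Icc_subset_Icc_left (by norm_num))
            fun _ _ _ => by positivity
      _ = C ^ 2 * HH F ^ 3 * J := by
          rw [← mul_sum]
          change C ^ 2 * HH F ^ 2 * J * HH F = _
          ring
      _ ≤ _ := by
          have := HH_le F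
          gcongr
  exact mul_le_mul h1 h2 (sum_nonneg fun _ _ => by positivity) (by positivity)

end Pool.Agent.Work.MP_82fd4a_nt.P
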