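import Pool.Agent.Work.MP_82fd4a_nt.NTypeI
import Pool.Agent.Work.MP_82fd4a_nt.P.VarW

/-! The type I estimate with two variables, with a power saving.

`nti_split` removes the mean. In a dyadic window `b ∈ [B, 2 B)` the coefficient `c k` is replaced by its
average over the next `J ≈ x ^ (1 - 6 e) / (B T)` integers (summation by parts against the unimodal weight
and the divisor bound); Cauchy-Schwarz and `var_window` bound the averaged sum. -/

set_option autoImplicit false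
open Finset Filter

namespace Pool.Agent.Work.MP_82fd4a_nt.P

lemma Var_shift (c : ℕ → ℝ) (a s : ℕ) {b : ℕ} (h : a ≤ b) : ∑ n ∈ Ioc a b, (c n - c (n + s)) =
    ∑ i ∈ range s, c (a + 1 + i) - ∑ i ∈ range s, c (b + 1 + i) := by
  induction b, h using Nat.le_induction with
  | base => simp
  | succ b h ih =>
    have h1 := sum_range_succ (fun i => c (b + 1 + i)) s
    have h2 := sum_range_succ' (fun i => c (b + 1 + i)) s
    have h3 : ∑ i ∈ range s, c (b + 1 + 1 + i) = ∑ i ∈ range s, c (b + 1 + (i + 1)) :=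
      sum_congr rfl fun i _ => congrArg c (by ring)
    rw [sum_Ioc_succ_top h, ih, h3]
    rw [add_zero] at h2
    linarith

/-- replacing a coefficient by its average over the next `J` integers -/
lemma Var_abel (x : ℕ) {T : ℝ} (hT : 0 ≤ T) {b J : ℕ} (hb : 0 < b) (c : ℕ → ℝ) {M : ℝ} (hM : 0 ≤ M)
    (hc : ∀ k, 1 ≤ k → k ≤ 2 * x + J → |c k| ≤ M) :
    |J * ∑ k ∈ Icc 1 (2 * x), c k * gk x T (b * k) -
      ∑ n ∈ Icc 1 (2 * x), (∑ j ∈ range J, c (n + 1 + j)) * gk x T (b * n)| ≤ 4 * J ^ 2 * M := by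
  have h1 : ∀ y ≤ 2 * x, ∀ j < J, |∑ i ∈ range (j + 1), c (y + 1 + i)| ≤ J * M := fun y hy j hj => by
    refine (abs_sum_le_sum_abs _ _).trans ((sum_le_card_nsmul _ _ M fun i hi =>
      hc _ (by omega) (by have := mem_range.1 hi; omega)).trans ?_)
    rw [card_range, nsmul_eq_mul]
    exact mul_le_mul_of_nonneg_right (by exact_mod_cast hj) hM
  have key : ∀ a a' : ℕ, a ≤ a' → b * a' ≤ 2 * x →
      |∑ n ∈ Ioc a a', (J * c n - ∑ j ∈ range J, c (n + 1 + j))| ≤ 2 * J ^ 2 * M := by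
    intro a a' h h'
    have h2 : a' ≤ 2 * x := (Nat.le_mul_of_pos_left a' hb).trans h'
    have e : ∀ n, J * c n - ∑ j ∈ range J, c (n + 1 + j) = ∑ j ∈ range J, (c n - c (n + (j + 1))) :=
      fun n => by
        rw [sum_sub_distrib, sum_const, card_range, nsmul_eq_mul]
        exact congrArg _ (sum_congr rfl fun j _ => congrArg c (by ring))
    rw [sum_congr rfl fun n _ => e n, sum_comm]
    refine (abs_sum_le_sum_abs _ _).trans ((sum_le_card_nsmul _ _ (J * M + J * M)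
      fun j hj => ?_).trans (le_of_eq ?_))
    · rw [Var_shift c a _ h]
      exact (abs_sub _ _).trans (add_le_add (h1 a (h.trans h2) j (mem_range.1 hj))
        (h1 a' h2 j (mem_range.1 hj)))
    · rw [card_range, nsmul_eq_mul]
      ring
  have a1 := abel_gk x hT hb (fun n => J * c n - ∑ j ∈ range J, c (n + 1 + j))
    (by positivity : 0 ≤ 2 * (J : ℝ) ^ 2 * M) fun a a' h h' => (abs_le.1 (key a a' h h')).2
  have a2 := abel_gk x hT hb (fun n => -(J * c n - ∑ j ∈ range J, c (n + 1 + j)))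
    (by positivity : 0 ≤ 2 * (J : ℝ) ^ 2 * M) fun a a' h h' => by
      rw [sum_neg_distrib]
      exact (neg_le_abs _).trans (key a a' h h')
  simp only [neg_mul, sum_neg_distrib] at a2
  simp only [sub_mul, sum_sub_distrib, mul_assoc, ← mul_sum] at a1 a2
  exact abs_le.2 ⟨by linarith, by linarith⟩

/-- one dyadic window -/
lemma Var_window {x B J : ℕ} (hB : 0 < B) (hBx : B ≤ x) {T : ℝ} (hT : 0 ≤ T) (S : Finset ℕ)
    (hS : ∀ b ∈ S, B ≤ b ∧ b < 2 * B) (β c : ℕ → ℝ) {C M V R : ℝ} (hC : 0 ≤ C) (hM : 0 ≤ M)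
    (hβ : ∀ b ∈ S, |β b| ≤ C) (hc : ∀ k, 1 ≤ k → k ≤ 2 * x + J → |c k| ≤ M)
    (hV : ∑ n ∈ range (2 * x / B + 1), (∑ j ∈ range J, c (n + 1 + j)) ^ 2 ≤ V) (hR : 0 ≤ R)
    (h : V * ((4 * B * Gam x T / x + 2) * (Gam x T + 2 * B)) ≤ R ^ 2) :
    J * |∑ b ∈ S, ∑ k ∈ Icc 1 (2 * x), β b * c k * gk x T (b * k)| ≤
      C * (R + B * (4 * J ^ 2 * M)) := by
  have hb0 : ∀ b ∈ S, 0 < b := fun b hb => hB.trans_le (hS b hb).1
  have hB0 : (0 : ℝ) < B := by exact_mod_cast hB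
  have hx0 : (0 : ℝ) < x := by exact_mod_cast hB.trans_le hBx
  have hcard : (#S : ℝ) ≤ B := by
    have h1 := card_le_card (show S ⊆ Ico B (2 * B) from fun b hb => mem_Ico.2 (hS b hb))
    rw [Nat.card_Ico] at h1
    exact_mod_cast h1.trans (by omega)
  have hΓ : 0 ≤ Gam x T := sum_nonneg fun n _ => gk_nonneg _ _ _
  set s : ℕ → ℝ := fun n => ∑ j ∈ range J, c (n + 1 + j) with hs
  set w : ℕ → ℝ := fun n => ∑ b ∈ S, gk x T (b * n) with hw
  have w0 : ∀ n, 0 ≤ w n := fun n => sum_nonneg fun _ _ => gk_nonneg _ _ _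
  have w1 : ∀ n, w n ≤ 4 * B * Gam x T / x + 2 := fun n => by
    by_cases h0 : w n = 0
    · rw [h0]; positivity
    obtain ⟨b, hb, hb'⟩ := exists_ne_zero_of_sum_ne_zero h0
    have h1 := (gk_ne_zero hb').1
    have h2 := Nat.mul_le_mul_right n (hS b hb).2.le
    have h3 : x ≤ 4 * B * n := by nlinarith
    have hn : 0 < n := Nat.pos_of_ne_zero fun e => by simp [e] at h1
    have h4 := (abs_le.1 (sum_gk_mul x hT hn)).2
    have h5 : w n ≤ ∑ b ∈ Icc 1 (2 * x), gk x T (n * b) := by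
      simp only [mul_comm n]
      exact sum_le_sum_of_subset_of_nonneg
        (fun b hb => mem_Icc.2 ⟨hb0 b hb, by have := (hS b hb).2; omega⟩) fun _ _ _ => gk_nonneg _ _ _
    have h6 : Gam x T / n ≤ 4 * B * Gam x T / x := by
      have h7 : (x : ℝ) ≤ 4 * B * n := by exact_mod_cast h3
      rw [div_le_div_iff₀ (by exact_mod_cast hn) hx0]
      nlinarith
    linarith
  have hK : Icc 1 (2 * x / B) ⊆ Icc 1 (2 * x) := Icc_subset_Icc_right (Nat.div_le_self _ _)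
  have w2 : ∑ n ∈ Icc 1 (2 * x / B), w n ≤ Gam x T + 2 * B := by
    refine (sum_le_sum_of_subset_of_nonneg hK fun n _ _ => w0 n).trans ?_
    rw [sum_comm]
    refine (sum_le_card_nsmul _ _ (Gam x T / B + 2) fun b hb => ?_).trans ?_
    · have h1 := (abs_le.1 (sum_gk_mul x hT (hb0 b hb))).2
      have h2 : Gam x T / b ≤ Gam x T / B :=
        div_le_div_of_nonneg_left hΓ hB0 (by exact_mod_cast (hS b hb).1)
      linarith
    · rw [nsmul_eq_mul]
      calc _ ≤ B * (Gam x T / B + 2) := by gcongr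
        _ = _ := by field_simp
  have m1 : ∑ n ∈ Icc 1 (2 * x), |s n| * w n ≤ R := by
    rw [← sum_subset hK fun n hn hn' => ?_]
    · refine (abs_le_of_sq_le_sq' ((sum_mul_sq_le_sq_mul_sq _ _ _).trans (le_trans ?_ h)) hR).2
      have h1 : ∑ n ∈ Icc 1 (2 * x / B), |s n| ^ 2 ≤ V := by
        simp only [sq_abs]
        exact (sum_le_sum_of_subset_of_nonneg (fun n hn => mem_range.2
          (Nat.lt_succ_of_le (mem_Icc.1 hn).2)) fun _ _ _ => sq_nonneg _).trans hV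
      refine mul_le_mul h1 ?_ (sum_nonneg fun _ _ => sq_nonneg _)
        ((sum_nonneg fun _ _ => sq_nonneg _).trans h1)
      refine le_trans ?_ (mul_le_mul_of_nonneg_left w2 (by positivity))
      rw [mul_sum]
      exact sum_le_sum fun n _ => by rw [sq]; exact mul_le_mul_of_nonneg_right (w1 n) (w0 n)
    · refine mul_eq_zero_of_right _ (sum_eq_zero fun b hb => ?_)
      by_contra h0
      refine hn' (mem_Icc.2 ⟨(mem_Icc.1 hn).1, (Nat.le_div_iff_mul_le hB).2 ?_⟩)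
      have h1 := (gk_ne_zero h0).2
      have h2 := Nat.mul_le_mul_right n (hS b hb).1
      rw [mul_comm]
      omega
  have m2 : ∀ b ∈ S, J * |∑ k ∈ Icc 1 (2 * x), β b * c k * gk x T (b * k)| ≤
      C * (∑ n ∈ Icc 1 (2 * x), |s n| * gk x T (b * n) + 4 * J ^ 2 * M) := fun b hb => by
    have h1 := Var_abel x hT (hb0 b hb) c hM hc
    have h2 : |∑ n ∈ Icc 1 (2 * x), s n * gk x T (b * n)| ≤
        ∑ n ∈ Icc 1 (2 * x), |s n| * gk x T (b * n) :=
      (abs_sum_le_sum_abs _ _).trans (sum_le_sum fun n _ => by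
        rw [abs_mul, abs_of_nonneg (gk_nonneg _ _ _)])
    have h3 := abs_sub_abs_le_abs_sub (J * ∑ k ∈ Icc 1 (2 * x), c k * gk x T (b * k))
      (∑ n ∈ Icc 1 (2 * x), s n * gk x T (b * n))
    rw [abs_mul, Nat.abs_cast] at h3
    simp only [mul_assoc (β b)]
    rw [← mul_sum, abs_mul, mul_left_comm]
    exact mul_le_mul (hβ b hb) (by linarith) (by positivity) hC
  refine (mul_le_mul_of_nonneg_left (abs_sum_le_sum_abs _ _) (Nat.cast_nonneg J)).trans ?_
  rw [mul_sum]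
  refine (sum_le_sum m2).trans ?_
  rw [← mul_sum, sum_add_distrib, sum_comm, sum_const, nsmul_eq_mul]
  simp only [← mul_sum]
  gcongr

lemma Var_coef (A : Finset ℕ) (α : ℕ → ℝ) {C : ℝ} (hC : 0 ≤ C) (hα : ∀ a ∈ A, |α a| ≤ C) {k : ℕ}
    (hk : 1 ≤ k) : |∑ a ∈ A, α a * fa a k| ≤ C * (#k.divisors + ∑ a ∈ A, 1 / (a : ℝ)) := by
  have h1 : ∑ a ∈ A, (if a ∣ k then (1 : ℝ) else 0) ≤ #k.divisors := by
    rw [sum_boole]
    exact_mod_cast card_le_card fun a ha => Nat.mem_divisors.2 ⟨(mem_filter.1 ha).2, by omega⟩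
  refine (abs_sum_le_sum_abs _ _).trans (le_trans ?_
    (mul_le_mul_of_nonneg_left (add_le_add_left h1 _) hC))
  rw [← sum_add_distrib, mul_sum]
  refine sum_le_sum fun a ha => ?_
  have h2 : 0 ≤ 1 / (a : ℝ) := by positivity
  rw [abs_mul]
  refine mul_le_mul (hα a ha) ?_ (abs_nonneg _) hC
  unfold fa
  split_ifs <;> rw [abs_le] <;> constructor <;> linarith

lemma Var_ev {e : ℝ} (he : 0 < e) : ∀ᶠ x : ℕ in atTop, 200 * (1 + 2 * Real.log x) ≤ (x : ℝ) ^ e ∧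
    ∀ k ≤ 3 * x, 2 * (#k.divisors : ℝ) ≤ (x : ℝ) ^ e := by
  obtain ⟨C, hC1, hC⟩ := Lib.ANT.exists_card_divisors_le (e / 2) (by positivity)
  have t := tendsto_natCast_atTop_atTop (R := ℝ)
  filter_upwards [t.eventually ((isLittleO_log_rpow_atTop he).bound (by norm_num : (0 : ℝ) < 1 / 800)),
    ((tendsto_rpow_atTop he).comp t).eventually_ge_atTop 400,
    ((tendsto_rpow_atTop (half_pos he)).comp t).eventually_ge_atTop (2 * C * 3 ^ (e / 2)),
    eventually_gt_atTop 0] with x h1 h2 h3 h4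
  have hx : (0 : ℝ) < x := by exact_mod_cast h4
  simp only [Function.comp] at h2 h3
  rw [Real.norm_of_nonneg (Real.log_natCast_nonneg x), Real.norm_of_nonneg (by positivity)] at h1
  refine ⟨by linarith, fun k hk => ?_⟩
  have h5 : (k : ℝ) ≤ 3 * x := by exact_mod_cast hk
  calc _ ≤ 2 * (C * (3 * x : ℝ) ^ (e / 2)) := by
        refine mul_le_mul_of_nonneg_left ((hC k).trans ?_) zero_le_two
        gcongr
    _ = 2 * C * 3 ^ (e / 2) * (x : ℝ) ^ (e / 2) := by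
        rw [Real.mul_rpow (by norm_num) hx.le]; ring
    _ ≤ (x : ℝ) ^ (e / 2) * (x : ℝ) ^ (e / 2) := by gcongr
    _ = _ := by rw [← Real.rpow_add hx, add_halves]

lemma Var_num {P T B F l u G J N : ℝ} (hT : 0 < T) (hB : 1 ≤ B) (hl : 1 ≤ l) (hu : 13 * l ≤ u)
    (hN0 : 0 ≤ N) (hN : B * N ≤ 3 * (P * T)) (a3 : B ^ 2 / T * (F ^ 2 * u ^ 20) ≤ P * P)
    (h1 : B * u ^ 20 ≤ P)
    (h2 : F ^ 2 * u ^ 20 ≤ P) (h3 : T * u ^ 20 ≤ P) (g1 : P ≤ 8 * G) (g2 : G ≤ 5 * P)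
    (hJ : P ≤ 2 * J * (B * u ^ 6)) :
    (N + F ^ 2 * l) * (u ^ 2 * l ^ 3 * J) * ((4 * B * G / (P * T) + 2) * (G + 2 * B)) ≤
      (J * G / u ^ 4) ^ 2 := by
  have hu0 : 0 < u := by linarith
  have hB0 : 0 < B := by linarith
  have hl0 : 0 < l := by linarith
  have hU : 1 ≤ u ^ 20 := one_le_pow₀ (by linarith)
  have hP : 0 < P := lt_of_lt_of_le (by positivity) h1
  have hG : 0 < G := by linarith
  have hJ0 : 0 < J := by
    have h4 := (mul_pos_iff_of_pos_right (by positivity : 0 < B * u ^ 6)).1 (hP.trans_le hJ)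
    linarith
  have hBP : B ≤ P := (le_mul_of_one_le_right hB0.le hU).trans h1
  have a1 : 4 * B * G / (P * T) ≤ 20 * B / T := by
    calc _ ≤ 4 * B * (5 * P) / (P * T) := by gcongr
      _ = _ := by field_simp; ring
  have a2 : B * N / T ≤ 3 * P := (div_le_iff₀ hT).2 (by linarith)
  have a4 : (N + F ^ 2 * l) * (20 * B / T + 2) * (B * u ^ 20) ≤ 88 * l * (P * P) := by
    calc _ = 20 * (B * N / T) * (B * u ^ 20) + 2 * (B * N / T) * (T * u ^ 20) +
          20 * l * (B ^ 2 / T * (F ^ 2 * u ^ 20)) + 2 * l * B * (F ^ 2 * u ^ 20) := by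
          field_simp; ring
      _ ≤ 20 * (3 * P) * P + 2 * (3 * P) * P + 20 * l * (P * P) + 2 * l * P * P := by gcongr
      _ = 66 * 1 * (P * P) + 22 * l * (P * P) := by ring
      _ ≤ 66 * l * (P * P) + 22 * l * (P * P) := by gcongr
      _ = _ := by ring
  refine le_of_mul_le_mul_right ?_ (by positivity : 0 < B * u ^ 20)
  calc _ ≤ (N + F ^ 2 * l) * (u ^ 2 * l ^ 3 * J) * ((20 * B / T + 2) * (17 * G)) * (B * u ^ 20) := by
        have : G + 2 * B ≤ 17 * G := by linarith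
        gcongr
    _ = (N + F ^ 2 * l) * (20 * B / T + 2) * (B * u ^ 20) * (17 * G * u ^ 2 * l ^ 3 * J) := by ring
    _ ≤ 88 * l * (8 * G * (2 * J * (B * u ^ 6))) * (17 * G * u ^ 2 * l ^ 3 * J) := by
        refine mul_le_mul_of_nonneg_right (a4.trans ?_) (by positivity)
        gcongr
    _ = 23936 * l ^ 4 * (G ^ 2 * J ^ 2 * B * u ^ 8) := by ring
    _ ≤ (13 * l) ^ 4 * (G ^ 2 * J ^ 2 * B * u ^ 8) := by
        rw [mul_pow]
        gcongr
        norm_num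
    _ ≤ u ^ 4 * (G ^ 2 * J ^ 2 * B * u ^ 8) := by gcongr
    _ = _ := by field_simp

theorem typeI3 {θ c : ℝ} (hθ : 1 / 2 < θ) (hθ1 : θ ≤ 1) (hc : 0 < c) (hc1 : c ≤ θ - 1 / 2) :
    ∃ e : ℝ, 0 < e ∧ ∀ᶠ x : ℕ in atTop, ∀ (α β : ℕ → ℝ) (A Bs : Finset ℕ),
    (∀ a ∈ A, 1 ≤ a ∧ (a : ℝ) ≤ (x : ℝ) ^ (θ / 2 - c)) → (∀ n ∈ A, |α n| ≤ (x : ℝ) ^ e) →
    (∀ b ∈ Bs, 1 ≤ b ∧ (b : ℝ) ≤ (x : ℝ) ^ (1 / 2 + c / 2)) → (∀ n ∈ Bs, |β n| ≤ (x : ℝ) ^ e) →
    ∀ T : ℝ, Real.log x ^ 2 ≤ T → T ≤ (x : ℝ) ^ (1 - θ) →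
    |∑ b ∈ Bs, ∑ a ∈ A, β b * α a * (sG x T (b * a) - Gam x T / (b * a))|
      ≤ Gam x T * (x : ℝ) ^ (-e) := by
  set e : ℝ := c / 40 with he
  have e0 : 0 < e := by positivity
  have hl : Tendsto (fun x : ℕ => Real.log x) atTop atTop :=
    Real.tendsto_log_atTop.comp tendsto_natCast_atTop_atTop
  refine ⟨e, e0, ?_⟩
  filter_upwards [Var_ev e0, hl.eventually_ge_atTop 5, eventually_ge_atTop 1]
    with x ⟨hu, hτ⟩ hL hxn α β A Bs hA hα hBs hβ' T hT hTx
  set X := ⌊(x : ℝ) ^ (1 / 2 + c / 2)⌋₊ with hXdef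
  set L := Real.log x with hLdef
  have hx1 : (1 : ℝ) ≤ x := by exact_mod_cast hxn
  have hx0 : (0 : ℝ) < x := by linarith
  have hXx : (X : ℝ) ≤ (x : ℝ) ^ (1 / 2 + c / 2) := Nat.floor_le (by positivity)
  have hX : 1 ≤ X := Nat.le_floor (by
    rw [Nat.cast_one]; exact Real.one_le_rpow hx1 (by linarith))
  have hBX : Bs ⊆ Icc 1 X := fun b hb => mem_Icc.2 ⟨(hBs b hb).1, Nat.le_floor (hBs b hb).2⟩
  have hT1 : 1 ≤ T := by nlinarith
  have hT0 : 0 < T := by linarith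
  have hpow : ∀ {s t : ℝ}, s ≤ t → (x : ℝ) ^ s ≤ (x : ℝ) ^ t := fun h =>
    Real.rpow_le_rpow_of_exponent_le hx1 h
  have hTle : T ≤ x := hTx.trans ((hpow (by linarith)).trans_eq (Real.rpow_one _))
  set F := ⌊(x : ℝ) ^ (θ / 2 - c)⌋₊ with hF
  have hF1 : (F : ℝ) ≤ (x : ℝ) ^ (θ / 2 - c) := Nat.floor_le (by positivity)
  have hAF : A ⊆ Icc 1 F := fun a ha => mem_Icc.2 ⟨(hA a ha).1, Nat.le_floor (hA a ha).2⟩
  have hFL : Real.log F ≤ L := by
    rcases Nat.eq_zero_or_pos F with h | h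
    · rw [h, Nat.cast_zero, Real.log_zero]; linarith
    · exact Real.log_le_log (by exact_mod_cast h)
        (hF1.trans ((hpow (by linarith)).trans_eq (Real.rpow_one _)))
  have hFL0 : 0 ≤ Real.log F := Real.log_natCast_nonneg F
  set P : ℝ := x / T with hP
  have hPT : (x : ℝ) = P * T := (div_mul_cancel₀ _ hT0.ne').symm
  have hPx : P ≤ x := div_le_self hx0.le hT1
  have key : ∀ {y s : ℝ}, y ≤ (x : ℝ) ^ s → s + 20 * e ≤ θ → y * ((x : ℝ) ^ e) ^ 20 ≤ P := by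
    intro y s h1 h2
    rw [hP, le_div_iff₀ hT0, ← Real.rpow_natCast, ← Real.rpow_mul hx0.le]
    calc _ ≤ (x : ℝ) ^ s * (x : ℝ) ^ (e * (20 : ℕ)) * (x : ℝ) ^ (1 - θ) := by gcongr
      _ = (x : ℝ) ^ (s + e * (20 : ℕ) + (1 - θ)) := by
        rw [Real.rpow_add hx0, Real.rpow_add hx0]
      _ ≤ _ := (hpow (by push_cast; linarith)).trans_eq (Real.rpow_one _)
  have hXx1 : (X : ℝ) ≤ x := hXx.trans ((hpow (by linarith)).trans_eq (Real.rpow_one _))
  have k1 := key hXx (by linarith)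
  have k4 : (X : ℝ) ^ 2 / T * ((F : ℝ) ^ 2 * ((x : ℝ) ^ e) ^ 20) ≤ P * P := by
    have b1 : (X : ℝ) ^ 2 * (F : ℝ) ^ 2 * ((x : ℝ) ^ e) ^ 20 * T ≤ x ^ 2 := by
      calc _ ≤ ((x : ℝ) ^ (1 / 2 + c / 2)) ^ 2 * ((x : ℝ) ^ (θ / 2 - c)) ^ 2 *
            ((x : ℝ) ^ e) ^ 20 * (x : ℝ) ^ (1 - θ) := by gcongr
        _ = (x : ℝ) ^ ((1 / 2 + c / 2) * (2 : ℕ) + (θ / 2 - c) * (2 : ℕ) + e * (20 : ℕ) +
            (1 - θ)) := by
          simp only [Real.rpow_add hx0 _ (1 - θ), Real.rpow_add hx0 _ (e * _),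
            Real.rpow_add hx0 _ ((θ / 2 - c) * _), Real.rpow_mul hx0.le, Real.rpow_natCast]
        _ ≤ (x : ℝ) ^ ((2 : ℕ) : ℝ) := hpow (by push_cast; linarith)
        _ = _ := Real.rpow_natCast _ _
    calc _ = (X : ℝ) ^ 2 * (F : ℝ) ^ 2 * ((x : ℝ) ^ e) ^ 20 * T / T ^ 2 := by field_simp
      _ ≤ x ^ 2 / T ^ 2 := by gcongr
      _ = _ := by rw [hP]; field_simp
  have k2 := key (y := (F : ℝ) ^ 2) (s := θ - 2 * c) (by
    rw [show θ - 2 * c = (θ / 2 - c) + (θ / 2 - c) by ring, Real.rpow_add hx0, sq]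
    gcongr) (by linarith)
  have k3 := key hTx (by linarith)
  rw [Real.rpow_neg hx0.le]
  generalize (x : ℝ) ^ e = u at *
  have hu1 : 200 ≤ u := by linarith
  have hu0 : 0 < u := by linarith
  have hΓ1 : P ≤ 8 * Gam x T := by
    have h := Gam_ge hT1 hTle
    rw [mul_comm, ← div_div, div_le_iff₀ (by norm_num)] at h
    linarith
  have hΓ2 : Gam x T ≤ 5 * P := (Gam_le hT0 hTle).trans_eq (mul_div_assoc _ _ _)
  have hP0 : 0 < P := by positivity
  have hΓ0 : 0 < Gam x T := by linarith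
  have hH : ∑ a ∈ A, 1 / (a : ℝ) ≤ u / 2 := by
    have h1 : ∑ a ∈ A, 1 / (a : ℝ) ≤ Lib.LargeSieve.HH F :=
      sum_le_sum_of_subset_of_nonneg hAF fun _ _ _ => by positivity
    linarith [Lib.LargeSieve.HH_le F]
  rw [nti_split x T α β A _ (fun a ha => (hA a ha).1) fun b hb => (hBs b hb).1]
  have s2 : |(∑ a ∈ A, α a * (1 / a)) * ∑ b ∈ Bs, β b * (sG x T b - Gam x T / b)| ≤
      Gam x T * u⁻¹ / 2 := by
    have h1 : |∑ a ∈ A, α a * (1 / a)| ≤ u * (u / 2) := by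
      refine (abs_sum_le_sum_abs _ _).trans (le_trans ?_ (mul_le_mul_of_nonneg_left hH hu0.le))
      rw [mul_sum]
      refine sum_le_sum fun a ha => ?_
      rw [abs_mul, abs_of_nonneg (by positivity : 0 ≤ 1 / (a : ℝ))]
      have := hα a ha
      gcongr
    have h2 : |∑ b ∈ Bs, β b * (sG x T b - Gam x T / b)| ≤ X * (u * 2) := by
      refine (abs_sum_le_sum_abs _ _).trans ((sum_le_card_nsmul _ _ (u * 2) fun b hb => ?_).trans
        (by
          have h5 : (#Bs : ℝ) ≤ X := by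
            exact_mod_cast (card_le_card hBX).trans (by simp)
          rw [nsmul_eq_mul]
          gcongr))
      rw [abs_mul]
      have := hβ' b hb
      have : |sG x T b - Gam x T / b| ≤ 2 := sum_gk_mul x hT0.le (hBs b hb).1
      gcongr
    rw [abs_mul]
    refine (mul_le_mul h1 h2 (abs_nonneg _) (by positivity)).trans ?_
    rw [← div_eq_mul_inv, div_div, le_div_iff₀ (by positivity)]
    have h3 : (16 : ℝ) ≤ u ^ 16 := by
      calc (16 : ℝ) ≤ u ^ 1 := by linarith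
        _ ≤ _ := pow_le_pow_right₀ (by linarith) (by norm_num)
    have h4 : 16 * (X * u ^ 4) ≤ u ^ 16 * (X * u ^ 4) := by gcongr
    calc _ = 16 * (X * u ^ 4) / 8 := by ring
      _ ≤ X * u ^ 20 / 8 := by linarith
      _ ≤ _ := by linarith
  have win : ∀ i ∈ range (Nat.log 2 X + 1), |∑ b ∈ Bs with Nat.log 2 b = i,
      ∑ k ∈ Icc 1 (2 * x), β b * (∑ a ∈ A, α a * fa a k) * gk x T (b * k)| ≤
        33 * Gam x T / u ^ 3 := by
    intro i hi
    set B : ℕ := 2 ^ i with hB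
    have hB0 : 0 < B := by positivity
    have hBX2 : B ≤ X := Nat.pow_le_of_le_log (by omega) (by have := mem_range.1 hi; omega)
    have hB1 : (1 : ℝ) ≤ B := by exact_mod_cast hB0
    have hBX' : (B : ℝ) ≤ X := by exact_mod_cast hBX2
    have hBx : (B : ℝ) ^ 2 / T * ((F : ℝ) ^ 2 * u ^ 20) ≤ P * P := le_trans (by gcongr) k4
    have hBx1 : (B : ℝ) ≤ x := hBX'.trans hXx1
    have hBP : B * u ^ 20 ≤ P := le_trans (by gcongr) k1
    have hq : 1 ≤ P / (B * u ^ 6) := by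
      rw [one_le_div (by positivity)]
      exact le_trans (mul_le_mul_of_nonneg_left
        (pow_le_pow_right₀ (by linarith) (by norm_num)) (by linarith)) hBP
    set J := ⌊P / (B * u ^ 6)⌋₊ with hJ
    have hJ1 : (1 : ℝ) ≤ J := by exact_mod_cast Nat.le_floor (by exact_mod_cast hq)
    have hJ2 : J * (B * u ^ 6) ≤ P := (le_div_iff₀ (by positivity)).1 (Nat.floor_le (by positivity))
    have hJ3 : P ≤ 2 * J * (B * u ^ 6) := by
      have := Nat.lt_floor_add_one (P / (B * u ^ 6))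
      exact (div_le_iff₀ (by positivity)).1 (by linarith)
    have hJx : J ≤ x := by
      have h1 : (1 : ℝ) ≤ B * u ^ 6 := one_le_mul_of_one_le_of_one_le hB1 (one_le_pow₀ (by linarith))
      have h2 := le_mul_of_one_le_right (by linarith : (0 : ℝ) ≤ J) h1
      exact_mod_cast h2.trans (hJ2.trans hPx)
    have hN : (B : ℝ) * ((2 * x / B + 1 : ℕ) : ℝ) ≤ 3 * (P * T) := by
      have h1 : (B : ℝ) * (2 * x / B : ℕ) ≤ 2 * x := by exact_mod_cast Nat.mul_div_le (2 * x) B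
      rw [Nat.cast_succ, ← hPT]
      linarith
    have hw := Var_window (J := J) hB0 (by exact_mod_cast hBx1) hT0.le
      (Bs.filter fun b => Nat.log 2 b = i) (fun b hb => by
        obtain ⟨b1, b2⟩ := mem_filter.1 hb
        have b3 : b ≠ 0 := by have := (hBs b b1).1; omega
        rw [hB, ← b2, ← pow_succ']
        exact ⟨Nat.pow_log_le_self 2 b3, Nat.lt_pow_succ_log_self one_lt_two b⟩)
      β (fun k => ∑ a ∈ A, α a * fa a k) hu0.le (M := u * u) (by positivity)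
      (fun b hb => hβ' b (mem_filter.1 hb).1)
      (fun k h1 h2 => (Var_coef A α hu0.le hα h1).trans (mul_le_mul_of_nonneg_left
        (by linarith [hτ k (by omega)]) hu0.le))
      (V := (((2 * x / B + 1 : ℕ) : ℝ) + (F : ℝ) ^ 2 * (1 + 2 * L)) * (u ^ 2 * (1 + 2 * L) ^ 3 * J))
      ((var_window A hAF α hα _ J).trans (by gcongr; linarith))
      (R := J * Gam x T / u ^ 4) (by positivity)
      (by
        rw [show 4 * B * Gam x T / (x : ℝ) = 4 * B * Gam x T / (P * T) by rw [← hPT]]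
        exact Var_num hT0 hB1 (by linarith) (by linarith) (by positivity) hN hBx hBP k2 k3
          hΓ1 hΓ2 hJ3)
    refine le_of_mul_le_mul_left (hw.trans ?_) (by linarith : (0 : ℝ) < J)
    calc _ = J * ((Gam x T + 4 * (J * (B * u ^ 6))) / u ^ 3) := by field_simp
      _ ≤ J * ((Gam x T + 4 * (8 * Gam x T)) / u ^ 3) := by
        have := hJ2.trans hΓ1
        gcongr
      _ = _ := by ring
  have s1 : |∑ b ∈ Bs, ∑ k ∈ Icc 1 (2 * x),
      β b * (∑ a ∈ A, α a * fa a k) * gk x T (b * k)| ≤ Gam x T * u⁻¹ / 2 := by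
    rw [← sum_fiberwise_of_maps_to (t := range (Nat.log 2 X + 1)) (g := Nat.log 2)
      fun b hb => mem_range.2 (Nat.lt_succ_of_le (Nat.log_mono_right (mem_Icc.1 (hBX hb)).2))]
    refine (abs_sum_le_sum_abs _ _).trans ((sum_le_card_nsmul _ _ _ win).trans ?_)
    rw [card_range, nsmul_eq_mul]
    have h1 : ((Nat.log 2 X + 1 : ℕ) : ℝ) ≤ 2 * L := by
      have h2 : (2 : ℝ) ^ Nat.log 2 X ≤ X := by
        exact_mod_cast Nat.pow_log_le_self 2 (by omega : X ≠ 0)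
      have h3 := Real.log_le_log (by positivity) (h2.trans hXx1)
      rw [Real.log_pow, ← hLdef] at h3
      have h4 := Real.log_two_gt_d9
      have h5 : (0 : ℝ) ≤ Nat.log 2 X := Nat.cast_nonneg _
      push_cast
      nlinarith
    have h2 : 132 * L ≤ u ^ 2 := by nlinarith
    calc _ ≤ 2 * L * (33 * Gam x T / u ^ 3) := by gcongr
      _ = 132 * L * (Gam x T / u ^ 3 / 2) := by ring
      _ ≤ u ^ 2 * (Gam x T / u ^ 3 / 2) := by gcongr
      _ = _ := by field_simp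
  refine (abs_add_le _ _).trans ?_
  linarith

end Pool.Agent.Work.MP_82fd4a_nt.P
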